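import Mathlib

/-! ### U.Defs -/

section

/-! MP_0d206b_gt: the exact definitions NS, IsW2 (PROOF_U.md, helper64), to be used by everybody. -/

set_option autoImplicit false

namespace Pool.Agent.Work.MP_0d206b_gt

open Set Filter Topology

universe u

/-- different and not separated -/
def NS {X : Type u} [TopologicalSpace X] (x y : X) : Prop :=
  x ≠ y ∧ ∀ U V : Set X, IsOpen U → IsOpen V → x ∈ U → y ∈ V → (U ∩ V).Nonempty

/-- simply connected (non-Hausdorff) one-manifolds: connected, second countable, locally `ℝ`, every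
point is a cut point -/
structure IsSC1 (X : Type u) [TopologicalSpace X] : Prop where
  conn : ConnectedSpace X
  sc : SecondCountableTopology X
  loc : ∀ x : X, ∃ f : ℝ → X, IsOpenEmbedding f ∧ x ∈ range f
  sep : ∀ x : X, ¬ IsPreconnected ({x}ᶜ : Set X)

/-- the simply connected one-manifold of type W2 -/
structure IsW2 (X : Type u) [TopologicalSpace X] : Prop extends IsSC1 X where
  types : ∀ x : X, (∀ y, ¬ NS x y) ∨ ∃ y z, y ≠ z ∧ ¬ NS y z ∧ ∀ w, NS x w ↔ w = y ∨ w = z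
  dense : Dense {x : X | ∃ y, NS x y}

end Pool.Agent.Work.MP_0d206b_gt

end

/-! ### U.Stmts -/

section

/-! Project MP_0d206b_gt, module U: uniqueness of the simply connected 1-manifold of type W2.
Definitions and the statements of the items.  Every item is a theorem with the given name and
signature, in its own file. -/

set_option autoImplicit false

namespace Pool.Agent.Work.MP_0d206b_gt.U

open Set Filter Topology Function

universe u v

section Defs

variable {X : Type u} [TopologicalSpace X]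

/-- A connected one-manifold (no separation axiom, no countability) in which every point is a cut
point.  (These are the simply connected one-manifolds.) -/
structure OneMfd (X : Type u) [TopologicalSpace X] : Prop where
  chart : ∀ x : X, ∃ φ : ℝ → X, IsOpenEmbedding φ ∧ φ 0 = x
  conn : ConnectedSpace X
  cut : ∀ x : X, ¬ IsPreconnected ({x}ᶜ : Set X)

/-- `x` and `y` are non-separated: every neighbourhood of `x` meets every neighbourhood of `y`. -/
def NonSep (x y : X) : Prop := ∀ U V : Set X, IsOpen U → IsOpen V → x ∈ U → y ∈ V → (U ∩ V).Nonempty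

/-- The branch points. -/
def Branch (X : Type u) [TopologicalSpace X] : Set X := {x | ∃ y, y ≠ x ∧ NonSep x y}

/-- The side of `x` which contains `y`. -/
def side (x y : X) : Set X := connectedComponentIn ({x}ᶜ : Set X) y

/-- The left side of `φ s`, for an open embedding `φ : ℝ → X`. -/
def L (φ : ℝ → X) (s : ℝ) : Set X := side (φ s) (φ (s - 1))

/-- The right side of `φ s`. -/
def R (φ : ℝ → X) (s : ℝ) : Set X := side (φ s) (φ (s + 1))

/-- Type W2: every branch point has exactly two partners, one on each side, and the branch points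
are dense. -/
structure IsW2 (X : Type u) [TopologicalSpace X] : Prop where
  two : ∀ x ∈ Branch X, ∃ y z : X, y ≠ x ∧ z ≠ x ∧ NonSep x y ∧ NonSep x z ∧ y ∉ side x z ∧
    ∀ w : X, w ≠ x → NonSep x w → w = y ∨ w = z
  dense : Dense (Branch X)

/-- Hausdorff subset. -/
def Sep2 (U : Set X) : Prop := ∀ x ∈ U, ∀ y ∈ U, NonSep x y → x = y

/-- Full subset: open, connected, every frontier point is non-separated from a point inside. -/
structure Full (D : Set X) : Prop where
  isOpen : IsOpen D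
  conn : IsConnected D
  front : ∀ z ∈ closure D, z ∉ D → ∃ c ∈ D, NonSep z c

end Defs

section Defs2

variable {X : Type u} {Y : Type v} [TopologicalSpace X] [TopologicalSpace Y]

/-- A partial homeomorphism between full subsets which respects the branch points. -/
structure Good (e : OpenPartialHomeomorph X Y) : Prop where
  src : Full e.source
  tgt : Full e.target
  br : ∀ x ∈ e.source, (x ∈ Branch X ↔ e x ∈ Branch Y)

/-- `e'` extends `e`. -/
def Ext (e e' : OpenPartialHomeomorph X Y) : Prop := e.source ⊆ e'.source ∧ EqOn e' e e.source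

end Defs2

/-! ### Statements -/

/-- 1: points are closed (from charts only). -/
def StT1 : Prop := ∀ {X : Type u} [TopologicalSpace X],
  (∀ x : X, ∃ φ : ℝ → X, IsOpenEmbedding φ ∧ φ 0 = x) → T1Space X

/-- 2: small charts (from charts only). -/
def StShrink : Prop := ∀ {X : Type u} [TopologicalSpace X],
  (∀ x : X, ∃ φ : ℝ → X, IsOpenEmbedding φ ∧ φ 0 = x) → ∀ (x : X) (U : Set X),
    IsOpen U → x ∈ U → ∃ φ : ℝ → X, IsOpenEmbedding φ ∧ φ 0 = x ∧ range φ ⊆ U

/-- 3: the two sides. -/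
def StSides : Prop := ∀ {X : Type u} [TopologicalSpace X], OneMfd X → ∀ (φ : ℝ → X),
  IsOpenEmbedding φ → ∀ s : ℝ,
    IsOpen (L φ s) ∧ IsOpen (R φ s) ∧ IsConnected (L φ s) ∧ IsConnected (R φ s) ∧
    Disjoint (L φ s) (R φ s) ∧ L φ s ∪ R φ s = {φ s}ᶜ ∧ φ '' Iio s ⊆ L φ s ∧ φ '' Ioi s ⊆ R φ s

/-- 4: consequences. -/
def StSideCases : Prop := ∀ {X : Type u} [TopologicalSpace X], OneMfd X → ∀ (φ : ℝ → X),
  IsOpenEmbedding φ → ∀ s : ℝ,
    (∀ S : Set X, IsPreconnected S → φ s ∉ S → S ⊆ L φ s ∨ S ⊆ R φ s) ∧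
    (∀ y ∈ L φ s, side (φ s) y = L φ s) ∧ (∀ y ∈ R φ s, side (φ s) y = R φ s) ∧
    (∀ (ψ : ℝ → X) (t : ℝ), IsOpenEmbedding ψ → ψ t = φ s →
      (L ψ t = L φ s ∧ R ψ t = R φ s) ∨ (L ψ t = R φ s ∧ R ψ t = L φ s)) ∧
    (L (fun t => φ (-t)) (-s) = R φ s ∧ R (fun t => φ (-t)) (-s) = L φ s) ∧
    closure (L φ s) = insert (φ s) (L φ s) ∧ closure (R φ s) = insert (φ s) (R φ s) ∧
    IsConnected (insert (φ s) (L φ s)) ∧ IsConnected (insert (φ s) (R φ s))

/-- 5: one-sided germs. -/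
def StWithin : Prop := ∀ {X : Type u} [TopologicalSpace X], OneMfd X → ∀ (φ : ℝ → X),
  IsOpenEmbedding φ → ∀ s : ℝ,
    Filter.map φ (𝓝[<] s) = 𝓝[L φ s] (φ s) ∧ Filter.map φ (𝓝[>] s) = 𝓝[R φ s] (φ s)

/-- 6: two charts glued at a common point. -/
def StGlue : Prop := ∀ {X : Type u} [TopologicalSpace X], OneMfd X → ∀ (φ ψ : ℝ → X),
  IsOpenEmbedding φ → IsOpenEmbedding ψ → ∀ a b : ℝ, φ a = ψ b → ψ (b + 1) ∈ R φ a →
    IsOpenEmbedding (fun t => if t ≤ a then φ t else ψ (t - a + b))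

/-- 7: a connected set which approaches `χ s` from the left contains a left germ. -/
def StNear : Prop := ∀ {X : Type u} [TopologicalSpace X], OneMfd X → ∀ (D : Set X),
  IsPreconnected D → ∀ (χ : ℝ → X), IsOpenEmbedding χ → ∀ s : ℝ, χ s ∈ closure D →
    D ⊆ L χ s → ∃ t₀ < s, χ '' Ico t₀ s ⊆ D

/-- 8: extension of an arc in a Hausdorff open connected set. -/
def StExtend : Prop := ∀ {X : Type u} [TopologicalSpace X], OneMfd X → ∀ (U : Set X), IsOpen U →
  IsPreconnected U → Sep2 U → ∀ (φ : ℝ → X), IsOpenEmbedding φ → range φ ⊆ U → ∀ n : ℝ, 0 < n →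
    ∀ x ∈ U, ∃ φ' : ℝ → X, IsOpenEmbedding φ' ∧ range φ' ⊆ U ∧ (∀ t ∈ Icc (-n) n, φ' t = φ t) ∧
      x ∈ φ' '' Icc (-(n + 1)) (n + 1)

/-- 9: limits of open embeddings of the line. -/
def StLim : Prop := ∀ {X : Type u} [TopologicalSpace X] (θ : ℕ → ℝ → X),
  (∀ n, IsOpenEmbedding (θ n)) →
  (∀ (n : ℕ), ∀ t ∈ Icc (-((n : ℝ) + 1)) ((n : ℝ) + 1), θ (n + 1) t = θ n t) →
    ∃ θ' : ℝ → X, IsOpenEmbedding θ' ∧
      ∀ (n : ℕ), ∀ t ∈ Icc (-((n : ℝ) + 1)) ((n : ℝ) + 1), θ' t = θ n t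

/-- 10: Hausdorff open connected sets are lines. -/
def StLine : Prop := ∀ {X : Type u} [TopologicalSpace X] [SecondCountableTopology X], OneMfd X →
  ∀ (U : Set X), IsOpen U → IsPreconnected U → U.Nonempty → Sep2 U →
    ∃ φ : ℝ → X, IsOpenEmbedding φ ∧ range φ = U

/-- 11: maximal Hausdorff open connected sets are full. -/
def StMaxFull : Prop := ∀ {X : Type u} [TopologicalSpace X], OneMfd X →
  ∀ (U₀ : Set X), IsOpen U₀ → IsConnected U₀ → Sep2 U₀ → ∃ U : Set X, U₀ ⊆ U ∧ Sep2 U ∧ Full U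

/-- 12: full lines through a given chart, with base point and orientation. -/
def StFullLine : Prop := ∀ {X : Type u} [TopologicalSpace X] [SecondCountableTopology X],
  OneMfd X → ∀ (ψ : ℝ → X), IsOpenEmbedding ψ → ∀ s : ℝ, ∃ φ : ℝ → X, IsOpenEmbedding φ ∧
    φ 0 = ψ s ∧ ψ '' Ici s ⊆ φ '' Ici 0 ∧ ψ '' Iic s ⊆ φ '' Iic 0 ∧ Full (range φ)

/-- 13: germs at non-separated points. -/
def StGerm : Prop := ∀ {X : Type u} [TopologicalSpace X], OneMfd X → ∀ x y : X, x ≠ y →
  NonSep x y → 𝓝[side x y] x = 𝓝[side y x] y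

/-- 14: the branch set is countable. -/
def StCountable : Prop := ∀ {X : Type u} [TopologicalSpace X] [SecondCountableTopology X],
  OneMfd X → IsW2 X → (Branch X).Countable

/-- 15: Cantor, with a marked point. -/
def StMark : Prop := ∀ (A B : Set ℝ), A.Countable → B.Countable → Dense A → Dense B →
  ∀ a ∈ A, ∀ b ∈ B, ∃ h : ℝ ≃o ℝ, h a = b ∧ ∀ t, t ∈ A ↔ h t ∈ B

/-- 16: adding a ray keeps a set full. -/
def StRayFull : Prop := ∀ {X : Type u} [TopologicalSpace X], OneMfd X → ∀ (D : Set X), Full D →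
  ∀ (φ : ℝ → X), IsOpenEmbedding φ → Full (range φ) → φ 0 ∈ closure D → D ⊆ L φ 0 →
    Full (D ∪ φ '' Ici 0)

/-- 17: gluing a partial homeomorphism and a ray. -/
def StGlueHomeo : Prop := ∀ {X : Type u} {Y : Type v} [TopologicalSpace X] [TopologicalSpace Y]
  (e : OpenPartialHomeomorph X Y) (φ : ℝ → X) (φ' : ℝ → Y), IsOpenEmbedding φ →
  IsOpenEmbedding φ' → (∀ t, 0 ≤ t → φ t ∉ e.source) → (∀ t, 0 ≤ t → φ' t ∉ e.target) →
  (∃ t₀ < 0, φ '' Ico t₀ 0 ⊆ e.source) →
  Filter.map (fun t => e (φ t)) (𝓝[<] (0 : ℝ)) = Filter.map φ' (𝓝[<] (0 : ℝ)) →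
    ∃ e' : OpenPartialHomeomorph X Y, e'.source = e.source ∪ φ '' Ici 0 ∧
      e'.target = e.target ∪ φ' '' Ici 0 ∧ EqOn e' e e.source ∧ ∀ t, 0 ≤ t → e' (φ t) = φ' t

/-- 18: the partner of a frontier point. -/
def StPartner : Prop := ∀ {X : Type u} {Y : Type v} [TopologicalSpace X] [TopologicalSpace Y],
  OneMfd X → OneMfd Y → IsW2 X → IsW2 Y → ∀ (e : OpenPartialHomeomorph X Y), Good e →
  ∀ (φ : ℝ → X), IsOpenEmbedding φ → φ 0 ∈ closure e.source → φ 0 ∉ e.source →
  e.source ⊆ L φ 0 → φ 0 ∈ Branch X ∧ ∃ w ∈ Branch Y, w ∈ closure e.target ∧ w ∉ e.target ∧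
    ∀ (φ' : ℝ → Y), IsOpenEmbedding φ' → φ' 0 = w → e.target ⊆ L φ' 0 →
      Filter.map (fun t => e (φ t)) (𝓝[<] (0 : ℝ)) = Filter.map φ' (𝓝[<] (0 : ℝ))

/-- 19: one step. -/
def StStep : Prop := ∀ {X : Type u} {Y : Type v} [TopologicalSpace X] [TopologicalSpace Y]
  [SecondCountableTopology X] [SecondCountableTopology Y],
  OneMfd X → OneMfd Y → IsW2 X → IsW2 Y → ∀ (e : OpenPartialHomeomorph X Y), Good e →
  ∀ (φ : ℝ → X), IsOpenEmbedding φ → Full (range φ) → φ 0 ∈ closure e.source →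
  φ 0 ∉ e.source → e.source ⊆ L φ 0 →
    ∃ e' : OpenPartialHomeomorph X Y, Good e' ∧ Ext e e' ∧ e'.source = e.source ∪ φ '' Ici 0

/-- 20: swallow a ray. -/
def StReachRay : Prop := ∀ {X : Type u} {Y : Type v} [TopologicalSpace X] [TopologicalSpace Y]
  [SecondCountableTopology X] [SecondCountableTopology Y],
  OneMfd X → OneMfd Y → IsW2 X → IsW2 Y → ∀ (e : OpenPartialHomeomorph X Y), Good e →
  ∀ (ψ : ℝ → X), IsOpenEmbedding ψ → ∀ b : ℝ, ψ b ∈ e.source →
    ∃ e' : OpenPartialHomeomorph X Y, Good e' ∧ Ext e e' ∧ ψ '' Ici b ⊆ e'.source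

/-- 21: swallow a chart. -/
def StReach : Prop := ∀ {X : Type u} {Y : Type v} [TopologicalSpace X] [TopologicalSpace Y]
  [SecondCountableTopology X] [SecondCountableTopology Y],
  OneMfd X → OneMfd Y → IsW2 X → IsW2 Y → ∀ (e : OpenPartialHomeomorph X Y), Good e →
  ∀ (ψ : ℝ → X), IsOpenEmbedding ψ →
    ∃ e' : OpenPartialHomeomorph X Y, Good e' ∧ Ext e e' ∧ range ψ ⊆ e'.source

/-- 22: the inverse of a good partial homeomorphism. -/
def StSymm : Prop := ∀ {X : Type u} {Y : Type v} [TopologicalSpace X] [TopologicalSpace Y]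
  (e e' : OpenPartialHomeomorph X Y), (Good e → Good e.symm) ∧ (Ext e e' → Ext e.symm e'.symm)

/-- 23: the first good partial homeomorphism. -/
def StInit : Prop := ∀ {X : Type u} {Y : Type v} [TopologicalSpace X] [TopologicalSpace Y]
  [SecondCountableTopology X] [SecondCountableTopology Y],
  OneMfd X → OneMfd Y → IsW2 X → IsW2 Y → ∃ e : OpenPartialHomeomorph X Y, Good e

/-- 24: the limit of an increasing sequence of partial homeomorphisms. -/
def StLimHomeo : Prop := ∀ {X : Type u} {Y : Type v} [TopologicalSpace X] [TopologicalSpace Y]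
  (e : ℕ → OpenPartialHomeomorph X Y), (∀ n, Ext (e n) (e (n + 1))) →
  (⋃ n, (e n).source) = univ → (⋃ n, (e n).target) = univ → Nonempty (X ≃ₜ Y)

/-- 25: countable covers by charts. -/
def StCover : Prop := ∀ {X : Type u} [TopologicalSpace X] [SecondCountableTopology X], OneMfd X →
  ∃ ψ : ℕ → ℝ → X, (∀ n, IsOpenEmbedding (ψ n)) ∧ (⋃ n, range (ψ n)) = univ

/-- 26: uniqueness of W2. -/
def StUnique : Prop := ∀ {X : Type u} {Y : Type v} [TopologicalSpace X] [TopologicalSpace Y]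
  [SecondCountableTopology X] [SecondCountableTopology Y],
  OneMfd X → OneMfd Y → IsW2 X → IsW2 Y → Nonempty (X ≃ₜ Y)

/-! ### The cut property of the leaf space of a simply connected space -/

/-- 27: a locally constant cocycle across a closed two-sided set `K` of a simply connected space is
a coboundary.  `V` is an open neighbourhood of `K`, `P` and `Q` are the two open sides of `K`
in `V`. -/
def StCocycle : Prop := ∀ {N : Type u} [TopologicalSpace N] [SimplyConnectedSpace N]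
  [LocallyPathConnectedSpace N] (K V P Q : Set N), IsClosed K → IsOpen V → IsOpen P → IsOpen Q →
  K ⊆ V → Disjoint P Q → V \ K = P ∪ Q →
    ∃ s : N → Bool, (∀ n, n ∉ K → ∀ᶠ m in 𝓝 n, s m = s n) ∧
      ∀ n ∈ K, ∃ c : Bool, (∀ᶠ m in 𝓝[P] n, s m = c) ∧ (∀ᶠ m in 𝓝[Q] n, s m = !c)

/-- 28: the leaf space of a simply connected space has the cut property. -/
def StCut : Prop := ∀ {N : Type u} {X : Type v} [TopologicalSpace N] [TopologicalSpace X]
  [SimplyConnectedSpace N] [LocallyPathConnectedSpace N] (π : N → X), IsOpenQuotientMap π →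
  (∀ x : X, IsPreconnected (π ⁻¹' {x})) →
  (∀ x : X, ∃ φ : ℝ → X, IsOpenEmbedding φ ∧ φ 0 = x) → OneMfd X

/-- 29: no three pairwise non-separated points in type W2. -/
def StNoTriple : Prop := ∀ {X : Type u} [TopologicalSpace X], OneMfd X → IsW2 X → ∀ x y z : X,
  x ≠ y → y ≠ z → x ≠ z → NonSep x y → NonSep y z → NonSep x z → False

end Pool.Agent.Work.MP_0d206b_gt.U

end

/-! ### U.Stmts2 -/

section

/-! Project MP_0d206b_gt, module U, second part: the bridge to the definitions of `U/Defs.lean` and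
the lemmas U03, U05, U06, U12 for module B. -/

set_option autoImplicit false

namespace Pool.Agent.Work.MP_0d206b_gt.U

open Set Filter Topology Function

universe u v

/-- 30: from the definitions of `U/Defs.lean` to those of `U/Stmts.lean`. -/
def StBridge : Prop := ∀ {X : Type u} [TopologicalSpace X],
  (IsSC1 X → OneMfd X) ∧ (MP_0d206b_gt.IsW2 X → IsW2 X)

/-- 31 (U03): interval lemma. -/
def StInterval : Prop := ∀ {X : Type u} [TopologicalSpace X], IsSC1 X → ∀ (Ω : Set X),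
  IsPreconnected Ω → ∀ (f : ℝ → X), IsOpenEmbedding f → (f ⁻¹' Ω).OrdConnected

/-- 32 (U05): germ lemma. -/
def StGermLem : Prop := ∀ {X : Type u} [TopologicalSpace X], IsSC1 X → ∀ (f : ℝ → X),
  IsOpenEmbedding f → ∀ (t : ℝ) (w : X), w ≠ f t →
    (NS (f t) w ↔ (Tendsto f (𝓝[<] t) (𝓝 w) ∨ Tendsto f (𝓝[>] t) (𝓝 w))) ∧
      ¬ (Tendsto f (𝓝[<] t) (𝓝 w) ∧ Tendsto f (𝓝[>] t) (𝓝 w))

/-- 33 (U06): boundary germ. -/
def StBdGerm : Prop := ∀ {X : Type u} [TopologicalSpace X], IsSC1 X → ∀ (Ω : Set X),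
  IsPreconnected Ω → ∀ (f : ℝ → X), IsOpenEmbedding f → ∀ t : ℝ, f t ∉ Ω → f t ∈ closure Ω →
    (∃ ε > 0, f '' Ioo (t - ε) t ⊆ Ω ∧ Disjoint (f '' Ici t) Ω) ∨
    (∃ ε > 0, f '' Ioo t (t + ε) ⊆ Ω ∧ Disjoint (f '' Iic t) Ω)

/-- 34 (U12): the partner along a germ. -/
def StGermPartner : Prop := ∀ {X : Type u} [TopologicalSpace X], MP_0d206b_gt.IsW2 X →
  ∀ (f : ℝ → X), IsOpenEmbedding f → ∀ t : ℝ, (∃ y, NS (f t) y) →
    ∃ w w' : X, w ≠ w' ∧ (∀ y, NS (f t) y ↔ y = w ∨ y = w') ∧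
      (∀ y, y ≠ f t → (Tendsto f (𝓝[<] t) (𝓝 y) ↔ y = w)) ∧
      (∀ y, y ≠ f t → (Tendsto f (𝓝[>] t) (𝓝 y) ↔ y = w'))

/-- 35: the final form of module U. -/
def StFinalU : Prop := ∀ {X : Type u} {Y : Type v} [TopologicalSpace X] [TopologicalSpace Y],
  MP_0d206b_gt.IsW2 X → MP_0d206b_gt.IsW2 Y → Nonempty (X ≃ₜ Y)

end Pool.Agent.Work.MP_0d206b_gt.U

end

/-! ### U.Stmts3 -/

section

/-! Project MP_0d206b_gt, module U, third part: the criterion for W2 (section 7 (C) of PROOF.md) and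
two tools. -/

set_option autoImplicit false

namespace Pool.Agent.Work.MP_0d206b_gt.U

open Set Filter Topology Function

universe u v

/-- 36: criterion for W2. -/
def StCriterion : Prop := ∀ {X : Type u} [TopologicalSpace X], IsSC1 X →
  ∀ (XA : Set X) (x : X → ℝ) (up : X → Prop) (sing : Set X), IsOpen XA → sing ⊆ XA →
  (∀ a ∈ XA, ∃ f : ℝ → X, IsOpenEmbedding f ∧ f 0 = a ∧ range f ⊆ XA ∧
    StrictMono (fun t => x (f t))) →
  (∀ a ∈ XA, ∀ a' ∈ XA, NS a a' → a ∈ sing ∧ ¬ (up a ↔ up a')) →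
  (∀ a ∈ sing, ∃ y ∈ XA, y ≠ a ∧ ∀ U V : Set X, IsOpen U → IsOpen V → a ∈ U → y ∈ V →
    ∃ c ∈ U ∩ V, x c < x a) →
  (∀ a ∈ sing, ∃ y ∈ XA, y ≠ a ∧ ∀ U V : Set X, IsOpen U → IsOpen V → a ∈ U → y ∈ V →
    ∃ c ∈ U ∩ V, x a < x c) →
  (∀ a ∈ XA, ∀ b, b ∉ XA → ¬ NS a b) → (∀ b b', b ∉ XA → b' ∉ XA → ¬ NS b b') →
  Dense sing → MP_0d206b_gt.IsW2 X

/-- 37: reparametrisation of a local line. -/
def StReparam : Prop := ∀ {X : Type u} [TopologicalSpace X] (g : ℝ → X) (a b c : ℝ), a < c →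
  c < b → ContinuousOn g (Ioo a b) → InjOn g (Ioo a b) →
  (∀ U : Set ℝ, U ⊆ Ioo a b → IsOpen U → IsOpen (g '' U)) →
    ∃ θ : ℝ → ℝ, StrictMono θ ∧ Continuous θ ∧ θ 0 = c ∧ range θ = Ioo a b ∧
      IsOpenEmbedding (fun t => g (θ t))

/-- 38: the leaf space of a simply connected space is a simply connected one-manifold. -/
def StSC1 : Prop := ∀ {N : Type u} {X : Type v} [TopologicalSpace N] [TopologicalSpace X]
  [SimplyConnectedSpace N] [LocallyPathConnectedSpace N] [SecondCountableTopology N] (π : N → X),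
  IsOpenQuotientMap π → (∀ x : X, IsPreconnected (π ⁻¹' {x})) →
  (∀ x : X, ∃ φ : ℝ → X, IsOpenEmbedding φ ∧ φ 0 = x) → IsSC1 X

/-- 39: no three pairwise non-separated points. -/
def StNoTriple2 : Prop := ∀ {X : Type u} [TopologicalSpace X], MP_0d206b_gt.IsW2 X → ∀ x y z : X,
  NS x y → NS y z → NS x z → False

end Pool.Agent.Work.MP_0d206b_gt.U

end
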