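import Pool.Agent.Work.MP_0d206b_gt.Base
import Pool.Agent.Work.MP_0d206b_gt.Bd.StU

/-! ### L.Defs -/

section

/-!
# MP_0d206b_gt, modules L and B: definitions (see PROOF.md, sections 6 and 7)
-/

open Set Filter Topology
open scoped ContDiff

noncomputable section

namespace Pool.Agent.Work.MP_0d206b_gt

section

variable {ι : Type} {dom : ι → Set E} {glue : ι → E → ι → E → Prop} {N : Type} [TopologicalSpace N]

/-- `s` is a section of the coordinate map `c i` over `Y` -/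
structure IsLift (C : CoverData dom glue N) (i : ι) (Y : Set E) (s : E → N) : Prop where
  cont : ContinuousOn s Y
  mem : ∀ e ∈ Y, s e ∈ C.U i
  eq : ∀ e ∈ Y, C.c i (s e) = e

/-- the gluing is by local diffeomorphisms which preserve the plane fields spanned by `w` and the flow -/
def Compat (dom : ι → Set E) (glue : ι → E → ι → E → Prop) (w : ι → E → E) : Prop :=
  ∀ i j e e', e ∈ dom i → glue i e j e' → ∃ θ : E → E, ContDiffAt ℝ ∞ θ e ∧ θ e = e' ∧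
    (∀ᶠ e₁ in 𝓝 e, glue i e₁ j (θ e₁)) ∧ ∀ v ∈ plane w i e, fderiv ℝ θ e v ∈ plane w j e'

end

/-- the component of `{x = z₁} \ Γ` containing `z` (if `z ∉ Γ`) -/
def IA (z : P2) : Set P2 := {z' | z'.1 = z.1 ∧ ∀ t ∈ Set.uIcc z.2 z'.2, ((z.1, t) : P2) ∉ Gam}

/-- the corresponding vertical strip `IA z × ℝ` in `E` -/
def PA (z : P2) : Set E := {e | e.1 ∈ IA z}

/-- graph of `Y`, times the flow direction -/
def graphE (Y : ℝ → ℝ) : Set E := {e | e.1.2 = Y e.1.1}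

/-- `Y` solves `Y' = f (x, Y)` on `I` -/
def IsCurve (f : P2 → ℝ) (I : Set ℝ) (Y : ℝ → ℝ) : Prop := ∀ x ∈ I, HasDerivAt Y (f (x, Y x)) x

/-- The attractor part of a leaf space: disjoint open sets `U k` of `N`, coverings of `(ℝ² \ Γ) × ℝ`, in which the
leaves of `r` are the lifted vertical strips. -/
structure APart (N : Type) [TopologicalSpace N] (r : Setoid N) (κ : Type) where
  U : κ → Set N
  c : κ → N → E
  isOpen_U : ∀ k, IsOpen (U k)
  maps : ∀ k, MapsTo (c k) (U k) {e : E | e.1 ∉ Gam}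
  cov : ∀ k, IsCoveringMap ((maps k).restrict (c k) (U k) {e : E | e.1 ∉ Gam})
  disj : ∀ k k' b, b ∈ U k → b ∈ U k' → k = k'
  leaf_iff : ∀ k b b', b ∈ U k → (r b b' ↔ ∃ s : E → N, ContinuousOn s (PA (c k b).1) ∧
    (∀ e ∈ PA (c k b).1, s e ∈ U k ∧ c k (s e) = e) ∧ s (c k b) = b ∧ ∃ e ∈ PA (c k b).1, s e = b')

namespace APart

variable {N : Type} [TopologicalSpace N] {r : Setoid N} {κ : Type} (A : APart N r κ)

/-- leaves of the attractor part -/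
def LA : Set (Quotient r) := {q | ∃ k b, b ∈ A.U k ∧ Quotient.mk r b = q}

/-- `x`-coordinate of a leaf -/
def x (q : Quotient r) : ℝ := open Classical in
  if h : ∃ k b, b ∈ A.U k ∧ Quotient.mk r b = q then (A.c h.choose h.choose_spec.choose).1.1 else 0

/-- leaves above a lattice point -/
def up (q : Quotient r) : Prop :=
  ∃ k b, b ∈ A.U k ∧ Quotient.mk r b = q ∧ ∃ m ∈ Gam, m.1 = (A.c k b).1.1 ∧ m.2 < (A.c k b).1.2

/-- leaves whose `x`-coordinate is the one of a lattice point -/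
def sing : Set (Quotient r) :=
  {q | ∃ k b, b ∈ A.U k ∧ Quotient.mk r b = q ∧ ∃ m ∈ Gam, m.1 = (A.c k b).1.1}

end APart

/-- first half of the criterion (attractor leaves) -/
structure CritA (X : Type) [TopologicalSpace X] (LA : Set X) (x : X → ℝ) (up : X → Prop) (sing : Set X) :
    Prop where
  openA : IsOpen LA
  contx : ContinuousOn x LA
  inj : ∀ a ∈ LA, ∃ W ∈ 𝓝 a, InjOn x W
  sub : sing ⊆ LA
  C1 : ∀ a ∈ LA, ∀ a' ∈ LA, NS a a' → a ∈ sing ∧ x a = x a' ∧ (up a ↔ ¬ up a')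
  C2l : ∀ a ∈ sing, ∃ y ∈ LA, y ≠ a ∧ ∀ U V : Set X, IsOpen U → IsOpen V → a ∈ U → y ∈ V →
    ∃ c ∈ LA, c ∈ U ∧ c ∈ V ∧ x c < x a
  C2r : ∀ a ∈ sing, ∃ y ∈ LA, y ≠ a ∧ ∀ U V : Set X, IsOpen U → IsOpen V → a ∈ U → y ∈ V →
    ∃ c ∈ LA, c ∈ U ∧ c ∈ V ∧ x a < x c
  dense : ∀ a ∈ LA, ∀ U : Set X, IsOpen U → a ∈ U → (U ∩ sing).Nonempty

/-- second half of the criterion (the other leaves) -/
structure CritB (X : Type) [TopologicalSpace X] (LA : Set X) : Prop where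
  C3 : ∀ a ∈ LA, ∀ b ∉ LA, ¬ NS a b
  C4 : ∀ b ∉ LA, ∀ b' ∉ LA, ¬ NS b b'
  denseA : Dense LA

end Pool.Agent.Work.MP_0d206b_gt

end

end

/-! ### L.Gen -/

section

/-!
# MP_0d206b_gt, module L, block 1 (generic): lifts, arcs, attractor part, criterion
-/

open Set Filter Topology
open scoped ContDiff

noncomputable section

namespace Pool.Agent.Work.MP_0d206b_gt

/-! ### lifts -/

/-- GL1. Lifting criterion for the covering `c i : U i → dom i` (Mathlib: `IsCoveringMap.existsUnique_continuousMap_lifts`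
with `A = Y`, the inclusion `Y → dom i`).  Define `s e` for `e ∉ Y` arbitrarily. -/
def GL1 : Prop := ∀ (ι : Type) (dom : ι → Set E) (glue : ι → E → ι → E → Prop) (N : Type) [TopologicalSpace N]
  (C : CoverData dom glue N) (i : ι) (Y : Set E), Y ⊆ dom i → SimplyConnectedSpace Y →
  LocallyPathConnectedSpace Y → ∀ b ∈ C.U i, C.c i b ∈ Y → ∃ s, IsLift C i Y s ∧ s (C.c i b) = b

/-- GL2. Two lifts which agree at a point agree on a preconnected set (covering maps are separated and locally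
injective: `IsCoveringMap.eqOn_of_comp_eqOn`). -/
def GL2 : Prop := ∀ (ι : Type) (dom : ι → Set E) (glue : ι → E → ι → E → Prop) (N : Type) [TopologicalSpace N]
  (C : CoverData dom glue N) (i : ι) (K : Set E) (s s' : E → N), IsPreconnected K → K ⊆ dom i →
  IsLift C i K s → IsLift C i K s' → ∀ e ∈ K, s e = s' e → EqOn s s' K

/-- GL3. A lift over an open set is an open map (the covering map is a local homeomorphism and `c i ∘ s = id`). -/
def GL3 : Prop := ∀ (ι : Type) (dom : ι → Set E) (glue : ι → E → ι → E → Prop) (N : Type) [TopologicalSpace N]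
  (C : CoverData dom glue N) (i : ι) (Y : Set E) (s : E → N), IsOpen Y → Y ⊆ dom i → IsLift C i Y s →
  ∀ O ⊆ Y, IsOpen O → IsOpen (s '' O)

/-- GL4. Near a point `b = s (c b)` of the image of a lift over an open set all points are in the image. -/
def GL4 : Prop := ∀ (ι : Type) (dom : ι → Set E) (glue : ι → E → ι → E → Prop) (N : Type) [TopologicalSpace N]
  (C : CoverData dom glue N) (i : ι) (Y : Set E) (s : E → N), IsOpen Y → Y ⊆ dom i → IsLift C i Y s →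
  ∀ b ∈ C.U i, C.c i b ∈ Y → s (C.c i b) = b →
  ∀ᶠ b' in 𝓝 b, b' ∈ C.U i ∧ C.c i b' ∈ Y ∧ s (C.c i b') = b'

/-- GL5. Uniqueness of lifts along curves in `N`: if `γ` stays in `U i` and its coordinates stay in a set `Y` over which
`s` is a lift, and `s` agrees with `γ` once, then always. -/
def GL5 : Prop := ∀ (ι : Type) (dom : ι → Set E) (glue : ι → E → ι → E → Prop) (N : Type) [TopologicalSpace N]
  (C : CoverData dom glue N) (i : ι) (Y : Set E) (s : E → N), Y ⊆ dom i → IsLift C i Y s →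
  ∀ γ : ℝ → N, Continuous γ → (∀ t, γ t ∈ C.U i ∧ C.c i (γ t) ∈ Y) → ∀ t₀, s (C.c i (γ t₀)) = γ t₀ →
  ∀ t, s (C.c i (γ t)) = γ t

/-- GS1. convex sets are good. -/
def GS1 : Prop := ∀ Y : Set E, Convex ℝ Y → Y.Nonempty → SimplyConnectedSpace Y ∧ LocallyPathConnectedSpace Y

/-- GS2. images of convex sets under the shear `((x, y), τ) ↦ ((x, y + Y x), τ)` are good (the shear is a homeomorphism
of `E`).  Used for tubes `|y - Y x| < ε` and for graphs. -/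
def GS2 : Prop := ∀ (Y : ℝ → ℝ), Continuous Y → ∀ K : Set E, Convex ℝ K → K.Nonempty →
  let K' : Set E := {e | ((e.1.1, e.1.2 - Y e.1.1), e.2) ∈ K}
  SimplyConnectedSpace K' ∧ LocallyPathConnectedSpace K'

/-- GS3. slit discs (times the flow direction) are good: `σ = 1` removes the half line `x ≤ 0`, `σ = -1` the half line
`x ≥ 0` (star convex about `(σ r, 0)`, open). -/
def GS3 : Prop := ∀ (σ r : ℝ), (σ = 1 ∨ σ = -1) → 0 < r → ∀ m : P2,
  let K' : Set E := {e | nsq (e.1 - m) < (2 * r) ^ 2 ∧ ¬ ((e.1 - m).2 = 0 ∧ σ * (e.1 - m).1 ≤ 0)}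
  SimplyConnectedSpace K' ∧ LocallyPathConnectedSpace K'

/-! ### arcs -/

/-- AR1. For a compatible plane field it is enough to check smoothness and tangency in one piece at every time. -/
def AR1 : Prop := ∀ (ι : Type) (dom : ι → Set E) (glue : ι → E → ι → E → Prop) (N : Type) [TopologicalSpace N]
  (C : CoverData dom glue N) (w : ι → E → E), Compat dom glue w → ∀ γ : ℝ → N, Continuous γ →
  (∀ t, ∃ i, γ t ∈ C.U i ∧ ContDiffAt ℝ 1 (C.c i ∘ γ) t ∧ deriv (C.c i ∘ γ) t ∈ plane w i (C.c i (γ t))) →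
  IsArc C w γ

/-- AR2. Tangent curves in a piece lift to arcs, so their end points are in the same leaf. -/
def AR2 : Prop := ∀ (ι : Type) (dom : ι → Set E) (glue : ι → E → ι → E → Prop) (N : Type) [TopologicalSpace N]
  (C : CoverData dom glue N) (w : ι → E → E), Compat dom glue w → ∀ (i : ι) (Y : Set E) (s : E → N), Y ⊆ dom i →
  IsLift C i Y s → ∀ κ : ℝ → E, ContDiff ℝ 1 κ → (∀ t, κ t ∈ Y) → (∀ t, deriv κ t ∈ plane w i (κ t)) →
  ∀ t t', (leafSetoid C w) (s (κ t)) (s (κ t'))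

/-- AR3. Segments whose direction is tangent along the segment (parametrise by `e + h (e' - e)`, `h = Real.smoothTransition`). -/
def AR3 : Prop := ∀ (ι : Type) (dom : ι → Set E) (glue : ι → E → ι → E → Prop) (N : Type) [TopologicalSpace N]
  (C : CoverData dom glue N) (w : ι → E → E), Compat dom glue w → ∀ (i : ι) (Y : Set E) (s : E → N), Y ⊆ dom i →
  IsLift C i Y s → ∀ e e' : E, segment ℝ e e' ⊆ Y → (∀ p ∈ segment ℝ e e', e' - e ∈ plane w i p) →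
  (leafSetoid C w) (s e) (s e')

/-- AR4. If a property of points is preserved by arcs then it is preserved by the leaf relation. -/
def AR4 : Prop := ∀ (ι : Type) (dom : ι → Set E) (glue : ι → E → ι → E → Prop) (N : Type) [TopologicalSpace N]
  (C : CoverData dom glue N) (w : ι → E → E) (Q : N → Prop),
  (∀ γ, IsArc C w γ → Q (γ 0) → Q (γ 1)) → (∀ γ, IsArc C w γ → Q (γ 1) → Q (γ 0)) →
  ∀ b b', (leafSetoid C w) b b' → (Q b ↔ Q b')

/-! ### the attractor part -/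

/-- the set `IA z` is an interval of the vertical line: `PA z` is convex, `IA` is an equivalence relation, and lifting -/
def AP0 : Prop :=
  (∀ z : P2, Convex ℝ (PA z)) ∧ (∀ z : P2, z ∉ Gam → z ∈ IA z) ∧ (∀ z z', z' ∈ IA z → z ∈ IA z' ∧ IA z' = IA z) ∧
  (∀ z : P2, PA z ⊆ {e : E | e.1 ∉ Gam}) ∧
  (∀ z z', z' ∈ IA z → ∀ m ∈ Gam, m.1 = z.1 → (m.2 < z.2 ↔ m.2 < z'.2))

/-- AP1. points of one leaf in the attractor part. -/
def AP1 : Prop := ∀ (N : Type) [TopologicalSpace N] (r : Setoid N) (κ : Type) (A : APart N r κ) (k : κ) (b b' : N),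
  b ∈ A.U k → r b b' → b' ∈ A.U k ∧ (A.c k b').1 ∈ IA (A.c k b).1 ∧ (A.c k b = A.c k b' → b = b')

/-- AP2. existence of points of the leaf over `PA`; vertical displacement in a lift over a convex set. -/
def AP2 : Prop := ∀ (N : Type) [TopologicalSpace N] (r : Setoid N) (κ : Type) (A : APart N r κ) (k : κ),
  (∀ b ∈ A.U k, ∀ e ∈ PA (A.c k b).1, ∃ b', b' ∈ A.U k ∧ A.c k b' = e ∧ r b b') ∧
  (∀ (Y : Set E) (s : E → N), Convex ℝ Y → Y ⊆ {e : E | e.1 ∉ Gam} → ContinuousOn s Y →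
    (∀ e ∈ Y, s e ∈ A.U k ∧ A.c k (s e) = e) → ∀ e ∈ Y, ∀ e' ∈ Y, e.1.1 = e'.1.1 → r (s e) (s e'))

/-- AP3. the `x`-coordinate is well defined on the quotient; `LA` is open; `x` is continuous and locally injective on it. -/
def AP3 : Prop := ∀ (N : Type) [TopologicalSpace N] (r : Setoid N) (κ : Type) (A : APart N r κ),
  IsOpenMap (Quotient.mk r) →
  (∀ k, ∀ b ∈ A.U k, A.x (Quotient.mk r b) = (A.c k b).1.1) ∧ IsOpen A.LA ∧ ContinuousOn A.x A.LA ∧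
  (∀ a ∈ A.LA, ∃ W ∈ 𝓝 a, InjOn A.x W) ∧ A.sing ⊆ A.LA

/-- AP4. planar lemma: two leaves of the attractor part which are not separated have the same `x`, and if their
components `IA` agree then they are equal. -/
def AP4 : Prop := ∀ (N : Type) [TopologicalSpace N] [T2Space N] (r : Setoid N) (κ : Type) (A : APart N r κ),
  IsOpenMap (Quotient.mk r) → ∀ (k k' : κ) (b b' : N), b ∈ A.U k → b' ∈ A.U k' →
  NS (Quotient.mk r b) (Quotient.mk r b') →
  k = k' ∧ (A.c k b).1.1 = (A.c k b').1.1 ∧ ¬ (A.c k b').1 ∈ IA (A.c k b).1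

/-- AP5. (C1) of the criterion: by AP4 the segment between the two points contains a lattice point, which is the only one
on the vertical line (different lattice points have different `x`, (Γ1)). -/
def AP5 : Prop := ∀ (N : Type) [TopologicalSpace N] [T2Space N] (r : Setoid N) (κ : Type) (A : APart N r κ),
  IsOpenMap (Quotient.mk r) → ∀ a ∈ A.LA, ∀ a' ∈ A.LA, NS a a' →
  a ∈ A.sing ∧ A.x a = A.x a' ∧ (A.up a ↔ ¬ A.up a')

/-- AP6. (C2) of the criterion: going round the lattice point on the left (right) through a slit disc. -/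
def AP6 : Prop := ∀ (N : Type) [TopologicalSpace N] [T2Space N] (r : Setoid N) (κ : Type) (A : APart N r κ),
  IsOpenMap (Quotient.mk r) → ∀ a ∈ A.sing,
  (∃ y ∈ A.LA, y ≠ a ∧ ∀ U V : Set (Quotient r), IsOpen U → IsOpen V → a ∈ U → y ∈ V →
    ∃ c ∈ A.LA, c ∈ U ∧ c ∈ V ∧ A.x c < A.x a) ∧
  (∃ y ∈ A.LA, y ≠ a ∧ ∀ U V : Set (Quotient r), IsOpen U → IsOpen V → a ∈ U → y ∈ V →
    ∃ c ∈ A.LA, c ∈ U ∧ c ∈ V ∧ A.x a < A.x c)

/-- AP7. singular leaves are dense in the attractor part: take a small box `|x - z₁| < ε` going up until its first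
lattice point `m`; it is lattice free below `m`. -/
def AP7 : Prop := ∀ (N : Type) [TopologicalSpace N] [T2Space N] (r : Setoid N) (κ : Type) (A : APart N r κ),
  IsOpenMap (Quotient.mk r) → ∀ a ∈ A.LA, ∀ U : Set (Quotient r), IsOpen U → a ∈ U → (U ∩ A.sing).Nonempty

/-- AP8. assembly -/
def AP8 : Prop := ∀ (N : Type) [TopologicalSpace N] [T2Space N] (r : Setoid N) (κ : Type) (A : APart N r κ),
  IsOpenMap (Quotient.mk r) → CritA (Quotient r) A.LA A.x A.up A.sing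

/-! ### the criterion -/

/-- U03 (interval lemma), U05 (germ lemma) of module U, in the form used here -/
def U03 : Prop := ∀ (X : Type) [TopologicalSpace X], IsSC1 X → ∀ Ω : Set X, IsPreconnected Ω →
  ∀ f : ℝ → X, IsOpenEmbedding f → OrdConnected (f ⁻¹' Ω)

def U05 : Prop := ∀ (X : Type) [TopologicalSpace X], IsSC1 X → ∀ f : ℝ → X, IsOpenEmbedding f → ∀ (t : ℝ) (w : X),
  w ≠ f t → (NS (f t) w ↔ (Tendsto f (𝓝[<] t) (𝓝 w) ∨ Tendsto f (𝓝[>] t) (𝓝 w))) ∧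
    ¬ (Tendsto f (𝓝[<] t) (𝓝 w) ∧ Tendsto f (𝓝[>] t) (𝓝 w))

/-- the criterion (C) of PROOF.md -/
def Crit : Prop := ∀ (X : Type) [TopologicalSpace X] (LA : Set X) (x : X → ℝ) (up : X → Prop) (sing : Set X),
  IsSC1 X → CritA X LA x up sing → CritB X LA → IsW2 X

/-! ### general topology used by L (module G) -/

/-- (G2) two-set Čech lemma -/
def Cech : Prop := ∀ (N : Type) [TopologicalSpace N] [SimplyConnectedSpace N] [LocallyPathConnectedSpace N]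
  (U V : Set N), IsOpen U → IsOpen V → U ∪ V = univ → ∀ n : N → Bool, ContinuousOn n (U ∩ V) →
  ∃ f g : N → Bool, ContinuousOn f U ∧ ContinuousOn g V ∧ ∀ b ∈ U ∩ V, n b = (f b ^^ g b)

/-- (G3) every point of the quotient separates -/
def Sep : Prop := ∀ (N X : Type) [TopologicalSpace N] [SimplyConnectedSpace N] [LocallyPathConnectedSpace N]
  [TopologicalSpace X] (q : N → X), Continuous q → IsOpenMap q → Function.Surjective q →
  (∀ x, IsPreconnected (q ⁻¹' {x})) → (∀ x : X, ∃ f : ℝ → X, IsOpenEmbedding f ∧ x ∈ range f) →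
  ∀ x : X, ¬ IsPreconnected ({x}ᶜ : Set X)

/-- OM. leaf spaces with open quotient map, connected leaves and local lines are `IsSC1` -/
def OM : Prop := ∀ (N : Type) [TopologicalSpace N] [SimplyConnectedSpace N] [LocallyPathConnectedSpace N]
  [SecondCountableTopology N] (r : Setoid N), IsOpenMap (Quotient.mk r) →
  (∀ b : N, IsPreconnected {b' | r b b'}) →
  (∀ x : Quotient r, ∃ f : ℝ → Quotient r, IsOpenEmbedding f ∧ x ∈ range f) → IsSC1 (Quotient r)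

/-- LF. leaves are preconnected: if `γ` is an arc then so is `u ↦ γ (t u)`, hence `γ t` is in the leaf of `γ 0` for all
`t`; two points of a leaf are joined by a chain of connected sets `γ '' Icc 0 1` (induction on `EqvGen`). -/
def LF : Prop := ∀ (ι : Type) (dom : ι → Set E) (glue : ι → E → ι → E → Prop) (N : Type) [TopologicalSpace N]
  (C : CoverData dom glue N) (w : ι → E → E), (∀ γ, IsArc C w γ → ∀ t, (leafSetoid C w) (γ 0) (γ t)) ∧
  ∀ b : N, IsPreconnected {b' | (leafSetoid C w) b b'}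

end Pool.Agent.Work.MP_0d206b_gt

end

end

/-! ### L.FlowA -/

section

/-!
# MP_0d206b_gt, module L, blocks 2-4: statements for the plane, for flow a and for flow 0
-/

open Set Filter Topology
open scoped ContDiff

noncomputable section

namespace Pool.Agent.Work.MP_0d206b_gt

/-! ### Block 2: the plane (consequences of the fields of `DA` and of the definition of `Gam`) -/

/-- PG. the lattice: different points have `|m_x m_y| ≥ 1`; closed, discrete, cocompact; `Gam` is invariant under `Lz`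
(in Base).  (Γ1), (Γ2) -/
def PG1 : Prop := (∀ m ∈ Gam, m ≠ 0 → 1 ≤ |m.1 * m.2|) ∧ (∀ m ∈ Gam, ∀ m' ∈ Gam, m.1 = m'.1 → m = m') ∧
  (∀ m ∈ Gam, ∀ m' ∈ Gam, m.2 = m'.2 → m = m') ∧ (∀ m ∈ Gam, ∀ m' ∈ Gam, m ≠ m' → 1 ≤ dist m m') ∧
  IsClosed (Gam : Set P2) ∧ (∃ C : ℝ, ∀ z : P2, ∃ m ∈ Gam, dist z m ≤ C)

/-- PG2. (Γ3) between. -/
def PG2 : Prop := (∀ a b X : ℝ, a < b → ∃ m ∈ Gam, a < m.2 ∧ m.2 < b ∧ X < m.1) ∧
  (∀ a b X : ℝ, a < b → ∃ m ∈ Gam, a < m.2 ∧ m.2 < b ∧ m.1 < X)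

/-- PG3. (Γ4). -/
def PG3 : Prop := (∀ a b Y : ℝ, a < b → ∃ m ∈ Gam, a < m.1 ∧ m.1 < b ∧ Y < m.2) ∧
  (∀ a b Y : ℝ, a < b → ∃ m ∈ Gam, a < m.1 ∧ m.1 < b ∧ m.2 < Y)

/-- PL1. algebra of the strips: `Psi 0 = 0`, `Psi` injective, open map; `lin (m + Psi v) = v`, `idx (m + Psi v) = m`;
`m + Psi v ∈ Γ ↔ v = 0`; `Lam` is closed, disjoint from `Γ`; `Psi v → 0` iff `v → 0`. -/
def PL1 : Prop := ∀ D : DA, D.Psi 0 = 0 ∧ Function.Injective D.Psi ∧ IsOpenMap D.Psi ∧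
  (∀ m ∈ Gam, ∀ v, D.lin (m + D.Psi v) = v ∧ D.idx (m + D.Psi v) = m ∧ (m + D.Psi v ∈ Gam ↔ v = 0)) ∧
  IsClosed D.Lam ∧ (∀ z ∈ D.Lam, z ∉ Gam) ∧ (∀ z, z ∉ D.Lam → D.idx z ∈ Gam ∧ z = D.idx z + D.Psi (D.lin z))

/-- PL2. `lin` and `idx` are continuous off `Lam` (`idx` locally constant). -/
def PL2 : Prop := ∀ D : DA, ContinuousOn D.lin D.Lamᶜ ∧ ContinuousOn D.idx D.Lamᶜ ∧
  ∀ z, z ∉ D.Lam → ∀ᶠ z' in 𝓝 z, z' ∉ D.Lam ∧ D.idx z' = D.idx z

/-- PL3. (D10) properness at `Lam`. -/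
def PL3 : Prop := ∀ D : DA, ∀ z ∈ D.Lam, ∀ M : ℝ, ∀ᶠ z' in 𝓝 z, z' ∈ D.Lam ∨ M < ‖D.lin z'‖

/-- PL4. every vertical meets the strips in open intervals: for `x` fixed the points of the strip `m` form an interval, and
`(D.lin z).2` is increasing in `z.2` there; `(D.lin z).1 = z.1 - m.1`. -/
def PL4 : Prop := ∀ D : DA, ∀ m ∈ Gam, (∀ v, (m + D.Psi v).1 = m.1 + v.1) ∧
  (∀ v v' : P2, v.1 = v'.1 → ((m + D.Psi v).2 < (m + D.Psi v').2 ↔ v.2 < v'.2)) ∧
  (∀ v v' : P2, ∀ y, v.1 = v'.1 → (m + D.Psi v).2 ≤ y → y ≤ (m + D.Psi v').2 →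
    ∃ t, ((m.1 + v.1, y) : P2) = m + D.Psi (v.1, t) ∧ v.2 ≤ t ∧ t ≤ v'.2)

/-- PL5. the gluing map `g`: inverse, homogeneity, strict monotonicity of the label; `g` and `gminv` smooth on their domains. -/
def PL5 : Prop := (∀ v : P2, 0 < v.2 → gminv (gmap v) = v) ∧
  (∀ w : P2, ¬ (w.2 = 0 ∧ 0 ≤ w.1) → 0 < (gminv w).2 ∧ gmap (gminv w) = w) ∧
  (∀ v : P2, 0 < v.2 → ¬ ((gmap v).2 = 0 ∧ 0 ≤ (gmap v).1)) ∧
  (∀ (r : ℝ) (v : P2), 0 < r → gmap (r • v) = r • gmap v) ∧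
  (∀ a t t' : ℝ, 0 < t → t < t' → (gmap (a, t')).1 < (gmap (a, t)).1) ∧
  (∀ v : P2, 0 < v.2 → Real.sqrt (nsq (gmap v)) = nsq v / v.2) ∧
  (∀ v : P2, 0 < v.2 → ContDiffAt ℝ ∞ gmap v) ∧
  (∀ w : P2, ¬ (w.2 = 0 ∧ 0 ≤ w.1) → ContDiffAt ℝ ∞ gminv w)

/-- PS1. (D13) `sigma` is continuous on `Z`. -/
def PS1 : Prop := ∀ D : DA, ContinuousOn D.sigma {z | z ∉ Gam}

/-- PS2. (D13) `sigma` is locally Lipschitz in `y` on `Z`. -/
def PS2 : Prop := ∀ D : DA, ∀ z, z ∉ Gam → ∃ ε > 0, ∃ K, ∀ x y y', |x - z.1| < ε → |y - z.2| < ε → |y' - z.2| < ε →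
  ((x, y) : P2) ∉ Gam ∧ |D.sigma (x, y) - D.sigma (x, y')| ≤ K * |y - y'|

/-- PS3. (D12) `S`-curves: existence and uniqueness through every point, and `Lam` is saturated by them. -/
def PS3 : Prop := ∀ D : DA, (∀ z : P2, ∃ Y : ℝ → ℝ, IsCurve D.S univ Y ∧ Y z.1 = z.2) ∧
  (∀ Y Y' : ℝ → ℝ, ∀ I : Set ℝ, IsOpen I → OrdConnected I → IsCurve D.S I Y → IsCurve D.S I Y' → ∀ x ∈ I, Y x = Y' x →
    EqOn Y Y' I) ∧
  (∀ Y : ℝ → ℝ, IsCurve D.S univ Y → ∀ x, ((x, Y x) : P2) ∈ D.Lam → ∀ x', ((x', Y x') : P2) ∈ D.Lam)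

/-- PS4. label curves are `sigma`-curves: for `c` and `ς = ± 1` the curve `ς v₂ = (-c + √(c² + 4 v₁²))/2` (for `c < 0`, or on
an interval of `v₁` not containing `0`) in the strip of `m`. -/
def PS4 : Prop := ∀ D : DA, ∀ m ∈ Gam, ∀ (s : Bool) (c : ℝ), ∀ x : ℝ, (c < 0 ∨ x ≠ m.1) →
  let v : ℝ → P2 := fun x => (x - m.1, sg s * ((-c + Real.sqrt (c ^ 2 + 4 * (x - m.1) ^ 2)) / 2))
  HasDerivAt (fun x => (m + D.Psi (v x)).2) (D.sigma (m + D.Psi (v x))) x ∧ 0 < sg s * (v x).2 ∧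
    (gmap (sg s • v x)).1 = c

/-- PS5. flow box for `sigma` around a piece of an `S`-curve `Y` in `Lam` over `[x₁, x₂]`: a lattice free tube on which
`sigma`-curves starting near `Y` exist over `[x₁, x₂]` and stay near `Y` (Picard-Lindelöf + Gronwall, `sigma` is Lipschitz
in `y` on a compact tube by PS2; `sigma = S` on `Lam`). -/
def PS5 : Prop := ∀ D : DA, ∀ Y : ℝ → ℝ, IsCurve D.S univ Y → (∀ x, ((x, Y x) : P2) ∈ D.Lam) → ∀ x₁ x₂ : ℝ, x₁ ≤ x₂ →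
  ∃ ρ > 0, (∀ x y, x₁ - ρ < x → x < x₂ + ρ → |y - Y x| < ρ → ((x, y) : P2) ∉ Gam) ∧
  ∀ η > 0, ∃ δ > 0, ∀ x₀ y₀, x₁ - δ < x₀ → x₀ < x₂ + δ → |y₀ - Y x₀| < δ →
    ∃ Y' : ℝ → ℝ, Y' x₀ = y₀ ∧ IsCurve D.sigma (Ioo (x₁ - δ) (x₂ + δ)) Y' ∧
      ∀ x ∈ Ioo (x₁ - δ) (x₂ + δ), |Y' x - Y x| < η

/-- PS6. the same for `S` (flow 0), everywhere. -/
def PS6 : Prop := ∀ D : DA, ∀ Y : ℝ → ℝ, IsCurve D.S univ Y → ∀ x₁ x₂ : ℝ, x₁ ≤ x₂ →
  ∀ η > 0, ∃ δ > 0, ∀ x₀ y₀, x₁ - 1 < x₀ → x₀ < x₂ + 1 → |y₀ - Y x₀| < δ →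
    ∀ Y' : ℝ → ℝ, IsCurve D.S univ Y' → Y' x₀ = y₀ → ∀ x ∈ Icc (x₁ - 1) (x₂ + 1), |Y' x - Y x| < η

/-- PS7. local flow box for `sigma` at an arbitrary point off the lattice (Picard-Lindelöf + Gronwall). -/
def PS7 : Prop := ∀ D : DA, ∀ z, z ∉ Gam → ∀ η > 0, ∃ δ > 0, ∀ x₀ y₀, |x₀ - z.1| < δ → |y₀ - z.2| < δ →
  ∃ Y' : ℝ → ℝ, Y' x₀ = y₀ ∧ IsCurve D.sigma (Ioo (z.1 - δ) (z.1 + δ)) Y' ∧
    ∀ x ∈ Ioo (z.1 - δ) (z.1 + δ), |Y' x - z.2| < η

/-! ### Block 3: compatibility of the plane fields (shared with module H, (H3)) -/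

def CP0s : Prop := ∀ D : DA, Compat dom0 (glue0 D) (es0 D)
def CPAs : Prop := ∀ D : DA, Compat domA (glueA D) (esA D)
def CPAu : Prop := ∀ D : DA, Compat domA (glueA D) (euA D)

/-! ### Block 4: flow a, stable leaves -/

section FlowA

/-- the classes of spaces on which the leaf spaces are computed -/
class GoodN (N : Type) [TopologicalSpace N] : Prop extends SimplyConnectedSpace N, LocallyPathConnectedSpace N,
  T2Space N, SecondCountableTopology N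

/-- LA1. the three kinds of points: attractor, `ξ = 0` in a saddle piece, `Lam` in the repeller piece. -/
def LA1 : Prop := ∀ (D : DA) (N : Type) [TopologicalSpace N] (C : CoverData domA (glueA D) N) (b : N),
  (∃ s, b ∈ C.U (.A s)) ∨ (∃ m, b ∈ C.U (.g m) ∧ (C.c (.g m) b).1.1 = 0) ∨ (b ∈ C.U .R ∧ (C.c .R b).1 ∈ D.Lam)

/-- LA2. ... and they are exclusive. -/
def LA2 : Prop := ∀ (D : DA) (N : Type) [TopologicalSpace N] (C : CoverData domA (glueA D) N) (b : N),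
  (∀ s s', b ∈ C.U (.A s) → b ∈ C.U (.A s') → s = s') ∧ (∀ m m', b ∈ C.U (.g m) → b ∈ C.U (.g m') → m = m') ∧
  (∀ s m, b ∈ C.U (.A s) → b ∈ C.U (.g m) → 0 < sg s * (C.c (.g m) b).1.1) ∧
  (b ∈ C.U .R → (C.c .R b).1 ∈ D.Lam → (∀ s, b ∉ C.U (.A s)) ∧ ∀ m, b ∉ C.U (.g m)) ∧
  (∀ m, b ∈ C.U .R → b ∈ C.U (.g m) → (C.c (.g m) b).1.2 ≠ 0)

/-- LA3. change of coordinates starting from the repeller piece. -/
def LA3 : Prop := ∀ (D : DA) (N : Type) [TopologicalSpace N] (C : CoverData domA (glueA D) N) (b : N) (m : P2) (hm : m ∈ Gam)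
  (v : P2), b ∈ C.U .R → (C.c .R b).1 = m + D.Psi v →
  (∀ s, 0 < sg s * v.2 → b ∈ C.U (.A s) ∧ C.c (.A s) b = (sg s • m + D.Psi (gmap (sg s • v)),
    (C.c .R b).2 - llog (nsq (gmap (sg s • v))))) ∧
  (|v.2| < |v.1| → b ∈ C.U (.g ⟨m, hm⟩) ∧ C.c (.g ⟨m, hm⟩) b = ((v.2 / (v.1 ^ 2 - v.2 ^ 2), 2 * v.1), (C.c .R b).2))

/-- LA4. ... from an attractor piece. -/
def LA4 : Prop := ∀ (D : DA) (N : Type) [TopologicalSpace N] (C : CoverData domA (glueA D) N) (s : Bool) (b : N) (m : P2)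
  (hm : m ∈ Gam) (w : P2), b ∈ C.U (.A s) → (C.c (.A s) b).1 = sg s • m + D.Psi w →
  (¬ (w.2 = 0 ∧ 0 ≤ w.1) → b ∈ C.U .R ∧ C.c .R b = (m + D.Psi (sg s • gminv w), (C.c (.A s) b).2 + llog (nsq w))) ∧
  (0 < w.1 → b ∈ C.U (.g ⟨m, hm⟩) ∧ C.c (.g ⟨m, hm⟩) b = ((sg s / w.1, sg s * w.2), (C.c (.A s) b).2 + llog (nsq w)))

/-- LA5. ... from a saddle piece: `ξ` of sign `s` gives the attractor `A s`, `η ≠ 0` gives the repeller. -/
def LA5 : Prop := ∀ (D : DA) (N : Type) [TopologicalSpace N] (C : CoverData domA (glueA D) N) (m : Gam) (b : N),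
  b ∈ C.U (.g m) →
  (∀ s, 0 < sg s * (C.c (.g m) b).1.1 → b ∈ C.U (.A s) ∧ (C.c (.A s) b).1 = sg s • (m : P2) +
    D.Psi (sg s / (C.c (.g m) b).1.1, sg s * (C.c (.g m) b).1.2)) ∧
  ((C.c (.g m) b).1.2 ≠ 0 → b ∈ C.U .R ∧ ∃ v : P2, |v.2| < |v.1| ∧ (C.c .R b).1 = (m : P2) + D.Psi v ∧
    v.1 = (C.c (.g m) b).1.2 / 2 ∧ (C.c (.g m) b).1.1 = v.2 / (v.1 ^ 2 - v.2 ^ 2))

/-- LA6. infinitesimal form of a stable arc in the three kinds of pieces (from `IsArc.smooth`, `IsArc.tang`). -/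
def LA6 : Prop := ∀ (D : DA) (N : Type) [TopologicalSpace N] (C : CoverData domA (glueA D) N) (γ : ℝ → N),
  IsArc C (esA D) γ → ∀ t,
  (∀ s, γ t ∈ C.U (.A s) → HasDerivAt (fun u => (C.c (.A s) (γ u)).1.1) 0 t) ∧
  (∀ m, γ t ∈ C.U (.g m) → HasDerivAt (fun u => (C.c (.g m) (γ u)).1.1) 0 t) ∧
  (γ t ∈ C.U .R → ∃ a, HasDerivAt (fun u => (C.c .R (γ u)).1.1) a t ∧
    HasDerivAt (fun u => (C.c .R (γ u)).1.2) (D.sigma (C.c .R (γ t)).1 * a) t)

/-- LA7. stable arcs stay in the attractor pieces, with constant `x`. -/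
def LA7 : Prop := ∀ (D : DA) (N : Type) [TopologicalSpace N] (C : CoverData domA (glueA D) N) (γ : ℝ → N),
  IsArc C (esA D) γ → ∀ t₀ s, γ t₀ ∈ C.U (.A s) →
  ∀ t, γ t ∈ C.U (.A s) ∧ (C.c (.A s) (γ t)).1.1 = (C.c (.A s) (γ t₀)).1.1

/-- LA8. stable arcs stay in `{ξ = 0}` of a saddle piece. -/
def LA8 : Prop := ∀ (D : DA) (N : Type) [TopologicalSpace N] (C : CoverData domA (glueA D) N) (γ : ℝ → N),
  IsArc C (esA D) γ → ∀ t₀ m, γ t₀ ∈ C.U (.g m) → (C.c (.g m) (γ t₀)).1.1 = 0 →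
  ∀ t, γ t ∈ C.U (.g m) ∧ (C.c (.g m) (γ t)).1.1 = 0

/-- LA9. stable arcs stay in `Lam` of the repeller piece, on an `S`-curve. -/
def LA9 : Prop := ∀ (D : DA) (N : Type) [TopologicalSpace N] (C : CoverData domA (glueA D) N) (γ : ℝ → N),
  IsArc C (esA D) γ → ∀ t₀, γ t₀ ∈ C.U .R → (C.c .R (γ t₀)).1 ∈ D.Lam →
  ∀ Y : ℝ → ℝ, IsCurve D.S univ Y → (C.c .R (γ t₀)).1.2 = Y (C.c .R (γ t₀)).1.1 →
  ∀ t, γ t ∈ C.U .R ∧ (C.c .R (γ t)).1 ∈ D.Lam ∧ (C.c .R (γ t)).1.2 = Y (C.c .R (γ t)).1.1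

/-- LA10. (L1) leaves in the attractor pieces. -/
def LA10 : Prop := ∀ (D : DA) (N : Type) [TopologicalSpace N] (C : CoverData domA (glueA D) N) (s : Bool) (b b' : N),
  b ∈ C.U (.A s) → ((leafSetoid C (esA D)) b b' ↔ ∃ f : E → N, ContinuousOn f (PA (C.c (.A s) b).1) ∧
    (∀ e ∈ PA (C.c (.A s) b).1, f e ∈ C.U (.A s) ∧ C.c (.A s) (f e) = e) ∧ f (C.c (.A s) b) = b ∧
    ∃ e ∈ PA (C.c (.A s) b).1, f e = b')

/-- LA11. (L2) leaves `ξ = 0`. -/
def LA11 : Prop := ∀ (D : DA) (N : Type) [TopologicalSpace N] (C : CoverData domA (glueA D) N) (m : Gam) (f : E → N),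
  IsLift C (.g m) univ f → ∀ e : E, e.1.1 = 0 → ∀ b', (leafSetoid C (esA D)) (f e) b' ↔ ∃ e' : E, e'.1.1 = 0 ∧ f e' = b'

/-- LA12. (L3) leaves in `Lam`. -/
def LA12 : Prop := ∀ (D : DA) (N : Type) [TopologicalSpace N] (C : CoverData domA (glueA D) N) (Y : ℝ → ℝ),
  IsCurve D.S univ Y → (∀ x, ((x, Y x) : P2) ∈ D.Lam) → ∀ f : E → N, IsLift C .R (graphE Y) f →
  ∀ e ∈ graphE Y, ∀ b', (leafSetoid C (esA D)) (f e) b' ↔ ∃ e' ∈ graphE Y, f e' = b'

/-- LA13. the attractor part of flow a as an `APart`. -/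
def LA13 : Prop := ∀ (D : DA) (N : Type) [TopologicalSpace N] (C : CoverData domA (glueA D) N),
  ∃ A : APart N (leafSetoid C (esA D)) Bool, A.U = (fun s => C.U (.A s)) ∧ A.c = fun s => C.c (.A s)

/-- LA14. edge lemma (E): the strip index of points of a connected subset of the repeller piece which are in one leaf. -/
def LA14 : Prop := ∀ (D : DA) (N : Type) [TopologicalSpace N] [GoodN N] (C : CoverData domA (glueA D) N) (b b' : N),
  (leafSetoid C (esA D)) b b' → (∃ K : Set N, IsPreconnected K ∧ K ⊆ C.U .R ∧ b ∈ K ∧ b' ∈ K) →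
  (C.c .R b).1 ∉ D.Lam → (C.c .R b').1 ∉ D.Lam → D.idx (C.c .R b).1 = D.idx (C.c .R b').1

/-- LA15. the quotient map is open. -/
def LA15 : Prop := ∀ (D : DA) (N : Type) [TopologicalSpace N] [GoodN N] (C : CoverData domA (glueA D) N),
  IsOpenMap (Quotient.mk (leafSetoid C (esA D)))

/-- LA16. transversal lines through leaves `ξ = 0`. -/
def LA16 : Prop := ∀ (D : DA) (N : Type) [TopologicalSpace N] [GoodN N] (C : CoverData domA (glueA D) N) (m : Gam)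
  (f : E → N), IsLift C (.g m) univ f → ∀ η τ : ℝ,
  IsOpenEmbedding (fun t : ℝ => Quotient.mk (leafSetoid C (esA D)) (f ((t, η), τ)))

/-- LA17. transversal lines through leaves in `Lam`. -/
def LA17 : Prop := ∀ (D : DA) (N : Type) [TopologicalSpace N] [GoodN N] (C : CoverData domA (glueA D) N) (z : P2)
  (τ ε : ℝ) (f : E → N), 0 < ε → z ∈ D.Lam → IsLift C .R {e : E | |e.1.1 - z.1| < ε ∧ |e.1.2 - z.2| < ε} f →
  {e : E | |e.1.1 - z.1| < ε ∧ |e.1.2 - z.2| < ε} ⊆ domA .R →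
  IsOpenEmbedding (fun t : Ioo (-ε) ε => Quotient.mk (leafSetoid C (esA D)) (f ((z.1, z.2 + t), τ)))

/-- LA18. every point of the leaf space lies on a line; so the leaf space is `IsSC1`. -/
def LA18 : Prop := ∀ (D : DA) (N : Type) [TopologicalSpace N] [GoodN N] (C : CoverData domA (glueA D) N),
  IsSC1 (Quotient (leafSetoid C (esA D)))

/-- LA19. (C3) no attractor leaf is non separated from another leaf. -/
def LA19 : Prop := ∀ (D : DA) (N : Type) [TopologicalSpace N] [GoodN N] (C : CoverData domA (glueA D) N)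
  (A : APart N (leafSetoid C (esA D)) Bool), A.U = (fun s => C.U (.A s)) → A.c = (fun s => C.c (.A s)) →
  ∀ a ∈ A.LA, ∀ b ∉ A.LA, ¬ NS a b

/-- LA20. (C4), both leaves of type `ξ = 0`. -/
def LA20 : Prop := ∀ (D : DA) (N : Type) [TopologicalSpace N] [GoodN N] (C : CoverData domA (glueA D) N) (m m' : Gam) (b b' : N),
  b ∈ C.U (.g m) → b' ∈ C.U (.g m') → (C.c (.g m) b).1.1 = 0 → (C.c (.g m') b').1.1 = 0 →
  ¬ NS (Quotient.mk (leafSetoid C (esA D)) b) (Quotient.mk (leafSetoid C (esA D)) b')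

/-- LA21. (C4), one leaf of type `ξ = 0`, one in `Lam`. -/
def LA21 : Prop := ∀ (D : DA) (N : Type) [TopologicalSpace N] [GoodN N] (C : CoverData domA (glueA D) N) (m : Gam) (b b' : N),
  b ∈ C.U (.g m) → b' ∈ C.U .R → (C.c (.g m) b).1.1 = 0 → (C.c .R b').1 ∈ D.Lam →
  ¬ NS (Quotient.mk (leafSetoid C (esA D)) b) (Quotient.mk (leafSetoid C (esA D)) b')

/-- LA22. (C4), both leaves in `Lam`. -/
def LA22 : Prop := ∀ (D : DA) (N : Type) [TopologicalSpace N] [GoodN N] (C : CoverData domA (glueA D) N) (b b' : N),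
  b ∈ C.U .R → b' ∈ C.U .R → (C.c .R b).1 ∈ D.Lam → (C.c .R b').1 ∈ D.Lam →
  ¬ NS (Quotient.mk (leafSetoid C (esA D)) b) (Quotient.mk (leafSetoid C (esA D)) b')

/-- LA23. the attractor leaves are dense. -/
def LA23 : Prop := ∀ (D : DA) (N : Type) [TopologicalSpace N] [GoodN N] (C : CoverData domA (glueA D) N)
  (A : APart N (leafSetoid C (esA D)) Bool), A.U = (fun s => C.U (.A s)) → A.c = (fun s => C.c (.A s)) → Dense A.LA

/-- LA24. MAIN THEOREM of the block. -/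
def LA24 : Prop := ∀ (D : DA) (N : Type) [TopologicalSpace N] [GoodN N] (C : CoverData domA (glueA D) N),
  IsW2 (Quotient (leafSetoid C (esA D)))

/-! ### Block 5: flow a, three non separated unstable leaves -/

/-- LU1. (Lu) unstable arcs stay in the repeller piece, with constant `x`. -/
def LU1 : Prop := ∀ (D : DA) (N : Type) [TopologicalSpace N] (C : CoverData domA (glueA D) N) (γ : ℝ → N),
  IsArc C (euA D) γ → ∀ t₀, γ t₀ ∈ C.U .R → ∀ t, γ t ∈ C.U .R ∧ (C.c .R (γ t)).1 ∈ IA (C.c .R (γ t₀)).1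

/-- LU2. MAIN THEOREM of the block. -/
def LU2 : Prop := ∀ (D : DA) (N : Type) [TopologicalSpace N] [GoodN N] (C : CoverData domA (glueA D) N),
  ∃ a b c : Quotient (leafSetoid C (euA D)), NS a b ∧ NS b c ∧ NS a c

end FlowA

/-! ### Block 6: flow 0 -/

section Flow0

/-- L01. the two kinds of points, exclusive; change of coordinates. -/
def L01 : Prop := ∀ (D : DA) (N : Type) [TopologicalSpace N] (C : CoverData dom0 (glue0 D) N) (b : N),
  (b ∈ C.U .A ∨ (b ∈ C.U .R ∧ (C.c .R b).1 ∈ D.Lam)) ∧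
  (b ∈ C.U .R → (C.c .R b).1 ∈ D.Lam → b ∉ C.U .A) ∧
  (∀ m ∈ Gam, ∀ v : P2, b ∈ C.U .R → (C.c .R b).1 = m + D.Psi v →
    b ∈ C.U .A ∧ C.c .A b = (m + D.Psi (v.2, v.1), (C.c .R b).2 - llog (nsq v))) ∧
  (∀ m ∈ Gam, ∀ w : P2, b ∈ C.U .A → (C.c .A b).1 = m + D.Psi w →
    b ∈ C.U .R ∧ C.c .R b = (m + D.Psi (w.2, w.1), (C.c .A b).2 + llog (nsq w)))

/-- L02. infinitesimal form of a stable arc. -/
def L02 : Prop := ∀ (D : DA) (N : Type) [TopologicalSpace N] (C : CoverData dom0 (glue0 D) N) (γ : ℝ → N),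
  IsArc C (es0 D) γ → ∀ t,
  (γ t ∈ C.U .A → HasDerivAt (fun u => (C.c .A (γ u)).1.1) 0 t) ∧
  (γ t ∈ C.U .R → ∃ a, HasDerivAt (fun u => (C.c .R (γ u)).1.1) a t ∧
    HasDerivAt (fun u => (C.c .R (γ u)).1.2) (D.S (C.c .R (γ t)).1 * a) t)

/-- L03. stable arcs stay in the attractor piece with constant `x`, and in `Lam` on an `S`-curve. -/
def L03 : Prop := ∀ (D : DA) (N : Type) [TopologicalSpace N] (C : CoverData dom0 (glue0 D) N) (γ : ℝ → N),
  IsArc C (es0 D) γ → ∀ t₀,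
  (γ t₀ ∈ C.U .A → ∀ t, γ t ∈ C.U .A ∧ (C.c .A (γ t)).1.1 = (C.c .A (γ t₀)).1.1) ∧
  (γ t₀ ∈ C.U .R → (C.c .R (γ t₀)).1 ∈ D.Lam →
    ∀ Y : ℝ → ℝ, IsCurve D.S univ Y → (C.c .R (γ t₀)).1.2 = Y (C.c .R (γ t₀)).1.1 →
    ∀ t, γ t ∈ C.U .R ∧ (C.c .R (γ t)).1 ∈ D.Lam ∧ (C.c .R (γ t)).1.2 = Y (C.c .R (γ t)).1.1)

/-- L04. (L1) for flow 0, and the `APart`. -/
def L04 : Prop := ∀ (D : DA) (N : Type) [TopologicalSpace N] (C : CoverData dom0 (glue0 D) N),
  ∃ A : APart N (leafSetoid C (es0 D)) Unit, A.U = (fun _ => C.U .A) ∧ A.c = fun _ => C.c .A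

/-- L05. (L3) for flow 0. -/
def L05 : Prop := ∀ (D : DA) (N : Type) [TopologicalSpace N] (C : CoverData dom0 (glue0 D) N) (Y : ℝ → ℝ),
  IsCurve D.S univ Y → (∀ x, ((x, Y x) : P2) ∈ D.Lam) → ∀ f : E → N, IsLift C .R (graphE Y) f →
  ∀ e ∈ graphE Y, ∀ b', (leafSetoid C (es0 D)) (f e) b' ↔ ∃ e' ∈ graphE Y, f e' = b'

/-- L06. edge lemma for flow 0. -/
def L06 : Prop := ∀ (D : DA) (N : Type) [TopologicalSpace N] [GoodN N] (C : CoverData dom0 (glue0 D) N) (b b' : N),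
  (leafSetoid C (es0 D)) b b' → (∃ K : Set N, IsPreconnected K ∧ K ⊆ C.U .R ∧ b ∈ K ∧ b' ∈ K) →
  (C.c .R b).1 ∉ D.Lam → (C.c .R b').1 ∉ D.Lam → D.idx (C.c .R b).1 = D.idx (C.c .R b').1

/-- L07. the quotient map is open. -/
def L07 : Prop := ∀ (D : DA) (N : Type) [TopologicalSpace N] [GoodN N] (C : CoverData dom0 (glue0 D) N),
  IsOpenMap (Quotient.mk (leafSetoid C (es0 D)))

/-- L08. transversal lines in the repeller piece. -/
def L08 : Prop := ∀ (D : DA) (N : Type) [TopologicalSpace N] [GoodN N] (C : CoverData dom0 (glue0 D) N) (z : P2)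
  (τ ε : ℝ) (f : E → N), 0 < ε → z ∈ D.Lam → IsLift C .R {e : E | |e.1.1 - z.1| < ε ∧ |e.1.2 - z.2| < ε} f →
  {e : E | |e.1.1 - z.1| < ε ∧ |e.1.2 - z.2| < ε} ⊆ dom0 .R →
  IsOpenEmbedding (fun t : Ioo (-ε) ε => Quotient.mk (leafSetoid C (es0 D)) (f ((z.1, z.2 + t), τ)))

/-- L09. `IsSC1`. -/
def L09 : Prop := ∀ (D : DA) (N : Type) [TopologicalSpace N] [GoodN N] (C : CoverData dom0 (glue0 D) N),
  IsSC1 (Quotient (leafSetoid C (es0 D)))

/-- L010. (C3). -/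
def L010 : Prop := ∀ (D : DA) (N : Type) [TopologicalSpace N] [GoodN N] (C : CoverData dom0 (glue0 D) N)
  (A : APart N (leafSetoid C (es0 D)) Unit), A.U = (fun _ => C.U .A) → A.c = (fun _ => C.c .A) →
  ∀ a ∈ A.LA, ∀ b ∉ A.LA, ¬ NS a b

/-- L011. (C4). -/
def L011 : Prop := ∀ (D : DA) (N : Type) [TopologicalSpace N] [GoodN N] (C : CoverData dom0 (glue0 D) N) (b b' : N),
  b ∈ C.U .R → b' ∈ C.U .R → (C.c .R b).1 ∈ D.Lam → (C.c .R b').1 ∈ D.Lam →
  ¬ NS (Quotient.mk (leafSetoid C (es0 D)) b) (Quotient.mk (leafSetoid C (es0 D)) b')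

/-- L012. the attractor leaves are dense. -/
def L012 : Prop := ∀ (D : DA) (N : Type) [TopologicalSpace N] [GoodN N] (C : CoverData dom0 (glue0 D) N)
  (A : APart N (leafSetoid C (es0 D)) Unit), A.U = (fun _ => C.U .A) → A.c = (fun _ => C.c .A) → Dense A.LA

/-- L013. MAIN THEOREM of the block. -/
def L013 : Prop := ∀ (D : DA) (N : Type) [TopologicalSpace N] [GoodN N] (C : CoverData dom0 (glue0 D) N),
  IsW2 (Quotient (leafSetoid C (es0 D)))

/-- L014. time reversal: `U'_R = U_A`, `c'_R = (z_A, -τ_A)`, `U'_A = U_R`, `c'_A = (z_R, -τ_R)`. -/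
def L014 : Prop := ∀ (D : DA) (N : Type) [TopologicalSpace N] (C : CoverData dom0 (glue0 D) N),
  ∃ C' : CoverData dom0 (glue0 D) N, leafSetoid C (eu0 D) = leafSetoid C' (es0 D)

/-- L015. unstable leaf space of flow 0. -/
def L015 : Prop := ∀ (D : DA) (N : Type) [TopologicalSpace N] [GoodN N] (C : CoverData dom0 (glue0 D) N),
  IsW2 (Quotient (leafSetoid C (eu0 D)))

end Flow0

end Pool.Agent.Work.MP_0d206b_gt

end

end

/-! ### L.Extra -/

section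

/-!
# MP_0d206b_gt, module L: additional statements (intermediate steps for LA1-LA24, LU1, LU2)
-/

open Set Filter Topology
open scoped ContDiff

noncomputable section

namespace Pool.Agent.Work.MP_0d206b_gt

/-- the open box around `z`, times the flow direction -/
abbrev box (z : P2) (ε : ℝ) : Set E := {e : E | |e.1.1 - z.1| < ε ∧ |e.1.2 - z.2| < ε}

/-! ### real line, arcs, surjectivity -/

/-- RL1. a nonempty open subset of the line which contains the end points of its intervals is everything. -/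
def RL1 : Prop := ∀ S : Set ℝ, IsOpen S → (∀ a ε, 0 < ε → Ioo a (a + ε) ⊆ S → a ∈ S) →
  (∀ a ε, 0 < ε → Ioo (a - ε) a ⊆ S → a ∈ S) → S.Nonempty → S = univ

/-- RL2. time reversal of arcs. -/
def RL2 : Prop := ∀ (ι : Type) (dom : ι → Set E) (glue : ι → E → ι → E → Prop) (N : Type) [TopologicalSpace N]
  (C : CoverData dom glue N) (w : ι → E → E) (γ : ℝ → N), IsArc C w γ → IsArc C w (fun t => γ (-t))

/-- RL3. uniqueness for `y' = S(x, y) x'` along a curve (Gronwall, `S` is Lipschitz in `y`). -/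
def RL3 : Prop := ∀ (D : DA) (x y Y : ℝ → ℝ), ContDiff ℝ 1 x →
  (∀ t, HasDerivAt y (D.S (x t, y t) * deriv x t) t) → IsCurve D.S univ Y → ∀ t₀, y t₀ = Y (x t₀) → ∀ t, y t = Y (x t)

/-- ZC. the complement of the (countable) lattice is path connected. -/
def ZC : Prop := IsPathConnected {z : P2 | z ∉ Gam} ∧ IsPathConnected {e : E | e.1 ∉ Gam}

/-- SJ. a covering of a path connected piece is onto, if it is not empty. -/
def SJ : Prop := ∀ (ι : Type) (dom : ι → Set E) (glue : ι → E → ι → E → Prop) (N : Type) [TopologicalSpace N]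
  (C : CoverData dom glue N) (i : ι), IsPathConnected (dom i) → (C.U i).Nonempty → ∀ e ∈ dom i, ∃ b ∈ C.U i, C.c i b = e

/-- SA. in flow a the repeller piece is onto. -/
def SA : Prop := ∀ (D : DA) (N : Type) [TopologicalSpace N] [Nonempty N] (C : CoverData domA (glueA D) N),
  ∀ e : E, e.1 ∉ Gam → ∃ b ∈ C.U .R, C.c .R b = e

/-! ### attractor part (generic, both flows) -/

/-- AP9. local lines through the leaves of the attractor part (horizontal transversals `x ↦ s (x, y, τ)`). -/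
def AP9 : Prop := ∀ (N : Type) [TopologicalSpace N] (r : Setoid N) (κ : Type) (A : APart N r κ),
  IsOpenMap (Quotient.mk r) → ∀ k, ∀ b ∈ A.U k, ∃ f : ℝ → Quotient r, IsOpenEmbedding f ∧ Quotient.mk r b ∈ range f

/-- AP10. openness of the quotient map at the leaves of the attractor part (vertical translation in a box around the
segment between the two points). -/
def AP10 : Prop := ∀ (N : Type) [TopologicalSpace N] (r : Setoid N) (κ : Type) (A : APart N r κ) (k : κ) (b b' : N),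
  b ∈ A.U k → r b b' → ∀ O ∈ 𝓝 b, ∀ᶠ b'' in 𝓝 b', ∃ b₁ ∈ O, r b₁ b''

/-- XL. lattice argument: points of one leaf of the attractor part cannot lie in strips on different sides of a lattice
point on the same vertical line. -/
def XL : Prop := ∀ (D : DA) (N : Type) [TopologicalSpace N] (r : Setoid N) (κ : Type) (A : APart N r κ) (k : κ) (b b' : N),
  b ∈ A.U k → r b b' → ∀ p ∈ Gam, ∀ p' ∈ Gam, ∀ w w' : P2, (A.c k b).1 = p + D.Psi w → (A.c k b').1 = p' + D.Psi w' →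
  ∀ m ∈ Gam, m.1 = (A.c k b).1.1 → p.2 < m.2 → m.2 < p'.2 → False

/-! ### germs -/

/-- U05i. germ lemma for local lines. -/
def U05i : Prop := ∀ (X : Type) [TopologicalSpace X], IsSC1 X → ∀ (ε : ℝ) (f : ℝ → X), 0 < ε →
  IsOpenEmbedding (fun t : Ioo (-ε) ε => f t) → ∀ w : X, w ≠ f 0 →
  (NS (f 0) w ↔ (Tendsto f (𝓝[<] 0) (𝓝 w) ∨ Tendsto f (𝓝[>] 0) (𝓝 w))) ∧
    ¬ (Tendsto f (𝓝[<] 0) (𝓝 w) ∧ Tendsto f (𝓝[>] 0) (𝓝 w))

/-- NSg. two non separated points on local lines: one side of the first line runs into the second line. -/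
def NSg : Prop := ∀ (X : Type) [TopologicalSpace X], IsSC1 X → ∀ (ε ε' : ℝ) (f g : ℝ → X), 0 < ε → 0 < ε' →
  IsOpenEmbedding (fun t : Ioo (-ε) ε => f t) → IsOpenEmbedding (fun t : Ioo (-ε') ε' => g t) → NS (f 0) (g 0) →
  ∃ σ : ℝ, (σ = 1 ∨ σ = -1) ∧ ∀ η > 0, ∃ δ > 0, δ < ε ∧ ∀ t ∈ Ioo 0 δ, ∃ u ∈ Ioo (-η) η, f (σ * t) = g u

/-- NSh. two non separated points on local lines: a one-sided germ of the first line is a one-sided germ of the second. -/
def NSh : Prop := ∀ (X : Type) [TopologicalSpace X], IsSC1 X → ∀ (ε ε' : ℝ) (f g : ℝ → X), 0 < ε → 0 < ε' →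
  IsOpenEmbedding (fun t : Ioo (-ε) ε => f t) → IsOpenEmbedding (fun t : Ioo (-ε') ε' => g t) → NS (f 0) (g 0) →
  ∃ σ σ' : ℝ, (σ = 1 ∨ σ = -1) ∧ (σ' = 1 ∨ σ' = -1) ∧
    (∀ η > 0, ∃ δ > 0, δ < ε ∧ ∀ t ∈ Ioo 0 δ, ∃ u ∈ Ioo 0 η, f (σ * t) = g (σ' * u)) ∧
    (∀ δ > 0, ∃ η > 0, η < ε' ∧ ∀ u ∈ Ioo 0 η, ∃ t ∈ Ioo 0 δ, f (σ * t) = g (σ' * u))

/-- NSl. two different limits of one curve are not separated. -/
def NSl : Prop := ∀ (X : Type) [TopologicalSpace X] (u : ℝ → X) (a a' : X), a ≠ a' → Tendsto u (𝓝[>] 0) (𝓝 a) →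
  Tendsto u (𝓝[>] 0) (𝓝 a') → NS a a'

/-! ### flow a, stable side -/

section

/-- LA7a. closedness step for the attractor pieces. -/
def LA7a : Prop := ∀ (D : DA) (N : Type) [TopologicalSpace N] (C : CoverData domA (glueA D) N) (γ : ℝ → N),
  IsArc C (esA D) γ → ∀ (a ε : ℝ) (s : Bool), 0 < ε → (∀ t ∈ Ioo a (a + ε), γ t ∈ C.U (.A s)) → γ a ∈ C.U (.A s)

/-- LA8a. closedness step for `{ξ = 0}` in a saddle piece. -/
def LA8a : Prop := ∀ (D : DA) (N : Type) [TopologicalSpace N] (C : CoverData domA (glueA D) N) (γ : ℝ → N),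
  IsArc C (esA D) γ → ∀ (a ε : ℝ) (m : Gam), 0 < ε →
  (∀ t ∈ Ioo a (a + ε), γ t ∈ C.U (.g m) ∧ (C.c (.g m) (γ t)).1.1 = 0) → γ a ∈ C.U (.g m) ∧ (C.c (.g m) (γ a)).1.1 = 0

/-- LT. the three types of leaves: the leaf relation preserves the type of a point. -/
def LT : Prop := ∀ (D : DA) (N : Type) [TopologicalSpace N] (C : CoverData domA (glueA D) N) (b b' : N),
  (leafSetoid C (esA D)) b b' →
  (∀ s, b ∈ C.U (.A s) → b' ∈ C.U (.A s) ∧ (C.c (.A s) b').1.1 = (C.c (.A s) b).1.1) ∧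
  (∀ m, b ∈ C.U (.g m) → (C.c (.g m) b).1.1 = 0 → b' ∈ C.U (.g m) ∧ (C.c (.g m) b').1.1 = 0) ∧
  (b ∈ C.U .R → (C.c .R b).1 ∈ D.Lam → b' ∈ C.U .R ∧ (C.c .R b').1 ∈ D.Lam)

/-- LA15b. openness of the quotient map at leaves `ξ = 0`. -/
def LA15b : Prop := ∀ (D : DA) (N : Type) [TopologicalSpace N] [GoodN N] (C : CoverData domA (glueA D) N) (m : Gam) (b b' : N),
  b ∈ C.U (.g m) → (C.c (.g m) b).1.1 = 0 → (leafSetoid C (esA D)) b b' →
  ∀ O ∈ 𝓝 b, ∀ᶠ b'' in 𝓝 b', ∃ b₁ ∈ O, (leafSetoid C (esA D)) b₁ b''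

/-- LA15c. openness of the quotient map at leaves in `Lam`. -/
def LA15c : Prop := ∀ (D : DA) (N : Type) [TopologicalSpace N] [GoodN N] (C : CoverData domA (glueA D) N) (b b' : N),
  b ∈ C.U .R → (C.c .R b).1 ∈ D.Lam → (leafSetoid C (esA D)) b b' →
  ∀ O ∈ 𝓝 b, ∀ᶠ b'' in 𝓝 b', ∃ b₁ ∈ O, (leafSetoid C (esA D)) b₁ b''

/-- XE. points of one leaf in the repeller piece with the same `x`, `τ` and strip are equal. -/
def XE : Prop := ∀ (D : DA) (N : Type) [TopologicalSpace N] [GoodN N] (C : CoverData domA (glueA D) N) (b b' : N),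
  b ∈ C.U .R → b' ∈ C.U .R → (leafSetoid C (esA D)) b b' → (C.c .R b).1.1 = (C.c .R b').1.1 →
  (C.c .R b).2 = (C.c .R b').2 →
  ((C.c .R b).1 ∉ D.Lam → (C.c .R b').1 ∉ D.Lam → D.idx (C.c .R b).1 = D.idx (C.c .R b').1) → b = b'

/-- LA17i. injectivity of the vertical transversals in the repeller piece. -/
def LA17i : Prop := ∀ (D : DA) (N : Type) [TopologicalSpace N] [GoodN N] (C : CoverData domA (glueA D) N) (z : P2)
  (τ ε : ℝ) (f : E → N), 0 < ε → IsLift C .R (box z ε) f → box z ε ⊆ {e : E | e.1 ∉ Gam} →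
  ∀ t ∈ Ioo (-ε) ε, ∀ t' ∈ Ioo (-ε) ε,
    (leafSetoid C (esA D)) (f ((z.1, z.2 + t), τ)) (f ((z.1, z.2 + t'), τ)) → t = t'

/-- LA17o. local flow box: leaves through points near `f (z₁, z₂ + t, τ)` meet the vertical transversal near this point. -/
def LA17o : Prop := ∀ (D : DA) (N : Type) [TopologicalSpace N] [GoodN N] (C : CoverData domA (glueA D) N) (z : P2)
  (τ ε : ℝ) (f : E → N), 0 < ε → IsLift C .R (box z ε) f → box z ε ⊆ {e : E | e.1 ∉ Gam} →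
  ∀ t ∈ Ioo (-ε) ε, ∀ η > 0, ∀ᶠ b in 𝓝 (f ((z.1, z.2 + t), τ)), ∃ t' ∈ Ioo (-ε) ε, |t' - t| < η ∧
    (leafSetoid C (esA D)) (f ((z.1, z.2 + t'), τ)) b

/-- XR. behaviour of a vertical transversal on a side of a point of `Lam` which is free of `Lam`: one strip `m`, one
attractor `s`, `x → -∞`, and all values near `-∞` are taken. -/
def XR : Prop := ∀ (D : DA) (N : Type) [TopologicalSpace N] (C : CoverData domA (glueA D) N) (z : P2)
  (τ ε σ δ₀ : ℝ) (f : E → N), 0 < ε → (σ = 1 ∨ σ = -1) → 0 < δ₀ → δ₀ < ε → z ∈ D.Lam → IsLift C .R (box z ε) f →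
  box z ε ⊆ {e : E | e.1 ∉ Gam} → (∀ t ∈ Ioo 0 δ₀, ((z.1, z.2 + σ * t) : P2) ∉ D.Lam) →
  ∃ m ∈ Gam, ∃ s : Bool, ∃ δ > 0, δ < δ₀ ∧
    (∀ t ∈ Ioo 0 δ, D.idx (z.1, z.2 + σ * t) = m ∧ f ((z.1, z.2 + σ * t), τ) ∈ C.U (.A s) ∧
      ∃ w, (C.c (.A s) (f ((z.1, z.2 + σ * t), τ))).1 = sg s • m + D.Psi w) ∧
    (∀ M : ℝ, ∃ δ' > 0, δ' < δ ∧ ∀ t ∈ Ioo 0 δ', (C.c (.A s) (f ((z.1, z.2 + σ * t), τ))).1.1 < M) ∧
    (∀ δ' > 0, δ' ≤ δ → ∃ X₀ : ℝ, ∀ X < X₀, ∃ t ∈ Ioo 0 δ', (C.c (.A s) (f ((z.1, z.2 + σ * t), τ))).1.1 = X)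

/-- XT. transport along leaves near an `S`-curve in `Lam` from the vertical over `z₁` to the vertical over `x'`. -/
def XT : Prop := ∀ (D : DA) (N : Type) [TopologicalSpace N] [GoodN N] (C : CoverData domA (glueA D) N) (z : P2)
  (τ ε : ℝ) (f : E → N), 0 < ε → z ∈ D.Lam → IsLift C .R (box z ε) f → box z ε ⊆ {e : E | e.1 ∉ Gam} →
  ∀ x' τ' : ℝ, ∃ P₀ : N, (leafSetoid C (esA D)) (f (z, τ)) P₀ ∧
  ∀ O ∈ 𝓝 P₀, ∃ δ > 0, δ ≤ ε ∧ ∀ t, |t| < δ → ∃ P ∈ O, P ∈ C.U .R ∧ (C.c .R P).1.1 = x' ∧ (C.c .R P).2 = τ' ∧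
    (leafSetoid C (esA D)) (f ((z.1, z.2 + t), τ)) P ∧
    (((z.1, z.2 + t) : P2) ∉ D.Lam → D.idx (C.c .R P).1 = D.idx (z.1, z.2 + t))

end

/-! ### flow a, unstable side -/

/-- LU0. infinitesimal form of an unstable arc. -/
def LU0 : Prop := ∀ (D : DA) (N : Type) [TopologicalSpace N] (C : CoverData domA (glueA D) N) (γ : ℝ → N),
  IsArc C (euA D) γ → ∀ t,
  (γ t ∈ C.U .R → HasDerivAt (fun u => (C.c .R (γ u)).1.1) 0 t) ∧
  (∀ m, γ t ∈ C.U (.g m) → HasDerivAt (fun u => (C.c (.g m) (γ u)).1.2) 0 t)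

/-- LU1a. closedness step for the repeller piece. -/
def LU1a : Prop := ∀ (D : DA) (N : Type) [TopologicalSpace N] (C : CoverData domA (glueA D) N) (γ : ℝ → N),
  IsArc C (euA D) γ → ∀ a ε : ℝ, 0 < ε → (∀ t ∈ Ioo a (a + ε), γ t ∈ C.U .R) → γ a ∈ C.U .R

end Pool.Agent.Work.MP_0d206b_gt

end

end

/-! ### L.XArc -/

section

/-!
# MP_0d206b_gt, shared lemmas on curves in a `CoverData` (used by I_LA7a, I_LA8a)
-/

open Set Filter Topology
open scoped ContDiff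

noncomputable section

namespace Pool.Agent.Work.MP_0d206b_gt

namespace XArc

variable {ι : Type} {dom : ι → Set E} {glue : ι → E → ι → E → Prop} {N : Type} [TopologicalSpace N]

/-- the coordinate maps are continuous on their domains -/
theorem contOn_c (C : CoverData dom glue N) (i : ι) : ContinuousOn (C.c i) (C.U i) := by
  have h : Continuous ((C.maps i).restrict (C.c i) (C.U i) (dom i)) := (C.cov i).continuous
  rw [continuousOn_iff_continuous_domRestrict]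
  exact continuous_subtype_val.comp h

theorem contAt_c (C : CoverData dom glue N) (i : ι) {γ : ℝ → N} (hγ : Continuous γ) {t : ℝ} (ht : γ t ∈ C.U i) :
    ContinuousAt (fun u => C.c i (γ u)) t :=
  ((contOn_c C i).continuousAt ((C.isOpen_U i).mem_nhds ht)).comp hγ.continuousAt

/-- near a time in `U i` the curve stays in `U i` -/
theorem near (C : CoverData dom glue N) (i : ι) {γ : ℝ → N} (hγ : Continuous γ) {a : ℝ} (ha : γ a ∈ C.U i) :
    ∃ δ > 0, ∀ t ∈ Metric.ball a δ, γ t ∈ C.U i :=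
  Metric.isOpen_iff.1 ((C.isOpen_U i).preimage hγ) a ha

/-- a function with zero derivative on a ball is constant there -/
theorem const_of_deriv {f : ℝ → ℝ} {s : Set ℝ} (hs : IsOpen s) (hp : IsPreconnected s)
    (h : ∀ t ∈ s, HasDerivAt f 0 t) {t t' : ℝ} (ht : t ∈ s) (ht' : t' ∈ s) : f t = f t' :=
  hs.is_const_of_deriv_eq_zero hp (fun u hu => (h u hu).differentiableAt.differentiableWithinAt)
    (fun u hu => (h u hu).deriv) ht ht'

/-- passing to the limit `t → a+` in an identity for the plane coordinate -/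
theorem lim_eq (C : CoverData dom glue N) (i : ι) {γ : ℝ → N} (hγ : Continuous γ) {a δ : ℝ} (hδ : 0 < δ)
    (ha : γ a ∈ C.U i) {Φ : ℝ → P2} (hΦ : Continuous Φ)
    (h : ∀ t ∈ Ioo a (a + δ), (C.c i (γ t)).1 = Φ (C.c i (γ t)).1.1) :
    (C.c i (γ a)).1 = Φ (C.c i (γ a)).1.1 := by
  have hc := contAt_c C i hγ ha
  have h1 : Tendsto (fun u => (C.c i (γ u)).1) (𝓝[>] a) (𝓝 (C.c i (γ a)).1) :=
    hc.fst.tendsto.mono_left nhdsWithin_le_nhds
  have h2 : Tendsto (fun u => Φ (C.c i (γ u)).1.1) (𝓝[>] a) (𝓝 (Φ (C.c i (γ a)).1.1)) := by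
    have h3 : ContinuousAt (fun u => Φ (C.c i (γ u)).1.1) a := hΦ.continuousAt.comp hc.fst.fst
    exact h3.tendsto.mono_left nhdsWithin_le_nhds
  have h4 : Tendsto (fun u => (C.c i (γ u)).1) (𝓝[>] a) (𝓝 (Φ (C.c i (γ a)).1.1)) := by
    refine h2.congr' ?_
    filter_upwards [Ioo_mem_nhdsGT (lt_add_of_pos_right a hδ)] with u hu
    exact (h u hu).symm
  exact tendsto_nhds_unique h1 h4

/-- the strip index is constant along a piece of a curve in the repeller coordinates off `Lam` -/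
theorem idx_const (hP2 : PL2) (D : DA) (C : CoverData dom glue N) (i : ι) {γ : ℝ → N} (hγ : Continuous γ) {J : Set ℝ}
    (hp : IsPreconnected J) (hJ : ∀ t ∈ J, γ t ∈ C.U i ∧ (C.c i (γ t)).1 ∉ D.Lam) {t t' : ℝ} (ht : t ∈ J)
    (ht' : t' ∈ J) : D.idx (C.c i (γ t)).1 = D.idx (C.c i (γ t')).1 := by
  have hloc : IsLocallyConstant (fun u : J => D.idx (C.c i (γ u)).1) := by
    rw [IsLocallyConstant.iff_eventually_eq]
    rintro ⟨u, hu⟩
    have h5 : ∀ᶠ u' in 𝓝 u, D.idx (C.c i (γ u')).1 = D.idx (C.c i (γ u)).1 := by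
      have h6 : ContinuousAt (fun u => (C.c i (γ u)).1) u := (contAt_c C i hγ (hJ u hu).1).fst
      filter_upwards [h6.eventually ((hP2 D).2.2 _ (hJ u hu).2)] with u' hu'
      exact hu'.2
    exact (continuous_subtype_val.tendsto (⟨u, hu⟩ : J)).eventually h5
  have : PreconnectedSpace J := isPreconnected_iff_preconnectedSpace.1 hp
  exact hloc.apply_eq_of_preconnectedSpace ⟨t, ht⟩ ⟨t', ht'⟩

theorem sg_mul_self (s : Bool) : sg s * sg s = 1 := by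
  cases s <;> simp [sg]

end XArc

end Pool.Agent.Work.MP_0d206b_gt

end

end

/-! ### L0.Stmts -/

section

/-!
# MP_0d206b_gt, module L, flow 0: auxiliary statements (the main ones are L01-L015 in L/FlowA.lean)
-/

open Set Filter Topology
open scoped ContDiff

noncomputable section

namespace Pool.Agent.Work.MP_0d206b_gt

/-- APL. Through every leaf of the attractor part there is a line (both flows). -/
def APL : Prop := ∀ (N : Type) [TopologicalSpace N] [T2Space N] (r : Setoid N) (κ : Type) (A : APart N r κ),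
  IsOpenMap (Quotient.mk r) → ∀ a ∈ A.LA, ∃ f : ℝ → Quotient r, IsOpenEmbedding f ∧ a ∈ range f

/-- GM. Matching germs of two local lines at non separated points (both flows). -/
def GM : Prop := ∀ (X : Type) [TopologicalSpace X], IsSC1 X → ∀ (ε ε' : ℝ), 0 < ε → 0 < ε' → ∀ (g g' : ℝ → X),
  IsOpenEmbedding (fun t : Ioo (-ε) ε => g t) → IsOpenEmbedding (fun t : Ioo (-ε') ε' => g' t) → NS (g 0) (g' 0) →
  ∃ σ : ℝ, (σ = 1 ∨ σ = -1) ∧ ∃ δ > 0, δ ≤ ε ∧ ∃ u : ℝ → ℝ, ContinuousOn u (Ioo 0 δ) ∧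
    Tendsto u (𝓝[>] 0) (𝓝 0) ∧ ∀ t ∈ Ioo 0 δ, |u t| < ε' ∧ u t ≠ 0 ∧ g (σ * t) = g' (u t)

/-- LN. Local lines give lines. -/
def LN : Prop := ∀ (X : Type) [TopologicalSpace X] (ε : ℝ), 0 < ε → ∀ g : ℝ → X,
  IsOpenEmbedding (fun t : Ioo (-ε) ε => g t) → ∃ θ : ℝ → ℝ, StrictMono θ ∧ Continuous θ ∧ θ 0 = 0 ∧
    range θ = Ioo (-ε) ε ∧ IsOpenEmbedding (fun t => g (θ t))

/-- L0move. Moving along an `S`-curve inside a lifted set. -/
def L0move : Prop := ∀ (D : DA) (N : Type) [TopologicalSpace N] (C : CoverData dom0 (glue0 D) N) (T : Set E)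
  (s : E → N), T ⊆ dom0 .R → IsLift C .R T s → ∀ (Y : ℝ → ℝ), IsCurve D.S univ Y → ∀ x x' τ τ' : ℝ,
  (∀ x'' ∈ uIcc x x', ∀ τ'' : ℝ, (((x'', Y x''), τ'') : E) ∈ T) →
  (leafSetoid C (es0 D)) (s ((x, Y x), τ)) (s ((x', Y x'), τ'))

/-- L0tube. Lifts over a tube around an `S`-curve in `Lam`. -/
def L0tube : Prop := ∀ (D : DA) (N : Type) [TopologicalSpace N] (C : CoverData dom0 (glue0 D) N) (Y : ℝ → ℝ),
  IsCurve D.S univ Y → (∀ x, ((x, Y x) : P2) ∈ D.Lam) → ∀ (b : N), b ∈ C.U .R →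
  (C.c .R b).1.2 = Y (C.c .R b).1.1 → ∀ x₁ x₂ : ℝ, x₁ ≤ (C.c .R b).1.1 → (C.c .R b).1.1 ≤ x₂ →
  ∃ ρ > 0, ρ ≤ 1 ∧ ∃ s : E → N,
    {e : E | x₁ - ρ < e.1.1 ∧ e.1.1 < x₂ + ρ ∧ |e.1.2 - Y e.1.1| < ρ} ⊆ dom0 .R ∧
    IsLift C .R {e : E | x₁ - ρ < e.1.1 ∧ e.1.1 < x₂ + ρ ∧ |e.1.2 - Y e.1.1| < ρ} s ∧ s (C.c .R b) = b ∧
    ∀ b', (leafSetoid C (es0 D)) b b' → x₁ ≤ (C.c .R b').1.1 → (C.c .R b').1.1 ≤ x₂ → s (C.c .R b') = b'

/-- L07A. Openness of the quotient map at attractor points. -/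
def L07A : Prop := ∀ (D : DA) (N : Type) [TopologicalSpace N] (C : CoverData dom0 (glue0 D) N) (O : Set N)
  (b b' : N), IsOpen O → b ∈ O → b' ∈ C.U .A → (leafSetoid C (es0 D)) b' b →
  ∀ᶠ b₁ in 𝓝 b', ∃ b₂ ∈ O, (leafSetoid C (es0 D)) b₁ b₂

/-- L07R. Openness of the quotient map at points over `Lam`. -/
def L07R : Prop := ∀ (D : DA) (N : Type) [TopologicalSpace N] (C : CoverData dom0 (glue0 D) N) (O : Set N)
  (b b' : N), IsOpen O → b ∈ O → b' ∈ C.U .R → (C.c .R b').1 ∈ D.Lam → (leafSetoid C (es0 D)) b' b →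
  ∀ᶠ b₁ in 𝓝 b', ∃ b₂ ∈ O, (leafSetoid C (es0 D)) b₁ b₂

/-- L011a. Points of one leaf with the same repeller coordinates are equal. -/
def L011a : Prop := ∀ (D : DA) (N : Type) [TopologicalSpace N] (C : CoverData dom0 (glue0 D) N) (b b' : N),
  b ∈ C.U .R → b' ∈ C.U .R → (leafSetoid C (es0 D)) b b' → C.c .R b = C.c .R b' → b = b'

/-- L011c. The planar part of (C4). -/
def L011c : Prop := ∀ (D : DA) (N : Type) [TopologicalSpace N] [GoodN N] (C : CoverData dom0 (glue0 D) N)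
  (z z' : P2) (τ τ' ε ε' : ℝ) (f f' : E → N), 0 < ε → 0 < ε' → z ∈ D.Lam → z' ∈ D.Lam →
  IsLift C .R {e : E | |e.1.1 - z.1| < ε ∧ |e.1.2 - z.2| < ε} f →
  IsLift C .R {e : E | |e.1.1 - z'.1| < ε' ∧ |e.1.2 - z'.2| < ε'} f' →
  {e : E | |e.1.1 - z.1| < ε ∧ |e.1.2 - z.2| < ε} ⊆ dom0 .R →
  {e : E | |e.1.1 - z'.1| < ε' ∧ |e.1.2 - z'.2| < ε'} ⊆ dom0 .R →
  ∀ (σ δ : ℝ) (u : ℝ → ℝ), (σ = 1 ∨ σ = -1) → 0 < δ → δ ≤ ε → ContinuousOn u (Ioo 0 δ) →
  (∀ t ∈ Ioo 0 δ, |u t| < ε' ∧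
    (leafSetoid C (es0 D)) (f ((z.1, z.2 + σ * t), τ)) (f' ((z'.1, z'.2 + u t), τ'))) →
  ∀ t ∈ Ioo 0 δ, ∀ Y : ℝ → ℝ, IsCurve D.S univ Y → Y z.1 = z.2 + σ * t → Y z'.1 = z'.2 + u t

end Pool.Agent.Work.MP_0d206b_gt

end

end
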