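import Pool.Agent.Work.MP_0d206b_gt.Bd.StU

/-! ### U.Cover -/

section

/-! Item Cover: countable covers by charts. -/

set_option autoImplicit false

namespace Pool.Agent.Work.MP_0d206b_gt.U

open Set Filter Topology Function

universe u v

theorem I_Cover : StCover.{u} := by
  intro X _ _ hX
  choose ψ hψ h0 using hX.chart
  obtain ⟨T, hT, hU⟩ := TopologicalSpace.isOpen_iUnion_countable (fun x => range (ψ x))
    fun x => (hψ x).isOpen_range
  have hne : T.Nonempty := by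
    by_contra h
    rw [not_nonempty_iff_eq_empty] at h
    subst h
    have := hX.conn
    obtain ⟨x⟩ : Nonempty X := inferInstance
    have hx : x ∈ ⋃ i, range (ψ i) := mem_iUnion.2 ⟨x, ⟨0, h0 x⟩⟩
    rw [← hU] at hx
    simp at hx
  obtain ⟨g, hg⟩ := hT.exists_eq_range hne
  refine ⟨fun n => ψ (g n), fun n => hψ _, ?_⟩
  rw [eq_univ_iff_forall]
  intro x
  have hx : x ∈ ⋃ i, range (ψ i) := mem_iUnion.2 ⟨x, ⟨0, h0 x⟩⟩
  rw [← hU, mem_iUnion₂] at hx
  obtain ⟨i, hi, hx⟩ := hx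
  rw [hg] at hi
  obtain ⟨n, rfl⟩ := hi
  exact mem_iUnion.2 ⟨n, hx⟩

end Pool.Agent.Work.MP_0d206b_gt.U

end

/-! ### U.Extend -/

section

/-! Project MP_0d206b_gt, module U, item Extend: extension of an arc in a Hausdorff open connected
set. -/

set_option autoImplicit false

namespace Pool.Agent.Work.MP_0d206b_gt.U

open Set Filter Topology Function

universe u

namespace Extend

variable {X : Type u} [TopologicalSpace X]

theorem neg_emb {f : ℝ → X} (hf : IsOpenEmbedding f) : IsOpenEmbedding (fun t => f (-t)) :=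
  hf.comp (Homeomorph.neg ℝ).isOpenEmbedding

omit [TopologicalSpace X] in
theorem range_neg (f : ℝ → X) : range (fun t => f (-t)) = range f := by
  ext x
  constructor
  · rintro ⟨t, rfl⟩
    exact ⟨-t, rfl⟩
  · rintro ⟨t, rfl⟩
    exact ⟨-t, by simp⟩

/-- The monotone case: the coordinate function is unbounded. -/
theorem mono_case {f ψ : ℝ → X} (hf : IsOpenEmbedding f) (hψ : IsOpenEmbedding ψ) {b s : ℝ}
    (hbs : b < s) {U : Set X} (hSep : Sep2 U) (hfU : range f ⊆ U) (hψU : range ψ ⊆ U)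
    (hs : ψ s ∉ range f) (g : ℝ → ℝ) (hg : ∀ t ∈ Ioo b s, f (g t) = ψ t)
    (hmono : StrictMonoOn g (Ioo b s)) (m : ℝ) :
    ∃ b' ∈ Ioo b s, m < g b' ∧ ∀ t ∈ Ioo b' s, ψ t ∈ f '' Ioi (g b') := by
  have key : ∃ b' ∈ Ioo b s, m < g b' := by
    by_contra hcon
    push Not at hcon
    have hne : (g '' Ioo b s).Nonempty := (nonempty_Ioo.2 hbs).image g
    have hbdd : BddAbove (g '' Ioo b s) := ⟨m, by rintro _ ⟨t, ht, rfl⟩; exact hcon t ht⟩
    set l := sSup (g '' Ioo b s) with hl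
    have hns : NonSep (f l) (ψ s) := by
      intro A B hA hB hlA hsB
      have hA' : IsOpen (f ⁻¹' A) := hA.preimage hf.continuous
      have hB' : IsOpen (ψ ⁻¹' B) := hB.preimage hψ.continuous
      obtain ⟨ε, hε, hεA⟩ := Metric.isOpen_iff.1 hA' l hlA
      obtain ⟨δ, hδ, hδB⟩ := Metric.isOpen_iff.1 hB' s hsB
      obtain ⟨_, ⟨t0, ht0, rfl⟩, ht0l⟩ := exists_lt_of_lt_csSup hne (show l - ε < l by linarith)
      have ht1 : max t0 (s - δ) < s := max_lt ht0.2 (by linarith)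
      set t1 := (max t0 (s - δ) + s) / 2 with ht1d
      have h1 : max t0 (s - δ) < t1 := by rw [ht1d]; linarith
      have h2 : t1 < s := by rw [ht1d]; linarith
      have h3 : t0 < t1 := lt_of_le_of_lt (le_max_left _ _) h1
      have h4 : s - δ < t1 := lt_of_le_of_lt (le_max_right _ _) h1
      have h5 : t1 ∈ Ioo b s := ⟨ht0.1.trans h3, h2⟩
      have h6 : g t0 < g t1 := hmono ht0 h5 h3
      have h7 : g t1 ≤ l := le_csSup hbdd ⟨t1, h5, rfl⟩
      refine ⟨ψ t1, ?_, ?_⟩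
      · rw [← hg t1 h5]
        apply hεA
        rw [Metric.mem_ball, Real.dist_eq, abs_lt]
        constructor <;> linarith
      · apply hδB
        rw [Metric.mem_ball, Real.dist_eq, abs_lt]
        constructor <;> linarith
    have := hSep (f l) (hfU ⟨l, rfl⟩) (ψ s) (hψU ⟨s, rfl⟩) hns
    exact hs ⟨l, this⟩
  obtain ⟨b', hb', hm⟩ := key
  refine ⟨b', hb', hm, fun t ht => ?_⟩
  have ht' : t ∈ Ioo b s := ⟨hb'.1.trans ht.1, ht.2⟩
  exact ⟨g t, hmono hb' ht' ht.1, hg t ht'⟩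

theorem key {f ψ : ℝ → X} (hf : IsOpenEmbedding f) (hψ : IsOpenEmbedding ψ) {b s : ℝ}
    (hbs : b < s) {U : Set X} (hSep : Sep2 U) (hfU : range f ⊆ U) (hψU : range ψ ⊆ U)
    (hW : ∀ t ∈ Ioo b s, ψ t ∈ range f) (hs : ψ s ∉ range f) (m : ℝ) :
    ∃ b' ∈ Ioo b s, ∃ a', f a' = ψ b' ∧ ((m < a' ∧ ∀ t ∈ Ioo b' s, ψ t ∈ f '' Ioi a') ∨
      (a' < -m ∧ ∀ t ∈ Ioo b' s, ψ t ∈ f '' Iio a')) := by
  classical
  set g : ℝ → ℝ := fun t => invFun f (ψ t) with hgd
  have hg : ∀ t ∈ Ioo b s, f (g t) = ψ t := fun t ht => invFun_eq (hW t ht)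
  have hcont : ContinuousOn g (Ioo b s) := by
    rw [hf.isInducing.continuousOn_iff]
    exact hψ.continuous.continuousOn.congr fun t ht => hg t ht
  have hinj : InjOn g (Ioo b s) := by
    intro t ht t' ht' h
    apply hψ.injective
    rw [← hg t ht, ← hg t' ht', h]
  rcases hcont.strictMonoOn_of_injOn_Ioo hbs hinj with hm | hm
  · obtain ⟨b', hb', h1, h2⟩ := mono_case hf hψ hbs hSep hfU hψU hs g hg hm m
    exact ⟨b', hb', g b', hg b' hb', Or.inl ⟨h1, h2⟩⟩
  · have hm' : StrictMonoOn (fun t => -g t) (Ioo b s) := fun x hx y hy hxy =>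
      neg_lt_neg (hm hx hy hxy)
    obtain ⟨b', hb', h1, h2⟩ := mono_case (neg_emb hf) hψ hbs hSep
      (by rw [range_neg]; exact hfU) hψU (by rw [range_neg]; exact hs) (fun t => -g t)
      (fun t ht => by simpa using hg t ht) hm' m
    refine ⟨b', hb', g b', hg b' hb', Or.inr ⟨by linarith, fun t ht => ?_⟩⟩
    obtain ⟨r, hr, hr2⟩ := h2 t ht
    refine ⟨-r, ?_, hr2⟩
    have : -g b' < r := hr
    simp only [mem_Iio]
    linarith

variable (hS : StSides.{u}) (hC : StSideCases.{u}) (hG : StGlue.{u})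

include hS hC hG

theorem right (hX : OneMfd X) {U : Set X} {f ψ : ℝ → X} (hf : IsOpenEmbedding f)
    (hψ : IsOpenEmbedding ψ) (hfU : range f ⊆ U) (hψU : range ψ ⊆ U) {n a b s : ℝ}
    (hab : f a = ψ b) (hna : n < a) (hbs : b < s) (hb0 : b < 0)
    (ht : ∀ t ∈ Ioo b s, ψ t ∈ f '' Ioi a) :
    ∃ T : ℝ → X, IsOpenEmbedding T ∧ range T ⊆ U ∧ (∀ t ∈ Icc (-n) n, T t = f t) ∧
      ψ 0 ∈ range T := by
  obtain ⟨_, _, _, _, hdisj, _, _, hR⟩ := hS hX f hf a
  have hcase := (hC hX f hf a).1 (ψ '' Ioi b)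
    (isPreconnected_Ioi.image ψ hψ.continuous.continuousOn)
    (by
      rintro ⟨t, ht, h⟩
      rw [hab] at h
      have := hψ.injective h
      rw [this] at ht
      exact absurd (mem_Ioi.1 ht) (lt_irrefl _))
  have hsub : ψ '' Ioi b ⊆ R f a := by
    rcases hcase with h | h
    · exfalso
      set t := (b + s) / 2 with htd
      have ht1 : t ∈ Ioo b s := ⟨by rw [htd]; linarith, by rw [htd]; linarith⟩
      exact hdisj.le_bot ⟨h ⟨t, ht1.1, rfl⟩, hR (ht t ht1)⟩
    · exact h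
  have hmem : ψ (b + 1) ∈ R f a := hsub ⟨b + 1, by simp, rfl⟩
  refine ⟨_, hG hX f ψ hf hψ a b hab hmem, ?_, ?_, ?_⟩
  · rintro _ ⟨t, rfl⟩
    dsimp only
    split_ifs
    · exact hfU ⟨_, rfl⟩
    · exact hψU ⟨_, rfl⟩
  · intro t ht
    rw [if_pos (ht.2.trans hna.le)]
  · refine ⟨a - b, ?_⟩
    dsimp only
    rw [if_neg (by linarith)]
    congr 1
    ring

theorem left (hX : OneMfd X) {U : Set X} {f ψ : ℝ → X} (hf : IsOpenEmbedding f)
    (hψ : IsOpenEmbedding ψ) (hfU : range f ⊆ U) (hψU : range ψ ⊆ U) {n a b s : ℝ}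
    (hab : f a = ψ b) (hna : a < -n) (hbs : b < s) (hb0 : b < 0)
    (ht : ∀ t ∈ Ioo b s, ψ t ∈ f '' Iio a) :
    ∃ T : ℝ → X, IsOpenEmbedding T ∧ range T ⊆ U ∧ (∀ t ∈ Icc (-n) n, T t = f t) ∧
      ψ 0 ∈ range T := by
  obtain ⟨T, hT, hTU, hTn, hT0⟩ := right hS hC hG hX (neg_emb hf) hψ
    (by rw [range_neg]; exact hfU) hψU (n := n) (a := -a) (b := b) (s := s)
    (by simpa using hab) (by linarith) hbs hb0 (by
      intro t hts
      obtain ⟨r, hr, hr2⟩ := ht t hts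
      refine ⟨-r, ?_, by simpa using hr2⟩
      have : r < a := hr
      simp only [mem_Ioi]
      linarith)
  refine ⟨fun t => T (-t), neg_emb hT, by rw [range_neg]; exact hTU, ?_, by
    rw [range_neg]; exact hT0⟩
  intro t ht
  have : -t ∈ Icc (-n) n := ⟨by linarith [ht.2], by linarith [ht.1]⟩
  have h := hTn (-t) this
  simpa using h

/-- One step: the union of the ranges of the extensions is relatively closed in `U`. -/
theorem step (hX : OneMfd X) {U : Set X} (hSep : Sep2 U) {f ψ : ℝ → X} (hf : IsOpenEmbedding f)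
    (hψ : IsOpenEmbedding ψ) (hfU : range f ⊆ U) (hψU : range ψ ⊆ U) {n b : ℝ} (hb0 : b < 0)
    (hb : ψ b ∈ range f) (h0 : ψ 0 ∉ range f) :
    ∃ T : ℝ → X, IsOpenEmbedding T ∧ range T ⊆ U ∧ (∀ t ∈ Icc (-n) n, T t = f t) ∧
      ψ 0 ∈ range T := by
  set S : Set ℝ := Icc b 0 ∩ ψ ⁻¹' (range f)ᶜ with hSd
  have hSc : IsClosed S :=
    isClosed_Icc.inter ((hf.isOpen_range.isClosed_compl).preimage hψ.continuous)
  have hSne : S.Nonempty := ⟨0, ⟨hb0.le, le_refl _⟩, h0⟩
  have hSb : BddBelow S := ⟨b, fun t ht => ht.1.1⟩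
  have hmem : sInf S ∈ S := hSc.csInf_mem hSne hSb
  set s := sInf S with hs
  have hsb : b < s := by
    rcases lt_or_eq_of_le hmem.1.1 with h | h
    · exact h
    · exfalso
      apply hmem.2
      rw [← h]
      exact hb
  have hW : ∀ t ∈ Ioo b s, ψ t ∈ range f := by
    intro t ht
    by_contra hc
    have : t ∈ S := ⟨⟨ht.1.le, ht.2.le.trans hmem.1.2⟩, hc⟩
    exact absurd (csInf_le hSb this) (not_le.2 ht.2)
  obtain ⟨b', hb', a', hab, hcase⟩ := key hf hψ hsb hSep hfU hψU hW hmem.2 n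
  have hb'0 : b' < 0 := lt_of_lt_of_le hb'.2 hmem.1.2
  rcases hcase with ⟨h1, h2⟩ | ⟨h1, h2⟩
  · exact right hS hC hG hX hf hψ hfU hψU hab h1 hb'.2 hb'0 h2
  · exact left hS hC hG hX hf hψ hfU hψU hab h1 hb'.2 hb'0 h2

omit hC in
/-- Moving a far point into the window, right case. -/
theorem moveRight (hX : OneMfd X) {U : Set X} {f : ℝ → X} (hf : IsOpenEmbedding f)
    (hfU : range f ⊆ U) {n r : ℝ} (hr : n + 1 < r) :
    ∃ T : ℝ → X, IsOpenEmbedding T ∧ range T ⊆ U ∧ (∀ t ∈ Icc (-n) n, T t = f t) ∧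
      T (n + 1) = f r := by
  obtain ⟨_, _, _, _, _, _, _, hR⟩ := hS hX f hf n
  have hK : 0 < r - n := by linarith
  have hψ : IsOpenEmbedding (fun t => f (n + (r - n) * (t - n))) := by
    have h1 : IsOpenEmbedding (fun t : ℝ => n + (r - n) * (t - n)) := by
      have h2 : (fun t : ℝ => n + (r - n) * (t - n)) =
          ((Homeomorph.addRight (-n)).trans
            (Homeomorph.mulLeft₀ (r - n) hK.ne')).trans (Homeomorph.addLeft n) := by
        funext t
        simp [sub_eq_add_neg]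
      rw [h2]
      exact Homeomorph.isOpenEmbedding _
    exact hf.comp h1
  have hab : f n = (fun t => f (n + (r - n) * (t - n))) n := by simp
  have hmem : (fun t => f (n + (r - n) * (t - n))) (n + 1) ∈ R f n := by
    apply hR
    refine ⟨r, by simp only [mem_Ioi]; linarith, ?_⟩
    dsimp only
    congr 1
    ring
  refine ⟨_, hG hX f _ hf hψ n n hab hmem, ?_, ?_, ?_⟩
  · rintro _ ⟨t, rfl⟩
    dsimp only
    split_ifs
    · exact hfU ⟨_, rfl⟩
    · exact hfU ⟨_, rfl⟩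
  · intro t ht
    rw [if_pos ht.2]
  · rw [if_neg (by linarith)]
    congr 1
    ring

omit hC in
/-- Moving a far point into the window, left case. -/
theorem moveLeft (hX : OneMfd X) {U : Set X} {f : ℝ → X} (hf : IsOpenEmbedding f)
    (hfU : range f ⊆ U) {n r : ℝ} (hr : r < -(n + 1)) :
    ∃ T : ℝ → X, IsOpenEmbedding T ∧ range T ⊆ U ∧ (∀ t ∈ Icc (-n) n, T t = f t) ∧
      T (-(n + 1)) = f r := by
  obtain ⟨T, hT, hTU, hTn, hTr⟩ := moveRight hS hG hX (U := U) (neg_emb hf)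
    (by rw [range_neg]; exact hfU) (n := n) (r := -r) (by linarith)
  refine ⟨fun t => T (-t), neg_emb hT, by rw [range_neg]; exact hTU, ?_, ?_⟩
  · intro t ht
    have : -t ∈ Icc (-n) n := ⟨by linarith [ht.2], by linarith [ht.1]⟩
    have h := hTn (-t) this
    simpa using h
  · simpa using hTr

end Extend

open Extend in
theorem I_Extend (hSh : StShrink.{u}) (hS : StSides.{u}) (hC : StSideCases.{u})
    (hG : StGlue.{u}) : StExtend.{u} := by
  intro X _ hX U hUo hUc hSep φ hφ hφU n hn x hx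
  set G : Set X := {x | ∃ f : ℝ → X, IsOpenEmbedding f ∧ range f ⊆ U ∧
    (∀ t ∈ Icc (-n) n, f t = φ t) ∧ x ∈ range f} with hGd
  have hGo : IsOpen G := by
    rw [isOpen_iff_forall_mem_open]
    rintro y ⟨f, hf, hfU, hfn, hy⟩
    exact ⟨range f, fun z hz => ⟨f, hf, hfU, hfn, hz⟩, hf.isOpen_range, hy⟩
  have hne : (U ∩ G).Nonempty := ⟨φ 0, hφU ⟨0, rfl⟩, φ, hφ, hφU, fun _ _ => rfl, ⟨0, rfl⟩⟩
  have hcl : closure G ∩ U ⊆ G := by
    rintro y ⟨hyG, hyU⟩
    obtain ⟨ψ, hψ, hψ0, hψU⟩ := hSh hX.chart y U hUo hyU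
    have hyr : y ∈ range ψ := ⟨0, hψ0⟩
    obtain ⟨z, hz, hzG⟩ := mem_closure_iff.1 hyG (range ψ) hψ.isOpen_range hyr
    obtain ⟨b, rfl⟩ := hz
    obtain ⟨f, hf, hfU, hfn, hb⟩ := hzG
    by_cases hyf : y ∈ range f
    · exact ⟨f, hf, hfU, hfn, hyf⟩
    have main : ∃ T : ℝ → X, IsOpenEmbedding T ∧ range T ⊆ U ∧
        (∀ t ∈ Icc (-n) n, T t = f t) ∧ y ∈ range T := by
      rcases lt_trichotomy b 0 with hb0 | hb0 | hb0
      · have := step hS hC hG hX hSep hf hψ hfU hψU (n := n) hb0 hb (by rw [hψ0]; exact hyf)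
        rwa [hψ0] at this
      · exfalso
        apply hyf
        rw [← hψ0, ← hb0]
        exact hb
      · have h := step hS hC hG hX hSep hf (neg_emb hψ) hfU (by rw [range_neg]; exact hψU)
          (n := n) (b := -b) (by linarith) (by simpa using hb) (by simpa [hψ0] using hyf)
        simpa [hψ0] using h
    obtain ⟨T, hT, hTU, hTn, hy⟩ := main
    exact ⟨T, hT, hTU, fun t ht => (hTn t ht).trans (hfn t ht), hy⟩
  have hUG : U ⊆ G := hUc.subset_of_closure_inter_subset hGo hne hcl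
  obtain ⟨f, hf, hfU, hfn, ⟨r, hr⟩⟩ := hUG hx
  by_cases h1 : n + 1 < r
  · obtain ⟨T, hT, hTU, hTn, hTr⟩ := moveRight hS hG hX hf hfU h1
    exact ⟨T, hT, hTU, fun t ht => (hTn t ht).trans (hfn t ht), n + 1,
      ⟨by linarith, le_refl _⟩, hTr.trans hr⟩
  by_cases h2 : r < -(n + 1)
  · obtain ⟨T, hT, hTU, hTn, hTr⟩ := moveLeft hS hG hX hf hfU h2
    exact ⟨T, hT, hTU, fun t ht => (hTn t ht).trans (hfn t ht), -(n + 1),
      ⟨le_refl _, by linarith⟩, hTr.trans hr⟩
  · exact ⟨f, hf, hfU, hfn, r, ⟨not_lt.1 h2, not_lt.1 h1⟩, hr⟩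

end Pool.Agent.Work.MP_0d206b_gt.U

end

/-! ### U.FullLine -/

section

/-! Item 12: full lines through a given chart. -/

set_option autoImplicit false

namespace Pool.Agent.Work.MP_0d206b_gt.U

open Set Filter Topology Function

universe u v

namespace FullLine

variable {X : Type u} [TopologicalSpace X]

theorem sep2_range {ψ : ℝ → X} (hψ : IsOpenEmbedding ψ) : Sep2 (range ψ) := by
  rintro x ⟨a, rfl⟩ y ⟨b, rfl⟩ h
  by_contra hne
  have hab : a ≠ b := fun e => hne (by rw [e])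
  obtain ⟨u, v, hu, hv, hau, hbv, hd⟩ := t2_separation hab
  obtain ⟨z, ⟨c, hc, hcz⟩, ⟨d, hd', hdz⟩⟩ := h (ψ '' u) (ψ '' v) (hψ.isOpenMap u hu)
    (hψ.isOpenMap v hv) (mem_image_of_mem ψ hau) (mem_image_of_mem ψ hbv)
  have : c = d := hψ.injective (hcz.trans hdz.symm)
  subst this
  exact Set.disjoint_left.mp hd hc hd'


end FullLine

theorem I_FullLine (hL : StLine.{u}) (hM : StMaxFull.{u}) : StFullLine.{u} := by
  intro X _ _ hX ψ hψ s
  obtain ⟨U, hU, hS, hF⟩ := hM hX (range ψ) hψ.isOpen_range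
    (isConnected_range hψ.continuous) (FullLine.sep2_range hψ)
  obtain ⟨f, hf, hr⟩ := hL hX U hF.isOpen hF.conn.isPreconnected hF.conn.nonempty hS
  have hex : ∀ t, ∃ a, f a = ψ t := fun t => by
    have : ψ t ∈ U := hU (mem_range_self t)
    rw [← hr] at this
    exact this
  choose g hg using hex
  have hfg : f ∘ g = ψ := funext hg
  have hgc : Continuous g := by
    rw [hf.isInducing.continuous_iff, hfg]
    exact hψ.continuous
  have hgi : Injective g := fun a b hab => hψ.injective (by rw [← hg a, ← hg b, hab])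
  rcases hgc.strictMono_of_inj hgi with hm | hm
  · refine ⟨fun t => f (g s + t), hf.comp (Homeomorph.addLeft (g s)).isOpenEmbedding, ?_, ?_, ?_, ?_⟩
    · show f (g s + 0) = ψ s
      rw [add_zero, hg]
    · rintro x ⟨t, ht, rfl⟩
      refine ⟨g t - g s, ?_, ?_⟩
      · have := hm.monotone (mem_Ici.mp ht)
        rw [mem_Ici]; linarith
      · show f (g s + (g t - g s)) = ψ t
        rw [add_sub_cancel, hg]
    · rintro x ⟨t, ht, rfl⟩
      refine ⟨g t - g s, ?_, ?_⟩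
      · have := hm.monotone (mem_Iic.mp ht)
        rw [mem_Iic]; linarith
      · show f (g s + (g t - g s)) = ψ t
        rw [add_sub_cancel, hg]
    · have : range (fun t => f (g s + t)) = U := by
        rw [← hr]
        ext x
        constructor
        · rintro ⟨t, rfl⟩; exact ⟨g s + t, rfl⟩
        · rintro ⟨t, rfl⟩; exact ⟨t - g s, by show f (g s + (t - g s)) = f t; rw [add_sub_cancel]⟩
      rw [this]
      exact hF
  · refine ⟨fun t => f (g s - t), hf.comp (Homeomorph.subLeft (g s)).isOpenEmbedding, ?_, ?_, ?_, ?_⟩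
    · show f (g s - 0) = ψ s
      rw [sub_zero, hg]
    · rintro x ⟨t, ht, rfl⟩
      refine ⟨g s - g t, ?_, ?_⟩
      · have := hm.antitone (mem_Ici.mp ht)
        rw [mem_Ici]; linarith
      · show f (g s - (g s - g t)) = ψ t
        rw [sub_sub_cancel, hg]
    · rintro x ⟨t, ht, rfl⟩
      refine ⟨g s - g t, ?_, ?_⟩
      · have := hm.antitone (mem_Iic.mp ht)
        rw [mem_Iic]; linarith
      · show f (g s - (g s - g t)) = ψ t
        rw [sub_sub_cancel, hg]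
    · have : range (fun t => f (g s - t)) = U := by
        rw [← hr]
        ext x
        constructor
        · rintro ⟨t, rfl⟩; exact ⟨g s - t, rfl⟩
        · rintro ⟨t, rfl⟩; exact ⟨g s - t, by show f (g s - (g s - t)) = f t; rw [sub_sub_cancel]⟩
      rw [this]
      exact hF

end Pool.Agent.Work.MP_0d206b_gt.U

end

/-! ### U.Germ -/

section

/-! Item Germ: germs at non-separated points. -/

set_option autoImplicit false

namespace Pool.Agent.Work.MP_0d206b_gt.U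

open Set Filter Topology Function

universe u v

namespace Germ

variable {X : Type u} [TopologicalSpace X]

lemma nonSep_symm {x y : X} (h : NonSep x y) : NonSep y x := by
  intro U V hU hV hx hy
  rw [inter_comm]
  exact h V U hV hU hy hx

lemma nonSep_chart {f : ℝ → X} (hf : IsOpenEmbedding f) {s t : ℝ} (h : NonSep (f s) (f t)) :
    s = t := by
  by_contra hne
  obtain ⟨U, V, hU, hV, hs, ht, hd⟩ := t2_separation hne
  obtain ⟨p, ⟨a, ha, rfl⟩, b, hb, hab⟩ := h (f '' U) (f '' V) (hf.isOpenMap U hU)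
    (hf.isOpenMap V hV) ⟨s, hs, rfl⟩ ⟨t, ht, rfl⟩
  have := hf.injective hab
  subst this
  exact hd.le_bot ⟨ha, hb⟩

lemma not_range {f : ℝ → X} (hf : IsOpenEmbedding f) {s : ℝ} {y : X} (hne : f s ≠ y)
    (h : NonSep (f s) y) : y ∉ range f := by
  rintro ⟨t, rfl⟩
  exact hne (congrArg f (nonSep_chart hf h))

lemma sub_L (hS : StSides.{u}) (hC : StSideCases.{u}) (hX : OneMfd X) {f : ℝ → X}
    (hf : IsOpenEmbedding f) {s : ℝ} {M : Set X} (hM : IsPreconnected M) (hs : f s ∉ M)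
    {p : X} (hp : p ∈ M) (hpL : p ∈ L f s) : M ⊆ L f s := by
  rcases (hC hX f hf s).1 M hM hs with h | h
  · exact h
  · obtain ⟨_, _, _, _, hd, _, _, _⟩ := hS hX f hf s
    exact absurd ⟨hpL, h hp⟩ (fun h' => hd.le_bot h')

lemma lt_of_mem (hS : StSides.{u}) (hX : OneMfd X) {f : ℝ → X}
    (hf : IsOpenEmbedding f) {s t : ℝ} (h : f t ∈ L f s) : t < s := by
  obtain ⟨_, _, _, _, hd, hu, _, hR⟩ := hS hX f hf s
  by_contra hlt
  push Not at hlt
  rcases hlt.eq_or_lt with h0 | h0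
  · subst h0
    have : f s ∈ ({f s}ᶜ : Set X) := hu ▸ Or.inl h
    exact this rfl
  · exact hd.le_bot ⟨h, hR ⟨t, h0, rfl⟩⟩

lemma meet (hS : StSides.{u}) (hC : StSideCases.{u}) (hX : OneMfd X) {f ψ : ℝ → X}
    (hf : IsOpenEmbedding f) (hψ : IsOpenEmbedding ψ) (hne : f 0 ≠ ψ 0)
    (h : NonSep (f 0) (ψ 0)) (hy : ψ 0 ∈ L f 0) (hx : f 0 ∈ L ψ 0) {e d : ℝ} (he : 0 < e)
    (hd : 0 < d) : ∃ s ∈ Ioo (-e) 0, ∃ t ∈ Ioo (-d) 0, f s = ψ t := by
  have hyf : ψ 0 ∉ range f := not_range hf hne h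
  have hxf : f 0 ∉ range ψ := not_range hψ hne.symm (nonSep_symm h)
  have hM : ψ '' Ioo (-d) d ⊆ L f 0 := by
    apply sub_L hS hC hX hf (isPreconnected_Ioo.image ψ hψ.continuous.continuousOn)
      (p := ψ 0) _ ⟨0, ⟨by linarith, hd⟩, rfl⟩ hy
    rintro ⟨t, -, ht⟩
    exact hxf ⟨t, ht⟩
  have hN : f '' Ioo (-e) e ⊆ L ψ 0 := by
    apply sub_L hS hC hX hψ (isPreconnected_Ioo.image f hf.continuous.continuousOn)
      (p := f 0) _ ⟨0, ⟨by linarith, he⟩, rfl⟩ hx
    rintro ⟨t, -, ht⟩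
    exact hyf ⟨t, ht⟩
  obtain ⟨p, hp1, hp2⟩ := h (f '' Ioo (-e) e) (ψ '' Ioo (-d) d)
    (hf.isOpenMap _ isOpen_Ioo) (hψ.isOpenMap _ isOpen_Ioo)
    ⟨0, ⟨by linarith, he⟩, rfl⟩ ⟨0, ⟨by linarith, hd⟩, rfl⟩
  have hpM := hM hp2
  have hpN := hN hp1
  obtain ⟨s, hs, rfl⟩ := hp1
  obtain ⟨t, ht, hst⟩ := hp2
  have h1 := lt_of_mem hS hX hf hpM
  rw [← hst] at hpN
  have h2 := lt_of_mem hS hX hψ hpN
  exact ⟨s, ⟨hs.1, h1⟩, t, ⟨ht.1, h2⟩, hst.symm⟩

lemma key (hS : StSides.{u}) (hC : StSideCases.{u}) (hX : OneMfd X) {f ψ : ℝ → X}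
    (hf : IsOpenEmbedding f) (hψ : IsOpenEmbedding ψ) (hne : f 0 ≠ ψ 0)
    (h : NonSep (f 0) (ψ 0)) (hy : ψ 0 ∈ L f 0) (hx : f 0 ∈ L ψ 0) {d : ℝ}
    (hd : 0 < d) : ∃ e > 0, f '' Ioo (-e) 0 ⊆ ψ '' Ioo (-d) 0 := by
  obtain ⟨s0, hs0, t0, ht0, h0⟩ := meet hS hC hX hf hψ hne h hy hx one_pos hd
  refine ⟨-s0, by linarith [hs0.2], ?_⟩
  rw [neg_neg]
  rintro _ ⟨s, hs, rfl⟩
  by_contra hcon
  have hJ1 : f s ∉ ψ '' Ico t0 0 := by
    rintro ⟨t, ht, hst⟩
    rcases ht.1.eq_or_lt with h1 | h1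
    · subst h1
      rw [← h0] at hst
      have := hf.injective hst
      linarith [hs.1]
    · exact hcon ⟨t, ⟨by linarith [ht0.1], ht.2⟩, hst⟩
  obtain ⟨_, _, _, _, hdj, _, hLs, hRs⟩ := hS hX f hf s
  have hJ : ψ '' Ico t0 0 ⊆ L f s := by
    apply sub_L hS hC hX hf (isPreconnected_Ico.image ψ hψ.continuous.continuousOn) hJ1
      (p := ψ t0) ⟨t0, ⟨le_rfl, ht0.2⟩, rfl⟩
    rw [← h0]
    exact hLs ⟨s0, hs.1, rfl⟩
  obtain ⟨s', hs', t', ht', h'⟩ := meet hS hC hX hf hψ hne h hy hx (e := -s) (d := -t0)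
    (by linarith [hs.2]) (by linarith [ht0.2])
  rw [neg_neg] at hs' ht'
  have h1 : f s' ∈ L f s := by
    rw [h']
    exact hJ ⟨t', ⟨ht'.1.le, ht'.2⟩, rfl⟩
  exact Set.disjoint_left.1 hdj h1 (hRs ⟨s', hs'.1, rfl⟩)

/-- A chart at `x` with `y` on the left. -/
lemma exChart (hS : StSides.{u}) (hC : StSideCases.{u}) (hX : OneMfd X) {x y : X}
    (hxy : x ≠ y) : ∃ f : ℝ → X, IsOpenEmbedding f ∧ f 0 = x ∧ y ∈ L f 0 := by
  obtain ⟨f, hf, h0⟩ := hX.chart x
  obtain ⟨_, _, _, _, _, hu, _, _⟩ := hS hX f hf 0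
  have hy : y ∈ ({f 0}ᶜ : Set X) := by
    rw [h0]
    exact hxy.symm
  rw [← hu] at hy
  rcases hy with hy | hy
  · exact ⟨f, hf, h0, hy⟩
  · refine ⟨fun t => f (-t), hf.comp (Homeomorph.neg ℝ).isOpenEmbedding, by simpa using h0, ?_⟩
    have := (hC hX f hf 0).2.2.2.2.1.1
    rw [neg_zero] at this
    rw [this]
    exact hy

omit [TopologicalSpace X] in
lemma filt {f ψ : ℝ → X}
    (h : ∀ d : ℝ, 0 < d → ∃ e > 0, f '' Ioo (-e) 0 ⊆ ψ '' Ioo (-d) 0) :
    Filter.map f (𝓝[<] (0 : ℝ)) ≤ Filter.map ψ (𝓝[<] (0 : ℝ)) := by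
  intro U hU
  rw [Filter.mem_map] at hU ⊢
  obtain ⟨a, ha, haU⟩ := (mem_nhdsLT_iff_exists_Ioo_subset (a := (0 : ℝ))).1 hU
  obtain ⟨e, he, hsub⟩ := h (-a) (by simpa using ha)
  rw [neg_neg] at hsub
  refine (mem_nhdsLT_iff_exists_Ioo_subset (a := (0 : ℝ))).2 ⟨-e, by simpa using he, ?_⟩
  intro s hs
  obtain ⟨t, ht, hst⟩ := hsub ⟨s, hs, rfl⟩
  have := haU ht
  rw [mem_preimage] at this ⊢
  rwa [hst] at this

end Germ

theorem I_Germ (hS : StSides.{u}) (hC : StSideCases.{u}) (hW : StWithin.{u}) : StGerm.{u} := by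
  intro X _ hX x y hxy h
  obtain ⟨f, hf, rfl, hy⟩ := Germ.exChart hS hC hX hxy
  obtain ⟨ψ, hψ, rfl, hx⟩ := Germ.exChart hS hC hX hxy.symm
  rw [(hC hX f hf 0).2.1 _ hy, (hC hX ψ hψ 0).2.1 _ hx, ← (hW hX f hf 0).1,
    ← (hW hX ψ hψ 0).1]
  apply le_antisymm
  · exact Germ.filt fun d hd => Germ.key hS hC hX hf hψ hxy h hy hx hd
  · exact Germ.filt fun d hd =>
      Germ.key hS hC hX hψ hf hxy.symm (Germ.nonSep_symm h) hx hy hd

end Pool.Agent.Work.MP_0d206b_gt.U

end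

/-! ### U.Glue -/

section

/-! Item Glue: two charts glued at a common point. -/

set_option autoImplicit false

namespace Pool.Agent.Work.MP_0d206b_gt.U

open Set Filter Topology Function

universe u

theorem I_Glue (hS : StSides.{u}) (hC : StSideCases.{u}) : StGlue.{u} := by
  intro X _ hX φ ψ hφ hψ a b hab hR
  obtain ⟨_, _, _, _, hdis, _, hLφ, hRφ⟩ := hS hX φ hφ a
  obtain ⟨_, _, _, _, _, _, hLψ, hRψ⟩ := hS hX ψ hψ b
  obtain ⟨_, _, _, h4, _⟩ := hC hX φ hφ a
  have hne : ∀ p : X, p ∈ L φ a → p ∈ R φ a → False := fun p h1 h2 =>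
    Set.disjoint_left.mp hdis h1 h2
  have hcase : L ψ b = L φ a ∧ R ψ b = R φ a := by
    rcases h4 ψ b hψ hab.symm with h | h
    · exact h
    · exfalso
      have h1 : ψ (b + 1) ∈ R ψ b := hRψ ⟨b + 1, by simp, rfl⟩
      rw [h.2] at h1
      exact hne _ h1 hR
  have hLt : ∀ t, t < b → ψ t ∈ L φ a := fun t ht => hcase.1 ▸ hLψ ⟨t, ht, rfl⟩
  have hRt : ∀ t, b < t → ψ t ∈ R φ a := fun t ht => hcase.2 ▸ hRψ ⟨t, ht, rfl⟩
  have hLs : ∀ t, t < a → φ t ∈ L φ a := fun t ht => hLφ ⟨t, ht, rfl⟩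
  have hRs : ∀ t, a < t → φ t ∈ R φ a := fun t ht => hRφ ⟨t, ht, rfl⟩
  have hcont : Continuous (fun t => if t ≤ a then φ t else ψ (t - a + b)) := by
    refine Continuous.if_le hφ.continuous (hψ.continuous.comp (by fun_prop)) continuous_id
      continuous_const ?_
    intro t ht
    subst ht
    simp [hab]
  refine IsOpenEmbedding.of_continuous_injective_isOpenMap hcont ?_ ?_
  · -- injective
    have key : ∀ s t : ℝ, s ≤ a → ¬ t ≤ a → φ s = ψ (t - a + b) → False := by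
      intro s t hs ht h
      have h1 : ψ (t - a + b) ∈ R φ a := hRt _ (by linarith [not_le.mp ht])
      rcases lt_or_eq_of_le hs with hs' | hs'
      · exact hne _ (hLs s hs') (h ▸ h1)
      · rw [hs', hab] at h
        have := hψ.injective h
        linarith [not_le.mp ht]
    intro s t hst
    simp only at hst
    by_cases hs : s ≤ a <;> by_cases ht : t ≤ a
    · rw [if_pos hs, if_pos ht] at hst
      exact hφ.injective hst
    · rw [if_pos hs, if_neg ht] at hst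
      exact (key s t hs ht hst).elim
    · rw [if_neg hs, if_pos ht] at hst
      exact (key t s ht hs hst.symm).elim
    · rw [if_neg hs, if_neg ht] at hst
      have := hψ.injective hst
      linarith
  · rw [isOpenMap_iff_nhds_le]
    intro t
    rcases lt_trichotomy t a with ht | ht | ht
    · have he : (fun t => if t ≤ a then φ t else ψ (t - a + b)) =ᶠ[𝓝 t] φ := by
        filter_upwards [Iio_mem_nhds ht] with s hs
        exact if_pos (le_of_lt hs)
      rw [Filter.map_congr he, hφ.map_nhds_eq t]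
      simp only [if_pos ht.le]
      exact le_rfl
    · subst ht
      intro W hW
      rw [Filter.mem_map] at hW
      obtain ⟨l, u, ⟨hl, hu⟩, hlu⟩ := mem_nhds_iff_exists_Ioo_subset.mp hW
      simp only [le_refl, if_true]
      have hO1 : φ '' Ioo l u ∈ 𝓝 (φ t) :=
        (hφ.isOpenMap _ isOpen_Ioo).mem_nhds ⟨t, ⟨hl, hu⟩, rfl⟩
      have hO2 : ψ '' Ioo (l - t + b) (u - t + b) ∈ 𝓝 (φ t) :=
        (hψ.isOpenMap _ isOpen_Ioo).mem_nhds
          ⟨b, ⟨by linarith, by linarith⟩, hab.symm⟩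
      filter_upwards [hO1, hO2] with p hp1 hp2
      obtain ⟨s, ⟨hs1, hs2⟩, hs⟩ := hp1
      obtain ⟨s', ⟨hs1', hs2'⟩, hs'⟩ := hp2
      by_cases hst : s ≤ t
      · have := hlu ⟨hs1, hs2⟩
        simp only [mem_preimage, if_pos hst] at this
        rwa [hs] at this
      · have hst' := not_le.mp hst
        have hpR : p ∈ R φ t := hs ▸ hRs s hst'
        have h1 : ¬ s' < b := fun h => hne p (hs' ▸ hLt s' h) hpR
        have h2 : s' ≠ b := by
          intro h
          rw [h, ← hab, ← hs] at hs'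
          have := hφ.injective hs'
          linarith
        have h3 : b < s' := lt_of_le_of_ne (not_lt.mp h1) (Ne.symm h2)
        have := hlu (show s' + t - b ∈ Ioo l u from ⟨by linarith, by linarith⟩)
        simp only [mem_preimage] at this
        rw [if_neg (by linarith), show s' + t - b - t + b = s' by ring, hs'] at this
        exact this
    · have he : (fun t => if t ≤ a then φ t else ψ (t - a + b)) =ᶠ[𝓝 t]
          (ψ ∘ (Homeomorph.addRight (b - a))) := by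
        filter_upwards [Ioi_mem_nhds ht] with s hs
        have hs' : ¬ s ≤ a := not_le.mpr hs
        simp only [if_neg hs', comp_apply, Homeomorph.coe_addRight]
        congr 1
        ring
      rw [Filter.map_congr he, ← Filter.map_map, (Homeomorph.addRight (b - a)).map_nhds_eq t,
        hψ.map_nhds_eq]
      simp only [if_neg (not_le.mpr ht), Homeomorph.coe_addRight]
      rw [show t + (b - a) = t - a + b by ring]

end Pool.Agent.Work.MP_0d206b_gt.U

end

/-! ### U.Lim -/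

section

/-! Item Lim of module U: limits of open embeddings of the line. -/

set_option autoImplicit false

namespace Pool.Agent.Work.MP_0d206b_gt.U

open Set Filter Topology Function

universe u

namespace Lim

theorem stab {X : Type u} (θ : ℕ → ℝ → X)
    (h : ∀ (n : ℕ), ∀ t ∈ Icc (-((n : ℝ) + 1)) ((n : ℝ) + 1), θ (n + 1) t = θ n t)
    (n : ℕ) (t : ℝ) (ht : t ∈ Icc (-((n : ℝ) + 1)) ((n : ℝ) + 1)) (k : ℕ) (hk : n ≤ k) :
    θ k t = θ n t := by
  induction k, hk using Nat.le_induction with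
  | base => rfl
  | succ m hm ih =>
    rw [← ih]
    apply h
    have : (n : ℝ) ≤ m := by exact_mod_cast hm
    exact ⟨by linarith [ht.1], by linarith [ht.2]⟩

/-- the limit -/
noncomputable def lim {X : Type u} (θ : ℕ → ℝ → X) (t : ℝ) : X := θ ⌈|t|⌉₊ t

theorem lim_eq {X : Type u} (θ : ℕ → ℝ → X)
    (h : ∀ (n : ℕ), ∀ t ∈ Icc (-((n : ℝ) + 1)) ((n : ℝ) + 1), θ (n + 1) t = θ n t)
    (n : ℕ) (t : ℝ) (ht : t ∈ Icc (-((n : ℝ) + 1)) ((n : ℝ) + 1)) : lim θ t = θ n t := by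
  unfold lim
  have h1 : |t| ≤ (⌈|t|⌉₊ : ℝ) := Nat.le_ceil _
  have h2 := abs_le.1 h1
  rcases le_total n ⌈|t|⌉₊ with hn | hn
  · exact stab θ h n t ht _ hn
  · refine (stab θ h ⌈|t|⌉₊ t ⟨by linarith [h2.1], by linarith [h2.2]⟩ n hn).symm

end Lim

open Lim in
theorem I_Lim : StLim.{u} := by
  intro X _ θ hθ h
  refine ⟨lim θ, ?_, fun n t ht => lim_eq θ h n t ht⟩
  have hev : ∀ t : ℝ, ∃ n : ℕ, lim θ =ᶠ[𝓝 t] θ n := by
    intro t
    refine ⟨⌈|t|⌉₊, ?_⟩
    have h1 : |t| ≤ (⌈|t|⌉₊ : ℝ) := Nat.le_ceil _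
    have h2 := abs_le.1 h1
    have : Ioo (-((⌈|t|⌉₊ : ℝ) + 1)) ((⌈|t|⌉₊ : ℝ) + 1) ∈ 𝓝 t :=
      Ioo_mem_nhds (by linarith [h2.1]) (by linarith [h2.2])
    filter_upwards [this] with s hs
    exact lim_eq θ h _ s ⟨hs.1.le, hs.2.le⟩
  apply IsOpenEmbedding.of_continuous_injective_isOpenMap
  · rw [continuous_iff_continuousAt]
    intro t
    obtain ⟨n, hn⟩ := hev t
    exact ((hθ n).continuous.continuousAt).congr hn.symm
  · intro s t hst
    set n := max ⌈|s|⌉₊ ⌈|t|⌉₊ with hn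
    have hs : |s| ≤ (n : ℝ) := (Nat.le_ceil _).trans (by exact_mod_cast le_max_left _ _)
    have ht : |t| ≤ (n : ℝ) := (Nat.le_ceil _).trans (by exact_mod_cast le_max_right _ _)
    have hs2 := abs_le.1 hs
    have ht2 := abs_le.1 ht
    rw [lim_eq θ h n s ⟨by linarith [hs2.1], by linarith [hs2.2]⟩,
      lim_eq θ h n t ⟨by linarith [ht2.1], by linarith [ht2.2]⟩] at hst
    exact (hθ n).injective hst
  · rw [isOpenMap_iff_nhds_le]
    intro t
    obtain ⟨n, hn⟩ := hev t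
    rw [Filter.map_congr hn, hn.eq_of_nhds]
    exact ((hθ n).isOpenMap.nhds_le t)

end Pool.Agent.Work.MP_0d206b_gt.U

end

/-! ### U.LimHomeo -/

section

set_option autoImplicit false

namespace Pool.Agent.Work.MP_0d206b_gt.U

open Set Filter Topology Function

universe u v

namespace LimHomeo

variable {X : Type u} {Y : Type v} [TopologicalSpace X] [TopologicalSpace Y]

theorem ext_le (e : ℕ → OpenPartialHomeomorph X Y) (h : ∀ n, Ext (e n) (e (n + 1))) {m n : ℕ}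
    (hmn : m ≤ n) : Ext (e m) (e n) := by
  induction n, hmn using Nat.le_induction with
  | base => exact ⟨Subset.rfl, fun _ _ => rfl⟩
  | succ n _ ih =>
    refine ⟨ih.1.trans (h n).1, fun x hx => ?_⟩
    rw [(h n).2 (ih.1 hx), ih.2 hx]

theorem ext_symm {e e' : OpenPartialHomeomorph X Y} (h : Ext e e') : Ext e.symm e'.symm := by
  have key : ∀ y ∈ e.target, y ∈ e'.target ∧ e'.symm y = e.symm y := by
    intro y hy
    have h1 : e.symm y ∈ e.source := e.map_target hy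
    have h2 : e' (e.symm y) = y := by rw [h.2 h1, e.right_inv hy]
    have h3 : e.symm y ∈ e'.source := h.1 h1
    refine ⟨h2 ▸ e'.map_source h3, ?_⟩
    calc e'.symm y = e'.symm (e' (e.symm y)) := by rw [h2]
      _ = e.symm y := e'.left_inv h3
  exact ⟨fun y hy => (key y hy).1, fun y hy => (key y hy).2⟩

theorem lim_fun (e : ℕ → OpenPartialHomeomorph X Y) (h : ∀ n, Ext (e n) (e (n + 1)))
    (hs : (⋃ n, (e n).source) = univ) : ∃ F : X → Y, Continuous F ∧
      ∀ n, ∀ x ∈ (e n).source, F x = e n x := by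
  classical
  have hex : ∀ x : X, ∃ n, x ∈ (e n).source := fun x => by
    have : x ∈ ⋃ n, (e n).source := by rw [hs]; trivial
    simpa using this
  have hF : ∀ n, ∀ x ∈ (e n).source, e (Nat.find (hex x)) x = e n x := by
    intro n x hx
    have h1 : Nat.find (hex x) ≤ n := Nat.find_min' (hex x) hx
    exact ((ext_le e h h1).2 (Nat.find_spec (hex x))).symm
  refine ⟨fun x => e (Nat.find (hex x)) x, ?_, hF⟩
  rw [continuous_iff_continuousAt]
  intro x
  obtain ⟨n, hn⟩ := hex x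
  have h2 : (fun x => e (Nat.find (hex x)) x) =ᶠ[𝓝 x] e n := by
    filter_upwards [(e n).open_source.mem_nhds hn] with y hy using hF n y hy
  exact ((e n).continuousAt hn).congr h2.symm

end LimHomeo

theorem I_LimHomeo : StLimHomeo.{u, v} := by
  intro X Y _ _ e h hs ht
  obtain ⟨F, hFc, hF⟩ := LimHomeo.lim_fun e h hs
  obtain ⟨G, hGc, hG⟩ := LimHomeo.lim_fun (fun n => (e n).symm)
    (fun n => LimHomeo.ext_symm (h n)) (by simpa using ht)
  refine ⟨⟨⟨F, G, ?_, ?_⟩, hFc, hGc⟩⟩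
  · intro x
    have : x ∈ ⋃ n, (e n).source := by rw [hs]; trivial
    obtain ⟨n, hn⟩ := mem_iUnion.mp this
    have h1 : F x ∈ (e n).target := by rw [hF n x hn]; exact (e n).map_source hn
    rw [hG n (F x) h1, hF n x hn]
    exact (e n).left_inv hn
  · intro y
    have : y ∈ ⋃ n, (e n).target := by rw [ht]; trivial
    obtain ⟨n, hn⟩ := mem_iUnion.mp this
    have h1 : G y ∈ (e n).source := by rw [hG n y hn]; exact (e n).map_target hn
    rw [hF n (G y) h1, hG n y hn]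
    exact (e n).right_inv hn

end Pool.Agent.Work.MP_0d206b_gt.U

end

/-! ### U.Line -/

section

set_option autoImplicit false

namespace Pool.Agent.Work.MP_0d206b_gt.U

open Set Filter Topology Function

universe u

/-- Hausdorff open connected sets are lines. -/
theorem I_Line (_hT1 : StT1.{u}) (hSh : StShrink.{u}) (hS : StSides.{u}) (hC : StSideCases.{u})
    (hE : StExtend.{u}) (hL : StLim.{u}) : StLine.{u} := by
  intro X _ _ hX U hUo hUc hUne hSep
  haveI : Nonempty U := hUne.to_subtype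
  let d : ℕ → U := TopologicalSpace.denseSeq U
  have hd : ∀ V : Set X, IsOpen V → (V ∩ U).Nonempty → ∃ n, (d n : X) ∈ V := by
    rintro V hV ⟨x, hxV, hxU⟩
    obtain ⟨n, hn⟩ := (TopologicalSpace.denseRange_denseSeq U).exists_mem_open
      (hV.preimage continuous_subtype_val) ⟨⟨x, hxU⟩, hxV⟩
    exact ⟨n, hn⟩
  obtain ⟨x₀, hx₀⟩ := hUne
  obtain ⟨φ₀, hφ₀, -, hφ₀U⟩ := hSh hX.chart x₀ U hUo hx₀
  have step : ∀ (k : ℕ) (θ : {θ : ℝ → X // IsOpenEmbedding θ ∧ range θ ⊆ U}),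
      ∃ θ' : {θ : ℝ → X // IsOpenEmbedding θ ∧ range θ ⊆ U},
        (∀ t ∈ Icc (-((k : ℝ) + 1)) ((k : ℝ) + 1), θ'.1 t = θ.1 t) ∧
        (d k : X) ∈ θ'.1 '' Icc (-((k : ℝ) + 1 + 1)) ((k : ℝ) + 1 + 1) := by
    intro k θ
    obtain ⟨φ', h1, h2, h3, h4⟩ := hE hX U hUo hUc hSep θ.1 θ.2.1 θ.2.2 ((k : ℝ) + 1)
      (by positivity) (d k) (d k).2
    exact ⟨⟨φ', h1, h2⟩, h3, h4⟩
  choose F hF1 hF2 using step
  let θ : ℕ → {θ : ℝ → X // IsOpenEmbedding θ ∧ range θ ⊆ U} :=
    fun n => Nat.rec ⟨φ₀, hφ₀, hφ₀U⟩ (fun k t => F k t) n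
  have hθs : ∀ k, θ (k + 1) = F k (θ k) := fun k => rfl
  obtain ⟨θ', hθ', hlim⟩ := hL (fun n => (θ n).1) (fun n => (θ n).2.1)
    (fun n t ht => by simp only [hθs]; exact hF1 n (θ n) t ht)
  refine ⟨θ', hθ', Subset.antisymm ?_ ?_⟩
  · rintro _ ⟨t, rfl⟩
    obtain ⟨n, hn⟩ := exists_nat_ge |t|
    have ht : t ∈ Icc (-((n : ℝ) + 1)) ((n : ℝ) + 1) := by
      have := abs_le.1 hn
      constructor <;> linarith [this.1, this.2]
    rw [hlim n t ht]
    exact (θ n).2.2 ⟨t, rfl⟩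
  · have hdr : ∀ k, (d k : X) ∈ range θ' := by
      intro k
      obtain ⟨t, ht, hdk⟩ := hF2 k (θ k)
      refine ⟨t, ?_⟩
      rw [hlim (k + 1) t (by push_cast; exact ht)]
      simp only [hθs]
      exact hdk
    intro z hz
    by_contra hzr
    obtain ⟨χ, hχ, hχ0⟩ := hX.chart z
    obtain ⟨hLo, hRo, -, -, hdis, -, hLi, hRi⟩ := hS hX χ hχ 0
    have hcase := (hC hX χ hχ 0).1 (range θ') (isPreconnected_range hθ'.continuous)
      (by rw [hχ0]; exact hzr)
    have hopen : IsOpen (χ ⁻¹' U) := hUo.preimage hχ.continuous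
    have h0 : (0 : ℝ) ∈ χ ⁻¹' U := by simp only [mem_preimage]; rw [hχ0]; exact hz
    obtain ⟨ε, hε, hball⟩ := Metric.isOpen_iff.1 hopen 0 h0
    have hpos : χ (ε / 2) ∈ U := hball (by
      rw [Metric.mem_ball, Real.dist_eq, sub_zero, abs_of_pos (by positivity)]; linarith)
    have hneg : χ (-(ε / 2)) ∈ U := hball (by
      rw [Metric.mem_ball, Real.dist_eq, sub_zero, abs_neg, abs_of_pos (by positivity)]; linarith)
    rcases hcase with h | h
    · obtain ⟨n, hn⟩ := hd (R χ 0) hRo ⟨χ (ε / 2), hRi ⟨ε / 2, by simp [hε], rfl⟩, hpos⟩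
      exact disjoint_left.1 hdis (h (hdr n)) hn
    · obtain ⟨n, hn⟩ := hd (L χ 0) hLo ⟨χ (-(ε / 2)), hLi ⟨-(ε / 2), by simp [hε], rfl⟩, hneg⟩
      exact disjoint_left.1 hdis hn (h (hdr n))

end Pool.Agent.Work.MP_0d206b_gt.U

end

/-! ### U.Near -/

section

/-! Project MP_0d206b_gt, module U: a connected set which approaches a point from the left. -/

set_option autoImplicit false

namespace Pool.Agent.Work.MP_0d206b_gt.U

open Set Filter Topology Function

universe u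

theorem I_Near (hS : StSides.{u}) (hC : StSideCases.{u}) : StNear.{u} := by
  intro X _ hX D hD χ hχ s hs hDL
  obtain ⟨_, _, _, _, hdis, hun, _, hR⟩ := hS hX χ hχ s
  have hU : IsOpen (χ '' Ioo (s - 1) (s + 1)) := hχ.isOpenMap _ isOpen_Ioo
  obtain ⟨y, hyU, hyD⟩ := mem_closure_iff.mp hs _ hU ⟨s, ⟨by linarith, by linarith⟩, rfl⟩
  obtain ⟨t₀, ht₀, rfl⟩ := hyU
  have ht₀s : t₀ < s := by
    by_contra hc
    push Not at hc
    have h1 := hDL hyD
    rcases hc.eq_or_lt with h2 | h2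
    · have h3 : χ t₀ ∈ ({χ s}ᶜ : Set X) := hun ▸ Or.inl h1
      exact h3 (by rw [h2]; rfl)
    · exact Set.disjoint_left.mp hdis h1 (hR ⟨t₀, h2, rfl⟩)
  refine ⟨t₀, ht₀s, ?_⟩
  rintro _ ⟨t, ⟨ht1, ht2⟩, rfl⟩
  rcases ht1.eq_or_lt with h1 | h1
  · rw [← h1]; exact hyD
  by_contra hc
  obtain ⟨_, hRo, _, _, hdis', _, hL', hR'⟩ := hS hX χ hχ t
  rcases (hC hX χ hχ t).1 D hD hc with h2 | h2
  · obtain ⟨z, hz1, hz2⟩ := mem_closure_iff.mp hs _ hRo (hR' ⟨s, ht2, rfl⟩)
    exact Set.disjoint_left.mp hdis' (h2 hz2) hz1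
  · exact Set.disjoint_left.mp hdis' (hL' ⟨t₀, h1, rfl⟩) (h2 hyD)

end Pool.Agent.Work.MP_0d206b_gt.U

end

/-! ### U.Partner -/

section

/-! Item 18: the partner of a frontier point. -/

set_option autoImplicit false

namespace Pool.Agent.Work.MP_0d206b_gt.U

open Set Filter Topology Function

universe u v

namespace Partner

variable {X : Type u} {Y : Type v} [TopologicalSpace X] [TopologicalSpace Y]

lemma nonSep_symm {x y : X} (h : NonSep x y) : NonSep y x := by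
  intro U V hU hV hx hy
  obtain ⟨a, ha⟩ := h V U hV hU hy hx
  exact ⟨a, ha.2, ha.1⟩

/-- a chart inside the source composed with the partial homeomorphism -/
lemma comp_chart (e : OpenPartialHomeomorph X Y) {ψ : ℝ → X} (hψ : IsOpenEmbedding ψ)
    (hr : range ψ ⊆ e.source) : IsOpenEmbedding (fun t => e (ψ t)) := by
  have hm : ∀ t, ψ t ∈ e.source := fun t => hr ⟨t, rfl⟩
  refine IsOpenEmbedding.of_continuous_injective_isOpenMap ?_ ?_ ?_
  · exact e.continuousOn.comp_continuous hψ.continuous hm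
  · intro a b hab
    exact hψ.injective (e.injOn (hm a) (hm b) hab)
  · intro U hU
    have h1 : IsOpen (ψ '' U) := hψ.isOpenMap U hU
    have h2 : ψ '' U ⊆ e.source := (image_subset_range ψ U).trans hr
    have h3 := e.isOpen_image_of_subset_source h1 h2
    rwa [image_image] at h3

/-- non-separated points pull back -/
lemma nonSep_of_image (e : OpenPartialHomeomorph X Y) {c v : X} (hc : c ∈ e.source)
    (hv : v ∈ e.source) (h : NonSep (e c) (e v)) : NonSep c v := by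
  intro U V hU hV hcU hvV
  have h1 := e.isOpen_image_of_subset_source (hU.inter e.open_source) inter_subset_right
  have h2 := e.isOpen_image_of_subset_source (hV.inter e.open_source) inter_subset_right
  obtain ⟨y, ⟨a, ha, rfl⟩, ⟨b, hb, hba⟩⟩ := h _ _ h1 h2 ⟨c, ⟨hcU, hc⟩, rfl⟩ ⟨v, ⟨hvV, hv⟩, rfl⟩
  have hab : b = a := e.injOn hb.2 ha.2 hba
  exact ⟨a, ha.1, hab ▸ hb.1⟩

end Partner

open Partner in
theorem I_Partner (hT1 : StT1.{u}) (hT1v : StT1.{v}) (hSh : StShrink.{u}) (hS : StSides.{u})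
    (hSv : StSides.{v}) (hC : StSideCases.{u}) (hCv : StSideCases.{v}) (hW : StWithin.{u})
    (hWv : StWithin.{v}) (hG : StGerm.{u}) (hGv : StGerm.{v}) : StPartner.{u, v} := by
  intro X Y _ _ hX hY hX2 hY2 e he φ hφ hcl hns hsub
  obtain ⟨c, hc, hzc⟩ := he.src.front (φ 0) hcl hns
  have hcz : φ 0 ≠ c := fun h => hns (h ▸ hc)
  refine ⟨⟨c, hcz.symm, hzc⟩, ?_⟩
  have hcB : c ∈ Branch X := ⟨φ 0, hcz, nonSep_symm hzc⟩
  -- the germ at `φ 0`
  have hLc : side (φ 0) c = L φ 0 := (hC hX φ hφ 0).2.1 c (hsub hc)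
  have hg1 := hG hX (φ 0) c hcz hzc
  rw [hLc, ← (hW hX φ hφ 0).1] at hg1
  -- the chart `ψ`
  have hψex : ∃ ψ : ℝ → X, IsOpenEmbedding ψ ∧ ψ 0 = c ∧ range ψ ⊆ e.source ∧
      φ 0 ∈ L ψ 0 := by
    obtain ⟨ψ, hψ, hψ0, hψr⟩ := hSh hX.chart c e.source e.open_source hc
    have hun := (hS hX ψ hψ 0).2.2.2.2.2.1
    have hmem : φ 0 ∈ L ψ 0 ∪ R ψ 0 := by
      rw [hun, hψ0]
      exact hcz
    rcases hmem with h | h
    · exact ⟨ψ, hψ, hψ0, hψr, h⟩
    · refine ⟨fun t => ψ (-t), hψ.comp (Homeomorph.neg ℝ).isOpenEmbedding, ?_, ?_, ?_⟩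
      · show ψ (-0) = c
        rw [neg_zero, hψ0]
      · rintro _ ⟨t, rfl⟩
        exact hψr ⟨-t, rfl⟩
      · have h2 := (hC hX ψ hψ 0).2.2.2.2.1.1
        rw [neg_zero] at h2
        rw [h2]
        exact h
  obtain ⟨ψ, hψ, hψ0, hψr, hzL⟩ := hψex
  have hCψ := hC hX ψ hψ 0
  have hWψ := hW hX ψ hψ 0
  rw [hψ0] at hCψ hWψ
  have hsz : side c (φ 0) = L ψ 0 := hCψ.2.1 _ hzL
  rw [hsz, ← hWψ.1] at hg1
  -- the chart of `Y`
  have hψs := comp_chart e hψ hψr
  have hct : e c ∈ e.target := e.map_source hc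
  have hcYB : e c ∈ Branch Y := (he.br c hc).mp hcB
  have hSψ := hSv hY _ hψs 0
  have hCs := hCv hY _ hψs 0
  have hWs := hWv hY _ hψs 0
  simp only [hψ0] at hSψ hCs hWs
  generalize hψsd : (fun t => e (ψ t)) = ψs at hψs hSψ hCs hWs
  obtain ⟨w, hwc, hcw, hwL⟩ : ∃ w : Y, w ≠ e c ∧ NonSep (e c) w ∧ w ∈ L ψs 0 := by
    obtain ⟨y1, y2, h1, h2, h3, h4, h5, -⟩ := hY2.two (e c) hcYB
    have m1 : y1 ∈ L ψs 0 ∪ R ψs 0 := by
      rw [hSψ.2.2.2.2.2.1]
      exact h1
    have m2 : y2 ∈ L ψs 0 ∪ R ψs 0 := by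
      rw [hSψ.2.2.2.2.2.1]
      exact h2
    rcases m1 with m1 | m1
    · exact ⟨y1, h1, h3, m1⟩
    · rcases m2 with m2 | m2
      · exact ⟨y2, h2, h4, m2⟩
      · exfalso
        apply h5
        rw [hCs.2.2.1 y2 m2]
        exact m1
  have hsw : side (e c) w = L ψs 0 := hCs.2.1 w hwL
  have hg2 := hGv hY (e c) w hwc.symm hcw
  rw [hsw, ← hWs.1] at hg2
  -- the germ of `e ∘ φ`
  have hmain : Filter.map (fun t => e (φ t)) (𝓝[<] (0 : ℝ)) = 𝓝[side w (e c)] w := by
    rw [← hg2, ← hψsd]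
    have e1 : Filter.map (fun t => e (φ t)) (𝓝[<] (0 : ℝ)) =
        Filter.map e (Filter.map φ (𝓝[<] (0 : ℝ))) := by
      rw [Filter.map_map]
      rfl
    have e2 : Filter.map (fun t => e (ψ t)) (𝓝[<] (0 : ℝ)) =
        Filter.map e (Filter.map ψ (𝓝[<] (0 : ℝ))) := by
      rw [Filter.map_map]
      rfl
    rw [e1, e2, hg1]
  refine ⟨w, ⟨e c, hwc.symm, nonSep_symm hcw⟩, ?_, ?_, ?_⟩
  · rw [mem_closure_iff]
    intro U hU hwU
    exact nonSep_symm hcw U e.target hU e.open_target hwU hct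
  · intro hwt
    obtain ⟨v, hv, rfl⟩ : ∃ v ∈ e.source, e v = w :=
      ⟨e.symm w, e.map_target hwt, e.right_inv hwt⟩
    have hcv : NonSep c v := nonSep_of_image e hc hv hcw
    have hvc : v ≠ c := fun h => hwc (congrArg e h)
    have hvz : v ≠ φ 0 := fun h => hns (h ▸ hv)
    have hvR : v ∈ R ψ 0 := by
      have hun := (hS hX ψ hψ 0).2.2.2.2.2.1
      have hmem : v ∈ L ψ 0 ∪ R ψ 0 := by
        rw [hun, hψ0]
        exact hvc
      rcases hmem with h | h
      · exfalso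
        have hsv : side c v = L ψ 0 := hCψ.2.1 v h
        obtain ⟨y1, y2, -, -, -, -, h5, h6⟩ := hX2.two c hcB
        rcases h6 v hvc hcv with hv1 | hv1 <;> rcases h6 (φ 0) hcz (nonSep_symm hzc) with hz1 | hz1
        · exact hvz (hv1.trans hz1.symm)
        · apply h5
          rw [← hv1, ← hz1, hsz]
          exact h
        · apply h5
          rw [← hv1, ← hz1, hsv]
          exact hzL
        · exact hvz (hv1.trans hz1.symm)
      · exact h
    have hsv : side c v = R ψ 0 := hCψ.2.2.1 v hvR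
    have hg3 := hG hX c v hvc.symm hcv
    rw [hsv, ← hWψ.2] at hg3
    have hle : Filter.map ψ (𝓝[>] (0 : ℝ)) ≤ 𝓝 v := by
      rw [hg3]
      exact nhdsWithin_le_nhds
    have hle2 : Filter.map ψs (𝓝[>] (0 : ℝ)) ≤ 𝓝 (e v) := by
      rw [← e.map_nhds_eq hv, ← hψsd]
      have e2 : Filter.map (fun t => e (ψ t)) (𝓝[>] (0 : ℝ)) =
          Filter.map e (Filter.map ψ (𝓝[>] (0 : ℝ))) := by
        rw [Filter.map_map]
        rfl
      rw [e2]
      exact Filter.map_mono hle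
    have hL : L ψs 0 ∈ Filter.map ψs (𝓝[>] (0 : ℝ)) :=
      hle2 (hSψ.1.mem_nhds hwL)
    have hR : R ψs 0 ∈ Filter.map ψs (𝓝[>] (0 : ℝ)) := by
      rw [hWs.2]
      exact self_mem_nhdsWithin
    have hne : (Filter.map ψs (𝓝[>] (0 : ℝ))).NeBot := inferInstance
    obtain ⟨x, hx⟩ := hne.nonempty_of_mem (Filter.inter_mem hL hR)
    exact Set.disjoint_left.mp hSψ.2.2.2.2.1 hx.1 hx.2
  · intro φ' hφ' hφ'0 hsub'
    rw [hmain]
    have h1 := (hWv hY φ' hφ' 0).1
    have h2 := (hCv hY φ' hφ' 0).2.1 (e c) (hsub' hct)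
    rw [hφ'0] at h1 h2
    rw [h1, h2]

end Pool.Agent.Work.MP_0d206b_gt.U

end

/-! ### U.Reach -/

section

/-! Swallow a chart. -/

set_option autoImplicit false

namespace Pool.Agent.Work.MP_0d206b_gt.U

open Set Filter Topology Function

universe u v

namespace Reach

variable {X : Type u} {Y : Type v} [TopologicalSpace X] [TopologicalSpace Y]

theorem ext_refl (e : OpenPartialHomeomorph X Y) : Ext e e := ⟨subset_rfl, fun _ _ => rfl⟩

theorem ext_trans {e e' e'' : OpenPartialHomeomorph X Y} (h : Ext e e') (h' : Ext e' e'') :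
    Ext e e'' :=
  ⟨h.1.trans h'.1, fun _ hx => (h'.2 (h.1 hx)).trans (h.2 hx)⟩

theorem neg_emb {ψ : ℝ → X} (h : IsOpenEmbedding ψ) : IsOpenEmbedding (fun t => ψ (-t)) :=
  h.comp (Homeomorph.neg ℝ).isOpenEmbedding

end Reach

theorem I_Reach (hRR : StReachRay.{u, v}) : StReach.{u, v} := by
  intro X Y _ _ _ _ hX hY hWX hWY e he ψ hψ
  have hconn : ConnectedSpace X := hX.conn
  have hpre : PreconnectedSpace X := hconn.toPreconnectedSpace
  have key : ∀ x : X, ∃ e' : OpenPartialHomeomorph X Y, Good e' ∧ Ext e e' ∧ x ∈ e'.source := by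
    let S : Set X := {x | ∃ e' : OpenPartialHomeomorph X Y, Good e' ∧ Ext e e' ∧ x ∈ e'.source}
    have hopen : IsOpen S := by
      rw [isOpen_iff_mem_nhds]
      rintro x ⟨e', he', hee', hx⟩
      exact Filter.mem_of_superset (e'.open_source.mem_nhds hx) (fun y hy => ⟨e', he', hee', hy⟩)
    have hclosed : IsClosed S := by
      apply isClosed_of_closure_subset
      intro x hx
      obtain ⟨p, hp, hp0⟩ := hX.chart x
      obtain ⟨y, ⟨b, rfl⟩, e1, he1, hee1, hb⟩ :=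
        mem_closure_iff.1 hx (range p) hp.isOpen_range ⟨0, hp0⟩
      rcases le_total b 0 with h | h
      · obtain ⟨e2, he2, h12, hsub⟩ := hRR hX hY hWX hWY e1 he1 p hp b hb
        exact ⟨e2, he2, Reach.ext_trans hee1 h12, hsub ⟨0, h, hp0⟩⟩
      · have hb' : (fun t => p (-t)) (-b) ∈ e1.source := by
          simpa using hb
        obtain ⟨e2, he2, h12, hsub⟩ :=
          hRR hX hY hWX hWY e1 he1 (fun t => p (-t)) (Reach.neg_emb hp) (-b) hb'
        refine ⟨e2, he2, Reach.ext_trans hee1 h12, hsub ⟨0, ?_, ?_⟩⟩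
        · simpa using h
        · simpa using hp0
    have hne : S.Nonempty := by
      obtain ⟨x, hx⟩ := he.src.conn.nonempty
      exact ⟨x, e, he, Reach.ext_refl e, hx⟩
    have huniv : S = univ := IsClopen.eq_univ ⟨hclosed, hopen⟩ hne
    intro x
    have : x ∈ S := by rw [huniv]; trivial
    exact this
  obtain ⟨e1, he1, hee1, h0⟩ := key (ψ 0)
  obtain ⟨e2, he2, h12, hsub2⟩ := hRR hX hY hWX hWY e1 he1 ψ hψ 0 h0
  have h0' : (fun t => ψ (-t)) 0 ∈ e2.source := by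
    have := h12.1 h0
    simpa using this
  obtain ⟨e3, he3, h23, hsub3⟩ :=
    hRR hX hY hWX hWY e2 he2 (fun t => ψ (-t)) (Reach.neg_emb hψ) 0 h0'
  refine ⟨e3, he3, Reach.ext_trans hee1 (Reach.ext_trans h12 h23), ?_⟩
  rintro _ ⟨t, rfl⟩
  rcases le_total 0 t with h | h
  · exact h23.1 (hsub2 ⟨t, h, rfl⟩)
  · apply hsub3
    refine ⟨-t, ?_, ?_⟩
    · simpa using h
    · simp

end Pool.Agent.Work.MP_0d206b_gt.U

end

/-! ### U.Shrink -/

section

set_option autoImplicit false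

namespace Pool.Agent.Work.MP_0d206b_gt.U

open Set Filter Topology Function

universe u v

theorem I_Shrink : StShrink.{u} := by
  intro X _ hch x U hU hx
  obtain ⟨φ, hφ, h0⟩ := hch x
  have hpre : φ ⁻¹' U ∈ 𝓝 (0 : ℝ) := by
    apply hφ.continuous.continuousAt
    rw [h0]
    exact hU.mem_nhds hx
  obtain ⟨e, he, hball⟩ := Metric.mem_nhds_iff.mp hpre
  have hg : IsOpenEmbedding (OpenPartialHomeomorph.univBall (0 : ℝ) e) :=
    OpenPartialHomeomorph.isOpenEmbedding _ (OpenPartialHomeomorph.univBall_source _ _)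
  refine ⟨φ ∘ OpenPartialHomeomorph.univBall (0 : ℝ) e, hφ.comp hg, ?_, ?_⟩
  · simp [h0]
  · rintro _ ⟨t, rfl⟩
    apply hball
    have := (OpenPartialHomeomorph.univBall (0 : ℝ) e).map_source
      (x := t) (by rw [OpenPartialHomeomorph.univBall_source]; trivial)
    rwa [OpenPartialHomeomorph.univBall_target _ he] at this

end Pool.Agent.Work.MP_0d206b_gt.U

end

/-! ### U.SideCases -/

section

set_option autoImplicit false

namespace Pool.Agent.Work.MP_0d206b_gt.U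

open Set Filter Topology Function

universe u v

namespace SideCases

variable {X : Type u} [TopologicalSpace X]

theorem side_eq_of_mem {x y z : X} (h : y ∈ side x z) : side x y = side x z :=
  (connectedComponentIn_eq h).symm

theorem closure_aux {x : X} {A B : Set X} (hB : IsOpen B) (hd : Disjoint A B)
    (hu : A ∪ B = {x}ᶜ) (hx : x ∈ closure A) : closure A = insert x A := by
  apply Subset.antisymm
  · intro y hy
    by_cases hyx : y = x
    · exact Or.inl hyx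
    · have h1 : y ∈ A ∪ B := by
        rw [hu]
        exact hyx
      rcases h1 with h1 | h1
      · exact Or.inr h1
      · exfalso
        obtain ⟨z, hz1, hz2⟩ := mem_closure_iff.1 hy B hB h1
        exact disjoint_left.1 hd hz2 hz1
  · rintro y (hy | hy)
    · rw [hy]
      exact hx
    · exact subset_closure hy

end SideCases

open SideCases

theorem I_SideCases (hS : StSides.{u}) : StSideCases.{u} := by
  intro X _ hX φ hφ s
  obtain ⟨hL, hR, hLc, hRc, hd, hu, hLi, hRi⟩ := hS hX φ hφ s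
  have h1 : ∀ S : Set X, IsPreconnected S → φ s ∉ S → S ⊆ L φ s ∨ S ⊆ R φ s := by
    intro S hSc hsS
    refine IsPreconnected.subset_or_subset hL hR hd ?_ hSc
    rw [hu]
    intro y hy hys
    rw [mem_singleton_iff] at hys
    rw [hys] at hy
    exact hsS hy
  have h2 : ∀ y ∈ L φ s, side (φ s) y = L φ s := fun y hy => side_eq_of_mem hy
  have h3 : ∀ y ∈ R φ s, side (φ s) y = R φ s := fun y hy => side_eq_of_mem hy
  have h4 : ∀ (ψ : ℝ → X) (t : ℝ), IsOpenEmbedding ψ → ψ t = φ s →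
      (L ψ t = L φ s ∧ R ψ t = R φ s) ∨ (L ψ t = R φ s ∧ R ψ t = L φ s) := by
    intro ψ t hψ ht
    obtain ⟨-, -, hLc', hRc', hd', -, -, -⟩ := hS hX ψ hψ t
    have hmem : ∀ r : ℝ, r ≠ t → ψ r ∈ L φ s ∪ R φ s := by
      intro r hr
      rw [hu]
      intro hh
      rw [mem_singleton_iff, ← ht] at hh
      exact hr (hψ.injective hh)
    have eL : L ψ t = side (φ s) (ψ (t - 1)) := by
      unfold L
      rw [ht]
    have eR : R ψ t = side (φ s) (ψ (t + 1)) := by
      unfold R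
      rw [ht]
    have hne : L ψ t ≠ R ψ t := by
      intro he
      obtain ⟨z, hz⟩ := hLc'.nonempty
      exact disjoint_left.1 hd' hz (he ▸ hz)
    rcases hmem (t - 1) (by linarith) with ha | ha <;> rcases hmem (t + 1) (by linarith) with hb | hb
    · exact absurd (by rw [eL, eR, h2 _ ha, h2 _ hb]) hne
    · exact Or.inl ⟨by rw [eL, h2 _ ha], by rw [eR, h3 _ hb]⟩
    · exact Or.inr ⟨by rw [eL, h3 _ ha], by rw [eR, h2 _ hb]⟩
    · exact absurd (by rw [eL, eR, h3 _ ha, h3 _ hb]) hne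
  have hxL : φ s ∈ closure (L φ s) := by
    have h5 : φ s ∈ closure (φ '' Iio s) := by
      apply image_closure_subset_closure_image hφ.continuous
      rw [closure_Iio]
      exact mem_image_of_mem _ (mem_Iic.2 le_rfl)
    exact closure_mono hLi h5
  have hxR : φ s ∈ closure (R φ s) := by
    have h5 : φ s ∈ closure (φ '' Ioi s) := by
      apply image_closure_subset_closure_image hφ.continuous
      rw [closure_Ioi]
      exact mem_image_of_mem _ (mem_Ici.2 le_rfl)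
    exact closure_mono hRi h5
  have hcL : closure (L φ s) = insert (φ s) (L φ s) := closure_aux hR hd hu hxL
  have hcR : closure (R φ s) = insert (φ s) (R φ s) :=
    closure_aux hL hd.symm (by rw [union_comm]; exact hu) hxR
  refine ⟨h1, h2, h3, h4, ⟨?_, ?_⟩, hcL, hcR, ?_, ?_⟩
  · unfold L R
    have e1 : -(-s) = s := neg_neg s
    have e2 : -(-s - 1) = s + 1 := by ring
    simp only [e1, e2]
  · unfold L R
    have e1 : -(-s) = s := neg_neg s
    have e2 : -(-s + 1) = s - 1 := by ring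
    simp only [e1, e2]
  · rw [← hcL]
    exact hLc.closure
  · rw [← hcR]
    exact hRc.closure

end Pool.Agent.Work.MP_0d206b_gt.U

end

/-! ### U.Step -/

section

/-! Item 19 of module U: one step. -/

set_option autoImplicit false

namespace Pool.Agent.Work.MP_0d206b_gt.U

open Set Filter Topology Function

universe u v

namespace Step

/-- A full line at a point outside a connected set, the set being on the left. -/
theorem line (hCv : StSideCases.{v}) (hFv : StFullLine.{v}) {Y : Type v} [TopologicalSpace Y]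
    [SecondCountableTopology Y] (hY : OneMfd Y) (T : Set Y) (hT : IsPreconnected T) (w : Y)
    (hw : w ∉ T) : ∃ φ : ℝ → Y, IsOpenEmbedding φ ∧ φ 0 = w ∧ Full (range φ) ∧ T ⊆ L φ 0 := by
  obtain ⟨ψ, hψ, hψ0⟩ := hY.chart w
  obtain ⟨φ, hφ, hφ0, _, _, hfull⟩ := hFv hY ψ hψ 0
  rw [hψ0] at hφ0
  obtain ⟨h1, _, _, _, h5, _⟩ := hCv hY φ hφ 0
  rcases h1 T hT (by rw [hφ0]; exact hw) with h | h
  · exact ⟨φ, hφ, hφ0, hfull, h⟩
  · refine ⟨fun t => φ (-t), hφ.comp (Homeomorph.neg ℝ).isOpenEmbedding, ?_, ?_, ?_⟩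
    · show φ (-0) = w
      rw [neg_zero, hφ0]
    · have hr : range (fun t => φ (-t)) = range φ := by
        apply Subset.antisymm
        · rintro _ ⟨t, rfl⟩
          exact ⟨-t, rfl⟩
        · rintro _ ⟨t, rfl⟩
          refine ⟨-t, ?_⟩
          show φ (- -t) = φ t
          rw [neg_neg]
      rw [hr]
      exact hfull
    · have h6 := h5.1
      rw [neg_zero] at h6
      rw [h6]
      exact h

theorem ray (hS : StSides.{u}) {X : Type u} [TopologicalSpace X] (hX : OneMfd X) (D : Set X)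
    (φ : ℝ → X) (hφ : IsOpenEmbedding φ) (h0 : φ 0 ∉ D) (hD : D ⊆ L φ 0) (t : ℝ) (ht : 0 ≤ t) :
    φ t ∉ D := by
  intro h
  rcases ht.lt_or_eq with h1 | h1
  · obtain ⟨_, _, _, _, hdis, _, _, hr⟩ := hS hX φ hφ 0
    exact Set.disjoint_left.mp hdis (hD h) (hr ⟨t, h1, rfl⟩)
  · rw [← h1] at h
    exact h0 h

end Step

open Step in
theorem I_Step (hSv : StSides.{v}) (hS : StSides.{u}) (hC : StSideCases.{u})
    (hCv : StSideCases.{v}) (hN : StNear.{u}) (hFv : StFullLine.{v}) (hK : StCountable.{u})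
    (hKv : StCountable.{v}) (hM : StMark) (hR : StRayFull.{u}) (hRv : StRayFull.{v})
    (hGH : StGlueHomeo.{u, v}) (hP : StPartner.{u, v}) : StStep.{u, v} := by
  intro X Y _ _ _ _ hX hY hWX hWY e he φ hφ hφf hcl hout hL
  obtain ⟨hbr, w, hwB, hwcl, hwout, hw⟩ := hP hX hY hWX hWY e he φ hφ hcl hout hL
  obtain ⟨φ', hφ', hφ'0, hφ'f, hL'⟩ :=
    line hCv hFv hY e.target he.tgt.conn.isPreconnected w hwout
  have hAc : (φ ⁻¹' Branch X).Countable := (hK hX hWX).preimage hφ.injective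
  have hBc : (φ' ⁻¹' Branch Y).Countable := (hKv hY hWY).preimage hφ'.injective
  have hAd : Dense (φ ⁻¹' Branch X) := hWX.dense.preimage hφ.isOpenMap
  have hBd : Dense (φ' ⁻¹' Branch Y) := hWY.dense.preimage hφ'.isOpenMap
  obtain ⟨h, h0, hAB⟩ := hM (φ ⁻¹' Branch X) (φ' ⁻¹' Branch Y) hAc hBc hAd hBd 0 hbr 0
    (by show φ' 0 ∈ Branch Y; rw [hφ'0]; exact hwB)
  have hφ'' : IsOpenEmbedding (fun t => φ' (h t)) :=
    hφ'.comp h.toHomeomorph.isOpenEmbedding
  have hmaph : Filter.map (fun t => h t) (𝓝[<] (0 : ℝ)) = 𝓝[<] (0 : ℝ) := by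
    have h1 := h.toHomeomorph.isEmbedding.map_nhdsWithin_eq (Iio 0) 0
    have h2 : h.toHomeomorph '' Iio 0 = Iio 0 := by
      have h3 := h.image_Iio 0
      rw [h0] at h3
      exact h3
    have h4 : h.toHomeomorph 0 = 0 := h0
    rw [h2, h4] at h1
    exact h1
  have hmap'' : Filter.map φ' (𝓝[<] (0 : ℝ)) =
      Filter.map (fun t => φ' (h t)) (𝓝[<] (0 : ℝ)) := by
    have h1 : Filter.map (fun t => φ' (h t)) (𝓝[<] (0 : ℝ)) =
        Filter.map φ' (Filter.map (fun t => h t) (𝓝[<] (0 : ℝ))) := by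
      rw [Filter.map_map]
      rfl
    rw [h1, hmaph]
  have hge : ∀ t, 0 ≤ t → 0 ≤ h t := by
    intro t ht
    have h1 : h 0 ≤ h t := h.monotone ht
    rw [h0] at h1
    exact h1
  have hw0 : φ' 0 ∉ e.target := by
    rw [hφ'0]
    exact hwout
  obtain ⟨e', hs, ht, heq, hray⟩ := hGH e φ (fun t => φ' (h t)) hφ hφ''
    (fun t ht => ray hS hX e.source φ hφ hout hL t ht)
    (fun t ht => ray hSv hY e.target φ' hφ' hw0 hL' (h t) (hge t ht))
    (hN hX e.source he.src.conn.isPreconnected φ hφ 0 hcl hL)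
    (by rw [hw φ' hφ' hφ'0 hL', hmap''])
  refine ⟨e', ⟨?_, ?_, ?_⟩, ⟨?_, heq⟩, hs⟩
  · rw [hs]
    exact hR hX e.source he.src φ hφ hφf hcl hL
  · have himg : (fun t => φ' (h t)) '' Ici 0 = φ' '' Ici 0 := by
      have h1 : (fun t => φ' (h t)) '' Ici 0 = φ' '' (h '' Ici 0) := by
        rw [Set.image_image]
      rw [h1, h.image_Ici 0, h0]
    rw [ht, himg]
    refine hRv hY e.target he.tgt φ' hφ' hφ'f ?_ hL'
    rw [hφ'0]
    exact hwcl
  · intro x hx
    rw [hs] at hx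
    rcases hx with hx | ⟨t, ht', rfl⟩
    · rw [heq hx]
      exact he.br x hx
    · rw [hray t ht']
      exact hAB t
  · rw [hs]
    exact subset_union_left

end Pool.Agent.Work.MP_0d206b_gt.U

end

/-! ### U.Symm -/

section

/-! Project MP_0d206b_gt, module U, item 22: the inverse of a good partial homeomorphism. -/

set_option autoImplicit false

namespace Pool.Agent.Work.MP_0d206b_gt.U

open Set Filter Topology Function

universe u v

theorem I_Symm : StSymm.{u, v} := by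
  intro X Y _ _ e e'
  refine ⟨fun h => ⟨?_, ?_, ?_⟩, fun h => ⟨?_, ?_⟩⟩
  · rw [OpenPartialHomeomorph.symm_source]
    exact h.tgt
  · rw [OpenPartialHomeomorph.symm_target]
    exact h.src
  · intro y hy
    rw [OpenPartialHomeomorph.symm_source] at hy
    have h1 := h.br (e.symm y) (e.map_target hy)
    rw [e.right_inv hy] at h1
    exact h1.symm
  · intro y hy
    rw [OpenPartialHomeomorph.symm_source] at hy ⊢
    have hx := e.map_target hy
    have h1 : e' (e.symm y) = y := by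
      rw [h.2 hx, e.right_inv hy]
    rw [← h1]
    exact e'.map_source (h.1 hx)
  · intro y hy
    rw [OpenPartialHomeomorph.symm_source] at hy
    have hx := e.map_target hy
    have h1 : e' (e.symm y) = y := by
      rw [h.2 hx, e.right_inv hy]
    calc e'.symm y = e'.symm (e' (e.symm y)) := by rw [h1]
      _ = e.symm y := e'.left_inv (h.1 hx)

end Pool.Agent.Work.MP_0d206b_gt.U

end

/-! ### U.Unique -/

section

/-! Project MP_0d206b_gt, module U, item 26: the exhaustion argument for uniqueness. -/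

set_option autoImplicit false

namespace Pool.Agent.Work.MP_0d206b_gt.U

open Set Filter Topology Function

universe u v

namespace Unique

variable {X : Type u} {Y : Type v} [TopologicalSpace X] [TopologicalSpace Y]

theorem ext_trans {e e' e'' : OpenPartialHomeomorph X Y} (h : Ext e e') (h' : Ext e' e'') :
    Ext e e'' :=
  ⟨h.1.trans h'.1, fun _ hx => (h'.2 (h.1 hx)).trans (h.2 hx)⟩

/-- One double step of the recursion. -/
theorem double_step [SecondCountableTopology X] [SecondCountableTopology Y]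
    (hRe : StReach.{u, v}) (hRe' : StReach.{v, u}) (hSy : StSymm.{u, v}) (hSy' : StSymm.{v, u})
    (hX : OneMfd X) (hY : OneMfd Y) (hX2 : IsW2 X) (hY2 : IsW2 Y)
    (e : OpenPartialHomeomorph X Y) (he : Good e) (ψ : ℝ → X) (hψ : IsOpenEmbedding ψ)
    (ψ' : ℝ → Y) (hψ' : IsOpenEmbedding ψ') :
    ∃ e' : OpenPartialHomeomorph X Y, Good e' ∧ Ext e e' ∧ range ψ ⊆ e'.source ∧
      range ψ' ⊆ e'.target := by
  obtain ⟨e1, hg1, hx1, hr1⟩ := hRe hX hY hX2 hY2 e he ψ hψ
  have hg1' : Good e1.symm := (hSy e1 e1).1 hg1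
  obtain ⟨e2, hg2, hx2, hr2⟩ := hRe' hY hX hY2 hX2 e1.symm hg1' ψ' hψ'
  have hg2' : Good e2.symm := (hSy' e2 e2).1 hg2
  have hx2' : Ext e1 e2.symm := by
    have h := (hSy' e1.symm e2).2 hx2
    rwa [OpenPartialHomeomorph.symm_symm] at h
  exact ⟨e2.symm, hg2', ext_trans hx1 hx2', hr1.trans hx2'.1, hr2⟩

end Unique

theorem I_Unique (hRe : StReach.{u, v}) (hRe' : StReach.{v, u}) (hSy : StSymm.{u, v})
    (hSy' : StSymm.{v, u}) (hI : StInit.{u, v}) (hLH : StLimHomeo.{u, v}) (hCo : StCover.{u})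
    (hCo' : StCover.{v}) : StUnique.{u, v} := by
  intro X Y _ _ _ _ hX hY hX2 hY2
  obtain ⟨ψ, hψ, hψc⟩ := hCo hX
  obtain ⟨ψ', hψ', hψc'⟩ := hCo' hY
  obtain ⟨e0, he0⟩ := hI hX hY hX2 hY2
  have step : ∀ (n : ℕ) (e : {e : OpenPartialHomeomorph X Y // Good e}),
      ∃ e' : {e : OpenPartialHomeomorph X Y // Good e}, Ext e.1 e'.1 ∧
        range (ψ n) ⊆ e'.1.source ∧ range (ψ' n) ⊆ e'.1.target := by
    intro n e
    obtain ⟨e', h1, h2, h3, h4⟩ := Unique.double_step hRe hRe' hSy hSy' hX hY hX2 hY2 e.1 e.2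
      (ψ n) (hψ n) (ψ' n) (hψ' n)
    exact ⟨⟨e', h1⟩, h2, h3, h4⟩
  choose next hnext using step
  let E : ℕ → {e : OpenPartialHomeomorph X Y // Good e} :=
    fun n => Nat.rec ⟨e0, he0⟩ (fun n e => next n e) n
  have hE : ∀ n, E (n + 1) = next n (E n) := fun _ => rfl
  refine hLH (fun n => (E n).1) (fun n => ?_) ?_ ?_
  · show Ext (E n).1 (E (n + 1)).1
    rw [hE n]
    exact (hnext n (E n)).1
  · refine eq_univ_of_forall fun x => ?_
    have hx : x ∈ ⋃ n, range (ψ n) := by rw [hψc]; exact mem_univ x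
    obtain ⟨n, hn⟩ := mem_iUnion.1 hx
    refine mem_iUnion.2 ⟨n + 1, ?_⟩
    show x ∈ (E (n + 1)).1.source
    rw [hE n]
    exact (hnext n (E n)).2.1 hn
  · refine eq_univ_of_forall fun y => ?_
    have hy : y ∈ ⋃ n, range (ψ' n) := by rw [hψc']; exact mem_univ y
    obtain ⟨n, hn⟩ := mem_iUnion.1 hy
    refine mem_iUnion.2 ⟨n + 1, ?_⟩
    show y ∈ (E (n + 1)).1.target
    rw [hE n]
    exact (hnext n (E n)).2.2 hn

end Pool.Agent.Work.MP_0d206b_gt.U

end
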