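import Pool.Agent.Work.MP_0d206b_gt.Bd.StU

/-! ### U.BdGerm -/

section

/-! Project MP_0d206b_gt, module U: boundary germs of connected sets. -/

set_option autoImplicit false

namespace Pool.Agent.Work.MP_0d206b_gt.U

open Set Filter Topology Function

universe u

theorem I_BdGerm (hS : StSides.{u}) (hC : StSideCases.{u}) (hN : StNear.{u})
    (hB : StBridge.{u}) : StBdGerm.{u} := by
  intro X _ hX0 Ω hΩ f hf t ht htc
  have hX : OneMfd X := hB.1 hX0
  obtain ⟨_, _, _, _, hdis, _, hL, hR⟩ := hS hX f hf t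
  rcases (hC hX f hf t).1 Ω hΩ ht with h1 | h1
  · left
    obtain ⟨t₀, ht₀, h2⟩ := hN hX Ω hΩ f hf t htc h1
    refine ⟨t - t₀, by linarith, ?_, ?_⟩
    · rintro _ ⟨u, ⟨hu1, hu2⟩, rfl⟩
      exact h2 ⟨u, ⟨by linarith, hu2⟩, rfl⟩
    · rw [Set.disjoint_left]
      rintro _ ⟨u, hu, rfl⟩ huΩ
      rcases (show t ≤ u from hu).eq_or_lt with h3 | h3
      · rw [← h3] at huΩ; exact ht huΩ
      · exact Set.disjoint_left.mp hdis (h1 huΩ) (hR ⟨u, h3, rfl⟩)
  · right
    have hg : IsOpenEmbedding (fun s : ℝ => f (-s)) :=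
      hf.comp (Homeomorph.neg ℝ).isOpenEmbedding
    have h5 := (hC hX f hf t).2.2.2.2.1
    obtain ⟨t₀, ht₀, h2⟩ := hN hX Ω hΩ (fun s : ℝ => f (-s)) hg (-t)
      (by rw [neg_neg]; exact htc) (by rw [h5.1]; exact h1)
    refine ⟨-t₀ - t, by linarith, ?_, ?_⟩
    · rintro _ ⟨u, ⟨hu1, hu2⟩, rfl⟩
      have := h2 ⟨-u, ⟨by linarith, by linarith⟩, rfl⟩
      simpa using this
    · rw [Set.disjoint_left]
      rintro _ ⟨u, hu, rfl⟩ huΩ
      rcases (show u ≤ t from hu).eq_or_lt with h3 | h3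
      · rw [h3] at huΩ; exact ht huΩ
      · exact Set.disjoint_left.mp hdis (hL ⟨u, h3, rfl⟩) (h1 huΩ)

end Pool.Agent.Work.MP_0d206b_gt.U

end

/-! ### U.Bridge -/

section

/-! Project MP_0d206b_gt, module U: the bridge between the two sets of definitions. -/

set_option autoImplicit false

namespace Pool.Agent.Work.MP_0d206b_gt.U

open Set Filter Topology Function

universe u

namespace Bridge

theorem oneMfd {X : Type u} [TopologicalSpace X] (h : IsSC1 X) : OneMfd X := by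
  refine ⟨fun x => ?_, h.conn, h.sep⟩
  obtain ⟨f, hf, t, ht⟩ := h.loc x
  refine ⟨fun s => f (t + s), hf.comp (Homeomorph.addLeft t).isOpenEmbedding, ?_⟩
  simpa using ht

theorem neBot (hS : StSides.{u}) (hC : StSideCases.{u}) (hW : StWithin.{u}) {X : Type u}
    [TopologicalSpace X] (hX : OneMfd X) (x y : X) (hxy : y ≠ x) : (𝓝[side x y] x).NeBot := by
  obtain ⟨f, hf, hf0⟩ := hX.chart x
  obtain ⟨_, _, _, _, _, hun, _, _⟩ := hS hX f hf 0
  obtain ⟨_, hCL, hCR, _⟩ := hC hX f hf 0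
  obtain ⟨hWL, hWR⟩ := hW hX f hf 0
  have hy : y ∈ L f 0 ∪ R f 0 := by
    rw [hun]
    intro hh
    exact hxy (hh.trans hf0)
  rcases hy with hy | hy
  · have := hCL y hy
    rw [hf0] at this hWL
    rw [this, ← hWL]
    infer_instance
  · have := hCR y hy
    rw [hf0] at this hWR
    rw [this, ← hWR]
    infer_instance

end Bridge

theorem I_Bridge (hS : StSides.{u}) (hC : StSideCases.{u}) (hW : StWithin.{u})
    (hG : StGerm.{u}) : StBridge.{u} := by
  intro X _
  refine ⟨Bridge.oneMfd, fun h => ?_⟩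
  have hX : OneMfd X := Bridge.oneMfd h.toIsSC1
  refine ⟨?_, ?_⟩
  · rintro x ⟨w, hwx, hw⟩
    have hNS : ∀ a b : X, a ≠ b → NonSep a b → NS a b := fun a b h1 h2 => ⟨h1, h2⟩
    rcases h.types x with h1 | ⟨y, z, hyz, hnyz, hall⟩
    · exact absurd (hNS x w hwx.symm hw) (h1 w)
    · have hxy : NS x y := (hall y).2 (Or.inl rfl)
      have hxz : NS x z := (hall z).2 (Or.inr rfl)
      refine ⟨y, z, hxy.1.symm, hxz.1.symm, hxy.2, hxz.2, ?_, ?_⟩
      · intro hy
        have hside : side x z = side x y := connectedComponentIn_eq hy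
        have g1 : 𝓝[side x y] x = 𝓝[side y x] y := hG hX x y hxy.1 hxy.2
        have g2 : 𝓝[side x z] x = 𝓝[side z x] z := hG hX x z hxz.1 hxz.2
        have hne : (𝓝[side x y] x).NeBot := Bridge.neBot hS hC hW hX x y hxy.1.symm
        refine hnyz ⟨hyz, fun U V hU hV hyU hzV => ?_⟩
        have hU' : U ∈ 𝓝[side x y] x := by
          rw [g1]
          exact mem_nhdsWithin_of_mem_nhds (hU.mem_nhds hyU)
        have hV' : V ∈ 𝓝[side x y] x := by
          rw [← hside, g2]
          exact mem_nhdsWithin_of_mem_nhds (hV.mem_nhds hzV)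
        exact hne.nonempty_of_mem (Filter.inter_mem hU' hV')
      · intro v hvx hv
        exact (hall v).1 (hNS x v hvx.symm hv)
  · have : {x : X | ∃ y, NS x y} = Branch X := by
      ext x
      constructor
      · rintro ⟨y, hy⟩
        exact ⟨y, hy.1.symm, hy.2⟩
      · rintro ⟨y, hy1, hy2⟩
        exact ⟨y, hy1.symm, hy2⟩
    rw [← this]
    exact h.dense

end Pool.Agent.Work.MP_0d206b_gt.U

end

/-! ### U.Cocycle -/

section

set_option autoImplicit false

namespace Pool.Agent.Work.MP_0d206b_gt.U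

open Set Filter Topology Function

universe u v

namespace Cocycle

variable {N : Type u} [TopologicalSpace N]

/-- The transition function. -/
noncomputable def tr (Q : Set N) (i j : Bool) (n : N) (b : Bool) : Bool :=
  open Classical in if i = j ∨ n ∉ Q then b else !b

omit [TopologicalSpace N] in
theorem tr_comp (Q : Set N) (i j k : Bool) (n : N) (v : Bool) :
    tr Q j k n (tr Q i j n v) = tr Q i k n v := by
  unfold tr
  by_cases hQ : n ∈ Q <;> cases i <;> cases j <;> cases k <;> cases v <;> simp [hQ]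

/-- The double cover. -/
noncomputable def core (K V P Q : Set N) (hK : IsClosed K) (hV : IsOpen V) (hP : IsOpen P)
    (hQ : IsOpen Q) (hKV : K ⊆ V) (hd : Disjoint P Q) (hPQ : V \ K = P ∪ Q) :
    FiberBundleCore Bool N Bool where
  baseSet i := if i then V else Kᶜ
  isOpen_baseSet i := by cases i <;> simp [hV, hK.isOpen_compl]
  indexAt n := open Classical in decide (n ∈ K)
  mem_baseSet_at n := by
    by_cases h : n ∈ K
    · simp [h, hKV h]
    · simp [h]
  coordChange := tr Q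
  coordChange_self i x _ v := by simp [tr]
  continuousOn_coordChange i j := by
    by_cases hij : i = j
    · have : (fun p : N × Bool => tr Q i j p.1 p.2) = fun p => p.2 := by
        funext p; simp [tr, hij]
      rw [this]
      exact continuous_snd.continuousOn
    · intro p hp
      have hp1 : p.1 ∈ V \ K := by
        obtain ⟨⟨h1, h2⟩, -⟩ := hp
        clear hPQ
        cases i <;> cases j <;> simp_all
      rw [hPQ] at hp1
      refine ContinuousAt.continuousWithinAt ?_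
      rcases hp1 with h | h
      · have hmem : (Prod.fst ⁻¹' P : Set (N × Bool)) ∈ 𝓝 p :=
          (hP.preimage continuous_fst).mem_nhds h
        refine ContinuousAt.congr (f := fun q : N × Bool => q.2) continuous_snd.continuousAt ?_
        filter_upwards [hmem] with q hq
        have : q.1 ∉ Q := fun hq' => (Set.disjoint_left.1 hd) hq hq'
        simp [tr, this]
      · have hmem : (Prod.fst ⁻¹' Q : Set (N × Bool)) ∈ 𝓝 p :=
          (hQ.preimage continuous_fst).mem_nhds h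
        refine ContinuousAt.congr (f := fun q : N × Bool => !q.2)
          ((continuous_of_discreteTopology (f := fun b : Bool => !b)).comp
            continuous_snd).continuousAt ?_
        filter_upwards [hmem] with q hq
        have : q.1 ∈ Q := hq
        simp [tr, this, hij]
  coordChange_comp i j k x _ v := tr_comp Q i j k x v

theorem core_apply (K V P Q : Set N) (hK : IsClosed K) (hV : IsOpen V) (hP : IsOpen P)
    (hQ : IsOpen Q) (hKV : K ⊆ V) (hd : Disjoint P Q) (hPQ : V \ K = P ∪ Q) (i : Bool)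
    (p : (core K V P Q hK hV hP hQ hKV hd hPQ).TotalSpace) :
    ((core K V P Q hK hV hP hQ hKV hd hPQ).localTriv i p).2 =
      tr Q (open Classical in decide (p.1 ∈ K)) i p.1 p.2 := rfl

end Cocycle

open Cocycle in
theorem I_Cocycle : StCocycle.{u} := by
  intro N _ _ _ K V P Q hK hV hP hQ hKV hd hPQ
  classical
  let Z := core K V P Q hK hV hP hQ hKV hd hPQ
  have hcov : IsCoveringMap (Bundle.TotalSpace.proj : Z.TotalSpace → N) :=
    FiberBundle.isCoveringMap (F := Bool) (E := Z.Fiber)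
  obtain ⟨n₀⟩ : Nonempty N := inferInstance
  obtain ⟨F, ⟨-, hF⟩, -⟩ := hcov.existsUnique_continuousMap_lifts (ContinuousMap.id N) n₀
    (⟨n₀, (false : Bool)⟩ : Z.TotalSpace) rfl
  have hF1 : ∀ n, (F n).1 = n := fun n => congrFun hF n
  have hc : ∀ i : Bool, ∀ n ∈ Z.baseSet i,
      ContinuousAt (fun m => (Z.localTriv i (F m)).2) n := by
    intro i n hn
    have h1 : ContinuousAt (Z.localTriv i) (F n) := by
      apply (Z.localTriv i).continuousAt
      rw [Z.mem_localTriv_source, hF1 n]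
      exact hn
    have h2 : ContinuousAt (fun m => Z.localTriv i (F m)) n :=
      ContinuousAt.comp (g := Z.localTriv i) (f := F) h1 F.continuous.continuousAt
    exact continuous_snd.continuousAt.comp h2
  have hev : ∀ i : Bool, ∀ n ∈ Z.baseSet i,
      ∀ᶠ m in 𝓝 n, (Z.localTriv i (F m)).2 = (Z.localTriv i (F n)).2 := by
    intro i n hn
    exact (hc i n hn).preimage_mem_nhds ((isOpen_discrete {(Z.localTriv i (F n)).2}).mem_nhds rfl)
  have hval : ∀ (i : Bool) (n : N), (Z.localTriv i (F n)).2 =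
      tr Q (decide (n ∈ K)) i n (F n).2 := by
    intro i n
    have := core_apply K V P Q hK hV hP hQ hKV hd hPQ i (F n)
    rw [show (Z.localTriv i (F n)).2 = _ from this]
    rw [hF1 n]
  have hrel : ∀ n, n ∉ K → (Z.localTriv true (F n)).2 =
      if n ∈ Q then !(Z.localTriv false (F n)).2 else (Z.localTriv false (F n)).2 := by
    intro n hn
    rw [hval, hval]
    by_cases hQ' : n ∈ Q <;> simp [tr, hn, hQ']
  refine ⟨fun n => (Z.localTriv false (F n)).2, ?_, ?_⟩
  · intro n hn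
    exact hev false n (show n ∈ (if false then V else Kᶜ : Set N) from by simpa using hn)
  · intro n hn
    have h := hev true n (show n ∈ (if true then V else Kᶜ : Set N) from by simpa using hKV hn)
    refine ⟨(Z.localTriv true (F n)).2, ?_, ?_⟩
    · have h' := h.filter_mono (nhdsWithin_le_nhds (s := P))
      filter_upwards [h', self_mem_nhdsWithin] with m hm hmP
      have hmK : m ∉ K := by
        have : m ∈ V \ K := by rw [hPQ]; exact Or.inl hmP
        exact this.2
      have hmQ : m ∉ Q := fun h' => (Set.disjoint_left.1 hd) hmP h'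
      rw [← hm, hrel m hmK, if_neg hmQ]
    · have h' := h.filter_mono (nhdsWithin_le_nhds (s := Q))
      filter_upwards [h', self_mem_nhdsWithin] with m hm hmQ
      have hmK : m ∉ K := by
        have : m ∈ V \ K := by rw [hPQ]; exact Or.inr hmQ
        exact this.2
      rw [← hm, hrel m hmK, if_pos hmQ, Bool.not_not]

end Pool.Agent.Work.MP_0d206b_gt.U

end

/-! ### U.CountableB -/

section

set_option autoImplicit false

namespace Pool.Agent.Work.MP_0d206b_gt.U

open Set Filter Topology Function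

universe u

namespace CountableB

variable {X : Type u} [TopologicalSpace X]

theorem nonSep_symm {x y : X} (h : NonSep x y) : NonSep y x := by
  intro U V hU hV hyU hxV
  rw [inter_comm]
  exact h V U hV hU hxV hyU

theorem nonSep_chart {f : ℝ → X} (hf : IsOpenEmbedding f) {s t : ℝ} (h : NonSep (f s) (f t)) :
    s = t := by
  by_contra hst
  obtain ⟨A, B, hA, hB, hsA, htB, hAB⟩ := t2_separation hst
  obtain ⟨z, ⟨a, ha, rfl⟩, ⟨b, hb, hab⟩⟩ := h (f '' A) (f '' B) (hf.isOpenMap A hA)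
    (hf.isOpenMap B hB) ⟨s, hsA, rfl⟩ ⟨t, htB, rfl⟩
  have := hf.injective hab
  subst this
  exact disjoint_left.1 hAB ha hb

theorem sides (hS : StSides.{u}) (hC : StSideCases.{u}) (hX : OneMfd X) {f : ℝ → X}
    (hf : IsOpenEmbedding f) (y : X) (hy : y ∉ range f) :
    ∃ G H : Set X, IsOpen G ∧ IsOpen H ∧ Disjoint G H ∧ G ∪ H = {y}ᶜ ∧ range f ⊆ G ∧
      H.Nonempty ∧ IsPreconnected (insert y H) := by
  obtain ⟨χ, hχ, hχ0⟩ := hX.chart y
  obtain ⟨hLo, hRo, hLc, hRc, hdis, hun, -, -⟩ := hS hX χ hχ 0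
  obtain ⟨h1, -, -, -, -, -, -, hcL, hcR⟩ := hC hX χ hχ 0
  have hcase := h1 (range f) (isPreconnected_range hf.continuous) (by rw [hχ0]; exact hy)
  rw [hχ0] at hun hcL hcR
  rcases hcase with h | h
  · exact ⟨L χ 0, R χ 0, hLo, hRo, hdis, hun, h, hRc.nonempty, hcR.isPreconnected⟩
  · exact ⟨R χ 0, L χ 0, hRo, hLo, hdis.symm, by rw [union_comm]; exact hun, h, hLc.nonempty,
      hcL.isPreconnected⟩

theorem part (hS : StSides.{u}) (hC : StSideCases.{u}) [SecondCountableTopology X]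
    (hX : OneMfd X) (hW : IsW2 X) {f : ℝ → X} (hf : IsOpenEmbedding f) :
    (Branch X ∩ range f).Countable := by
  have hs := fun y hy => sides hS hC hX hf y hy
  choose! G H hGo hHo hdis hun hfG hHne hHc using hs
  set P : Set X := {y | y ∉ range f ∧ ∃ x ∈ range f, NonSep x y} with hP
  have hnot : ∀ y₁ ∈ P, ∀ y₂ ∈ P, y₂ ∉ H y₁ := by
    rintro y₁ ⟨h1, -⟩ y₂ ⟨-, x₂, hx₂, hn⟩ hy₂
    obtain ⟨z, hz1, hz2⟩ := hn (G y₁) (H y₁) (hGo y₁ h1) (hHo y₁ h1) (hfG y₁ h1 hx₂) hy₂
    exact disjoint_left.1 (hdis y₁ h1) hz1 hz2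
  have hPd : P.PairwiseDisjoint H := by
    intro y₁ hy₁ y₂ hy₂ hne
    rw [Function.onFun, disjoint_left]
    intro z hz1 hz2
    have hsub : insert y₁ (H y₁) ⊆ G y₂ ∪ H y₂ := by
      rw [hun y₂ hy₂.1]
      intro w hw
      rcases mem_insert_iff.1 hw with rfl | hw
      · exact hne
      · rintro rfl
        exact hnot y₁ hy₁ w hy₂ hw
    have hle := (hHc y₁ hy₁.1).subset_right_of_subset_union (hGo y₂ hy₂.1) (hHo y₂ hy₂.1)
      (hdis y₂ hy₂.1) hsub ⟨z, mem_insert_of_mem _ hz1, hz2⟩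
    exact hnot y₂ hy₂ y₁ hy₁ (hle (mem_insert _ _))
  have hPc : P.Countable := hPd.countable_of_isOpen (fun y hy => hHo y hy.1)
    (fun y hy => hHne y hy.1)
  refine (hPc.biUnion (t := fun y _ => {x | x ≠ y ∧ NonSep y x}) ?_).mono ?_
  · rintro y ⟨hy, x, hx, hn⟩
    have hyB : y ∈ Branch X := ⟨x, by rintro rfl; exact hy hx, nonSep_symm hn⟩
    obtain ⟨a, b, -, -, -, -, -, hab⟩ := hW.two y hyB
    refine (Set.countable_insert.2 (Set.countable_singleton b) : ({a, b} : Set X).Countable).mono ?_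
    rintro w ⟨hw1, hw2⟩
    exact hab w hw1 hw2
  · rintro x ⟨⟨y, hyx, hn⟩, hxf⟩
    have hyf : y ∉ range f := by
      rintro ⟨t, rfl⟩
      obtain ⟨s, rfl⟩ := hxf
      exact hyx (by rw [nonSep_chart hf hn])
    exact mem_biUnion (show y ∈ P from ⟨hyf, x, hxf, hn⟩) ⟨hyx.symm, nonSep_symm hn⟩

end CountableB

/-- The branch set is countable. -/
theorem I_Countable (_hT1 : StT1.{u}) (hS : StSides.{u}) (hC : StSideCases.{u}) :
    StCountable.{u} := by
  intro X _ _ hX hW
  choose φ hφ hφ0 using hX.chart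
  obtain ⟨T, hT, hTu⟩ := TopologicalSpace.isOpen_iUnion_countable (fun x => range (φ x))
    (fun x => (hφ x).isOpen_range)
  refine (hT.biUnion (t := fun x _ => Branch X ∩ range (φ x))
    (fun x _ => CountableB.part hS hC hX hW (hφ x))).mono ?_
  intro x hx
  have : x ∈ ⋃ i ∈ T, range (φ i) := by
    rw [hTu]
    exact mem_iUnion.2 ⟨x, 0, hφ0 x⟩
  obtain ⟨i, hi, hxi⟩ := mem_iUnion₂.1 this
  exact mem_iUnion₂.2 ⟨i, hi, hx, hxi⟩

end Pool.Agent.Work.MP_0d206b_gt.U

end

/-! ### U.Cut -/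

section

set_option autoImplicit false

namespace Pool.Agent.Work.MP_0d206b_gt.U

open Set Filter Topology Function

universe u v

namespace Cut

theorem mem_closure_preimage {N : Type u} {X : Type v} [TopologicalSpace N] [TopologicalSpace X]
    (π : N → X) (hπ : IsOpenQuotientMap π) (f : ℝ → X) (hf : Continuous f) (n : N)
    (hn : π n = f 0) (A : Set ℝ) (hA : (0 : ℝ) ∈ closure A) : n ∈ closure (π ⁻¹' (f '' A)) := by
  rw [mem_closure_iff]
  intro O hO hnO
  have h1 : IsOpen (π '' O) := hπ.isOpenMap O hO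
  have h2 : IsOpen (f ⁻¹' (π '' O)) := h1.preimage hf
  have h3 : (0 : ℝ) ∈ f ⁻¹' (π '' O) := ⟨n, hnO, hn⟩
  obtain ⟨t, ht1, ht2⟩ := mem_closure_iff.1 hA _ h2 h3
  obtain ⟨m, hm, hmt⟩ := ht1
  exact ⟨m, hm, t, ht2, hmt.symm⟩

theorem continuousAt_of_eventually {N : Type u} [TopologicalSpace N] {s : N → Bool} {n : N}
    (h : ∀ᶠ m in 𝓝 n, s m = s n) : ContinuousAt s n :=
  tendsto_const_nhds.congr' (by filter_upwards [h] with k hk using hk.symm)

end Cut

open Cut in
theorem I_Cut (hT1 : StT1.{v}) (hCo : StCocycle.{u}) : StCut.{u, v} := by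
  intro N X _ _ _ _ π hπ hfib hchart
  have hT : T1Space X := hT1 hchart
  refine ⟨hchart, hπ.surjective.connectedSpace hπ.continuous, ?_⟩
  intro x hx
  obtain ⟨f, hf, hf0⟩ := hchart x
  have hinj := hf.injective
  have hK : IsClosed (π ⁻¹' {x}) := isClosed_singleton.preimage hπ.continuous
  have hV : IsOpen (π ⁻¹' (range f)) := hf.isOpen_range.preimage hπ.continuous
  have hP : IsOpen (π ⁻¹' (f '' Iio 0)) :=
    (hf.isOpenMap _ isOpen_Iio).preimage hπ.continuous
  have hQ : IsOpen (π ⁻¹' (f '' Ioi 0)) :=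
    (hf.isOpenMap _ isOpen_Ioi).preimage hπ.continuous
  have hKV : π ⁻¹' {x} ⊆ π ⁻¹' (range f) := by
    intro n hn
    have hn' : π n = x := hn
    exact ⟨0, by rw [hn', hf0]⟩
  have hd : Disjoint (π ⁻¹' (f '' Iio 0)) (π ⁻¹' (f '' Ioi 0)) := by
    rw [Set.disjoint_left]
    rintro n ⟨t, ht, htn⟩ ⟨t', ht', htn'⟩
    have h := hinj (htn.trans htn'.symm)
    simp only [mem_Iio] at ht
    simp only [mem_Ioi] at ht'
    linarith
  have hVK : π ⁻¹' (range f) \ π ⁻¹' {x} = π ⁻¹' (f '' Iio 0) ∪ π ⁻¹' (f '' Ioi 0) := by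
    ext n
    constructor
    · rintro ⟨⟨t, ht⟩, hn⟩
      have hn' : π n ≠ x := hn
      rcases lt_trichotomy t 0 with h | h | h
      · exact Or.inl ⟨t, h, ht⟩
      · exfalso
        apply hn'
        rw [← ht, h, hf0]
      · exact Or.inr ⟨t, h, ht⟩
    · rintro (⟨t, ht, htn⟩ | ⟨t, ht, htn⟩)
      · refine ⟨⟨t, htn⟩, ?_⟩
        intro hn
        have hn' : π n = x := hn
        have h := hinj (htn.trans (hn'.trans hf0.symm))
        exact absurd ht (by simp [h])
      · refine ⟨⟨t, htn⟩, ?_⟩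
        intro hn
        have hn' : π n = x := hn
        have h := hinj (htn.trans (hn'.trans hf0.symm))
        exact absurd ht (by simp [h])
  obtain ⟨s, hs1, hs2⟩ := hCo (π ⁻¹' {x}) _ _ _ hK hV hP hQ hKV hd hVK
  -- `s` is constant on the fibres
  have hfibs : ∀ n m, π n ≠ x → π m = π n → s m = s n := by
    intro n m hn hmn
    refine (hfib (π n)).constant (f := s) ?_ hmn rfl
    intro k hk
    have hk' : π k = π n := hk
    refine (continuousAt_of_eventually (hs1 k ?_)).continuousWithinAt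
    intro hkx
    exact hn (hk'.symm.trans hkx)
  let S : X → Bool := fun y => s (surjInv hπ.surjective y)
  have hS : ∀ n, π n ≠ x → S (π n) = s n := fun n hn =>
    hfibs n _ hn (surjInv_eq hπ.surjective (π n))
  have hScont : ContinuousOn S {x}ᶜ := by
    intro y hy
    have hyx : y ≠ x := hy
    obtain ⟨n, rfl⟩ := hπ.surjective y
    have h1 : {m | s m = s n} ∩ (π ⁻¹' {x})ᶜ ∈ 𝓝 n :=
      inter_mem (hs1 n hyx) (hK.isOpen_compl.mem_nhds hyx)
    have h2 := hπ.isOpenMap.image_mem_nhds h1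
    refine ContinuousAt.continuousWithinAt (continuousAt_of_eventually ?_)
    filter_upwards [h2] with y' hy'
    obtain ⟨m, ⟨hm1, hm2⟩, rfl⟩ := hy'
    rw [hS m hm2, hS n hyx]
    exact hm1
  have hconst : ∀ n m, π n ≠ x → π m ≠ x → s n = s m := by
    intro n m hn hm
    rw [← hS n hn, ← hS m hm]
    exact hx.constant hScont hn hm
  obtain ⟨n, hn⟩ := hπ.surjective x
  obtain ⟨c, hc1, hc2⟩ := hs2 n hn
  have hn0 : π n = f 0 := hn.trans hf0.symm
  have hb1 : (𝓝[π ⁻¹' (f '' Iio 0)] n).NeBot :=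
    mem_closure_iff_nhdsWithin_neBot.1
      (mem_closure_preimage π hπ f hf.continuous n hn0 (Iio 0) (by simp))
  have hb2 : (𝓝[π ⁻¹' (f '' Ioi 0)] n).NeBot :=
    mem_closure_iff_nhdsWithin_neBot.1
      (mem_closure_preimage π hπ f hf.continuous n hn0 (Ioi 0) (by simp))
  obtain ⟨m1, hm1, hm1'⟩ := (hc1.and self_mem_nhdsWithin).exists
  obtain ⟨m2, hm2, hm2'⟩ := (hc2.and self_mem_nhdsWithin).exists
  have k1 : π m1 ≠ x := by
    have : m1 ∈ π ⁻¹' (range f) \ π ⁻¹' {x} := by
      rw [hVK]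
      exact Or.inl hm1'
    exact this.2
  have k2 : π m2 ≠ x := by
    have : m2 ∈ π ⁻¹' (range f) \ π ⁻¹' {x} := by
      rw [hVK]
      exact Or.inr hm2'
    exact this.2
  have h := hconst m1 m2 k1 k2
  rw [hm1, hm2] at h
  cases c <;> simp at h

end Pool.Agent.Work.MP_0d206b_gt.U

end

/-! ### U.GermLem -/

section

/-! MP_0d206b_gt, module U, item 32 (U05): the germ lemma. -/

set_option autoImplicit false

namespace Pool.Agent.Work.MP_0d206b_gt.U

open Set Filter Topology Function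

universe u

namespace GermLem

theorem ns_of {X : Type u} [TopologicalSpace X] (f : ℝ → X) (hf : Continuous f) (t : ℝ) (w : X)
    (hw : w ≠ f t) (l : Filter ℝ) [l.NeBot] (hl : l ≤ 𝓝 t) (h : Tendsto f l (𝓝 w)) :
    NS (f t) w := by
  refine ⟨fun e => hw e.symm, fun U V hU hV hfU hwV => ?_⟩
  have h1 : ∀ᶠ s in l, f s ∈ U := hl ((hf.tendsto t).eventually (hU.mem_nhds hfU))
  have h2 : ∀ᶠ s in l, f s ∈ V := h.eventually (hV.mem_nhds hwV)
  obtain ⟨s, h3, h4⟩ := (h1.and h2).exists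
  exact ⟨f s, h3, h4⟩

end GermLem

theorem I_GermLem (hS : StSides.{u}) (hC : StSideCases.{u}) (hW : StWithin.{u}) (hG : StGerm.{u})
    (hB : StBridge.{u}) : StGermLem.{u} := by
  intro X _ hX f hf t w hw
  have hM : OneMfd X := hB.1 hX
  obtain ⟨oL, oR, -, -, hdisj, hun, hLi, hRi⟩ := hS hM f hf t
  obtain ⟨-, sideL, sideR, -⟩ := hC hM f hf t
  obtain ⟨hW1, hW2⟩ := hW hM f hf t
  have hw' : w ∈ L f t ∪ R f t := by
    rw [hun]
    exact hw
  have hback : (Tendsto f (𝓝[<] t) (𝓝 w) ∨ Tendsto f (𝓝[>] t) (𝓝 w)) → NS (f t) w := by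
    rintro (h | h)
    · exact GermLem.ns_of f hf.continuous t w hw _ nhdsWithin_le_nhds h
    · exact GermLem.ns_of f hf.continuous t w hw _ nhdsWithin_le_nhds h
  rcases hw' with hwL | hwR
  · have hno : ¬ Tendsto f (𝓝[>] t) (𝓝 w) := by
      intro h
      have h1 : ∀ᶠ s in 𝓝[>] t, f s ∈ L f t := h.eventually (oL.mem_nhds hwL)
      have h2 : ∀ᶠ s in 𝓝[>] t, s ∈ Ioi t := eventually_mem_nhdsWithin
      obtain ⟨s, h3, h4⟩ := (h1.and h2).exists
      exact Set.disjoint_left.1 hdisj h3 (hRi ⟨s, h4, rfl⟩)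
    refine ⟨⟨fun hns => Or.inl ?_, hback⟩, fun h => hno h.2⟩
    have h5 := hG hM (f t) w (fun e => hw e.symm) hns.2
    rw [sideL w hwL, ← hW1] at h5
    exact h5.le.trans nhdsWithin_le_nhds
  · have hno : ¬ Tendsto f (𝓝[<] t) (𝓝 w) := by
      intro h
      have h1 : ∀ᶠ s in 𝓝[<] t, f s ∈ R f t := h.eventually (oR.mem_nhds hwR)
      have h2 : ∀ᶠ s in 𝓝[<] t, s ∈ Iio t := eventually_mem_nhdsWithin
      obtain ⟨s, h3, h4⟩ := (h1.and h2).exists
      exact Set.disjoint_left.1 hdisj (hLi ⟨s, h4, rfl⟩) h3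
    refine ⟨⟨fun hns => Or.inr ?_, hback⟩, fun h => hno h.1⟩
    have h5 := hG hM (f t) w (fun e => hw e.symm) hns.2
    rw [sideR w hwR, ← hW2] at h5
    exact h5.le.trans nhdsWithin_le_nhds

end Pool.Agent.Work.MP_0d206b_gt.U

end

/-! ### U.GlueHomeo -/

section

/-! Item 17 of module U: gluing a partial homeomorphism and a ray. -/

set_option autoImplicit false

namespace Pool.Agent.Work.MP_0d206b_gt.U

open Set Filter Topology Function

universe u v

namespace GlueHomeo

/-- The glued map. -/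
noncomputable def G {X : Type u} {Y : Type v} (S : Set X) (e : X → Y) (φ : ℝ → X) (φ' : ℝ → Y)
    (x : X) : Y := by
  classical
  exact if x ∈ S then e x else φ' (invFun φ x)

variable {X : Type u} {Y : Type v}

theorem G_mem (S : Set X) (e : X → Y) (φ : ℝ → X) (φ' : ℝ → Y) {x : X} (hx : x ∈ S) :
    G S e φ φ' x = e x := by
  classical
  unfold G
  simp [hx]

theorem G_ray (S : Set X) (e : X → Y) {φ : ℝ → X} (φ' : ℝ → Y) (hφ : Injective φ) {t : ℝ}
    (ht : φ t ∉ S) : G S e φ φ' (φ t) = φ' t := by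
  classical
  unfold G
  simp [ht, leftInverse_invFun hφ t]

variable [TopologicalSpace X] [TopologicalSpace Y]

theorem G_cont {S : Set X} (hS : IsOpen S) {e : X → Y} (he : ContinuousOn e S) {φ : ℝ → X}
    {φ' : ℝ → Y} (hφ : IsOpenEmbedding φ) (hφ' : IsOpenEmbedding φ')
    (hout : ∀ t, 0 ≤ t → φ t ∉ S) (hin : ∀ᶠ t in 𝓝[<] (0 : ℝ), φ t ∈ S)
    (hmap : Filter.map (fun t => e (φ t)) (𝓝[<] (0 : ℝ)) ≤ Filter.map φ' (𝓝[<] (0 : ℝ))) :
    ContinuousOn (G S e φ φ') (S ∪ φ '' Ici 0) := by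
  intro x hx
  apply ContinuousAt.continuousWithinAt
  rcases hx with hx | ⟨t, ht, rfl⟩
  · have h1 : ContinuousAt e x := he.continuousAt (hS.mem_nhds hx)
    refine h1.congr ?_
    filter_upwards [hS.mem_nhds hx] with y hy
    exact (G_mem S e φ φ' hy).symm
  · have ht' : (0 : ℝ) ≤ t := ht
    unfold ContinuousAt
    rw [G_ray S e φ' hφ.injective (hout t ht'), ← hφ.map_nhds_eq t, tendsto_map'_iff]
    rcases ht'.lt_or_eq with h0 | h0
    · have h1 : Tendsto φ' (𝓝 t) (𝓝 (φ' t)) := hφ'.continuous.tendsto t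
      refine h1.congr' ?_
      filter_upwards [lt_mem_nhds h0] with s hs
      exact (G_ray S e φ' hφ.injective (hout s hs.le)).symm
    · subst h0
      have hn : 𝓝 (0 : ℝ) = 𝓝[<] (0 : ℝ) ⊔ 𝓝[≥] (0 : ℝ) := by
        rw [← nhdsWithin_union, Iio_union_Ici, nhdsWithin_univ]
      rw [hn, tendsto_sup]
      constructor
      · have h1 : Tendsto (fun t => e (φ t)) (𝓝[<] (0 : ℝ)) (𝓝 (φ' 0)) := by
          refine le_trans hmap ?_
          exact (hφ'.continuous.tendsto 0).mono_left nhdsWithin_le_nhds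
        refine h1.congr' ?_
        filter_upwards [hin] with s hs
        exact (G_mem S e φ φ' hs).symm
      · have h1 : Tendsto φ' (𝓝[≥] (0 : ℝ)) (𝓝 (φ' 0)) :=
          (hφ'.continuous.tendsto 0).mono_left nhdsWithin_le_nhds
        refine h1.congr' ?_
        filter_upwards [self_mem_nhdsWithin] with s hs
        exact (G_ray S e φ' hφ.injective (hout s hs)).symm

theorem open_union {S : Set X} (hS : IsOpen S) {φ : ℝ → X} (hφ : IsOpenEmbedding φ)
    (hin : ∀ᶠ t in 𝓝[<] (0 : ℝ), φ t ∈ S) : IsOpen (S ∪ φ '' Ici 0) := by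
  obtain ⟨t₀, ht₀, hsub⟩ := (mem_nhdsLT_iff_exists_Ioo_subset' (show (-1 : ℝ) < 0 by norm_num)).1 hin
  have h0 : t₀ < 0 := ht₀
  have : S ∪ φ '' Ici 0 = S ∪ φ '' Ioi t₀ := by
    apply Subset.antisymm
    · apply union_subset_union_right
      apply image_mono
      intro t ht
      exact lt_of_lt_of_le h0 ht
    · apply union_subset subset_union_left
      rintro _ ⟨t, ht, rfl⟩
      rcases lt_or_ge t 0 with h | h
      · exact Or.inl (hsub ⟨ht, h⟩)
      · exact Or.inr ⟨t, h, rfl⟩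
  rw [this]
  exact hS.union (hφ.isOpenMap _ isOpen_Ioi)

end GlueHomeo

open GlueHomeo in
theorem I_GlueHomeo : StGlueHomeo.{u, v} := by
  intro X Y _ _ e φ φ' hφ hφ' hout hout' hin hmap
  obtain ⟨t₀, ht₀, hsub⟩ := hin
  have hev : ∀ᶠ t in 𝓝[<] (0 : ℝ), φ t ∈ e.source := by
    have : Ico t₀ 0 ∈ 𝓝[<] (0 : ℝ) := Ico_mem_nhdsLT ht₀
    filter_upwards [this] with t ht
    exact hsub ⟨t, ht, rfl⟩
  have hev' : ∀ᶠ t in 𝓝[<] (0 : ℝ), φ' t ∈ e.target := by
    have h1 : e.target ∈ Filter.map (fun t => e (φ t)) (𝓝[<] (0 : ℝ)) := by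
      rw [Filter.mem_map]
      filter_upwards [hev] with t ht
      exact e.map_source ht
    rw [hmap] at h1
    exact h1
  have hmap' : Filter.map (fun t => e.symm (φ' t)) (𝓝[<] (0 : ℝ)) ≤
      Filter.map φ (𝓝[<] (0 : ℝ)) := by
    have h1 : Filter.map (fun t => e.symm (φ' t)) (𝓝[<] (0 : ℝ)) =
        Filter.map e.symm (Filter.map φ' (𝓝[<] (0 : ℝ))) := by
      rw [Filter.map_map]
      rfl
    rw [h1, ← hmap, Filter.map_map]
    apply le_of_eq
    apply Filter.map_congr
    filter_upwards [hev] with t ht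
    exact e.left_inv ht
  have hr : ∀ t, 0 ≤ t → G e.source e φ φ' (φ t) = φ' t := fun t ht =>
    G_ray e.source e φ' hφ.injective (hout t ht)
  have hr' : ∀ t, 0 ≤ t → G e.target e.symm φ' φ (φ' t) = φ t := fun t ht =>
    G_ray e.target e.symm φ hφ'.injective (hout' t ht)
  have hs : ∀ x, x ∈ e.source → G e.source e φ φ' x = e x := fun x hx => G_mem _ _ _ _ hx
  have hs' : ∀ y, y ∈ e.target → G e.target e.symm φ' φ y = e.symm y :=
    fun y hy => G_mem _ _ _ _ hy
  let e' : OpenPartialHomeomorph X Y :=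
    { toFun := G e.source e φ φ'
      invFun := G e.target e.symm φ' φ
      source := e.source ∪ φ '' Ici 0
      target := e.target ∪ φ' '' Ici 0
      map_source' := by
        rintro x (hx | ⟨t, ht, rfl⟩)
        · rw [hs x hx]
          exact Or.inl (e.map_source hx)
        · rw [hr t ht]
          exact Or.inr ⟨t, ht, rfl⟩
      map_target' := by
        rintro y (hy | ⟨t, ht, rfl⟩)
        · rw [hs' y hy]
          exact Or.inl (e.map_target hy)
        · rw [hr' t ht]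
          exact Or.inr ⟨t, ht, rfl⟩
      left_inv' := by
        rintro x (hx | ⟨t, ht, rfl⟩)
        · rw [hs x hx, hs' _ (e.map_source hx), e.left_inv hx]
        · rw [hr t ht, hr' t ht]
      right_inv' := by
        rintro y (hy | ⟨t, ht, rfl⟩)
        · rw [hs' y hy, hs _ (e.map_target hy), e.right_inv hy]
        · rw [hr' t ht, hr t ht]
      open_source := open_union e.open_source hφ hev
      open_target := open_union e.open_target hφ' hev'
      continuousOn_toFun := G_cont e.open_source e.continuousOn hφ hφ' hout hev hmap.le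
      continuousOn_invFun := G_cont e.open_target e.continuousOn_symm hφ' hφ hout' hev' hmap' }
  exact ⟨e', rfl, rfl, fun x hx => hs x hx, hr⟩

end Pool.Agent.Work.MP_0d206b_gt.U

end

/-! ### U.Init -/

section

set_option autoImplicit false

namespace Pool.Agent.Work.MP_0d206b_gt.U

open Set Filter Topology Function

universe u v

namespace Init

variable {X : Type u} {Y : Type v} [TopologicalSpace X] [TopologicalSpace Y]

theorem good_of (φ : ℝ → X) (φ' : ℝ → Y) (hφ : IsOpenEmbedding φ) (hφ' : IsOpenEmbedding φ')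
    (hF : Full (range φ)) (hF' : Full (range φ')) (h : ℝ ≃o ℝ)
    (hb : ∀ t, φ t ∈ Branch X ↔ φ' (h t) ∈ Branch Y) :
    ∃ e : OpenPartialHomeomorph X Y, Good e := by
  have hψ : IsOpenEmbedding (fun t => φ' (h t)) := hφ'.comp h.toHomeomorph.isOpenEmbedding
  have hr : range (fun t => φ' (h t)) = range φ' := by
    have : range (φ' ∘ h) = range φ' := h.surjective.range_comp φ'
    exact this
  set eX := hφ.toOpenPartialHomeomorph φ
  set eY := hψ.toOpenPartialHomeomorph (fun t => φ' (h t))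
  have hs : (eX.symm.trans eY).source = range φ := by
    simp [eX, eY]
  have ht : (eX.symm.trans eY).target = range φ' := by
    rw [← hr]
    simp [eX, eY]
  refine ⟨eX.symm.trans eY, ⟨hs ▸ hF, ht ▸ hF', ?_⟩⟩
  intro x hx
  rw [hs] at hx
  obtain ⟨t, rfl⟩ := hx
  have h1 : eX.symm (φ t) = t := hφ.toOpenPartialHomeomorph_left_inv
  have h2 : (eX.symm.trans eY) (φ t) = φ' (h t) := by
    rw [OpenPartialHomeomorph.coe_trans, comp_apply, h1]
    rfl
  rw [h2]
  exact hb t

theorem fullChart {X : Type u} [TopologicalSpace X] [SecondCountableTopology X]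
    (hF : StFullLine.{u}) (hX : OneMfd X) :
    ∃ φ : ℝ → X, IsOpenEmbedding φ ∧ Full (range φ) := by
  have := hX.conn
  obtain ⟨x⟩ := (inferInstance : Nonempty X)
  obtain ⟨ψ, hψ, _⟩ := hX.chart x
  obtain ⟨φ, hφ, _, _, _, hfull⟩ := hF hX ψ hψ 0
  exact ⟨φ, hφ, hfull⟩

end Init

theorem I_Init (hF : StFullLine.{u}) (hFv : StFullLine.{v}) (hK : StCountable.{u})
    (hKv : StCountable.{v}) (hM : StMark) : StInit.{u, v} := by
  intro X Y _ _ _ _ hX hY hWX hWY
  obtain ⟨φ, hφ, hfull⟩ := Init.fullChart @hF hX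
  obtain ⟨φ', hφ', hfull'⟩ := Init.fullChart @hFv hY
  have hA : (φ ⁻¹' Branch X).Countable := (hK hX hWX).preimage hφ.injective
  have hB : (φ' ⁻¹' Branch Y).Countable := (hKv hY hWY).preimage hφ'.injective
  have hAd : Dense (φ ⁻¹' Branch X) := hWX.dense.preimage hφ.isOpenMap
  have hBd : Dense (φ' ⁻¹' Branch Y) := hWY.dense.preimage hφ'.isOpenMap
  obtain ⟨a, ha⟩ := hAd.nonempty
  obtain ⟨b, hb⟩ := hBd.nonempty
  obtain ⟨h, _, hh⟩ := hM _ _ hA hB hAd hBd a ha b hb
  exact Init.good_of φ φ' hφ hφ' hfull hfull' h hh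

end Pool.Agent.Work.MP_0d206b_gt.U

end

/-! ### U.Interval -/

section

/-! Project MP_0d206b_gt, module U, item 31: the interval lemma. -/

set_option autoImplicit false

namespace Pool.Agent.Work.MP_0d206b_gt.U

open Set Filter Topology Function

universe u

/-- 31 (U03): interval lemma. -/
theorem I_Interval (hS : StSides.{u}) (hC : StSideCases.{u}) (hB : StBridge.{u}) :
    StInterval.{u} := by
  intro X _ hX0 Ω hΩ f hf
  have hX : OneMfd X := hB.1 hX0
  refine ⟨?_⟩
  intro s hs t ht r hr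
  by_contra hfr
  have hs' : f s ∈ Ω := hs
  have ht' : f t ∈ Ω := ht
  have hfr' : f r ∉ Ω := hfr
  have hsr : s < r := lt_of_le_of_ne hr.1 (fun h => hfr' (h ▸ hs'))
  have hrt : r < t := lt_of_le_of_ne hr.2 (fun h => hfr' (h ▸ ht'))
  obtain ⟨-, -, -, -, hd, -, hl, hrr⟩ := hS hX f hf r
  have h1 : f s ∈ L f r := hl (mem_image_of_mem f hsr)
  have h2 : f t ∈ R f r := hrr (mem_image_of_mem f hrt)
  rcases (hC hX f hf r).1 Ω hΩ hfr' with h | h
  · exact disjoint_left.1 hd (h ht') h2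
  · exact disjoint_left.1 hd h1 (h hs')

end Pool.Agent.Work.MP_0d206b_gt.U

end

/-! ### U.Mark -/

section

/-! Item Mark: two countable dense subsets of the line are equivalent by an order isomorphism
with one prescribed value. -/

set_option autoImplicit false

namespace Pool.Agent.Work.MP_0d206b_gt.U

open Set Filter Topology Function

namespace Mark

/-- Extension of a strictly increasing bijection between dense sets. -/
theorem extend (A B : Set ℝ) (hA : Dense A) (hB : Dense B) (g : ℝ → ℝ)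
    (hg : StrictMonoOn g A) (hgA : g '' A = B) :
    ∃ h : ℝ ≃o ℝ, ∀ t ∈ A, h t = g t := by
  classical
  have hne : ∀ x : ℝ, (g '' (A ∩ Iic x)).Nonempty := by
    intro x
    obtain ⟨t, htA, ht⟩ := hA.exists_lt x
    exact ⟨g t, t, ⟨htA, ht.le⟩, rfl⟩
  have hbdd : ∀ x : ℝ, BddAbove (g '' (A ∩ Iic x)) := by
    intro x
    obtain ⟨s, hsA, hs⟩ := hA.exists_gt x
    refine ⟨g s, ?_⟩
    rintro _ ⟨t, ⟨htA, htx⟩, rfl⟩
    exact (hg.monotoneOn) htA hsA (le_trans htx hs.le)
  set h : ℝ → ℝ := fun x => sSup (g '' (A ∩ Iic x)) with hh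
  have hmono : Monotone h := by
    intro x y hxy
    apply csSup_le_csSup (hbdd y) (hne x)
    apply image_mono
    exact inter_subset_inter_right _ (Iic_subset_Iic.2 hxy)
  have heq : ∀ t ∈ A, h t = g t := by
    intro t ht
    have : IsGreatest (g '' (A ∩ Iic t)) (g t) := by
      refine ⟨⟨t, ⟨ht, mem_Iic.2 le_rfl⟩, rfl⟩, ?_⟩
      rintro _ ⟨s, ⟨hs, hst⟩, rfl⟩
      exact hg.monotoneOn hs ht hst
    exact this.csSup_eq
  have hstrict : StrictMono h := by
    intro x y hxy
    obtain ⟨s, hs, hxs, hsy⟩ := hA.exists_between hxy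
    obtain ⟨t, ht, hst, hty⟩ := hA.exists_between hsy
    calc h x ≤ h s := hmono hxs.le
      _ = g s := heq s hs
      _ < g t := hg hs ht hst
      _ = h t := (heq t ht).symm
      _ ≤ h y := hmono hty.le
  have hBr : B ⊆ range h := by
    rw [← hgA]
    rintro _ ⟨t, ht, rfl⟩
    exact ⟨t, heq t ht⟩
  have hdr : DenseRange h := hB.mono hBr
  have hcont : Continuous h := hmono.continuous_of_denseRange hdr
  have hsurj : Function.Surjective h := by
    intro y
    obtain ⟨u, hu, huy⟩ := hB.exists_lt y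
    obtain ⟨v, hv, hyv⟩ := hB.exists_gt y
    obtain ⟨p, hp⟩ := hBr hu
    obtain ⟨q, hq⟩ := hBr hv
    have hp' : h p ≤ y := by rw [hp]; exact huy.le
    have hq' : y ≤ h q := by rw [hq]; exact hyv.le
    have := mem_range_of_exists_le_of_exists_ge hcont ⟨p, hp'⟩ ⟨q, hq'⟩
    exact this
  exact ⟨StrictMono.orderIsoOfSurjective h hstrict hsurj, fun t ht => by
    simpa using heq t ht⟩

/-- The pieces below. -/
theorem isoBelow (A B : Set ℝ) (hAc : A.Countable) (hBc : B.Countable) (hA : Dense A)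
    (hB : Dense B) (a b : ℝ) :
    Nonempty ((A ∩ Iio a : Set ℝ) ≃o (B ∩ Iio b : Set ℝ)) := by
  have key : ∀ (C : Set ℝ) (c : ℝ), C.Countable → Dense C →
      Countable (C ∩ Iio c : Set ℝ) ∧ DenselyOrdered (C ∩ Iio c : Set ℝ) ∧
      NoMinOrder (C ∩ Iio c : Set ℝ) ∧ NoMaxOrder (C ∩ Iio c : Set ℝ) ∧
      Nonempty (C ∩ Iio c : Set ℝ) := by
    intro C c hCc hC
    refine ⟨(hCc.mono inter_subset_left).to_subtype, ⟨?_⟩, ⟨?_⟩, ⟨?_⟩, ?_⟩
    · rintro ⟨x, hx⟩ ⟨y, hy⟩ hxy
      obtain ⟨z, hz, h1, h2⟩ := hC.exists_between (show x < y from hxy)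
      exact ⟨⟨z, hz, lt_trans h2 hy.2⟩, h1, h2⟩
    · rintro ⟨x, hx⟩
      obtain ⟨z, hz, h1⟩ := hC.exists_lt x
      exact ⟨⟨z, hz, lt_trans h1 hx.2⟩, h1⟩
    · rintro ⟨x, hx⟩
      obtain ⟨z, hz, h1, h2⟩ := hC.exists_between (show x < c from hx.2)
      exact ⟨⟨z, hz, h2⟩, h1⟩
    · obtain ⟨z, hz, h1⟩ := hC.exists_lt c
      exact ⟨⟨z, hz, h1⟩⟩
  obtain ⟨a1, a2, a3, a4, a5⟩ := key A a hAc hA
  obtain ⟨b1, b2, b3, b4, b5⟩ := key B b hBc hB
  exact Order.iso_of_countable_dense _ _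

/-- The pieces above. -/
theorem isoAbove (A B : Set ℝ) (hAc : A.Countable) (hBc : B.Countable) (hA : Dense A)
    (hB : Dense B) (a b : ℝ) :
    Nonempty ((A ∩ Ioi a : Set ℝ) ≃o (B ∩ Ioi b : Set ℝ)) := by
  have key : ∀ (C : Set ℝ) (c : ℝ), C.Countable → Dense C →
      Countable (C ∩ Ioi c : Set ℝ) ∧ DenselyOrdered (C ∩ Ioi c : Set ℝ) ∧
      NoMinOrder (C ∩ Ioi c : Set ℝ) ∧ NoMaxOrder (C ∩ Ioi c : Set ℝ) ∧
      Nonempty (C ∩ Ioi c : Set ℝ) := by
    intro C c hCc hC
    refine ⟨(hCc.mono inter_subset_left).to_subtype, ⟨?_⟩, ⟨?_⟩, ⟨?_⟩, ?_⟩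
    · rintro ⟨x, hx⟩ ⟨y, hy⟩ hxy
      obtain ⟨z, hz, h1, h2⟩ := hC.exists_between (show x < y from hxy)
      exact ⟨⟨z, hz, lt_trans hx.2 h1⟩, h1, h2⟩
    · rintro ⟨x, hx⟩
      obtain ⟨z, hz, h1, h2⟩ := hC.exists_between (show c < x from hx.2)
      exact ⟨⟨z, hz, h1⟩, h2⟩
    · rintro ⟨x, hx⟩
      obtain ⟨z, hz, h1⟩ := hC.exists_gt x
      exact ⟨⟨z, hz, lt_trans hx.2 h1⟩, h1⟩
    · obtain ⟨z, hz, h1⟩ := hC.exists_gt c
      exact ⟨⟨z, hz, h1⟩⟩
  obtain ⟨a1, a2, a3, a4, a5⟩ := key A a hAc hA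
  obtain ⟨b1, b2, b3, b4, b5⟩ := key B b hBc hB
  exact Order.iso_of_countable_dense _ _

end Mark

open Mark in
theorem I_Mark : StMark := by
  classical
  intro A B hAc hBc hA hB a ha b hb
  obtain ⟨g1⟩ := isoBelow A B hAc hBc hA hB a b
  obtain ⟨g2⟩ := isoAbove A B hAc hBc hA hB a b
  let g : ℝ → ℝ := fun t =>
    if h : t ∈ A ∩ Iio a then (g1 ⟨t, h⟩ : ℝ) else
      if h' : t ∈ A ∩ Ioi a then (g2 ⟨t, h'⟩ : ℝ) else b
  have hg1 : ∀ t (h : t ∈ A ∩ Iio a), g t = (g1 ⟨t, h⟩ : ℝ) := fun t h => by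
    simp only [g]; rw [dif_pos h]
  have hg2 : ∀ t (h : t ∈ A ∩ Ioi a), g t = (g2 ⟨t, h⟩ : ℝ) := fun t h => by
    have h0 : ¬ t ∈ A ∩ Iio a := fun h' => lt_asymm (mem_Ioi.1 h.2) (mem_Iio.1 h'.2)
    simp only [g]; rw [dif_neg h0, dif_pos h]
  have hga : g a = b := by
    have h0 : ¬ a ∈ A ∩ Iio a := fun h' => lt_irrefl _ (mem_Iio.1 h'.2)
    have h1 : ¬ a ∈ A ∩ Ioi a := fun h' => lt_irrefl _ (mem_Ioi.1 h'.2)
    simp only [g]; rw [dif_neg h0, dif_neg h1]
  have hlt : ∀ t (_ : t ∈ A ∩ Iio a), g t < b := fun t h => by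
    rw [hg1 t h]; exact (g1 ⟨t, h⟩).2.2
  have hgt : ∀ t (_ : t ∈ A ∩ Ioi a), b < g t := fun t h => by
    rw [hg2 t h]; exact (g2 ⟨t, h⟩).2.2
  have hgs : StrictMonoOn g A := by
    intro s hs t ht hst
    rcases lt_trichotomy s a with h1 | h1 | h1
    · rcases lt_trichotomy t a with h2 | h2 | h2
      · rw [hg1 s ⟨hs, h1⟩, hg1 t ⟨ht, h2⟩]
        exact g1.strictMono (show (⟨s, hs, h1⟩ : (A ∩ Iio a : Set ℝ)) < ⟨t, ht, h2⟩ from hst)
      · subst h2; rw [hga]; exact hlt s ⟨hs, h1⟩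
      · exact lt_trans (hlt s ⟨hs, h1⟩) (hgt t ⟨ht, h2⟩)
    · subst h1
      rw [hga]; exact hgt t ⟨ht, hst⟩
    · have h2 : a < t := lt_trans h1 hst
      rw [hg2 s ⟨hs, h1⟩, hg2 t ⟨ht, h2⟩]
      exact g2.strictMono (show (⟨s, hs, h1⟩ : (A ∩ Ioi a : Set ℝ)) < ⟨t, ht, h2⟩ from hst)
  have hgA : g '' A = B := by
    apply Subset.antisymm
    · rintro _ ⟨t, ht, rfl⟩
      rcases lt_trichotomy t a with h2 | h2 | h2
      · rw [hg1 t ⟨ht, h2⟩]; exact (g1 ⟨t, ht, h2⟩).2.1
      · subst h2; rw [hga]; exact hb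
      · rw [hg2 t ⟨ht, h2⟩]; exact (g2 ⟨t, ht, h2⟩).2.1
    · intro y hy
      rcases lt_trichotomy y b with h2 | h2 | h2
      · let z := g1.symm ⟨y, hy, h2⟩
        refine ⟨z, z.2.1, ?_⟩
        rw [hg1 z z.2]
        simp [z]
      · subst h2; exact ⟨a, ha, hga⟩
      · let z := g2.symm ⟨y, hy, h2⟩
        refine ⟨z, z.2.1, ?_⟩
        rw [hg2 z z.2]
        simp [z]
  obtain ⟨h, hh⟩ := extend A B hA hB g hgs hgA
  refine ⟨h, by rw [hh a ha, hga], fun t => ⟨fun ht => ?_, fun ht => ?_⟩⟩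
  · rw [hh t ht, ← hgA]; exact ⟨t, ht, rfl⟩
  · rw [← hgA] at ht
    obtain ⟨t', ht', h1⟩ := ht
    rw [← hh t' ht'] at h1
    have := h.injective h1
    rwa [← this]

end Pool.Agent.Work.MP_0d206b_gt.U

end

/-! ### U.MaxFull -/

section

/-! Item 11: maximal Hausdorff open connected sets are full. -/

set_option autoImplicit false

namespace Pool.Agent.Work.MP_0d206b_gt.U

open Set Filter Topology Function

universe u

namespace MaxFull

theorem nonSep_symm {X : Type u} [TopologicalSpace X] {x y : X} (h : NonSep x y) :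
    NonSep y x := by
  intro U V hU hV hx hy
  obtain ⟨w, hw⟩ := h V U hV hU hy hx
  exact ⟨w, hw.2, hw.1⟩

theorem nonSep_chart {X : Type u} [TopologicalSpace X] {f : ℝ → X} (hf : IsOpenEmbedding f)
    {s t : ℝ} (h : NonSep (f s) (f t)) : s = t := by
  by_contra hne
  obtain ⟨U, V, hU, hV, hs, ht, hd⟩ := t2_separation hne
  obtain ⟨w, ⟨a, ha, rfl⟩, b, hb, hab⟩ := h (f '' U) (f '' V) (hf.isOpenMap U hU)
    (hf.isOpenMap V hV) (mem_image_of_mem f hs) (mem_image_of_mem f ht)
  have : b = a := hf.injective hab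
  subst this
  exact Set.disjoint_left.mp hd ha hb

theorem not_nonSep_of_disjoint {X : Type u} [TopologicalSpace X] {x y : X} {U V : Set X}
    (hU : IsOpen U) (hV : IsOpen V) (hd : Disjoint U V) (hx : x ∈ U) (hy : y ∈ V) :
    ¬ NonSep x y := by
  intro h
  obtain ⟨w, hw⟩ := h U V hU hV hx hy
  exact Set.disjoint_left.mp hd hw.1 hw.2

/-- The family of the Hausdorff open connected sets. -/
def Fam (X : Type u) [TopologicalSpace X] : Set (Set X) :=
  {U | IsOpen U ∧ IsConnected U ∧ Sep2 U}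

theorem chain {X : Type u} [TopologicalSpace X] (c : Set (Set X)) (hc : c ⊆ Fam X)
    (hch : IsChain (· ⊆ ·) c) (hne : c.Nonempty) : ⋃₀ c ∈ Fam X := by
  obtain ⟨U₁, hU₁⟩ := hne
  refine ⟨isOpen_sUnion fun U hU => (hc hU).1, ⟨?_, ?_⟩, ?_⟩
  · obtain ⟨x, hx⟩ := (hc hU₁).2.1.nonempty
    exact ⟨x, U₁, hU₁, hx⟩
  · exact IsPreconnected.sUnion_directed hch.directedOn fun U hU => (hc hU).2.1.isPreconnected
  · rintro x ⟨U, hU, hx⟩ y ⟨V, hV, hy⟩ hxy
    rcases hch.total hU hV with h | h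
    · exact (hc hV).2.2 x (h hx) y hy hxy
    · exact (hc hU).2.2 x hx y (h hy) hxy

theorem core {X : Type u} [TopologicalSpace X] (hS : StSides.{u}) (hN : StNear.{u})
    (hX : OneMfd X) {U : Set X} (hU : Maximal (· ∈ Fam X) U) {χ : ℝ → X}
    (hχ : IsOpenEmbedding χ) (hz : χ 0 ∈ closure U) (hzU : χ 0 ∉ U)
    (h : ∀ c ∈ U, ¬ NonSep (χ 0) c) (hL : U ⊆ L χ 0) : False := by
  obtain ⟨hUo, hUc, hUs⟩ := hU.prop
  obtain ⟨hLo, hRo, _, _, hd, _, _, hR⟩ := hS hX χ hχ 0
  obtain ⟨t₀, ht₀, hI⟩ := hN hX U hUc.isPreconnected χ hχ 0 hz hL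
  have hmix : ∀ x ∈ U, ∀ t, t₀ < t → χ t ∉ U → ¬ NonSep x (χ t) := by
    intro x hx t ht htU hxt
    have h0 : 0 ≤ t := by
      by_contra hlt
      push Not at hlt
      exact htU (hI ⟨t, ⟨ht.le, hlt⟩, rfl⟩)
    rcases h0.eq_or_lt with rfl | hpos
    · exact h x hx (nonSep_symm hxt)
    · exact not_nonSep_of_disjoint hLo hRo hd (hL hx) (hR ⟨t, hpos, rfl⟩) hxt
  have hF : U ∪ χ '' Ioi t₀ ∈ Fam X := by
    refine ⟨hUo.union (hχ.isOpenMap _ isOpen_Ioi), ?_, ?_⟩
    · refine IsConnected.union ⟨χ (t₀ / 2), ?_, ?_⟩ hUc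
        (isConnected_Ioi.image χ hχ.continuous.continuousOn)
      · exact hI ⟨t₀ / 2, ⟨by linarith, by linarith⟩, rfl⟩
      · exact ⟨t₀ / 2, by simp only [mem_Ioi]; linarith, rfl⟩
    · intro x hx y hy hxy
      by_cases hxU : x ∈ U
      · by_cases hyU : y ∈ U
        · exact hUs x hxU y hyU hxy
        · rcases hy with hy | ⟨t, ht, rfl⟩
          · exact absurd hy hyU
          · exact absurd hxy (hmix x hxU t ht hyU)
      · rcases hx with hx | ⟨s, hs, rfl⟩
        · exact absurd hx hxU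
        · by_cases hyU : y ∈ U
          · exact absurd (nonSep_symm hxy) (hmix y hyU s hs hxU)
          · rcases hy with hy | ⟨t, ht, rfl⟩
            · exact absurd hy hyU
            · rw [nonSep_chart hχ hxy]
  have hle := hU.le_of_ge hF subset_union_left
  exact hzU (hle (Or.inr ⟨0, ht₀, rfl⟩))

end MaxFull

theorem I_MaxFull (_hT1 : StT1.{u}) (hS : StSides.{u}) (hC : StSideCases.{u})
    (hN : StNear.{u}) : StMaxFull.{u} := by
  intro X _ hX U₀ hU₀o hU₀c hU₀s
  obtain ⟨U, hsub, hmax⟩ := zorn_subset_nonempty (MaxFull.Fam X)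
    (fun c hc hch hne => ⟨⋃₀ c, MaxFull.chain c hc hch hne, fun s hs => subset_sUnion_of_mem hs⟩)
    U₀ ⟨hU₀o, hU₀c, hU₀s⟩
  obtain ⟨hUo, hUc, hUs⟩ := hmax.prop
  refine ⟨U, hsub, hUs, hUo, hUc, ?_⟩
  intro z hz hzU
  by_contra hcon
  push Not at hcon
  obtain ⟨χ, hχ, rfl⟩ := hX.chart z
  obtain ⟨h1, _, _, _, ⟨h5, h6⟩, _⟩ := hC hX χ hχ 0
  rcases h1 U hUc.isPreconnected hzU with hL | hR
  · exact MaxFull.core hS hN hX hmax hχ hz hzU hcon hL
  · have hneg : IsOpenEmbedding (fun t : ℝ => χ (-t)) :=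
      hχ.comp (Homeomorph.neg ℝ).isOpenEmbedding
    have hL' : U ⊆ L (fun t : ℝ => χ (-t)) 0 := by
      rw [neg_zero] at h5
      rw [h5]
      exact hR
    refine MaxFull.core hS hN hX hmax hneg ?_ ?_ ?_ hL'
    · rw [neg_zero]; exact hz
    · rw [neg_zero]; exact hzU
    · rw [neg_zero]; exact hcon

end Pool.Agent.Work.MP_0d206b_gt.U

end

/-! ### U.RayFull -/

section

/-! Item 16: adding a ray keeps a set full. -/

open Set Filter Topology Function

universe u v

namespace Pool.Agent.Work.MP_0d206b_gt.U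

theorem I_RayFull (hS : StSides.{u}) (hC : StSideCases.{u}) (hN : StNear.{u}) :
    StRayFull.{u} := by
  intro X _ hX D hD φ hφ hFull h0 hDL
  obtain ⟨t₀, ht₀, hIco⟩ := hN hX D hD.conn.isPreconnected φ hφ 0 h0 hDL
  obtain ⟨hLo, hRo, -, -, hdis, -, hIio, hIoi⟩ := hS hX φ hφ 0
  obtain ⟨-, -, -, -, -, -, hclR, -, -⟩ := hC hX φ hφ 0
  have hE : D ∪ φ '' Ici 0 = D ∪ φ '' Ioi t₀ := by
    apply Set.Subset.antisymm
    · refine union_subset_union_right D (image_mono ?_)
      intro t ht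
      exact lt_of_lt_of_le ht₀ ht
    · refine union_subset subset_union_left ?_
      rintro _ ⟨t, ht, rfl⟩
      rcases lt_or_ge t 0 with h | h
      · exact Or.inl (hIco ⟨t, ⟨le_of_lt ht, h⟩, rfl⟩)
      · exact Or.inr ⟨t, h, rfl⟩
  refine ⟨?_, ?_, ?_⟩
  · rw [hE]
    exact hD.isOpen.union (hφ.isOpenMap _ isOpen_Ioi)
  · rw [hE]
    refine IsConnected.union ⟨φ (t₀ / 2), ?_, ?_⟩ hD.conn
      (isConnected_Ioi.image φ hφ.continuous.continuousOn)
    · exact hIco ⟨t₀ / 2, ⟨by linarith, by linarith⟩, rfl⟩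
    · exact ⟨t₀ / 2, by rw [mem_Ioi]; linarith, rfl⟩
  · intro z hz hzE
    have hzD : z ∉ D := fun h => hzE (Or.inl h)
    rw [closure_union] at hz
    rcases hz with hz | hz
    · obtain ⟨c, hc, hzc⟩ := hD.front z hz hzD
      exact ⟨c, Or.inl hc, hzc⟩
    · have hsub : φ '' Ici 0 ⊆ closure (R φ 0) := by
        rw [hclR]
        rintro _ ⟨t, ht, rfl⟩
        rcases (show (0 : ℝ) ≤ t from ht).lt_or_eq with h | h
        · exact Or.inr (hIoi ⟨t, h, rfl⟩)
        · left
          rw [← h]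
      have hz2 : z ∈ closure (R φ 0) := closure_minimal hsub isClosed_closure hz
      rw [hclR] at hz2
      have hz0 : z ≠ φ 0 := by
        rintro rfl
        exact hzE (Or.inr ⟨0, le_refl (0 : ℝ), rfl⟩)
      have hzR : z ∈ R φ 0 := by
        rcases hz2 with h | h
        · exact absurd h hz0
        · exact h
      have hzr : z ∉ range φ := by
        rintro ⟨t, rfl⟩
        rcases lt_or_ge t 0 with h | h
        · exact Set.disjoint_left.1 hdis (hIio ⟨t, h, rfl⟩) hzR
        · exact hzE (Or.inr ⟨t, h, rfl⟩)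
      obtain ⟨c, ⟨t, rfl⟩, hzc⟩ :=
        hFull.front z (closure_mono (image_subset_range φ _) hz) hzr
      rcases lt_or_ge t 0 with h | h
      · exfalso
        obtain ⟨w, hw1, hw2⟩ := hzc (R φ 0) (L φ 0) hRo hLo hzR (hIio ⟨t, h, rfl⟩)
        exact Set.disjoint_left.1 hdis hw2 hw1
      · exact ⟨φ t, Or.inr ⟨t, h, rfl⟩, hzc⟩

end Pool.Agent.Work.MP_0d206b_gt.U

end

/-! ### U.ReachRay -/

section

/-! Item 20: swallow a ray. -/

set_option autoImplicit false

namespace Pool.Agent.Work.MP_0d206b_gt.U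

open Set Filter Topology Function

universe u v

theorem I_ReachRay (hS : StSides.{u}) (hC : StSideCases.{u}) (hF : StFullLine.{u})
    (hSt : StStep.{u, v}) : StReachRay.{u, v} := by
  intro X Y _ _ _ _ hX hY hWX hWY e he ψ hψ b hb
  by_cases hall : ∀ s, b ≤ s → ψ s ∈ e.source
  · refine ⟨e, he, ⟨Subset.rfl, fun _ _ => rfl⟩, ?_⟩
    rintro _ ⟨s, hs, rfl⟩
    exact hall s hs
  · push Not at hall
    obtain ⟨s₁, hs₁b, hs₁⟩ := hall
    set T : Set ℝ := Ici b ∩ ψ ⁻¹' (e.source)ᶜ with hT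
    have hTne : T.Nonempty := ⟨s₁, hs₁b, hs₁⟩
    have hTc : IsClosed T :=
      isClosed_Ici.inter (e.open_source.isClosed_compl.preimage hψ.continuous)
    have hTb : BddBelow T := ⟨b, fun s hs => hs.1⟩
    have hmem : sInf T ∈ T := hTc.csInf_mem hTne hTb
    set s₀ : ℝ := sInf T with hs₀
    have hz : ψ s₀ ∉ e.source := hmem.2
    have hbs : b < s₀ := lt_of_le_of_ne hmem.1 (fun h => hz (h ▸ hb))
    have hlt : ∀ s, b ≤ s → s < s₀ → ψ s ∈ e.source := by
      intro s h1 h2
      by_contra h3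
      exact absurd (csInf_le hTb (show s ∈ T from ⟨h1, h3⟩)) (not_le.mpr h2)
    have hcl : ψ s₀ ∈ closure e.source := by
      have h1 : s₀ ∈ closure (Ico b s₀) := by
        rw [closure_Ico hbs.ne]
        exact ⟨hbs.le, le_rfl⟩
      have h2 : ψ s₀ ∈ closure (ψ '' Ico b s₀) :=
        image_closure_subset_closure_image hψ.continuous ⟨s₀, h1, rfl⟩
      refine closure_mono ?_ h2
      rintro _ ⟨s, hs, rfl⟩
      exact hlt s hs.1 hs.2
    obtain ⟨φ, hφ, hφ0, hIci, hIic, hfull⟩ := hF hX ψ hψ s₀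
    have hz' : φ 0 ∉ e.source := by rw [hφ0]; exact hz
    have hcl' : φ 0 ∈ closure e.source := by rw [hφ0]; exact hcl
    obtain ⟨hcase, -⟩ := hC hX φ hφ 0
    obtain ⟨-, -, -, -, hdisj, -, hL, -⟩ := hS hX φ hφ 0
    have hbL : ψ b ∈ L φ 0 := by
      obtain ⟨t, ht, hte⟩ := hIic ⟨b, hbs.le, rfl⟩
      have ht0 : t ≠ 0 := by
        rintro rfl
        rw [hφ0] at hte
        exact hbs.ne (hψ.injective hte).symm
      exact hL ⟨t, lt_of_le_of_ne ht ht0, hte⟩
    have hsub : e.source ⊆ L φ 0 := by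
      rcases hcase e.source he.src.conn.isPreconnected hz' with h | h
      · exact h
      · exact absurd (h hb) (Set.disjoint_left.mp hdisj hbL)
    obtain ⟨e', he', hext, hsrc⟩ := hSt hX hY hWX hWY e he φ hφ hfull hcl' hz' hsub
    refine ⟨e', he', hext, ?_⟩
    rintro _ ⟨s, hs, rfl⟩
    rw [hsrc]
    by_cases h : s < s₀
    · exact Or.inl (hlt s hs h)
    · exact Or.inr (hIci ⟨s, not_lt.mp h, rfl⟩)

end Pool.Agent.Work.MP_0d206b_gt.U

end

/-! ### U.SC1 -/

section

/-! Project MP_0d206b_gt, module U, item SC1: the leaf space of a simply connected space is a simply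
connected one-manifold. -/

set_option autoImplicit false

namespace Pool.Agent.Work.MP_0d206b_gt.U

open Set Filter Topology Function

universe u v

theorem I_SC1 (hC : StCut.{u, v}) : StSC1.{u, v} := by
  intro N X _ _ _ _ _ π hπ hfib hchart
  have hM : OneMfd X := hC π hπ hfib hchart
  refine ⟨hM.conn, ?_, ?_, hM.cut⟩
  · have hb := TopologicalSpace.isBasis_countableBasis N
    have hc := TopologicalSpace.countable_countableBasis N
    have hB : TopologicalSpace.IsTopologicalBasis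
        (Set.image π '' TopologicalSpace.countableBasis N) :=
      hb.isQuotientMap hπ.isQuotientMap hπ.isOpenMap
    exact hB.secondCountableTopology (hc.image _)
  · intro x
    obtain ⟨φ, hφ, h0⟩ := hchart x
    exact ⟨φ, hφ, ⟨0, h0⟩⟩

end Pool.Agent.Work.MP_0d206b_gt.U

end

/-! ### U.Sides -/

section

/-! Item Sides: the two sides of a point of a chart. -/

set_option autoImplicit false

namespace Pool.Agent.Work.MP_0d206b_gt.U

open Set Filter Topology Function

universe u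

namespace Sides

variable {X : Type u} [TopologicalSpace X]

lemma locConn (hc : ∀ x : X, ∃ φ : ℝ → X, IsOpenEmbedding φ ∧ φ 0 = x) :
    LocallyConnectedSpace X := by
  rw [locallyConnectedSpace_iff_subsets_isOpen_isConnected]
  intro x U hU
  obtain ⟨φ, hφ, h0⟩ := hc x
  have h1 : φ ⁻¹' U ∈ 𝓝 (0 : ℝ) := hφ.continuous.continuousAt (by rw [h0]; exact hU)
  obtain ⟨V, hVU, hV, h0V, hVc⟩ :=
    (locallyConnectedSpace_iff_subsets_isOpen_isConnected (α := ℝ)).1 inferInstance 0 _ h1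
  refine ⟨φ '' V, ?_, hφ.isOpenMap V hV, ⟨0, h0V, h0⟩, hVc.image _ hφ.continuous.continuousOn⟩
  rintro _ ⟨t, ht, rfl⟩
  exact hVU ht

lemma image_Iio (φ : ℝ → X) (hφ : IsOpenEmbedding φ) (s : ℝ) : φ '' Iio s ⊆ L φ s := by
  apply IsPreconnected.subset_connectedComponentIn
  · exact isPreconnected_Iio.image _ hφ.continuous.continuousOn
  · exact ⟨s - 1, by simp, rfl⟩
  · rintro _ ⟨t, ht, rfl⟩ h
    have := hφ.injective h
    simp only [mem_Iio] at ht
    linarith

lemma image_Ioi (φ : ℝ → X) (hφ : IsOpenEmbedding φ) (s : ℝ) : φ '' Ioi s ⊆ R φ s := by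
  apply IsPreconnected.subset_connectedComponentIn
  · exact isPreconnected_Ioi.image _ hφ.continuous.continuousOn
  · exact ⟨s + 1, by simp, rfl⟩
  · rintro _ ⟨t, ht, rfl⟩ h
    have := hφ.injective h
    simp only [mem_Ioi] at ht
    linarith

lemma meets [T1Space X] [LocallyConnectedSpace X] [ConnectedSpace X] (φ : ℝ → X)
    (hφ : IsOpenEmbedding φ) (s : ℝ) (p : X) (hp : p ≠ φ s) :
    ∃ t : ℝ, φ t ∈ side (φ s) p := by
  by_contra hcon
  push Not at hcon
  set K := side (φ s) p with hK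
  have hC : IsOpen ({φ s}ᶜ : Set X) := isOpen_compl_singleton
  have hKo : IsOpen K := hC.connectedComponentIn
  have hpK : p ∈ K := mem_connectedComponentIn hp
  have hKp : IsPreconnected K := isPreconnected_connectedComponentIn
  have hKs : K ⊆ {φ s}ᶜ := connectedComponentIn_subset _ _
  have hcl : closure K ⊆ K := by
    intro z hz
    have hzs : z ≠ φ s := by
      rintro rfl
      rw [mem_closure_iff] at hz
      obtain ⟨w, ⟨t, rfl⟩, hw⟩ := hz (range φ) hφ.isOpen_range ⟨s, rfl⟩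
      exact hcon t hw
    have h1 : IsPreconnected (insert z K) :=
      hKp.subset_closure (subset_insert _ _) (insert_subset hz subset_closure)
    have h2 : insert z K ⊆ K := by
      apply h1.subset_connectedComponentIn (mem_insert_of_mem _ hpK)
      exact insert_subset hzs hKs
    exact h2 (mem_insert _ _)
  have hclop : IsClopen K := ⟨isClosed_of_closure_subset hcl, hKo⟩
  have huniv : K = univ := hclop.eq_univ ⟨p, hpK⟩
  have : φ s ∈ K := huniv ▸ mem_univ _
  exact hKs this rfl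

end Sides

open Sides in
theorem I_Sides (hT1 : StT1.{u}) : StSides.{u} := by
  intro X _ hX φ hφ s
  haveI : T1Space X := hT1 hX.chart
  haveI : LocallyConnectedSpace X := locConn hX.chart
  haveI : ConnectedSpace X := hX.conn
  have hC : IsOpen ({φ s}ᶜ : Set X) := isOpen_compl_singleton
  have hne1 : φ (s - 1) ∈ ({φ s}ᶜ : Set X) := by
    intro h
    have := hφ.injective h
    linarith
  have hne2 : φ (s + 1) ∈ ({φ s}ᶜ : Set X) := by
    intro h
    have := hφ.injective h
    linarith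
  have hLi := image_Iio φ hφ s
  have hRi := image_Ioi φ hφ s
  have hcov : L φ s ∪ R φ s = {φ s}ᶜ := by
    apply Subset.antisymm
    · exact union_subset (connectedComponentIn_subset _ _) (connectedComponentIn_subset _ _)
    · intro p hp
      obtain ⟨t, ht⟩ := meets φ hφ s p hp
      have hpp : p ∈ side (φ s) p := mem_connectedComponentIn hp
      have e1 : side (φ s) p = side (φ s) (φ t) := connectedComponentIn_eq ht
      rcases lt_trichotomy t s with h | h | h
      · left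
        have e2 : φ t ∈ L φ s := hLi ⟨t, h, rfl⟩
        have e3 : L φ s = side (φ s) (φ t) := connectedComponentIn_eq e2
        rw [e3, ← e1]
        exact hpp
      · subst h
        exact absurd rfl ((connectedComponentIn_subset _ _) ht)
      · right
        have e2 : φ t ∈ R φ s := hRi ⟨t, h, rfl⟩
        have e3 : R φ s = side (φ s) (φ t) := connectedComponentIn_eq e2
        rw [e3, ← e1]
        exact hpp
  refine ⟨hC.connectedComponentIn, hC.connectedComponentIn,
    isConnected_connectedComponentIn_iff.2 hne1, isConnected_connectedComponentIn_iff.2 hne2,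
    ?_, hcov, hLi, hRi⟩
  rw [Set.disjoint_left]
  intro z hzL hzR
  have e1 : L φ s = side (φ s) z := connectedComponentIn_eq hzL
  have e2 : R φ s = side (φ s) z := connectedComponentIn_eq hzR
  rw [e2, ← e1, union_self] at hcov
  apply hX.cut (φ s)
  rw [← hcov]
  exact isPreconnected_connectedComponentIn

end Pool.Agent.Work.MP_0d206b_gt.U

end

/-! ### U.T1 -/

section

/-! Item T1: points are closed. -/

set_option autoImplicit false

namespace Pool.Agent.Work.MP_0d206b_gt.U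

open Set Filter Topology Function

universe u v

theorem I_T1 : StT1.{u} := by
  intro X _ hc
  rw [t1Space_iff_exists_open]
  intro y x hyx
  obtain ⟨φ, hφ, h0⟩ := hc y
  by_cases hx : x ∈ range φ
  · obtain ⟨s, hs⟩ := hx
    have hs0 : (0 : ℝ) ≠ s := by
      rintro rfl
      exact hyx (h0.symm.trans hs)
    refine ⟨φ '' {s}ᶜ, hφ.isOpenMap _ isOpen_compl_singleton, ⟨0, hs0, h0⟩, ?_⟩
    rintro ⟨t, ht, hts⟩
    exact ht (hφ.injective (hts.trans hs.symm))
  · exact ⟨range φ, hφ.isOpen_range, ⟨0, h0⟩, hx⟩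

end Pool.Agent.Work.MP_0d206b_gt.U

end

/-! ### U.Within -/

section

/-! Project MP_0d206b_gt, module U, item 5: one-sided germs. -/

set_option autoImplicit false

namespace Pool.Agent.Work.MP_0d206b_gt.U

open Set Filter Topology Function

universe u

namespace Within

variable {X : Type u} [TopologicalSpace X]

/-- The general form: if `S` contains the image of `A`, avoids the image of `B` and `s`, and
`A`, `B`, `s` cover the line, then the germs agree. -/
lemma germ {φ : ℝ → X} (hφ : IsOpenEmbedding φ) (s : ℝ) {A B : Set ℝ} {S : Set X}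
    (hA : φ '' A ⊆ S) (hB : Disjoint S (φ '' B)) (hs : φ s ∉ S)
    (hcov : ∀ t : ℝ, t ∈ A ∨ t = s ∨ t ∈ B) :
    Filter.map φ (𝓝[A] s) = 𝓝[S] (φ s) := by
  rw [hφ.isEmbedding.map_nhdsWithin_eq]
  refine nhdsWithin_eq_nhdsWithin (mem_range_self s) hφ.isOpen_range ?_
  ext x
  constructor
  · rintro ⟨h1, h2⟩
    exact ⟨hA h1, h2⟩
  · rintro ⟨h1, ⟨t, rfl⟩⟩
    refine ⟨?_, mem_range_self t⟩
    rcases hcov t with h | h | h
    · exact mem_image_of_mem φ h
    · subst h
      exact absurd h1 hs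
    · exact absurd (mem_image_of_mem φ h) (disjoint_left.1 hB h1)

end Within

/-- 5: one-sided germs. -/
theorem I_Within (hS : StSides.{u}) : StWithin.{u} := by
  intro X _ hX φ hφ s
  obtain ⟨-, -, -, -, hd, hu, hl, hr⟩ := hS hX φ hφ s
  have h1 : φ s ∉ L φ s := fun h => by
    have : φ s ∈ ({φ s}ᶜ : Set X) := hu ▸ Or.inl h
    exact this rfl
  have h2 : φ s ∉ R φ s := fun h => by
    have : φ s ∈ ({φ s}ᶜ : Set X) := hu ▸ Or.inr h
    exact this rfl
  constructor
  · refine Within.germ hφ s (B := Ioi s) hl (hd.mono_right hr) h1 ?_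
    intro t
    rcases lt_trichotomy t s with h | h | h
    · exact Or.inl h
    · exact Or.inr (Or.inl h)
    · exact Or.inr (Or.inr h)
  · refine Within.germ hφ s (B := Iio s) hr (hd.symm.mono_right hl) h2 ?_
    intro t
    rcases lt_trichotomy t s with h | h | h
    · exact Or.inr (Or.inr h)
    · exact Or.inr (Or.inl h)
    · exact Or.inl h

end Pool.Agent.Work.MP_0d206b_gt.U

end
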