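import Pool.Agent.Work.MP_0d206b_gt.Final

/-! ### G.Univ -/

section

/-!
# MP_0d206b_gt, module G: existence of simply connected coverings

A path connected space with a basis of simply connected open sets has a simply connected covering.
-/

set_option autoImplicit false

open Set Filter Topology unitInterval

noncomputable section

namespace Pool.Agent.Work.MP_0d206b_gt.Univ


open Path.Homotopic.Quotient (mk_trans mk_symm mk_map mk_surjective cast_rfl_rfl)

variable {X : Type} [TopologicalSpace X]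

/-- classes of paths -/
abbrev Q (x y : X) : Type := Path.Homotopic.Quotient x y

theorem symm_trans_eq {x y z : X} (a : Q x y) (b : Q y z) :
    (Path.Homotopic.Quotient.trans a b).symm = Path.Homotopic.Quotient.trans b.symm a.symm := by
  induction a using Path.Homotopic.Quotient.ind with | mk a =>
  induction b using Path.Homotopic.Quotient.ind with | mk b =>
  rw [← mk_trans, ← mk_symm, Path.trans_symm, mk_trans, mk_symm, mk_symm]

theorem map_trans_eq {Y : Type} [TopologicalSpace Y] (f : C(X, Y)) {x y z : X} (a : Q x y)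
    (b : Q y z) : (Path.Homotopic.Quotient.trans a b).map f = Path.Homotopic.Quotient.trans (a.map f) (b.map f) := by
  induction a using Path.Homotopic.Quotient.ind with | mk a =>
  induction b using Path.Homotopic.Quotient.ind with | mk b =>
  rw [← mk_trans, ← mk_map, ← mk_map, ← mk_map, Path.map_trans, mk_trans]

/-- two paths in a simply connected set with the same end points have the same class -/
theorem class_eq {U : Set X} (hU : SimplyConnectedSpace U) {x y : X} (p q : Path x y)
    (hp : ∀ t, p t ∈ U) (hq : ∀ t, q t ∈ U) : Path.Homotopic.Quotient.mk p = Path.Homotopic.Quotient.mk q := by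
  have hx : x ∈ U := by simpa using hp 0
  have hy : y ∈ U := by simpa using hp 1
  let p' : Path (⟨x, hx⟩ : U) ⟨y, hy⟩ :=
    { toFun := fun t => ⟨p t, hp t⟩
      continuous_toFun := p.continuous.subtype_mk hp
      source' := by simp
      target' := by simp }
  let q' : Path (⟨x, hx⟩ : U) ⟨y, hy⟩ :=
    { toFun := fun t => ⟨q t, hq t⟩
      continuous_toFun := q.continuous.subtype_mk hq
      source' := by simp
      target' := by simp }
  have h := (SimplyConnectedSpace.paths_homotopic p' q').map ⟨Subtype.val, continuous_subtype_val⟩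
  exact Path.Homotopic.Quotient.eq.2 h

/-- a path in a simply connected set -/
def conn {U : Set X} (hU : SimplyConnectedSpace U) {x y : X} (hx : x ∈ U) (hy : y ∈ U) : Path x y :=
  (PathConnectedSpace.somePath (⟨x, hx⟩ : U) ⟨y, hy⟩).map continuous_subtype_val

theorem conn_mem {U : Set X} (hU : SimplyConnectedSpace U) {x y : X} (hx : x ∈ U) (hy : y ∈ U)
    (t : I) : conn hU hx hy t ∈ U :=
  (PathConnectedSpace.somePath (⟨x, hx⟩ : U) ⟨y, hy⟩ t).2

/-- choices: a simply connected open neighbourhood of every point, a class of paths from the base point to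
every point -/
structure Data (x₀ : X) where
  U : X → Set X
  isOpen : ∀ x, IsOpen (U x)
  mem : ∀ x, x ∈ U x
  sc : ∀ x, SimplyConnectedSpace (U x)
  γ : ∀ x, Q x₀ x

variable {x₀ : X} (d : Data x₀)

namespace Data

/-- the class of paths from the base point to `y` through `U x` -/
def g (x y : X) : Q x₀ y := open Classical in
  if h : y ∈ d.U x then Path.Homotopic.Quotient.trans (d.γ x) (Path.Homotopic.Quotient.mk (conn (d.sc x) (d.mem x) h)) else d.γ y

theorem g_step (x : X) {y y' : X} (ε : Path y y') (hε : ∀ t, ε t ∈ d.U x) :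
    d.g x y' = Path.Homotopic.Quotient.trans (d.g x y) (Path.Homotopic.Quotient.mk ε) := by
  have hy : y ∈ d.U x := by simpa using hε 0
  have hy' : y' ∈ d.U x := by simpa using hε 1
  unfold g
  rw [dif_pos hy, dif_pos hy', Path.Homotopic.Quotient.trans_assoc, ← mk_trans]
  congr 1
  refine class_eq (d.sc x) _ _ (conn_mem _ _ _) ?_
  intro t
  rw [Path.trans_apply]
  split_ifs
  · exact conn_mem _ _ _ _
  · exact hε _

end Data

/-- the fibre, with the discrete topology -/
def Fib (x₀ : X) : Type := Q x₀ x₀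

instance : TopologicalSpace (Fib x₀) := ⊥

instance : DiscreteTopology (Fib x₀) := ⟨rfl⟩

/-- coordinate changes -/
def Data.cc (x x' y : X) (h : Fib x₀) : Fib x₀ :=
  Path.Homotopic.Quotient.trans (Path.Homotopic.Quotient.trans h (d.g x y)) (d.g x' y).symm

theorem cancel_aux {x y z w : X} (a : Q x y) (b : Q w y) (e : Q y z) :
    Path.Homotopic.Quotient.trans (Path.Homotopic.Quotient.trans a e) (Path.Homotopic.Quotient.trans b e).symm = Path.Homotopic.Quotient.trans a b.symm := by
  rw [symm_trans_eq, Path.Homotopic.Quotient.trans_assoc, ← Path.Homotopic.Quotient.trans_assoc e, Path.Homotopic.Quotient.trans_symm, Path.Homotopic.Quotient.refl_trans]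

/-- the bundle -/
def core (hX : ∀ x : X, ∀ U ∈ 𝓝 x, ∃ V ⊆ U, IsOpen V ∧ x ∈ V ∧ SimplyConnectedSpace V) :
    FiberBundleCore X X (Fib x₀) where
  baseSet := d.U
  isOpen_baseSet := d.isOpen
  indexAt := id
  mem_baseSet_at := d.mem
  coordChange := d.cc
  coordChange_self x y _ h := by
    unfold Data.cc
    rw [Path.Homotopic.Quotient.trans_assoc, Path.Homotopic.Quotient.trans_symm, Path.Homotopic.Quotient.trans_refl]
  continuousOn_coordChange x x' := by
    rintro ⟨y, h⟩ ⟨⟨hy, hy'⟩, -⟩
    apply ContinuousAt.continuousWithinAt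
    obtain ⟨V, hV, hVo, hyV, hVs⟩ := hX y (d.U x ∩ d.U x')
      (((d.isOpen x).inter (d.isOpen x')).mem_nhds ⟨hy, hy'⟩)
    have hev : ∀ᶠ p : X × Fib x₀ in 𝓝 (y, h), d.cc x x' y h = d.cc x x' p.1 p.2 := by
      have h1 : ∀ᶠ p : X × Fib x₀ in 𝓝 (y, h), p.1 ∈ V :=
        continuousAt_fst.eventually (hVo.mem_nhds hyV)
      have h2 : ∀ᶠ p : X × Fib x₀ in 𝓝 (y, h), p.2 = h :=
        continuousAt_snd.eventually ((isOpen_discrete {h}).mem_nhds (Set.mem_singleton h))
      filter_upwards [h1, h2] with p hp1 hp2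
      rw [hp2]
      unfold Data.cc
      have e1 := d.g_step x (conn hVs hyV hp1) fun t => (hV (conn_mem hVs hyV hp1 t)).1
      have e2 := d.g_step x' (conn hVs hyV hp1) fun t => (hV (conn_mem hVs hyV hp1 t)).2
      rw [e1, e2, ← Path.Homotopic.Quotient.trans_assoc, cancel_aux]
    exact continuousAt_const.congr hev
  coordChange_comp i j k x _ v := by
    unfold Data.cc
    rw [Path.Homotopic.Quotient.trans_assoc (Path.Homotopic.Quotient.trans v _), Path.Homotopic.Quotient.symm_trans, Path.Homotopic.Quotient.trans_refl]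

variable (hX : ∀ x : X, ∀ U ∈ 𝓝 x, ∃ V ⊆ U, IsOpen V ∧ x ∈ V ∧ SimplyConnectedSpace V)

/-- the total space -/
abbrev Tot : Type := (core d hX).TotalSpace

/-- the covering map -/
abbrev pr : Tot d hX → X := Bundle.TotalSpace.proj

theorem isCovering : IsCoveringMap (pr d hX) :=
  FiberBundle.isCoveringMap (F := Fib x₀) (E := (core d hX).Fiber)

/-- the class of paths corresponding to a point -/
def Phi (e : Tot d hX) : Q x₀ e.1 := Path.Homotopic.Quotient.trans (e.2 : Q x₀ x₀) (d.g e.1 e.1)

/-- the point with given class -/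
def pt (x : X) (c : Q x₀ x) : Tot d hX := ⟨x, Path.Homotopic.Quotient.trans c (d.g x x).symm⟩

theorem Phi_pt (x : X) (c : Q x₀ x) : Phi d hX (pt d hX x c) = c := by
  show Path.Homotopic.Quotient.trans (Path.Homotopic.Quotient.trans c (d.g x x).symm) (d.g x x) = c
  rw [Path.Homotopic.Quotient.trans_assoc, Path.Homotopic.Quotient.symm_trans, Path.Homotopic.Quotient.trans_refl]

theorem pt_Phi (e : Tot d hX) : pt d hX e.1 (Phi d hX e) = e := by
  obtain ⟨x, a⟩ := e
  show (⟨x, Path.Homotopic.Quotient.trans (Path.Homotopic.Quotient.trans (a : Q x₀ x₀) (d.g x x)) (d.g x x).symm⟩ : Tot d hX) = ⟨x, a⟩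
  rw [Path.Homotopic.Quotient.trans_assoc, Path.Homotopic.Quotient.trans_symm, Path.Homotopic.Quotient.trans_refl]

theorem localTriv_snd (i : X) (e : Tot d hX) :
    ((core d hX).localTriv i e).2 = Path.Homotopic.Quotient.trans (Phi d hX e) (d.g i e.1).symm := rfl

instance : SimplyConnectedSpace I := by
  have : ContractibleSpace I := (convex_Icc (0 : ℝ) 1).contractibleSpace ⟨0, by simp⟩
  infer_instance

/-- the segment from `t₀` to `t` in the unit interval -/
def seg (t₀ t : I) : Path t₀ t where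
  toFun u := ⟨(1 - (u : ℝ)) * t₀ + u * t, by
    constructor
    · have := u.2.1; have := u.2.2; have := t₀.2.1; have := t.2.1
      nlinarith
    · have := u.2.1; have := u.2.2; have := t₀.2.2; have := t.2.2
      nlinarith⟩
  continuous_toFun := by fun_prop
  source' := by simp
  target' := by simp

theorem seg_dist (t₀ t u : I) : dist (seg t₀ t u) t₀ ≤ dist t t₀ := by
  rw [Subtype.dist_eq, Subtype.dist_eq, Real.dist_eq, Real.dist_eq]
  have h : ((seg t₀ t u : I) : ℝ) - t₀ = u * ((t : ℝ) - t₀) := by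
    show (1 - (u : ℝ)) * t₀ + u * t - t₀ = u * ((t : ℝ) - t₀)
    ring
  rw [h, abs_mul, abs_of_nonneg u.2.1]
  exact mul_le_of_le_one_left (abs_nonneg _) u.2.2

/-- the class of the restriction of a path to `[0, t]` -/
def cl (γ : C(I, X)) (t : I) : Q (γ 0) (γ t) := (Path.Homotopic.Quotient.mk (seg 0 t)).map γ

theorem cl_step (γ : C(I, X)) (t₀ t : I) :
    cl γ t = Path.Homotopic.Quotient.trans (cl γ t₀) (Path.Homotopic.Quotient.mk ((seg t₀ t).map γ.continuous)) := by
  unfold cl
  rw [show (Path.Homotopic.Quotient.mk ((seg t₀ t).map γ.continuous) : Q (γ t₀) (γ t)) = (Path.Homotopic.Quotient.mk (seg t₀ t)).map γ from mk_map _ _,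
    ← map_trans_eq]
  congr 1
  exact Subsingleton.elim _ _

/-- the lift of a path -/
def lft (γ : C(I, X)) (ω : Q x₀ (γ 0)) (t : I) : Tot d hX :=
  pt d hX (γ t) (Path.Homotopic.Quotient.trans ω (cl γ t))

theorem continuous_lft (γ : C(I, X)) (ω : Q x₀ (γ 0)) : Continuous (lft d hX γ ω) := by
  rw [continuous_iff_continuousAt]
  intro t₀
  rw [FiberBundle.continuousAt_totalSpace]
  refine ⟨γ.continuous.continuousAt, ?_⟩
  have hop : (γ ⁻¹' d.U (γ t₀)) ∈ 𝓝 t₀ :=
    γ.continuous.continuousAt.preimage_mem_nhds ((d.isOpen _).mem_nhds (d.mem _))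
  obtain ⟨r, hr, hball⟩ := Metric.mem_nhds_iff.1 hop
  have hev : ∀ᶠ t in 𝓝 t₀, Path.Homotopic.Quotient.trans (Path.Homotopic.Quotient.trans ω (cl γ t₀)) (d.g (γ t₀) (γ t₀)).symm =
      ((core d hX).localTriv (γ t₀) (lft d hX γ ω t)).2 := by
    filter_upwards [Metric.ball_mem_nhds t₀ hr] with t ht
    rw [localTriv_snd]
    unfold lft
    rw [Phi_pt]
    have hε : ∀ u, (seg t₀ t).map γ.continuous u ∈ d.U (γ t₀) := fun u =>
      hball ((seg_dist t₀ t u).trans_lt ht)
    have e1 := d.g_step (γ t₀) ((seg t₀ t).map γ.continuous) hε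
    show _ = Path.Homotopic.Quotient.trans (Path.Homotopic.Quotient.trans ω (cl γ t)) (d.g (γ t₀) (γ t)).symm
    rw [e1, cl_step γ t₀ t, ← Path.Homotopic.Quotient.trans_assoc, cancel_aux]
  exact continuousAt_const.congr hev

theorem cl_zero (γ : C(I, X)) : cl γ 0 = Path.Homotopic.Quotient.refl (γ 0) := by
  unfold cl
  rw [Subsingleton.elim (Path.Homotopic.Quotient.mk (seg 0 0)) (Path.Homotopic.Quotient.refl (0 : I))]
  rfl

/-- the key formula -/
theorem Phi_path (Γ : C(I, Tot d hX)) (t : I) :
    Phi d hX (Γ t) = Path.Homotopic.Quotient.trans (Phi d hX (Γ 0))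
      (cl ((⟨pr d hX, (isCovering d hX).continuous⟩ : C(Tot d hX, X)).comp Γ) t) := by
  set γ : C(I, X) := (⟨pr d hX, (isCovering d hX).continuous⟩ : C(Tot d hX, X)).comp Γ with hγ
  have h : (Γ : I → Tot d hX) = lft d hX γ (Phi d hX (Γ 0)) := by
    refine (isCovering d hX).eq_of_comp_eq Γ.continuous (continuous_lft d hX γ _) rfl 0 ?_
    unfold lft
    rw [cl_zero]
    rw [Path.Homotopic.Quotient.trans_refl]
    exact (pt_Phi d hX (Γ 0)).symm
  have h1 : Γ t = pt d hX (γ t) (Path.Homotopic.Quotient.trans (Phi d hX (Γ 0)) (cl γ t)) := congrFun h t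
  have key : ∀ (e : Tot d hX) (c : Q x₀ e.1), e = pt d hX e.1 c → Phi d hX e = c := by
    rintro ⟨x, a⟩ c hc
    have h2 : a = Path.Homotopic.Quotient.trans c (d.g x x).symm := by
      have := (Bundle.TotalSpace.mk.injEq (F := Fib x₀) (E := (core d hX).Fiber) x a x
        (Path.Homotopic.Quotient.trans c (d.g x x).symm)).mp hc
      exact eq_of_heq this.2
    show Path.Homotopic.Quotient.trans (a : Q x₀ x₀) (d.g x x) = c
    rw [h2, Path.Homotopic.Quotient.trans_assoc, Path.Homotopic.Quotient.symm_trans, Path.Homotopic.Quotient.trans_refl]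
  exact key (Γ t) _ h1

theorem cl_path {x y : X} (p : Path x y) (γ : C(I, X)) (h : ∀ t, γ t = p t) :
    Path.Homotopic.Quotient.mk p = ((cl γ 1).cast (by rw [h 0]; simp) (by rw [h 1]; simp)) := by
  obtain ⟨p, h0, h1⟩ := p
  subst h0 h1
  have hp : p = γ := by
    ext t
    exact (h t).symm
  subst hp
  rw [cast_rfl_rfl]
  unfold cl
  rw [Subsingleton.elim (Path.Homotopic.Quotient.mk (seg 0 1)) (Path.Homotopic.Quotient.mk (⟨ContinuousMap.id I, rfl, rfl⟩ : Path (0 : I) 1)), ← mk_map]
  rfl

theorem loop_trivial {p : Tot d hX} (Γ : Path p p) : Path.Homotopic Γ (Path.refl p) := by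
  rw [← Path.Homotopic.Quotient.eq]
  apply (isCovering d hX).injective_path_homotopic_map p p
  show (Path.Homotopic.Quotient.mk Γ).map _ = (Path.Homotopic.Quotient.mk (Path.refl p)).map _
  rw [← mk_map, ← mk_map]
  set f : C(Tot d hX, X) := ⟨pr d hX, (isCovering d hX).continuous⟩ with hf
  have h1 := Phi_path d hX Γ.toContinuousMap 1
  have h2 : Path.Homotopic.Quotient.mk (Γ.map f.continuous) = Path.Homotopic.Quotient.refl (pr d hX p) := by
    obtain ⟨Γ, h0, h1'⟩ := Γ
    subst h0
    have h3 : Phi d hX (Γ 1) = Path.Homotopic.Quotient.trans (Phi d hX (Γ 0)) (cl (f.comp Γ) 1) := h1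
    have h4 : ∀ (e : Tot d hX) (he : e = Γ 0) (c : Q (pr d hX (Γ 0)) (pr d hX e)),
        Phi d hX e = Path.Homotopic.Quotient.trans (Phi d hX (Γ 0)) c →
        c.cast rfl (by rw [he]) = Path.Homotopic.Quotient.refl (pr d hX (Γ 0)) := by
      rintro e rfl c hc
      rw [cast_rfl_rfl]
      calc c = Path.Homotopic.Quotient.trans (Path.Homotopic.Quotient.trans (Phi d hX (Γ 0)).symm (Phi d hX (Γ 0))) c := by
            rw [Path.Homotopic.Quotient.symm_trans, Path.Homotopic.Quotient.refl_trans]
        _ = Path.Homotopic.Quotient.trans (Phi d hX (Γ 0)).symm (Phi d hX (Γ 0)) := by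
            rw [Path.Homotopic.Quotient.trans_assoc, ← hc]
        _ = _ := Path.Homotopic.Quotient.symm_trans _
    have h5 := h4 (Γ 1) h1' (cl (f.comp Γ) 1) h3
    rw [cl_path _ (f.comp Γ) (fun t => rfl)]
    exact h5
  rw [h2]
  rfl

theorem joined_aux {y : X} (γ : Path x₀ y) :
    Joined (pt d hX x₀ (Path.Homotopic.Quotient.refl x₀)) (pt d hX y (Path.Homotopic.Quotient.mk γ)) := by
  obtain ⟨γ, h0, h1⟩ := γ
  subst h1
  have key : ∀ (ω : Q x₀ (γ 0)), Joined (pt d hX (γ 0) ω) (pt d hX (γ 1) (Path.Homotopic.Quotient.trans ω (cl γ 1))) := by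
    intro ω
    refine ⟨⟨⟨lft d hX γ ω, continuous_lft d hX γ ω⟩, ?_, rfl⟩⟩
    show pt d hX (γ 0) (Path.Homotopic.Quotient.trans ω (cl γ 0)) = pt d hX (γ 0) ω
    rw [cl_zero, Path.Homotopic.Quotient.trans_refl]
  have h0' : γ 0 = x₀ := h0
  have h2 := key ((Path.Homotopic.Quotient.refl x₀).cast rfl h0')
  have h3 : ∀ (x : X) (hx : x = x₀), pt d hX x ((Path.Homotopic.Quotient.refl x₀).cast rfl hx) =
      pt d hX x₀ (Path.Homotopic.Quotient.refl x₀) := by
    rintro x rfl
    rw [cast_rfl_rfl]
  rw [h3 (γ 0) h0'] at h2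
  have h4 : Path.Homotopic.Quotient.trans ((Path.Homotopic.Quotient.refl x₀).cast rfl h0') (cl γ 1) =
      Path.Homotopic.Quotient.mk ⟨γ, h0, rfl⟩ := by
    rw [cl_path ⟨γ, h0, rfl⟩ γ (fun t => rfl)]
    have h5 : ∀ (x : X) (hx : x = x₀) (c : Q x (γ 1)),
        Path.Homotopic.Quotient.trans ((Path.Homotopic.Quotient.refl x₀).cast rfl hx) c = c.cast hx.symm rfl := by
      rintro x rfl c
      rw [cast_rfl_rfl, cast_rfl_rfl, Path.Homotopic.Quotient.refl_trans]
    exact h5 (γ 0) h0' _
  rw [h4] at h2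
  exact h2

theorem simply : SimplyConnectedSpace (Tot d hX) := by
  rw [simply_connected_iff_loops_nullhomotopic]
  refine ⟨?_, fun p Γ => loop_trivial d hX Γ⟩
  have hj : ∀ e : Tot d hX, Joined (pt d hX x₀ (Path.Homotopic.Quotient.refl x₀)) e := by
    intro e
    obtain ⟨γ, hγ⟩ := mk_surjective (Phi d hX e)
    have h := joined_aux d hX γ
    rw [hγ, pt_Phi] at h
    exact h
  exact { nonempty := ⟨pt d hX x₀ (Path.Homotopic.Quotient.refl x₀)⟩
          joined := fun a b => (hj a).symm.trans (hj b) }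

/-- a path connected space with a basis of simply connected open sets has a simply connected covering -/
theorem exists_univ (X : Type) [TopologicalSpace X] [PathConnectedSpace X]
    (hX : ∀ x : X, ∀ U ∈ 𝓝 x, ∃ V ⊆ U, IsOpen V ∧ x ∈ V ∧ SimplyConnectedSpace V) :
    ∃ (T : Type) (t : TopologicalSpace T) (p : T → X), @SimplyConnectedSpace T t ∧
      @IsCoveringMap T X t _ p := by
  obtain ⟨x₀⟩ : Nonempty X := inferInstance
  have h : ∀ x : X, ∃ V : Set X, IsOpen V ∧ x ∈ V ∧ SimplyConnectedSpace V := fun x => by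
    obtain ⟨V, -, h1, h2, h3⟩ := hX x univ univ_mem
    exact ⟨V, h1, h2, h3⟩
  choose U hU1 hU2 hU3 using h
  let d : Data x₀ := ⟨U, hU1, hU2, hU3, fun x => Path.Homotopic.Quotient.mk (PathConnectedSpace.somePath x₀ x)⟩
  exact ⟨Tot d hX, inferInstance, pr d hX, simply d hX, isCovering d hX⟩

end Pool.Agent.Work.MP_0d206b_gt.Univ

end

end

/-! ### G.Charts -/

section

/-! MP_0d206b_gt, module G: closed 3-manifolds are path connected and have a basis of simply connected open sets
(chart balls). -/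

set_option autoImplicit false

open Set Filter Topology
open scoped Manifold ContDiff

namespace Pool.Agent.Work.MP_0d206b_gt.G

theorem locPath (M : Closed3) : LocallyPathConnectedSpace M :=
  ChartedSpace.locallyPathConnectedSpace E M

theorem pathConn (M : Closed3) : PathConnectedSpace M := by
  haveI := locPath M
  exact pathConnectedSpace_iff_connectedSpace.mpr M.conn

/-- every neighbourhood of a point contains a simply connected open neighbourhood (a chart ball) -/
theorem sc_basis {X : Type} [TopologicalSpace X] [ChartedSpace E X] (x : X) (U : Set X) (hU : U ∈ 𝓝 x) :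
    ∃ V : Set X, V ⊆ U ∧ IsOpen V ∧ x ∈ V ∧ SimplyConnectedSpace V := by
  set φ := chartAt E x with hφ
  have hx : x ∈ φ.source := mem_chart_source E x
  have hn : φ.target ∩ φ.symm ⁻¹' U ∈ 𝓝 (φ x) := by
    refine inter_mem (φ.open_target.mem_nhds (φ.map_source hx)) ?_
    apply φ.continuousAt_symm (φ.map_source hx)
    rw [φ.left_inv hx]
    exact hU
  obtain ⟨r, hr, hB⟩ := Metric.mem_nhds_iff.1 hn
  have hBt : Metric.ball (φ x) r ⊆ φ.symm.source := fun y hy => (hB hy).1
  refine ⟨φ.symm '' Metric.ball (φ x) r, ?_, ?_, ?_, ?_⟩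
  · rintro _ ⟨y, hy, rfl⟩
    exact (hB hy).2
  · exact φ.symm.isOpen_image_of_subset_source Metric.isOpen_ball hBt
  · exact ⟨φ x, Metric.mem_ball_self hr, φ.left_inv hx⟩
  · haveI : ContractibleSpace (Metric.ball (φ x) r) :=
      (convex_ball (φ x) r).contractibleSpace ⟨φ x, Metric.mem_ball_self hr⟩
    exact (φ.symm.homeomorphOfImageSubsetSource hBt rfl).symm.toHomotopyEquiv.simplyConnectedSpace

/-- the topological theorem of module G -/
def StUniv : Prop := ∀ (X : Type) [TopologicalSpace X] [PathConnectedSpace X],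
  (∀ x : X, ∀ U ∈ 𝓝 x, ∃ V : Set X, V ⊆ U ∧ IsOpen V ∧ x ∈ V ∧ SimplyConnectedSpace V) →
  ∃ (T : Type) (_ : TopologicalSpace T) (p : T → X), SimplyConnectedSpace T ∧ IsCoveringMap p

/-- universal covers of closed 3-manifolds exist -/
theorem gu (h : StUniv) : ∀ M : Closed3, Nonempty (UnivCover M) := by
  intro M
  haveI := pathConn M
  obtain ⟨T, tT, p, hT, hp⟩ := h M (fun x U hU => sc_basis x U hU)
  exact ⟨{ carrier := T, proj := p, isCovering := hp }⟩

end Pool.Agent.Work.MP_0d206b_gt.G

end

/-! ### G.GU -/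

section

/-! MP_0d206b_gt, module G: universal covers of closed 3-manifolds exist. -/

set_option autoImplicit false

namespace Pool.Agent.Work.MP_0d206b_gt.G

/-- universal covers of closed 3-manifolds exist (`StGU` of `Main.lean`) -/
theorem I_GU : ∀ M : Closed3, Nonempty (UnivCover M) := by
  apply gu
  intro X _ _ h
  obtain ⟨T, t, p, h1, h2⟩ := Pool.Agent.Work.MP_0d206b_gt.Univ.exists_univ X
    (fun x U hU => h x U hU)
  exact ⟨T, t, p, h1, h2⟩

end Pool.Agent.Work.MP_0d206b_gt.G

end
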