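import Pool.Agent.Work.MP_0d206b_gt.Bd.StD

/-! ### D.DA -/

section

/-! Project MP_0d206b_gt, module D: the structure `DA` is inhabited. -/

set_option autoImplicit false

open Set Filter Topology Function
open scoped ContDiff

noncomputable section

namespace Pool.Agent.Work.MP_0d206b_gt.D

theorem I_DA (hg1 : StGam1) (hf : StFData) (h5 : StD5) (hp : StPData) (hs : StStrips)
    (hd : StDens) (ht : StTend) (hdi : StDistort) (hS : StS) (hx : StDxPsi) : StDA := by
  have _ := hg1
  obtain ⟨f⟩ := hf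
  obtain ⟨p, hpf⟩ := hp f
  obtain ⟨s1, s2, s3⟩ := hs p
  obtain ⟨S1, S2, S3, S4, S5, _⟩ := hS p.toFData
  exact ⟨{
    F := p.F
    Finv := p.Finv
    Psi := p.Psi
    S := SS p.toFData
    F_smooth := p.smooth
    Finv_smooth := p.smooth_inv
    F_Finv := p.F_Finv
    Finv_F := p.Finv_F
    F_fst := p.fst
    F_add := p.add
    F_zero := p.toFData.zero
    dyF_pos := p.toFData.dy_pos
    contr := fun z hz => (h5 p.toFData z hz).2.1
    away := fun z hz => (h5 p.toFData z hz).2.2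
    Psi_smooth := p.Psi_smooth
    Psi_fst := p.Psi_fst
    dyPsi_pos := p.dyPsi_pos
    dyPsi_le := p.dyPsi_le
    F_Psi := p.F_Psi
    Psi_near := ⟨r1, by unfold r1; norm_num, fun v hv => p.Psi_near v (mem_B_of_norm_le hv.le)⟩
    Psi_bdd := p.Psi_bdd
    strips_disj := s2
    order := s3
    dens := hd p
    dyPsi_tendsto := ht p
    distort := hdi p
    S_cont := S1
    S_bdd := S2
    S_add := S3
    S_lip := S4
    S_F := S5
    dxPsi := hx p }⟩

end Pool.Agent.Work.MP_0d206b_gt.D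

end

end

/-! ### D.FK -/

section

/-! Project MP_0d206b_gt, module D: the estimates for the map `FK K`. -/

set_option autoImplicit false

open Set Filter Topology Function
open scoped ContDiff

noncomputable section

namespace Pool.Agent.Work.MP_0d206b_gt.D

namespace FK

variable (K : KData)

theorem smooth (hd : ContDiff ℝ ∞ (HK K)) : ContDiff ℝ ∞ (FK K) :=
  (contDiff_const.mul contDiff_fst).prodMk ((contDiff_const.mul contDiff_snd).add hd)

/-- the vertical derivative from a local formula for the perturbation -/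
theorem dy_eq (hd : ContDiff ℝ ∞ (HK K)) (z : P2) {h : ℝ → ℝ} {h' : ℝ}
    (hh : HasDerivAt h h' z.2) (hev : ∀ᶠ t in 𝓝 z.2, HK K (z.1, t) = h t) :
    dy (FK K) z = lam⁻¹ + h' := by
  have h1 : DifferentiableAt ℝ (FK K) (z.1, z.2) := ((smooth K hd).differentiable (by simp)) _
  have h2 : HasDerivAt (fun s => (FK K (z.1, s)).2) (dy (FK K) (z.1, z.2)) z.2 := hasDerivAt_dy h1
  have h3 : HasDerivAt (fun s => lam⁻¹ * s + h s) (lam⁻¹ + h') z.2 := by
    have h4 : HasDerivAt (fun s : ℝ => lam⁻¹ * s) (lam⁻¹ * 1) z.2 := (hasDerivAt_id z.2).const_mul _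
    rw [mul_one] at h4
    exact h4.add hh
  have h5 : (fun s => (FK K (z.1, s)).2) =ᶠ[𝓝 z.2] fun s => lam⁻¹ * s + h s := by
    filter_upwards [hev] with t ht
    show lam⁻¹ * t + HK K (z.1, t) = lam⁻¹ * t + h t
    rw [ht]
  have h6 := h3.congr_of_eventuallyEq h5
  exact h2.unique h6

/-- the two cases -/
theorem key (h2 : StHK) (z : P2) :
    (∃ m ∈ Gam, HK K z = K.chi (z.1 - m.1) * K.kap (z.2 - m.2) ∧
      dy (FK K) z = lam⁻¹ + K.chi (z.1 - m.1) * deriv K.kap (z.2 - m.2)) ∨
    (HK K z = 0 ∧ dy (FK K) z = lam⁻¹) := by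
  obtain ⟨hloc, hzero, -, hd⟩ := h2 K
  by_cases hex : ∃ m ∈ Gam, ‖z - m‖ < 1 / 2
  · left
    obtain ⟨m, hm, hlt⟩ := hex
    have hform : ∀ w : P2, ‖w - m‖ ≤ 1 / 2 → HK K w = K.chi (w.1 - m.1) * K.kap (w.2 - m.2) := by
      intro w hw
      have h3 := hloc m hm (w - m) hw
      rw [add_sub_cancel] at h3
      exact h3
    refine ⟨m, hm, hform z hlt.le, ?_⟩
    have hk : HasDerivAt (fun t => K.chi (z.1 - m.1) * K.kap (t - m.2))
        (K.chi (z.1 - m.1) * deriv K.kap (z.2 - m.2)) z.2 := by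
      have h5 : HasDerivAt K.kap (deriv K.kap (z.2 - m.2)) (z.2 - m.2) :=
        ((K.kap_smooth.differentiable (by simp)) _).hasDerivAt
      exact (h5.comp_sub_const z.2 m.2).const_mul _
    refine dy_eq K hd z hk ?_
    have hc : Continuous fun t : ℝ => ‖((z.1, t) : P2) - m‖ :=
      ((continuous_const.prodMk continuous_id).sub continuous_const).norm
    have hev : ∀ᶠ t in 𝓝 z.2, ‖((z.1, t) : P2) - m‖ < 1 / 2 :=
      hc.continuousAt.eventually (gt_mem_nhds hlt)
    filter_upwards [hev] with t ht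
    exact hform (z.1, t) ht.le
  · right
    push Not at hex
    have hdist : ∀ w : P2, dist w z ≤ 1 / 10 → HK K w = 0 := by
      intro w hw
      refine hzero w fun m hm => ?_
      have h3 := hex m hm
      rw [← dist_eq_norm] at h3
      have h4 := dist_triangle z w m
      rw [dist_comm z w] at h4
      linarith
    refine ⟨hdist z (by rw [dist_self]; norm_num), ?_⟩
    have hk : HasDerivAt (fun _ : ℝ => (0 : ℝ)) 0 z.2 := hasDerivAt_const _ _
    rw [dy_eq K hd z hk, add_zero]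
    have hc : Continuous fun t : ℝ => dist ((z.1, t) : P2) z :=
      (continuous_const.prodMk continuous_id).dist continuous_const
    have hev : ∀ᶠ t in 𝓝 z.2, dist ((z.1, t) : P2) z < 1 / 10 := by
      refine hc.continuousAt.eventually (gt_mem_nhds ?_)
      show dist ((z.1, z.2) : P2) z < 1 / 10
      rw [dist_self]
      norm_num
    filter_upwards [hev] with t ht
    exact hdist (z.1, t) ht.le

/-- membership in the box `m + λ B` -/
theorem mem_Q {z m : P2} (hm : m ∈ Gam) (h1 : |z.1 - m.1| ≤ 2 / 5) (h2 : |z.2 - m.2| ≤ lam * r1) :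
    z ∈ Q := by
  have hl := laminv_pos
  refine ⟨m, hm, lam⁻¹ • (z - m), ⟨?_, ?_⟩, ?_⟩
  · show |lam⁻¹ * (z.1 - m.1)| ≤ a0
    rw [abs_mul, abs_of_pos hl, a0, div_eq_inv_mul]
    exact mul_le_mul_of_nonneg_left h1 hl.le
  · show |lam⁻¹ * (z.2 - m.2)| ≤ r1
    rw [abs_mul, abs_of_pos hl]
    calc lam⁻¹ * |z.2 - m.2| ≤ lam⁻¹ * (lam * r1) := mul_le_mul_of_nonneg_left h2 hl.le
      _ = r1 := inv_mul_cancel_left₀ lam_ne r1
  · rw [smul_smul, mul_inv_cancel₀ lam_ne, one_smul, add_sub_cancel]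

theorem add (h2 : StHK) (z m : P2) (hm : m ∈ Gam) :
    FK K (z + m) = FK K z + Lz 1 m := by
  have h3 := (h2 K).2.2.1 z m hm
  refine Prod.ext ?_ ?_
  · show lam * (z.1 + m.1) = lam * z.1 + lam ^ (1 : ℤ) * m.1
    rw [zpow_one, mul_add]
  · show lam⁻¹ * (z.2 + m.2) + HK K (z + m) = lam⁻¹ * z.2 + HK K z + lam ^ (-1 : ℤ) * m.2
    rw [h3, zpow_neg, zpow_one]
    ring

theorem lin (h2 : StHK) (v : P2) (hv : v ∈ B) : FK K v = lam • v := by
  have hn : ‖v‖ ≤ 1 / 2 := by
    rw [Prod.norm_def, Real.norm_eq_abs, Real.norm_eq_abs]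
    refine max_le (hv.1.trans ?_) (hv.2.trans ?_)
    · unfold a0
      rw [div_le_iff₀ lam_pos]
      linarith [lam_gt]
    · unfold r1
      norm_num
  have h3 := (h2 K).1 0 Gam.zero_mem v hn
  rw [zero_add, K.chi_one _ hv.1, K.kap_lin _ hv.2] at h3
  refine Prod.ext rfl ?_
  show lam⁻¹ * v.2 + HK K v = lam * v.2
  rw [h3]
  ring

end FK

theorem I_FK (_h1 : StGam1) (h2 : StHK) : StFK := by
  intro K
  have hlp := laminv_pos
  have hlt := laminv_lt
  have hlg := lam_gt
  refine ⟨FK.smooth K (h2 K).2.2.2, fun z m hm => FK.add K h2 z m hm, FK.lin K h2, ?_, ?_, ?_, ?_⟩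
  · intro z
    rcases FK.key K h2 z with ⟨m, hm, -, h⟩ | ⟨-, h⟩
    · rw [h]
      have h3 := K.chi_nonneg (z.1 - m.1)
      have h4 := K.chi_le (z.1 - m.1)
      have h5 := K.kap_deriv_ge (z.2 - m.2)
      have h6 := mul_le_mul_of_nonneg_left h5 h3
      have h7 : K.chi (z.1 - m.1) * (lam⁻¹ / 2) ≤ 1 * (lam⁻¹ / 2) :=
        mul_le_mul_of_nonneg_right h4 (by linarith)
      linarith
    · rw [h]
      linarith
  · intro z
    rcases FK.key K h2 z with ⟨m, hm, -, h⟩ | ⟨-, h⟩
    · rw [h]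
      have h3 := K.chi_nonneg (z.1 - m.1)
      have h4 := K.chi_le (z.1 - m.1)
      have h5 := K.kap_deriv_le (z.2 - m.2)
      have h6 := mul_le_mul_of_nonneg_left h5 h3
      have h7 : K.chi (z.1 - m.1) * (lam - lam⁻¹) ≤ 1 * (lam - lam⁻¹) :=
        mul_le_mul_of_nonneg_right h4 (by linarith)
      linarith
    · rw [h]
      linarith
  · intro z hz
    rcases FK.key K h2 z with ⟨m, hm, -, h⟩ | ⟨-, h⟩
    · rw [h]
      by_cases hx : |z.1 - m.1| ≤ 2 / 5
      · have hy : lam * r1 ≤ |z.2 - m.2| := by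
          by_contra hcon
          exact hz (FK.mem_Q hm hx (not_le.1 hcon).le)
        have h5 := K.kap_deriv_out _ hy
        have h6 := mul_nonpos_of_nonneg_of_nonpos (K.chi_nonneg (z.1 - m.1)) h5
        linarith
      · rw [K.chi_zero _ (not_le.1 hx).le]
        linarith
    · rw [h]
  · intro z
    show |lam⁻¹ * z.2 + HK K z - lam⁻¹ * z.2| ≤ 1 / 20
    rw [add_sub_cancel_left]
    rcases FK.key K h2 z with ⟨m, hm, h, -⟩ | ⟨h, -⟩
    · rw [h, abs_mul, abs_of_nonneg (K.chi_nonneg _)]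
      calc K.chi (z.1 - m.1) * |K.kap (z.2 - m.2)| ≤ 1 * (1 / 20) :=
            mul_le_mul (K.chi_le _) (K.kap_bdd _) (abs_nonneg _) zero_le_one
        _ = 1 / 20 := one_mul _
    · rw [h, abs_zero]
      norm_num

end Pool.Agent.Work.MP_0d206b_gt.D

end

end

/-! ### D.GamTop -/

section

/-! Project MP_0d206b_gt, module D, item GamTop: topology of the lattice and of its complement. -/

set_option autoImplicit false

open Set Filter Topology Function

noncomputable section

namespace Pool.Agent.Work.MP_0d206b_gt.D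

namespace GamTop

/-- parametrisation of the lattice -/
def par (p : ℤ × ℤ) : P2 :=
  ((p.1 : ℝ) + p.2 * Real.goldenRatio, (p.1 : ℝ) + p.2 * Real.goldenConj)

theorem gam_eq : (Gam : Set P2) = range par := by
  ext m
  constructor
  · rintro ⟨i, j, rfl⟩
    exact ⟨(i, j), rfl⟩
  · rintro ⟨⟨i, j⟩, rfl⟩
    exact ⟨i, j, rfl⟩

theorem countable : (Gam : Set P2).Countable := by
  rw [gam_eq]
  exact countable_range par

theorem bound (i j : ℤ) (M : ℝ) (h1 : |(i : ℝ) + j * Real.goldenRatio| ≤ M)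
    (h2 : |(i : ℝ) + j * Real.goldenConj| ≤ M) : |(i : ℝ)| ≤ 3 * M ∧ |(j : ℝ)| ≤ 3 * M := by
  have hs : Real.goldenRatio - Real.goldenConj = Real.sqrt 5 := Real.goldenRatio_sub_goldenConj
  have h5 := sqrt5_gt
  have hM : 0 ≤ M := (abs_nonneg _).trans h1
  have hj : |(j : ℝ)| * Real.sqrt 5 ≤ 2 * M := by
    have e : (j : ℝ) * Real.sqrt 5 = ((i : ℝ) + j * Real.goldenRatio) - (i + j * Real.goldenConj) := by
      rw [← hs]; ring
    calc |(j : ℝ)| * Real.sqrt 5 = |(j : ℝ) * Real.sqrt 5| := by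
          rw [abs_mul, abs_of_nonneg (Real.sqrt_nonneg 5)]
      _ ≤ |(i : ℝ) + j * Real.goldenRatio| + |(i : ℝ) + j * Real.goldenConj| := by
          rw [e]
          exact abs_sub _ _
      _ ≤ 2 * M := by linarith
  have hj' : |(j : ℝ)| ≤ M := by
    have h0 := abs_nonneg (j : ℝ)
    nlinarith
  have hc : |Real.goldenConj| ≤ 1 := by
    rw [abs_of_neg Real.goldenConj_neg]
    linarith [Real.neg_one_lt_goldenConj]
  refine ⟨?_, by linarith⟩
  calc |(i : ℝ)| = |((i : ℝ) + j * Real.goldenConj) - j * Real.goldenConj| := by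
        congr 1
        ring
    _ ≤ |(i : ℝ) + j * Real.goldenConj| + |(j : ℝ) * Real.goldenConj| := abs_sub _ _
    _ ≤ M + M * 1 := by
        rw [abs_mul]
        gcongr
    _ ≤ 3 * M := by linarith

theorem finite (z : P2) (R : ℝ) : {m : P2 | m ∈ Gam ∧ dist m z ≤ R}.Finite := by
  set M : ℝ := ‖z‖ + R with hMdef
  have hfin : ((Set.Icc (-⌈3 * M⌉) ⌈3 * M⌉) ×ˢ (Set.Icc (-⌈3 * M⌉) ⌈3 * M⌉) : Set (ℤ × ℤ)).Finite :=
    (Set.finite_Icc _ _).prod (Set.finite_Icc _ _)
  refine (hfin.image par).subset ?_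
  rintro m ⟨⟨i, j, rfl⟩, hm⟩
  have hn : ‖((i : ℝ) + j * Real.goldenRatio, (i : ℝ) + j * Real.goldenConj)‖ ≤ M := by
    have h1 : ‖((i : ℝ) + j * Real.goldenRatio, (i : ℝ) + j * Real.goldenConj)‖ ≤
        ‖((i : ℝ) + j * Real.goldenRatio, (i : ℝ) + j * Real.goldenConj) - z‖ + ‖z‖ := by
      have := norm_add_le (((i : ℝ) + j * Real.goldenRatio, (i : ℝ) + j * Real.goldenConj) - z) z
      rwa [sub_add_cancel] at this
    rw [dist_eq_norm] at hm
    rw [hMdef]
    linarith
  have h1 := (norm_fst_le _).trans hn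
  have h2 := (norm_snd_le _).trans hn
  rw [Real.norm_eq_abs] at h1 h2
  obtain ⟨hi, hj⟩ := bound i j M h1 h2
  have hce := Int.le_ceil (3 * M)
  have hi' := abs_le.1 hi
  have hj' := abs_le.1 hj
  refine ⟨(i, j), ⟨⟨?_, ?_⟩, ⟨?_, ?_⟩⟩, rfl⟩
  · have : (-⌈3 * M⌉ : ℝ) ≤ i := by linarith [hi'.1]
    exact_mod_cast this
  · have : (i : ℝ) ≤ ⌈3 * M⌉ := by linarith [hi'.2]
    exact_mod_cast this
  · have : (-⌈3 * M⌉ : ℝ) ≤ j := by linarith [hj'.1]
    exact_mod_cast this
  · have : (j : ℝ) ≤ ⌈3 * M⌉ := by linarith [hj'.2]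
    exact_mod_cast this

theorem rank_lt : 1 < Module.rank ℝ P2 := by
  have h : Module.finrank ℝ P2 = 2 := by
    simp [P2]
  rw [← Module.finrank_eq_rank, h]
  norm_num

end GamTop

theorem I_GamTop (h1 : StGam1) : StGamTop := by
  have hcl : IsClosed (Gam : Set P2) :=
    Metric.isClosed_of_pairwise_le_dist one_pos (fun x hx y hy hxy => h1.2.1 x hx y hy hxy)
  have hop : IsOpen {z : P2 | z ∉ Gam} := hcl.isOpen_compl
  refine ⟨hcl, GamTop.countable, GamTop.finite, hop, ?_, ?_⟩
  · exact GamTop.countable.isPathConnected_compl_of_one_lt_rank GamTop.rank_lt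
  · intro z hz
    obtain ⟨r, hr, hsub⟩ := Metric.isOpen_iff.1 hop z hz
    refine ⟨r, hr, fun m hm => ?_⟩
    by_contra hlt
    push Not at hlt
    exact hsub (show m ∈ Metric.ball z r by rw [Metric.mem_ball, dist_comm]; exact hlt) hm

end Pool.Agent.Work.MP_0d206b_gt.D

end

end

/-! ### D.Gron -/

section

/-! Project MP_0d206b_gt, module D, item Gron: Gronwall estimate forward and backward. -/

set_option autoImplicit false

open Set Filter Topology Function
open scoped ContDiff NNReal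

noncomputable section

namespace Pool.Agent.Work.MP_0d206b_gt.D

namespace Gron

theorem forward {f : ℝ → ℝ → ℝ} {a b K : ℝ} (hK : 0 ≤ K)
    (hlip : ∀ x ∈ Icc a b, ∀ y y', |f x y - f x y'| ≤ K * |y - y'|)
    {Y Y' : ℝ → ℝ} (hY : Sol f a b Y) (hY' : Sol f a b Y') :
    |Y b - Y' b| ≤ Real.exp (K * |b - a|) * |Y a - Y' a| ∨ b < a := by
  rcases lt_or_ge b a with h | hab
  · exact Or.inr h
  left
  have hwithin : ∀ Z : ℝ → ℝ, Sol f a b Z → ∀ t ∈ Ico a b, HasDerivWithinAt Z (f t (Z t)) (Ici t) t := by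
    intro Z hZ t ht
    refine (hZ t ⟨ht.1, ht.2.le⟩).mono_of_mem_nhdsWithin ?_
    exact Icc_mem_nhdsGE_of_mem ht
  have hc : ∀ Z : ℝ → ℝ, Sol f a b Z → ContinuousOn Z (Icc a b) := fun Z hZ t ht =>
    (hZ t ht).continuousWithinAt
  have h := dist_le_of_trajectories_ODE_of_mem (v := f) (K := ⟨K, hK⟩) (s := fun _ => univ)
    (f := Y) (g := Y') (a := a) (b := b) (δ := |Y a - Y' a|)
    (fun t ht => LipschitzOnWith.of_dist_le_mul fun y _ y' _ => by
      rw [Real.dist_eq, Real.dist_eq]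
      exact hlip t ⟨ht.1, ht.2.le⟩ y y')
    (hc Y hY) (hwithin Y hY) (fun _ _ => mem_univ _) (hc Y' hY') (hwithin Y' hY')
    (fun _ _ => mem_univ _) (by rw [Real.dist_eq]) b ⟨hab, le_rfl⟩
  rw [Real.dist_eq] at h
  rw [abs_of_nonneg (sub_nonneg.2 hab), mul_comm]
  exact h

theorem restrict {f : ℝ → ℝ → ℝ} {a b a' b' : ℝ} (h1 : a ≤ a') (h2 : b' ≤ b) {Y : ℝ → ℝ}
    (hY : Sol f a b Y) : Sol f a' b' Y := by
  intro x hx
  exact (hY x ⟨h1.trans hx.1, hx.2.trans h2⟩).mono (Icc_subset_Icc h1 h2)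

theorem reflect {f : ℝ → ℝ → ℝ} {a b : ℝ} {Y : ℝ → ℝ} (hY : Sol f a b Y) :
    Sol (fun x y => - f (-x) y) (-b) (-a) (fun x => Y (-x)) := by
  intro x hx
  have hx' : -x ∈ Icc a b := ⟨by linarith [hx.2], by linarith [hx.1]⟩
  have h1 : HasDerivWithinAt (fun s : ℝ => -s) (-1) (Icc (-b) (-a)) x :=
    (hasDerivAt_neg x).hasDerivWithinAt
  have h2 := (hY (-x) hx').scomp (h := fun s : ℝ => -s) x h1
    (fun s hs => ⟨by linarith [hs.2], by linarith [hs.1]⟩)
  have e : (-1 : ℝ) • f (-x) (Y (-x)) = - f (-x) (Y (-x)) := by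
    rw [neg_smul, one_smul]
  rw [e] at h2
  exact h2

end Gron

theorem I_Gron : StGron := by
  intro f a b K hK hlip Y Y' hY hY' x hx x0 hx0
  rcases le_total x0 x with h | h
  · have h1 := Gron.forward (a := x0) (b := x) hK
      (fun t ht => hlip t ⟨hx0.1.trans ht.1, ht.2.trans hx.2⟩)
      (Gron.restrict hx0.1 hx.2 hY) (Gron.restrict hx0.1 hx.2 hY')
    rcases h1 with h1 | h1
    · exact h1
    · exact absurd h1 (not_lt.2 h)
  · have h1 := Gron.forward (f := fun x y => - f (-x) y) (a := -x0) (b := -x) hK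
      (fun t ht y y' => by
        have := hlip (-t) ⟨by linarith [ht.2, hx.1], by linarith [ht.1, hx0.2]⟩ y y'
        have e : - f (-t) y - - f (-t) y' = -(f (-t) y - f (-t) y') := by ring
        rw [e, abs_neg]
        exact this)
      (Gron.reflect (Gron.restrict hx.1 hx0.2 hY)) (Gron.reflect (Gron.restrict hx.1 hx0.2 hY'))
    rcases h1 with h1 | h1
    · have e : |-x - -x0| = |x - x0| := by
        rw [← abs_neg]
        congr 1
        ring
      rw [e] at h1
      simpa using h1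
    · exact absurd h1 (not_lt.2 (by linarith))

end Pool.Agent.Work.MP_0d206b_gt.D

end

end

/-! ### D.Inv -/

section

/-! Project MP_0d206b_gt, module D, item Inv: a fibred smooth plane map with vertical derivative
bounded below by a positive constant is a smooth diffeomorphism. -/

set_option autoImplicit false

open Set Filter Topology Function
open scoped ContDiff

noncomputable section

namespace Pool.Agent.Work.MP_0d206b_gt.D

namespace Inv

/-- first component of the differential -/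
theorem fderiv_fst {F : P2 → P2} {z : P2} {c : ℝ} (hF : DifferentiableAt ℝ F z)
    (hc : ∀ w, (F w).1 = c * w.1) (v : P2) : (fderiv ℝ F z v).1 = c * v.1 := by
  have h2 : HasFDerivAt (fun w => (F w).1) ((ContinuousLinearMap.fst ℝ ℝ ℝ).comp (fderiv ℝ F z)) z :=
    (ContinuousLinearMap.fst ℝ ℝ ℝ).hasFDerivAt.comp z hF.hasFDerivAt
  have h3 : HasFDerivAt (fun w : P2 => (F w).1) (c • ContinuousLinearMap.fst ℝ ℝ ℝ) z := by
    have : (fun w : P2 => (F w).1) = fun w => c * w.1 := funext hc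
    rw [this]; exact (ContinuousLinearMap.fst ℝ ℝ ℝ).hasFDerivAt.const_mul c
  have h4 := congrArg (fun T : P2 →L[ℝ] ℝ => T v) (h2.unique h3)
  simpa using h4

/-- a differentiable function with derivative bounded below by `c > 0` is bijective -/
theorem bij1 {f : ℝ → ℝ} {f' : ℝ → ℝ} {c : ℝ} (hc : 0 < c) (hf : ∀ t, HasDerivAt f (f' t) t)
    (hf' : ∀ t, c ≤ f' t) : Bijective f := by
  have hd : Differentiable ℝ f := fun t => (hf t).differentiableAt
  have hder : ∀ t, deriv f t = f' t := fun t => (hf t).deriv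
  constructor
  · refine (strictMono_of_deriv_pos fun t => ?_).injective
    rw [hder]; exact hc.trans_le (hf' t)
  · have key : ∀ x y, x ≤ y → c * (y - x) ≤ f y - f x := fun x y hxy =>
      mul_sub_le_image_sub_of_le_deriv hd (fun t => by rw [hder]; exact hf' t) hxy
    refine hd.continuous.surjective ?_ ?_
    · refine tendsto_atTop_mono' atTop (f₁ := fun t => f 0 + c * t) ?_ ?_
      · filter_upwards [eventually_ge_atTop 0] with t ht
        have := key 0 t ht
        simp only [sub_zero] at this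
        linarith
      · exact tendsto_atTop_add_const_left _ _ (tendsto_id.const_mul_atTop hc)
    · refine tendsto_atBot_mono' atBot (f₁ := fun t => f 0 + c * t) ?_ ?_
      · filter_upwards [eventually_le_atBot 0] with t ht
        have := key t 0 ht
        simp only [zero_sub] at this
        linarith
      · exact tendsto_atBot_add_const_left _ _ (tendsto_id.const_mul_atBot hc)

end Inv

theorem I_Inv : StInv := by
  intro F hF hfst hdy
  have hl := laminv_pos
  have hdiff : Differentiable ℝ F := hF.differentiable (by norm_num)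
  have hb1 : ∀ x, Bijective (fun t => (F (x, t)).2) := fun x =>
    Inv.bij1 (c := lam⁻¹ / 2) (by linarith) (f' := fun t => dy F (x, t))
      (fun t => hasDerivAt_dy (hdiff (x, t))) (fun t => hdy (x, t))
  have hinj : Injective F := by
    rintro ⟨x, y⟩ ⟨x', y'⟩ h
    have h1 : x = x' := by
      have := congrArg Prod.fst h
      rw [hfst, hfst] at this
      exact mul_left_cancel₀ lam_ne this
    subst h1
    have h2 : (F (x, y)).2 = (F (x, y')).2 := by rw [h]
    have h3 := (hb1 x).1 h2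
    rw [h3]
  have hsurj : Surjective F := by
    rintro ⟨a, b⟩
    obtain ⟨t, ht⟩ := (hb1 (lam⁻¹ * a)).2 b
    refine ⟨(lam⁻¹ * a, t), ?_⟩
    apply Prod.ext
    · rw [hfst]; exact mul_inv_cancel_left₀ lam_ne a
    · exact ht
  -- the differential is invertible
  have hker : ∀ z, Injective (fderiv ℝ F z) := by
    intro z
    rw [injective_iff_map_eq_zero]
    intro v hv
    have h1 : v.1 = 0 := by
      have := Inv.fderiv_fst (hdiff z) hfst v
      rw [hv] at this
      have h2 : lam * v.1 = 0 := this.symm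
      exact (mul_eq_zero.mp h2).resolve_left lam_ne
    have h2 : v = v.2 • ((0, 1) : P2) := by ext <;> simp [h1]
    have h3 : v.2 * dy F z = 0 := by
      have : (fderiv ℝ F z v).2 = 0 := by rw [hv]; rfl
      rw [h2, map_smul] at this
      simpa [dy] using this
    have h4 : dy F z ≠ 0 := by have := hdy z; intro h; linarith
    have h5 : v.2 = 0 := (mul_eq_zero.mp h3).resolve_right h4
    exact Prod.ext h1 h5
  let e : ∀ z, P2 ≃L[ℝ] P2 := fun z => ContinuousLinearEquiv.ofBijective (fderiv ℝ F z)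
    (LinearMap.ker_eq_bot.mpr (hker z))
    (LinearMap.range_eq_top.mpr ((LinearMap.injective_iff_surjective
      (f := (fderiv ℝ F z : P2 →ₗ[ℝ] P2))).mp (hker z)))
  have he : ∀ z, HasStrictFDerivAt F (e z : P2 →L[ℝ] P2) z := by
    intro z
    have h1 : HasStrictFDerivAt F (fderiv ℝ F z) z :=
      hF.contDiffAt.hasStrictFDerivAt (by norm_num)
    have h2 : ((e z : P2 ≃L[ℝ] P2) : P2 →L[ℝ] P2) = fderiv ℝ F z := rfl
    rw [h2]; exact h1
  have hopen : IsOpenMap F := by
    rw [isOpenMap_iff_nhds_le]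
    intro z
    exact ((he z).map_nhds_eq_of_equiv).ge
  let eq0 : P2 ≃ P2 := Equiv.ofBijective F ⟨hinj, hsurj⟩
  let h : P2 ≃ₜ P2 := eq0.toHomeomorphOfContinuousOpen hF.continuous hopen
  refine ⟨h.symm, ?_, fun z => h.apply_symm_apply z, fun z => h.symm_apply_apply z⟩
  exact h.contDiff_symm (f₀' := e) (fun z => (he z).hasFDerivAt) hF

end Pool.Agent.Work.MP_0d206b_gt.D

end

end

/-! ### D.KData -/

section

set_option autoImplicit false

open Set Filter Topology Function MeasureTheory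
open scoped ContDiff

noncomputable section

namespace Pool.Agent.Work.MP_0d206b_gt.D

namespace KDataAux

/-- width of the box -/
theorem a0_pos : 0 < a0 := by unfold a0; exact div_pos (by norm_num) lam_pos

theorem a0_lt : a0 < 2 / 5 := by
  unfold a0
  rw [div_lt_iff₀ lam_pos]
  linarith [lam_gt]

def bchi : ContDiffBump (0 : ℝ) := ⟨a0, 2 / 5, a0_pos, a0_lt⟩
def b0 : ContDiffBump (0 : ℝ) := ⟨1 / 100, 2 / 100, by norm_num, by norm_num⟩
def b1 : ContDiffBump (1 / 5 : ℝ) := ⟨3 / 20, 17 / 100, by norm_num, by norm_num⟩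

/-- `λ - λ⁻¹` -/
def w : ℝ := lam - lam⁻¹

theorem w_pos : 0 < w := by unfold w; linarith [lam_gt, laminv_lt]
theorem w_lt : w < 2237 / 1000 := by unfold w; rw [lam_inv_eq]; linarith [lam_lt]

def k0 (t : ℝ) : ℝ := w * b0 t
def h1 (t : ℝ) : ℝ := b1 t + b1 (-t)

theorem k0_cont : Continuous k0 := continuous_const.mul b0.continuous
theorem h1_cont : Continuous h1 := b1.continuous.add (b1.continuous.comp continuous_neg)

theorem k0_smooth : ContDiff ℝ ∞ k0 := contDiff_const.mul b0.contDiff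
theorem h1_smooth : ContDiff ℝ ∞ h1 := b1.contDiff.add (b1.contDiff.comp contDiff_neg)

theorem k0_nonneg (t : ℝ) : 0 ≤ k0 t := mul_nonneg w_pos.le b0.nonneg
theorem k0_le (t : ℝ) : k0 t ≤ w := by
  unfold k0; nlinarith [w_pos, b0.le_one (x := t)]
theorem k0_zero {t : ℝ} (ht : 2 / 100 ≤ |t|) : k0 t = 0 := by
  unfold k0
  rw [b0.zero_of_le_dist (by rw [Real.dist_0_eq_abs]; exact ht), mul_zero]
theorem k0_one {t : ℝ} (ht : |t| ≤ 1 / 100) : k0 t = w := by
  unfold k0
  rw [b0.one_of_mem_closedBall (by rw [Metric.mem_closedBall, Real.dist_0_eq_abs]; exact ht), mul_one]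
theorem k0_neg (t : ℝ) : k0 (-t) = k0 t := by unfold k0; rw [b0.neg]

theorem h1_nonneg (t : ℝ) : 0 ≤ h1 t := add_nonneg b1.nonneg b1.nonneg
theorem h1_neg (t : ℝ) : h1 (-t) = h1 t := by unfold h1; rw [neg_neg, add_comm]
theorem b1_zero_of_le {t : ℝ} (ht : t ≤ 3 / 100) : b1 t = 0 := by
  apply b1.zero_of_le_dist
  show (17 / 100 : ℝ) ≤ _
  rw [Real.dist_eq, abs_of_nonpos (by linarith)]
  linarith
theorem b1_zero_of_ge {t : ℝ} (ht : 37 / 100 ≤ t) : b1 t = 0 := by
  apply b1.zero_of_le_dist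
  show (17 / 100 : ℝ) ≤ _
  rw [Real.dist_eq, abs_of_nonneg (by linarith)]
  linarith
theorem h1_le (t : ℝ) : h1 t ≤ 1 := by
  unfold h1
  rcases le_total t 0 with h | h
  · rw [b1_zero_of_le (by linarith), zero_add]; exact b1.le_one
  · rw [b1_zero_of_le (t := -t) (by linarith), add_zero]; exact b1.le_one
theorem h1_zero {t : ℝ} (ht : |t| ≤ 3 / 100) : h1 t = 0 := by
  unfold h1
  rw [b1_zero_of_le ((le_abs_self t).trans ht), b1_zero_of_le ((neg_le_abs t).trans ht), add_zero]
theorem h1_zero' {t : ℝ} (ht : 37 / 100 ≤ |t|) : h1 t = 0 := by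
  unfold h1
  rcases le_total t 0 with h | h
  · rw [abs_of_nonpos h] at ht
    rw [b1_zero_of_le (by linarith), b1_zero_of_ge ht, add_zero]
  · rw [abs_of_nonneg h] at ht
    rw [b1_zero_of_le (t := -t) (by linarith), b1_zero_of_ge ht, add_zero]
theorem h1_one {t : ℝ} (h : 1 / 20 ≤ t) (h' : t ≤ 7 / 20) : h1 t = 1 := by
  unfold h1
  rw [b1_zero_of_le (t := -t) (by linarith), add_zero]
  apply b1.one_of_mem_closedBall
  rw [Metric.mem_closedBall, Real.dist_eq]
  show _ ≤ (3 / 20 : ℝ)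
  rw [abs_le]
  constructor <;> linarith

def A0 : ℝ := ∫ t in (0 : ℝ)..(2 / 5), k0 t
def J0 : ℝ := ∫ t in (0 : ℝ)..(2 / 5), h1 t

theorem k0_int (a b : ℝ) : IntervalIntegrable k0 volume a b := k0_cont.intervalIntegrable a b
theorem h1_int (a b : ℝ) : IntervalIntegrable h1 volume a b := h1_cont.intervalIntegrable a b

theorem int_k0_tail {a b : ℝ} (ha : 2 / 100 ≤ a) (hab : a ≤ b) : ∫ t in a..b, k0 t = 0 := by
  rw [intervalIntegral.integral_congr (g := fun _ => (0 : ℝ))]
  · simp
  · intro t ht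
    rw [uIcc_of_le hab] at ht
    exact k0_zero (by rw [abs_of_nonneg (by linarith [ht.1])]; linarith [ht.1])

theorem int_k0_le {y : ℝ} (hy : 0 ≤ y) : ∫ t in (0 : ℝ)..y, k0 t ≤ w * (2 / 100) := by
  have key : ∀ z : ℝ, 0 ≤ z → z ≤ 2 / 100 → ∫ t in (0 : ℝ)..z, k0 t ≤ w * (2 / 100) := by
    intro z hz hz2
    have h2 : ∫ t in (0 : ℝ)..z, k0 t ≤ ∫ t in (0 : ℝ)..z, w :=
      intervalIntegral.integral_mono_on hz (k0_int _ _) (by simp) (fun t _ => k0_le t)
    rw [intervalIntegral.integral_const, smul_eq_mul] at h2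
    nlinarith [w_pos]
  rcases le_total y (2 / 100) with h | h
  · exact key y hy h
  · rw [← intervalIntegral.integral_add_adjacent_intervals (k0_int 0 (2 / 100)) (k0_int (2 / 100) y),
      int_k0_tail le_rfl h, add_zero]
    exact key _ (by norm_num) le_rfl

theorem A0_le : A0 ≤ 44742 / 1000000 := by
  have h := int_k0_le (y := 2 / 5) (by norm_num)
  have := w_lt
  unfold A0
  linarith

theorem A0_nonneg : 0 ≤ A0 :=
  intervalIntegral.integral_nonneg (by norm_num) (fun t _ => k0_nonneg t)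

theorem J0_ge : 3 / 10 ≤ J0 := by
  unfold J0
  have h2 : ∫ t in (1 / 20 : ℝ)..(7 / 20), h1 t = 3 / 10 := by
    rw [intervalIntegral.integral_congr (g := fun _ => (1 : ℝ))]
    · rw [intervalIntegral.integral_const]; norm_num
    · intro t ht
      rw [uIcc_of_le (by norm_num)] at ht
      exact h1_one ht.1 ht.2
  have h3 : 0 ≤ ∫ t in (0 : ℝ)..(1 / 20), h1 t :=
    intervalIntegral.integral_nonneg (by norm_num) (fun t _ => h1_nonneg t)
  have h4 : 0 ≤ ∫ t in (7 / 20 : ℝ)..(2 / 5), h1 t :=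
    intervalIntegral.integral_nonneg (by norm_num) (fun t _ => h1_nonneg t)
  rw [← intervalIntegral.integral_add_adjacent_intervals (h1_int 0 (1 / 20)) (h1_int (1 / 20) (2 / 5)),
    ← intervalIntegral.integral_add_adjacent_intervals (h1_int (1 / 20) (7 / 20))
      (h1_int (7 / 20) (2 / 5)), h2]
  linarith

def c : ℝ := A0 / J0

theorem c_nonneg : 0 ≤ c := div_nonneg A0_nonneg (by linarith [J0_ge])

theorem c_le : c ≤ lam⁻¹ / 2 := by
  unfold c
  rw [div_le_iff₀ (by linarith [J0_ge])]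
  nlinarith [J0_ge, A0_le, laminv_gt]

def g (t : ℝ) : ℝ := k0 t - c * h1 t

theorem g_cont : Continuous g := k0_cont.sub (continuous_const.mul h1_cont)
theorem g_smooth : ContDiff ℝ ∞ g := k0_smooth.sub (contDiff_const.mul h1_smooth)
theorem g_int (a b : ℝ) : IntervalIntegrable g volume a b := g_cont.intervalIntegrable a b
theorem g_neg (t : ℝ) : g (-t) = g t := by unfold g; rw [k0_neg, h1_neg]

def kap (y : ℝ) : ℝ := ∫ t in (0 : ℝ)..y, g t

theorem kap_hasDeriv (y : ℝ) : HasDerivAt kap (g y) y :=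
  intervalIntegral.integral_hasDerivAt_right (g_int 0 y)
    (g_cont.stronglyMeasurableAtFilter _ _) g_cont.continuousAt

theorem kap_deriv : deriv kap = g := funext fun y => (kap_hasDeriv y).deriv

theorem kap_smooth : ContDiff ℝ ∞ kap := by
  rw [contDiff_infty_iff_deriv, kap_deriv]
  exact ⟨fun y => (kap_hasDeriv y).differentiableAt, g_smooth⟩

theorem kap_neg (y : ℝ) : kap (-y) = - kap y := by
  unfold kap
  have h := intervalIntegral.integral_comp_neg (a := 0) (b := y) g
  rw [neg_zero] at h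
  rw [intervalIntegral.integral_symm, ← h]
  congr 1
  exact intervalIntegral.integral_congr (fun t _ => g_neg t)

theorem kap_eq (y : ℝ) : kap y = (∫ t in (0 : ℝ)..y, k0 t) - c * ∫ t in (0 : ℝ)..y, h1 t := by
  unfold kap g
  rw [intervalIntegral.integral_sub (k0_int _ _) ((h1_int _ _).const_mul c),
    intervalIntegral.integral_const_mul]

theorem kap_end : kap (2 / 5) = 0 := by
  rw [kap_eq]
  show A0 - A0 / J0 * J0 = 0
  rw [div_mul_cancel₀ _ (by linarith [J0_ge]), sub_self]

theorem kap_lin_nn {y : ℝ} (h : 0 ≤ y) (h' : y ≤ 1 / 100) : kap y = w * y := by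
  unfold kap
  rw [intervalIntegral.integral_congr (g := fun _ => w)]
  · rw [intervalIntegral.integral_const]; simp [mul_comm]
  · intro t ht
    rw [uIcc_of_le h] at ht
    have h2 : |t| ≤ 1 / 100 := by rw [abs_of_nonneg ht.1]; linarith [ht.2]
    show g t = w
    unfold g
    rw [k0_one h2, h1_zero (by linarith)]
    ring

theorem kap_zero_nn {y : ℝ} (h : 2 / 5 ≤ y) : kap y = 0 := by
  have h2 : kap y = kap (2 / 5) + ∫ t in (2 / 5 : ℝ)..y, g t := by
    unfold kap
    rw [intervalIntegral.integral_add_adjacent_intervals (g_int _ _) (g_int _ _)]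
  rw [h2, kap_end, zero_add, intervalIntegral.integral_congr (g := fun _ => (0 : ℝ))]
  · simp
  · intro t ht
    rw [uIcc_of_le h] at ht
    have h3 : 2 / 5 ≤ |t| := by rw [abs_of_nonneg (by linarith [ht.1])]; exact ht.1
    show g t = 0
    unfold g
    rw [k0_zero (by linarith), h1_zero' (by linarith)]
    ring

theorem g_nonpos {t : ℝ} (h : 2 / 100 ≤ |t|) : g t ≤ 0 := by
  unfold g
  rw [k0_zero h]
  nlinarith [c_nonneg, h1_nonneg t]

theorem kap_nonneg {y : ℝ} (h : 0 ≤ y) : 0 ≤ kap y := by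
  rcases le_total y (2 / 100) with h2 | h2
  · apply intervalIntegral.integral_nonneg h
    intro t ht
    unfold g
    rw [h1_zero (by rw [abs_of_nonneg ht.1]; linarith [ht.2]), mul_zero, sub_zero]
    exact k0_nonneg t
  · rcases le_total y (2 / 5) with h3 | h3
    · have h4 : kap y + ∫ t in y..(2 / 5 : ℝ), g t = 0 := by
        rw [← kap_end]
        unfold kap
        rw [intervalIntegral.integral_add_adjacent_intervals (g_int _ _) (g_int _ _)]
      have h5 : 0 ≤ ∫ t in y..(2 / 5 : ℝ), - g t := by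
        apply intervalIntegral.integral_nonneg h3
        intro t ht
        have h6 := g_nonpos (t := t) (by rw [abs_of_nonneg (by linarith [ht.1])]; linarith [ht.1])
        linarith
      rw [intervalIntegral.integral_neg] at h5
      linarith
    · rw [kap_zero_nn h3]

theorem kap_le {y : ℝ} (h : 0 ≤ y) : kap y ≤ 1 / 20 := by
  rw [kap_eq]
  have h2 := int_k0_le h
  have h3 : 0 ≤ ∫ t in (0 : ℝ)..y, h1 t :=
    intervalIntegral.integral_nonneg h (fun t _ => h1_nonneg t)
  have h4 := mul_nonneg c_nonneg h3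
  have := w_lt
  linarith

end KDataAux

open KDataAux in
theorem I_KData : StKData := by
  refine ⟨{
    chi := bchi
    kap := kap
    chi_smooth := bchi.contDiff
    chi_nonneg := fun x => bchi.nonneg
    chi_le := fun x => bchi.le_one
    chi_one := ?_
    chi_zero := ?_
    kap_smooth := kap_smooth
    kap_lin := ?_
    kap_zero := ?_
    kap_deriv_le := ?_
    kap_deriv_ge := ?_
    kap_deriv_out := ?_
    kap_bdd := ?_ }⟩
  · intro x hx
    exact bchi.one_of_mem_closedBall (by rw [Metric.mem_closedBall, Real.dist_0_eq_abs]; exact hx)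
  · intro x hx
    exact bchi.zero_of_le_dist (by rw [Real.dist_0_eq_abs]; exact hx)
  · intro y hy
    unfold r1 at hy
    rcases le_total 0 y with h | h
    · exact kap_lin_nn h ((le_abs_self y).trans hy)
    · have h2 := kap_lin_nn (y := -y) (by linarith) ((neg_le_abs y).trans hy)
      rw [kap_neg] at h2
      show kap y = w * y
      linarith
  · intro y hy
    rcases le_total 0 y with h | h
    · rw [abs_of_nonneg h] at hy
      exact kap_zero_nn hy
    · rw [abs_of_nonpos h] at hy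
      have h2 := kap_zero_nn hy
      rw [kap_neg] at h2
      linarith
  · intro y
    rw [kap_deriv]
    show g y ≤ w
    unfold g
    nlinarith [c_nonneg, h1_nonneg y, k0_le y, mul_nonneg c_nonneg (h1_nonneg y)]
  · intro y
    rw [kap_deriv]
    unfold g
    have h2 : c * h1 y ≤ c * 1 := mul_le_mul_of_nonneg_left (h1_le y) c_nonneg
    linarith [c_le, k0_nonneg y]
  · intro y hy
    rw [kap_deriv]
    apply g_nonpos
    refine le_trans ?_ hy
    unfold r1
    linarith [lam_gt]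
  · intro y
    rw [abs_le]
    rcases le_total 0 y with h | h
    · exact ⟨by linarith [kap_nonneg h], kap_le h⟩
    · have h2 := kap_nonneg (y := -y) (by linarith)
      have h3 := kap_le (y := -y) (by linarith)
      rw [kap_neg] at h2 h3
      constructor <;> linarith

end Pool.Agent.Work.MP_0d206b_gt.D

end

end

/-! ### D.LamInv -/

section

/-! Project MP_0d206b_gt, module D: the complement of the strips is invariant and avoids the boxes. -/

set_option autoImplicit false

open Set Filter Topology Function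
open scoped ContDiff

noncomputable section

namespace Pool.Agent.Work.MP_0d206b_gt.D

theorem I_LamInv (h1 : StStrips) : StLamInv := by
  intro p
  obtain ⟨hF, -, -⟩ := h1 p
  refine ⟨?_, ?_, ?_⟩
  · rintro z hz ⟨m, hm, v, hv, rfl⟩
    refine hz m hm (lam • v) ?_
    rw [← p.F_Psi v, p.Psi_near v hv, p.lin v hv]
  · intro z
    constructor
    · intro h m hm v hzv
      refine h (Lz 1 m) (Lz_one_mem hm) (lam • v) ?_
      rw [hzv, hF m hm v]
    · intro h m hm v hzv
      refine h (Lz (-1) m) (Lz_negone_mem hm) (lam⁻¹ • v) ?_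
      apply p.toFData.inj
      rw [hzv, hF _ (Lz_negone_mem hm), Lz_comp, smul_smul, mul_inv_cancel₀ lam_ne, one_smul]
      norm_num [Lz_zero']
  · intro z m hm
    constructor
    · intro h m' hm' v hzv
      refine h (m' + m) (Gam.add_mem hm' hm) v ?_
      rw [hzv]; abel
    · intro h m' hm' v hzv
      refine h (m' - m) (Gam.sub_mem hm' hm) v ?_
      have : z = (m' + p.Psi v) - m := by rw [← hzv]; abel
      rw [this]; abel

end Pool.Agent.Work.MP_0d206b_gt.D

end

end

/-! ### D.Open -/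

section

/-! Project MP_0d206b_gt, module D: topology of the strips. -/

set_option autoImplicit false

open Set Filter Topology Function
open scoped ContDiff Pointwise

noncomputable section

namespace Pool.Agent.Work.MP_0d206b_gt.D

namespace Open

theorem psi_eq (D : DA) : D.Psi = fun v => (v.1, (D.Psi v).2) := by
  funext v
  exact Prod.ext (D.Psi_fst v) rfl

theorem fderiv_fst (D : DA) (v w : P2) : (fderiv ℝ D.Psi v w).1 = w.1 := by
  have hd : DifferentiableAt ℝ D.Psi v := (D.Psi_smooth.differentiable (by norm_num)) v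
  have h2 : HasFDerivAt (fun w => (D.Psi w).1)
      ((ContinuousLinearMap.fst ℝ ℝ ℝ).comp (fderiv ℝ D.Psi v)) v :=
    (ContinuousLinearMap.fst ℝ ℝ ℝ).hasFDerivAt.comp v hd.hasFDerivAt
  have h3 : HasFDerivAt (fun w : P2 => (D.Psi w).1) (ContinuousLinearMap.fst ℝ ℝ ℝ) v := by
    have : (fun w : P2 => (D.Psi w).1) = fun w => w.1 := funext D.Psi_fst
    rw [this]; exact (ContinuousLinearMap.fst ℝ ℝ ℝ).hasFDerivAt
  have h4 := congrArg (fun T : P2 →L[ℝ] ℝ => T w) (h2.unique h3)
  simpa using h4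

theorem injD (D : DA) (v : P2) : Injective (fderiv ℝ D.Psi v) := by
  rw [injective_iff_map_eq_zero]
  intro w hw
  have h1 : w.1 = 0 := by
    rw [← fderiv_fst D v w, hw]; rfl
  have h2 : w = w.2 • ((0, 1) : P2) := by ext <;> simp [h1]
  have h3 : (fderiv ℝ D.Psi v w).2 = w.2 * dy D.Psi v := by
    conv_lhs => rw [h2]
    rw [map_smul]; rfl
  rw [hw] at h3
  have h4 : w.2 * dy D.Psi v = 0 := h3.symm
  have h5 : w.2 = 0 := by
    rcases mul_eq_zero.mp h4 with h | h
    · exact h
    · exact absurd h (D.dyPsi_pos v).ne'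
  ext
  · exact h1
  · exact h5

/-- the derivative as an equivalence -/
def der (D : DA) (v : P2) : P2 ≃L[ℝ] P2 :=
  (LinearEquiv.ofInjectiveEndo (fderiv ℝ D.Psi v : P2 →ₗ[ℝ] P2) (injD D v)).toContinuousLinearEquiv

theorem der_coe (D : DA) (v : P2) : (der D v : P2 →L[ℝ] P2) = fderiv ℝ D.Psi v := by
  ext <;> rfl

theorem strict (D : DA) (v : P2) : HasStrictFDerivAt D.Psi (der D v : P2 →L[ℝ] P2) v := by
  rw [der_coe]
  exact (D.Psi_smooth.contDiffAt.hasStrictFDerivAt (by norm_num))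

theorem emb (D : DA) (hinj : ∀ v v', D.Psi v = D.Psi v' → v = v') : IsOpenEmbedding D.Psi :=
  IsOpenEmbedding.of_continuous_injective_isOpenMap D.Psi_smooth.continuous (fun a b h => hinj a b h)
    (isOpenMap_of_hasStrictFDerivAt_equiv (strict D))

/-- the strip of `m` is open -/
theorem strip_open (D : DA) (hE : IsOpenEmbedding D.Psi) (m : P2) :
    IsOpen {z : P2 | ∃ v, z = m + D.Psi v} := by
  have h1 : {z : P2 | ∃ v, z = m + D.Psi v} = (fun z => z - m) ⁻¹' (range D.Psi) := by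
    ext z
    simp only [mem_ofPred_eq, mem_preimage, mem_range]
    constructor
    · rintro ⟨v, rfl⟩; exact ⟨v, by simp⟩
    · rintro ⟨v, hv⟩; exact ⟨v, by rw [hv]; simp⟩
  rw [h1]
  exact hE.isOpen_range.preimage (continuous_id.sub continuous_const)

end Open

open Open in
theorem I_Open (ht : StGamTop) (h1 : StLin) : StOpen := by
  intro D
  obtain ⟨l1, l2, l3, _, _, _, _⟩ := h1 D
  have hE := emb D l1
  have hlin : ∀ z, z ∉ D.Lam → ∃ m ∈ Gam, ∃ v, z = m + D.Psi v := fun z hz =>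
    ⟨D.idx z, (l3 z hz).1, D.lin z, (l3 z hz).2⟩
  refine ⟨hE, ?_, ?_, ?_, ?_⟩
  · have h2 : D.Lamᶜ = ⋃ m ∈ Gam, {z : P2 | ∃ v, z = m + D.Psi v} := by
      ext z
      simp only [mem_compl_iff, mem_iUnion, mem_ofPred_eq, exists_prop]
      constructor
      · exact hlin z
      · rintro ⟨m, hm, v, rfl⟩
        exact (l2 m hm v).2.2
    rw [← isOpen_compl_iff, h2]
    exact isOpen_biUnion fun m _ => strip_open D hE m
  · intro z hz
    obtain ⟨m, hm, v, rfl⟩ := hlin z hz
    filter_upwards [(strip_open D hE m).mem_nhds ⟨v, rfl⟩] with z' hz'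
    obtain ⟨v', rfl⟩ := hz'
    exact ⟨(l2 m hm v').2.2, by rw [(l2 m hm v').1, (l2 m hm v).1]⟩
  · intro z hz
    obtain ⟨m, hm, v, rfl⟩ := hlin z hz
    set e := hE.toOpenPartialHomeomorph D.Psi with he
    have e1 : ∀ v, e.symm (D.Psi v) = v := fun v => by
      have := e.left_inv (x := v) (by simp [he])
      simpa [he] using this
    have h3 : ContDiffAt ℝ ∞ e.symm (D.Psi v) := by
      refine e.contDiffAt_symm (f₀' := der D v) (by simp [he]) ?_ ?_
      · rw [e1]; exact (strict D v).hasFDerivAt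
      · rw [e1]; exact D.Psi_smooth.contDiffAt
    have h4 : ContDiffAt ℝ ∞ (fun z => e.symm (z - m)) (m + D.Psi v) := by
      have h5 : ContDiffAt ℝ ∞ (fun z : P2 => z - m) (m + D.Psi v) :=
        (contDiff_id.sub contDiff_const).contDiffAt
      refine ContDiffAt.comp (m + D.Psi v) ?_ h5
      simpa using h3
    refine h4.congr_of_eventuallyEq ?_
    filter_upwards [(strip_open D hE m).mem_nhds ⟨v, rfl⟩] with z' hz'
    obtain ⟨v', rfl⟩ := hz'
    rw [(l2 m hm v').2.1]
    simp only [add_sub_cancel_left]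
    exact (e1 v').symm
  · intro z hz R
    have hK : IsCompact (D.Psi '' Metric.closedBall 0 R) :=
      (isCompact_closedBall _ _).image D.Psi_smooth.continuous
    have hC : IsClosed ((Gam : Set P2) + D.Psi '' Metric.closedBall 0 R) :=
      ht.1.add_right_of_isCompact hK
    have hz' : z ∈ ((Gam : Set P2) + D.Psi '' Metric.closedBall 0 R)ᶜ := by
      rintro ⟨m, hm, w, ⟨v, _, rfl⟩, h⟩
      exact hz m hm v h.symm
    obtain ⟨δ, hδ, hb⟩ := Metric.isOpen_iff.mp hC.isOpen_compl z hz'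
    refine ⟨δ, hδ, fun m hm v hv => ?_⟩
    by_contra hR
    push Not at hR
    refine hb (Metric.mem_ball.mpr hv) ⟨m, hm, D.Psi v, ⟨v, ?_, rfl⟩, rfl⟩
    simpa using hR

end Pool.Agent.Work.MP_0d206b_gt.D

end

end

/-! ### D.PsiEq -/

section

/-!
# MP_0d206b_gt, module D: the formula for the linearisation does not depend on the number of iterations
-/

set_option autoImplicit false

open Set Filter Topology Function
open scoped ContDiff

noncomputable section

namespace Pool.Agent.Work.MP_0d206b_gt.D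

namespace PsiEq

theorem step (f : FData) (n : ℕ) (v : P2) (h : ‖v‖ ≤ r1 * lam ^ n) :
    f.F^[n + 1] ((lam⁻¹) ^ (n + 1) • v) = f.F^[n] ((lam⁻¹) ^ n • v) := by
  have hr : (0 : ℝ) < r1 := by unfold r1; norm_num
  have hB : (lam⁻¹) ^ (n + 1) • v ∈ B := by
    apply mem_B_of_norm_le
    rw [norm_smul, norm_pow, norm_inv, Real.norm_eq_abs, abs_of_pos lam_pos]
    have h1 : (lam⁻¹) ^ (n + 1) * ‖v‖ ≤ (lam⁻¹) ^ (n + 1) * (r1 * lam ^ n) :=
      mul_le_mul_of_nonneg_left h (pow_nonneg laminv_pos.le _)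
    have h2 : (lam⁻¹) ^ (n + 1) * (r1 * lam ^ n) = lam⁻¹ * r1 := by
      have h4 : (lam⁻¹) ^ n * lam ^ n = 1 := by
        rw [← mul_pow, inv_mul_cancel₀ lam_ne, one_pow]
      rw [pow_succ]
      linear_combination (lam⁻¹ * r1) * h4
    have h3 : lam⁻¹ * r1 ≤ r1 := by
      have := laminv_lt
      nlinarith
    linarith
  rw [iterate_succ_apply, f.lin _ hB, smul_smul, pow_succ', ← mul_assoc,
    mul_inv_cancel₀ lam_ne, one_mul]

theorem mono (f : FData) (n k : ℕ) (v : P2) (h : ‖v‖ ≤ r1 * lam ^ n) :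
    f.F^[n + k] ((lam⁻¹) ^ (n + k) • v) = f.F^[n] ((lam⁻¹) ^ n • v) := by
  induction k with
  | zero => rfl
  | succ k ih =>
    rw [← add_assoc, step f (n + k) v ?_, ih]
    have hr : (0 : ℝ) < r1 := by unfold r1; norm_num
    refine h.trans (mul_le_mul_of_nonneg_left ?_ hr.le)
    exact pow_le_pow_right₀ lam_one.le (Nat.le_add_right n k)

theorem eq (f : FData) (n n' : ℕ) (v : P2) (h : ‖v‖ ≤ r1 * lam ^ n) (h' : ‖v‖ ≤ r1 * lam ^ n') :
    f.F^[n] ((lam⁻¹) ^ n • v) = f.F^[n'] ((lam⁻¹) ^ n' • v) := by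
  rcases le_total n n' with hn | hn
  · obtain ⟨k, rfl⟩ := Nat.exists_eq_add_of_le hn
    exact (mono f n k v h).symm
  · obtain ⟨k, rfl⟩ := Nat.exists_eq_add_of_le hn
    exact mono f n' k v h'

theorem ceil_bd (v : P2) : ‖v‖ ≤ r1 * lam ^ ⌈‖v‖ / r1⌉₊ := by
  have hr : (0 : ℝ) < r1 := by unfold r1; norm_num
  have h1 : ‖v‖ / r1 ≤ (⌈‖v‖ / r1⌉₊ : ℝ) := Nat.le_ceil _
  have h2 : (⌈‖v‖ / r1⌉₊ : ℝ) ≤ lam ^ ⌈‖v‖ / r1⌉₊ := by
    have h3 : (⌈‖v‖ / r1⌉₊ : ℝ) < 2 ^ ⌈‖v‖ / r1⌉₊ := by
      exact_mod_cast Nat.lt_two_pow_self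
    have h4 : (2 : ℝ) ^ ⌈‖v‖ / r1⌉₊ ≤ lam ^ ⌈‖v‖ / r1⌉₊ :=
      pow_le_pow_left₀ (by norm_num) (by linarith [lam_gt]) _
    linarith
  rw [div_le_iff₀ hr] at h1
  nlinarith

end PsiEq

theorem I_PsiEq : StPsiEq := by
  intro f n v h
  exact PsiEq.eq f _ _ v (PsiEq.ceil_bd v) h

end Pool.Agent.Work.MP_0d206b_gt.D

end

end

/-! ### D.S -/

section

/-!
# MP_0d206b_gt, module D: the slope field as the sum of a series
-/

set_option autoImplicit false

open Set Filter Topology Function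
open scoped ContDiff

noncomputable section

namespace Pool.Agent.Work.MP_0d206b_gt.D

namespace S

theorem q_lt : (lam⁻¹) ^ 2 < 1 := by
  have h1 := laminv_pos
  have h2 := laminv_lt
  nlinarith

theorem sum_q (C : ℝ) : Summable (fun n : ℕ => C * ((lam⁻¹) ^ 2) ^ n) :=
  (summable_geometric_of_lt_one (by positivity) q_lt).mul_left C

theorem sum_h (C : ℝ) : Summable (fun n : ℕ => C * ((1 : ℝ) / 2) ^ n) :=
  (summable_geometric_of_lt_one (by norm_num) (by norm_num)).mul_left C

end S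

open S in
theorem I_S (h1 : StDD) (h2 : StDDLip) : StS := by
  intro f
  obtain ⟨hs, hQ, hp, C, hC⟩ := h1 f
  obtain ⟨K, hK⟩ := h2 f
  have hsum : ∀ z, Summable (fun n => DD f n z) := fun z =>
    Summable.of_norm_bounded (sum_q C) fun n => by
      rw [Real.norm_eq_abs]
      exact hC n z
  refine ⟨?_, ⟨∑' n, C * ((lam⁻¹) ^ 2) ^ n, ?_⟩, ?_, ⟨∑' n, K * ((1 : ℝ) / 2) ^ n, ?_⟩, ?_, ?_⟩
  · exact continuous_tsum (fun n => (hs n).continuous) (sum_q C) fun n z => by
      rw [Real.norm_eq_abs]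
      exact hC n z
  · intro z
    rw [← Real.norm_eq_abs]
    exact tsum_of_norm_bounded (sum_q C).hasSum fun n => by
      rw [Real.norm_eq_abs]
      exact hC n z
  · intro z m hm
    exact tsum_congr fun n => hp n z m hm
  · intro x y y'
    have h3 : SS f (x, y) - SS f (x, y') = ∑' n, (DD f n (x, y) - DD f n (x, y')) :=
      ((hsum _).tsum_sub (hsum _)).symm
    rw [h3, ← Real.norm_eq_abs]
    have h4 := ((sum_h K).hasSum).mul_right |y - y'|
    exact tsum_of_norm_bounded h4 fun n => by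
      rw [Real.norm_eq_abs]
      exact hK n x y y'
  · intro z
    have h3 : SS f (f.F z) = DD f 0 (f.F z) + ∑' n, DD f (n + 1) (f.F z) :=
      (hsum _).tsum_eq_zero_add
    have h4 : ∀ n, DD f (n + 1) (f.F z) = dy f.F z / lam * DD f n z := by
      intro n
      show dy f.F (f.Finv (f.F z)) * DD f n (f.Finv (f.F z)) / lam = _
      rw [f.Finv_F]
      ring
    have h5 : DD f 0 (f.F z) = dx f.F z / lam := by
      show dx f.F (f.Finv (f.F z)) / lam = _
      rw [f.Finv_F]
    rw [h3, h5, tsum_congr h4, tsum_mul_left]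
    show dx f.F z / lam + dy f.F z / lam * SS f z = _
    ring
  · intro z hz
    have h3 : ∀ n, DD f n z = 0 := fun n => hQ n z hz
    show ∑' n, DD f n z = 0
    rw [tsum_congr h3, tsum_zero]

end Pool.Agent.Work.MP_0d206b_gt.D

end

end

/-! ### D.SCurve12 -/

section

/-! Project MP_0d206b_gt, module D, item SCurve12: `S`-curves, existence and Gronwall estimate. -/

set_option autoImplicit false

open Set Filter Topology Function
open scoped ContDiff NNReal

noncomputable section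

namespace Pool.Agent.Work.MP_0d206b_gt.D

namespace SCurve12

theorem lip (D : DA) : ∃ K, 0 ≤ K ∧ ∀ x y y', |D.S (x, y) - D.S (x, y')| ≤ K * |y - y'| := by
  obtain ⟨K, hK⟩ := D.S_lip
  refine ⟨max K 0, le_max_right _ _, fun x y y' => (hK x y y').trans ?_⟩
  exact mul_le_mul_of_nonneg_right (le_max_left _ _) (abs_nonneg _)

theorem sol_of_hasDerivAt {f : ℝ → ℝ → ℝ} {Y : ℝ → ℝ} (h : ∀ x, HasDerivAt Y (f x (Y x)) x) (a b : ℝ) :
    Sol f a b Y := fun x _ => (h x).hasDerivWithinAt

end SCurve12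

theorem I_SCurve2 (hG : StGron) : StSCurve2 := by
  intro D
  obtain ⟨K, hK0, hK⟩ := SCurve12.lip D
  refine ⟨K, hK0, fun Y Y' hY hY' x x0 => ?_⟩
  exact hG (fun x y => D.S (x, y)) (min x x0) (max x x0) K hK0 (fun t _ y y' => hK t y y') Y Y'
    (SCurve12.sol_of_hasDerivAt (f := fun x y => D.S (x, y)) hY _ _)
    (SCurve12.sol_of_hasDerivAt (f := fun x y => D.S (x, y)) hY' _ _) x
    ⟨min_le_left _ _, le_max_left _ _⟩ x0 ⟨min_le_right _ _, le_max_right _ _⟩

theorem I_SCurve1 (hP : StPic) (hG : StGron) : StSCurve1 := by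
  intro D z
  obtain ⟨K, hK0, hK⟩ := SCurve12.lip D
  obtain ⟨C, hC⟩ := D.S_bdd
  set f : ℝ → ℝ → ℝ := fun x y => D.S (x, y) with hf
  have hcont : ∀ a b y, ContinuousOn (fun x => f x y) (Icc a b) := by
    intro a b y
    exact (D.S_cont.comp (by fun_prop : Continuous fun x : ℝ => ((x, y) : P2))).continuousOn
  have hex : ∀ n : ℕ, ∃ Y : ℝ → ℝ, Y z.1 = z.2 ∧ Sol f (z.1 - n) (z.1 + n) Y := by
    intro n
    have hn : (0 : ℝ) ≤ n := Nat.cast_nonneg n
    exact hP f (z.1 - n) (z.1 + n) K C hK0 (hcont _ _) (fun t _ y y' => hK t y y')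
      (fun t _ y => hC (t, y)) z.1 ⟨by linarith, by linarith⟩ z.2
  choose Yn hYn0 hYn using hex
  have hagree : ∀ m n : ℕ, m ≤ n → ∀ x ∈ Icc (z.1 - m) (z.1 + m), Yn n x = Yn m x := by
    intro m n hmn x hx
    have hmn' : (m : ℝ) ≤ n := Nat.cast_le.2 hmn
    have hm : (0 : ℝ) ≤ m := Nat.cast_nonneg m
    have hres : Sol f (z.1 - m) (z.1 + m) (Yn n) := by
      intro t ht
      exact (hYn n t ⟨by linarith [ht.1], by linarith [ht.2]⟩).mono
        (Icc_subset_Icc (by linarith) (by linarith))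
    have h := hG f (z.1 - m) (z.1 + m) K hK0 (fun t _ y y' => hK t y y') (Yn n) (Yn m) hres (hYn m)
      x hx z.1 ⟨by linarith, by linarith⟩
    rw [hYn0, hYn0, sub_self, abs_zero, mul_zero] at h
    exact sub_eq_zero.1 (abs_nonpos_iff.1 h)
  -- the index used at `x`
  set N : ℝ → ℕ := fun x => ⌈|x - z.1|⌉₊ + 1 with hN
  have hNle : ∀ x, |x - z.1| + 1 ≤ N x := by
    intro x
    have := Nat.le_ceil |x - z.1|
    simp only [hN]
    push_cast
    linarith
  have hNlt : ∀ x, (N x : ℝ) < |x - z.1| + 2 := by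
    intro x
    have := Nat.ceil_lt_add_one (abs_nonneg (x - z.1))
    simp only [hN]
    push_cast
    linarith
  have hval : ∀ (x : ℝ) (m : ℕ), |x - z.1| ≤ m → Yn m x = Yn (N x) x := by
    intro x m hm
    have h1 := abs_le.1 hm
    have h2 := abs_le.1 ((le_add_of_nonneg_right zero_le_one).trans (hNle x))
    rcases le_total m (N x) with h | h
    · exact (hagree m (N x) h x ⟨by linarith [h1.1], by linarith [h1.2]⟩).symm
    · exact hagree (N x) m h x ⟨by linarith [h2.1], by linarith [h2.2]⟩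
  refine ⟨fun x => Yn (N x) x, ?_, ?_⟩
  · show Yn (N z.1) z.1 = z.2
    exact hYn0 _
  · intro x
    set m : ℕ := N x + 1 with hm
    have hmx : |x - z.1| + 1 < m := by
      have := hNle x
      rw [hm]
      push_cast
      linarith
    have hxm : x ∈ Ioo (z.1 - m) (z.1 + m) := by
      have h1 := abs_le.1 (le_refl |x - z.1|)
      constructor
      · linarith [h1.1]
      · linarith [h1.2]
    have hd : HasDerivAt (Yn m) (f x (Yn m x)) x :=
      (hYn m x ⟨hxm.1.le, hxm.2.le⟩).hasDerivAt (Icc_mem_nhds hxm.1 hxm.2)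
    have hev : (fun y => Yn (N y) y) =ᶠ[𝓝 x] Yn m := by
      have h2 : ∀ᶠ y in 𝓝 x, |y - z.1| < m := by
        have hc : Continuous fun y : ℝ => |y - z.1| := by fun_prop
        exact hc.continuousAt.eventually (gt_mem_nhds (by linarith [hmx] : |x - z.1| < m))
      filter_upwards [h2] with y hy
      exact (hval y m hy.le).symm
    have h3 : Yn (N x) x = Yn m x := (hval x m (by linarith)).symm
    have h4 := hd.congr_of_eventuallyEq hev
    show HasDerivAt (fun y => Yn (N y) y) (D.S (x, Yn (N x) x)) x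
    rw [h3]
    exact h4

end Pool.Agent.Work.MP_0d206b_gt.D

end

end

/-! ### D.Tend -/

section

/-! Project MP_0d206b_gt, module D: contraction at the complement of the strips. -/

set_option autoImplicit false

open Set Filter Topology Function
open scoped ContDiff

noncomputable section

namespace Pool.Agent.Work.MP_0d206b_gt.D

namespace Tend

theorem dy_smul_id (v : P2) : dy (fun w : P2 => lam • w) v = lam := by
  unfold dy
  have h : HasFDerivAt (fun w : P2 => lam • w) (lam • ContinuousLinearMap.id ℝ P2) v :=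
    (hasFDerivAt_id v).const_smul lam
  rw [h.fderiv]
  simp

theorem dy_Psi_scale (p : PData) (u : P2) :
    dy p.Psi (lam • u) * lam = dy p.F (p.Psi u) * dy p.Psi u := by
  have hF : Differentiable ℝ p.F := p.smooth.differentiable (by norm_num)
  have hP : Differentiable ℝ p.Psi := p.Psi_smooth.differentiable (by norm_num)
  have e1 : dy (fun w => p.F (p.Psi w)) u = dy p.F (p.Psi u) * dy p.Psi u :=
    dy_comp (c := 1) (hF _) (hP _) (fun w => by rw [p.Psi_fst, one_mul])
  have e2 : dy (fun w => p.Psi (lam • w)) u = dy p.Psi (lam • u) * dy (fun w : P2 => lam • w) u :=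
    dy_comp (A := p.Psi) (B := fun w : P2 => lam • w) (c := lam) (hP _)
      (differentiable_id.const_smul lam _) (fun w => by simp)
  rw [dy_smul_id] at e2
  have e3 : (fun w => p.F (p.Psi w)) = fun w => p.Psi (lam • w) := funext fun w => p.F_Psi w
  rw [← e2, ← e3, e1]

theorem claim (h1 : StBdd) (h2 : StQ) (h3 : StLamInv) (h4 : StStrips) (p : PData) (n : ℕ) :
    ∀ z ∈ LamOf p.Psi, ∃ d > 0, ∀ m ∈ Gam, ∀ v, dist (m + p.Psi v) z < d →
      dy p.Psi v ≤ ((lam⁻¹) ^ 2) ^ n := by
  induction n with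
  | zero =>
    intro z _
    exact ⟨1, one_pos, fun m _ v _ => by rw [pow_zero]; exact p.dyPsi_le v⟩
  | succ n ih =>
    intro z hz
    have hz' : p.Finv z ∈ LamOf p.Psi := by
      apply ((h3 p).2.1 (p.Finv z)).1
      rw [p.F_Finv]
      exact hz
    have hzQ : p.Finv z ∉ Q := (h3 p).1 _ hz'
    obtain ⟨d', hd', hih⟩ := ih _ hz'
    have hQ : IsOpen (Qᶜ : Set P2) := (h2 p.toFData).1.isOpen_compl
    have hc : ContinuousAt p.Finv z := p.smooth_inv.continuous.continuousAt
    have hn : Metric.ball (p.Finv z) d' ∩ Qᶜ ∈ 𝓝 (p.Finv z) :=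
      inter_mem (Metric.ball_mem_nhds _ hd') (hQ.mem_nhds hzQ)
    obtain ⟨d, hd, hsub⟩ := Metric.mem_nhds_iff.1 (hc hn)
    refine ⟨d, hd, fun m hm v hv => ?_⟩
    have hw := hsub (Metric.mem_ball.2 hv)
    have hm' : Lz (-1) m ∈ Gam := Lz_negone_mem hm
    have hlv : lam • (lam⁻¹ • v) = v := by rw [smul_smul, mul_inv_cancel₀ lam_ne, one_smul]
    have hLL : Lz 1 (Lz (-1) m) = m := by
      rw [Lz_comp]; norm_num [Lz_zero']
    have hFi : p.Finv (m + p.Psi v) = Lz (-1) m + p.Psi (lam⁻¹ • v) := by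
      have h5 := (h4 p).1 (Lz (-1) m) hm' (lam⁻¹ • v)
      rw [hlv, hLL] at h5
      rw [← h5, p.Finv_F]
    have hw1 : dist (Lz (-1) m + p.Psi (lam⁻¹ • v)) (p.Finv z) < d' := by
      rw [← hFi]; exact hw.1
    have hw2 : p.Finv (m + p.Psi v) ∉ Q := hw.2
    have h6 := hih _ hm' _ hw1
    have h7 := dy_Psi_scale p (lam⁻¹ • v)
    rw [hlv] at h7
    have h8 : dy p.F (p.Psi (lam⁻¹ • v)) ≤ lam⁻¹ := by
      have h9 := ((h1 p.F p.smooth p.add).1 (p.Psi (lam⁻¹ • v)) _ hm').2.1
      rw [← h9, add_comm, ← hFi]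
      exact p.dy_out _ hw2
    have h10 : dy p.Psi v = dy p.F (p.Psi (lam⁻¹ • v)) * dy p.Psi (lam⁻¹ • v) * lam⁻¹ := by
      rw [← h7, mul_assoc, mul_inv_cancel₀ lam_ne, mul_one]
    rw [h10, pow_succ]
    have hl := laminv_pos
    have h11 := p.dyPsi_pos (lam⁻¹ • v)
    calc dy p.F (p.Psi (lam⁻¹ • v)) * dy p.Psi (lam⁻¹ • v) * lam⁻¹
        ≤ lam⁻¹ * ((lam⁻¹) ^ 2) ^ n * lam⁻¹ := by
          refine mul_le_mul_of_nonneg_right ?_ hl.le
          exact mul_le_mul h8 h6 h11.le hl.le
      _ = ((lam⁻¹) ^ 2) ^ n * (lam⁻¹) ^ 2 := by ring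

end Tend

theorem I_Tend (h1 : StBdd) (h2 : StQ) (h3 : StLamInv) (h4 : StStrips) : StTend := by
  intro p z hz ε hε
  have hl1 : (lam⁻¹) ^ 2 < 1 := by
    have h := laminv_lt
    have h0 := laminv_pos
    nlinarith
  obtain ⟨n, hn⟩ := exists_pow_lt_of_lt_one hε hl1
  obtain ⟨d, hd, h⟩ := Tend.claim h1 h2 h3 h4 p n z hz
  exact ⟨d, hd, fun m hm v hv => (h m hm v hv).trans_lt hn⟩

end Pool.Agent.Work.MP_0d206b_gt.D

end

end
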