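import Pool.Agent.Work.MP_0d206b_gt.Bd.StD

/-! ### D.Bdd -/

section

/-! Project MP_0d206b_gt, module D, item Bdd: derivatives of a smooth plane map commuting with the
lattice are lattice periodic and bounded. -/

set_option autoImplicit false

open Set Filter Topology Function
open scoped ContDiff

noncomputable section

namespace Pool.Agent.Work.MP_0d206b_gt.D

namespace Bdd

/-- a continuous function periodic with respect to the (relatively dense) lattice is bounded -/
theorem bounded (h2 : StGam2) {g : P2 → ℝ} (hg : Continuous g)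
    (hp : ∀ z, ∀ m ∈ Gam, g (z + m) = g z) : ∃ C, ∀ z, |g z| ≤ C := by
  obtain ⟨C, hC⟩ := h2
  obtain ⟨K, hK⟩ := (isCompact_closedBall (0 : P2) C).exists_bound_of_continuousOn hg.continuousOn
  refine ⟨K, fun z => ?_⟩
  obtain ⟨m, hm, hd⟩ := hC z
  have h1 : z - m ∈ Metric.closedBall (0 : P2) C := by
    rw [mem_closedBall_zero_iff, ← dist_eq_norm]; exact hd
  have h3 := hK _ h1
  have h4 : g z = g (z - m) := by
    have := hp (z - m) m hm
    rwa [sub_add_cancel] at this
  rw [h4]; exact h3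

/-- the differential is periodic -/
theorem fderiv_add {F : P2 → P2} (hF : ∀ z, ∀ m ∈ Gam, F (z + m) = F z + Lz 1 m) (z : P2)
    {m : P2} (hm : m ∈ Gam) : fderiv ℝ F (z + m) = fderiv ℝ F z := by
  rw [← fderiv_comp_add_right]
  have : (fun w => F (w + m)) = fun w => F w + Lz 1 m := funext fun w => hF w m hm
  rw [this, fderiv_add_const]

/-- the vertical derivative of a periodic function is periodic -/
theorem deriv_add {g : P2 → ℝ} (hg : ∀ z, ∀ m ∈ Gam, g (z + m) = g z) (z : P2)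
    {m : P2} (hm : m ∈ Gam) :
    deriv (fun t => g ((z + m).1, t)) (z + m).2 = deriv (fun t => g (z.1, t)) z.2 := by
  have h1 : (fun t => g (z.1, t)) = fun t => (fun s => g ((z + m).1, s)) (t + m.2) := by
    funext t
    have := hg (z.1, t) m hm
    rw [← this]; rfl
  rw [h1]
  exact (deriv_comp_add_const (fun s => g ((z + m).1, s)) m.2 z.2).symm

/-- the vertical derivative of a smooth function is continuous -/
theorem cont {g : P2 → ℝ} (hg : ContDiff ℝ ∞ g) :
    Continuous fun z : P2 => deriv (fun t => g (z.1, t)) z.2 := by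
  have h1 : (fun z : P2 => deriv (fun t => g (z.1, t)) z.2) = fun z => fderiv ℝ g z (0, 1) := by
    funext z
    have hd : DifferentiableAt ℝ g z := (hg.differentiable (by norm_num)) z
    have h2 : HasDerivAt (fun s : ℝ => ((z.1, s) : P2)) ((0, 1) : P2) z.2 :=
      (hasDerivAt_const z.2 z.1).prodMk (hasDerivAt_id z.2)
    exact (HasFDerivAt.comp_hasDerivAt z.2 (f := fun s : ℝ => ((z.1, s) : P2)) hd.hasFDerivAt
      h2).deriv
  rw [h1]
  exact (hg.continuous_fderiv (by norm_num)).clm_apply continuous_const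

end Bdd

theorem I_Bdd (h2 : StGam2) : StBdd := by
  intro F hF hadd
  have hx : ∀ z, ∀ m ∈ Gam, dx F (z + m) = dx F z := fun z m hm => by
    unfold dx; rw [Bdd.fderiv_add hadd z hm]
  have hy : ∀ z, ∀ m ∈ Gam, dy F (z + m) = dy F z := fun z m hm => by
    unfold dy; rw [Bdd.fderiv_add hadd z hm]
  have hxy : ∀ z, ∀ m ∈ Gam, dxy F (z + m) = dxy F z := fun z m hm => Bdd.deriv_add hx z hm
  have hyy : ∀ z, ∀ m ∈ Gam, dyy F (z + m) = dyy F z := fun z m hm => Bdd.deriv_add hy z hm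
  refine ⟨fun z m hm => ⟨hx z m hm, hy z m hm, hxy z m hm, hyy z m hm⟩, ?_⟩
  obtain ⟨C1, h1⟩ := Bdd.bounded h2 (contDiff_dx hF).continuous hx
  obtain ⟨C2, h2'⟩ := Bdd.bounded h2 (contDiff_dy hF).continuous hy
  obtain ⟨C3, h3⟩ := Bdd.bounded h2 (g := dxy F) (Bdd.cont (contDiff_dx hF)) hxy
  obtain ⟨C4, h4⟩ := Bdd.bounded h2 (g := dyy F) (Bdd.cont (contDiff_dy hF)) hyy
  refine ⟨max (max C1 C2) (max C3 C4), fun z => ⟨?_, ?_, ?_, ?_⟩⟩
  · exact (h1 z).trans ((le_max_left _ _).trans (le_max_left _ _))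
  · exact (h2' z).trans ((le_max_right _ _).trans (le_max_left _ _))
  · exact (h3 z).trans ((le_max_left _ _).trans (le_max_right _ _))
  · exact (h4 z).trans ((le_max_right _ _).trans (le_max_right _ _))

end Pool.Agent.Work.MP_0d206b_gt.D

end

end

/-! ### D.DDLip -/

section

/-!
# MP_0d206b_gt, module D: Lipschitz bound of the terms of the slope series in the vertical direction
-/

set_option autoImplicit false

open Set Filter Topology Function
open scoped ContDiff

noncomputable section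

namespace Pool.Agent.Work.MP_0d206b_gt.D

namespace DDLip

theorem dy_id (z : P2) : dy (fun w : P2 => w) z = 1 := by
  unfold dy
  have : fderiv ℝ (fun w : P2 => w) z = ContinuousLinearMap.id ℝ P2 := fderiv_fun_id
  rw [this]
  rfl

theorem dy_inv (f : FData) (z : P2) : dy f.F (f.Finv z) * dy f.Finv z = 1 := by
  have h := dy_comp (A := f.F) (B := f.Finv) (z := z) (c := lam⁻¹)
    (f.smooth.differentiable (by norm_num) _) (f.smooth_inv.differentiable (by norm_num) _) f.inv_fst
  rw [← h]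
  have h2 : (fun w => f.F (f.Finv w)) = fun w : P2 => w := funext f.F_Finv
  rw [h2, dy_id]

theorem dy_inv_pos (f : FData) (z : P2) : 0 < dy f.Finv z := by
  have h := dy_inv f z
  have h2 := f.dy_pos (f.Finv z)
  by_contra h3
  push Not at h3
  nlinarith

theorem dy_inv_le (f : FData) (z : P2) : dy f.Finv z ≤ 2 * lam := by
  have h := dy_inv f z
  have h2 := f.dy_ge (f.Finv z)
  have h3 := dy_inv_pos f z
  have h4 : lam⁻¹ / 2 * dy f.Finv z ≤ 1 := by nlinarith
  have h5 : lam * lam⁻¹ = 1 := mul_inv_cancel₀ lam_ne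
  have h6 := lam_pos
  calc dy f.Finv z = 2 * lam * (lam⁻¹ / 2 * dy f.Finv z) := by
        linear_combination (-(dy f.Finv z)) * h5
    _ ≤ 2 * lam * 1 := by gcongr
    _ = 2 * lam := mul_one _

/-- the vertical coordinate of the inverse -/
theorem hasDerivAt_h (f : FData) (x t : ℝ) :
    HasDerivAt (fun s => (f.Finv (x, s)).2) (dy f.Finv (x, t)) t :=
  hasDerivAt_dy (f.smooth_inv.differentiable (by norm_num) _)

theorem inv_eq (f : FData) (x t : ℝ) : f.Finv (x, t) = (lam⁻¹ * x, (f.Finv (x, t)).2) :=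
  Prod.ext (f.inv_fst _) rfl

/-- vertical derivative of a composition with the inverse -/
theorem hasDerivAt_comp_inv (f : FData) {g : P2 → ℝ} (hg : ContDiff ℝ ∞ g) (x t : ℝ) :
    HasDerivAt (fun s => g (f.Finv (x, s)))
      (deriv (fun s => g ((f.Finv (x, t)).1, s)) (f.Finv (x, t)).2 * dy f.Finv (x, t)) t := by
  have h1 : (fun s => g (f.Finv (x, s))) = (fun u => g (lam⁻¹ * x, u)) ∘ fun s => (f.Finv (x, s)).2 := by
    funext s
    show g (f.Finv (x, s)) = g (lam⁻¹ * x, (f.Finv (x, s)).2)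
    rw [← inv_eq]
  rw [h1, f.inv_fst]
  apply HasDerivAt.comp
  · have h2 : Differentiable ℝ (fun u : ℝ => g (lam⁻¹ * x, u)) :=
      (hg.comp (contDiff_const.prodMk contDiff_id)).differentiable (by norm_num)
    exact (h2 _).hasDerivAt
  · exact hasDerivAt_h f x t

theorem bound (f : FData) (h2 : StDD) : ∃ A, ∀ (n : ℕ) (x t : ℝ),
    |deriv (fun s => DD f n (x, s)) t| ≤ A * (1 / 2) ^ n := by
  obtain ⟨hsm, _, _, C, hC⟩ := h2 f
  obtain ⟨M, hM⟩ := f.bdd
  have hM0 : 0 ≤ M := le_trans (abs_nonneg _) (hM 0).1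
  have hC0 : 0 ≤ C := by
    have := le_trans (abs_nonneg _) (hC 0 0)
    simpa using this
  have hl := lam_pos
  have hli := laminv_pos
  have hli2 := laminv_lt
  refine ⟨2 * M + 20 * (M * C), ?_⟩
  intro n
  induction n with
  | zero =>
    intro x t
    have hd : HasDerivAt (fun s => DD f 0 (x, s))
        ((deriv (fun s => dx f.F ((f.Finv (x, t)).1, s)) (f.Finv (x, t)).2 * dy f.Finv (x, t)) / lam) t :=
      (hasDerivAt_comp_inv f (contDiff_dx f.smooth) x t).div_const lam
    rw [hd.deriv]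
    have hb := (hM (f.Finv (x, t))).2.1
    unfold dxy at hb
    have h3 := dy_inv_le f (x, t)
    have h4 := dy_inv_pos f (x, t)
    rw [abs_div, abs_mul, abs_of_pos h4, abs_of_pos hl, pow_zero, mul_one, div_le_iff₀ hl]
    have h5 : 0 ≤ M * C := mul_nonneg hM0 hC0
    calc _ ≤ M * (2 * lam) := by gcongr
      _ = 2 * M * lam := by ring
      _ ≤ (2 * M + 20 * (M * C)) * lam := by gcongr; linarith
  | succ n ih =>
    intro x t
    have hd : HasDerivAt (fun s => DD f (n + 1) (x, s))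
        (((deriv (fun s => dy f.F ((f.Finv (x, t)).1, s)) (f.Finv (x, t)).2 * dy f.Finv (x, t)) *
          DD f n (f.Finv (x, t)) + dy f.F (f.Finv (x, t)) *
          (deriv (fun s => DD f n ((f.Finv (x, t)).1, s)) (f.Finv (x, t)).2 * dy f.Finv (x, t))) / lam) t :=
      ((hasDerivAt_comp_inv f (contDiff_dy f.smooth) x t).mul
        (hasDerivAt_comp_inv f (hsm n) x t)).div_const lam
    rw [hd.deriv]
    have hb := (hM (f.Finv (x, t))).2.2
    unfold dyy at hb
    have h3 := dy_inv_le f (x, t)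
    have h4 := dy_inv_pos f (x, t)
    have h5 := dy_inv f (x, t)
    have h6 := ih (f.Finv (x, t)).1 (f.Finv (x, t)).2
    have h7 := hC n (f.Finv (x, t))
    set p := deriv (fun s => dy f.F ((f.Finv (x, t)).1, s)) (f.Finv (x, t)).2 with hp
    set q := deriv (fun s => DD f n ((f.Finv (x, t)).1, s)) (f.Finv (x, t)).2 with hq
    set u := dy f.Finv (x, t) with hu
    set r := DD f n (f.Finv (x, t)) with hr
    have h8 : p * u * r + dy f.F (f.Finv (x, t)) * (q * u) = p * u * r + q := by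
      linear_combination q * h5
    rw [h8, abs_div, abs_of_pos hl, div_le_iff₀ hl]
    have hpow : ((lam⁻¹) ^ 2) ^ n ≤ (1 / 2 : ℝ) ^ n := by
      apply pow_le_pow_left₀ (by positivity)
      nlinarith
    have h9 : |r| ≤ C * (1 / 2) ^ n := h7.trans (by gcongr)
    have h10 : |p * u * r| ≤ M * (2 * lam) * (C * (1 / 2) ^ n) := by
      rw [abs_mul, abs_mul, abs_of_pos h4]
      gcongr
    have h11 : |p * u * r + q| ≤ M * (2 * lam) * (C * (1 / 2) ^ n) +
        (2 * M + 20 * (M * C)) * (1 / 2) ^ n := (abs_add_le _ _).trans (add_le_add h10 h6)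
    refine h11.trans ?_
    have hpn : (0 : ℝ) < (1 / 2) ^ n := by positivity
    have h12 : M * (2 * lam) * (C * (1 / 2) ^ n) + (2 * M + 20 * (M * C)) * (1 / 2) ^ n =
      (2 * lam * (M * C) + (2 * M + 20 * (M * C))) * (1 / 2) ^ n := by ring
    have h13 : (2 * M + 20 * (M * C)) * (1 / 2) ^ (n + 1) * lam =
      ((2 * M + 20 * (M * C)) * lam / 2) * (1 / 2) ^ n := by ring
    rw [h12, h13]
    apply mul_le_mul_of_nonneg_right _ hpn.le
    have hMC : 0 ≤ M * C := mul_nonneg hM0 hC0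
    have hlg := lam_gt
    nlinarith [mul_nonneg hMC (sub_nonneg.mpr hlg), mul_nonneg hM0 (sub_nonneg.mpr hlg)]

end DDLip

open DDLip in
theorem I_DDLip (h1 : StBdd) (h2 : StDD) : StDDLip := by
  intro f
  have _ := h1
  obtain ⟨A, hA⟩ := bound f h2
  refine ⟨A, fun n x y y' => ?_⟩
  have hsm := (h2 f).1 n
  have hdiff : Differentiable ℝ (fun s : ℝ => DD f n (x, s)) :=
    (hsm.comp (contDiff_const.prodMk contDiff_id)).differentiable (by norm_num)
  have h := Convex.norm_image_sub_le_of_norm_deriv_le (s := univ)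
    (f := fun s : ℝ => DD f n (x, s)) (C := A * (1 / 2) ^ n) (x := y') (y := y)
    (fun s _ => hdiff s) (fun s _ => by rw [Real.norm_eq_abs]; exact hA n x s) convex_univ
    (mem_univ _) (mem_univ _)
  rw [Real.norm_eq_abs, Real.norm_eq_abs] at h
  exact h

end Pool.Agent.Work.MP_0d206b_gt.D

end

end

/-! ### D.Distort -/

section

/-! Project MP_0d206b_gt, module D: bounded distortion of `Psi` (D13). -/

set_option autoImplicit false

open Set Filter Topology Function
open scoped ContDiff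

noncomputable section

namespace Pool.Agent.Work.MP_0d206b_gt.D

namespace Distort

theorem hasDerivAt_dyy {A : P2 → P2} (hA : ContDiff ℝ ∞ A) (x y : ℝ) :
    HasDerivAt (fun t => dy A (x, t)) (dyy A (x, y)) y := by
  have h1 : Differentiable ℝ (dy A) := (contDiff_dy hA).differentiable (by norm_num)
  have h2 : DifferentiableAt ℝ (fun t : ℝ => dy A (x, t)) y := by
    have h3 : DifferentiableAt ℝ (fun t : ℝ => ((x, t) : P2)) y := by fun_prop
    exact (h1 (x, y)).comp y h3
  exact h2.hasDerivAt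

theorem fderiv_smul_const (v : P2) : HasFDerivAt (fun w : P2 => lam • w)
    (lam • ContinuousLinearMap.id ℝ P2) v := (hasFDerivAt_id v).const_smul lam

/-- the identity for the first derivative -/
theorem key (p : PData) (v : P2) :
    lam * dy p.Psi (lam • v) = dy p.F (p.Psi v) * dy p.Psi v := by
  have hF : Differentiable ℝ p.F := p.smooth.differentiable (by norm_num)
  have hP : Differentiable ℝ p.Psi := p.Psi_smooth.differentiable (by norm_num)
  have h1 := dy_comp (A := p.F) (B := p.Psi) (z := v) (c := 1) (hF _) (hP _)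
    (fun w => by rw [p.Psi_fst, one_mul])
  have h2 := dy_comp (A := p.Psi) (B := fun w : P2 => lam • w) (z := v) (c := lam) (hP _)
    (fderiv_smul_const v).differentiableAt (fun w => by simp)
  have h3 : dy (fun w : P2 => lam • w) v = lam := by
    unfold dy
    rw [(fderiv_smul_const v).fderiv]
    simp
  have h4 : (fun w => p.F (p.Psi w)) = fun w => p.Psi (lam • w) := funext p.F_Psi
  rw [h4, h2, h3] at h1
  rw [← h1, mul_comm]

/-- the identity for the second derivative -/
theorem key2 (p : PData) (v : P2) :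
    lam ^ 2 * dyy p.Psi (lam • v) =
      dyy p.F (p.Psi v) * dy p.Psi v ^ 2 + dy p.F (p.Psi v) * dyy p.Psi v := by
  obtain ⟨x, y⟩ := v
  have hP : Differentiable ℝ p.Psi := p.Psi_smooth.differentiable (by norm_num)
  have e1 : ∀ t, p.Psi (x, t) = (x, (p.Psi (x, t)).2) := fun t => by
    ext
    · exact p.Psi_fst _
    · rfl
  -- the left hand side
  have hL : HasDerivAt (fun t : ℝ => lam * dy p.Psi (lam * x, lam * t))
      (lam * (dyy p.Psi (lam * x, lam * y) * lam)) y := by
    have h1 := hasDerivAt_dyy p.Psi_smooth (lam * x) (lam * y)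
    have h2 : HasDerivAt (fun t : ℝ => lam * t) lam y := by
      simpa using (hasDerivAt_id y).const_mul lam
    exact (h1.comp y h2).const_mul lam
  -- the right hand side
  have hR : HasDerivAt (fun t : ℝ => dy p.F (p.Psi (x, t)) * dy p.Psi (x, t))
      (dyy p.F (p.Psi (x, y)) * dy p.Psi (x, y) * dy p.Psi (x, y) +
        dy p.F (p.Psi (x, y)) * dyy p.Psi (x, y)) y := by
    have h1 := hasDerivAt_dyy p.smooth x (p.Psi (x, y)).2
    have h2 := hasDerivAt_dy (hP (x, y))
    have h3 := h1.comp y h2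
    have h4 : (fun t : ℝ => dy p.F (p.Psi (x, t))) =
        (fun t => dy p.F (x, t)) ∘ fun s => (p.Psi (x, s)).2 := by
      funext t
      simp only [Function.comp_apply]
      rw [← e1 t]
    rw [← h4, ← e1 y] at h3
    exact h3.mul (hasDerivAt_dyy p.Psi_smooth x y)
  have he : (fun t : ℝ => lam * dy p.Psi (lam * x, lam * t)) =
      fun t : ℝ => dy p.F (p.Psi (x, t)) * dy p.Psi (x, t) := by
    funext t
    have := key p (x, t)
    simpa using this
  rw [he] at hL
  have h5 := hL.unique hR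
  have h6 : lam • ((x, y) : P2) = (lam * x, lam * y) := by simp
  rw [h6]
  linear_combination h5

end Distort

theorem I_Distort (_h1 : StBdd) (h2 : StScal) : StDistort := by
  intro p
  obtain ⟨C0, hC0⟩ := p.bdd
  have hC0' : ∀ z, |dyy p.F z| ≤ C0 := fun z => (hC0 z).2.2
  have hC0p : 0 ≤ C0 := (abs_nonneg _).trans (hC0' 0)
  have hl1 : 0 < lam - 1 := by linarith [lam_one]
  have hl0 : 0 < lam := lam_pos
  set C2 : ℝ := 2 * lam * C0 with hC2
  have hC2p : 0 ≤ C2 := by positivity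
  have hb : ∀ z, |dyy p.F z| ≤ C2 * dy p.F z := by
    intro z
    have h3 : C2 * (lam⁻¹ / 2) ≤ C2 * dy p.F z := mul_le_mul_of_nonneg_left (p.dy_ge z) hC2p
    have h4 : C2 * (lam⁻¹ / 2) = C0 := by
      rw [hC2]; field_simp
    linarith [hC0' z]
  set C : ℝ := C2 / (lam - 1) with hC
  have hCC : C2 + C = lam * C := by
    rw [hC]; field_simp; ring
  refine ⟨C, ?_⟩
  have hCp : 0 ≤ C := by positivity
  refine h2 _ r1 (by unfold r1; norm_num) ?_ ?_
  · intro v hv
    have hloc : ∀ w : P2, ‖w‖ < r1 → dy p.Psi w = 1 := by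
      intro w hw
      have h3 : p.Psi =ᶠ[𝓝 w] id := by
        have : ∀ᶠ u : P2 in 𝓝 w, ‖u‖ < r1 := continuous_norm.continuousAt.eventually_lt_const hw
        filter_upwards [this] with u hu
        exact p.Psi_near u (mem_B_of_norm_le hu.le)
      unfold dy
      rw [h3.fderiv_eq]
      simp
    have h4 : (fun t : ℝ => dy p.Psi (v.1, t)) =ᶠ[𝓝 v.2] fun _ => 1 := by
      have h5 : ContinuousAt (fun t : ℝ => ‖((v.1, t) : P2)‖) v.2 := by fun_prop
      have h6 : ∀ᶠ t : ℝ in 𝓝 v.2, ‖((v.1, t) : P2)‖ < r1 := h5.eventually_lt_const hv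
      filter_upwards [h6] with t ht
      exact hloc _ ht
    rw [h4.deriv_eq]
    simp only [deriv_const, abs_zero]
    exact mul_nonneg hCp (p.dyPsi_pos v).le
  · intro v hv
    change |dyy p.Psi v| ≤ C * dy p.Psi v at hv
    change |dyy p.Psi (lam • v)| ≤ C * dy p.Psi (lam • v)
    have hk := Distort.key p v
    have hk2 := Distort.key2 p v
    have hq := p.dyPsi_pos v
    have hq1 := p.dyPsi_le v
    have hF := p.toFData.dy_pos (p.Psi v)
    have h3 : |lam ^ 2 * dyy p.Psi (lam • v)| ≤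
        C2 * dy p.F (p.Psi v) * dy p.Psi v ^ 2 + dy p.F (p.Psi v) * (C * dy p.Psi v) := by
      rw [hk2]
      refine (abs_add_le _ _).trans (add_le_add ?_ ?_)
      · rw [abs_mul, abs_of_nonneg (sq_nonneg (dy p.Psi v))]
        exact mul_le_mul_of_nonneg_right (hb _) (sq_nonneg _)
      · rw [abs_mul, abs_of_pos hF]
        exact mul_le_mul_of_nonneg_left hv hF.le
    have h4 : C2 * dy p.F (p.Psi v) * dy p.Psi v ^ 2 ≤ C2 * (dy p.F (p.Psi v) * dy p.Psi v) := by
      have h5 : dy p.Psi v ^ 2 ≤ dy p.Psi v := by nlinarith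
      have h6 := mul_le_mul_of_nonneg_left h5 (mul_nonneg hC2p hF.le)
      linarith
    have h7 : |lam ^ 2 * dyy p.Psi (lam • v)| ≤ lam ^ 2 * (C * dy p.Psi (lam • v)) := by
      calc |lam ^ 2 * dyy p.Psi (lam • v)|
          ≤ C2 * (dy p.F (p.Psi v) * dy p.Psi v) + dy p.F (p.Psi v) * (C * dy p.Psi v) := by
            linarith
        _ = (C2 + C) * (dy p.F (p.Psi v) * dy p.Psi v) := by ring
        _ = lam ^ 2 * (C * dy p.Psi (lam • v)) := by rw [hCC, ← hk]; ring
    rw [abs_mul, abs_of_pos (by positivity : (0 : ℝ) < lam ^ 2)] at h7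
    exact le_of_mul_le_mul_left h7 (by positivity)

end Pool.Agent.Work.MP_0d206b_gt.D

end

end

/-! ### D.Gam34 -/

section

/-! Item Gam34: points of the lattice in strips. -/

set_option autoImplicit false

open Set Filter Topology
open scoped ContDiff

noncomputable section

namespace Pool.Agent.Work.MP_0d206b_gt.D

namespace Gam34

/-- an interval of length greater than one contains an integer -/
lemma exists_int {u v : ℝ} (h : 1 < v - u) : ∃ k : ℤ, u < k ∧ (k : ℝ) < v := by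
  refine ⟨⌊u⌋ + 1, ?_, ?_⟩
  · push_cast
    exact Int.lt_floor_add_one u
  · push_cast
    linarith [Int.floor_le u]

lemma exists_pow {a b : ℝ} (hab : a < b) : ∃ n : ℕ, 1 < (b - a) * lam ^ n := by
  obtain ⟨n, hn⟩ := pow_unbounded_of_one_lt (1 / (b - a)) lam_one
  refine ⟨n, ?_⟩
  rw [div_lt_iff₀ (by linarith)] at hn
  linarith

lemma mem (i j : ℤ) : ((i + j * Real.goldenRatio, i + j * Real.goldenConj) : P2) ∈ Gam :=
  ⟨i, j, rfl⟩

lemma sqrt5_pos : 0 < Real.sqrt 5 := by positivity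

/-- `k₁ + k₂ ψ` in a long interval, `k₂` arbitrary -/
lemma key (a b : ℝ) (hab : a < b) : ∃ L : ℝ, 0 < L ∧ ∃ n : ℕ, L = lam ^ n ∧
    (∀ k2 : ℤ, ∃ k1 : ℤ, a * L < k1 + k2 * Real.goldenConj ∧ k1 + k2 * Real.goldenConj < b * L) ∧
    (∀ k2 : ℤ, ∃ k1 : ℤ, a * L < k1 + k2 * Real.goldenRatio ∧
      k1 + k2 * Real.goldenRatio < b * L) := by
  obtain ⟨n, hn⟩ := exists_pow hab
  have hp : 0 < lam ^ n := pow_pos lam_pos n
  refine ⟨lam ^ n, hp, n, rfl, ?_, ?_⟩
  · intro k2
    obtain ⟨k, h1, h2⟩ := exists_int (u := a * lam ^ n - k2 * Real.goldenConj)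
      (v := b * lam ^ n - k2 * Real.goldenConj) (by linarith)
    exact ⟨k, by linarith, by linarith⟩
  · intro k2
    obtain ⟨k, h1, h2⟩ := exists_int (u := a * lam ^ n - k2 * Real.goldenRatio)
      (v := b * lam ^ n - k2 * Real.goldenRatio) (by linarith)
    exact ⟨k, by linarith, by linarith⟩

lemma lt_mul_of {L X y : ℝ} (hL : 0 < L) (h : X / L < y) : X < L * y := by
  rw [div_lt_iff₀ hL] at h
  linarith

lemma mul_lt_of {L X y : ℝ} (hL : 0 < L) (h : y < X / L) : L * y < X := by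
  rw [lt_div_iff₀ hL] at h
  linarith

lemma lt_inv_of {L a t : ℝ} (hL : 0 < L) (h : a * L < t) : a < L⁻¹ * t := by
  rw [lt_inv_mul_iff₀ hL]
  linarith

lemma inv_lt_of {L b t : ℝ} (hL : 0 < L) (h : t < b * L) : L⁻¹ * t < b := by
  rw [inv_mul_lt_iff₀ hL]
  linarith

end Gam34

open Gam34

theorem I_Gam34 : StGam34 := by
  have hd := Real.goldenRatio_sub_goldenConj
  have hs := sqrt5_pos
  refine ⟨?_, ?_, ?_, ?_⟩
  · intro a b X hab
    obtain ⟨L, hL, n, hLn, h1, -⟩ := key a b hab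
    obtain ⟨k2, hk2⟩ := exists_int_gt ((X / L - a * L) / Real.sqrt 5)
    obtain ⟨k1, hk1, hk1'⟩ := h1 k2
    rw [div_lt_iff₀ hs] at hk2
    refine ⟨Lz n _, Lz_mem n (mem k1 k2), ?_, ?_, ?_⟩
    · show a < lam ^ (-(n : ℤ)) * _
      rw [zpow_neg, zpow_natCast, ← hLn]
      exact lt_inv_of hL hk1
    · show lam ^ (-(n : ℤ)) * _ < b
      rw [zpow_neg, zpow_natCast, ← hLn]
      exact inv_lt_of hL hk1'
    · show X < lam ^ (n : ℤ) * _
      rw [zpow_natCast, ← hLn]
      refine lt_mul_of hL ?_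
      have e : (k1 : ℝ) + k2 * Real.goldenRatio = k1 + k2 * Real.goldenConj +
          k2 * Real.sqrt 5 := by
        rw [← hd]
        ring
      show X / L < (k1 : ℝ) + k2 * Real.goldenRatio
      rw [e]
      linarith
  · intro a b X hab
    obtain ⟨L, hL, n, hLn, h1, -⟩ := key a b hab
    obtain ⟨k2, hk2⟩ := exists_int_lt ((X / L - b * L) / Real.sqrt 5)
    obtain ⟨k1, hk1, hk1'⟩ := h1 k2
    rw [lt_div_iff₀ hs] at hk2
    refine ⟨Lz n _, Lz_mem n (mem k1 k2), ?_, ?_, ?_⟩
    · show a < lam ^ (-(n : ℤ)) * _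
      rw [zpow_neg, zpow_natCast, ← hLn]
      exact lt_inv_of hL hk1
    · show lam ^ (-(n : ℤ)) * _ < b
      rw [zpow_neg, zpow_natCast, ← hLn]
      exact inv_lt_of hL hk1'
    · show lam ^ (n : ℤ) * _ < X
      rw [zpow_natCast, ← hLn]
      refine mul_lt_of hL ?_
      have e : (k1 : ℝ) + k2 * Real.goldenRatio = k1 + k2 * Real.goldenConj +
          k2 * Real.sqrt 5 := by
        rw [← hd]
        ring
      show (k1 : ℝ) + k2 * Real.goldenRatio < X / L
      rw [e]
      linarith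
  · intro a b Y hab
    obtain ⟨L, hL, n, hLn, -, h1⟩ := key a b hab
    obtain ⟨k2, hk2⟩ := exists_int_lt ((a * L - Y / L) / Real.sqrt 5)
    obtain ⟨k1, hk1, hk1'⟩ := h1 k2
    rw [lt_div_iff₀ hs] at hk2
    refine ⟨Lz (-(n : ℤ)) _, Lz_mem (-(n : ℤ)) (mem k1 k2), ?_, ?_, ?_⟩
    · show a < lam ^ (-(n : ℤ)) * _
      rw [zpow_neg, zpow_natCast, ← hLn]
      exact lt_inv_of hL hk1
    · show lam ^ (-(n : ℤ)) * _ < b
      rw [zpow_neg, zpow_natCast, ← hLn]
      exact inv_lt_of hL hk1'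
    · show Y < lam ^ (-(-(n : ℤ))) * _
      rw [neg_neg, zpow_natCast, ← hLn]
      refine lt_mul_of hL ?_
      have e : (k1 : ℝ) + k2 * Real.goldenConj = k1 + k2 * Real.goldenRatio -
          k2 * Real.sqrt 5 := by
        rw [← hd]
        ring
      show Y / L < (k1 : ℝ) + k2 * Real.goldenConj
      rw [e]
      linarith
  · intro a b Y hab
    obtain ⟨L, hL, n, hLn, -, h1⟩ := key a b hab
    obtain ⟨k2, hk2⟩ := exists_int_gt ((b * L - Y / L) / Real.sqrt 5)
    obtain ⟨k1, hk1, hk1'⟩ := h1 k2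
    rw [div_lt_iff₀ hs] at hk2
    refine ⟨Lz (-(n : ℤ)) _, Lz_mem (-(n : ℤ)) (mem k1 k2), ?_, ?_, ?_⟩
    · show a < lam ^ (-(n : ℤ)) * _
      rw [zpow_neg, zpow_natCast, ← hLn]
      exact lt_inv_of hL hk1
    · show lam ^ (-(n : ℤ)) * _ < b
      rw [zpow_neg, zpow_natCast, ← hLn]
      exact inv_lt_of hL hk1'
    · show lam ^ (-(-(n : ℤ))) * _ < Y
      rw [neg_neg, zpow_natCast, ← hLn]
      refine mul_lt_of hL ?_
      have e : (k1 : ℝ) + k2 * Real.goldenConj = k1 + k2 * Real.goldenRatio -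
          k2 * Real.sqrt 5 := by
        rw [← hd]
        ring
      show (k1 : ℝ) + k2 * Real.goldenConj < Y / L
      rw [e]
      linarith

end Pool.Agent.Work.MP_0d206b_gt.D

end

end

/-! ### D.HK -/

section

/-! Project MP_0d206b_gt, module D, item HK: the perturbation. -/

set_option autoImplicit false

open Set Filter Topology Function
open scoped ContDiff

noncomputable section

namespace Pool.Agent.Work.MP_0d206b_gt.D

namespace HKI

/-- the bump -/
def b (K : KData) (v : P2) : ℝ := K.chi v.1 * K.kap v.2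

theorem b_smooth (K : KData) : ContDiff ℝ ∞ (b K) :=
  (K.chi_smooth.comp contDiff_fst).mul (K.kap_smooth.comp contDiff_snd)

theorem b_zero (K : KData) {v : P2} (h : 2 / 5 ≤ ‖v‖) : b K v = 0 := by
  rw [Prod.norm_def, le_max_iff, Real.norm_eq_abs, Real.norm_eq_abs] at h
  rcases h with h | h
  · rw [b, K.chi_zero _ h, zero_mul]
  · rw [b, K.kap_zero _ h, mul_zero]

theorem HK_eq (K : KData) (z : P2) : HK K z = ∑ᶠ m : Gam, b K (z - m) := rfl

theorem near (h1 : StGam1) (K : KData) {m : P2} (hm : m ∈ Gam) {v : P2} (hv : ‖v‖ ≤ 1 / 2) :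
    HK K (m + v) = b K v := by
  rw [HK_eq, finsum_eq_single _ (⟨m, hm⟩ : Gam)]
  · rw [add_sub_cancel_left]
  · intro m' hne
    apply b_zero
    have h2 : 1 ≤ dist m (m' : P2) := h1.2.1 m hm m' m'.2 fun h => hne (Subtype.ext h.symm)
    have h3 : dist m (m' : P2) ≤ ‖m + v - m'‖ + ‖v‖ := by
      rw [dist_eq_norm]
      calc ‖m - (m' : P2)‖ = ‖(m + v - m') - v‖ := by congr 1; abel
        _ ≤ ‖m + v - m'‖ + ‖v‖ := norm_sub_le _ _
    linarith

theorem far (K : KData) {z : P2} (h : ∀ m ∈ Gam, 2 / 5 ≤ dist z m) : HK K z = 0 := by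
  rw [HK_eq]
  refine finsum_eq_zero_of_forall_eq_zero fun m => b_zero K ?_
  rw [← dist_eq_norm]
  exact h m m.2

end HKI

theorem I_HK (h1 : StGam1) : StHK := by
  intro K
  refine ⟨fun m hm v hv => HKI.near h1 K hm hv, fun z hz => HKI.far K hz, ?_, ?_⟩
  · intro z m hm
    rw [HKI.HK_eq, HKI.HK_eq, ← finsum_comp_equiv (Equiv.addRight (⟨m, hm⟩ : Gam))]
    congr 1
    funext m'
    congr 1
    show z + m - (m' + m) = z - m'
    abel
  · rw [contDiff_iff_contDiffAt]
    intro z0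
    by_cases h : ∃ m ∈ Gam, dist z0 m < 1 / 2
    · obtain ⟨m, hm, hd⟩ := h
      have h2 : ContDiffAt ℝ ∞ (fun z : P2 => HKI.b K (z - m)) z0 :=
        ((HKI.b_smooth K).comp (contDiff_id.sub contDiff_const)).contDiffAt
      refine h2.congr_of_eventuallyEq ?_
      have h3 : ∀ᶠ z in 𝓝 z0, dist z m < 1 / 2 :=
        (continuous_id.dist continuous_const).continuousAt.eventually_lt continuousAt_const hd
      filter_upwards [h3] with z hz
      have h4 : z = m + (z - m) := by abel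
      conv_lhs => rw [h4]
      refine HKI.near h1 K hm ?_
      rw [← dist_eq_norm]
      exact hz.le
    · push Not at h
      have h2 : ContDiffAt ℝ ∞ (fun _ : P2 => (0 : ℝ)) z0 := contDiffAt_const
      refine h2.congr_of_eventuallyEq ?_
      have h3 : ∀ᶠ z in 𝓝 z0, dist z z0 < 1 / 10 := Metric.ball_mem_nhds z0 (by norm_num)
      filter_upwards [h3] with z hz
      refine HKI.far K fun m hm => ?_
      have h4 := h m hm
      have h5 := dist_triangle z0 z m
      rw [dist_comm z0 z] at h5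
      linarith

end Pool.Agent.Work.MP_0d206b_gt.D

end

end

/-! ### D.K -/

section

/-! Item K: continuity and invariance of the functions `K0` and `Ka`. -/

set_option autoImplicit false

open Set Filter Topology Function
open scoped ContDiff

noncomputable section

namespace Pool.Agent.Work.MP_0d206b_gt.D

namespace K

theorem loglam_pos : 0 < Real.log lam := Real.log_pos lam_one

theorem nsq_pos {v : P2} (hv : v ≠ 0) : 0 < nsq v := by
  unfold nsq
  by_contra h
  push Not at h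
  apply hv
  have h1 : v.1 = 0 := by nlinarith [sq_nonneg v.1, sq_nonneg v.2]
  have h2 : v.2 = 0 := by nlinarith [sq_nonneg v.1, sq_nonneg v.2]
  ext <;> simp [h1, h2]

theorem nsq_ge (v : P2) : ‖v‖ ^ 2 ≤ nsq v := by
  unfold nsq
  rw [Prod.norm_def]
  rcases max_choice ‖v.1‖ ‖v.2‖ with h | h <;> rw [h, Real.norm_eq_abs, sq_abs]
  · nlinarith [sq_nonneg v.2]
  · nlinarith [sq_nonneg v.1]

theorem frac_le {v : P2} (hv : v ≠ 0) : |v.1| / nsq v ≤ 1 / ‖v‖ := by
  have h0 : 0 < ‖v‖ := norm_pos_iff.2 hv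
  rw [div_le_div_iff₀ (nsq_pos hv) h0, one_mul]
  have h1 : |v.1| ≤ ‖v‖ := by rw [← Real.norm_eq_abs]; exact norm_fst_le v
  calc |v.1| * ‖v‖ ≤ ‖v‖ * ‖v‖ := mul_le_mul_of_nonneg_right h1 h0.le
    _ = ‖v‖ ^ 2 := by ring
    _ ≤ nsq v := nsq_ge v

def k0 (v : P2) : ℝ := 2 * v.1 / (Real.log lam * nsq v)
def ka (v : P2) : ℝ := 8 * v.1 * v.2 ^ 2 / (Real.log lam * nsq v ^ 2)

theorem k0_le {v : P2} (hv : v ≠ 0) : |k0 v| ≤ 8 / Real.log lam / ‖v‖ := by
  have hl := loglam_pos
  have h := frac_le hv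
  have hn := nsq_pos hv
  have h1 : |k0 v| = 2 / Real.log lam * (|v.1| / nsq v) := by
    unfold k0
    rw [abs_div, abs_mul, abs_mul, abs_two, abs_of_pos hl, abs_of_pos hn]
    field_simp
  rw [h1]
  have h2 : 8 / Real.log lam / ‖v‖ = 8 / Real.log lam * (1 / ‖v‖) := by ring
  rw [h2]
  have h3 : 2 / Real.log lam ≤ 8 / Real.log lam := by gcongr; norm_num
  exact mul_le_mul h3 h (by positivity) (by positivity)

theorem ka_le {v : P2} (hv : v ≠ 0) : |ka v| ≤ 8 / Real.log lam / ‖v‖ := by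
  have hl := loglam_pos
  have h := frac_le hv
  have hn := nsq_pos hv
  have h1 : |ka v| = 8 / Real.log lam * (|v.1| / nsq v) * (v.2 ^ 2 / nsq v) := by
    unfold ka
    rw [abs_div, abs_mul, abs_mul, abs_mul, abs_of_pos hl, abs_of_pos (by norm_num : (0 : ℝ) < 8),
      abs_of_nonneg (sq_nonneg v.2), abs_of_nonneg (by positivity : (0 : ℝ) ≤ nsq v ^ 2)]
    field_simp
  have h4 : v.2 ^ 2 / nsq v ≤ 1 := by
    rw [div_le_one hn]; unfold nsq; nlinarith [sq_nonneg v.1]
  rw [h1]
  have h2 : 8 / Real.log lam / ‖v‖ = 8 / Real.log lam * (1 / ‖v‖) := by ring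
  rw [h2]
  calc 8 / Real.log lam * (|v.1| / nsq v) * (v.2 ^ 2 / nsq v)
      ≤ 8 / Real.log lam * (|v.1| / nsq v) * 1 :=
        mul_le_mul_of_nonneg_left h4 (by positivity)
    _ ≤ 8 / Real.log lam * (1 / ‖v‖) := by
        rw [mul_one]; exact mul_le_mul_of_nonneg_left h (by positivity)

theorem k0_cont {v : P2} (hv : v ≠ 0) : ContinuousAt k0 v := by
  have hl := loglam_pos
  have hn := nsq_pos hv
  unfold k0
  exact ContinuousAt.div (by fun_prop) (by unfold nsq; fun_prop) (by positivity)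

theorem ka_cont {v : P2} (hv : v ≠ 0) : ContinuousAt ka v := by
  have hl := loglam_pos
  have hn := nsq_pos hv
  unfold ka
  exact ContinuousAt.div (by fun_prop) (by unfold nsq; fun_prop) (by positivity)

theorem nsq_smul (v : P2) : nsq (lam • v) = lam ^ 2 * nsq v := by
  unfold nsq; simp only [Prod.smul_fst, Prod.smul_snd, smul_eq_mul]; ring

theorem k0_smul (v : P2) : k0 (lam • v) = lam⁻¹ * k0 v := by
  have hl := lam_ne
  unfold k0
  rw [nsq_smul, Prod.smul_fst, smul_eq_mul]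
  by_cases h : Real.log lam * nsq v = 0
  · have h2 : Real.log lam * (lam ^ 2 * nsq v) = 0 := by
      rw [show Real.log lam * (lam ^ 2 * nsq v) = lam ^ 2 * (Real.log lam * nsq v) by ring, h, mul_zero]
    rw [h, h2]; simp
  · have h3 := left_ne_zero_of_mul h
    have h4 := right_ne_zero_of_mul h
    field_simp

theorem ka_smul (v : P2) : ka (lam • v) = lam⁻¹ * ka v := by
  have hl := lam_ne
  unfold ka
  rw [nsq_smul, Prod.smul_fst, Prod.smul_snd, smul_eq_mul, smul_eq_mul]
  by_cases h : Real.log lam * nsq v = 0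
  · have h3 : nsq v = 0 := (mul_eq_zero.1 h).resolve_left loglam_pos.ne'
    rw [h3]; simp
  · have h3 := left_ne_zero_of_mul h
    have h4 := right_ne_zero_of_mul h
    field_simp

theorem contAt (D : DA) (G : P2 → ℝ) (k : P2 → ℝ) (hon : ∀ z ∈ D.Lam, G z = 0)
    (hoff : ∀ z, z ∉ D.Lam → G z = k (D.lin z))
    (hk : ∀ v : P2, v ≠ 0 → |k v| ≤ 8 / Real.log lam / ‖v‖)
    (hc : ∀ v : P2, v ≠ 0 → ContinuousAt k v)
    (h1 : StLin) (h3 : StOpen) : ContinuousOn G {z | z ∉ Gam} := by
  obtain ⟨-, -, hnL, hne, -, -, -⟩ := h1 D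
  obtain ⟨-, -, hlc, hsm, hprop⟩ := h3 D
  intro z hz
  refine ContinuousAt.continuousWithinAt ?_
  have hl := loglam_pos
  by_cases hL : z ∈ D.Lam
  · rw [Metric.continuousAt_iff]
    intro ε hε
    obtain ⟨δ, hδ, hδ'⟩ := hprop z hL (8 / Real.log lam / ε)
    refine ⟨δ, hδ, fun {z'} hz' => ?_⟩
    rw [hon z hL, Real.dist_eq, sub_zero]
    by_cases hL' : z' ∈ D.Lam
    · rw [hon z' hL', abs_zero]; exact hε
    · rw [hoff z' hL']
      obtain ⟨hm, heq⟩ := hnL z' hL'
      have h5 := hδ' (D.idx z') hm (D.lin z') (by rw [← heq]; exact hz')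
      have h6 : 0 < ‖D.lin z'‖ := lt_of_le_of_lt (by positivity) h5
      have h7 := hk (D.lin z') (norm_pos_iff.1 h6)
      refine lt_of_le_of_lt h7 ?_
      rw [div_lt_iff₀ h6]
      rw [div_lt_iff₀ hε] at h5
      linarith
  · have h4 : G =ᶠ[𝓝 z] fun z => k (D.lin z) := by
      filter_upwards [hlc z hL] with w hw
      exact hoff w hw.1
    refine ContinuousAt.congr ?_ h4.symm
    exact ContinuousAt.comp (f := D.lin) (hc _ (hne z hz hL)) (hsm z hL).continuousAt

theorem inv (D : DA) (G : P2 → ℝ) (k : P2 → ℝ) (hon : ∀ z ∈ D.Lam, G z = 0)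
    (hoff : ∀ z, z ∉ D.Lam → G z = k (D.lin z))
    (hk : ∀ v : P2, k (lam • v) = lam⁻¹ * k v) (h2 : StLinInv) :
    (∀ z, ∀ m ∈ Gam, G (z + m) = G z) ∧ (∀ z, G (D.F z) = lam⁻¹ * G z) := by
  obtain ⟨LI1, LI2, -, LI4, LI5⟩ := h2 D
  refine ⟨fun z m hm => ?_, fun z => ?_⟩
  · by_cases hL : z ∈ D.Lam
    · rw [hon z hL, hon _ ((LI1 z m hm).2 hL)]
    · rw [hoff z hL, hoff _ (fun h => hL ((LI1 z m hm).1 h)), (LI4 z m hm hL).2]
  · by_cases hL : z ∈ D.Lam
    · rw [hon z hL, hon _ ((LI2 z).2 hL), mul_zero]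
    · rw [hoff z hL, hoff _ (fun h => hL ((LI2 z).1 h)), (LI5 z hL).2, hk]

end K

theorem I_K (h1 : StLin) (h2 : StLinInv) (h3 : StOpen) : StK := by
  intro D
  have a1 : ∀ z ∈ D.Lam, D.K0 z = 0 := fun z hz => by simp [DA.K0, hz]
  have a2 : ∀ z, z ∉ D.Lam → D.K0 z = K.k0 (D.lin z) := fun z hz => by simp [DA.K0, hz, K.k0]
  have b1 : ∀ z ∈ D.Lam, D.Ka z = 0 := fun z hz => by simp [DA.Ka, hz]
  have b2 : ∀ z, z ∉ D.Lam → D.Ka z = K.ka (D.lin z) := fun z hz => by simp [DA.Ka, hz, K.ka]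
  refine ⟨K.contAt D _ _ a1 a2 (fun _ => K.k0_le) (fun _ => K.k0_cont) h1 h3,
    K.contAt D _ _ b1 b2 (fun _ => K.ka_le) (fun _ => K.ka_cont) h1 h3, ?_, ?_⟩
  · intro z m hm
    exact ⟨(K.inv D _ _ a1 a2 K.k0_smul h2).1 z m hm, (K.inv D _ _ b1 b2 K.ka_smul h2).1 z m hm⟩
  · intro z
    exact ⟨(K.inv D _ _ a1 a2 K.k0_smul h2).2 z, (K.inv D _ _ b1 b2 K.ka_smul h2).2 z⟩

end Pool.Agent.Work.MP_0d206b_gt.D

end

end

/-! ### D.Lin -/

section

/-! Project MP_0d206b_gt, module D, item Lin: the index and the linear coordinate of a strip. -/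

set_option autoImplicit false

open Set Filter Topology Function
open scoped ContDiff

noncomputable section

namespace Pool.Agent.Work.MP_0d206b_gt.D

namespace Lin

theorem psi_strictMono (D : DA) (x : ℝ) : StrictMono fun t : ℝ => (D.Psi (x, t)).2 := by
  have hd : ∀ t : ℝ, HasDerivAt (fun t : ℝ => (D.Psi (x, t)).2) (dy D.Psi (x, t)) t := fun t =>
    hasDerivAt_dy ((D.Psi_smooth.differentiable (by simp)) (x, t))
  refine strictMono_of_deriv_pos fun t => ?_
  rw [(hd t).deriv]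
  exact D.dyPsi_pos (x, t)

theorem psi_inj (D : DA) (v v' : P2) (h : D.Psi v = D.Psi v') : v = v' := by
  have h1 : v.1 = v'.1 := by
    rw [← D.Psi_fst v, ← D.Psi_fst v', h]
  have h2 : v.2 = v'.2 := by
    refine (psi_strictMono D v.1).injective ?_
    show (D.Psi (v.1, v.2)).2 = (D.Psi (v.1, v'.2)).2
    have e1 : ((v.1, v.2) : P2) = v := rfl
    have e2 : ((v.1, v'.2) : P2) = v' := by rw [h1]
    rw [e1, e2, h]
  exact Prod.ext h1 h2

theorem psi_zero (D : DA) : D.Psi 0 = 0 := by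
  obtain ⟨r, hr, h⟩ := D.Psi_near
  exact h 0 (by rw [norm_zero]; exact hr)

theorem idx_lin (D : DA) (m : P2) (hm : m ∈ Gam) (v : P2) :
    D.idx (m + D.Psi v) = m ∧ D.lin (m + D.Psi v) = v := by
  have h : ∃ m' ∈ Gam, ∃ v', m + D.Psi v = m' + D.Psi v' := ⟨m, hm, v, rfl⟩
  have h1 : D.idx (m + D.Psi v) = h.choose := by
    unfold DA.idx
    exact dif_pos h
  have h2 : D.lin (m + D.Psi v) = h.choose_spec.2.choose := by
    unfold DA.lin
    exact dif_pos h
  have h3 : m + D.Psi v = h.choose + D.Psi h.choose_spec.2.choose := h.choose_spec.2.choose_spec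
  have h4 : m = h.choose := D.strips_disj m hm _ h.choose_spec.1 _ _ h3
  have h5 : D.Psi v = D.Psi h.choose_spec.2.choose := by
    have h6 : m + D.Psi v = m + D.Psi h.choose_spec.2.choose :=
      h3.trans (congrArg (fun u => u + D.Psi h.choose_spec.2.choose) h4.symm)
    exact add_left_cancel h6
  exact ⟨h1.trans h4.symm, h2.trans (psi_inj D _ _ h5).symm⟩

theorem of_notMem (D : DA) (z : P2) (hz : z ∉ D.Lam) : ∃ m ∈ Gam, ∃ v, z = m + D.Psi v := by
  by_contra hcon
  push Not at hcon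
  exact hz hcon

end Lin

theorem I_Lin : StLin := by
  intro D
  refine ⟨Lin.psi_inj D, ?_, ?_, ?_, ?_, ?_, ?_⟩
  · intro m hm v
    exact ⟨(Lin.idx_lin D m hm v).1, (Lin.idx_lin D m hm v).2, fun h => h m hm v rfl⟩
  · intro z hz
    obtain ⟨m, hm, v, rfl⟩ := Lin.of_notMem D z hz
    obtain ⟨h1, h2⟩ := Lin.idx_lin D m hm v
    rw [h1, h2]
    exact ⟨hm, rfl⟩
  · intro z hz hz' h0
    obtain ⟨m, hm, v, rfl⟩ := Lin.of_notMem D z hz'
    obtain ⟨h1, h2⟩ := Lin.idx_lin D m hm v
    rw [h2] at h0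
    rw [h0, Lin.psi_zero, add_zero] at hz
    exact hz hm
  · intro m hm h
    exact h m hm 0 (by rw [Lin.psi_zero, add_zero])
  · intro z hz
    have h : ¬ ∃ m ∈ Gam, ∃ v, z = m + D.Psi v := by
      rintro ⟨m, hm, v, hv⟩
      exact hz m hm v hv
    constructor
    · unfold DA.idx
      exact dif_neg h
    · unfold DA.lin
      exact dif_neg h
  · intro z
    by_cases hz : z ∈ D.Lam
    · exact Or.inr hz
    · left
      obtain ⟨m, hm, v, rfl⟩ := Lin.of_notMem D z hz
      obtain ⟨h1, h2⟩ := Lin.idx_lin D m hm v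
      rw [h1, h2, Prod.fst_add, D.Psi_fst]

end Pool.Agent.Work.MP_0d206b_gt.D

end

end

/-! ### D.Lip1D -/

section

/-! Project MP_0d206b_gt, module D, item Lip1D: a function which vanishes on a closed set and has a bounded
derivative off it is Lipschitz. -/

set_option autoImplicit false

open Set Filter Topology Function

noncomputable section

namespace Pool.Agent.Work.MP_0d206b_gt.D

namespace Lip1D

/-- mean value estimate on a segment whose interior does not meet the zero set -/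
theorem mvt {f : ℝ → ℝ} {A : Set ℝ} {L a b : ℝ} (hc : ContinuousOn f (Icc a b))
    (hd : ∀ t ∈ Icc a b, t ∉ A → DifferentiableAt ℝ f t ∧ |deriv f t| ≤ L)
    {s t : ℝ} (hs : s ∈ Icc a b) (ht : t ∈ Icc a b) (hst : s ≤ t) (hA : ∀ u ∈ Ioo s t, u ∉ A) :
    |f s - f t| ≤ L * (t - s) := by
  rcases hst.eq_or_lt with rfl | hlt
  · simp
  have hsub : Icc s t ⊆ Icc a b := Icc_subset_Icc hs.1 ht.2
  obtain ⟨c, hcm, hce⟩ := exists_deriv_eq_slope f hlt (hc.mono hsub)
    (fun u hu => (hd u (hsub ⟨hu.1.le, hu.2.le⟩) (hA u hu)).1.differentiableWithinAt)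
  have hb := (hd c (hsub ⟨hcm.1.le, hcm.2.le⟩) (hA c hcm)).2
  rw [hce, abs_div, abs_of_pos (sub_pos.2 hlt), div_le_iff₀ (sub_pos.2 hlt)] at hb
  rw [abs_sub_comm]
  exact hb

theorem main {f : ℝ → ℝ} {A : Set ℝ} {L a b : ℝ} (hA : IsClosed A) (hc : ContinuousOn f (Icc a b))
    (hz : ∀ t ∈ A, f t = 0) (hL : 0 ≤ L)
    (hd : ∀ t ∈ Icc a b, t ∉ A → DifferentiableAt ℝ f t ∧ |deriv f t| ≤ L)
    {s t : ℝ} (hs : s ∈ Icc a b) (ht : t ∈ Icc a b) (hst : s ≤ t) :
    |f s - f t| ≤ L * (t - s) := by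
  by_cases hne : (A ∩ Icc s t).Nonempty
  · have hK : IsCompact (A ∩ Icc s t) := isCompact_Icc.inter_left hA
    set c := sInf (A ∩ Icc s t) with hcdef
    set d := sSup (A ∩ Icc s t) with hddef
    have hcm : c ∈ A ∩ Icc s t := hK.sInf_mem hne
    have hdm : d ∈ A ∩ Icc s t := hK.sSup_mem hne
    have hcd : c ≤ d := csInf_le hK.bddBelow hdm
    have h1 : |f s - f c| ≤ L * (c - s) := by
      refine mvt hc hd hs ⟨hs.1.trans hcm.2.1, hcm.2.2.trans ht.2⟩ hcm.2.1 ?_
      intro u hu huA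
      exact absurd (csInf_le hK.bddBelow ⟨huA, hu.1.le, hu.2.le.trans hcm.2.2⟩) (not_le.2 hu.2)
    have h2 : |f d - f t| ≤ L * (t - d) := by
      refine mvt hc hd ⟨hs.1.trans hdm.2.1, hdm.2.2.trans ht.2⟩ ht hdm.2.2 ?_
      intro u hu huA
      exact absurd (le_csSup hK.bddAbove ⟨huA, hdm.2.1.trans hu.1.le, hu.2.le⟩) (not_le.2 hu.1)
    have e : f s - f t = (f s - f c) + (f d - f t) := by
      rw [hz c hcm.1, hz d hdm.1]
      ring
    calc |f s - f t| ≤ |f s - f c| + |f d - f t| := by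
          rw [e]
          exact abs_add_le _ _
      _ ≤ L * (c - s) + L * (t - d) := add_le_add h1 h2
      _ ≤ L * (t - s) := by nlinarith [mul_nonneg hL (sub_nonneg.2 hcd)]
  · refine mvt hc hd hs ht hst ?_
    intro u hu huA
    exact hne ⟨u, huA, hu.1.le, hu.2.le⟩

end Lip1D

theorem I_Lip1D : StLip1D := by
  intro f A L a b hL hA hc hz hd s hs t ht
  rcases le_total s t with h | h
  · have := Lip1D.main hA hc hz hL hd hs ht h
    rw [abs_sub_comm s t, abs_of_nonneg (sub_nonneg.2 h)]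
    exact this
  · have := Lip1D.main hA hc hz hL hd ht hs h
    rw [abs_of_nonneg (sub_nonneg.2 h), abs_sub_comm (f s) (f t)]
    exact this

end Pool.Agent.Work.MP_0d206b_gt.D

end

end

/-! ### D.PData -/

section

/-! Project MP_0d206b_gt, module D, item PData (helper75): the linearisation `PsiF` has all properties of `PData`. -/

set_option autoImplicit false

open Set Filter Topology Function
open scoped ContDiff

noncomputable section

namespace Pool.Agent.Work.MP_0d206b_gt.D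

namespace PDataAux

theorem r1_pos : 0 < r1 := by unfold r1; norm_num

theorem B_li {v : P2} (hv : v ∈ B) : lam⁻¹ • v ∈ B := by
  obtain ⟨h1, h2⟩ := hv
  have h3 := laminv_pos
  have h4 : lam⁻¹ ≤ 1 := by linarith [laminv_lt]
  refine ⟨?_, ?_⟩
  · rw [Prod.smul_fst, smul_eq_mul, abs_mul, abs_of_pos h3]
    exact (mul_le_of_le_one_left (abs_nonneg _) h4).trans h1
  · rw [Prod.smul_snd, smul_eq_mul, abs_mul, abs_of_pos h3]
    exact (mul_le_of_le_one_left (abs_nonneg _) h4).trans h2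

theorem B_pow {v : P2} (hv : v ∈ B) (n : ℕ) : (lam⁻¹) ^ n • v ∈ B := by
  induction n with
  | zero => simpa using hv
  | succ n ih => rw [pow_succ', mul_smul]; exact B_li ih

theorem smul_li (n : ℕ) (v : P2) : lam • (lam⁻¹) ^ (n + 1) • v = (lam⁻¹) ^ n • v := by
  rw [smul_smul, pow_succ', ← mul_assoc, mul_inv_cancel₀ lam_ne, one_mul]

theorem smul_li' (n : ℕ) (v : P2) : (lam⁻¹) ^ (n + 1) • lam • v = (lam⁻¹) ^ n • v := by
  rw [smul_comm, smul_li]

theorem iter_lin (f : FData) {v : P2} (hv : v ∈ B) (n : ℕ) : f.F^[n] ((lam⁻¹) ^ n • v) = v := by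
  induction n with
  | zero => simp
  | succ n ih => rw [iterate_succ_apply, f.lin _ (B_pow hv _), smul_li, ih]

theorem near (f : FData) {v : P2} (hv : v ∈ B) : PsiF f v = v := by
  unfold PsiF
  exact iter_lin f hv _

theorem exists_n (v : P2) : ∃ n : ℕ, ‖v‖ < r1 * lam ^ n := by
  obtain ⟨n, hn⟩ := pow_unbounded_of_one_lt (‖v‖ / r1) lam_one
  refine ⟨n, ?_⟩
  rw [div_lt_iff₀ r1_pos] at hn
  linarith

theorem F_Psi (h1 : StPsiEq) (f : FData) (v : P2) : f.F (PsiF f v) = PsiF f (lam • v) := by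
  obtain ⟨n, hn⟩ := exists_n v
  have h2 : ‖lam • v‖ ≤ r1 * lam ^ (n + 1) := by
    rw [norm_smul, Real.norm_eq_abs, abs_of_pos lam_pos, pow_succ]
    have := mul_le_mul_of_nonneg_left hn.le lam_pos.le
    linarith
  rw [h1 f n v hn.le, h1 f (n + 1) _ h2, iterate_succ_apply', smul_li']

theorem smooth_iter (f : FData) (n : ℕ) : ContDiff ℝ ∞ (f.F^[n]) := by
  induction n with
  | zero => simpa using contDiff_id
  | succ n ih => rw [iterate_succ']; exact f.smooth.comp ih

theorem smooth (h1 : StPsiEq) (f : FData) : ContDiff ℝ ∞ (PsiF f) := by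
  rw [contDiff_iff_contDiffAt]
  intro v
  obtain ⟨n, hn⟩ := exists_n v
  have h2 : ContDiffAt ℝ ∞ (fun w : P2 => f.F^[n] ((lam⁻¹) ^ n • w)) v :=
    ((smooth_iter f n).comp (contDiff_const_smul _)).contDiffAt
  refine h2.congr_of_eventuallyEq ?_
  have h3 : ∀ᶠ w : P2 in 𝓝 v, ‖w‖ < r1 * lam ^ n := continuous_norm.continuousAt.eventually_lt_const hn
  filter_upwards [h3] with w hw using h1 f n w hw.le

theorem fst (h1 : StPsiEq) (h2 : StScal) (f : FData) : ∀ v, (PsiF f v).1 = v.1 := by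
  refine h2 _ r1 r1_pos (fun v hv => ?_) fun v hv => ?_
  · rw [near f (mem_B_of_norm_le hv.le)]
  · rw [← F_Psi h1, f.fst, hv, Prod.smul_fst, smul_eq_mul]

theorem dy_lam (v : P2) : dy (fun w : P2 => lam • w) v = lam := by
  unfold dy
  have h : HasFDerivAt (fun w : P2 => lam • w) (lam • ContinuousLinearMap.id ℝ P2) v :=
    (hasFDerivAt_id v).const_smul lam
  rw [h.fderiv]
  simp

theorem dy_id_near (f : FData) {v : P2} (hv : ‖v‖ < r1) : dy (PsiF f) v = 1 := by
  have h3 : ∀ᶠ w : P2 in 𝓝 v, ‖w‖ < r1 := continuous_norm.continuousAt.eventually_lt_const hv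
  have h4 : PsiF f =ᶠ[𝓝 v] id := by
    filter_upwards [h3] with w hw using near f (mem_B_of_norm_le hw.le)
  unfold dy
  rw [h4.fderiv_eq, fderiv_id]
  simp

theorem dy_step (h1 : StPsiEq) (h2 : StScal) (f : FData) (v : P2) :
    dy f.F (PsiF f v) * dy (PsiF f) v = dy (PsiF f) (lam • v) * lam := by
  have hd : Differentiable ℝ (PsiF f) := (smooth h1 f).differentiable (by simp)
  have hF : Differentiable ℝ f.F := f.smooth.differentiable (by simp)
  have e1 := dy_comp (A := f.F) (B := PsiF f) (z := v) (c := 1) (hF _) (hd _)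
    (fun w => by rw [fst h1 h2, one_mul])
  have e2 := dy_comp (A := PsiF f) (B := fun w : P2 => lam • w) (z := v) (c := lam) (hd _)
    ((differentiable_id.const_smul lam) v) (fun w => by simp)
  rw [← e1, funext (F_Psi h1 f), e2, dy_lam]

end PDataAux

open PDataAux in
theorem I_PData (h1 : StPsiEq) (h2 : StScal) : StPData := by
  intro f
  have hdy : ∀ v, 0 < dy (PsiF f) v ∧ dy (PsiF f) v ≤ 1 := by
    refine h2 _ r1 r1_pos (fun v hv => ?_) fun v hv => ?_
    · rw [dy_id_near f hv]; exact ⟨one_pos, le_rfl⟩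
    · have h3 := dy_step h1 h2 f v
      have h4 := f.dy_pos (PsiF f v)
      have h5 := f.dy_le (PsiF f v)
      have h6 : 0 < dy (PsiF f) (lam • v) * lam := by rw [← h3]; exact mul_pos h4 hv.1
      have h7 : dy (PsiF f) (lam • v) * lam ≤ 1 * lam := by
        rw [← h3, one_mul]
        exact (mul_le_of_le_one_right h4.le hv.2).trans h5
      exact ⟨pos_of_mul_pos_left h6 lam_pos.le, le_of_mul_le_mul_right h7 lam_pos⟩
  have hb : ∀ v, |(PsiF f v).2| ≤ 1 / 8 := by
    refine h2 _ r1 r1_pos (fun v hv => ?_) fun v hv => ?_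
    · rw [near f (mem_B_of_norm_le hv.le)]
      have h3 := norm_snd_le v
      rw [Real.norm_eq_abs] at h3
      unfold r1 at hv
      linarith
    · rw [← F_Psi h1]
      have h3 := f.near (PsiF f v)
      have h4 : |lam⁻¹ * (PsiF f v).2| ≤ (382 / 1000 + 1 / 10000) * (1 / 8) := by
        rw [abs_mul, abs_of_pos laminv_pos]
        exact mul_le_mul laminv_lt.le hv (abs_nonneg _) (by norm_num)
      have h5 := abs_add_le ((f.F (PsiF f v)).2 - lam⁻¹ * (PsiF f v).2) (lam⁻¹ * (PsiF f v).2)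
      rw [sub_add_cancel] at h5
      refine h5.trans ((add_le_add h3 h4).trans ?_)
      norm_num
  exact ⟨{ toFData := f
           Psi := PsiF f
           Psi_smooth := smooth h1 f
           Psi_fst := fst h1 h2 f
           dyPsi_pos := fun v => (hdy v).1
           dyPsi_le := fun v => (hdy v).2
           F_Psi := F_Psi h1 f
           Psi_near := fun v hv => near f hv
           Psi_bdd := hb
           Psi_eq := h1 f }, rfl⟩

end Pool.Agent.Work.MP_0d206b_gt.D

end

end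

/-! ### D.Pic -/

section

/-! Project MP_0d206b_gt, module D, item Pic: global Picard theorem. -/

set_option autoImplicit false

open Set Filter Topology Function
open scoped ContDiff NNReal

noncomputable section

namespace Pool.Agent.Work.MP_0d206b_gt.D

theorem I_Pic : StPic := by
  intro f a b K C hK hcont hlip hbd x0 hx0 y0
  have hab : a ≤ b := hx0.1.trans hx0.2
  have hC : 0 ≤ C := (abs_nonneg _).trans (hbd x0 hx0 y0)
  have hR : 0 ≤ C * (b - a) + 1 := by
    have := mul_nonneg hC (sub_nonneg.2 hab)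
    linarith
  have hPL : IsPicardLindelof f (tmin := a) (tmax := b) ⟨x0, hx0⟩ y0
      ⟨C * (b - a) + 1, hR⟩ 0 ⟨C, hC⟩ ⟨K, hK⟩ := by
    refine ⟨?_, ?_, ?_, ?_⟩
    · intro t ht
      refine LipschitzOnWith.of_dist_le_mul fun y _ y' _ => ?_
      rw [Real.dist_eq, Real.dist_eq]
      exact hlip t ht y y'
    · intro y _
      exact hcont y
    · intro t ht y _
      rw [Real.norm_eq_abs]
      exact hbd t ht y
    · have h1 : max (b - x0) (x0 - a) ≤ b - a := by
        rw [max_le_iff]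
        constructor
        · linarith [hx0.1]
        · linarith [hx0.2]
      show C * max (b - x0) (x0 - a) ≤ (C * (b - a) + 1) - ((0 : ℝ≥0) : ℝ)
      have h2 := mul_le_mul_of_nonneg_left h1 hC
      simp only [NNReal.coe_zero]
      linarith
  obtain ⟨Y, hY0, hY⟩ := hPL.exists_eq_forall_mem_Icc_hasDerivWithinAt₀
  exact ⟨Y, hY0, hY⟩

end Pool.Agent.Work.MP_0d206b_gt.D

end

end

/-! ### D.Sigma -/

section

/-! Item Sigma: continuity, boundedness and invariance of the slope field `sigma`. -/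

set_option autoImplicit false

open Set Filter Topology Function
open scoped ContDiff

noncomputable section

namespace Pool.Agent.Work.MP_0d206b_gt.D

namespace Sigma

theorem S0_le (v : P2) : |S0 v| ≤ 1 := by
  unfold S0 nsq
  rw [abs_div]
  refine div_le_one_of_le₀ ?_ (abs_nonneg _)
  rw [abs_of_nonneg (by positivity : (0 : ℝ) ≤ v.1 ^ 2 + v.2 ^ 2), abs_le]
  constructor <;> nlinarith [sq_nonneg (v.1 + v.2), sq_nonneg (v.1 - v.2)]

theorem S0_smul (v : P2) : S0 (lam • v) = S0 v := by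
  unfold S0 nsq
  have h := lam_ne
  simp only [Prod.smul_fst, Prod.smul_snd, smul_eq_mul]
  by_cases hv : v.1 ^ 2 + v.2 ^ 2 = 0
  · have h1 : (lam * v.1) ^ 2 + (lam * v.2) ^ 2 = 0 := by
      have : (lam * v.1) ^ 2 + (lam * v.2) ^ 2 = lam ^ 2 * (v.1 ^ 2 + v.2 ^ 2) := by ring
      rw [this, hv, mul_zero]
    rw [h1, hv, div_zero, div_zero]
  · have h1 : (lam * v.1) ^ 2 + (lam * v.2) ^ 2 = lam ^ 2 * (v.1 ^ 2 + v.2 ^ 2) := by ring
    rw [h1]
    have h2 : 2 * (lam * v.1) * (lam * v.2) = lam ^ 2 * (2 * v.1 * v.2) := by ring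
    rw [h2, mul_div_mul_left _ _ (pow_ne_zero 2 h)]

theorem nsq_pos {v : P2} (hv : v ≠ 0) : 0 < nsq v := by
  unfold nsq
  by_contra h
  push Not at h
  apply hv
  have h1 : v.1 = 0 := by nlinarith [sq_nonneg v.1, sq_nonneg v.2]
  have h2 : v.2 = 0 := by nlinarith [sq_nonneg v.1, sq_nonneg v.2]
  ext <;> simp [h1, h2]

theorem S0_cont {v : P2} (hv : v ≠ 0) : ContinuousAt S0 v := by
  unfold S0
  refine ContinuousAt.div (by fun_prop) (by unfold nsq; fun_prop) (nsq_pos hv).ne'

theorem sigma_on (D : DA) {z : P2} (hz : z ∈ D.Lam) : D.sigma z = D.S z := by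
  simp [DA.sigma, hz]

theorem sigma_off (D : DA) {z : P2} (hz : z ∉ D.Lam) :
    D.sigma z = D.S z + dy D.Psi (D.lin z) * S0 (D.lin z) := by
  simp [DA.sigma, hz]

theorem dy_F_add (D : DA) (z : P2) {m : P2} (hm : m ∈ Gam) : dy D.F (z + m) = dy D.F z := by
  unfold dy
  have h1 : fderiv ℝ (fun w => D.F (w + m)) z = fderiv ℝ D.F (z + m) :=
    fderiv_comp_add_right m
  have h2 : (fun w => D.F (w + m)) = fun w => D.F w + Lz 1 m := funext fun w => D.F_add w m hm
  rw [h2, fderiv_add_const] at h1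
  rw [← h1]

theorem dy_smul (v : P2) : dy (fun w : P2 => lam • w) v = lam := by
  unfold dy
  have : HasFDerivAt (fun w : P2 => lam • w) (lam • ContinuousLinearMap.id ℝ P2) v :=
    (hasFDerivAt_id v).const_smul lam
  rw [this.fderiv]
  simp

theorem dyPsi_lam (D : DA) (v : P2) :
    dy D.Psi (lam • v) * lam = dy D.F (D.Psi v) * dy D.Psi v := by
  have hF : Differentiable ℝ D.F := D.F_smooth.differentiable (by simp)
  have hP : Differentiable ℝ D.Psi := D.Psi_smooth.differentiable (by simp)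
  have h1 : dy (fun w => D.F (D.Psi w)) v = dy D.F (D.Psi v) * dy D.Psi v :=
    dy_comp (c := 1) (hF _) (hP _) (fun w => by rw [D.Psi_fst, one_mul])
  have h2 : dy (fun w => D.Psi (lam • w)) v = dy D.Psi (lam • v) * dy (fun w : P2 => lam • w) v :=
    dy_comp (A := D.Psi) (B := fun w : P2 => lam • w) (c := lam) (hP _)
      (differentiableAt_id.const_smul lam) (fun w => by simp)
  rw [dy_smul] at h2
  rw [← h2, ← h1]
  congr 1
  funext w
  exact (D.F_Psi w).symm

end Sigma

theorem I_Sigma (h1 : StLin) (h2 : StLinInv) (h3 : StOpen) : StSigma := by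
  intro D
  obtain ⟨-, hst, hnL, hne, -, -, -⟩ := h1 D
  obtain ⟨LI1, LI2, -, LI4, LI5⟩ := h2 D
  obtain ⟨-, -, hlc, hsm, -⟩ := h3 D
  refine ⟨?_, ?_, ?_, ?_, fun z hz => Sigma.sigma_on D hz⟩
  · intro z hz
    refine ContinuousAt.continuousWithinAt ?_
    by_cases hL : z ∈ D.Lam
    · have h4 : ContinuousAt (fun z => D.sigma z - D.S z) z := by
        rw [Metric.continuousAt_iff]
        intro ε hε
        obtain ⟨δ, hδ, hδ'⟩ := D.dyPsi_tendsto z hL ε hε
        refine ⟨δ, hδ, fun {z'} hz' => ?_⟩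
        rw [Sigma.sigma_on D hL, sub_self, Real.dist_eq, sub_zero]
        by_cases hL' : z' ∈ D.Lam
        · rw [Sigma.sigma_on D hL', sub_self, abs_zero]; exact hε
        · rw [Sigma.sigma_off D hL', add_sub_cancel_left, abs_mul, abs_of_pos (D.dyPsi_pos _)]
          obtain ⟨hm, heq⟩ := hnL z' hL'
          have h5 := hδ' (D.idx z') hm (D.lin z') (by rw [← heq]; exact hz')
          calc dy D.Psi (D.lin z') * |S0 (D.lin z')| ≤ dy D.Psi (D.lin z') * 1 :=
                mul_le_mul_of_nonneg_left (Sigma.S0_le _) (D.dyPsi_pos _).le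
            _ < ε := by rw [mul_one]; exact h5
      have h5 := h4.add D.S_cont.continuousAt
      refine h5.congr (Eventually.of_forall fun w => ?_)
      simp
    · have h4 : D.sigma =ᶠ[𝓝 z] fun z => D.S z + dy D.Psi (D.lin z) * S0 (D.lin z) := by
        filter_upwards [hlc z hL] with w hw
        exact Sigma.sigma_off D hw.1
      refine ContinuousAt.congr ?_ h4.symm
      have h6 : ContinuousAt D.lin z := (hsm z hL).continuousAt
      have h7 : ContinuousAt (dy D.Psi) (D.lin z) := (contDiff_dy D.Psi_smooth).continuous.continuousAt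
      have h8 : ContinuousAt S0 (D.lin z) := Sigma.S0_cont (hne z hz hL)
      exact D.S_cont.continuousAt.add
        ((ContinuousAt.comp (f := D.lin) h7 h6).mul (ContinuousAt.comp (f := D.lin) h8 h6))
  · obtain ⟨C, hC⟩ := D.S_bdd
    refine ⟨C + 1, fun z => ?_⟩
    by_cases hL : z ∈ D.Lam
    · rw [Sigma.sigma_on D hL]; linarith [hC z]
    · rw [Sigma.sigma_off D hL]
      have h4 : |dy D.Psi (D.lin z) * S0 (D.lin z)| ≤ 1 := by
        rw [abs_mul, abs_of_pos (D.dyPsi_pos _)]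
        exact mul_le_one₀ (D.dyPsi_le _) (abs_nonneg _) (Sigma.S0_le _)
      exact (abs_add_le _ _).trans (add_le_add (hC z) h4)
  · intro z m hm
    by_cases hL : z ∈ D.Lam
    · rw [Sigma.sigma_on D hL, Sigma.sigma_on D ((LI1 z m hm).2 hL), D.S_add z m hm]
    · rw [Sigma.sigma_off D hL, Sigma.sigma_off D (fun h => hL ((LI1 z m hm).1 h)), D.S_add z m hm,
        (LI4 z m hm hL).2]
  · intro z
    by_cases hL : z ∈ D.Lam
    · rw [Sigma.sigma_on D hL, Sigma.sigma_on D ((LI2 z).2 hL), D.S_F]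
    · rw [Sigma.sigma_off D hL, Sigma.sigma_off D (fun h => hL ((LI2 z).1 h)), D.S_F,
        (LI5 z hL).2, Sigma.S0_smul]
      obtain ⟨hm, heq⟩ := hnL z hL
      have h4 : dy D.F z = dy D.F (D.Psi (D.lin z)) := by
        conv_lhs => rw [heq, add_comm]
        exact Sigma.dy_F_add D _ hm
      have h5 := Sigma.dyPsi_lam D (D.lin z)
      rw [← h4] at h5
      have h6 : dy D.Psi (lam • D.lin z) = dy D.F z * dy D.Psi (D.lin z) / lam := by
        rw [eq_div_iff lam_ne]; exact h5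
      rw [h6]
      field_simp
      ring

end Pool.Agent.Work.MP_0d206b_gt.D

end

end

/-! ### D.Tube -/

section

/-! Project MP_0d206b_gt, module D, item Tube. -/

set_option autoImplicit false

open Set Filter Topology Function
open scoped ContDiff

noncomputable section

namespace Pool.Agent.Work.MP_0d206b_gt.D

namespace Tube

/-- clamping to `[c - e, c + e]` -/
def cl (c e y : ℝ) : ℝ := max (c - e) (min (c + e) y)

theorem cl_near {c e : ℝ} (he : 0 ≤ e) (y : ℝ) : |cl c e y - c| ≤ e := by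
  unfold cl
  rw [abs_le]
  constructor
  · have := le_max_left (c - e) (min (c + e) y); linarith
  · have : max (c - e) (min (c + e) y) ≤ c + e :=
      max_le (by linarith) (min_le_left _ _)
    linarith

theorem cl_lip (c e y y' : ℝ) : |cl c e y - cl c e y'| ≤ |y - y'| := by
  unfold cl
  refine (abs_max_sub_max_le_max _ _ _ _).trans ?_
  rw [sub_self, abs_zero]
  refine max_le (abs_nonneg _) ?_
  refine (abs_min_sub_min_le_max _ _ _ _).trans ?_
  rw [sub_self, abs_zero]
  exact max_le (abs_nonneg _) le_rfl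

theorem cl_eq {c e y : ℝ} (h : |y - c| ≤ e) : cl c e y = y := by
  unfold cl
  rw [abs_le] at h
  rw [min_eq_right (by linarith [h.2]), max_eq_right (by linarith [h.1])]

theorem uniform (ht : StGamTop) (h5 : StSigmaLip) (D : DA) (Y : ℝ → ℝ) (hY : Continuous Y)
    (hg : ∀ x, (x, Y x) ∉ Gam) (a b : ℝ) :
    ∃ e > 0, ∃ L, 0 ≤ L ∧ ∀ x ∈ Icc a b, ∀ y y', |y - Y x| < e → |y' - Y x| < e →
      (x, y) ∉ Gam ∧ |D.sigma (x, y) - D.sigma (x, y')| ≤ L * |y - y'| := by
  have hc : IsCompact (Icc a b) := isCompact_Icc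
  refine hc.induction_on (p := fun s => ∃ e > 0, ∃ L, 0 ≤ L ∧ ∀ x ∈ s, ∀ y y', |y - Y x| < e →
    |y' - Y x| < e → (x, y) ∉ Gam ∧ |D.sigma (x, y) - D.sigma (x, y')| ≤ L * |y - y'|) ?_ ?_ ?_ ?_
  · exact ⟨1, one_pos, 0, le_rfl, fun x hx => absurd hx (notMem_empty x)⟩
  · rintro s t hst ⟨e, he, L, hL, h⟩
    exact ⟨e, he, L, hL, fun x hx => h x (hst hx)⟩
  · rintro s t ⟨e, he, L, hL, h⟩ ⟨e', he', L', hL', h'⟩
    refine ⟨min e e', lt_min he he', max L L', hL.trans (le_max_left _ _), ?_⟩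
    rintro x (hx | hx) y y' h1 h2
    · obtain ⟨h3, h4⟩ := h x hx y y' (h1.trans_le (min_le_left _ _)) (h2.trans_le (min_le_left _ _))
      exact ⟨h3, h4.trans (mul_le_mul_of_nonneg_right (le_max_left _ _) (abs_nonneg _))⟩
    · obtain ⟨h3, h4⟩ := h' x hx y y' (h1.trans_le (min_le_right _ _)) (h2.trans_le (min_le_right _ _))
      exact ⟨h3, h4.trans (mul_le_mul_of_nonneg_right (le_max_right _ _) (abs_nonneg _))⟩
  · intro x _
    obtain ⟨e1, he1, L, hL⟩ := h5 D (x, Y x) (hg x)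
    obtain ⟨r, hr, hr'⟩ := Metric.isOpen_iff.mp ht.2.2.2.1 (x, Y x) (hg x)
    have hL0 : ∀ x' y y' : ℝ, |x' - x| < e1 → |y - Y x| < e1 → |y' - Y x| < e1 →
        |D.sigma (x', y) - D.sigma (x', y')| ≤ |L| * |y - y'| := fun x' y y' h1 h2 h3 =>
      (hL x' y y' h1 h2 h3).trans (mul_le_mul_of_nonneg_right (le_abs_self L) (abs_nonneg _))
    have hd : 0 < min e1 r / 2 := by have := lt_min he1 hr; linarith
    obtain ⟨d, hd0, hd'⟩ := Metric.continuous_iff.mp hY x (min e1 r / 2) hd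
    refine ⟨Metric.ball x (min d (min e1 r)), mem_nhdsWithin_of_mem_nhds
      (Metric.ball_mem_nhds x (lt_min hd0 (lt_min he1 hr))), min e1 r / 2, hd, |L|, abs_nonneg _, ?_⟩
    intro x' hx' y y' h1 h2
    rw [Metric.mem_ball, Real.dist_eq] at hx'
    have h3 := hd' x' (by rw [Real.dist_eq]; exact hx'.trans_le (min_le_left _ _))
    rw [Real.dist_eq] at h3
    have h4 : |x' - x| < min e1 r := hx'.trans_le (min_le_right _ _)
    have key : ∀ w : ℝ, |w - Y x'| < min e1 r / 2 → |w - Y x| < min e1 r := by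
      intro w hw
      have : |w - Y x| ≤ |w - Y x'| + |Y x' - Y x| := by
        have := abs_add_le (w - Y x') (Y x' - Y x); rwa [sub_add_sub_cancel] at this
      linarith
    refine ⟨?_, hL0 x' y y' (h4.trans_le (min_le_left _ _)) ((key y h1).trans_le (min_le_left _ _))
      ((key y' h2).trans_le (min_le_left _ _))⟩
    apply hr'
    rw [Metric.mem_ball, Prod.dist_eq, Real.dist_eq, Real.dist_eq]
    exact max_lt (h4.trans_le (min_le_right _ _)) ((key y h1).trans_le (min_le_right _ _))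

end Tube

open Tube in
theorem I_Tube (hP : StPic) (hG : StGron) (ht : StGamTop) (h1 : StLin) (h4 : StSigma)
    (h5 : StSigmaLip) : StTube := by
  intro D Y hY hLam a b ε hε
  have hYc : Continuous Y := continuous_iff_continuousAt.mpr fun x => (hY x).continuousAt
  have hg : ∀ x, (x, Y x) ∉ Gam := fun x hx => (h1 D).2.2.2.2.1 _ hx (hLam x)
  obtain ⟨e0, he0, L, hL0, hU⟩ := uniform ht h5 D Y hYc hg a b
  obtain ⟨hs1, ⟨C, hC⟩, -, -, hs5⟩ := h4 D
  set e1 : ℝ := min e0 ε / 2 with he1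
  have hm : 0 < min e0 ε := lt_min he0 hε
  have e1pos : 0 < e1 := by rw [he1]; linarith
  have e1lt0 : e1 < e0 := by have := min_le_left e0 ε; rw [he1]; linarith
  have e1lt : e1 < ε := by have := min_le_right e0 ε; rw [he1]; linarith
  have hcl : ∀ x y, |cl (Y x) e1 y - Y x| < e0 := fun x y =>
    (cl_near e1pos.le y).trans_lt e1lt0
  set f : ℝ → ℝ → ℝ := fun x y => D.sigma (x, cl (Y x) e1 y) with hf
  have fcont : ∀ y, ContinuousOn (fun x => f x y) (Icc a b) := by
    intro y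
    have hc : Continuous fun x : ℝ => ((x, cl (Y x) e1 y) : P2) := by
      unfold cl
      fun_prop
    exact hs1.comp hc.continuousOn fun x hx =>
      (hU x hx _ _ (hcl x y) (hcl x y)).1
  have flip : ∀ x ∈ Icc a b, ∀ y y', |f x y - f x y'| ≤ L * |y - y'| := fun x hx y y' =>
    ((hU x hx _ _ (hcl x y) (hcl x y')).2).trans
      (mul_le_mul_of_nonneg_left (cl_lip _ _ _ _) hL0)
  have fbdd : ∀ x ∈ Icc a b, ∀ y, |f x y| ≤ C := fun x _ y => hC _
  have hYsol : Sol f a b Y := by
    intro x _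
    have h2 : f x (Y x) = D.S (x, Y x) := by
      rw [hf]
      simp only
      rw [cl_eq (by rw [sub_self, abs_zero]; exact e1pos.le), hs5 _ (hLam x)]
    rw [h2]
    exact (hY x).hasDerivWithinAt
  refine ⟨e1 * Real.exp (-(L * (b - a))), mul_pos e1pos (Real.exp_pos _), ?_⟩
  intro x0 hx0 t htt
  obtain ⟨Yt, hYt0, hYt⟩ := hP f a b L C hL0 fcont flip fbdd x0 hx0 (Y x0 + t)
  have hdist : ∀ x ∈ Icc a b, |Yt x - Y x| < e1 := by
    intro x hx
    have h2 := hG f a b L hL0 flip Yt Y hYt hYsol x hx x0 hx0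
    rw [hYt0, add_sub_cancel_left] at h2
    have h3 : Real.exp (L * |x - x0|) ≤ Real.exp (L * (b - a)) := by
      apply Real.exp_le_exp.mpr
      apply mul_le_mul_of_nonneg_left _ hL0
      rw [abs_le]
      exact ⟨by linarith [hx.1, hx0.2], by linarith [hx.2, hx0.1]⟩
    calc |Yt x - Y x| ≤ Real.exp (L * |x - x0|) * |t| := h2
      _ ≤ Real.exp (L * (b - a)) * |t| := mul_le_mul_of_nonneg_right h3 (abs_nonneg _)
      _ < Real.exp (L * (b - a)) * (e1 * Real.exp (-(L * (b - a)))) :=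
        mul_lt_mul_of_pos_left htt (Real.exp_pos _)
      _ = e1 := by
        rw [Real.exp_neg]
        field_simp
  refine ⟨Yt, hYt0, ?_, ?_⟩
  · intro x hx
    have h2 := hYt x hx
    have h3 : f x (Yt x) = D.sigma (x, Yt x) := by
      rw [hf]
      simp only
      rw [cl_eq (hdist x hx).le]
    rwa [h3] at h2
  · intro x hx
    have h2 := hdist x hx
    exact ⟨h2.trans e1lt, (hU x hx _ _ (h2.trans e1lt0) (h2.trans e1lt0)).1⟩

end Pool.Agent.Work.MP_0d206b_gt.D

end

end
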