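import Pool.Agent.Work.MP_0d206b_gt.Bd.StL

/-! ### L.I_AP4 -/

section

/-! MP_0d206b_gt, item AP4: the planar lemma for attractor leaves. -/

set_option autoImplicit false

open Set Filter Topology
open scoped ContDiff

noncomputable section

namespace Pool.Agent.Work.MP_0d206b_gt

namespace XAP4

/-- the lattice free open box around a vertical segment -/
def box (x m M ε : ℝ) : Set E := {e | |e.1.1 - x| < ε ∧ m - ε < e.1.2 ∧ e.1.2 < M + ε}

theorem box_convex (x m M ε : ℝ) : Convex ℝ (box x m M ε) := by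
  have h1 : box x m M ε = (fun e : E => e.1.1) ⁻¹' (Ioo (x - ε) (x + ε)) ∩
      (fun e : E => e.1.2) ⁻¹' (Ioo (m - ε) (M + ε)) := by
    ext e
    simp only [box, mem_ofPred_eq, mem_inter_iff, mem_preimage, mem_Ioo, abs_lt]
    constructor
    · rintro ⟨⟨h1, h2⟩, h3, h4⟩
      exact ⟨⟨by linarith, by linarith⟩, h3, h4⟩
    · rintro ⟨⟨h1, h2⟩, h3, h4⟩
      exact ⟨⟨by linarith, by linarith⟩, h3, h4⟩
  rw [h1]
  refine Convex.inter ?_ ?_
  · exact (convex_Ioo _ _).is_linear_preimage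
      (f := fun e : E => e.1.1) ⟨fun a b => rfl, fun c a => rfl⟩
  · exact (convex_Ioo _ _).is_linear_preimage
      (f := fun e : E => e.1.2) ⟨fun a b => rfl, fun c a => rfl⟩

theorem box_open (x m M ε : ℝ) : IsOpen (box x m M ε) := by
  have c1 : Continuous (fun e : E => |e.1.1 - x|) :=
    ((continuous_fst.comp continuous_fst).sub continuous_const).abs
  have c2 : Continuous (fun e : E => e.1.2) := continuous_snd.comp continuous_fst
  exact (isOpen_lt c1 continuous_const).inter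
    ((isOpen_lt continuous_const c2).inter (isOpen_lt c2 continuous_const))

theorem exists_box (hG : IsClosed (Gam : Set P2)) (x m M : ℝ) (hmM : m ≤ M)
    (hf : ∀ t ∈ Icc m M, ((x, t) : P2) ∉ Gam) :
    ∃ ε > 0, box x m M ε ⊆ {e : E | e.1 ∉ Gam} := by
  have hK : IsCompact (({x} : Set ℝ) ×ˢ Icc m M) := isCompact_singleton.prod isCompact_Icc
  obtain ⟨δ, hδ, hsub⟩ := hK.exists_thickening_subset_open hG.isOpen_compl (by
    rintro ⟨a, t⟩ ⟨ha, ht⟩
    have : a = x := ha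
    subst this
    exact hf t ht)
  refine ⟨δ, hδ, ?_⟩
  rintro ⟨⟨a, y⟩, τ⟩ ⟨h1, h2, h3⟩
  simp only at h1 h2 h3
  have hin : ((a, y) : P2) ∈ Metric.thickening δ (({x} : Set ℝ) ×ˢ Icc m M) := by
    rw [Metric.mem_thickening_iff]
    refine ⟨(x, max m (min M y)), ⟨rfl, le_max_left _ _, max_le hmM (min_le_left _ _)⟩, ?_⟩
    rw [Prod.dist_eq]
    refine max_lt ?_ ?_
    · simpa [Real.dist_eq] using h1
    · rw [Real.dist_eq, abs_lt]
      constructor
      · rcases le_total m (min M y) with h | h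
        · rw [max_eq_right h]
          have := min_le_right M y
          linarith
        · rw [max_eq_left h]
          linarith
      · rcases le_total M y with h | h
        · rw [min_eq_left h, max_eq_right hmM]
          linarith
        · rw [min_eq_right h]
          have := le_max_right m y
          linarith
  exact hsub hin

variable {N : Type} [TopologicalSpace N] {r : Setoid N} {κ : Type} (A : APart N r κ)

theorem contc (k : κ) : ContinuousOn (A.c k) (A.U k) := by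
  rw [continuousOn_iff_continuous_domRestrict]
  have h := (A.cov k).continuous
  exact continuous_subtype_val.comp h

/-- lifts over convex sets -/
theorem lift (h5 : GS1) (k : κ) (Y : Set E) (hY : Convex ℝ Y) (hYs : Y ⊆ {e : E | e.1 ∉ Gam})
    (b : N) (hb : b ∈ A.U k) (hbY : A.c k b ∈ Y) :
    ∃ s : E → N, ContinuousOn s Y ∧ (∀ e ∈ Y, s e ∈ A.U k ∧ A.c k (s e) = e) ∧ s (A.c k b) = b := by
  classical
  obtain ⟨i1, i2⟩ := h5 Y hY ⟨_, hbY⟩
  let f : C(Y, {e : E | e.1 ∉ Gam}) := ⟨fun e => ⟨e.1, hYs e.2⟩, by fun_prop⟩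
  obtain ⟨F, ⟨hF1, hF2⟩, -⟩ := (A.cov k).existsUnique_continuousMap_lifts f ⟨A.c k b, hbY⟩
    ⟨b, hb⟩ rfl
  refine ⟨fun e => if h : e ∈ Y then (F ⟨e, h⟩ : N) else b, ?_, ?_, ?_⟩
  · rw [continuousOn_iff_continuous_domRestrict]
    have : Y.domRestrict (fun e => if h : e ∈ Y then (F ⟨e, h⟩ : N) else b) =
        fun e : Y => ((F e : A.U k) : N) := by
      funext e
      simp [Set.domRestrict]
    rw [this]
    exact continuous_subtype_val.comp F.continuous
  · intro e he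
    simp only [he, dif_pos]
    refine ⟨(F ⟨e, he⟩).2, ?_⟩
    have := congrArg Subtype.val (congrFun hF2 ⟨e, he⟩)
    exact this
  · simp only [hbY, dif_pos, hF1]

/-- the coordinate map is locally injective -/
theorem loc_inj (k : κ) (b : N) (hb : b ∈ A.U k) :
    ∃ W ∈ 𝓝 b, W ⊆ A.U k ∧ InjOn (A.c k) W := by
  obtain ⟨O, hO, hbO, hinj⟩ := (A.cov k).isLocalHomeomorph.isLocallyInjective ⟨b, hb⟩
  refine ⟨Subtype.val '' O, ?_, ?_, ?_⟩
  · exact ((A.isOpen_U k).isOpenMap_subtype_val O hO).mem_nhds ⟨⟨b, hb⟩, hbO, rfl⟩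
  · rintro _ ⟨p, -, rfl⟩
    exact p.2
  · rintro _ ⟨p, hp, rfl⟩ _ ⟨q, hq, rfl⟩ hpq
    have := hinj hp hq (Subtype.ext hpq)
    rw [this]

/-- near a point in the image of a lift over an open set all points are in the image -/
theorem near (k : κ) (Y : Set E) (hY : IsOpen Y) (s : E → N) (hs : ContinuousOn s Y)
    (hs2 : ∀ e ∈ Y, s e ∈ A.U k ∧ A.c k (s e) = e) (b : N) (hb : b ∈ A.U k) (hbY : A.c k b ∈ Y)
    (hsb : s (A.c k b) = b) :
    ∀ᶠ b' in 𝓝 b, b' ∈ A.U k ∧ A.c k b' ∈ Y ∧ s (A.c k b') = b' := by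
  obtain ⟨W, hW, hWU, hinj⟩ := loc_inj A k b hb
  have hc : ContinuousAt (A.c k) b := (contc A k).continuousAt ((A.isOpen_U k).mem_nhds hb)
  have h1 : ∀ᶠ b' in 𝓝 b, A.c k b' ∈ Y := hc.eventually (hY.mem_nhds hbY)
  have hsc : ContinuousAt (fun b' => s (A.c k b')) b := by
    have : ContinuousAt s (A.c k b) := hs.continuousAt (hY.mem_nhds hbY)
    exact ContinuousAt.comp this hc
  have h2 : ∀ᶠ b' in 𝓝 b, s (A.c k b') ∈ W := by
    apply hsc.eventually
    show W ∈ 𝓝 (s (A.c k b))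
    rw [hsb]
    exact hW
  filter_upwards [h1, h2, hW] with b' e1 e2 e3
  exact ⟨hWU e3, e1, hinj e2 e3 (hs2 _ e1).2⟩

theorem meet (hmk : IsOpenMap (Quotient.mk r)) {b b' : N} (hns : NS (Quotient.mk r b) (Quotient.mk r b'))
    {O O' : Set N} (hO : O ∈ 𝓝 b) (hO' : O' ∈ 𝓝 b') : ∃ b₁ ∈ O, ∃ b₂ ∈ O', r b₁ b₂ := by
  obtain ⟨V, hVO, hV, hbV⟩ := mem_nhds_iff.1 hO
  obtain ⟨V', hVO', hV', hbV'⟩ := mem_nhds_iff.1 hO'
  obtain ⟨q, ⟨b₁, h1, rfl⟩, ⟨b₂, h2, h3⟩⟩ := hns.2 _ _ (hmk V hV) (hmk V' hV') ⟨b, hbV, rfl⟩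
    ⟨b', hbV', rfl⟩
  exact ⟨b₁, hVO h1, b₂, hVO' h2, Quotient.exact h3.symm⟩

end XAP4

open XAP4 in
theorem I_AP4 (h1 : AP0) (h2 : AP1) (h3 : AP2) (h4 : AP3) (h5 : GS1) (h6 : PG1) : AP4 := by
  intro N _ _ r κ A hmk k k' b b' hb hb' hns
  have hk : k = k' := by
    obtain ⟨b₁, e1, b₂, e2, e3⟩ := meet hmk hns ((A.isOpen_U k).mem_nhds hb)
      ((A.isOpen_U k').mem_nhds hb')
    exact A.disj k k' b₂ (h2 N r κ A k b₁ b₂ e1 e3).1 e2
  subst hk
  refine ⟨rfl, ?_, ?_⟩
  · obtain ⟨hx, hLA, hcx, -, -⟩ := h4 N r κ A hmk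
    by_contra hne
    rw [← hx k b hb, ← hx k b' hb'] at hne
    obtain ⟨O, O', hO, hO', ho, ho', hdis⟩ := t2_separation hne
    have m1 : Quotient.mk r b ∈ A.LA := ⟨k, b, hb, rfl⟩
    have m2 : Quotient.mk r b' ∈ A.LA := ⟨k, b', hb', rfl⟩
    obtain ⟨q, ⟨q1, q2⟩, ⟨q3, q4⟩⟩ := hns.2 _ _ (hcx.isOpen_inter_preimage hLA hO)
      (hcx.isOpen_inter_preimage hLA hO') ⟨m1, ho⟩ ⟨m2, ho'⟩
    exact (Set.disjoint_left.1 hdis) q2 q4
  · intro hI
    obtain ⟨hI1, hI2⟩ := hI
    set z : P2 := (A.c k b).1 with hz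
    set z' : P2 := (A.c k b').1 with hz'
    obtain ⟨ε, hε, hbox⟩ := exists_box h6.2.2.2.2.1 z.1 (min z.2 z'.2) (max z.2 z'.2)
      (min_le_max) (fun t ht => hI2 t ht)
    set Y : Set E := XAP4.box z.1 (min z.2 z'.2) (max z.2 z'.2) ε with hYdef
    have hYo : IsOpen Y := box_open _ _ _ _
    have hYc : Convex ℝ Y := box_convex _ _ _ _
    have hbY : A.c k b ∈ Y := by
      refine ⟨?_, ?_, ?_⟩
      · show |(A.c k b).1.1 - z.1| < ε
        rw [← hz]; simpa using hε
      · show min z.2 z'.2 - ε < (A.c k b).1.2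
        rw [← hz]
        have := min_le_left z.2 z'.2
        linarith
      · show (A.c k b).1.2 < max z.2 z'.2 + ε
        rw [← hz]
        have := le_max_left z.2 z'.2
        linarith
    have hb'Y : A.c k b' ∈ Y := by
      refine ⟨?_, ?_, ?_⟩
      · show |(A.c k b').1.1 - z.1| < ε
        rw [← hz', hI1]; simpa using hε
      · show min z.2 z'.2 - ε < (A.c k b').1.2
        rw [← hz']
        have := min_le_right z.2 z'.2
        linarith
      · show (A.c k b').1.2 < max z.2 z'.2 + ε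
        rw [← hz']
        have := le_max_right z.2 z'.2
        linarith
    obtain ⟨s, hs, hs2, hsb⟩ := lift A h5 k Y hYc hbox b hb hbY
    have hnear := near A k Y hYo s hs hs2 b hb hbY hsb
    have claim : b' = s (A.c k b') := by
      by_contra hne
      obtain ⟨O, O', hO, hO', ho, ho', hdis⟩ := t2_separation hne
      have hc : ContinuousAt (A.c k) b' := (contc A k).continuousAt ((A.isOpen_U k).mem_nhds hb')
      have e1 : ∀ᶠ x in 𝓝 b', A.c k x ∈ Y := hc.eventually (hYo.mem_nhds hb'Y)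
      have hsc : ContinuousAt (fun x => s (A.c k x)) b' := by
        have : ContinuousAt s (A.c k b') := hs.continuousAt (hYo.mem_nhds hb'Y)
        exact ContinuousAt.comp this hc
      have e2 : ∀ᶠ x in 𝓝 b', s (A.c k x) ∈ O' := hsc.eventually (hO'.mem_nhds ho')
      have e3 : ∀ᶠ x in 𝓝 b', x ∈ O ∧ x ∈ A.U k ∧ A.c k x ∈ Y ∧ s (A.c k x) ∈ O' := by
        filter_upwards [hO.mem_nhds ho, (A.isOpen_U k).mem_nhds hb', e1, e2] with x a1 a2 a3 a4
        exact ⟨a1, a2, a3, a4⟩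
      obtain ⟨b₁, ⟨f1, f2, f3⟩, b₂, ⟨g1, g2, g3, g4⟩, hr⟩ := meet hmk hns hnear e3
      obtain ⟨-, j2, -⟩ := h2 N r κ A k b₁ b₂ f1 hr
      have hr2 : r (s (A.c k b₁)) (s (A.c k b₂)) :=
        (h3 N r κ A k).2 Y s hYc hbox hs hs2 _ f2 _ g3 j2.1.symm
      rw [f3] at hr2
      have hr3 : r b₂ (s (A.c k b₂)) := r.trans (r.symm hr) hr2
      have hEq : b₂ = s (A.c k b₂) := (h2 N r κ A k b₂ _ g2 hr3).2.2 (hs2 _ g3).2.symm
      rw [← hEq] at g4
      exact (Set.disjoint_left.1 hdis) g1 g4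
    have hr : r (s (A.c k b)) (s (A.c k b')) :=
      (h3 N r κ A k).2 Y s hYc hbox hs hs2 _ hbY _ hb'Y hI1.symm
    rw [hsb, ← claim] at hr
    exact hns.1 (Quotient.sound hr)

end Pool.Agent.Work.MP_0d206b_gt

end

end

/-! ### L0.APL -/

section

/-! MP_0d206b_gt, item APL: local lines through the attractor leaves. -/

set_option autoImplicit false

open Set Filter Topology
open scoped ContDiff

noncomputable section

namespace Pool.Agent.Work.MP_0d206b_gt

namespace L0APL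

variable {N : Type} [TopologicalSpace N] {r : Setoid N} {κ : Type} (A : APart N r κ)

theorem open_image (k : κ) (O : Set E) (hO : IsOpen O) (s : E → N) (hs : ContinuousOn s O)
    (hs2 : ∀ e ∈ O, s e ∈ A.U k ∧ A.c k (s e) = e) : IsOpen (s '' O) := by
  rw [isOpen_iff_mem_nhds]
  rintro _ ⟨e, he, rfl⟩
  have h1 := (hs2 e he).1
  have h2 := (hs2 e he).2
  have h3 := XAP4.near A k O hO s hs hs2 (s e) h1 (by rw [h2]; exact he) (by rw [h2])
  filter_upwards [h3] with b' hb'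
  exact ⟨A.c k b', hb'.2.1, hb'.2.2⟩

end L0APL

theorem I_APL (hGS : GS1) (hAP2 : AP2) (hAP3 : AP3) (hLN : LN) (hPG : PG1) : APL := by
  intro N _ _ r κ A hq a ha
  obtain ⟨k, b, hb, rfl⟩ := ha
  obtain ⟨hx, -, -, -, -⟩ := hAP3 N r κ A hq
  obtain ⟨⟨⟨x0, y0⟩, τ0⟩, hc⟩ : ∃ e : E, A.c k b = e := ⟨_, rfl⟩
  have hbG : ((x0, y0) : P2) ∉ Gam := by
    have h1 := A.maps k hb
    rw [hc] at h1
    exact h1
  obtain ⟨ε, hε, hbox⟩ := XAP4.exists_box hPG.2.2.2.2.1 x0 y0 y0 le_rfl (fun t ht => by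
    have : t = y0 := le_antisymm ht.2 ht.1
    rw [this]; exact hbG)
  obtain ⟨Y, hY⟩ : ∃ Y : Set E, Y = XAP4.box x0 y0 y0 ε := ⟨_, rfl⟩
  have hYo : IsOpen Y := by rw [hY]; exact XAP4.box_open _ _ _ _
  have hYc : Convex ℝ Y := by rw [hY]; exact XAP4.box_convex _ _ _ _
  have hYG : Y ⊆ {e : E | e.1 ∉ Gam} := by rw [hY]; exact hbox
  have hYmem : ∀ t, t ∈ Ioo (-ε) ε → (((x0 + t, y0), τ0) : E) ∈ Y := by
    intro t ht
    rw [hY]
    refine ⟨?_, ?_, ?_⟩
    · show |x0 + t - x0| < ε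
      rw [add_sub_cancel_left, abs_lt]
      exact ht
    · show y0 - ε < y0
      linarith
    · show y0 < y0 + ε
      linarith
  have hYx : ∀ e ∈ Y, e.1.1 - x0 ∈ Ioo (-ε) ε := by
    intro e he
    rw [hY] at he
    exact abs_lt.1 he.1
  have hbY : A.c k b ∈ Y := by
    rw [hc]
    have := hYmem 0 ⟨by linarith, hε⟩
    rw [add_zero] at this
    exact this
  obtain ⟨s, hs, hs2, hsb⟩ := XAP4.lift A hGS k Y hYc hYG b hb hbY
  rw [hc] at hsb
  have hvert := (hAP2 N r κ A k).2 Y s hYc hYG hs hs2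
  have hopen : IsOpenEmbedding (fun t : Ioo (-ε) ε =>
      (fun t : ℝ => Quotient.mk r (s ((x0 + t, y0), τ0))) t) := by
    refine IsOpenEmbedding.of_continuous_injective_isOpenMap ?_ ?_ ?_
    · have h1 : Continuous (fun t : Ioo (-ε) ε => s ((x0 + t, y0), τ0)) :=
        hs.comp_continuous (by fun_prop) (fun t => hYmem t.1 t.2)
      exact continuous_quotient_mk'.comp h1
    · intro t t' htt'
      have h1 := congrArg A.x htt'
      dsimp only at h1
      rw [hx k _ (hs2 _ (hYmem t.1 t.2)).1, hx k _ (hs2 _ (hYmem t'.1 t'.2)).1,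
        (hs2 _ (hYmem t.1 t.2)).2, (hs2 _ (hYmem t'.1 t'.2)).2] at h1
      have h2 : x0 + (t : ℝ) = x0 + (t' : ℝ) := h1
      exact Subtype.ext (add_left_cancel h2)
    · intro O hO
      have hO' : IsOpen (Subtype.val '' O : Set ℝ) := isOpen_Ioo.isOpenMap_subtype_val O hO
      have hT : IsOpen {e : E | e ∈ Y ∧ e.1.1 - x0 ∈ (Subtype.val '' O : Set ℝ)} := by
        refine hYo.inter (hO'.preimage ?_)
        fun_prop
      have hsT : IsOpen (s '' {e : E | e ∈ Y ∧ e.1.1 - x0 ∈ (Subtype.val '' O : Set ℝ)}) :=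
        L0APL.open_image A k _ hT s (hs.mono (fun e he => he.1)) (fun e he => hs2 e he.1)
      have hqT := hq _ hsT
      convert hqT using 1
      ext q
      constructor
      · rintro ⟨t, ht, rfl⟩
        refine ⟨s ((x0 + t, y0), τ0), ⟨((x0 + t, y0), τ0), ⟨hYmem t.1 t.2, ?_⟩, rfl⟩, rfl⟩
        show x0 + (t : ℝ) - x0 ∈ (Subtype.val '' O : Set ℝ)
        rw [add_sub_cancel_left]
        exact ⟨t, ht, rfl⟩
      · rintro ⟨_, ⟨e, ⟨he, t, ht, hte⟩, rfl⟩, rfl⟩
        refine ⟨t, ht, ?_⟩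
        refine Quotient.sound ?_
        refine hvert _ (hYmem t.1 t.2) e he ?_
        show x0 + (t : ℝ) = e.1.1
        rw [hte]; ring
  obtain ⟨θ, -, -, h0, -, hθ⟩ := hLN (Quotient r) ε hε
    (fun t : ℝ => Quotient.mk r (s ((x0 + t, y0), τ0))) hopen
  refine ⟨_, hθ, 0, ?_⟩
  show Quotient.mk r (s ((x0 + θ 0, y0), τ0)) = _
  rw [h0, add_zero, hsb]

end Pool.Agent.Work.MP_0d206b_gt

end

end

/-! ### L.I_GS1 -/

section

/-! Project MP_0d206b_gt, item GS1: convex sets are simply connected and locally path connected. -/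

set_option autoImplicit false

namespace Pool.Agent.Work.MP_0d206b_gt

open Set Filter Topology

theorem I_GS1 : GS1 := by
  intro Y hY hne
  have : ContractibleSpace Y := hY.contractibleSpace hne
  refine ⟨inferInstance, ?_⟩
  have hb : ∀ y : Y, (𝓝 y).HasBasis (fun r : ℝ => 0 < r)
      (fun r => (Subtype.val : Y → E) ⁻¹' (Metric.ball (y : E) r)) := by
    intro y
    rw [nhds_subtype_eq_comap]
    exact (Metric.nhds_basis_ball (x := (y : E))).comap _
  refine LocallyPathConnectedSpace.of_bases hb ?_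
  intro y r hr
  have h1 : IsPathConnected (Metric.ball (y : E) r ∩ Y) :=
    ((convex_ball (y : E) r).inter hY).isPathConnected ⟨y, Metric.mem_ball_self hr, y.2⟩
  have h2 := h1.preimage_coe (U := Y) inter_subset_right
  have h3 : (Subtype.val : Y → E) ⁻¹' (Metric.ball (y : E) r ∩ Y) =
      (Subtype.val : Y → E) ⁻¹' (Metric.ball (y : E) r) := by
    ext z
    simp
  rw [h3] at h2
  exact h2

end Pool.Agent.Work.MP_0d206b_gt

end

/-! ### L.I_NSg -/

section

/-!
# [0d206b L NSg] two non separated points on local lines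
-/

open Set Filter Topology
open scoped ContDiff

noncomputable section

namespace Pool.Agent.Work.MP_0d206b_gt

namespace XNSg

theorem image_nhds {X : Type} [TopologicalSpace X] {ε' : ℝ} {g : ℝ → X} (hε' : 0 < ε')
    (hg : IsOpenEmbedding (fun t : Ioo (-ε') ε' => g t)) {η : ℝ} (hη : 0 < η) :
    {x : X | ∃ u ∈ Ioo (-η) η, x = g u} ∈ 𝓝 (g 0) := by
  have hO : IsOpen {t : Ioo (-ε') ε' | (t : ℝ) ∈ Ioo (-η) η} :=
    isOpen_Ioo.preimage continuous_subtype_val
  have h1 := hg.isOpenMap _ hO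
  have h0 : (0 : ℝ) ∈ Ioo (-ε') ε' := ⟨by linarith, hε'⟩
  refine mem_of_superset (h1.mem_nhds ⟨⟨0, h0⟩, ⟨?_, ?_⟩, rfl⟩) ?_
  · show -η < (0 : ℝ)
    linarith
  · exact hη
  · rintro _ ⟨t, ht, rfl⟩
    exact ⟨t, ht, rfl⟩

end XNSg

theorem I_NSg (h1 : U05i) : NSg := by
  intro X _ hX ε ε' f g hε hε' hf hg hNS
  have h2 := (h1 X hX ε f hε hf (g 0) (Ne.symm hNS.1)).1.1 hNS
  rcases h2 with h2 | h2
  · refine ⟨-1, Or.inr rfl, fun η hη => ?_⟩
    have h3 := h2 (XNSg.image_nhds hε' hg hη)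
    rw [mem_map, mem_nhdsLT_iff_exists_Ioo_subset] at h3
    obtain ⟨l, hl, h4⟩ := h3
    have hl' : l < 0 := hl
    refine ⟨min (-l) (ε / 2), lt_min (by linarith) (by linarith),
      (min_le_right _ _).trans_lt (by linarith), fun t ht => ?_⟩
    have h5 : t < -l := lt_of_lt_of_le ht.2 (min_le_left _ _)
    have h6 : -1 * t ∈ Ioo l 0 := ⟨by linarith, by linarith [ht.1]⟩
    exact h4 h6
  · refine ⟨1, Or.inl rfl, fun η hη => ?_⟩
    have h3 := h2 (XNSg.image_nhds hε' hg hη)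
    rw [mem_map, mem_nhdsGT_iff_exists_Ioo_subset] at h3
    obtain ⟨l, hl, h4⟩ := h3
    have hl' : 0 < l := hl
    refine ⟨min l (ε / 2), lt_min hl' (by linarith),
      (min_le_right _ _).trans_lt (by linarith), fun t ht => ?_⟩
    have h5 : t < l := lt_of_lt_of_le ht.2 (min_le_left _ _)
    have h6 : 1 * t ∈ Ioo 0 l := ⟨by linarith [ht.1], by linarith⟩
    exact h4 h6

end Pool.Agent.Work.MP_0d206b_gt

end

end

/-! ### L.I_PG1 -/

section

open Set Filter Topology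

noncomputable section

namespace Pool.Agent.Work.MP_0d206b_gt

namespace XPG1

theorem irr_aux {c : ℝ} (hc : Irrational c) (i j : ℤ) (h : (i : ℝ) + j * c = 0) :
    i = 0 ∧ j = 0 := by
  by_cases hj : j = 0
  · subst hj
    refine ⟨?_, rfl⟩
    simpa using h
  · exfalso
    apply hc
    refine ⟨-(i : ℚ) / j, ?_⟩
    have hj' : (j : ℝ) ≠ 0 := by exact_mod_cast hj
    push_cast
    field_simp
    linarith

theorem prod_aux (m : P2) (hm : m ∈ Gam) (h0 : m ≠ 0) : 1 ≤ |m.1 * m.2| := by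
  obtain ⟨i, j, rfl⟩ := hm
  have h1 := Real.goldenRatio_mul_goldenConj
  have h2 := Real.goldenRatio_add_goldenConj
  have he : ((i : ℝ) + j * Real.goldenRatio) * (i + j * Real.goldenConj) =
      ((i ^ 2 + i * j - j ^ 2 : ℤ) : ℝ) := by
    push_cast
    linear_combination (j : ℝ) ^ 2 * h1 + (i : ℝ) * j * h2
  show 1 ≤ |((i : ℝ) + j * Real.goldenRatio) * (i + j * Real.goldenConj)|
  have hne : ((i : ℝ) + j * Real.goldenRatio) * (i + j * Real.goldenConj) ≠ 0 := by
    intro h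
    apply h0
    rcases mul_eq_zero.1 h with h | h
    · obtain ⟨rfl, rfl⟩ := irr_aux Real.goldenRatio_irrational i j h
      ext <;> simp
    · obtain ⟨rfl, rfl⟩ := irr_aux Real.goldenConj_irrational i j h
      ext <;> simp
  rw [he] at hne ⊢
  rw [← Int.cast_abs]
  have : (i ^ 2 + i * j - j ^ 2 : ℤ) ≠ 0 := by exact_mod_cast hne
  exact_mod_cast Int.one_le_abs this

end XPG1

theorem I_PG1 : PG1 := by
  have key : ∀ m ∈ Gam, m ≠ 0 → 1 ≤ |m.1 * m.2| := XPG1.prod_aux
  have hd : ∀ m ∈ Gam, ∀ m' ∈ Gam, m ≠ m' → 1 ≤ dist m m' := by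
    intro m hm m' hm' hne
    by_contra hlt
    push Not at hlt
    have h1 := key (m - m') (Gam.sub_mem hm hm') (sub_ne_zero.2 hne)
    rw [Prod.dist_eq, max_lt_iff, Real.dist_eq, Real.dist_eq] at hlt
    have h2 : |(m - m').1 * (m - m').2| < 1 := by
      rw [abs_mul]
      have ha : |(m - m').1| < 1 := hlt.1
      have hb : |(m - m').2| < 1 := hlt.2
      calc |(m - m').1| * |(m - m').2| ≤ |(m - m').1| * 1 :=
            mul_le_mul_of_nonneg_left hb.le (abs_nonneg _)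
        _ < 1 := by linarith
    linarith
  refine ⟨key, ?_, ?_, hd, ?_, 2, ?_⟩
  · intro m hm m' hm' h
    by_contra hne
    have h1 := key (m - m') (Gam.sub_mem hm hm') (sub_ne_zero.2 hne)
    have : (m - m').1 = 0 := by simp [h]
    rw [this, zero_mul, abs_zero] at h1
    linarith
  · intro m hm m' hm' h
    by_contra hne
    have h1 := key (m - m') (Gam.sub_mem hm hm') (sub_ne_zero.2 hne)
    have : (m - m').2 = 0 := by simp [h]
    rw [this, mul_zero, abs_zero] at h1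
    linarith
  · exact Metric.isClosed_of_pairwise_le_dist one_pos (fun x hx y hy hxy => hd x hx y hy hxy)
  · intro z
    have h1 := Real.goldenRatio_mul_goldenConj
    have h2 := Real.goldenRatio_add_goldenConj
    have hgr1 := Real.one_lt_goldenRatio
    have hgr2 := Real.goldenRatio_lt_two
    have hne : Real.goldenRatio - Real.goldenConj ≠ 0 := by
      intro h
      linarith [Real.goldenConj_neg, Real.goldenRatio_pos]
    obtain ⟨b, hb⟩ : ∃ b : ℝ, b = (z.1 - z.2) / (Real.goldenRatio - Real.goldenConj) := ⟨_, rfl⟩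
    obtain ⟨a, ha⟩ : ∃ a : ℝ, a = z.1 - b * Real.goldenRatio := ⟨_, rfl⟩
    have hb' : b * (Real.goldenRatio - Real.goldenConj) = z.1 - z.2 := by
      rw [hb]; field_simp
    have hz1 : z.1 = a + b * Real.goldenRatio := by rw [ha]; ring
    have hz2 : z.2 = a + b * Real.goldenConj := by rw [ha]; linear_combination hb'
    refine ⟨(round a + round b * Real.goldenRatio, round a + round b * Real.goldenConj),
      ⟨round a, round b, rfl⟩, ?_⟩
    have hra := abs_sub_round a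
    have hrb := abs_sub_round b
    rw [Prod.dist_eq, max_le_iff, Real.dist_eq, Real.dist_eq]
    constructor
    · show |z.1 - (round a + round b * Real.goldenRatio)| ≤ 2
      have : z.1 - (round a + round b * Real.goldenRatio) =
          (a - round a) + (b - round b) * Real.goldenRatio := by rw [hz1]; ring
      rw [this]
      calc |(a - round a) + (b - round b) * Real.goldenRatio| ≤
          |a - round a| + |(b - round b) * Real.goldenRatio| := abs_add_le _ _
        _ ≤ 1 / 2 + 1 / 2 * 2 := by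
          rw [abs_mul, abs_of_pos Real.goldenRatio_pos]
          gcongr
        _ ≤ 2 := by norm_num
    · show |z.2 - (round a + round b * Real.goldenConj)| ≤ 2
      have : z.2 - (round a + round b * Real.goldenConj) =
          (a - round a) + (b - round b) * Real.goldenConj := by rw [hz2]; ring
      rw [this]
      have hc : |Real.goldenConj| ≤ 1 := by
        rw [abs_of_neg Real.goldenConj_neg]
        linarith
      calc |(a - round a) + (b - round b) * Real.goldenConj| ≤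
          |a - round a| + |(b - round b) * Real.goldenConj| := abs_add_le _ _
        _ ≤ 1 / 2 + 1 / 2 * 1 := by
          rw [abs_mul]
          gcongr
        _ ≤ 2 := by norm_num

end Pool.Agent.Work.MP_0d206b_gt

end

end

/-! ### L.I_U05i -/

section

/-!
# MP_0d206b_gt, item U05i: germ lemma for local lines
-/

open Set Filter Topology
open scoped ContDiff

noncomputable section

namespace Pool.Agent.Work.MP_0d206b_gt

namespace XU05i

/-- an increasing homeomorphism of the line onto an interval -/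
theorem exists_homeo (ε : ℝ) (hε : 0 < ε) : ∃ H : ℝ ≃ₜ Ioo (-ε) ε,
    ((H 0 : Ioo (-ε) ε) : ℝ) = 0 ∧ StrictMono (fun t => ((H t : Ioo (-ε) ε) : ℝ)) := by
  let g : Ioo (-1 : ℝ) 1 ≃o Ioo (-ε) ε :=
    { toFun := fun t => ⟨ε * t, by
        have h1 := t.2.1
        have h2 := t.2.2
        constructor <;> nlinarith⟩
      invFun := fun t => ⟨t / ε, by
        have h1 := t.2.1
        have h2 := t.2.2
        constructor
        · rw [lt_div_iff₀ hε]; linarith
        · rw [div_lt_iff₀ hε]; linarith⟩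
      left_inv := fun t => by
        ext
        show ε * t / ε = t
        field_simp
      right_inv := fun t => by
        ext
        show ε * (t / ε) = t
        field_simp
      map_rel_iff' := by
        intro a b
        show ε * a ≤ ε * b ↔ a ≤ b
        rw [mul_le_mul_iff_right₀ hε]
        rfl }
  let h := (orderIsoIooNegOneOne ℝ).trans g
  refine ⟨h.toHomeomorph, ?_, ?_⟩
  · show ε * ((orderIsoIooNegOneOne ℝ 0 : Ioo (-1 : ℝ) 1) : ℝ) = 0
    have : ((orderIsoIooNegOneOne ℝ 0 : Ioo (-1 : ℝ) 1) : ℝ) = 0 := by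
      simp [orderIsoIooNegOneOne]
    rw [this, mul_zero]
  · intro a b hab
    exact h.strictMono hab

end XU05i

theorem I_U05i (h1 : U05) : U05i := by
  intro X _ hX ε f hε hf w hw
  obtain ⟨H, H0, Hm⟩ := XU05i.exists_homeo ε hε
  let k : ℝ → ℝ := fun t => ((H t : Ioo (-ε) ε) : ℝ)
  have hk0 : k 0 = 0 := H0
  have hkm : StrictMono k := Hm
  have hko : IsOpenEmbedding k := isOpen_Ioo.isOpenEmbedding_subtypeVal.comp H.isOpenEmbedding
  have hF : IsOpenEmbedding (f ∘ k) := hf.comp H.isOpenEmbedding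
  have hlt : map k (𝓝[<] 0) = 𝓝[<] 0 := by
    have h := hko.map_nhdsWithin_preimage_eq (Iio 0) 0
    rw [hk0] at h
    have hp : k ⁻¹' Iio 0 = Iio 0 := by
      ext t
      rw [mem_preimage, mem_Iio, mem_Iio]
      conv_lhs => rw [← hk0]
      exact hkm.lt_iff_lt
    rw [hp] at h
    exact h
  have hgt : map k (𝓝[>] 0) = 𝓝[>] 0 := by
    have h := hko.map_nhdsWithin_preimage_eq (Ioi 0) 0
    rw [hk0] at h
    have hp : k ⁻¹' Ioi 0 = Ioi 0 := by
      ext t
      rw [mem_preimage, mem_Ioi, mem_Ioi]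
      conv_lhs => rw [← hk0]
      exact hkm.lt_iff_lt
    rw [hp] at h
    exact h
  have h2 := h1 X hX (f ∘ k) hF 0 w (by rw [Function.comp_apply, hk0]; exact hw)
  have e1 : Tendsto (f ∘ k) (𝓝[<] 0) (𝓝 w) ↔ Tendsto f (𝓝[<] 0) (𝓝 w) := by
    rw [← tendsto_map'_iff, hlt]
  have e2 : Tendsto (f ∘ k) (𝓝[>] 0) (𝓝 w) ↔ Tendsto f (𝓝[>] 0) (𝓝 w) := by
    rw [← tendsto_map'_iff, hgt]
  rw [e1, e2, Function.comp_apply, hk0] at h2
  exact h2

end Pool.Agent.Work.MP_0d206b_gt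

end

end

/-! ### L0.GM -/

section

/-!
# [0d206b L0 GM] matching germs of two local lines at non separated points
-/

open Set Filter Topology
open scoped ContDiff

noncomputable section

namespace Pool.Agent.Work.MP_0d206b_gt

theorem I_GM (hU5 : U05) (_hLN : LN) : GM := by
  intro X _ hX ε ε' hε hε' g g' hg hg' hNS
  obtain ⟨σ, hσ, hN⟩ := I_NSg (I_U05i hU5) X hX ε ε' g g' hε hε' hg hg' hNS
  have hσ1 : |σ| = 1 := by
    rcases hσ with rfl | rfl <;> simp
  have hmem : ∀ t ∈ Ioo (0 : ℝ) ε, σ * t ∈ Ioo (-ε) ε := by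
    intro t ht
    rw [mem_Ioo, ← abs_lt, abs_mul, hσ1, one_mul, abs_of_pos ht.1]
    exact ht.2
  -- the first range of parameters
  obtain ⟨δ₁, hδ₁, hδε, h1⟩ := hN ε' hε'
  -- shrink it such that the centre of the second line is not met
  obtain ⟨δ, hδ, hδ1, hne⟩ : ∃ δ > 0, δ ≤ δ₁ ∧ ∀ t ∈ Ioo (0 : ℝ) δ, g (σ * t) ≠ g' 0 := by
    by_cases hex : ∃ t ∈ Ioo (0 : ℝ) δ₁, g (σ * t) = g' 0
    · obtain ⟨t₁, ht₁, he⟩ := hex
      refine ⟨t₁, ht₁.1, ht₁.2.le, fun t ht h => ?_⟩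
      have hA := hmem t ⟨ht.1, ht.2.trans (ht₁.2.trans hδε)⟩
      have hB := hmem t₁ ⟨ht₁.1, ht₁.2.trans hδε⟩
      have h2 : (⟨σ * t, hA⟩ : Ioo (-ε) ε) = ⟨σ * t₁, hB⟩ := hg.injective (h.trans he.symm)
      have h3 : σ * t = σ * t₁ := congrArg Subtype.val h2
      have h4 : σ ≠ 0 := by
        intro h0
        rw [h0] at hσ1
        simp at hσ1
      exact ht.2.ne (mul_left_cancel₀ h4 h3)
    · push Not at hex
      exact ⟨δ₁, hδ₁, le_rfl, hex⟩
  have : Nonempty (Ioo (-ε') ε') := ⟨⟨0, by linarith, hε'⟩⟩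
  let Φ := hg'.toOpenPartialHomeomorph
  have hΦ : ∀ (u : ℝ) (hu : u ∈ Ioo (-ε') ε'), Φ.symm (g' u) = ⟨u, hu⟩ := by
    intro u hu
    exact Φ.left_inv (x := ⟨u, hu⟩) (by simp [Φ])
  have hΦt : Φ.target = range (fun t : Ioo (-ε') ε' => g' t) := by simp [Φ]
  let u : ℝ → ℝ := fun t => ((Φ.symm (g (σ * t)) : Ioo (-ε') ε') : ℝ)
  -- the defining property of `u`
  have hu : ∀ t v, v ∈ Ioo (-ε') ε' → g (σ * t) = g' v → u t = v := by
    intro t v hv h
    show ((Φ.symm (g (σ * t)) : Ioo (-ε') ε') : ℝ) = v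
    rw [h, hΦ v hv]
  refine ⟨σ, hσ, δ, hδ, hδ1.trans hδε.le, u, ?_, ?_, ?_⟩
  · -- continuity
    have hgc : ContinuousOn (fun t => g (σ * t)) (Ioo 0 δ) := by
      have h5 : ContinuousOn g (Ioo (-ε) ε) := by
        rw [continuousOn_iff_continuous_domRestrict]
        exact hg.continuous
      refine h5.comp (by fun_prop) ?_
      intro t ht
      exact hmem t ⟨ht.1, ht.2.trans_le (hδ1.trans hδε.le)⟩
    have h6 : ContinuousOn (fun t => Φ.symm (g (σ * t))) (Ioo 0 δ) := by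
      refine Φ.continuousOn_symm.comp hgc ?_
      intro t ht
      rw [hΦt]
      obtain ⟨v, hv, h7⟩ := h1 t ⟨ht.1, ht.2.trans_le hδ1⟩
      exact ⟨⟨v, hv⟩, h7.symm⟩
    exact continuous_subtype_val.comp_continuousOn h6
  · -- the limit
    rw [Metric.tendsto_nhds]
    intro η hη
    obtain ⟨d, hd, _, h8⟩ := hN (min η ε') (lt_min hη hε')
    filter_upwards [Ioo_mem_nhdsGT hd] with t ht
    obtain ⟨v, hv, h9⟩ := h8 t ht
    have hv1 : |v| < min η ε' := abs_lt.2 hv
    rw [hu t v (abs_lt.1 (hv1.trans_le (min_le_right _ _))) h9, Real.dist_eq, sub_zero]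
    exact hv1.trans_le (min_le_left _ _)
  · intro t ht
    obtain ⟨v, hv, h9⟩ := h1 t ⟨ht.1, ht.2.trans_le hδ1⟩
    rw [hu t v hv h9]
    refine ⟨abs_lt.2 hv, ?_, h9⟩
    rintro rfl
    exact hne t ht h9

end Pool.Agent.Work.MP_0d206b_gt

end

end

/-! ### L.I_AP2 -/

section

open Set Filter Topology
open scoped ContDiff

noncomputable section

namespace Pool.Agent.Work.MP_0d206b_gt

namespace XAP2

variable {N : Type} [TopologicalSpace N]

theorem lift {U : Set N} {c : N → E} {B : Set E} {maps : MapsTo c U B}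
    (cov : IsCoveringMap (maps.restrict c U B)) (h2 : GS1) {Y : Set E} (hY : Convex ℝ Y)
    (hYB : Y ⊆ B) {b : N} (hb : b ∈ U) (hbY : c b ∈ Y) :
    ∃ s : E → N, ContinuousOn s Y ∧ (∀ e ∈ Y, s e ∈ U ∧ c (s e) = e) ∧ s (c b) = b := by
  obtain ⟨i1, i2⟩ := h2 Y hY ⟨_, hbY⟩
  obtain ⟨F, ⟨hF0, hF⟩, -⟩ := cov.existsUnique_continuousMap_lifts
    (⟨fun y : Y => (⟨y.1, hYB y.2⟩ : B), by fun_prop⟩ : C(Y, B)) ⟨c b, hbY⟩ ⟨b, hb⟩
    (Subtype.ext rfl)
  classical
  refine ⟨fun e => if h : e ∈ Y then (F ⟨e, h⟩ : N) else b, ?_, ?_, ?_⟩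
  · rw [continuousOn_iff_continuous_domRestrict]
    have h1 : Continuous (fun y : Y => (F y : N)) := continuous_subtype_val.comp F.continuous
    refine h1.congr (fun y => ?_)
    rw [domRestrict_apply, dif_pos y.2]
  · intro e he
    dsimp only
    rw [dif_pos he]
    refine ⟨(F ⟨e, he⟩).2, ?_⟩
    have h1 := congrFun hF ⟨e, he⟩
    exact congrArg Subtype.val h1
  · dsimp only
    rw [dif_pos hbY, hF0]

theorem unique {U : Set N} {c : N → E} {B : Set E} {maps : MapsTo c U B}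
    (cov : IsCoveringMap (maps.restrict c U B)) {K : Set E} (hK : IsPreconnected K)
    {s s' : E → N} (hs : ContinuousOn s K) (hs' : ContinuousOn s' K)
    (h : ∀ e ∈ K, s e ∈ U ∧ c (s e) = e) (h' : ∀ e ∈ K, s' e ∈ U ∧ c (s' e) = e)
    {e₀ : E} (he₀ : e₀ ∈ K) (heq : s e₀ = s' e₀) : ∀ e ∈ K, s e = s' e := by
  have : PreconnectedSpace K := Subtype.preconnectedSpace hK
  have h1 := cov.eq_of_comp_eq (g₁ := fun e : K => (⟨s e, (h e e.2).1⟩ : U))
    (g₂ := fun e : K => (⟨s' e, (h' e e.2).1⟩ : U))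
    ((continuousOn_iff_continuous_domRestrict.1 hs).subtype_mk _)
    ((continuousOn_iff_continuous_domRestrict.1 hs').subtype_mk _) ?_ ⟨e₀, he₀⟩ (Subtype.ext heq)
  · intro e he
    exact congrArg Subtype.val (congrFun h1 ⟨e, he⟩)
  · funext e
    apply Subtype.ext
    show c (s e) = c (s' e)
    rw [(h e e.2).2, (h' e e.2).2]

theorem mem_PA {Y : Set E} (hY : Convex ℝ Y) (hYB : Y ⊆ {e : E | e.1 ∉ Gam}) {e e' : E}
    (he : e ∈ Y) (he' : e' ∈ Y) (hx : e.1.1 = e'.1.1) : e' ∈ PA e.1 := by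
  refine ⟨hx.symm, fun t ht => ?_⟩
  have h1 : t ∈ segment ℝ e.1.2 e'.1.2 := by rw [segment_eq_uIcc]; exact ht
  obtain ⟨a, b, ha, hb, hab, hab'⟩ := h1
  have h2 := hYB (hY he he' ha hb hab)
  have h3 : (a • e + b • e').1 = (e.1.1, t) := by
    ext
    · show a * e.1.1 + b * e'.1.1 = e.1.1
      rw [← hx, ← add_mul, hab, one_mul]
    · show a * e.1.2 + b * e'.1.2 = t
      exact hab'
  rw [mem_ofPred_eq, h3] at h2
  exact h2

end XAP2

theorem I_AP2 (h1 : AP0) (h2 : GS1) : AP2 := by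
  obtain ⟨hconv, hself, -, hsub, -⟩ := h1
  intro N _ r κ A k
  constructor
  · intro b hb e he
    have hmem : A.c k b ∈ PA (A.c k b).1 := hself _ (A.maps k hb)
    obtain ⟨s, hs1, hs2, hs3⟩ := XAP2.lift (A.cov k) h2 (hconv (A.c k b).1) (hsub _) hb hmem
    exact ⟨s e, (hs2 e he).1, (hs2 e he).2, (A.leaf_iff k b (s e) hb).2 ⟨s, hs1, hs2, hs3, e, he, rfl⟩⟩
  · intro Y s hY hYB hs hsm e he e' he' hx
    obtain ⟨hbU, hbc⟩ := hsm e he
    have he'P : e' ∈ PA e.1 := XAP2.mem_PA hY hYB he he' hx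
    have hmem : A.c k (s e) ∈ PA (A.c k (s e)).1 := hself _ (A.maps k hbU)
    obtain ⟨s₀, h1, h2', h3⟩ := XAP2.lift (A.cov k) h2 (hconv (A.c k (s e)).1) (hsub _) hbU hmem
    rw [hbc] at h1 h2' h3
    have hmem' : e ∈ PA e.1 := by rw [hbc] at hmem; exact hmem
    have hseg1 : segment ℝ e e' ⊆ Y := hY.segment_subset he he'
    have hseg2 : segment ℝ e e' ⊆ PA e.1 := (hconv e.1).segment_subset hmem' he'P
    have huniq := XAP2.unique (A.cov k) (convex_segment e e').isPreconnected (hs.mono hseg1)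
      (h1.mono hseg2) (fun x hx => hsm x (hseg1 hx)) (fun x hx => h2' x (hseg2 hx))
      (left_mem_segment ℝ e e') h3.symm e' (right_mem_segment ℝ e e')
    refine (A.leaf_iff k (s e) (s e') hbU).2 ?_
    rw [hbc]
    exact ⟨s₀, h1, h2', h3, e', he'P, huniq.symm⟩

end Pool.Agent.Work.MP_0d206b_gt

end

end

/-! ### L.I_AP10 -/

section

/-! Item AP10: openness of the quotient map at the leaves of the attractor part. -/

open Set Filter Topology
open scoped ContDiff

noncomputable section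

namespace Pool.Agent.Work.MP_0d206b_gt

namespace XAP10

variable {N : Type} [TopologicalSpace N]

/-- a continuous section of a covering over an open set is open -/
theorem section_open {U : Set N} {c : N → E} {B : Set E} {maps : MapsTo c U B}
    (hU : IsOpen U) (cov : IsCoveringMap (maps.restrict c U B)) {Y : Set E} (hYo : IsOpen Y)
    (hYB : Y ⊆ B) {s : E → N} (hs : ContinuousOn s Y) (hm : ∀ e ∈ Y, s e ∈ U ∧ c (s e) = e)
    {O : Set E} (hOY : O ⊆ Y) (hO : IsOpen O) : IsOpen (s '' O) := by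
  let p := maps.restrict c U B
  have hp : IsLocalHomeomorph p := cov.isLocalHomeomorph
  let s' : Y → U := fun e => ⟨s e.1, (hm e.1 e.2).1⟩
  have hs'c : Continuous s' :=
    Continuous.subtype_mk (continuousOn_iff_continuous_domRestrict.1 hs) _
  have hcomp : p ∘ s' = Set.inclusion hYB := by
    funext e
    exact Subtype.ext (hm e.1 e.2).2
  have hincl : IsOpenEmbedding (Set.inclusion hYB) := by
    refine ⟨Topology.IsEmbedding.inclusion hYB, ?_⟩
    rw [Set.range_inclusion hYB]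
    exact hYo.preimage continuous_subtype_val
  have hloc : IsLocalHomeomorph s' := by
    have h0 : IsLocalHomeomorph (p ∘ s') := by
      rw [hcomp]
      exact hincl.isLocalHomeomorph
    exact h0.of_comp hp hs'c
  have h1 : IsOpen (s' '' (Subtype.val ⁻¹' O)) :=
    hloc.isOpenMap _ (hO.preimage continuous_subtype_val)
  have h2 : IsOpen ((Subtype.val : U → N) '' (s' '' (Subtype.val ⁻¹' O))) :=
    hU.isOpenMap_subtype_val _ h1
  have h3 : s '' O = (Subtype.val : U → N) '' (s' '' (Subtype.val ⁻¹' O)) := by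
    ext b
    constructor
    · rintro ⟨e, he, rfl⟩
      exact ⟨s' ⟨e, hOY he⟩, ⟨⟨e, hOY he⟩, he, rfl⟩, rfl⟩
    · rintro ⟨_, ⟨e, he, rfl⟩, rfl⟩
      exact ⟨e.1, he, rfl⟩
  rw [h3]
  exact h2

theorem compact_seg (x y : E) : IsCompact (segment ℝ x y) := by
  rw [segment_eq_image]
  exact isCompact_Icc.image (by fun_prop)

end XAP10

theorem I_AP10 (h1 : AP0) (h2 : AP1) (h3 : AP2) : AP10 := by
  intro N _ r κ A k b b' hb hr O hO
  obtain ⟨hconv, hself, -, hsub, -⟩ := h1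
  obtain ⟨hb', hIA, -⟩ := h2 N r κ A k b b' hb hr
  have hgc : IsClosed (Gam : Set P2) := I_PG1.2.2.2.2.1
  have hWo : IsOpen {e : E | e.1 ∉ Gam} := (hgc.preimage continuous_fst).isOpen_compl
  have hmem : A.c k b ∈ PA (A.c k b).1 := hself _ (A.maps k hb)
  have hmem' : A.c k b' ∈ PA (A.c k b).1 := hIA
  have hsegPA : segment ℝ (A.c k b) (A.c k b') ⊆ PA (A.c k b).1 :=
    (hconv (A.c k b).1).segment_subset hmem hmem'
  obtain ⟨δ, hδ, hth⟩ := (XAP10.compact_seg (A.c k b) (A.c k b')).exists_thickening_subset_open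
    hWo (hsegPA.trans (hsub _))
  set Y := Metric.thickening δ (segment ℝ (A.c k b) (A.c k b')) with hY
  have hYo : IsOpen Y := Metric.isOpen_thickening
  have hYc : Convex ℝ Y := (convex_segment _ _).thickening δ
  have hsegY : segment ℝ (A.c k b) (A.c k b') ⊆ Y := Metric.self_subset_thickening hδ _
  have hbY : A.c k b ∈ Y := hsegY (left_mem_segment ℝ _ _)
  have hbY' : A.c k b' ∈ Y := hsegY (right_mem_segment ℝ _ _)
  obtain ⟨s, hs1, hs2, hs3⟩ := XAP2.lift (A.cov k) I_GS1 hYc hth hb hbY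
  obtain ⟨f, hf1, hf2, hf3, e', he', hfe'⟩ := (A.leaf_iff k b b' hb).1 hr
  have hce : A.c k b' = e' := by rw [← hfe']; exact (hf2 e' he').2
  have huniq := XAP2.unique (A.cov k) (convex_segment (A.c k b) (A.c k b')).isPreconnected
    (hs1.mono hsegY) (hf1.mono hsegPA) (fun x hx => hs2 x (hsegY hx))
    (fun x hx => hf2 x (hsegPA hx)) (left_mem_segment ℝ _ _) (hs3.trans hf3.symm)
    (A.c k b') (right_mem_segment ℝ _ _)
  have hsb' : s (A.c k b') = b' := by rw [huniq, hce, hfe']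
  obtain ⟨O', hO'O, hO'o, hbO'⟩ := mem_nhds_iff.1 hO
  have hY1 : IsOpen (Y ∩ s ⁻¹' O') := hs1.isOpen_inter_preimage hYo hO'o
  set v : E := A.c k b - A.c k b' with hv
  have hY2 : IsOpen (Y ∩ (fun e : E => e + v) ⁻¹' (Y ∩ s ⁻¹' O')) :=
    hYo.inter (hY1.preimage (by fun_prop))
  have hopen := XAP10.section_open (A.isOpen_U k) (A.cov k) hYo hth hs1 hs2
    (O := Y ∩ (fun e : E => e + v) ⁻¹' (Y ∩ s ⁻¹' O')) inter_subset_left hY2
  have hin : b' ∈ s '' (Y ∩ (fun e : E => e + v) ⁻¹' (Y ∩ s ⁻¹' O')) := by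
    refine ⟨A.c k b', ⟨hbY', ?_⟩, hsb'⟩
    have e1 : A.c k b' + v = A.c k b := by rw [hv]; abel
    show A.c k b' + v ∈ Y ∩ s ⁻¹' O'
    rw [e1]
    exact ⟨hbY, by rw [mem_preimage, hs3]; exact hbO'⟩
  filter_upwards [hopen.mem_nhds hin] with b'' hb''
  obtain ⟨e, ⟨heY, hev⟩, rfl⟩ := hb''
  have hev' : e + v ∈ Y ∩ s ⁻¹' O' := hev
  refine ⟨s (e + v), hO'O hev'.2, ?_⟩
  refine (h3 N r κ A k).2 Y s hYc hth hs1 hs2 (e + v) hev'.1 e heY ?_
  have hx : (A.c k b').1.1 = (A.c k b).1.1 := hIA.1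
  show e.1.1 + v.1.1 = e.1.1
  have hv0 : v.1.1 = 0 := by
    rw [hv]
    show (A.c k b).1.1 - (A.c k b').1.1 = 0
    rw [hx, sub_self]
  rw [hv0, add_zero]

end Pool.Agent.Work.MP_0d206b_gt

end

end

/-! ### L.I_AP9 -/

section

/-! Project MP_0d206b_gt, item AP9: local lines through the leaves of the attractor part. -/

open Set Filter Topology
open scoped ContDiff

noncomputable section

namespace Pool.Agent.Work.MP_0d206b_gt

namespace XAP9

variable {N : Type} [TopologicalSpace N] {r : Setoid N} {κ : Type} (A : APart N r κ)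

theorem cont (k : κ) : ContinuousOn (A.c k) (A.U k) := by
  rw [continuousOn_iff_continuous_domRestrict]
  have h := (A.cov k).continuous
  exact continuous_subtype_val.comp h

/-- local sections over a ball -/
theorem sec (k : κ) (b : N) (hb : b ∈ A.U k) : ∃ (ε : ℝ) (s : E → N) (O : Set N), 0 < ε ∧
    Metric.ball (A.c k b) ε ⊆ {e : E | e.1 ∉ Gam} ∧ ContinuousOn s (Metric.ball (A.c k b) ε) ∧
    (∀ e ∈ Metric.ball (A.c k b) ε, s e ∈ A.U k ∧ A.c k (s e) = e) ∧ IsOpen O ∧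
    (∀ n ∈ O, n ∈ A.U k ∧ A.c k n ∈ Metric.ball (A.c k b) ε ∧ s (A.c k n) = n) ∧
    (∀ e ∈ Metric.ball (A.c k b) ε, s e ∈ O) ∧ s (A.c k b) = b := by
  classical
  have hcl : IsClosed (Gam : Set P2) := I_PG1.2.2.2.2.1
  have hdom : IsOpen {e : E | e.1 ∉ Gam} := (hcl.isOpen_compl).preimage continuous_fst
  obtain ⟨Φ, hΦb, hΦ⟩ := (A.cov k).isLocalHomeomorph ⟨b, hb⟩
  have hT : IsOpen (Subtype.val '' Φ.target : Set E) :=
    hdom.isOpenMap_subtype_val _ Φ.open_target
  have hbT : A.c k b ∈ (Subtype.val '' Φ.target : Set E) := by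
    refine ⟨Φ ⟨b, hb⟩, Φ.map_source hΦb, ?_⟩
    rw [← hΦ]
    rfl
  obtain ⟨ε, hε, hball⟩ := Metric.isOpen_iff.1 hT _ hbT
  set Y : Set E := Metric.ball (A.c k b) ε with hY
  have hYd : Y ⊆ {e : E | e.1 ∉ Gam} := by
    intro e he
    obtain ⟨y, -, rfl⟩ := hball he
    exact y.2
  set s : E → N := fun e => if h : e ∈ {e : E | e.1 ∉ Gam} then (Φ.symm ⟨e, h⟩ : N) else b with hs
  have hsY : ∀ (e : E) (he : e ∈ Y), s e = (Φ.symm ⟨e, hYd he⟩ : N) := by
    intro e he
    rw [hs]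
    dsimp only
    rw [dif_pos (hYd he)]
  have hYT : ∀ (e : E) (he : e ∈ Y), (⟨e, hYd he⟩ : {e : E | e.1 ∉ Gam}) ∈ Φ.target := by
    intro e he
    obtain ⟨y, hy, hye⟩ := hball he
    have : (⟨e, hYd he⟩ : {e : E | e.1 ∉ Gam}) = y := Subtype.ext hye.symm
    rw [this]
    exact hy
  have hscont : ContinuousOn s Y := by
    rw [continuousOn_iff_continuous_domRestrict]
    have h1 : Continuous (fun y : Y => Φ.symm ⟨y.1, hYd y.2⟩) := by
      refine Φ.continuousOn_symm.comp_continuous (continuous_subtype_val.subtype_mk _) ?_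
      intro y
      exact hYT y.1 y.2
    refine (continuous_subtype_val.comp h1).congr (fun y => ?_)
    rw [domRestrict_apply, hsY y.1 y.2]
    rfl
  have hss : ∀ e ∈ Y, s e ∈ A.U k ∧ A.c k (s e) = e := by
    intro e he
    rw [hsY e he]
    refine ⟨(Φ.symm ⟨e, hYd he⟩).2, ?_⟩
    have h1 := Φ.right_inv (hYT e he)
    rw [← hΦ] at h1
    exact congrArg Subtype.val h1
  set O : Set N := Subtype.val '' (Φ.source ∩ (fun u : A.U k => A.c k u.1) ⁻¹' Y) with hO
  have hOo : IsOpen O := by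
    apply (A.isOpen_U k).isOpenMap_subtype_val
    apply Φ.open_source.inter
    apply Metric.isOpen_ball.preimage
    exact continuous_subtype_val.comp (A.cov k).continuous
  have hsO : ∀ n ∈ O, n ∈ A.U k ∧ A.c k n ∈ Y ∧ s (A.c k n) = n := by
    rintro _ ⟨u, ⟨hu, huY⟩, rfl⟩
    refine ⟨u.2, huY, ?_⟩
    rw [hsY _ huY]
    have h1 : (⟨A.c k u.1, hYd huY⟩ : {e : E | e.1 ∉ Gam}) = Φ u := by
      rw [← hΦ]
      rfl
    rw [h1, Φ.left_inv hu]
  refine ⟨ε, s, O, hε, hYd, hscont, hss, hOo, hsO, ?_, ?_⟩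
  · intro e he
    refine ⟨Φ.symm ⟨e, hYd he⟩, ⟨Φ.map_target (hYT e he), ?_⟩, (hsY e he).symm⟩
    show A.c k (Φ.symm ⟨e, hYd he⟩ : N) ∈ Y
    have := (hss e he).2
    rw [hsY e he] at this
    rw [this]
    exact he
  · exact (hsO b ⟨⟨b, hb⟩, ⟨hΦb, Metric.mem_ball_self hε⟩, rfl⟩).2.2

end XAP9

theorem I_AP9 (_h1 : AP1) (h2 : AP2) (h3 : AP3) : AP9 := by
  intro N _ r κ A hq k b hb
  obtain ⟨ε, s, O, hε, hYd, hsc, hss, hO, hOs, hsO, hsb⟩ := XAP9.sec A k b hb
  obtain ⟨hx, -⟩ := h3 N r κ A hq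
  have hleaf := (h2 N r κ A k).2 _ s (convex_ball _ _) hYd hsc hss
  set e0 : E := A.c k b with he0
  set ψ : OpenPartialHomeomorph ℝ ℝ := OpenPartialHomeomorph.univBall e0.1.1 ε with hψ
  have hsrc : ψ.source = univ := OpenPartialHomeomorph.univBall_source _ _
  have htgt : ψ.target = Metric.ball e0.1.1 ε := OpenPartialHomeomorph.univBall_target _ hε
  have hψ0 : ψ 0 = e0.1.1 := OpenPartialHomeomorph.univBall_apply_zero _ _
  have hψb : ∀ u, ψ u ∈ Metric.ball e0.1.1 ε := by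
    intro u
    rw [← htgt]
    exact ψ.map_source (by rw [hsrc]; exact mem_univ u)
  have hψc : Continuous ψ := by
    rw [← continuousOn_univ, ← hsrc]
    exact ψ.continuousOn
  have hψi : Function.Injective ψ := by
    intro u v huv
    exact ψ.injOn (by rw [hsrc]; exact mem_univ u) (by rw [hsrc]; exact mem_univ v) huv
  have hψo : ∀ V : Set ℝ, IsOpen V → IsOpen (ψ '' V) := by
    intro V hV
    exact ψ.isOpen_image_of_subset_source hV (by rw [hsrc]; exact subset_univ V)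
  set g : ℝ → E := fun u => ((ψ u, e0.1.2), e0.2) with hg
  have hgc : Continuous g := (hψc.prodMk continuous_const).prodMk continuous_const
  have hgY : ∀ u, g u ∈ Metric.ball e0 ε := by
    intro u
    have h4 := hψb u
    rw [Metric.mem_ball] at h4 ⊢
    rw [hg, Prod.dist_eq, Prod.dist_eq]
    simp only [dist_self]
    refine max_lt (max_lt h4 hε) hε
  set f : ℝ → Quotient r := fun u => Quotient.mk r (s (g u)) with hf
  have hfx : ∀ u, A.x (f u) = ψ u := by
    intro u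
    rw [hf]
    dsimp only
    rw [hx k _ (hss _ (hgY u)).1, (hss _ (hgY u)).2]
  refine ⟨f, ?_, ⟨0, ?_⟩⟩
  · refine IsOpenEmbedding.of_continuous_injective_isOpenMap ?_ ?_ ?_
    · exact continuous_quotient_mk'.comp (hsc.comp_continuous hgc hgY)
    · intro u v huv
      apply hψi
      rw [← hfx u, ← hfx v, huv]
    · intro V hV
      have hOV : IsOpen (O ∩ (A.U k ∩ A.c k ⁻¹' {e : E | e.1.1 ∈ ψ '' V})) :=
        hO.inter ((XAP9.cont A k).isOpen_inter_preimage (A.isOpen_U k)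
          ((hψo V hV).preimage (continuous_fst.comp continuous_fst)))
      have himg : f '' V = Quotient.mk r '' (O ∩ (A.U k ∩ A.c k ⁻¹' {e : E | e.1.1 ∈ ψ '' V})) := by
        apply Subset.antisymm
        · rintro _ ⟨u, hu, rfl⟩
          refine ⟨s (g u), ⟨hsO _ (hgY u), (hss _ (hgY u)).1, ?_⟩, rfl⟩
          show (A.c k (s (g u))).1.1 ∈ ψ '' V
          rw [(hss _ (hgY u)).2]
          exact ⟨u, hu, rfl⟩
        · rintro _ ⟨n, ⟨hn, hnU, hnV⟩, rfl⟩
          obtain ⟨u, hu, hun⟩ := hnV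
          obtain ⟨-, hnY, hsn⟩ := hOs n hn
          refine ⟨u, hu, ?_⟩
          apply Quotient.sound
          have := hleaf _ (hgY u) _ hnY hun
          rw [hsn] at this
          exact this
      rw [himg]
      exact hq _ hOV
  · have : g 0 = e0 := by
      rw [hg]
      dsimp only
      rw [hψ0]
    rw [hf]
    dsimp only
    rw [this, hsb]

end Pool.Agent.Work.MP_0d206b_gt

end

end
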