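import Pool.Agent.Work.MP_0d206b_gt.Bd.StL

/-! ### L.I_AR3 -/

section

/-!
# MP_0d206b_gt, item AR3: segments tangent to the plane field
-/

open Set Filter Topology
open scoped ContDiff

noncomputable section

namespace Pool.Agent.Work.MP_0d206b_gt

namespace XAR3

/-- the parametrisation of the segment -/
def kap (e e' : E) (t : ℝ) : E := e + Real.smoothTransition t • (e' - e)

lemma kap_cd (e e' : E) : ContDiff ℝ 1 (kap e e') := by
  have h : ContDiff ℝ 1 Real.smoothTransition := by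
    have := Real.smoothTransition.contDiff (n := 1)
    exact_mod_cast this
  exact contDiff_const.add (h.smul contDiff_const)

lemma kap_mem (e e' : E) (t : ℝ) : kap e e' t ∈ segment ℝ e e' := by
  rw [segment_eq_image']
  exact ⟨Real.smoothTransition t, ⟨Real.smoothTransition.nonneg t, Real.smoothTransition.le_one t⟩,
    rfl⟩

lemma kap_deriv (e e' : E) (t : ℝ) :
    deriv (kap e e') t = deriv Real.smoothTransition t • (e' - e) := by
  have h : ContDiff ℝ 1 Real.smoothTransition := by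
    have := Real.smoothTransition.contDiff (n := 1)
    exact_mod_cast this
  have hd : HasDerivAt Real.smoothTransition (deriv Real.smoothTransition t) t :=
    ((h.differentiable (by simp)) t).hasDerivAt
  exact ((hd.smul_const (e' - e)).const_add e).deriv

end XAR3

open XAR3 in
theorem I_AR3 (h1 : AR2) : AR3 := by
  intro ι dom glue N _ C w hw i Y s hY hs e e' hseg htan
  have h := h1 ι dom glue N C w hw i Y s hY hs (kap e e') (kap_cd e e')
    (fun t => hseg (kap_mem e e' t)) (fun t => by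
      rw [kap_deriv]
      exact Submodule.smul_mem _ _ (htan _ (kap_mem e e' t))) 0 1
  have h0 : kap e e' 0 = e := by simp [kap]
  have h2 : kap e e' 1 = e' := by simp [kap]
  rw [h0, h2] at h
  exact h

end Pool.Agent.Work.MP_0d206b_gt

end

end

/-! ### L.I_LA14 -/

section

/-! Item LA14 of module L. -/

set_option autoImplicit false

open Set Filter Topology
open scoped ContDiff

namespace Pool.Agent.Work.MP_0d206b_gt

namespace XLA14

theorem contOn {ι : Type} {dom : ι → Set E} {glue : ι → E → ι → E → Prop} {N : Type}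
    [TopologicalSpace N] (C : CoverData dom glue N) (i : ι) : ContinuousOn (C.c i) (C.U i) := by
  rw [continuousOn_iff_continuous_domRestrict]
  exact continuous_subtype_val.comp (C.cov i).continuous

theorem eq_of_preconnected {N : Type} [TopologicalSpace N] {K U : Set N} (hK : IsPreconnected K)
    (hKU : K ⊆ U) {f : N → Bool} (hf : ContinuousOn f U) {b b' : N} (hb : b ∈ K) (hb' : b' ∈ K) :
    f b = f b' :=
  (hK.image f (hf.mono hKU)).subsingleton ⟨b, hb, rfl⟩ ⟨b', hb', rfl⟩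

end XLA14

theorem I_LA14 (h1 : Cech) (h2 : LF) (h3 : LT) (h4 : LA1) (h5 : LA2) (h6 : PL1) (h7 : PL2) :
    LA14 := by
  intro D N _ _ C b b' hr hK hb hb'
  obtain ⟨K, hKc, hKR, hbK, hbK'⟩ := hK
  have _ := h6
  set m := D.idx (C.c .R b).1 with hm
  classical
  let V : Set N := {b | (∃ s, b ∈ C.U (.A s)) ∨ ∃ m, b ∈ C.U (.g m)}
  have hVo : IsOpen V := by
    have : V = (⋃ s, C.U (.A s)) ∪ ⋃ m, C.U (.g m) := by
      ext x
      simp [V]
    rw [this]
    exact (isOpen_iUnion fun s => C.isOpen_U _).union (isOpen_iUnion fun m => C.isOpen_U _)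
  have hUV : C.U .R ∪ V = univ := by
    ext x
    refine ⟨fun _ => trivial, fun _ => ?_⟩
    obtain ⟨i, hi⟩ := C.cover x
    rcases i with _ | s | m
    · exact Or.inl hi
    · exact Or.inr (Or.inl ⟨s, hi⟩)
    · exact Or.inr (Or.inr ⟨m, hi⟩)
  let n : N → Bool := fun x => decide (D.idx (C.c .R x).1 = m)
  have hnL : ∀ x, x ∈ C.U .R → x ∈ V → (C.c .R x).1 ∉ D.Lam := by
    intro x hx hxV hL
    have h := (h5 D N C x).2.2.2.1 hx hL
    rcases hxV with ⟨s, hs⟩ | ⟨m', hm'⟩
    · exact h.1 s hs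
    · exact h.2 m' hm'
  have hn : ContinuousOn n (C.U .R ∩ V) := by
    rintro x ⟨hx, hxV⟩
    apply ContinuousAt.continuousWithinAt
    have hc : ContinuousAt (C.c .R) x := (XLA14.contOn C .R).continuousAt ((C.isOpen_U _).mem_nhds hx)
    have hc1 : ContinuousAt (fun x => (C.c .R x).1) x := continuous_fst.continuousAt.comp hc
    have hev := (h7 D).2.2 _ (hnL x hx hxV)
    have hev2 := hc1.eventually hev
    have : n =ᶠ[𝓝 x] fun _ => n x := by
      filter_upwards [hev2] with y hy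
      simp only [n]
      rw [hy.2]
    exact continuousAt_const.congr this.symm
  obtain ⟨f, g, hf, hg, hfg⟩ := h1 N (C.U .R) V (C.isOpen_U _) hVo hUV n hn
  have hfe : f b = f b' := XLA14.eq_of_preconnected hKc hKR hf hbK hbK'
  have hleaf : {b'' | (leafSetoid C (esA D)) b b''} ⊆ V := by
    intro b'' hb''
    have hb''2 : (leafSetoid C (esA D)) b b'' := hb''
    rcases h4 D N C b with ⟨s, hs⟩ | ⟨m', hm', hξ⟩ | ⟨_, hL⟩
    · exact Or.inl ⟨s, ((h3 D N C b b'' hb''2).1 s hs).1⟩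
    · exact Or.inr ⟨m', ((h3 D N C b b'' hb''2).2.1 m' hm' hξ).1⟩
    · exact absurd hL hb
  have hbL : b ∈ {b'' | (leafSetoid C (esA D)) b b''} := (leafSetoid C (esA D)).refl b
  have hbL' : b' ∈ {b'' | (leafSetoid C (esA D)) b b''} := hr
  have hge : g b = g b' :=
    XLA14.eq_of_preconnected ((h2 _ _ _ N C (esA D)).2 b) hleaf hg hbL hbL'
  have e1 := hfg b ⟨hKR hbK, hleaf hbL⟩
  have e2 := hfg b' ⟨hKR hbK', hleaf hbL'⟩
  have e3 : n b = n b' := by rw [e1, e2, hfe, hge]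
  have e4 : n b = true := by simp [n, hm]
  rw [e4] at e3
  have e5 : D.idx (C.c .R b').1 = m := by simpa [n] using e3.symm
  exact e5.symm

end Pool.Agent.Work.MP_0d206b_gt

end

/-! ### L.I_LA3 -/

section

/-! Item LA3 of module L: change of coordinates starting from the repeller piece. -/

set_option autoImplicit false

open Set Filter Topology
open scoped ContDiff

namespace Pool.Agent.Work.MP_0d206b_gt

theorem I_LA3 : LA3 := by
  intro D N _ C b m hm v hb hbm
  refine ⟨fun s hs => ?_, fun hv => ?_⟩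
  · refine C.glue_lift .R (.A s) b _ hb ?_
    exact ⟨m, hm, v, hs, hbm, rfl, rfl⟩
  · refine C.glue_lift .R (.g ⟨m, hm⟩) b _ hb ?_
    exact ⟨v, hv, hbm, rfl, rfl⟩

end Pool.Agent.Work.MP_0d206b_gt

end

/-! ### L.I_LA8 -/

section

/-! Item LA8 of module L. -/

set_option autoImplicit false

open Set Filter Topology
open scoped ContDiff

namespace Pool.Agent.Work.MP_0d206b_gt

namespace XLA8

theorem const_near (g : ℝ → ℝ) (t ε : ℝ) (h : ∀ u ∈ Ioo (t - ε) (t + ε), HasDerivAt g 0 u)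
    (u : ℝ) (hu : u ∈ Ioo (t - ε) (t + ε)) (ht : t ∈ Ioo (t - ε) (t + ε)) : g u = g t := by
  have h1 := (convex_Ioo (t - ε) (t + ε)).norm_image_sub_le_of_norm_hasDerivWithin_le
    (f := g) (f' := fun _ => (0 : ℝ)) (C := 0)
    (fun x hx => (h x hx).hasDerivWithinAt) (fun x _ => by simp) ht hu
  have h2 : ‖g u - g t‖ ≤ 0 := by simpa using h1
  have h3 := norm_le_zero_iff.1 h2
  linarith

end XLA8

theorem I_LA8 (h1 : RL1) (h2 : RL2) (h3 : LA6) (h4 : LA8a) : LA8 := by
  intro D N _ C γ hγ t₀ m hm hξ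
  have hS : {t | γ t ∈ C.U (.g m) ∧ (C.c (.g m) (γ t)).1.1 = 0} = univ := by
    apply h1
    · rw [isOpen_iff_mem_nhds]
      rintro t ⟨ht, ht0⟩
      have hU : ∀ᶠ u in 𝓝 t, γ u ∈ C.U (.g m) :=
        hγ.cont.continuousAt.eventually ((C.isOpen_U _).mem_nhds ht)
      obtain ⟨ε, hε, hball⟩ := Metric.eventually_nhds_iff_ball.1 hU
      rw [Real.ball_eq_Ioo] at hball
      have htm : t ∈ Ioo (t - ε) (t + ε) := ⟨by linarith, by linarith⟩
      filter_upwards [Ioo_mem_nhds htm.1 htm.2] with u hu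
      refine ⟨hball u hu, ?_⟩
      have := XLA8.const_near (fun u => (C.c (.g m) (γ u)).1.1) t ε
        (fun v hv => (h3 D N C γ hγ v).2.1 m (hball v hv)) u hu htm
      rw [this, ht0]
    · intro a ε hε hsub
      exact h4 D N C γ hγ a ε m hε (fun t ht => hsub ht)
    · intro a ε hε hsub
      have h5 := h4 D N C (fun t => γ (-t)) (h2 _ _ _ N C (esA D) γ hγ) (-a) ε m hε
        (fun t ht => hsub (show -t ∈ Ioo (a - ε) a from ⟨by linarith [ht.2], by linarith [ht.1]⟩))
      simpa using h5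
    · exact ⟨t₀, hm, hξ⟩
  intro t
  have : t ∈ {t | γ t ∈ C.U (.g m) ∧ (C.c (.g m) (γ t)).1.1 = 0} := by rw [hS]; trivial
  exact this

end Pool.Agent.Work.MP_0d206b_gt

end

/-! ### L.I_OM -/

section

open Set Filter Topology

noncomputable section

namespace Pool.Agent.Work.MP_0d206b_gt

theorem I_OM (h1 : Sep) : OM := by
  intro N _ _ _ _ r hopen hpre hloc
  have hq : IsOpenQuotientMap (Quotient.mk r) :=
    ⟨Quotient.mk_surjective, continuous_quotient_mk', hopen⟩
  refine ⟨?_, ?_, hloc, ?_⟩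
  · exact hq.surjective.connectedSpace hq.continuous
  · exact hq.isQuotientMap.secondCountableTopology hopen
  · exact h1 N (Quotient r) (Quotient.mk r) hq.continuous hopen hq.surjective (by
      intro x
      obtain ⟨b, rfl⟩ := Quotient.mk_surjective x
      have : Quotient.mk r ⁻¹' {Quotient.mk r b} = {b' | r b b'} := by
        ext b'
        simp only [mem_preimage, mem_singleton_iff, mem_ofPred_eq]
        constructor
        · intro h
          exact r.symm (Quotient.exact h)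
        · intro h
          exact Quotient.sound (r.symm h)
      rw [this]
      exact hpre b) hloc

end Pool.Agent.Work.MP_0d206b_gt

end

end

/-! ### L.I_PL2 -/

section

/-! Item PL2: the linear coordinate and the index are continuous off the complement of the strips. -/

open Set Filter Topology
open scoped ContDiff

noncomputable section

namespace Pool.Agent.Work.MP_0d206b_gt

theorem XPL2.emb (h1 : PL1) (D : DA) (m : P2) : IsOpenEmbedding (fun v => m + D.Psi v) := by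
  obtain ⟨-, hinj, hopen, -⟩ := h1 D
  have hc : Continuous D.Psi := D.Psi_smooth.continuous
  have h : IsOpenEmbedding D.Psi := IsOpenEmbedding.of_continuous_injective_isOpenMap hc hinj hopen
  exact (Homeomorph.addLeft m).isOpenEmbedding.comp h

theorem I_PL2 (h1 : PL1) : PL2 := by
  intro D
  obtain ⟨-, hinj, hopen, hlin, hclosed, -, hdec⟩ := h1 D
  have key : ∀ z, z ∉ D.Lam → ∀ᶠ z' in 𝓝 z, z' ∉ D.Lam ∧ D.idx z' = D.idx z := by
    intro z hz
    obtain ⟨hm, hzm⟩ := hdec z hz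
    have he := XPL2.emb h1 D (D.idx z)
    have hmem : z ∈ range (fun v => D.idx z + D.Psi v) := ⟨D.lin z, hzm.symm⟩
    filter_upwards [he.isOpen_range.mem_nhds hmem] with z' hz'
    obtain ⟨v, rfl⟩ := hz'
    refine ⟨?_, (hlin _ hm v).2.1⟩
    intro hL
    exact hL _ hm v rfl
  refine ⟨?_, ?_, key⟩
  · intro z hz
    obtain ⟨hm, hzm⟩ := hdec z hz
    have he := XPL2.emb h1 D (D.idx z)
    have hcomp : (D.lin ∘ fun v => D.idx z + D.Psi v) = id := by
      funext v
      exact (hlin _ hm v).1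
    have hca : ContinuousAt D.lin (D.idx z + D.Psi (D.lin z)) := by
      rw [← he.continuousAt_iff (f := fun v => D.idx z + D.Psi v) (g := D.lin) (x := D.lin z)]
      rw [hcomp]
      exact continuousAt_id
    rw [← hzm] at hca
    exact hca.continuousWithinAt
  · intro z hz
    have : ContinuousAt D.idx z := by
      have h2 : D.idx =ᶠ[𝓝 z] fun _ => D.idx z := (key z hz).mono fun z' h => h.2
      exact continuousAt_const.congr h2.symm
    exact this.continuousWithinAt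

end Pool.Agent.Work.MP_0d206b_gt

end

end

/-! ### L.I_PS3 -/

section

/-! PS3: existence and uniqueness of `S`-curves, saturation of `Lam`. -/

open Set Filter Topology
open scoped ContDiff

noncomputable section

namespace Pool.Agent.Work.MP_0d206b_gt

namespace XPS3

theorem lip (D : DA) : ∃ K : NNReal, ∀ x : ℝ, LipschitzWith K (fun y => D.S (x, y)) := by
  obtain ⟨K, hK⟩ := D.S_lip
  refine ⟨Real.toNNReal K, fun x => LipschitzWith.of_dist_le_mul fun y y' => ?_⟩
  rw [Real.dist_eq, Real.dist_eq]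
  refine (hK x y y').trans ?_
  exact mul_le_mul_of_nonneg_right (Real.le_coe_toNNReal K) (abs_nonneg _)

theorem uniqI (D : DA) (Y Y' : ℝ → ℝ) (I : Set ℝ) (hI : IsOpen I) (hI' : OrdConnected I)
    (hY : IsCurve D.S I Y) (hY' : IsCurve D.S I Y') (x : ℝ) (hx : x ∈ I) (h : Y x = Y' x) :
    EqOn Y Y' I := by
  obtain ⟨K, hK⟩ := lip D
  intro x' hx'
  have hmin : min x x' ∈ I := by rcases min_choice x x' with h | h <;> rw [h] <;> assumption
  have hmax : max x x' ∈ I := by rcases max_choice x x' with h | h <;> rw [h] <;> assumption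
  obtain ⟨l, u, hlu, hsub⟩ := mem_nhds_iff_exists_Ioo_subset.1 (hI.mem_nhds hmin)
  obtain ⟨l', u', hlu', hsub'⟩ := mem_nhds_iff_exists_Ioo_subset.1 (hI.mem_nhds hmax)
  have ha : (l + min x x') / 2 ∈ I := hsub ⟨by linarith [hlu.1], by linarith [hlu.1, hlu.2]⟩
  have hb : (u' + max x x') / 2 ∈ I := hsub' ⟨by linarith [hlu'.1, hlu'.2], by linarith [hlu'.2]⟩
  have hIcc := hI'.out ha hb
  have hIoo : Ioo ((l + min x x') / 2) ((u' + max x x') / 2) ⊆ I := Ioo_subset_Icc_self.trans hIcc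
  have h1 : ∀ w, min x x' ≤ w → w ≤ max x x' →
      w ∈ Ioo ((l + min x x') / 2) ((u' + max x x') / 2) := fun w h1 h2 =>
    ⟨by linarith [hlu.1], by linarith [hlu'.2]⟩
  exact ODE_solution_unique_of_mem_Ioo (v := fun x y => D.S (x, y)) (s := fun _ => univ) (K := K)
    (fun t _ => (hK t).lipschitzOnWith) (h1 x (min_le_left _ _) (le_max_left _ _))
    (fun t ht => ⟨hY t (hIoo ht), mem_univ _⟩) (fun t ht => ⟨hY' t (hIoo ht), mem_univ _⟩) h
    (h1 x' (min_le_right _ _) (le_max_right _ _))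

theorem sol (D : DA) (z : P2) (T : ℝ) (hT : 0 < T) :
    ∃ Y : ℝ → ℝ, Y z.1 = z.2 ∧ IsCurve D.S (Ioo (z.1 - T) (z.1 + T)) Y := by
  obtain ⟨K, hK⟩ := lip D
  obtain ⟨C, hC⟩ := D.S_bdd
  have hC0 : 0 ≤ C := (abs_nonneg _).trans (hC 0)
  lift C to NNReal using hC0
  lift T to NNReal using hT.le
  have ht0 : z.1 ∈ Icc (z.1 - T) (z.1 + T) := ⟨by linarith, by linarith⟩
  have hPL : IsPicardLindelof (fun x y => D.S (x, y)) (tmin := z.1 - T) (tmax := z.1 + T)
      ⟨z.1, ht0⟩ z.2 (C * T) 0 C K :=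
    { lipschitzOnWith := fun t _ => (hK t).lipschitzOnWith
      continuousOn := fun y _ => (D.S_cont.comp (by fun_prop)).continuousOn
      norm_le := fun t _ y _ => by rw [Real.norm_eq_abs]; exact hC _
      mul_max_le := by
        simp only [add_sub_cancel_left, sub_sub_cancel, max_self, NNReal.coe_zero, sub_zero,
          NNReal.coe_mul, le_refl] }
  obtain ⟨Y, hY0, hY⟩ := hPL.exists_eq_forall_mem_Icc_hasDerivWithinAt₀
  exact ⟨Y, hY0, fun x hx => (hY x (Ioo_subset_Icc_self hx)).hasDerivAt (Icc_mem_nhds hx.1 hx.2)⟩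

theorem exist (D : DA) (z : P2) : ∃ Y : ℝ → ℝ, IsCurve D.S univ Y ∧ Y z.1 = z.2 := by
  have hs : ∀ n : ℕ, ∃ Y : ℝ → ℝ, Y z.1 = z.2 ∧
      IsCurve D.S (Ioo (z.1 - (n + 1 : ℝ)) (z.1 + (n + 1 : ℝ))) Y := fun n =>
    sol D z (n + 1) (by positivity)
  choose s hs0 hs using hs
  have agree : ∀ n k : ℕ, n ≤ k → EqOn (s n) (s k) (Ioo (z.1 - (n + 1 : ℝ)) (z.1 + (n + 1 : ℝ))) := by
    intro n k hnk
    have hnk' : (n : ℝ) ≤ k := by exact_mod_cast hnk
    have hn0 : (0 : ℝ) ≤ n := Nat.cast_nonneg n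
    refine uniqI D (s n) (s k) _ isOpen_Ioo ordConnected_Ioo (hs n) ?_ z.1
      ⟨by linarith, by linarith⟩ ((hs0 n).trans (hs0 k).symm)
    intro x hx
    exact hs k x ⟨by linarith [hx.1], by linarith [hx.2]⟩
  refine ⟨fun x => s ⌈|x - z.1|⌉₊ x, fun x _ => ?_, ?_⟩
  · set n := ⌈|x - z.1|⌉₊ + 1 with hn
    have hxn : |x - z.1| ≤ ⌈|x - z.1|⌉₊ := Nat.le_ceil _
    have hnear : ∀ w, |w - x| < 1 → s ⌈|w - z.1|⌉₊ w = s n w := by
      intro w hw
      have h1 : |w - z.1| ≤ n := by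
        have : w - z.1 = (w - x) + (x - z.1) := by ring
        rw [this]
        refine (abs_add_le _ _).trans ?_
        rw [hn]; push_cast; linarith
      have h2 : ⌈|w - z.1|⌉₊ ≤ n := Nat.ceil_le.2 h1
      refine agree _ _ h2 ?_
      have h3 : |w - z.1| ≤ ⌈|w - z.1|⌉₊ := Nat.le_ceil _
      rw [abs_le] at h3
      exact ⟨by linarith [h3.1], by linarith [h3.2]⟩
    have hev : (fun w => s ⌈|w - z.1|⌉₊ w) =ᶠ[𝓝 x] s n := by
      filter_upwards [Metric.ball_mem_nhds x one_pos] with w hw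
      exact hnear w (by rwa [Metric.mem_ball, Real.dist_eq] at hw)
    have hx0 : s ⌈|x - z.1|⌉₊ x = s n x := hnear x (by simp)
    simp only [hx0]
    refine HasDerivAt.congr_of_eventuallyEq (hs n x ?_) hev
    rw [abs_le] at hxn
    rw [hn]
    push_cast
    exact ⟨by linarith [hxn.1], by linarith [hxn.2]⟩
  · exact hs0 _

theorem curve_eq (D : DA) (m : P2) (t b : ℝ) :
    ((t, (m + D.Psi (t - m.1, b)).2) : P2) = m + D.Psi (t - m.1, b) := by
  ext
  · simp [D.Psi_fst]
  · rfl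

theorem curve (D : DA) (m : P2) (hm : m ∈ Gam) (b : ℝ) :
    IsCurve D.S univ (fun t => (m + D.Psi (t - m.1, b)).2) := by
  intro t _
  rw [curve_eq]
  have h1 : D.S (m + D.Psi (t - m.1, b)) = dx D.Psi (t - m.1, b) := by
    rw [add_comm, D.S_add _ _ hm, D.dxPsi]
  rw [h1]
  have h2 : HasDerivAt (fun t : ℝ => ((t - m.1, b) : P2)) ((1 : ℝ), (0 : ℝ)) t :=
    ((hasDerivAt_id t).sub_const m.1).prodMk (hasDerivAt_const t b)
  have h3 : HasFDerivAt D.Psi (fderiv ℝ D.Psi (t - m.1, b)) (t - m.1, b) :=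
    ((D.Psi_smooth.differentiable (by simp)) _).hasFDerivAt
  have h4 : HasDerivAt (fun t : ℝ => D.Psi (t - m.1, b))
      (fderiv ℝ D.Psi (t - m.1, b) (1, 0)) t := HasFDerivAt.comp_hasDerivAt (f := fun t : ℝ => ((t - m.1, b) : P2)) t h3 h2
  have h5 : HasDerivAt (fun t : ℝ => (D.Psi (t - m.1, b)).2)
      (fderiv ℝ D.Psi (t - m.1, b) (1, 0)).2 t := h4.snd
  exact (h5.const_add m.2)

end XPS3

theorem I_PS3 (_h1 : PG1) (_h2 : PL1) (_h3 : PL4) : PS3 := by
  intro D
  refine ⟨XPS3.exist D, fun Y Y' I hI hI' hY hY' x hx h => XPS3.uniqI D Y Y' I hI hI' hY hY' x hx h, ?_⟩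
  intro Y hY x hx x' m hm v hv
  have hx' : x' = m.1 + v.1 := by
    have := congrArg Prod.fst hv
    simpa [D.Psi_fst] using this
  have hYx' : Y x' = (m + D.Psi (x' - m.1, v.2)).2 := by
    have h2 := congrArg Prod.snd hv
    have h3 : ((x' - m.1, v.2) : P2) = v := by
      ext
      · simp [hx']
      · rfl
    rw [h3]; exact h2
  have heq := XPS3.uniqI D Y _ univ isOpen_univ ordConnected_univ hY (XPS3.curve D m hm v.2) x'
    (mem_univ _) hYx'
  have hx2 := heq (mem_univ x)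
  refine hx m hm (x - m.1, v.2) ?_
  rw [hx2]
  exact XPS3.curve_eq D m x v.2

end Pool.Agent.Work.MP_0d206b_gt

end

end

/-! ### L.I_XR -/

section

/-!
# MP_0d206b_gt, item XR: vertical transversals near a point of Lam on a side free of Lam
-/

open Set Filter Topology
open scoped ContDiff

noncomputable section

namespace Pool.Agent.Work.MP_0d206b_gt

namespace XXR

/-- the vertical line through `z` -/
def p (z : P2) (σ t : ℝ) : P2 := (z.1, z.2 + σ * t)

theorem p_cont (z : P2) (σ : ℝ) : Continuous (p z σ) := by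
  unfold p
  fun_prop

theorem p_zero (z : P2) (σ : ℝ) : p z σ 0 = z := by
  unfold p
  simp

/-- a locally constant function on an open interval is constant -/
theorem const_of_loc {g : ℝ → P2} {a b : ℝ}
    (h : ∀ t ∈ Ioo a b, ∀ᶠ t' in 𝓝 t, g t' = g t) {t t' : ℝ} (ht : t ∈ Ioo a b)
    (ht' : t' ∈ Ioo a b) : g t' = g t := by
  classical
  have hc : ContinuousOn (fun u => decide (g u = g t)) (Ioo a b) := by
    intro u hu
    refine ContinuousAt.continuousWithinAt ?_
    refine tendsto_const_nhds.congr' ?_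
    filter_upwards [h u hu] with k hk
    rw [hk]
  have h2 := (isPreconnected_Ioo (a := a) (b := b)).constant hc ht ht'
  simpa using h2

theorem sg_sq (s : Bool) : sg s * sg s = 1 := by
  cases s <;> simp [sg]

end XXR

open XXR in
theorem I_XR (h1 : PL1) (h2 : PL2) (h3 : PL3) (_h4 : PL5) (h5 : LA3) : XR := by
  intro D N _ C z τ ε σ δ₀ f hε hσ hδ₀ hδε hz hf _hbox hfree
  obtain ⟨-, -, -, hlin, -, -, hstrip⟩ := h1 D
  obtain ⟨hlinc, -, hloc⟩ := h2 D
  have hfree' : ∀ t ∈ Ioo 0 δ₀, p z σ t ∉ D.Lam := hfree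
  -- the index is constant
  have hhalf : δ₀ / 2 ∈ Ioo 0 δ₀ := ⟨by linarith, by linarith⟩
  set m := D.idx (p z σ (δ₀ / 2)) with hm
  have hidx : ∀ t ∈ Ioo 0 δ₀, D.idx (p z σ t) = m := by
    intro t ht
    refine const_of_loc (g := fun t => D.idx (p z σ t)) ?_ hhalf ht
    intro u hu
    have := hloc _ (hfree' u hu)
    filter_upwards [(p_cont z σ).continuousAt.eventually this] with k hk using hk.2
  have hmG : m ∈ Gam := (hstrip _ (hfree' _ hhalf)).1
  -- the linear coordinate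
  set L : ℝ → P2 := fun t => D.lin (p z σ t) with hL
  have hpL : ∀ t ∈ Ioo 0 δ₀, p z σ t = m + D.Psi (L t) := by
    intro t ht
    have := (hstrip _ (hfree' t ht)).2
    rwa [hidx t ht] at this
  have hLc : ContinuousOn L (Ioo 0 δ₀) :=
    hlinc.comp (p_cont z σ).continuousOn (fun t ht => hfree' t ht)
  have hL1 : ∀ t ∈ Ioo 0 δ₀, (L t).1 = z.1 - m.1 := by
    intro t ht
    have h := congrArg Prod.fst (hpL t ht)
    rw [Prod.fst_add, D.Psi_fst] at h
    have h' : (p z σ t).1 = z.1 := rfl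
    linarith
  have hL2c : ContinuousOn (fun t => (L t).2) (Ioo 0 δ₀) := continuous_snd.comp_continuousOn hLc
  -- the second coordinate is large near `0`
  have hbig : ∀ M : ℝ, ∀ c : ℝ, 0 < c → ∃ δ' > 0, δ' < c ∧ ∀ t ∈ Ioo 0 δ', t ∈ Ioo 0 δ₀ →
      M < |(L t).2| := by
    intro M c hc
    have h := h3 D z hz (max M |z.1 - m.1|)
    have h' : ∀ᶠ t in 𝓝 (0 : ℝ), p z σ t ∈ D.Lam ∨ max M |z.1 - m.1| < ‖D.lin (p z σ t)‖ := by
      have ht : Tendsto (p z σ) (𝓝 0) (𝓝 z) := by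
        have h0 := (p_cont z σ).continuousAt (x := (0 : ℝ))
        unfold ContinuousAt at h0
        rwa [p_zero] at h0
      exact ht.eventually h
    obtain ⟨r, hr, hr'⟩ := Metric.eventually_nhds_iff.1 h'
    refine ⟨min r (c / 2), lt_min hr (by linarith), (min_le_right _ _).trans_lt (by linarith), ?_⟩
    intro t ht htδ
    have htr : t < r := ht.2.trans_le (min_le_left _ _)
    have hd : dist t 0 < r := by
      rw [Real.dist_eq, sub_zero, abs_of_pos ht.1]
      exact htr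
    rcases hr' hd with hh | hh
    · exact absurd hh (hfree' t htδ)
    · have hh' : max M |z.1 - m.1| < max |(L t).1| |(L t).2| := hh
      rw [hL1 t htδ] at hh'
      rcases max_cases |z.1 - m.1| |(L t).2| with ⟨h6, -⟩ | ⟨h6, -⟩
      · rw [h6] at hh'
        exact absurd (le_max_right M |z.1 - m.1|) (not_le.2 hh')
      · rw [h6] at hh'
        exact (le_max_left _ _).trans_lt hh'
  obtain ⟨δ, hδ, hδδ₀, hδ1⟩ := hbig 1 δ₀ hδ₀
  have hsub : Ioo 0 δ ⊆ Ioo 0 δ₀ := Ioo_subset_Ioo_right hδδ₀.le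
  have habs : ∀ t ∈ Ioo 0 δ, 1 < |(L t).2| := fun t ht => hδ1 t ht (hsub ht)
  -- the sign
  have hhδ : δ / 2 ∈ Ioo 0 δ := ⟨by linarith, by linarith⟩
  obtain ⟨s, hs⟩ : ∃ s : Bool, 0 < sg s * (L (δ / 2)).2 := by
    have h := habs _ hhδ
    rcases lt_or_ge 0 (L (δ / 2)).2 with h' | h'
    · exact ⟨true, by simpa [sg] using h'⟩
    · refine ⟨false, ?_⟩
      have h'' : (L (δ / 2)).2 ≠ 0 := by
        intro h0
        rw [h0, abs_zero] at h
        linarith
      have h7 : (L (δ / 2)).2 < 0 := lt_of_le_of_ne h' h''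
      simp only [sg, Bool.false_eq_true, if_false]
      linarith
  have huc : ContinuousOn (fun t => sg s * (L t).2) (Ioo 0 δ) :=
    continuousOn_const.mul (hL2c.mono hsub)
  have hupos : ∀ t ∈ Ioo 0 δ, 0 < sg s * (L t).2 := by
    intro t ht
    by_contra hcon
    push Not at hcon
    obtain ⟨t', ht', h0⟩ := (isPreconnected_Ioo (a := (0 : ℝ)) (b := δ)).intermediate_value ht hhδ huc
      (show (0 : ℝ) ∈ Icc _ _ from ⟨hcon, hs.le⟩)
    have h8 := habs t' ht'
    have h0' : sg s * (L t').2 = 0 := h0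
    have h9 : (L t').2 = 0 := by
      have := congrArg (fun r => sg s * r) h0'
      simp only [mul_zero] at this
      rwa [← mul_assoc, sg_sq, one_mul] at this
    rw [h9, abs_zero] at h8
    linarith
  have hsgabs : ∀ x : ℝ, |sg s * x| = |x| := by
    intro x
    rw [abs_mul]
    have : |sg s| = 1 := by cases s <;> simp [sg]
    rw [this, one_mul]
  have hu1 : ∀ t ∈ Ioo 0 δ, sg s * (L t).2 = |(L t).2| := by
    intro t ht
    rw [← hsgabs, abs_of_pos (hupos t ht)]
  -- coordinates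
  have hcoord : ∀ t ∈ Ioo 0 δ, f ((z.1, z.2 + σ * t), τ) ∈ C.U (.A s) ∧
      (C.c (.A s) (f ((z.1, z.2 + σ * t), τ))).1 = sg s • m + D.Psi (gmap (sg s • L t)) := by
    intro t ht
    have hin : (((z.1, z.2 + σ * t), τ) : E) ∈ box z ε := by
      refine ⟨?_, ?_⟩
      · show |z.1 - z.1| < ε
        rw [sub_self, abs_zero]
        exact hε
      · show |z.2 + σ * t - z.2| < ε
        have : z.2 + σ * t - z.2 = σ * t := by ring
        rw [this, abs_mul]
        have hσ1 : |σ| = 1 := by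
          rcases hσ with h | h <;> rw [h] <;> simp
        rw [hσ1, one_mul, abs_of_pos ht.1]
        linarith [ht.2]
    have hmem := hf.mem _ hin
    have heq := hf.eq _ hin
    have hc1 : (C.c .R (f ((z.1, z.2 + σ * t), τ))).1 = m + D.Psi (L t) := by
      rw [heq]
      exact hpL t (hsub ht)
    obtain ⟨hA, -⟩ := h5 D N C _ m hmG (L t) hmem hc1
    obtain ⟨hA1, hA2⟩ := hA s (hupos t ht)
    exact ⟨hA1, by rw [hA2]⟩
  -- the abscissa
  set K := (z.1 - m.1) ^ 2 with hK
  have hK0 : 0 ≤ K := sq_nonneg _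
  have hX : ∀ t ∈ Ioo 0 δ, (C.c (.A s) (f ((z.1, z.2 + σ * t), τ))).1.1 =
      sg s * m.1 + (K - (L t).2 ^ 2) / (sg s * (L t).2) := by
    intro t ht
    rw [(hcoord t ht).2, Prod.fst_add, D.Psi_fst]
    show sg s * m.1 + ((sg s * (L t).1) ^ 2 - (sg s * (L t).2) ^ 2) / (sg s * (L t).2) = _
    rw [hL1 t (hsub ht), hK]
    congr 2
    have := sg_sq s
    calc (sg s * (z.1 - m.1)) ^ 2 - (sg s * (L t).2) ^ 2
        = (sg s * sg s) * ((z.1 - m.1) ^ 2 - (L t).2 ^ 2) := by ring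
      _ = _ := by rw [this, one_mul]
  have hXle : ∀ t ∈ Ioo 0 δ, (C.c (.A s) (f ((z.1, z.2 + σ * t), τ))).1.1 ≤
      sg s * m.1 + K - |(L t).2| := by
    intro t ht
    rw [hX t ht, hu1 t ht]
    have h8 := habs t ht
    have h9 : (L t).2 ^ 2 = |(L t).2| ^ 2 := (sq_abs _).symm
    rw [h9]
    set a := |(L t).2| with ha
    have ha0 : 0 < a := by linarith
    have : (K - a ^ 2) / a ≤ K - a := by
      rw [div_le_iff₀ ha0]
      nlinarith
    linarith
  have hsmall : ∀ M : ℝ, ∀ c : ℝ, 0 < c → c ≤ δ → ∃ δ' > 0, δ' < c ∧ ∀ t ∈ Ioo 0 δ',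
      (C.c (.A s) (f ((z.1, z.2 + σ * t), τ))).1.1 < M := by
    intro M c hc hcδ
    obtain ⟨δ', hδ', hδc, hh⟩ := hbig (sg s * m.1 + K - M) c hc
    refine ⟨δ', hδ', hδc, fun t ht => ?_⟩
    have htδ : t ∈ Ioo 0 δ := ⟨ht.1, by linarith [ht.2]⟩
    have h8 := hh t ht (hsub htδ)
    have h9 := hXle t htδ
    linarith
  refine ⟨m, hmG, s, δ, hδ, hδδ₀, ?_, ?_, ?_⟩
  · intro t ht
    exact ⟨hidx t (hsub ht), (hcoord t ht).1, _, (hcoord t ht).2⟩
  · intro M
    exact hsmall M δ hδ le_rfl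
  · intro δ' hδ' hδ'δ
    have hsub' : Ioo 0 δ' ⊆ Ioo 0 δ := Ioo_subset_Ioo_right hδ'δ
    have ht1 : δ' / 2 ∈ Ioo 0 δ' := ⟨by linarith, by linarith⟩
    refine ⟨(C.c (.A s) (f ((z.1, z.2 + σ * (δ' / 2)), τ))).1.1, fun X hXlt => ?_⟩
    obtain ⟨η, hη, hηδ, hh⟩ := hsmall X δ' hδ' hδ'δ
    have ht2 : η / 2 ∈ Ioo 0 δ' := ⟨by linarith, by linarith⟩
    have hlt := hh (η / 2) ⟨by linarith, by linarith⟩
    have hFc : ContinuousOn (fun t => sg s * m.1 + (K - (L t).2 ^ 2) / (sg s * (L t).2))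
        (Ioo 0 δ') := by
      refine continuousOn_const.add (ContinuousOn.div ?_ (huc.mono hsub') ?_)
      · exact continuousOn_const.sub ((hL2c.mono (hsub'.trans hsub)).pow 2)
      · intro t ht
        exact (hupos t (hsub' ht)).ne'
    have hiv := (isPreconnected_Ioo (a := (0 : ℝ)) (b := δ')).intermediate_value ht2 ht1 hFc
    obtain ⟨t, ht, hteq⟩ := hiv (show X ∈ Icc _ _ from
      ⟨by rw [← hX _ (hsub' ht2)]; exact hlt.le, by rw [← hX _ (hsub' ht1)]; exact hXlt.le⟩)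
    refine ⟨t, ht, ?_⟩
    rw [hX t (hsub' ht)]
    exact hteq

end Pool.Agent.Work.MP_0d206b_gt

end

end

/-! ### L.I_XT -/

section

/-! # MP_0d206b_gt, module L: XT, transport along stable leaves near an `S`-curve in `Lam` -/

set_option autoImplicit false

open Set Filter Topology
open scoped ContDiff

noncomputable section

namespace Pool.Agent.Work.MP_0d206b_gt

namespace XXT

theorem contDiffOn_curve (D : DA) (hPS1 : PS1) (Y : ℝ → ℝ) (a b : ℝ) (hY : IsCurve D.sigma (Ioo a b) Y)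
    (hG : ∀ x ∈ Ioo a b, ((x, Y x) : P2) ∉ Gam) : ContDiffOn ℝ 1 Y (Ioo a b) := by
  have hd : DifferentiableOn ℝ Y (Ioo a b) := fun x hx =>
    (hY x hx).differentiableAt.differentiableWithinAt
  have h1 : ContDiffOn ℝ (0 + 1) Y (Ioo a b) := by
    rw [contDiffOn_succ_iff_deriv_of_isOpen isOpen_Ioo]
    refine ⟨hd, fun h => absurd h (by simp), ?_⟩
    rw [contDiffOn_zero]
    have hc : ContinuousOn (fun x => D.sigma (x, Y x)) (Ioo a b) := by
      refine (hPS1 D).comp (continuousOn_id.prodMk hd.continuousOn) ?_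
      intro x hx
      exact hG x hx
    refine hc.congr ?_
    intro x hx
    exact (hY x hx).deriv
  simpa using h1

/-- moving along a `sigma`-curve inside a lifted set -/
theorem move (hPS1 : PS1) (hAR2 : AR2) (hCP : CPAs) (D : DA) (N : Type) [TopologicalSpace N]
    (C : CoverData domA (glueA D) N) (T : Set E) (s : E → N) (hT : T ⊆ domA .R) (hs : IsLift C .R T s)
    (Y : ℝ → ℝ) (a b : ℝ) (hY : IsCurve D.sigma (Ioo a b) Y)
    (hYT : ∀ x ∈ Ioo a b, ∀ τ : ℝ, (((x, Y x), τ) : E) ∈ T) (x x' τ τ' : ℝ) (hx : x ∈ Ioo a b)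
    (hx' : x' ∈ Ioo a b) :
    (leafSetoid C (esA D)) (s ((x, Y x), τ)) (s ((x', Y x'), τ')) := by
  set h : ℝ → ℝ := Real.smoothTransition with hh
  have hh1 : ContDiff ℝ 1 h := Real.smoothTransition.contDiff
  set X : ℝ → ℝ := fun u => x + h u * (x' - x) with hX
  set S : ℝ → ℝ := fun u => τ + h u * (τ' - τ) with hS
  have hX1 : ContDiff ℝ 1 X := contDiff_const.add (hh1.mul contDiff_const)
  have hS1 : ContDiff ℝ 1 S := contDiff_const.add (hh1.mul contDiff_const)
  have hXI : ∀ u, X u ∈ Ioo a b := by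
    intro u
    have h1 := Real.smoothTransition.nonneg u
    have h2 := Real.smoothTransition.le_one u
    have h3 : X u = (1 - h u) * x + h u * x' := by rw [hX]; ring
    rw [h3]
    have hc := convex_Ioo a b hx hx' (a := 1 - h u) (b := h u) (by linarith) h1 (by ring)
    simpa using hc
  have hG : ∀ x ∈ Ioo a b, ((x, Y x) : P2) ∉ Gam := fun x hx => hT (hYT x hx 0)
  have hYc := contDiffOn_curve D hPS1 Y a b hY hG
  have hκ : ContDiff ℝ 1 (fun u => (((X u, Y (X u)), S u) : E)) := by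
    refine (hX1.prodMk ?_).prodMk hS1
    rw [contDiff_iff_contDiffAt]
    intro u
    have h1 : ContDiffAt ℝ 1 Y (X u) := hYc.contDiffAt (isOpen_Ioo.mem_nhds (hXI u))
    exact h1.comp u hX1.contDiffAt
  have hres := hAR2 IdxA domA (glueA D) N C (esA D) (hCP D) .R T s hT hs
    (fun u => (((X u, Y (X u)), S u) : E)) hκ (fun u => hYT _ (hXI u) _) ?_ 0 1
  · have e0 : h 0 = 0 := Real.smoothTransition.zero
    have e1 : h 1 = 1 := Real.smoothTransition.one
    have eX0 : X 0 = x := by rw [hX]; simp only [e0]; ring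
    have eX1 : X 1 = x' := by rw [hX]; simp only [e1]; ring
    have eS0 : S 0 = τ := by rw [hS]; simp only [e0]; ring
    have eS1 : S 1 = τ' := by rw [hS]; simp only [e1]; ring
    simp only [eX0, eX1, eS0, eS1] at hres
    exact hres
  · intro u
    have hX' : HasDerivAt X (deriv X u) u := (hX1.differentiable one_ne_zero u).hasDerivAt
    have hS' : HasDerivAt S (deriv S u) u := (hS1.differentiable one_ne_zero u).hasDerivAt
    have hY' : HasDerivAt (fun u => Y (X u)) (D.sigma (X u, Y (X u)) * deriv X u) u :=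
      (hY (X u) (hXI u)).comp u hX'
    have hder : HasDerivAt (fun u => (((X u, Y (X u)), S u) : E))
        ((deriv X u, D.sigma (X u, Y (X u)) * deriv X u), deriv S u) u :=
      (hX'.prodMk hY').prodMk hS'
    rw [hder.deriv]
    have hdec : (((deriv X u, D.sigma (X u, Y (X u)) * deriv X u), deriv S u) : E) =
        deriv X u • esA D .R ((X u, Y (X u)), S u) +
          (deriv S u - deriv X u * D.Ka (X u, Y (X u))) • (((0, 0), 1) : E) := by
      refine Prod.ext (Prod.ext ?_ ?_) ?_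
      · show deriv X u = deriv X u * 1 + _ * 0
        ring
      · show D.sigma (X u, Y (X u)) * deriv X u = deriv X u * D.sigma (X u, Y (X u)) + _ * 0
        ring
      · show deriv S u = deriv X u * D.Ka (X u, Y (X u)) +
          (deriv S u - deriv X u * D.Ka (X u, Y (X u))) * 1
        ring
    rw [hdec]
    exact Submodule.add_mem _ (Submodule.smul_mem _ _ (Submodule.subset_span (by simp)))
      (Submodule.smul_mem _ _ (Submodule.subset_span (by simp)))

end XXT

open XXT in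
theorem I_XT (h1 : PS1) (h2 : PS3) (h3 : PS5) (h4 : GL1) (h5 : GL2) (_h6 : GL4) (h7 : GS2) (h8 : AR2)
    (h9 : CPAs) (h10 : LT) (_h11 : LA1) (_h12 : LA2) (h13 : PL1) (h14 : PL2) : XT := by
  intro D N _ _ C z τ ε f hε hz hf hbox x' τ'
  obtain ⟨Y, hY, hYz⟩ := (h2 D).1 z
  have hzLam : ((z.1, Y z.1) : P2) ∈ D.Lam := by rw [hYz]; exact hz
  have hYLam : ∀ x, ((x, Y x) : P2) ∈ D.Lam := (h2 D).2.2 Y hY z.1 hzLam
  have hYc : Continuous Y := continuous_iff_continuousAt.2 fun x => (hY x (mem_univ _)).continuousAt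
  obtain ⟨x₁, hx₁⟩ : ∃ x₁, x₁ = min z.1 x' := ⟨_, rfl⟩
  obtain ⟨x₂, hx₂⟩ : ∃ x₂, x₂ = max z.1 x' := ⟨_, rfl⟩
  have hx1z : x₁ ≤ z.1 := hx₁ ▸ min_le_left _ _
  have hx1x : x₁ ≤ x' := hx₁ ▸ min_le_right _ _
  have hx2z : z.1 ≤ x₂ := hx₂ ▸ le_max_left _ _
  have hx2x : x' ≤ x₂ := hx₂ ▸ le_max_right _ _
  have hx12 : x₁ ≤ x₂ := hx1z.trans hx2z
  obtain ⟨ρ, hρ, hρG, hPS5⟩ := h3 D Y hY hYLam x₁ x₂ hx12
  -- the tube
  set T : Set E := {e | ((e.1.1, e.1.2 - Y e.1.1), e.2) ∈
    {e : E | x₁ - ρ < e.1.1 ∧ e.1.1 < x₂ + ρ ∧ |e.1.2| < ρ}} with hT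
  have hTmem : ∀ e : E, e ∈ T ↔ x₁ - ρ < e.1.1 ∧ e.1.1 < x₂ + ρ ∧ |e.1.2 - Y e.1.1| < ρ := fun e => Iff.rfl
  have hKconv : Convex ℝ {e : E | x₁ - ρ < e.1.1 ∧ e.1.1 < x₂ + ρ ∧ |e.1.2| < ρ} := by
    have e1 : {e : E | x₁ - ρ < e.1.1 ∧ e.1.1 < x₂ + ρ ∧ |e.1.2| < ρ} =
        ((Ioo (x₁ - ρ) (x₂ + ρ)) ×ˢ (Ioo (-ρ) ρ)) ×ˢ (univ : Set ℝ) := by
      ext e
      simp only [mem_setOf_eq, mem_prod, mem_Ioo, mem_univ, and_true, abs_lt]
      tauto
    rw [e1]
    exact ((convex_Ioo _ _).prod (convex_Ioo _ _)).prod convex_univ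
  have hKne : {e : E | x₁ - ρ < e.1.1 ∧ e.1.1 < x₂ + ρ ∧ |e.1.2| < ρ}.Nonempty :=
    ⟨((z.1, 0), 0), by show x₁ - ρ < z.1; linarith, by show z.1 < x₂ + ρ; linarith, by
      show |(0 : ℝ)| < ρ
      rw [abs_zero]; exact hρ⟩
  obtain ⟨hT1, hT2⟩ := h7 Y hYc _ hKconv hKne
  have hTdom : T ⊆ domA .R := by
    intro e he
    have he' := (hTmem e).1 he
    exact hρG e.1.1 e.1.2 he'.1 he'.2.1 he'.2.2
  have hTopen : IsOpen T := by
    have e1 : T = {e : E | x₁ - ρ < e.1.1} ∩ ({e : E | e.1.1 < x₂ + ρ} ∩ {e : E | |e.1.2 - Y e.1.1| < ρ}) := by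
      ext e
      exact hTmem e
    rw [e1]
    exact (isOpen_lt (by fun_prop) (by fun_prop)).inter ((isOpen_lt (by fun_prop) (by fun_prop)).inter
      (isOpen_lt (by fun_prop) (by fun_prop)))
  have hzbox : ((z, τ) : E) ∈ box z ε := by
    show |z.1 - z.1| < ε ∧ |z.2 - z.2| < ε
    rw [sub_self, sub_self, abs_zero]
    exact ⟨hε, hε⟩
  have hzT : ((z, τ) : E) ∈ T := by
    rw [hTmem]
    refine ⟨by show x₁ - ρ < z.1; linarith, by show z.1 < x₂ + ρ; linarith, ?_⟩
    show |z.2 - Y z.1| < ρ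
    rw [hYz, sub_self, abs_zero]; exact hρ
  obtain ⟨s, hs, hsz⟩ := h4 IdxA domA (glueA D) N C .R T hTdom hT1 hT2 (f (z, τ)) (hf.mem _ hzbox)
    (by rw [hf.eq _ hzbox]; exact hzT)
  rw [hf.eq _ hzbox] at hsz
  -- the two lifts agree on the vertical segment
  have hsf : ∀ t, |t| < min ρ ε → s ((z.1, z.2 + t), τ) = f ((z.1, z.2 + t), τ) := by
    set V : Set E := {e | e.1.1 = z.1 ∧ |e.1.2 - z.2| < min ρ ε} with hV
    have hVconv : Convex ℝ V := by
      have e1 : V = (({z.1} : Set ℝ) ×ˢ (Ioo (z.2 - min ρ ε) (z.2 + min ρ ε))) ×ˢ (univ : Set ℝ) := by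
        ext e
        simp only [hV, mem_setOf_eq, mem_prod, mem_Ioo, mem_univ, and_true, mem_singleton_iff, abs_lt]
        constructor
        · rintro ⟨h1, h2, h3⟩
          exact ⟨h1, by linarith, by linarith⟩
        · rintro ⟨h1, h2, h3⟩
          exact ⟨h1, by linarith, by linarith⟩
      rw [e1]
      exact ((convex_singleton _).prod (convex_Ioo _ _)).prod convex_univ
    have hVT : V ⊆ T := by
      rintro e ⟨he1, he2⟩
      rw [hTmem, he1, hYz]
      exact ⟨by linarith, by linarith, he2.trans_le (min_le_left _ _)⟩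
    have hVb : V ⊆ box z ε := by
      rintro e ⟨he1, he2⟩
      refine ⟨?_, he2.trans_le (min_le_right _ _)⟩
      rw [he1, sub_self, abs_zero]; exact hε
    have hl1 : IsLift C .R V s := ⟨hs.cont.mono hVT, fun e he => hs.mem e (hVT he), fun e he => hs.eq e (hVT he)⟩
    have hl2 : IsLift C .R V f := ⟨hf.cont.mono hVb, fun e he => hf.mem e (hVb he), fun e he => hf.eq e (hVb he)⟩
    have hzV : ((z, τ) : E) ∈ V := by
      refine ⟨rfl, ?_⟩
      show |z.2 - z.2| < min ρ ε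
      rw [sub_self, abs_zero]; exact lt_min hρ hε
    have hEq := h5 IdxA domA (glueA D) N C .R V s f hVconv.isPreconnected (hVT.trans hTdom) hl1 hl2
      (z, τ) hzV hsz
    intro t ht
    apply hEq
    refine ⟨rfl, ?_⟩
    show |z.2 + t - z.2| < min ρ ε
    rw [add_sub_cancel_left]; exact ht
  -- moving along Y
  have hYσ : IsCurve D.sigma (Ioo (x₁ - ρ) (x₂ + ρ)) Y := by
    intro x _
    have e1 : D.sigma (x, Y x) = D.S (x, Y x) := by
      unfold DA.sigma
      rw [if_pos (hYLam x)]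
    rw [e1]
    exact hY x (mem_univ _)
  have hzI : z.1 ∈ Ioo (x₁ - ρ) (x₂ + ρ) := ⟨by linarith, by linarith⟩
  have hxI : x' ∈ Ioo (x₁ - ρ) (x₂ + ρ) := ⟨by linarith, by linarith⟩
  have hYT : ∀ x ∈ Ioo (x₁ - ρ) (x₂ + ρ), ∀ τ : ℝ, (((x, Y x), τ) : E) ∈ T := by
    intro x hx τ
    rw [hTmem]
    refine ⟨hx.1, hx.2, ?_⟩
    show |Y x - Y x| < ρ
    rw [sub_self, abs_zero]; exact hρ
  refine ⟨s ((x', Y x'), τ'), ?_, ?_⟩
  · have h := move h1 h8 h9 D N C T s hTdom hs Y _ _ hYσ hYT z.1 x' τ τ' hzI hxI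
    rw [hYz] at h
    rw [← hsz]
    exact h
  · intro O hO
    -- continuity of s
    have hxT : (((x', Y x'), τ') : E) ∈ T := hYT x' hxI τ'
    have hcont : ContinuousAt (fun y : ℝ => s ((x', y), τ')) (Y x') := by
      have h := hs.cont.continuousAt (hTopen.mem_nhds hxT)
      exact ContinuousAt.comp (f := fun y : ℝ => (((x', y), τ') : E)) (g := s) (x := Y x') h
        (by fun_prop)
    obtain ⟨η, hη, hηO⟩ := Metric.eventually_nhds_iff.1 (hcont.eventually (show ∀ᶠ q in 𝓝 (s ((x', Y x'), τ')), q ∈ O from hO))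
    obtain ⟨δ, hδ, hδ5⟩ := hPS5 (min η ρ) (lt_min hη hρ)
    refine ⟨min (min δ ρ) ε, by positivity, min_le_right _ _, ?_⟩
    intro t ht
    have ht1 : |t| < δ := ht.trans_le ((min_le_left _ _).trans (min_le_left _ _))
    have ht2 : |t| < ρ := ht.trans_le ((min_le_left _ _).trans (min_le_right _ _))
    have ht3 : |t| < ε := ht.trans_le (min_le_right _ _)
    obtain ⟨Y', hY'z, hY'c, hY'n⟩ := hδ5 z.1 (z.2 + t) (by linarith) (by linarith)
      (by rw [hYz, add_sub_cancel_left]; exact ht1)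
    -- the smaller interval
    have hI : Ioo (x₁ - min δ ρ) (x₂ + min δ ρ) ⊆ Ioo (x₁ - δ) (x₂ + δ) := by
      have := min_le_left δ ρ
      exact Ioo_subset_Ioo (by linarith) (by linarith)
    have hI' : Ioo (x₁ - min δ ρ) (x₂ + min δ ρ) ⊆ Ioo (x₁ - ρ) (x₂ + ρ) := by
      have := min_le_right δ ρ
      exact Ioo_subset_Ioo (by linarith) (by linarith)
    have hmp : 0 < min δ ρ := lt_min hδ hρ
    have hIcc : Icc x₁ x₂ ⊆ Ioo (x₁ - min δ ρ) (x₂ + min δ ρ) := by
      intro x hx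
      exact ⟨by linarith [hx.1], by linarith [hx.2]⟩
    have hzI' : z.1 ∈ Ioo (x₁ - min δ ρ) (x₂ + min δ ρ) := hIcc ⟨hx1z, hx2z⟩
    have hxI' : x' ∈ Ioo (x₁ - min δ ρ) (x₂ + min δ ρ) := hIcc ⟨hx1x, hx2x⟩
    have hY'T : ∀ x ∈ Ioo (x₁ - min δ ρ) (x₂ + min δ ρ), ∀ τ : ℝ, (((x, Y' x), τ) : E) ∈ T := by
      intro x hx τ
      rw [hTmem]
      exact ⟨(hI' hx).1, (hI' hx).2, (hY'n x (hI hx)).trans_le (min_le_right _ _)⟩
    have hmove : ∀ x ∈ Ioo (x₁ - min δ ρ) (x₂ + min δ ρ), ∀ τ'' : ℝ,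
        (leafSetoid C (esA D)) (s ((z.1, Y' z.1), τ)) (s ((x, Y' x), τ'')) := by
      intro x hx τ''
      exact move h1 h8 h9 D N C T s hTdom hs Y' _ _ (fun x hx => hY'c x (hI hx)) hY'T z.1 x τ τ''
        hzI' hx
    have hPT := hY'T x' hxI' τ'
    refine ⟨s ((x', Y' x'), τ'), ?_, hs.mem _ hPT, ?_, ?_, ?_, ?_⟩
    · apply hηO
      rw [Real.dist_eq]
      exact (hY'n x' (hI hxI')).trans_le (min_le_left _ _)
    · rw [hs.eq _ hPT]
    · rw [hs.eq _ hPT]
    · have h := hmove x' hxI' τ'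
      rw [hY'z, hsf t (lt_min ht2 ht3)] at h
      exact h
    · intro hnL
      rw [hs.eq _ hPT]
      -- the curve does not meet Lam
      have hnLam : ∀ x ∈ Ioo (x₁ - min δ ρ) (x₂ + min δ ρ), ((x, Y' x) : P2) ∉ D.Lam := by
        intro x hx hL
        have hr := (leafSetoid C (esA D)).symm (hmove x hx 0)
        have h := (h10 D N C _ _ hr).2.2 (hs.mem _ (hY'T x hx 0))
          (by rw [hs.eq _ (hY'T x hx 0)]; exact hL)
        rw [hs.eq _ (hY'T z.1 hzI' τ), hY'z] at h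
        exact hnL h.2
      have hY'cont : ContinuousOn Y' (Ioo (x₁ - min δ ρ) (x₂ + min δ ρ)) := fun x hx =>
        (hY'c x (hI hx)).continuousAt.continuousWithinAt
      have hcc := IsPreconnected.induction₂ (isPreconnected_Ioo (a := x₁ - min δ ρ) (b := x₂ + min δ ρ))
        (fun x y => D.idx (x, Y' x) = D.idx (y, Y' y)) ?_ (fun _ _ _ _ _ _ h h' => h.trans h')
        (fun _ _ _ _ h => h.symm) hxI' hzI'
      · show D.idx (x', Y' x') = D.idx (z.1, z.2 + t)
        rw [hcc, hY'z]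
      · intro x hx
        have hloc := (h14 D).2.2 (x, Y' x) (hnLam x hx)
        have ht : Tendsto (fun y => ((y, Y' y) : P2)) (𝓝[Ioo (x₁ - min δ ρ) (x₂ + min δ ρ)] x)
            (𝓝 (x, Y' x)) :=
          (continuousOn_id.prodMk hY'cont) x hx
        filter_upwards [ht.eventually hloc] with y hy
        exact hy.2.symm

end Pool.Agent.Work.MP_0d206b_gt

end

end

/-! ### L0.L07 -/

section

/-! Item L07: the quotient map of the stable leaf space of flow 0 is open. -/

open Set Filter Topology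
open scoped ContDiff

noncomputable section

namespace Pool.Agent.Work.MP_0d206b_gt

theorem I_L07 (h1 : L01) (hA : L07A) (hR : L07R) : L07 := by
  intro D N _ _ C O hO
  have hq : IsQuotientMap (Quotient.mk (leafSetoid C (es0 D))) := isQuotientMap_quot_mk
  rw [← hq.isOpen_preimage, isOpen_iff_eventually]
  rintro b' ⟨b, hb, hbb⟩
  have hrel : (leafSetoid C (es0 D)) b' b :=
    (leafSetoid C (es0 D)).symm (Quotient.exact hbb)
  have key : ∀ᶠ b₁ in 𝓝 b', ∃ b₂ ∈ O, (leafSetoid C (es0 D)) b₁ b₂ := by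
    rcases (h1 D N C b').1 with h | h
    · exact hA D N C O b b' hO hb h hrel
    · exact hR D N C O b b' hO hb h.1 h.2 hrel
  filter_upwards [key] with b₁ hb₁
  obtain ⟨b₂, hb₂, hr⟩ := hb₁
  exact ⟨b₂, hb₂, Quotient.sound ((leafSetoid C (es0 D)).symm hr)⟩

end Pool.Agent.Work.MP_0d206b_gt

end

end

/-! ### L0.L07R -/

section

open Set Filter Topology

noncomputable section

namespace Pool.Agent.Work.MP_0d206b_gt

namespace L0L07R

lemma continuousAt_c {ι : Type} {dom : ι → Set E} {glue : ι → E → ι → E → Prop} {N : Type}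
    [TopologicalSpace N] (C : CoverData dom glue N) (i : ι) {b : N} (hb : b ∈ C.U i) :
    ContinuousAt (C.c i) b := by
  have h1 : ContinuousOn (C.c i) (C.U i) := by
    rw [continuousOn_iff_continuous_domRestrict]
    exact continuous_subtype_val.comp (C.cov i).continuous
  exact h1.continuousAt ((C.isOpen_U i).mem_nhds hb)

lemma curve_cont {D : DA} {Y : ℝ → ℝ} (hY : IsCurve D.S univ Y) : Continuous Y :=
  continuous_iff_continuousAt.mpr fun x => (hY x (mem_univ x)).continuousAt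

end L0L07R

open L0L07R in
theorem I_L07R (hP1 : PL1) (hPS3 : PS3) (hPS6 : PS6) (hG4 : GL4) (h1 : L01) (h5 : L05) (h3 : L03)
    (hA4 : AR4) (hm : L0move) (ht : L0tube) : L07R := by
  have _ := hP1
  have _ := h1
  have _ := h5
  intro D N _ C O b b' hO hbO hb' hLam' hrel
  obtain ⟨Y, hY, hYz⟩ := (hPS3 D).1 (C.c .R b').1
  have hYc := curve_cont hY
  have hYLam : ∀ x, ((x, Y x) : P2) ∈ D.Lam := by
    refine (hPS3 D).2.2 Y hY (C.c .R b').1.1 ?_
    rw [hYz]
    exact hLam'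
  -- b is on the curve
  have hQ : b ∈ C.U .R ∧ (C.c .R b).1 ∈ D.Lam ∧ (C.c .R b).1.2 = Y (C.c .R b).1.1 :=
    (hA4 Idx0 dom0 (glue0 D) N C (es0 D)
      (fun b₁ => b₁ ∈ C.U .R ∧ (C.c .R b₁).1 ∈ D.Lam ∧ (C.c .R b₁).1.2 = Y (C.c .R b₁).1.1)
      (fun γ hγ h => (h3 D N C γ hγ 0).2 h.1 h.2.1 Y hY h.2.2 1)
      (fun γ hγ h => (h3 D N C γ hγ 1).2 h.1 h.2.1 Y hY h.2.2 0) b' b hrel).mp
      ⟨hb', hLam', hYz.symm⟩
  obtain ⟨hbU, -, hby⟩ := hQ
  set x' := (C.c .R b').1.1 with hx'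
  set xb := (C.c .R b).1.1 with hxb
  obtain ⟨ρ, hρ, hρ1, s, hTdom, hs, hsb', hsall⟩ := ht D N C Y hY hYLam b' hb' hYz.symm
    (min x' xb) (max x' xb) (min_le_left _ _) (le_max_left _ _)
  have hsb : s (C.c .R b) = b := hsall b hrel (min_le_right _ _) (le_max_right _ _)
  set T : Set E := {e : E | min x' xb - ρ < e.1.1 ∧ e.1.1 < max x' xb + ρ ∧ |e.1.2 - Y e.1.1| < ρ}
    with hT
  have hTopen : IsOpen T := by
    have hx : Continuous fun e : E => e.1.1 := continuous_fst.fst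
    have hy : Continuous fun e : E => e.1.2 := continuous_fst.snd
    have c1 : IsOpen {e : E | min x' xb - ρ < e.1.1} := isOpen_lt continuous_const hx
    have c2 : IsOpen {e : E | e.1.1 < max x' xb + ρ} := isOpen_lt hx continuous_const
    have c3 : IsOpen {e : E | |e.1.2 - Y e.1.1| < ρ} :=
      isOpen_lt ((hy.sub (hYc.comp hx)).abs) continuous_const
    exact c1.inter (c2.inter c3)
  have hmin1 : min x' xb ≤ x' := min_le_left _ _
  have hmin2 : min x' xb ≤ xb := min_le_right _ _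
  have hmax1 : x' ≤ max x' xb := le_max_left _ _
  have hmax2 : xb ≤ max x' xb := le_max_right _ _
  have hb'T : C.c .R b' ∈ T := by
    refine ⟨by linarith, by linarith, ?_⟩
    rw [← hx', hYz, sub_self, abs_zero]
    exact hρ
  have hbT : C.c .R b ∈ T := by
    refine ⟨by linarith, by linarith, ?_⟩
    rw [hby, sub_self, abs_zero]
    exact hρ
  -- a vertical neighbourhood of b which is mapped into O
  have hvert : ∃ η > 0, ∀ y : ℝ, |y - Y xb| < η → s (((xb, y) : P2), (C.c .R b).2) ∈ O := by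
    have h6 : ContinuousAt s (C.c .R b) := hs.cont.continuousAt (hTopen.mem_nhds hbT)
    have h7 : ContinuousAt (fun y : ℝ => s (((xb, y) : P2), (C.c .R b).2)) (Y xb) := by
      have h8 : ContinuousAt (fun y : ℝ => ((((xb, y) : P2), (C.c .R b).2) : E)) (Y xb) :=
        (continuousAt_const.prodMk continuousAt_id).prodMk continuousAt_const
      have h9 : ((((xb, Y xb) : P2), (C.c .R b).2) : E) = C.c .R b := by
        rw [← hby]
      refine ContinuousAt.comp (g := s) ?_ h8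
      rw [h9]
      exact h6
    have h10 : ∀ᶠ y in 𝓝 (Y xb), s (((xb, y) : P2), (C.c .R b).2) ∈ O := by
      refine h7.eventually_mem (hO.mem_nhds ?_)
      have h9 : ((((xb, Y xb) : P2), (C.c .R b).2) : E) = C.c .R b := by
        rw [← hby]
      rw [h9, hsb]
      exact hbO
    obtain ⟨η, hη, hball⟩ := Metric.eventually_nhds_iff.mp h10
    exact ⟨η, hη, fun y hy => hball (by rw [Real.dist_eq]; exact hy)⟩
  obtain ⟨η, hη, hηO⟩ := hvert
  obtain ⟨δ, hδ, hδY⟩ := hPS6 D Y hY (min x' xb) (max x' xb) min_le_max (min η ρ) (lt_min hη hρ)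
  have hev := hG4 Idx0 dom0 (glue0 D) N C .R T s hTopen hTdom hs b' hb' hb'T hsb'
  have hev2 : ∀ᶠ b₁ in 𝓝 b', |(C.c .R b₁).1.2 - Y (C.c .R b₁).1.1| < δ := by
    have h6 := continuousAt_c C .R hb'
    have h7 : ContinuousAt (fun b₁ => |(C.c .R b₁).1.2 - Y (C.c .R b₁).1.1|) b' := by
      have h8 : ContinuousAt (fun b₁ => Y (C.c .R b₁).1.1) b' :=
        (hYc.continuousAt).comp h6.fst.fst
      exact (h6.fst.snd.sub h8).abs
    refine h7.eventually_lt continuousAt_const ?_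
    rw [← hx', hYz, sub_self, abs_zero]
    exact hδ
  filter_upwards [hev, hev2] with b₁ hb₁ hb₁δ
  obtain ⟨hb₁U, hb₁T, hsb₁⟩ := hb₁
  obtain ⟨Y1, hY1, hY1z⟩ := (hPS3 D).1 (C.c .R b₁).1
  have hclose := hδY (C.c .R b₁).1.1 (C.c .R b₁).1.2 (by linarith [hb₁T.1]) (by linarith [hb₁T.2.1])
    hb₁δ Y1 hY1 hY1z
  refine ⟨s (((xb, Y1 xb) : P2), (C.c .R b).2), ?_, ?_⟩
  · refine hηO _ ?_
    exact (hclose xb ⟨by linarith, by linarith⟩).trans_le (min_le_left _ _)
  · have h6 := hm D N C T s hTdom hs Y1 hY1 (C.c .R b₁).1.1 xb (C.c .R b₁).2 (C.c .R b).2 ?_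
    · have h7 : ((((C.c .R b₁).1.1, Y1 (C.c .R b₁).1.1) : P2), (C.c .R b₁).2) = C.c .R b₁ := by
        rw [hY1z]
      rw [h7, hsb₁] at h6
      exact h6
    · intro x'' hx'' τ''
      have hlo : min x' xb - ρ < x'' := by
        rcases le_total (C.c .R b₁).1.1 xb with h | h
        · rw [uIcc_of_le h] at hx''
          linarith [hx''.1, hb₁T.1]
        · rw [uIcc_of_ge h] at hx''
          linarith [hx''.1]
      have hhi : x'' < max x' xb + ρ := by
        rcases le_total (C.c .R b₁).1.1 xb with h | h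
        · rw [uIcc_of_le h] at hx''
          linarith [hx''.2]
        · rw [uIcc_of_ge h] at hx''
          linarith [hx''.2, hb₁T.2.1]
      exact ⟨hlo, hhi, (hclose x'' ⟨by linarith, by linarith⟩).trans_le (min_le_right _ _)⟩

end Pool.Agent.Work.MP_0d206b_gt

end

end
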