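import Pool.Agent.Work.MP_0d206b_gt.Bd.StL

/-! ### L.I_AP3 -/

section

open Set Filter Topology
open scoped ContDiff

noncomputable section

namespace Pool.Agent.Work.MP_0d206b_gt

namespace XAP3

variable {N : Type} [TopologicalSpace N] {r : Setoid N} {κ : Type} (A : APart N r κ)

theorem cont (k : κ) : ContinuousOn (A.c k) (A.U k) := by
  rw [continuousOn_iff_continuous_domRestrict]
  have h := (A.cov k).continuous
  exact continuous_subtype_val.comp h

theorem x_eq (h2 : AP1) (k : κ) (b : N) (hb : b ∈ A.U k) :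
    A.x (Quotient.mk r b) = (A.c k b).1.1 := by
  have h : ∃ k' b', b' ∈ A.U k' ∧ Quotient.mk r b' = Quotient.mk r b := ⟨k, b, hb, rfl⟩
  have hx : A.x (Quotient.mk r b) = (A.c h.choose h.choose_spec.choose).1.1 := by
    unfold APart.x
    rw [dif_pos h]
  have key : ∀ k' b', b' ∈ A.U k' → Quotient.mk r b' = Quotient.mk r b →
      (A.c k' b').1.1 = (A.c k b).1.1 := by
    intro k' b' e1 e2
    obtain ⟨e3, e4, -⟩ := h2 N r κ A _ _ b e1 (Quotient.exact e2)
    have e5 : k' = k := A.disj _ _ b e3 hb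
    subst e5
    exact e4.1.symm
  obtain ⟨e1, e2⟩ := h.choose_spec.choose_spec
  rw [hx]
  exact key _ _ e1 e2

theorem LA_eq : A.LA = ⋃ k, Quotient.mk r '' (A.U k) := by
  ext q
  simp only [APart.LA, mem_ofPred_eq, mem_iUnion, mem_image]

theorem isOpen_LA (hq : IsOpenMap (Quotient.mk r)) : IsOpen A.LA := by
  rw [LA_eq]
  exact isOpen_iUnion fun k => hq _ (A.isOpen_U k)

theorem contx (h2 : AP1) (hq : IsOpenMap (Quotient.mk r)) : ContinuousOn A.x A.LA := by
  intro q hqLA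
  apply ContinuousAt.continuousWithinAt
  obtain ⟨k, b, hb, rfl⟩ := hqLA
  intro V hV
  rw [x_eq A h2 k b hb] at hV
  obtain ⟨J, hJV, hJ, hbJ⟩ := mem_nhds_iff.1 hV
  have hO : IsOpen (A.U k ∩ A.c k ⁻¹' {e : E | e.1.1 ∈ J}) :=
    (cont A k).isOpen_inter_preimage (A.isOpen_U k)
      (hJ.preimage (continuous_fst.comp continuous_fst))
  refine mem_map.2 (mem_of_superset ((hq _ hO).mem_nhds ⟨b, ⟨hb, hbJ⟩, rfl⟩) ?_)
  rintro _ ⟨b', ⟨hb', hbJ'⟩, rfl⟩
  apply hJV
  show A.x (Quotient.mk r b') ∈ J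
  rw [x_eq A h2 k b' hb']
  exact hbJ'

theorem locinj (h2 : AP1) (h3 : AP2) (h4 : PG1) (hq : IsOpenMap (Quotient.mk r)) (k : κ) (b : N)
    (hb : b ∈ A.U k) : ∃ W ∈ 𝓝 (Quotient.mk r b), InjOn A.x W := by
  classical
  have hcl : IsClosed (Gam : Set P2) := h4.2.2.2.2.1
  have hdom : IsOpen {e : E | e.1 ∉ Gam} := (hcl.isOpen_compl).preimage continuous_fst
  obtain ⟨Φ, hΦb, hΦ⟩ := (A.cov k).isLocalHomeomorph ⟨b, hb⟩
  have hT : IsOpen (Subtype.val '' Φ.target : Set E) :=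
    hdom.isOpenMap_subtype_val _ Φ.open_target
  have hbT : A.c k b ∈ (Subtype.val '' Φ.target : Set E) := by
    refine ⟨Φ ⟨b, hb⟩, Φ.map_source hΦb, ?_⟩
    rw [← hΦ]
    rfl
  obtain ⟨ε, hε, hball⟩ := Metric.isOpen_iff.1 hT _ hbT
  set Y : Set E := Metric.ball (A.c k b) ε with hY
  have hYd : Y ⊆ {e : E | e.1 ∉ Gam} := by
    intro e he
    obtain ⟨y, -, rfl⟩ := hball he
    exact y.2
  set s : E → N := fun e => if h : e ∈ {e : E | e.1 ∉ Gam} then (Φ.symm ⟨e, h⟩ : N) else b with hs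
  have hsY : ∀ (e : E) (he : e ∈ Y), s e = (Φ.symm ⟨e, hYd he⟩ : N) := by
    intro e he
    rw [hs]
    dsimp only
    rw [dif_pos (hYd he)]
  have hYT : ∀ (e : E) (he : e ∈ Y), (⟨e, hYd he⟩ : {e : E | e.1 ∉ Gam}) ∈ Φ.target := by
    intro e he
    obtain ⟨y, hy, hye⟩ := hball he
    have : (⟨e, hYd he⟩ : {e : E | e.1 ∉ Gam}) = y := Subtype.ext hye.symm
    rw [this]
    exact hy
  have hscont : ContinuousOn s Y := by
    rw [continuousOn_iff_continuous_domRestrict]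
    have h1 : Continuous (fun y : Y => Φ.symm ⟨y.1, hYd y.2⟩) := by
      refine Φ.continuousOn_symm.comp_continuous (continuous_subtype_val.subtype_mk _) ?_
      intro y
      exact hYT y.1 y.2
    refine (continuous_subtype_val.comp h1).congr (fun y => ?_)
    rw [domRestrict_apply, hsY y.1 y.2]
    rfl
  have hss : ∀ e ∈ Y, s e ∈ A.U k ∧ A.c k (s e) = e := by
    intro e he
    rw [hsY e he]
    refine ⟨(Φ.symm ⟨e, hYd he⟩).2, ?_⟩
    have h1 := Φ.right_inv (hYT e he)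
    rw [← hΦ] at h1
    exact congrArg Subtype.val h1
  have hverts := (h3 N r κ A k).2 Y s (convex_ball _ _) hYd hscont hss
  set O : Set N := Subtype.val '' (Φ.source ∩ (fun u : A.U k => A.c k u.1) ⁻¹' Y) with hO
  have hOo : IsOpen O := by
    apply (A.isOpen_U k).isOpenMap_subtype_val
    apply Φ.open_source.inter
    apply Metric.isOpen_ball.preimage
    exact continuous_subtype_val.comp (A.cov k).continuous
  have hsO : ∀ n ∈ O, n ∈ A.U k ∧ A.c k n ∈ Y ∧ s (A.c k n) = n := by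
    rintro _ ⟨u, ⟨hu, huY⟩, rfl⟩
    refine ⟨u.2, huY, ?_⟩
    rw [hsY _ huY]
    have h1 : (⟨A.c k u.1, hYd huY⟩ : {e : E | e.1 ∉ Gam}) = Φ u := by
      rw [← hΦ]
      rfl
    rw [h1, Φ.left_inv hu]
  refine ⟨Quotient.mk r '' O, (hq _ hOo).mem_nhds ⟨b, ⟨⟨b, hb⟩, ⟨hΦb, Metric.mem_ball_self hε⟩, rfl⟩, rfl⟩, ?_⟩
  rintro _ ⟨n, hn, rfl⟩ _ ⟨n', hn', rfl⟩ hxx
  obtain ⟨a1, a2, a3⟩ := hsO n hn
  obtain ⟨a1', a2', a3'⟩ := hsO n' hn'
  rw [x_eq A h2 k n a1, x_eq A h2 k n' a1'] at hxx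
  have h5 := hverts _ a2 _ a2' hxx
  rw [a3, a3'] at h5
  exact Quotient.sound h5

end XAP3

theorem I_AP3 (_h1 : AP0) (h2 : AP1) (h3 : AP2) (h4 : PG1) : AP3 := by
  intro N _ r κ A hq
  refine ⟨XAP3.x_eq A h2, XAP3.isOpen_LA A hq, XAP3.contx A h2 hq, ?_, ?_⟩
  · rintro a ⟨k, b, hb, rfl⟩
    exact XAP3.locinj A h2 h3 h4 hq k b hb
  · rintro a ⟨k, b, hb, hab, -⟩
    exact ⟨k, b, hb, hab⟩

end Pool.Agent.Work.MP_0d206b_gt

end

end

/-! ### L.I_AR1 -/

section

/-! Item AR1 of module L. -/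

set_option autoImplicit false

open Set Filter Topology
open scoped ContDiff

namespace Pool.Agent.Work.MP_0d206b_gt

theorem I_AR1 : AR1 := by
  intro ι dom glue N _ C w hc γ hγ h
  have key : ∀ t j, γ t ∈ C.U j → ContDiffAt ℝ 1 (C.c j ∘ γ) t ∧
      deriv (C.c j ∘ γ) t ∈ plane w j (C.c j (γ t)) := by
    intro t j hj
    obtain ⟨i, hi, hsm, htan⟩ := h t
    obtain ⟨θ, hθ, hθe, hev, hpl⟩ := hc i j (C.c i (γ t)) (C.c j (γ t)) (C.maps i hi)
      (C.glue_of i j (γ t) hi hj)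
    have hU : ∀ᶠ u in 𝓝 t, γ u ∈ C.U i :=
      hγ.continuousAt.eventually ((C.isOpen_U i).mem_nhds hi)
    have hcont : Tendsto (C.c i ∘ γ) (𝓝 t) (𝓝 (C.c i (γ t))) := hsm.continuousAt
    have heq : C.c j ∘ γ =ᶠ[𝓝 t] θ ∘ (C.c i ∘ γ) := by
      filter_upwards [hU, hcont.eventually hev] with u hu hg
      exact (C.glue_lift i j (γ u) _ hu hg).2
    have hθ1 : ContDiffAt ℝ 1 θ ((C.c i ∘ γ) t) := hθ.of_le (by exact_mod_cast le_top)
    refine ⟨(hθ1.comp t hsm).congr_of_eventuallyEq heq, ?_⟩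
    rw [heq.deriv_eq, fderiv_comp_deriv t (hθ1.differentiableAt (by norm_num))
      (hsm.differentiableAt (by norm_num))]
    exact hpl _ htan
  exact ⟨hγ, fun t i hi => (key t i hi).1, fun t i hi => (key t i hi).2⟩

end Pool.Agent.Work.MP_0d206b_gt

end

/-! ### L.I_GL4 -/

section

/-!
# MP_0d206b_gt, item GL4: near a point of the image of a lift
-/

open Set Filter Topology
open scoped ContDiff

noncomputable section

namespace Pool.Agent.Work.MP_0d206b_gt

theorem I_GL4 (h1 : GL3) : GL4 := by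
  intro ι dom glue N _ C i Y s hYo hYd hs b hb hbY hsb
  have ho : IsOpen (s '' Y) := h1 ι dom glue N C i Y s hYo hYd hs Y subset_rfl hYo
  have hm : b ∈ s '' Y := ⟨C.c i b, hbY, hsb⟩
  filter_upwards [ho.mem_nhds hm] with b' hb'
  obtain ⟨e, he, rfl⟩ := hb'
  have h2 := hs.eq e he
  refine ⟨hs.mem e he, ?_, ?_⟩
  · rw [h2]; exact he
  · rw [h2]

end Pool.Agent.Work.MP_0d206b_gt

end

end

/-! ### L.I_LA24 -/

section

/-! MP_0d206b_gt, module L, item LA24 -/

open Set Filter Topology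
open scoped ContDiff

noncomputable section

namespace Pool.Agent.Work.MP_0d206b_gt

namespace XLA24

theorem ns_symm {X : Type} [TopologicalSpace X] {a b : X} (h : NS a b) : NS b a :=
  ⟨h.1.symm, fun U V hU hV hb ha => by
    obtain ⟨c, hc⟩ := h.2 V U hV hU ha hb
    exact ⟨c, hc.2, hc.1⟩⟩

end XLA24

open XLA24 in
theorem I_LA24 (h1 : Crit) (h2 : AP8) (h3 : LA1) (h4 : LA13) (h5 : LA15) (h6 : LA18) (h7 : LA19)
    (h8 : LA20) (h9 : LA21) (h10 : LA22) (h11 : LA23) : LA24 := by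
  intro D N _ _ C
  obtain ⟨A, hU, hc⟩ := h4 D N C
  have hop := h5 D N C
  refine h1 _ A.LA A.x A.up A.sing (h6 D N C) (h2 N _ Bool A hop) ?_
  have hrep : ∀ q : Quotient (leafSetoid C (esA D)), q ∉ A.LA → ∃ b, Quotient.mk _ b = q ∧
      ((∃ m, b ∈ C.U (.g m) ∧ (C.c (.g m) b).1.1 = 0) ∨ (b ∈ C.U .R ∧ (C.c .R b).1 ∈ D.Lam)) := by
    intro q hq
    obtain ⟨b, rfl⟩ := Quotient.exists_rep q
    refine ⟨b, rfl, ?_⟩
    rcases h3 D N C b with ⟨s, hs⟩ | h | h
    · exfalso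
      apply hq
      refine ⟨s, b, ?_, rfl⟩
      rw [hU]
      exact hs
    · exact Or.inl h
    · exact Or.inr h
  refine ⟨h7 D N C A hU hc, ?_, h11 D N C A hU hc⟩
  intro q hq q' hq' hNS
  obtain ⟨b, rfl, hb⟩ := hrep q hq
  obtain ⟨b', rfl, hb'⟩ := hrep q' hq'
  rcases hb with ⟨m, hm, hm0⟩ | ⟨hR, hL⟩
  · rcases hb' with ⟨m', hm', hm0'⟩ | ⟨hR', hL'⟩
    · exact h8 D N C m m' b b' hm hm' hm0 hm0' hNS
    · exact h9 D N C m b b' hm hR' hm0 hL' hNS
  · rcases hb' with ⟨m', hm', hm0'⟩ | ⟨hR', hL'⟩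
    · exact h9 D N C m' b' b hm' hR hm0' hL (ns_symm hNS)
    · exact h10 D N C b b' hR hR' hL hL' hNS

end Pool.Agent.Work.MP_0d206b_gt

end

end

/-! ### L.I_LT -/

section

/-! Project MP_0d206b_gt, item LT: the three types of leaves. -/

open Set Filter Topology
open scoped ContDiff

noncomputable section

namespace Pool.Agent.Work.MP_0d206b_gt

namespace XLT

theorem typeA (h3 : LA7) (h5 : AR4) (D : DA) (N : Type) [TopologicalSpace N]
    (C : CoverData domA (glueA D) N) (b b' : N) (h : (leafSetoid C (esA D)) b b') (s : Bool)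
    (hb : b ∈ C.U (.A s)) : b' ∈ C.U (.A s) ∧ (C.c (.A s) b').1.1 = (C.c (.A s) b).1.1 := by
  refine (h5 _ _ _ N C (esA D) (fun b'' => b'' ∈ C.U (.A s) ∧
    (C.c (.A s) b'').1.1 = (C.c (.A s) b).1.1) ?_ ?_ b b' h).1 ⟨hb, rfl⟩
  · rintro γ hγ ⟨e1, e2⟩
    have e3 := h3 D N C γ hγ 0 s e1 1
    exact ⟨e3.1, e3.2.trans e2⟩
  · rintro γ hγ ⟨e1, e2⟩
    have e3 := h3 D N C γ hγ 1 s e1 0
    exact ⟨e3.1, e3.2.trans e2⟩

theorem typeG (h4 : LA8) (h5 : AR4) (D : DA) (N : Type) [TopologicalSpace N]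
    (C : CoverData domA (glueA D) N) (b b' : N) (h : (leafSetoid C (esA D)) b b') (m : Gam)
    (hb : b ∈ C.U (.g m)) (hx : (C.c (.g m) b).1.1 = 0) :
    b' ∈ C.U (.g m) ∧ (C.c (.g m) b').1.1 = 0 := by
  refine (h5 _ _ _ N C (esA D) (fun b'' => b'' ∈ C.U (.g m) ∧
    (C.c (.g m) b'').1.1 = 0) ?_ ?_ b b' h).1 ⟨hb, hx⟩
  · rintro γ hγ ⟨e1, e2⟩
    exact h4 D N C γ hγ 0 m e1 e2 1
  · rintro γ hγ ⟨e1, e2⟩
    exact h4 D N C γ hγ 1 m e1 e2 0

end XLT

theorem I_LT (h1 : LA1) (h2 : LA2) (h3 : LA7) (h4 : LA8) (h5 : AR4) : LT := by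
  intro D N _ C b b' h
  have hsymm : (leafSetoid C (esA D)) b' b := (leafSetoid C (esA D)).symm' h
  refine ⟨fun s hb => XLT.typeA h3 h5 D N C b b' h s hb,
    fun m hb hx => XLT.typeG h4 h5 D N C b b' h m hb hx, fun hb hL => ?_⟩
  obtain ⟨e1, e2⟩ := (h2 D N C b).2.2.2.1 hb hL
  rcases h1 D N C b' with ⟨s, hs⟩ | ⟨m, hm, hx⟩ | h6
  · exact absurd (XLT.typeA h3 h5 D N C b' b hsymm s hs).1 (e1 s)
  · exact absurd (XLT.typeG h4 h5 D N C b' b hsymm m hm hx).1 (e2 m)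
  · exact h6

end Pool.Agent.Work.MP_0d206b_gt

end

end

/-! ### L.I_LU1a -/

section

/-!
# MP_0d206b_gt, item LU1a: closedness step for the repeller piece
-/

open Set Filter Topology
open scoped ContDiff

noncomputable section

namespace Pool.Agent.Work.MP_0d206b_gt

namespace XLU1a

lemma const_of {F : Type} [NormedAddCommGroup F] [NormedSpace ℝ F] {f : ℝ → F} {p q : ℝ}
    (h : ∀ t ∈ Ioo p q, HasDerivAt f 0 t) {x y : ℝ} (hx : x ∈ Ioo p q) (hy : y ∈ Ioo p q) :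
    f x = f y :=
  isOpen_Ioo.is_const_of_deriv_eq_zero isPreconnected_Ioo
    (fun t ht => (h t ht).differentiableAt.differentiableWithinAt)
    (fun t ht => (h t ht).deriv) hx hy

lemma near {N : Type} [TopologicalSpace N] {γ : ℝ → N} (hγ : Continuous γ) {U : Set N}
    (hU : IsOpen U) {a : ℝ} (ha : γ a ∈ U) {ε : ℝ} (hε : 0 < ε) :
    ∃ δ > 0, δ ≤ ε ∧ ∀ t ∈ Ioo (a - δ) (a + δ), γ t ∈ U := by
  have h : γ ⁻¹' U ∈ 𝓝 a := (hU.preimage hγ).mem_nhds ha
  obtain ⟨δ, hδ, hs⟩ := Metric.mem_nhds_iff.1 h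
  refine ⟨min δ ε, lt_min hδ hε, min_le_right _ _, fun t ht => ?_⟩
  apply hs
  rw [Metric.mem_ball, Real.dist_eq, abs_lt]
  have := min_le_left δ ε
  constructor <;> linarith [ht.1, ht.2]

lemma caseG (h4 : LA2) (h6 : LA5) (h7 : LU0) (D : DA) (N : Type) [TopologicalSpace N]
    (C : CoverData domA (glueA D) N) (γ : ℝ → N) (hγ : IsArc C (euA D) γ) (a ε : ℝ) (hε : 0 < ε)
    (hU : ∀ t ∈ Ioo a (a + ε), γ t ∈ C.U .R) (m : Gam) (hg : γ a ∈ C.U (.g m)) :
    γ a ∈ C.U .R := by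
  obtain ⟨δ, hδ, hδε, hn⟩ := near hγ.cont (C.isOpen_U (.g m)) hg hε
  have hc : ∀ t ∈ Ioo (a - δ) (a + δ),
      HasDerivAt (fun u => (C.c (.g m) (γ u)).1.2) 0 t := fun t ht =>
    (h7 D N C γ hγ t).2 m (hn t ht)
  have hm : a + δ / 2 ∈ Ioo (a - δ) (a + δ) := ⟨by linarith, by linarith⟩
  have ha : a ∈ Ioo (a - δ) (a + δ) := ⟨by linarith, by linarith⟩
  have he := const_of hc ha hm
  have h1 : γ (a + δ / 2) ∈ C.U .R := hU _ ⟨by linarith, by linarith⟩
  have h2 := (h4 D N C (γ (a + δ / 2))).2.2.2.2 m h1 (hn _ hm)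
  refine ((h6 D N C m (γ a) hg).2 ?_).1
  intro h0
  exact h2 (he ▸ h0)

lemma sg_smul_mem (s : Bool) {m : P2} (hm : m ∈ Gam) : sg s • m ∈ Gam := by
  cases s
  · have : sg false • m = -m := by simp [sg]
    rw [this]
    exact neg_mem hm
  · have : sg true • m = m := by simp [sg]
    rw [this]
    exact hm

lemma caseA (h1 : PL1) (h2 : PL2) (h4 : LA2) (h5 : LA4) (h6 : LA5) (h7 : LU0) (D : DA) (N : Type)
    [TopologicalSpace N]
    (C : CoverData domA (glueA D) N) (γ : ℝ → N) (hγ : IsArc C (euA D) γ) (a ε : ℝ) (hε : 0 < ε)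
    (hU : ∀ t ∈ Ioo a (a + ε), γ t ∈ C.U .R) (s : Bool) (hA : γ a ∈ C.U (.A s)) :
    γ a ∈ C.U .R := by
  obtain ⟨δ, hδ, hδε, hn⟩ := near hγ.cont (C.isOpen_U (.A s)) hA hε
  obtain ⟨hP0, -, -, hstrip, -, -, -⟩ := h1 D
  have hR : ∀ t ∈ Ioo a (a + δ), γ t ∈ C.U .R := fun t ht =>
    hU t ⟨ht.1, by linarith [ht.2]⟩
  have hA' : ∀ t ∈ Ioo a (a + δ), γ t ∈ C.U (.A s) := fun t ht =>
    hn t ⟨by linarith [ht.1], ht.2⟩
  have hglue : ∀ t ∈ Ioo a (a + δ), glueRA D s (C.c .R (γ t)) (C.c (.A s) (γ t)) := fun t ht =>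
    C.glue_of .R (.A s) (γ t) (hR t ht) (hA' t ht)
  -- the index is locally constant
  have hidx : ∀ t ∈ Ioo a (a + δ), HasDerivAt (fun u => D.idx (C.c .R (γ u)).1) 0 t := by
    intro t ht
    obtain ⟨m, hm, v, -, hv, -, -⟩ := hglue t ht
    have hnL : (C.c .R (γ t)).1 ∉ D.Lam := fun hL => hL m hm v hv
    have hev := (h2 D).2.2 _ hnL
    have hcont : ContinuousAt (fun u => (C.c .R (γ u)).1) t :=
      continuous_fst.continuousAt.comp (hγ.smooth t .R (hR t ht)).continuousAt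
    have hev2 : ∀ᶠ u in 𝓝 t, D.idx (C.c .R (γ u)).1 = D.idx (C.c .R (γ t)).1 :=
      (hcont.eventually hev).mono fun u hu => hu.2
    have := (hasDerivAt_const t (D.idx (C.c .R (γ t)).1)).congr_of_eventuallyEq hev2
    exact this
  have hx : ∀ t ∈ Ioo a (a + δ), HasDerivAt (fun u => (C.c .R (γ u)).1.1) 0 t := fun t ht =>
    (h7 D N C γ hγ t).1 (hR t ht)
  have hmid : a + δ / 2 ∈ Ioo a (a + δ) := ⟨by linarith, by linarith⟩
  obtain ⟨M, hM, v0, -, hv0, -, -⟩ := hglue _ hmid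
  set X : ℝ := (C.c .R (γ (a + δ / 2))).1.1 with hX
  have hidxM : D.idx (C.c .R (γ (a + δ / 2))).1 = M := by
    rw [hv0]
    exact (hstrip M hM v0).2.1
  -- description on the interval
  have hdesc : ∀ t ∈ Ioo a (a + δ), ∃ w1 : ℝ, (C.c (.A s) (γ t)).1 =
      sg s • M + D.Psi (w1, 2 * (sg s * (X - M.1))) := by
    intro t ht
    obtain ⟨m, hm, v, -, hv, hw, -⟩ := hglue t ht
    have hmM : m = M := by
      have e1 : D.idx (C.c .R (γ t)).1 = m := by
        rw [hv]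
        exact (hstrip m hm v).2.1
      rw [← e1, ← hidxM]
      exact const_of hidx ht hmid
    subst hmM
    have hvX : v.1 = X - m.1 := by
      have e2 : (C.c .R (γ t)).1.1 = X := const_of hx ht hmid
      have e3 : (C.c .R (γ t)).1.1 = m.1 + v.1 := by
        rw [hv, Prod.fst_add, D.Psi_fst]
      linarith
    refine ⟨(gmap (sg s • v)).1, ?_⟩
    rw [hw]
    congr 2
    ext
    · rfl
    · show 2 * (sg s * v.1) = 2 * (sg s * (X - m.1))
      rw [hvX]
  have hdesc' : ∀ t ∈ Ioo a (a + δ), (C.c (.A s) (γ t)).1 =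
      sg s • M + D.Psi ((C.c (.A s) (γ t)).1.1 - sg s * M.1, 2 * (sg s * (X - M.1))) := by
    intro t ht
    obtain ⟨w1, hw1⟩ := hdesc t ht
    have e4 : (C.c (.A s) (γ t)).1.1 = sg s * M.1 + w1 := by
      rw [hw1, Prod.fst_add, D.Psi_fst]
      rfl
    have e5 : w1 = (C.c (.A s) (γ t)).1.1 - sg s * M.1 := by linarith
    rw [← e5]
    exact hw1
  -- the limit
  have hcA : ContinuousAt (fun u => (C.c (.A s) (γ u)).1) a :=
    continuous_fst.continuousAt.comp (hγ.smooth a (.A s) hA).continuousAt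
  have hlim1 : Tendsto (fun u => (C.c (.A s) (γ u)).1) (𝓝[>] a) (𝓝 (C.c (.A s) (γ a)).1) :=
    hcA.tendsto.mono_left nhdsWithin_le_nhds
  have hPsi : Continuous D.Psi := D.Psi_smooth.continuous
  have hlim2 : Tendsto (fun u => sg s • M + D.Psi ((C.c (.A s) (γ u)).1.1 - sg s * M.1,
      2 * (sg s * (X - M.1)))) (𝓝[>] a) (𝓝 (sg s • M +
        D.Psi ((C.c (.A s) (γ a)).1.1 - sg s * M.1, 2 * (sg s * (X - M.1))))) := by
    have hc : Continuous (fun z : P2 => sg s • M + D.Psi (z.1 - sg s * M.1,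
      2 * (sg s * (X - M.1)))) := by fun_prop
    exact (hc.tendsto _).comp hlim1
  have hev : (fun u => (C.c (.A s) (γ u)).1) =ᶠ[𝓝[>] a] (fun u => sg s • M +
      D.Psi ((C.c (.A s) (γ u)).1.1 - sg s * M.1, 2 * (sg s * (X - M.1)))) := by
    filter_upwards [Ioo_mem_nhdsGT (show a < a + δ by linarith)] with t ht
    exact hdesc' t ht
  have hlimeq := tendsto_nhds_unique (hlim1.congr' hev) hlim2
  set w : P2 := ((C.c (.A s) (γ a)).1.1 - sg s * M.1, 2 * (sg s * (X - M.1))) with hw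
  have hLA4 := h5 D N C s (γ a) M hM w hA hlimeq
  by_cases hsl : w.2 = 0 ∧ 0 ≤ w.1
  · have hpos : 0 < w.1 := by
      refine lt_of_le_of_ne hsl.2 ?_
      intro h0
      have hw0 : w = 0 := Prod.ext h0.symm hsl.1
      rw [hw0, hP0, add_zero] at hlimeq
      have hmem : (C.c (.A s) (γ a)).1 ∉ Gam := C.maps (.A s) hA
      rw [hlimeq] at hmem
      exact hmem (sg_smul_mem s hM)
    exact caseG h4 h6 h7 D N C γ hγ a ε hε hU ⟨M, hM⟩ (hLA4.2 hpos).1
  · exact (hLA4.1 hsl).1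

end XLU1a

open XLU1a in
theorem I_LU1a (h1 : PL1) (h2 : PL2) (h3 : PL5) (h4 : LA2) (h5 : LA4) (h6 : LA5) (h7 : LU0) :
    LU1a := by
  intro D N _ C γ hγ a ε hε hU
  obtain ⟨i, hi⟩ := C.cover (γ a)
  match i, hi with
  | .R, hi => exact hi
  | .A s, hi => exact caseA h1 h2 h4 h5 h6 h7 D N C γ hγ a ε hε hU s hi
  | .g m, hi => exact caseG h4 h6 h7 D N C γ hγ a ε hε hU m hi

end Pool.Agent.Work.MP_0d206b_gt

end

end

/-! ### L.I_PL1 -/

section

open Set Filter Topology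
open scoped ContDiff

noncomputable section

namespace Pool.Agent.Work.MP_0d206b_gt

namespace XPL1

variable (D : DA)

theorem psi_zero : D.Psi 0 = 0 := by
  obtain ⟨r, hr, h⟩ := D.Psi_near
  exact h 0 (by rw [norm_zero]; exact hr)

theorem hasStrict (v : P2) : HasStrictFDerivAt D.Psi (fderiv ℝ D.Psi v) v :=
  (D.Psi_smooth.contDiffAt).hasStrictFDerivAt (by simp)

theorem hasFDeriv (v : P2) : HasFDerivAt D.Psi (fderiv ℝ D.Psi v) v := (hasStrict D v).hasFDerivAt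

theorem hasDeriv_vert (x t : ℝ) :
    HasDerivAt (fun t : ℝ => (D.Psi (x, t)).2) (dy D.Psi (x, t)) t := by
  have h1 : HasDerivAt (fun t : ℝ => ((x, t) : P2)) ((0, 1) : P2) t :=
    (hasDerivAt_const t x).prodMk (hasDerivAt_id t)
  have h2 := (hasFDeriv D (x, t)).comp_hasDerivAt t h1
  exact (hasFDerivAt_snd (𝕜 := ℝ) (p := D.Psi (x, t))).comp_hasDerivAt t h2

theorem vert_strictMono (x : ℝ) : StrictMono (fun t : ℝ => (D.Psi (x, t)).2) := by
  apply strictMono_of_deriv_pos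
  intro t
  rw [(hasDeriv_vert D x t).deriv]
  exact D.dyPsi_pos _

theorem psi_inj : Function.Injective D.Psi := by
  intro v v' h
  have h1 : v.1 = v'.1 := by rw [← D.Psi_fst v, ← D.Psi_fst v', h]
  have h2 : (D.Psi (v.1, v.2)).2 = (D.Psi (v.1, v'.2)).2 := by
    have e1 : ((v.1, v.2) : P2) = v := rfl
    have e2 : ((v.1, v'.2) : P2) = v' := by rw [h1]
    rw [e1, e2, h]
  exact Prod.ext h1 ((vert_strictMono D v.1).injective h2)

theorem fst_fderiv (v w : P2) : (fderiv ℝ D.Psi v w).1 = w.1 := by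
  have h1 := (hasFDerivAt_fst (𝕜 := ℝ) (p := D.Psi v)).comp v (hasFDeriv D v)
  have h2 : (Prod.fst ∘ D.Psi) = (Prod.fst : P2 → ℝ) := by
    funext u
    exact D.Psi_fst u
  rw [h2] at h1
  have h3 := h1.unique (hasFDerivAt_fst (𝕜 := ℝ) (p := v))
  have h4 := congrArg (fun L : P2 →L[ℝ] ℝ => L w) h3
  exact h4

theorem psi_open : IsOpenMap D.Psi := by
  rw [isOpenMap_iff_nhds_le]
  intro v
  refine ((hasStrict D v).map_nhds_eq_of_surj ?_).ge
  rw [LinearMap.range_eq_top]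
  rintro ⟨p, q⟩
  refine ⟨(p, (q - dx D.Psi v * p) / dy D.Psi v), ?_⟩
  set t := (q - dx D.Psi v * p) / dy D.Psi v with ht
  have h1 : ((p, t) : P2) = p • ((1, 0) : P2) + t • ((0, 1) : P2) := by
    ext <;> simp
  have h2 : (fderiv ℝ D.Psi v (p, t)).2 = q := by
    rw [h1, map_add, map_smul, map_smul]
    show p * dx D.Psi v + t * dy D.Psi v = q
    rw [ht]
    have := (D.dyPsi_pos v).ne'
    field_simp
    ring
  exact Prod.ext (fst_fderiv D v _) h2

theorem spec (m : P2) (hm : m ∈ Gam) (v : P2) :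
    D.lin (m + D.Psi v) = v ∧ D.idx (m + D.Psi v) = m := by
  have h : ∃ m' ∈ Gam, ∃ v', m + D.Psi v = m' + D.Psi v' := ⟨m, hm, v, rfl⟩
  have h1 : D.idx (m + D.Psi v) = h.choose := by unfold DA.idx; rw [dif_pos h]
  have h2 : D.lin (m + D.Psi v) = h.choose_spec.2.choose := by unfold DA.lin; rw [dif_pos h]
  have key : ∀ (m' : P2) (v' : P2), m' ∈ Gam → m + D.Psi v = m' + D.Psi v' → v' = v ∧ m' = m := by
    intro m' v' hm' h3
    have h4 : m = m' := D.strips_disj m hm _ hm' _ _ h3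
    subst h4
    exact ⟨(psi_inj D (add_left_cancel h3)).symm, rfl⟩
  obtain ⟨k1, k2⟩ := key _ _ h.choose_spec.1 h.choose_spec.2.choose_spec
  exact ⟨h2.trans k1, h1.trans k2⟩

theorem mem_iff (m : P2) (hm : m ∈ Gam) (v : P2) : m + D.Psi v ∈ Gam ↔ v = 0 := by
  constructor
  · intro h
    have h1 : m + D.Psi v = (m + D.Psi v) + D.Psi 0 := by rw [psi_zero, add_zero]
    have h2 := D.strips_disj m hm _ h _ _ h1
    have h3 : D.Psi v = D.Psi 0 := by
      rw [psi_zero]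
      exact left_eq_add.1 h2
    exact psi_inj D h3
  · rintro rfl
    rw [psi_zero, add_zero]
    exact hm

theorem closed : IsClosed D.Lam := by
  rw [← isOpen_compl_iff]
  have h : D.Lamᶜ = ⋃ m ∈ (Gam : Set P2), (fun z => m + z) '' (range D.Psi) := by
    ext z
    simp only [DA.Lam, LamOf, mem_compl_iff, mem_ofPred_eq, mem_iUnion, mem_image, mem_range,
      SetLike.mem_coe, exists_prop]
    constructor
    · intro h
      by_contra h'
      apply h
      intro m hm v hz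
      exact h' ⟨m, hm, _, ⟨v, rfl⟩, hz.symm⟩
    · rintro ⟨m, hm, _, ⟨v, rfl⟩, hz⟩ h
      exact h m hm v hz.symm
  rw [h]
  refine isOpen_biUnion fun m _ => ?_
  apply (isOpenMap_add_left m)
  exact (psi_open D).isOpen_range

end XPL1

theorem I_PL1 (_h1 : PG1) : PL1 := by
  intro D
  refine ⟨XPL1.psi_zero D, XPL1.psi_inj D, XPL1.psi_open D, ?_, XPL1.closed D, ?_, ?_⟩
  · intro m hm v
    obtain ⟨e1, e2⟩ := XPL1.spec D m hm v
    exact ⟨e1, e2, XPL1.mem_iff D m hm v⟩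
  · intro z hz hzG
    refine hz z hzG 0 ?_
    rw [XPL1.psi_zero, add_zero]
  · intro z hz
    have h : ∃ m ∈ Gam, ∃ v, z = m + D.Psi v := by
      by_contra h'
      apply hz
      intro m hm v hzz
      exact h' ⟨m, hm, v, hzz⟩
    obtain ⟨m, hm, v, rfl⟩ := h
    obtain ⟨e1, e2⟩ := XPL1.spec D m hm v
    rw [e1, e2]
    exact ⟨hm, rfl⟩

end Pool.Agent.Work.MP_0d206b_gt

end

end

/-! ### L.I_PS2 -/

section

/-! PS2: `sigma` is locally Lipschitz in `y` off the lattice. -/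

open Set Filter Topology
open scoped ContDiff

noncomputable section

namespace Pool.Agent.Work.MP_0d206b_gt

namespace XPS2

/-- a continuous function which vanishes on a closed set and is Lipschitz on the gaps is Lipschitz -/
theorem lemB (g : ℝ → ℝ) (J Z : Set ℝ) (hJ : OrdConnected J) (L : ℝ) (hL : 0 ≤ L)
    (hg : ContinuousOn g J) (hZ : IsClosed Z) (h0 : ∀ y ∈ J, y ∈ Z → g y = 0)
    (h1 : ∀ y ∈ J, ∀ y' ∈ J, y < y' → (∀ w ∈ Icc y y', w ∉ Z) → |g y' - g y| ≤ L * (y' - y)) :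
    ∀ y ∈ J, ∀ y' ∈ J, y ≤ y' → |g y' - g y| ≤ L * (y' - y) := by
  intro y hy y' hy' hyy
  have hsub : Icc y y' ⊆ J := hJ.out hy hy'
  by_cases hemp : (Z ∩ Icc y y').Nonempty
  swap
  · rcases hyy.eq_or_lt with rfl | hlt
    · simp
    · exact h1 y hy y' hy' hlt fun w hw hwZ => hemp ⟨w, hwZ, hw⟩
  have hcl : IsClosed (Z ∩ Icc y y') := hZ.inter isClosed_Icc
  have hbb : BddBelow (Z ∩ Icc y y') := ⟨y, fun w hw => hw.2.1⟩
  have hba : BddAbove (Z ∩ Icc y y') := ⟨y', fun w hw => hw.2.2⟩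
  obtain ⟨haZ, haI⟩ := hcl.csInf_mem hemp hbb
  obtain ⟨hbZ, hbI⟩ := hcl.csSup_mem hemp hba
  set a := sInf (Z ∩ Icc y y') with ha
  set b := sSup (Z ∩ Icc y y') with hb
  have hab : a ≤ b := csInf_le_csSup hemp hbb hba
  have hga : g a = 0 := h0 a (hsub haI) haZ
  have hgb : g b = 0 := h0 b (hsub hbI) hbZ
  have hl : |g y| ≤ L * (a - y) := by
    rcases haI.1.eq_or_lt with h | h
    · rw [h, hga]; simp
    · have hcont : Tendsto g (𝓝[<] a) (𝓝 (g a)) := by
        have := hg a (hsub haI)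
        refine this.mono_left ?_
        rw [← nhdsWithin_Ioo_eq_nhdsLT h]
        exact nhdsWithin_mono _ fun w hw => hsub ⟨hw.1.le, (hw.2.le.trans haI.2)⟩
      have ht : Tendsto (fun w => L * (w - y) - |g w - g y|) (𝓝[<] a)
          (𝓝 (L * (a - y) - |g a - g y|)) := by
        have h3 : Tendsto (fun w : ℝ => w) (𝓝[<] a) (𝓝 a) := tendsto_id.mono_left nhdsWithin_le_nhds
        exact ((h3.sub_const y).const_mul L).sub ((hcont.sub_const (g y)).abs)
      have hge : 0 ≤ L * (a - y) - |g a - g y| := by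
        refine ge_of_tendsto ht ?_
        rw [← nhdsWithin_Ioo_eq_nhdsLT h]
        filter_upwards [self_mem_nhdsWithin] with w hw
        have := h1 y hy w (hsub ⟨hw.1.le, hw.2.le.trans haI.2⟩) hw.1 fun v hv hvZ => by
          have hv1 : v ∈ Z ∩ Icc y y' := ⟨hvZ, hv.1, hv.2.trans (hw.2.le.trans haI.2)⟩
          exact absurd (csInf_le hbb hv1) (not_le.2 (lt_of_le_of_lt hv.2 hw.2))
        linarith
      rw [hga, zero_sub, abs_neg] at hge
      linarith
  have hr : |g y'| ≤ L * (y' - b) := by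
    rcases hbI.2.eq_or_lt with h | h
    · rw [← h, hgb]; simp
    · have hcont : Tendsto g (𝓝[>] b) (𝓝 (g b)) := by
        have := hg b (hsub hbI)
        refine this.mono_left ?_
        rw [← nhdsWithin_Ioo_eq_nhdsGT h]
        exact nhdsWithin_mono _ fun w hw => hsub ⟨(hbI.1.trans hw.1.le), hw.2.le⟩
      have ht : Tendsto (fun w => L * (y' - w) - |g y' - g w|) (𝓝[>] b)
          (𝓝 (L * (y' - b) - |g y' - g b|)) := by
        have h3 : Tendsto (fun w : ℝ => w) (𝓝[>] b) (𝓝 b) := tendsto_id.mono_left nhdsWithin_le_nhds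
        exact ((h3.const_sub y').const_mul L).sub ((hcont.const_sub (g y')).abs)
      have hge : 0 ≤ L * (y' - b) - |g y' - g b| := by
        refine ge_of_tendsto ht ?_
        rw [← nhdsWithin_Ioo_eq_nhdsGT h]
        filter_upwards [self_mem_nhdsWithin] with w hw
        have := h1 w (hsub ⟨hbI.1.trans hw.1.le, hw.2.le⟩) y' hy' hw.2 fun v hv hvZ => by
          have hv1 : v ∈ Z ∩ Icc y y' := ⟨hvZ, hbI.1.trans (hw.1.le.trans hv.1), hv.2⟩
          exact absurd (le_csSup hba hv1) (not_le.2 (lt_of_lt_of_le hw.1 hv.1))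
        linarith
      rw [hgb, sub_zero] at hge
      linarith
  calc |g y' - g y| ≤ |g y'| + |g y| := abs_sub _ _
    _ ≤ L * (y' - b) + L * (a - y) := add_le_add hr hl
    _ ≤ L * (y' - y) := by nlinarith

theorem deriv_u (D : DA) (m : P2) (a t : ℝ) :
    HasDerivAt (fun t => (m + D.Psi (a, t)).2) (dy D.Psi (a, t)) t := by
  have h2 : HasDerivAt (fun t : ℝ => ((a, t) : P2)) ((0 : ℝ), (1 : ℝ)) t :=
    (hasDerivAt_const t a).prodMk (hasDerivAt_id t)
  have h3 : HasFDerivAt D.Psi (fderiv ℝ D.Psi (a, t)) (a, t) :=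
    ((D.Psi_smooth.differentiable (by simp)) _).hasFDerivAt
  have h4 : HasDerivAt (fun t : ℝ => D.Psi (a, t))
      (fderiv ℝ D.Psi (a, t) (0, 1)) t :=
    HasFDerivAt.comp_hasDerivAt (f := fun t : ℝ => ((a, t) : P2)) t h3 h2
  exact h4.snd.const_add m.2

theorem diff_dy (D : DA) (a t : ℝ) : DifferentiableAt ℝ (fun t => dy D.Psi (a, t)) t := by
  have h1 : ContDiff ℝ ∞ (fun z => fderiv ℝ D.Psi z (0, 1)) :=
    (D.Psi_smooth.fderiv_right (m := ∞) (by simp)).clm_apply contDiff_const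
  have h2 : ContDiff ℝ ∞ (fun z => dy D.Psi z) := contDiff_snd.comp h1
  have h3 : ContDiff ℝ ∞ (fun t : ℝ => ((a, t) : P2)) := contDiff_const.prodMk contDiff_id
  exact ((h2.comp h3).differentiable (by simp)) t

theorem deriv_S0 (a t : ℝ) (h : 0 < a ^ 2 + t ^ 2) :
    HasDerivAt (fun t => S0 (a, t)) (2 * a * (a ^ 2 - t ^ 2) / (a ^ 2 + t ^ 2) ^ 2) t := by
  have h1 : HasDerivAt (fun t : ℝ => 2 * a * t) (2 * a) t := by
    simpa using (hasDerivAt_id t).const_mul (2 * a)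
  have h2 : HasDerivAt (fun t : ℝ => a ^ 2 + t ^ 2) (2 * t) t := by
    simpa using ((hasDerivAt_id t).pow 2).const_add (a ^ 2)
  have h3 := h1.div h2 h.ne'
  have h4 : (fun t => S0 (a, t)) = fun t : ℝ => 2 * a * t / (a ^ 2 + t ^ 2) := by
    ext t; simp [S0, nsq]
  rw [h4]
  have h5 : 2 * a * (a ^ 2 - t ^ 2) = 2 * a * (a ^ 2 + t ^ 2) - 2 * a * t * (2 * t) := by ring
  rw [h5]
  exact h3

theorem S0_le (a t : ℝ) : |S0 (a, t)| ≤ 1 := by
  unfold S0 nsq
  rw [abs_div]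
  refine div_le_one_of_le₀ ?_ (abs_nonneg _)
  rw [abs_of_nonneg (by positivity : (0 : ℝ) ≤ a ^ 2 + t ^ 2)]
  rw [abs_le]
  constructor <;> simp only <;> nlinarith [sq_nonneg (a + t), sq_nonneg (a - t)]

theorem dS0_le (a t r : ℝ) (hr : 0 < r) (h : r ^ 2 ≤ a ^ 2 + t ^ 2) :
    |2 * a * (a ^ 2 - t ^ 2) / (a ^ 2 + t ^ 2) ^ 2| ≤ 2 / r := by
  have hn : 0 < a ^ 2 + t ^ 2 := lt_of_lt_of_le (by positivity) h
  rw [abs_div, abs_of_nonneg (by positivity : (0 : ℝ) ≤ (a ^ 2 + t ^ 2) ^ 2),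
    div_le_div_iff₀ (by positivity) hr]
  have h1 : |a| * r ≤ a ^ 2 + t ^ 2 := by
    have : |a| * r ≤ (|a| ^ 2 + r ^ 2) / 2 := by nlinarith [sq_nonneg (|a| - r)]
    rw [sq_abs] at this
    nlinarith [sq_nonneg t]
  have h2 : |a ^ 2 - t ^ 2| ≤ a ^ 2 + t ^ 2 := by
    rw [abs_le]; constructor <;> nlinarith [sq_nonneg a, sq_nonneg t]
  calc |2 * a * (a ^ 2 - t ^ 2)| * r = 2 * (|a| * r) * |a ^ 2 - t ^ 2| := by
        rw [abs_mul, abs_mul, abs_two]; ring
    _ ≤ 2 * (a ^ 2 + t ^ 2) * (a ^ 2 + t ^ 2) := by gcongr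
    _ = 2 * (a ^ 2 + t ^ 2) ^ 2 := by ring

/-- the Lipschitz estimate inside one strip -/
theorem lemA (D : DA) (C : ℝ) (hC0 : 0 ≤ C)
    (hC : ∀ v : P2, |deriv (fun t => dy D.Psi (v.1, t)) v.2| ≤ C * dy D.Psi v)
    (m : P2) (a r : ℝ) (hr : 0 < r) (t t' : ℝ) (htt : t ≤ t')
    (hn : ∀ w ∈ Icc t t', r ^ 2 ≤ a ^ 2 + w ^ 2) :
    |dy D.Psi (a, t') * S0 (a, t') - dy D.Psi (a, t) * S0 (a, t)| ≤
      (C + 2 / r) * ((m + D.Psi (a, t')).2 - (m + D.Psi (a, t)).2) := by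
  set G : ℝ → ℝ := fun w => dy D.Psi (a, w) * S0 (a, w) with hG
  set u : ℝ → ℝ := fun w => (m + D.Psi (a, w)).2 with hu
  have hd : ∀ w ∈ Icc t t', HasDerivAt G (deriv (fun t => dy D.Psi (a, t)) w * S0 (a, w) +
      dy D.Psi (a, w) * (2 * a * (a ^ 2 - w ^ 2) / (a ^ 2 + w ^ 2) ^ 2)) w := fun w hw =>
    (diff_dy D a w).hasDerivAt.mul (deriv_S0 a w (lt_of_lt_of_le (by positivity) (hn w hw)))
  have hb : ∀ w ∈ Icc t t', |deriv (fun t => dy D.Psi (a, t)) w * S0 (a, w) +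
      dy D.Psi (a, w) * (2 * a * (a ^ 2 - w ^ 2) / (a ^ 2 + w ^ 2) ^ 2)| ≤
      (C + 2 / r) * dy D.Psi (a, w) := by
    intro w hw
    have h1 := hC (a, w)
    have h2 := S0_le a w
    have h3 := dS0_le a w r hr (hn w hw)
    have h4 := D.dyPsi_pos (a, w)
    calc |deriv (fun t => dy D.Psi (a, t)) w * S0 (a, w) +
        dy D.Psi (a, w) * (2 * a * (a ^ 2 - w ^ 2) / (a ^ 2 + w ^ 2) ^ 2)|
        ≤ |deriv (fun t => dy D.Psi (a, t)) w| * |S0 (a, w)| +
          |dy D.Psi (a, w)| * |2 * a * (a ^ 2 - w ^ 2) / (a ^ 2 + w ^ 2) ^ 2| := by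
          rw [← abs_mul, ← abs_mul]; exact abs_add_le _ _
      _ ≤ (C * dy D.Psi (a, w)) * 1 + dy D.Psi (a, w) * (2 / r) := by
          rw [abs_of_pos h4]
          exact add_le_add (mul_le_mul h1 h2 (abs_nonneg _) (by positivity))
            (mul_le_mul_of_nonneg_left h3 h4.le)
      _ = (C + 2 / r) * dy D.Psi (a, w) := by ring
  have key : ∀ s : ℝ, |s| = 1 → MonotoneOn (fun w => (C + 2 / r) * u w + s * G w) (Icc t t') := by
    intro s hs
    have hd2 : ∀ w ∈ Icc t t', HasDerivAt (fun w => (C + 2 / r) * u w + s * G w)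
        ((C + 2 / r) * dy D.Psi (a, w) + s * (deriv (fun t => dy D.Psi (a, t)) w * S0 (a, w) +
      dy D.Psi (a, w) * (2 * a * (a ^ 2 - w ^ 2) / (a ^ 2 + w ^ 2) ^ 2))) w := fun w hw =>
      ((deriv_u D m a w).const_mul _).add ((hd w hw).const_mul s)
    refine monotoneOn_of_deriv_nonneg (convex_Icc t t')
      (fun w hw => (hd2 w hw).continuousAt.continuousWithinAt)
      (fun w hw => (hd2 w (interior_subset hw)).differentiableAt.differentiableWithinAt) ?_
    intro w hw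
    rw [(hd2 w (interior_subset hw)).deriv]
    have h1 := hb w (interior_subset hw)
    set X := deriv (fun t => dy D.Psi (a, t)) w * S0 (a, w) +
      dy D.Psi (a, w) * (2 * a * (a ^ 2 - w ^ 2) / (a ^ 2 + w ^ 2) ^ 2)
    have h2 : |s * X| = |X| := by rw [abs_mul, hs, one_mul]
    have h3 := neg_abs_le (s * X)
    linarith
  have k1 := key 1 (by simp) (left_mem_Icc.2 htt) (right_mem_Icc.2 htt) htt
  have k2 := key (-1) (by simp) (left_mem_Icc.2 htt) (right_mem_Icc.2 htt) htt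
  simp only at k1 k2
  rw [abs_le]
  constructor
  · simp only [hG, hu] at k1 k2 ⊢; linarith
  · simp only [hG, hu] at k1 k2 ⊢; linarith

end XPS2

theorem I_PS2 (h1 : PG1) (h2 : PL1) (h3 : PL2) (_h4 : PL3) (h5 : PL4) (h6 : PS1) : PS2 := by
  intro D z hz
  obtain ⟨hPsi0, hinj, hop, hstrip, hLcl, hLG, hnL⟩ := h2 D
  obtain ⟨-, -, hidx⟩ := h3 D
  have h5' := h5 D
  have hσ := h6 D
  obtain ⟨C, hC⟩ := D.distort
  have hC0 : 0 ≤ C := by
    have h := (abs_nonneg _).trans (hC 0)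
    exact nonneg_of_mul_nonneg_left h (D.dyPsi_pos 0)
  obtain ⟨K, hK⟩ := D.S_lip
  obtain ⟨ρ, hρ, hρ'⟩ := D.Psi_near
  have hGcl : IsClosed (Gam : Set P2) := h1.2.2.2.2.1
  have hopen : IsOpen {z : P2 | z ∉ Gam} := hGcl.isOpen_compl
  obtain ⟨R, hR, hRsub⟩ := Metric.isOpen_iff.1 hopen z hz
  -- box of radius `R/2`
  set ε := R / 2 with hε
  have hε0 : 0 < ε := by positivity
  have hbox : ∀ z' : P2, |z'.1 - z.1| < ε → |z'.2 - z.2| < ε → ∀ m ∈ Gam, ε ≤ dist z' m := by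
    intro z' hz1 hz2 m hm
    by_contra hlt
    push Not at hlt
    have hdz : dist z' z < ε := by
      rw [Prod.dist_eq, max_lt_iff, Real.dist_eq, Real.dist_eq]; exact ⟨hz1, hz2⟩
    have : dist m z < R := by
      calc dist m z ≤ dist m z' + dist z' z := dist_triangle _ _ _
        _ < ε + ε := by rw [dist_comm m z']; exact add_lt_add hlt hdz
        _ = R := by rw [hε]; ring
    exact hRsub this hm
  set r := min ρ ε with hr
  have hr0 : 0 < r := lt_min hρ hε0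
  have hnorm : ∀ m ∈ Gam, ∀ v : P2, |(m + D.Psi v).1 - z.1| < ε → |(m + D.Psi v).2 - z.2| < ε →
      r ^ 2 ≤ v.1 ^ 2 + v.2 ^ 2 := by
    intro m hm v hv1 hv2
    by_contra hlt
    push Not at hlt
    have hvr : ‖v‖ < r := by
      rw [Prod.norm_def, max_lt_iff, Real.norm_eq_abs, Real.norm_eq_abs]
      constructor
      · exact abs_lt_of_sq_lt_sq (by nlinarith [sq_nonneg v.2]) hr0.le
      · exact abs_lt_of_sq_lt_sq (by nlinarith [sq_nonneg v.1]) hr0.le
    have hPv : D.Psi v = v := hρ' v (lt_of_lt_of_le hvr (min_le_left _ _))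
    have h7 := hbox (m + D.Psi v) hv1 hv2 m hm
    rw [hPv, dist_eq_norm, add_sub_cancel_left] at h7
    exact absurd h7 (not_le.2 (lt_of_lt_of_le hvr (min_le_right _ _)))
  set L := C + 2 / r with hL
  have hL0 : 0 ≤ L := by positivity
  refine ⟨ε, hε0, K + L, ?_⟩
  -- the ordered estimate for `delta`
  have hmain : ∀ x, |x - z.1| < ε → ∀ y ∈ Ioo (z.2 - ε) (z.2 + ε), ∀ y' ∈ Ioo (z.2 - ε) (z.2 + ε),
      y ≤ y' → |(D.sigma (x, y') - D.S (x, y')) - (D.sigma (x, y) - D.S (x, y))| ≤ L * (y' - y) := by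
    intro x hx
    refine XPS2.lemB (fun y => D.sigma (x, y) - D.S (x, y)) (Ioo (z.2 - ε) (z.2 + ε))
      {y | ((x, y) : P2) ∈ D.Lam} ordConnected_Ioo L hL0 ?_ ?_ ?_ ?_
    · refine ContinuousOn.sub (hσ.comp (by fun_prop) ?_) (D.S_cont.comp (by fun_prop)).continuousOn
      intro y hy hyG
      have := hbox (x, y) hx (by rw [abs_lt]; exact ⟨by linarith [hy.1], by linarith [hy.2]⟩) _ hyG
      rw [dist_self] at this
      linarith
    · exact hLcl.preimage (by fun_prop : Continuous fun y : ℝ => ((x, y) : P2))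
    · intro y _ hyL
      have hyL' : ((x, y) : P2) ∈ D.Lam := hyL
      simp [DA.sigma, hyL']
    · intro y hy y' hy' hyy hgap
      -- the segment is in one strip
      have hgap' : ∀ w ∈ Icc y y', ((x, w) : P2) ∉ D.Lam := hgap
      have hconst : D.idx (x, y) = D.idx (x, y') := by
        have hpre : IsPreconnected ((fun w : ℝ => ((x, w) : P2)) '' Icc y y') :=
          isPreconnected_Icc.image _ (by fun_prop)
        have hlc : ∀ p ∈ (fun w : ℝ => ((x, w) : P2)) '' Icc y y',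
            ∀ᶠ q in 𝓝[(fun w : ℝ => ((x, w) : P2)) '' Icc y y'] p, D.idx p = D.idx q := by
          rintro p ⟨w, hw, rfl⟩
          have := hidx (x, w) (hgap' w hw)
          refine eventually_nhdsWithin_of_eventually_nhds ?_
          filter_upwards [this] with q hq
          exact hq.2.symm
        exact hpre.induction₂ (fun p q => D.idx p = D.idx q) hlc
          (fun _ _ _ _ _ _ h h' => h.trans h') (fun _ _ _ _ h => h.symm)
          ⟨y, left_mem_Icc.2 hyy.le, rfl⟩ ⟨y', right_mem_Icc.2 hyy.le, rfl⟩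
      obtain ⟨hm, heq⟩ := hnL (x, y) (hgap' y (left_mem_Icc.2 hyy.le))
      obtain ⟨-, heq'⟩ := hnL (x, y') (hgap' y' (right_mem_Icc.2 hyy.le))
      have hyL := hgap' y (left_mem_Icc.2 hyy.le)
      have hyL' := hgap' y' (right_mem_Icc.2 hyy.le)
      rw [← hconst] at heq'
      set m := D.idx (x, y) with hmdef
      set v := D.lin (x, y) with hv
      set v' := D.lin (x, y') with hv'
      obtain ⟨hfst, hmono, hmid⟩ := h5' m hm
      have hv1 : v.1 = x - m.1 := by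
        have := hfst v
        rw [← heq] at this
        simp only at this
        linarith
      have hv1' : v'.1 = x - m.1 := by
        have := hfst v'
        rw [← heq'] at this
        simp only at this
        linarith
      have hvv : v = (x - m.1, v.2) := by ext <;> simp [hv1]
      have hvv' : v' = (x - m.1, v'.2) := by ext <;> simp [hv1']
      have hlt : v.2 < v'.2 := by
        rw [← hmono v v' (hv1.trans hv1'.symm), ← heq, ← heq']
        exact hyy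
      have hmle : ∀ w w' : ℝ, w ≤ w' →
          (m + D.Psi (x - m.1, w)).2 ≤ (m + D.Psi (x - m.1, w')).2 := by
        intro w w' hww
        rcases hww.eq_or_lt with rfl | h
        · exact le_rfl
        · exact ((hmono (x - m.1, w) (x - m.1, w') rfl).2 h).le
      have hy2 : y = (m + D.Psi (x - m.1, v.2)).2 := by rw [← hvv, ← heq]
      have hy2' : y' = (m + D.Psi (x - m.1, v'.2)).2 := by rw [← hvv', ← heq']
      have hA := XPS2.lemA D C hC0 hC m (x - m.1) r hr0 v.2 v'.2 hlt.le (by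
        intro w hw
        refine hnorm m hm (x - m.1, w) ?_ ?_
        · rw [hfst]; simpa using hx
        · have h8 := hmle v.2 w hw.1
          have h9 := hmle w v'.2 hw.2
          rw [← hy2] at h8
          rw [← hy2'] at h9
          rw [abs_lt]
          exact ⟨by linarith [hy.1], by linarith [hy'.2]⟩)
      have hs1 : D.sigma (x, y) - D.S (x, y) = dy D.Psi (x - m.1, v.2) * S0 (x - m.1, v.2) := by
        rw [← hvv, hv]
        simp [DA.sigma, hyL]
      have hs2 : D.sigma (x, y') - D.S (x, y') = dy D.Psi (x - m.1, v'.2) * S0 (x - m.1, v'.2) := by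
        rw [← hvv', hv']
        simp [DA.sigma, hyL']
      rw [← hy2, ← hy2'] at hA
      show |(D.sigma (x, y') - D.S (x, y')) - (D.sigma (x, y) - D.S (x, y))| ≤ L * (y' - y)
      rw [hs1, hs2]
      exact hA
  have habs : ∀ y, |y - z.2| < ε → y ∈ Ioo (z.2 - ε) (z.2 + ε) := by
    intro y hy
    rw [abs_lt] at hy
    exact ⟨by linarith [hy.1], by linarith [hy.2]⟩
  intro x y y' hx hy hy'
  refine ⟨fun hG => ?_, ?_⟩
  · have := hbox (x, y) hx hy _ hG
    rw [dist_self] at this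
    linarith
  · have hδ : |(D.sigma (x, y) - D.S (x, y)) - (D.sigma (x, y') - D.S (x, y'))| ≤ L * |y - y'| := by
      rcases le_total y y' with h | h
      · have := hmain x hx y (habs y hy) y' (habs y' hy') h
        rw [abs_sub_comm, abs_sub_comm y y', abs_of_nonneg (sub_nonneg.2 h)]
        exact this
      · have := hmain x hx y' (habs y' hy') y (habs y hy) h
        rw [abs_of_nonneg (sub_nonneg.2 h)]
        exact this
    have hS := hK x y y'
    calc |D.sigma (x, y) - D.sigma (x, y')|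
        = |(D.S (x, y) - D.S (x, y')) +
          ((D.sigma (x, y) - D.S (x, y)) - (D.sigma (x, y') - D.S (x, y')))| := by
          congr 1; ring
      _ ≤ K * |y - y'| + L * |y - y'| := (abs_add_le _ _).trans (add_le_add hS hδ)
      _ = (K + L) * |y - y'| := by ring

end Pool.Agent.Work.MP_0d206b_gt

end

end

/-! ### L0.L011a -/

section

/-! Item L011a: points of one leaf with the same repeller coordinates are equal. -/

open Set Filter Topology
open scoped ContDiff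

noncomputable section

namespace Pool.Agent.Work.MP_0d206b_gt

theorem L0L011a.good_graph (hGS2 : GS2) (Y : ℝ → ℝ) (hY : Continuous Y) :
    SimplyConnectedSpace (graphE Y) ∧ LocallyPathConnectedSpace (graphE Y) := by
  have h := hGS2 Y hY {e : E | e.1.2 = 0} (by
    intro a ha b hb s t _ _ _
    have ha' : a.1.2 = 0 := ha
    have hb' : b.1.2 = 0 := hb
    show s * a.1.2 + t * b.1.2 = 0
    rw [ha', hb']; ring) ⟨((0, 0), 0), rfl⟩
  have e : graphE Y = {e : E | ((e.1.1, e.1.2 - Y e.1.1), e.2) ∈ {e : E | e.1.2 = 0}} := by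
    ext e
    show e.1.2 = Y e.1.1 ↔ e.1.2 - Y e.1.1 = 0
    exact sub_eq_zero.symm
  rw [e]
  exact h

theorem I_L011a (hPS3 : PS3) (hP1 : PL1) (hGS2 : GS2) (hG1 : GL1) (hAP1 : AP1) (h1 : L01)
    (h4 : L04) (h5 : L05) : L011a := by
  intro D N _ C b b' hb hb' hr hc
  by_cases hz : (C.c .R b).1 ∈ D.Lam
  · obtain ⟨Y, hY, hYz⟩ := (hPS3 D).1 (C.c .R b).1
    have hmem : C.c .R b ∈ graphE Y := hYz.symm
    have hLam : ∀ x, ((x, Y x) : P2) ∈ D.Lam := by
      refine (hPS3 D).2.2 Y hY (C.c .R b).1.1 ?_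
      rw [hYz]
      exact hz
    have hcont : Continuous Y := by
      rw [continuous_iff_continuousAt]
      exact fun x => (hY x (mem_univ x)).continuousAt
    have hsub : graphE Y ⊆ dom0 .R := by
      intro e he
      have he' : e.1.2 = Y e.1.1 := he
      show e.1 ∉ Gam
      have : e.1 = (e.1.1, Y e.1.1) := by rw [← he']
      rw [this]
      exact (hP1 D).2.2.2.2.2.1 _ (hLam _)
    obtain ⟨g1, g2⟩ := L0L011a.good_graph hGS2 Y hcont
    obtain ⟨s, hs, hsb⟩ := hG1 Idx0 dom0 (glue0 D) N C .R (graphE Y) hsub g1 g2 b hb hmem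
    have h := (h5 D N C Y hY hLam s hs (C.c .R b) hmem b').1 (by rw [hsb]; exact hr)
    obtain ⟨e', he', hse'⟩ := h
    have h6 : C.c .R b' = e' := by rw [← hse']; exact hs.eq e' he'
    rw [← hse', ← h6, ← hc, hsb]
  · obtain ⟨hm, hv⟩ := (hP1 D).2.2.2.2.2.2 _ hz
    obtain ⟨k1, k2⟩ := (h1 D N C b).2.2.1 _ hm _ hb hv
    obtain ⟨k3, k4⟩ := (h1 D N C b').2.2.1 _ hm _ hb' (by rw [← hc]; exact hv)
    obtain ⟨A, hA1, hA2⟩ := h4 D N C
    have h := (hAP1 N (leafSetoid C (es0 D)) Unit A () b b' (by rw [hA1]; exact k1) hr).2.2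
    apply h
    rw [hA2]
    show C.c .A b = C.c .A b'
    rw [k2, k4, hc]

end Pool.Agent.Work.MP_0d206b_gt

end

end

/-! ### L0.L06 -/

section

/-! Item L06: the edge lemma for flow 0. -/

open Set Filter Topology
open scoped ContDiff

noncomputable section

namespace Pool.Agent.Work.MP_0d206b_gt

theorem L0L06.cont_c {ι : Type} {dom : ι → Set E} {glue : ι → E → ι → E → Prop} {N : Type}
    [TopologicalSpace N] (C : CoverData dom glue N) (i : ι) : ContinuousOn (C.c i) (C.U i) := by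
  have h := (C.cov i).continuous
  rw [continuousOn_iff_continuous_domRestrict]
  exact continuous_subtype_val.comp h

theorem L0L06.const_on {N : Type} [TopologicalSpace N] {f : N → Bool} {K U : Set N}
    (hf : ContinuousOn f U) (hK : IsPreconnected K) (hKU : K ⊆ U) {b b' : N} (hb : b ∈ K)
    (hb' : b' ∈ K) : f b = f b' := by
  have h1 : IsPreconnected (f '' K) := hK.image f (hf.mono hKU)
  exact h1.subsingleton ⟨b, hb, rfl⟩ ⟨b', hb', rfl⟩

theorem I_L06 (hCe : Cech) (hLF : LF) (hA4 : AR4) (hP2 : PL2) (h1 : L01) (h3 : L03) : L06 := by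
  classical
  intro D N _ _ C b b' hbb hK hb hb'
  obtain ⟨K, hKc, hKR, hbK, hb'K⟩ := hK
  have hbR : b ∈ C.U .R := hKR hbK
  have hb'R : b' ∈ C.U .R := hKR hb'K
  -- points over the strips are in the attractor piece
  have hRA : ∀ q, q ∈ C.U .R → (C.c .R q).1 ∉ D.Lam → q ∈ C.U .A := by
    intro q hq hqL
    rcases (h1 D N C q).1 with h | h
    · exact h
    · exact absurd h.2 hqL
  have hbA := hRA b hbR hb
  have hb'A := hRA b' hb'R hb'
  set m₀ : P2 := D.idx (C.c .R b).1 with hm₀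
  let n : N → Bool := fun q => decide (q ∈ C.U .R ∧ D.idx (C.c .R q).1 = m₀)
  have hn : ContinuousOn n (C.U .R ∩ C.U .A) := by
    intro q hq
    have hqL : (C.c .R q).1 ∉ D.Lam := fun h => (h1 D N C q).2.1 hq.1 h hq.2
    have hcq : ContinuousAt (C.c .R) q :=
      (L0L06.cont_c C .R).continuousAt ((C.isOpen_U .R).mem_nhds hq.1)
    have hev := ((hP2 D).2.2 _ hqL)
    have hcq1 : Tendsto (fun q => (C.c .R q).1) (𝓝 q) (𝓝 (C.c .R q).1) :=
      (continuous_fst.tendsto _).comp hcq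
    have hev2 : ∀ᶠ q' in 𝓝 q, D.idx (C.c .R q').1 = D.idx (C.c .R q).1 :=
      (hcq1.eventually hev).mono fun q' h => h.2
    have hconst : n =ᶠ[𝓝 q] fun _ => n q := by
      filter_upwards [hev2, (C.isOpen_U .R).mem_nhds hq.1] with q' h5 h6
      simp only [n]
      rw [h5]
      simp [h6, hq.1]
    exact (continuousAt_const.congr hconst.symm).continuousWithinAt
  obtain ⟨f, g, hf, hg, hfg⟩ := hCe N (C.U .R) (C.U .A) (C.isOpen_U .R) (C.isOpen_U .A)
    (by
      ext q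
      simp only [mem_union, mem_univ, iff_true]
      rcases (h1 D N C q).1 with h | h
      · exact Or.inr h
      · exact Or.inl h.1) n hn
  have hff : f b = f b' := L0L06.const_on hf hKc hKR hbK hb'K
  -- the leaf of `b` stays in the attractor piece
  have hstay : ∀ q q', (leafSetoid C (es0 D)) q q' → (q ∈ C.U .A ↔ q' ∈ C.U .A) := by
    apply hA4 Idx0 dom0 (glue0 D) N C (es0 D) (fun q => q ∈ C.U .A)
    · intro γ hγ h0
      exact ((h3 D N C γ hγ 0).1 h0 1).1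
    · intro γ hγ h0
      exact ((h3 D N C γ hγ 1).1 h0 0).1
  have hleaf : IsPreconnected {q | (leafSetoid C (es0 D)) b q} :=
    (hLF Idx0 dom0 (glue0 D) N C (es0 D)).2 b
  have hgg : g b = g b' := by
    refine L0L06.const_on hg hleaf ?_ (show (leafSetoid C (es0 D)) b b from (leafSetoid C (es0 D)).refl b) hbb
    intro q hq
    exact (hstay b q hq).1 hbA
  have h5 := hfg b ⟨hbR, hbA⟩
  have h6 := hfg b' ⟨hb'R, hb'A⟩
  have h7 : n b = n b' := by rw [h5, h6, hff, hgg]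
  have h8 : n b = true := by simp [n, hbR, hm₀]
  rw [h8] at h7
  have h9 : b' ∈ C.U .R ∧ D.idx (C.c .R b').1 = m₀ := by simpa [n] using h7.symm
  exact h9.2.symm

end Pool.Agent.Work.MP_0d206b_gt

end

end

/-! ### L0.L07A -/

section

open Set Filter Topology

noncomputable section

namespace Pool.Agent.Work.MP_0d206b_gt

namespace L0L07A

lemma continuousAt_c {ι : Type} {dom : ι → Set E} {glue : ι → E → ι → E → Prop} {N : Type}
    [TopologicalSpace N] (C : CoverData dom glue N) (i : ι) {b : N} (hb : b ∈ C.U i) :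
    ContinuousAt (C.c i) b := by
  have h1 : ContinuousOn (C.c i) (C.U i) := by
    rw [continuousOn_iff_continuous_domRestrict]
    exact continuous_subtype_val.comp (C.cov i).continuous
  exact h1.continuousAt ((C.isOpen_U i).mem_nhds hb)

lemma exists_box {G : Set P2} (hG : IsClosed G) (x y y' : ℝ)
    (h : ∀ t ∈ uIcc y' y, ((x, t) : P2) ∉ G) :
    ∃ ε > 0, ∀ p : P2, p.1 ∈ Ioo (x - ε) (x + ε) → p.2 ∈ Ioo (min y' y - ε) (max y' y + ε) →
      p ∉ G := by
  have hK : IsCompact (({x} : Set ℝ) ×ˢ uIcc y' y) := isCompact_singleton.prod isCompact_uIcc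
  have hsub : ({x} : Set ℝ) ×ˢ uIcc y' y ⊆ Gᶜ := by
    rintro ⟨a, t⟩ ⟨ha, ht⟩
    rw [mem_singleton_iff] at ha
    simp only at ha ht
    subst ha
    exact h t ht
  obtain ⟨δ, hδ, hsubδ⟩ := hK.exists_thickening_subset_open hG.isOpen_compl hsub
  refine ⟨δ, hδ, fun p hp1 hp2 => ?_⟩
  refine hsubδ ?_
  rw [Metric.mem_thickening_iff]
  have hle : min y' y ≤ max y' y := min_le_max
  refine ⟨(x, max (min y' y) (min (max y' y) p.2)), ⟨rfl, ?_⟩, ?_⟩
  · simp only
    rw [uIcc, mem_Icc]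
    constructor
    · exact le_max_left _ _
    · exact max_le hle (min_le_left _ _)
  · rw [Prod.dist_eq, max_lt_iff]
    constructor
    · simp only [Real.dist_eq, abs_lt]
      constructor <;> linarith [hp1.1, hp1.2]
    · simp only [Real.dist_eq, abs_lt]
      rcases le_total p.2 (max y' y) with h1 | h1
      · rw [min_eq_right h1]
        rcases le_total (min y' y) p.2 with h2 | h2
        · rw [max_eq_right h2]
          constructor <;> linarith
        · rw [max_eq_left h2]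
          constructor <;> linarith [hp2.1]
      · rw [min_eq_left h1, max_eq_right hle]
        constructor <;> linarith [hp2.2]

end L0L07A

open L0L07A in
theorem I_L07A (hCP : CP0s) (hPG : PG1) (hAP0 : AP0) (hAP1 : AP1) (hAP2 : AP2) (hGS : GS1)
    (hG1 : GL1) (hG2 : GL2) (hG4 : GL4) (h4 : L04) : L07A := by
  have _ := hCP
  have _ := hAP1
  intro D N _ C O b b' hO hbO hb' hrel
  obtain ⟨A, hAU, hAc⟩ := h4 D N C
  have hU : A.U () = C.U .A := congrFun hAU ()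
  have hc : A.c () = C.c .A := congrFun hAc ()
  have hleaf := (A.leaf_iff () b' b (by rw [hU]; exact hb')).mp hrel
  rw [hU, hc] at hleaf
  obtain ⟨s', hs'c, hs', hs'b, e, he, hse⟩ := hleaf
  have hbU : b ∈ C.U .A := by rw [← hse]; exact (hs' e he).1
  have hcb : C.c .A b = e := by rw [← hse]; exact (hs' e he).2
  have he2 : e.1 ∈ IA (C.c .A b').1 := he
  obtain ⟨hx, hseg⟩ := he2
  have hz' : (C.c .A b').1 ∉ Gam := C.maps .A hb'
  obtain ⟨ε, hε, hbox⟩ := exists_box hPG.2.2.2.2.1 (C.c .A b').1.1 e.1.2 (C.c .A b').1.2 hseg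
  set V : Set E := (Ioo ((C.c .A b').1.1 - ε) ((C.c .A b').1.1 + ε) ×ˢ
    Ioo (min (C.c .A b').1.2 e.1.2 - ε) (max (C.c .A b').1.2 e.1.2 + ε)) ×ˢ univ with hV
  have hVconv : Convex ℝ V := ((convex_Ioo _ _).prod (convex_Ioo _ _)).prod convex_univ
  have hVopen : IsOpen V := (isOpen_Ioo.prod isOpen_Ioo).prod isOpen_univ
  have hVdom : V ⊆ {e : E | e.1 ∉ Gam} := fun p hp => hbox p.1 hp.1.1 hp.1.2
  have hy1 : min (C.c .A b').1.2 e.1.2 ≤ (C.c .A b').1.2 := min_le_left _ _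
  have hy2 : min (C.c .A b').1.2 e.1.2 ≤ e.1.2 := min_le_right _ _
  have hy3 : (C.c .A b').1.2 ≤ max (C.c .A b').1.2 e.1.2 := le_max_left _ _
  have hy4 : e.1.2 ≤ max (C.c .A b').1.2 e.1.2 := le_max_right _ _
  have hb'V : C.c .A b' ∈ V :=
    ⟨⟨⟨by linarith, by linarith⟩, ⟨by linarith, by linarith⟩⟩, mem_univ _⟩
  have heV : e ∈ V := by
    refine ⟨⟨?_, ⟨by linarith, by linarith⟩⟩, mem_univ _⟩
    rw [hx]
    exact ⟨by linarith, by linarith⟩
  obtain ⟨hSC, hLPC⟩ := hGS V hVconv ⟨_, hb'V⟩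
  obtain ⟨s, hs, hsb'⟩ := hG1 Idx0 dom0 (glue0 D) N C .A V hVdom hSC hLPC b' hb' hb'V
  -- the lift passes through b
  have hsb : s e = b := by
    have hK1 : IsLift C .A (V ∩ PA (C.c .A b').1) s :=
      ⟨hs.cont.mono inter_subset_left, fun p hp => hs.mem p hp.1, fun p hp => hs.eq p hp.1⟩
    have hK2 : IsLift C .A (V ∩ PA (C.c .A b').1) s' :=
      ⟨hs'c.mono inter_subset_right, fun p hp => (hs' p hp.2).1, fun p hp => (hs' p hp.2).2⟩
    have hpre : IsPreconnected (V ∩ PA (C.c .A b').1) :=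
      (hVconv.inter (hAP0.1 _)).isPreconnected
    have h5 := hG2 Idx0 dom0 (glue0 D) N C .A (V ∩ PA (C.c .A b').1) s s' hpre
      (inter_subset_left.trans hVdom) hK1 hK2 (C.c .A b')
      ⟨hb'V, hAP0.2.1 _ hz'⟩ (by rw [hsb', hs'b])
    rw [← hse]
    exact h5 ⟨heV, he⟩
  have hev := hG4 Idx0 dom0 (glue0 D) N C .A V s hVopen hVdom hs b' hb' hb'V hsb'
  -- the nearby points over the same vertical
  have hcont : Tendsto (fun b₁ => s ((((C.c .A b₁).1.1, e.1.2) : P2), e.2)) (𝓝 b') (𝓝 b) := by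
    have h1 : ContinuousAt s e := hs.cont.continuousAt (hVopen.mem_nhds heV)
    rw [← hsb]
    refine h1.tendsto.comp ?_
    have h2 : ContinuousAt (fun b₁ => ((((C.c .A b₁).1.1, e.1.2) : P2), e.2)) b' := by
      have h3 := continuousAt_c C .A hb'
      have h4 : ContinuousAt (fun b₁ => (C.c .A b₁).1.1) b' := h3.fst.fst
      exact (h4.prodMk continuousAt_const).prodMk continuousAt_const
    have h3 : ((((C.c .A b').1.1, e.1.2) : P2), e.2) = e := by
      rw [← hx]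
    have h4 := h2.tendsto
    rw [h3] at h4
    exact h4
  have hev2 : ∀ᶠ b₁ in 𝓝 b', s ((((C.c .A b₁).1.1, e.1.2) : P2), e.2) ∈ O :=
    hcont (hO.mem_nhds hbO)
  filter_upwards [hev, hev2] with b₁ hb₁ hb₂
  refine ⟨_, hb₂, ?_⟩
  have h6 := (hAP2 N (leafSetoid C (es0 D)) Unit A ()).2 V s hVconv hVdom hs.cont
    (fun p hp => by rw [hU, hc]; exact ⟨hs.mem p hp, hs.eq p hp⟩) (C.c .A b₁) hb₁.2.1
    ((((C.c .A b₁).1.1, e.1.2) : P2), e.2) ⟨⟨hb₁.2.1.1.1, ⟨by linarith, by linarith⟩⟩, mem_univ _⟩ rfl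
  rw [hb₁.2.2] at h6
  exact h6

end Pool.Agent.Work.MP_0d206b_gt

end

end
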