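import Pool.Agent.Work.MP_0d206b_gt.Bd.StL

/-! ### L.I_LA10 -/

section

open Set Filter Topology

noncomputable section

namespace Pool.Agent.Work.MP_0d206b_gt

namespace XLA10

lemma mem_plane {D : DA} {s : Bool} {p v : E} (hv : v.1.1 = 0) : v ∈ plane (esA D) (.A s) p := by
  unfold plane
  rw [Submodule.mem_span_pair]
  refine ⟨v.1.2, v.2, ?_⟩
  have h : esA D (.A s) p = (((0, 1) : P2), (0 : ℝ)) := rfl
  rw [h]
  ext
  · simp [hv]
  · simp
  · simp

lemma continuousAt_c {ι : Type} {dom : ι → Set E} {glue : ι → E → ι → E → Prop} {N : Type}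
    [TopologicalSpace N] (C : CoverData dom glue N) (i : ι) {b : N} (hb : b ∈ C.U i) :
    ContinuousAt (C.c i) b := by
  have h1 : ContinuousOn (C.c i) (C.U i) := by
    rw [continuousOn_iff_continuous_domRestrict]
    exact continuous_subtype_val.comp (C.cov i).continuous
  exact h1.continuousAt ((C.isOpen_U i).mem_nhds hb)

end XLA10

open XLA10 in
theorem I_LA10 (h1 : LA7) (h2 : LT) (h3 : AP0) (h4 : AR3) (h5 : AR4) (h6 : GL1) (h7 : GL2)
    (h8 : GL5) (h9 : GS1) (h10 : CPAs) : LA10 := by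
  have _ := h2
  have _ := h7
  intro D N _ C s b b' hb
  set z := (C.c (.A s) b).1 with hz
  have hzG : z ∉ Gam := C.maps (.A s) hb
  have hzI : C.c (.A s) b ∈ PA z := h3.2.1 z hzG
  have hdom : PA z ⊆ domA (.A s) := h3.2.2.2.1 z
  constructor
  · intro hrel
    obtain ⟨hSC, hLPC⟩ := h9 (PA z) (h3.1 z) ⟨_, hzI⟩
    obtain ⟨f, hf, hfb⟩ := h6 IdxA domA (glueA D) N C (.A s) (PA z) hdom hSC hLPC b hb hzI
    refine ⟨f, hf.cont, fun e he => ⟨hf.mem e he, hf.eq e he⟩, hfb, ?_⟩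
    have key : ∀ γ, IsArc C (esA D) γ → ∀ t₀ t₁ : ℝ,
        (∃ e ∈ PA z, f e = γ t₀) → (∃ e ∈ PA z, f e = γ t₁) := by
      rintro γ hγ t₀ t₁ ⟨e, he, hfe⟩
      have hU₀ : γ t₀ ∈ C.U (.A s) := by rw [← hfe]; exact hf.mem e he
      have hc₀ : C.c (.A s) (γ t₀) = e := by rw [← hfe]; exact hf.eq e he
      have h11 := h1 D N C γ hγ t₀ s hU₀
      rw [hc₀] at h11
      have he' : e.1 ∈ IA z := he
      have hcont : Continuous fun t => (C.c (.A s) (γ t)).1.2 := by
        rw [continuous_iff_continuousAt]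
        intro t
        have := (continuousAt_c C (.A s) (h11 t).1).comp (f := γ) hγ.cont.continuousAt
        exact this.fst.snd
      have hPA : ∀ t, C.c (.A s) (γ t) ∈ PA z := by
        intro t
        refine ⟨(h11 t).2.trans he'.1, ?_⟩
        intro y hy
        rcases uIcc_subset_uIcc_union_uIcc (b := e.1.2) hy with hy1 | hy2
        · exact he'.2 y hy1
        · have h12 := intermediate_value_uIcc (a := t₀) (b := t) hcont.continuousOn
          simp only [hc₀] at h12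
          obtain ⟨t', _, ht'⟩ := h12 hy2
          have h13 : ((z.1, y) : P2) = (C.c (.A s) (γ t')).1 := by
            rw [← ht']
            ext
            · exact ((h11 t').2.trans he'.1).symm
            · rfl
          rw [h13]
          exact C.maps (.A s) (h11 t').1
      have h14 := h8 IdxA domA (glueA D) N C (.A s) (PA z) f hdom hf γ hγ.cont
        (fun t => ⟨(h11 t).1, hPA t⟩) t₀ (by rw [hc₀, hfe])
      exact ⟨_, hPA t₁, h14 t₁⟩
    exact (h5 IdxA domA (glueA D) N C (esA D) (fun b₁ => ∃ e ∈ PA z, f e = b₁)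
      (fun γ hγ h => key γ hγ 0 1 h) (fun γ hγ h => key γ hγ 1 0 h) b b' hrel).mp
      ⟨_, hzI, hfb⟩
  · rintro ⟨f, hfc, hf, hfb, e, he, hfe⟩
    have hL : IsLift C (.A s) (PA z) f := ⟨hfc, fun e he => (hf e he).1, fun e he => (hf e he).2⟩
    have h11 := h4 IdxA domA (glueA D) N C (esA D) (h10 D) (.A s) (PA z) f hdom hL
      (C.c (.A s) b) e ((h3.1 z).segment_subset hzI he) ?_
    · rw [hfb, hfe] at h11
      exact h11
    · intro p _
      refine mem_plane ?_
      have he' : e.1 ∈ IA z := he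
      simp [he'.1, hz]

end Pool.Agent.Work.MP_0d206b_gt

end

end

/-! ### L.I_LA17 -/

section

/-!
# MP_0d206b_gt, module L: item LA17, transversal lines through leaves in `Lam`
-/

set_option autoImplicit false

open Set Filter Topology
open scoped ContDiff

noncomputable section

namespace Pool.Agent.Work.MP_0d206b_gt

namespace XLA17

theorem mem_box {z : P2} {ε τ : ℝ} (hε : 0 < ε) (t : Ioo (-ε) ε) :
    (((z.1, z.2 + (t : ℝ)), τ) : E) ∈ box z ε := by
  refine ⟨?_, ?_⟩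
  · show |z.1 - z.1| < ε
    rw [sub_self, abs_zero]
    exact hε
  · show |z.2 + (t : ℝ) - z.2| < ε
    rw [add_sub_cancel_left]
    exact abs_lt.2 t.2

end XLA17

theorem I_LA17 (h1 : LA17i) (h2 : LA17o) (h3 : LA15) : LA17 := by
  intro D N _ _ C z τ ε f hε _ hf hsub
  have hopen := h3 D N C
  have hinj : Function.Injective
      (fun t : Ioo (-ε) ε => Quotient.mk (leafSetoid C (esA D)) (f ((z.1, z.2 + t), τ))) := by
    intro t t' htt
    exact Subtype.ext (h1 D N C z τ ε f hε hf hsub t t.2 t' t'.2 (Quotient.exact htt))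
  have hc : Continuous (fun t : Ioo (-ε) ε => (((z.1, z.2 + (t : ℝ)), τ) : E)) := by fun_prop
  have hcont : Continuous
      (fun t : Ioo (-ε) ε => Quotient.mk (leafSetoid C (esA D)) (f ((z.1, z.2 + t), τ))) :=
    continuous_quotient_mk'.comp
      (hf.cont.comp_continuous hc (fun t => XLA17.mem_box hε t))
  refine IsOpenEmbedding.of_continuous_injective_isOpenMap hcont hinj ?_
  intro J hJ
  rw [isOpen_iff_mem_nhds]
  rintro _ ⟨t, ht, rfl⟩
  obtain ⟨η, hη, hball⟩ := Metric.isOpen_iff.1 hJ t ht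
  have hev := h2 D N C z τ ε f hε hf hsub t t.2 η hη
  refine Filter.mem_of_superset (hopen.image_mem_nhds hev) ?_
  rintro _ ⟨b, ⟨t', ht', hd, hr⟩, rfl⟩
  refine ⟨⟨t', ht'⟩, hball ?_, Quotient.sound hr⟩
  rw [Metric.mem_ball, Subtype.dist_eq, Real.dist_eq]
  exact hd

end Pool.Agent.Work.MP_0d206b_gt

end

end

/-! ### L.I_PL3 -/

section

/-! Item PL3: properness of the linear coordinate at the complement of the strips. -/

open Set Filter Topology
open scoped ContDiff Pointwise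

noncomputable section

namespace Pool.Agent.Work.MP_0d206b_gt

theorem I_PL3 (h1 : PG1) (h2 : PL1) : PL3 := by
  intro D z hz M
  obtain ⟨-, -, -, -, -, -, hdec⟩ := h2 D
  have hcomp : IsCompact (D.Psi '' Metric.closedBall 0 M) :=
    (isCompact_closedBall (0 : P2) M).image D.Psi_smooth.continuous
  have hcl : IsClosed ((Gam : Set P2) + D.Psi '' Metric.closedBall 0 M) :=
    h1.2.2.2.2.1.add_right_of_isCompact hcomp
  have hnot : z ∉ (Gam : Set P2) + D.Psi '' Metric.closedBall 0 M := by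
    rintro ⟨m, hm, _, ⟨v, -, rfl⟩, h⟩
    exact hz m hm v h.symm
  filter_upwards [hcl.isOpen_compl.mem_nhds hnot] with z' hz'
  by_cases hL : z' ∈ D.Lam
  · exact Or.inl hL
  · right
    obtain ⟨hm, hzm⟩ := hdec z' hL
    by_contra hcon
    apply hz'
    refine ⟨D.idx z', hm, D.Psi (D.lin z'), ⟨D.lin z', ?_, rfl⟩, hzm.symm⟩
    rw [mem_closedBall_zero_iff]
    exact not_lt.mp hcon

end Pool.Agent.Work.MP_0d206b_gt

end

end

/-! ### L.I_PS6 -/

section

/-! Item PS6: Gronwall for the slope field `S`. -/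

open Set Filter Topology
open scoped ContDiff

noncomputable section

namespace Pool.Agent.Work.MP_0d206b_gt

namespace XPS6

/-- forward Gronwall -/
theorem fwd (f : ℝ → ℝ → ℝ) (K : ℝ) (hK : 0 ≤ K)
    (hf : ∀ x y y', |f x y - f x y'| ≤ K * |y - y'|) (Y Y' : ℝ → ℝ)
    (hY : ∀ x, HasDerivAt Y (f x (Y x)) x) (hY' : ∀ x, HasDerivAt Y' (f x (Y' x)) x)
    (a b : ℝ) (hab : a ≤ b) :
    |Y' b - Y b| ≤ |Y' a - Y a| * Real.exp (K * (b - a)) := by
  have hL : ∀ t, LipschitzWith (Real.toNNReal K) (f t) := by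
    intro t
    refine LipschitzWith.of_dist_le_mul fun y y' => ?_
    rw [Real.dist_eq, Real.dist_eq, Real.coe_toNNReal K hK]
    exact hf t y y'
  have h := dist_le_of_trajectories_ODE (v := f) (K := Real.toNNReal K) (f := Y') (g := Y)
    (a := a) (b := b) (δ := |Y' a - Y a|) hL
    (fun t _ => (hY' t).continuousAt.continuousWithinAt)
    (fun t _ => (hY' t).hasDerivWithinAt)
    (fun t _ => (hY t).continuousAt.continuousWithinAt)
    (fun t _ => (hY t).hasDerivWithinAt) (by rw [Real.dist_eq]) b ⟨hab, le_rfl⟩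
  rwa [Real.dist_eq, Real.coe_toNNReal K hK] at h

/-- two-sided Gronwall -/
theorem both (f : ℝ → ℝ → ℝ) (K : ℝ) (hK : 0 ≤ K)
    (hf : ∀ x y y', |f x y - f x y'| ≤ K * |y - y'|) (Y Y' : ℝ → ℝ)
    (hY : ∀ x, HasDerivAt Y (f x (Y x)) x) (hY' : ∀ x, HasDerivAt Y' (f x (Y' x)) x)
    (a b : ℝ) :
    |Y' b - Y b| ≤ |Y' a - Y a| * Real.exp (K * |b - a|) := by
  rcases le_total a b with hab | hab
  · have h := fwd f K hK hf Y Y' hY hY' a b hab
    rwa [abs_of_nonneg (sub_nonneg.2 hab)]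
  · have rev : ∀ Z : ℝ → ℝ, (∀ x, HasDerivAt Z (f x (Z x)) x) →
        ∀ x, HasDerivAt (fun t => Z (-t)) (-f (-x) (Z (-x))) x := by
      intro Z hZ x
      have h1 := (hZ (-x)).comp x (hasDerivAt_neg x)
      have h2 : HasDerivAt (fun t => Z (-t)) (f (-x) (Z (-x)) * -1) x := h1
      rw [mul_neg_one] at h2
      exact h2
    have h := fwd (fun x y => -f (-x) y) K hK (fun x y y' => by
      have := hf (-x) y y'
      rwa [← abs_neg, neg_sub_neg, neg_sub] ) (fun t => Y (-t)) (fun t => Y' (-t))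
      (rev Y hY) (rev Y' hY') (-a) (-b) (neg_le_neg hab)
    simp only [neg_neg] at h
    rw [abs_of_nonpos (sub_nonpos.2 hab)]
    have e : -b - -a = -(b - a) := by ring
    rwa [e] at h

end XPS6

theorem I_PS6 : PS6 := by
  intro D Y hY x₁ x₂ h12 η hη
  obtain ⟨K₀, hK₀⟩ := D.S_lip
  set K := max K₀ 0 with hKdef
  have hK : 0 ≤ K := le_max_right _ _
  have hf : ∀ x y y', |D.S (x, y) - D.S (x, y')| ≤ K * |y - y'| := fun x y y' =>
    (hK₀ x y y').trans (mul_le_mul_of_nonneg_right (le_max_left _ _) (abs_nonneg _))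
  refine ⟨η * Real.exp (-(K * (x₂ - x₁ + 2))), mul_pos hη (Real.exp_pos _), ?_⟩
  intro x₀ y₀ hx0 hx0' hy0 Y' hY' hYx0 x hx
  have h := XPS6.both (fun x y => D.S (x, y)) K hK hf Y Y' (fun t => hY t (mem_univ t))
    (fun t => hY' t (mem_univ t)) x₀ x
  have hd : |x - x₀| ≤ x₂ - x₁ + 2 := by
    rw [abs_le]
    constructor
    · linarith [hx.1]
    · linarith [hx.2]
  have h3 : Real.exp (K * |x - x₀|) ≤ Real.exp (K * (x₂ - x₁ + 2)) :=
    Real.exp_le_exp.2 (mul_le_mul_of_nonneg_left hd hK)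
  have hy : |Y' x₀ - Y x₀| < η * Real.exp (-(K * (x₂ - x₁ + 2))) := by rw [hYx0]; exact hy0
  calc |Y' x - Y x| ≤ |Y' x₀ - Y x₀| * Real.exp (K * |x - x₀|) := h
    _ ≤ |Y' x₀ - Y x₀| * Real.exp (K * (x₂ - x₁ + 2)) :=
        mul_le_mul_of_nonneg_left h3 (abs_nonneg _)
    _ < η * Real.exp (-(K * (x₂ - x₁ + 2))) * Real.exp (K * (x₂ - x₁ + 2)) :=
        mul_lt_mul_of_pos_right hy (Real.exp_pos _)
    _ = η := by
        rw [mul_assoc, ← Real.exp_add, neg_add_cancel, Real.exp_zero, mul_one]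

end Pool.Agent.Work.MP_0d206b_gt

end

end

/-! ### L.I_PS7 -/

section

/-! Item PS7: local flow box for `sigma` at a point off the lattice. -/

open Set Filter Topology
open scoped ContDiff NNReal

noncomputable section

namespace Pool.Agent.Work.MP_0d206b_gt

namespace XPS7

open ODE Metric

/-- Picard-Lindelof with membership in the ball -/
theorem pl {f : ℝ → ℝ → ℝ} {tmin tmax : ℝ} {t₀ : Icc tmin tmax} {x₀ x : ℝ} {a r L K : ℝ≥0}
    (hf : IsPicardLindelof f t₀ x₀ a r L K) (hx : x ∈ closedBall x₀ (r : ℝ)) :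
    ∃ α : ℝ → ℝ, α t₀ = x ∧ (∀ t, α t ∈ closedBall x₀ (a : ℝ)) ∧
      ∀ t ∈ Icc tmin tmax, HasDerivWithinAt α (f t (α t)) (Icc tmin tmax) t := by
  obtain ⟨α, hα⟩ := FunSpace.exists_isFixedPt_next hf hx
  refine ⟨α.compProj, by rw [FunSpace.compProj_val, ← hα, FunSpace.next_apply₀],
    fun t => α.compProj_mem_closedBall hf.mul_max_le, fun t ht => ?_⟩
  apply hasDerivWithinAt_picard_Icc t₀.2 hf.continuousOn_uncurry
    α.continuous_compProj.continuousOn (fun _ ht' ↦ α.compProj_mem_closedBall hf.mul_max_le)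
    x ht |>.congr_of_mem _ ht
  intro t' ht'
  nth_rw 1 [← hα]
  rw [FunSpace.compProj_of_mem ht', FunSpace.next_apply]

end XPS7

theorem I_PS7 (h1 : PS1) (h2 : PS2) : PS7 := by
  intro D z hz η hη
  obtain ⟨ε, hε, K₀, hbox⟩ := h2 D z hz
  have hcont := h1 D
  -- bound on the closed box
  have hsub : ∀ w ∈ Metric.closedBall z (ε / 2), w ∉ Gam := by
    intro w hw
    rw [Metric.mem_closedBall, Prod.dist_eq, max_le_iff, Real.dist_eq, Real.dist_eq] at hw
    have := (hbox w.1 w.2 w.2 (by linarith [hw.1]) (by linarith [hw.2]) (by linarith [hw.2])).1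
    exact this
  obtain ⟨M, hM⟩ := (isCompact_closedBall z (ε / 2)).exists_bound_of_continuousOn
    (hcont.mono (fun w hw => hsub w hw))
  have hM' : ∀ x y, |x - z.1| ≤ ε / 2 → |y - z.2| ≤ ε / 2 → |D.sigma (x, y)| ≤ max M 0 := by
    intro x y hx hy
    have := hM (x, y) (by
      rw [Metric.mem_closedBall, Prod.dist_eq, max_le_iff, Real.dist_eq, Real.dist_eq]
      exact ⟨hx, hy⟩)
    rw [Real.norm_eq_abs] at this
    exact this.trans (le_max_left _ _)
  set L : ℝ≥0 := Real.toNNReal M with hLdef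
  have hL : (L : ℝ) = max M 0 := Real.coe_toNNReal' M
  set K : ℝ≥0 := Real.toNNReal K₀ with hKdef
  have hK : (K : ℝ) = max K₀ 0 := Real.coe_toNNReal' K₀
  set a' : ℝ := min (ε / 2) (η / 2) with ha'
  have ha0 : 0 < a' := lt_min (by positivity) (by positivity)
  have ha1 : a' ≤ ε / 2 := min_le_left _ _
  have ha2 : a' ≤ η / 2 := min_le_right _ _
  set a : ℝ≥0 := ⟨a', ha0.le⟩ with hadef
  set r : ℝ≥0 := ⟨a' / 2, by positivity⟩ with hrdef
  set δ : ℝ := min (ε / 2) (min (a' / 2) (a' / (4 * ((L : ℝ) + 1)))) with hδ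
  have hL0 : (0 : ℝ) ≤ L := L.2
  have hδ0 : 0 < δ := lt_min (by positivity) (lt_min (by positivity) (by positivity))
  have hδ1 : δ ≤ ε / 2 := min_le_left _ _
  have hδ2 : δ ≤ a' / 2 := (min_le_right _ _).trans (min_le_left _ _)
  have hδ3 : δ ≤ a' / (4 * ((L : ℝ) + 1)) := (min_le_right _ _).trans (min_le_right _ _)
  refine ⟨δ, hδ0, ?_⟩
  intro x₀ y₀ hx₀ hy₀
  have hx₀' := abs_lt.1 hx₀
  have hmem : x₀ ∈ Icc (z.1 - δ) (z.1 + δ) := ⟨by linarith [hx₀'.1], by linarith [hx₀'.2]⟩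
  have htime : ∀ t ∈ Icc (z.1 - δ) (z.1 + δ), |t - z.1| ≤ ε / 2 := by
    intro t ht
    rw [abs_le]
    constructor
    · linarith [ht.1]
    · linarith [ht.2]
  have hball : ∀ y ∈ Metric.closedBall z.2 (a : ℝ), |y - z.2| ≤ ε / 2 := by
    intro y hy
    rw [Metric.mem_closedBall, Real.dist_eq] at hy
    exact hy.trans ha1
  have hPL : IsPicardLindelof (fun x y => D.sigma (x, y)) (tmin := z.1 - δ) (tmax := z.1 + δ)
      ⟨x₀, hmem⟩ z.2 a r L K := by
    refine ⟨?_, ?_, ?_, ?_⟩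
    · intro t ht
      refine LipschitzOnWith.of_dist_le_mul fun y hy y' hy' => ?_
      have ht' := htime t ht
      have h3 := (hbox t y y' (by linarith) (by linarith [hball y hy]) (by linarith [hball y' hy'])).2
      rw [Real.dist_eq, Real.dist_eq, hK]
      exact h3.trans (mul_le_mul_of_nonneg_right (le_max_left _ _) (abs_nonneg _))
    · intro y hy
      have hy' := hball y hy
      refine hcont.comp (f := fun x : ℝ => ((x, y) : P2)) (by fun_prop) ?_
      intro t ht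
      exact (hbox t y y (by linarith [htime t ht]) (by linarith) (by linarith)).1
    · intro t ht y hy
      rw [Real.norm_eq_abs, hL]
      exact hM' t y (htime t ht) (hball y hy)
    · have h5 : max (z.1 + δ - x₀) (x₀ - (z.1 - δ)) ≤ 2 * δ := by
        rw [max_le_iff]
        constructor
        · linarith [hx₀'.1]
        · linarith [hx₀'.2]
      have h6 : (L : ℝ) * (2 * δ) ≤ a' / 2 := by
        have h7 : δ * (4 * ((L : ℝ) + 1)) ≤ a' := by
          rwa [le_div_iff₀ (by positivity)] at hδ3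
        nlinarith
      have h8 : (L : ℝ) * max (z.1 + δ - x₀) (x₀ - (z.1 - δ)) ≤ a' / 2 :=
        (mul_le_mul_of_nonneg_left h5 hL0).trans h6
      have h9 : (a : ℝ) - (r : ℝ) = a' / 2 := by
        show a' - a' / 2 = a' / 2
        ring
      rw [h9]
      exact h8
  have hy₀r : y₀ ∈ Metric.closedBall z.2 (r : ℝ) := by
    rw [Metric.mem_closedBall, Real.dist_eq]
    exact hy₀.le.trans hδ2
  obtain ⟨α, hα0, hαm, hαd⟩ := XPS7.pl hPL hy₀r
  refine ⟨α, hα0, ?_, ?_⟩
  · intro t ht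
    exact (hαd t ⟨ht.1.le, ht.2.le⟩).hasDerivAt (Icc_mem_nhds ht.1 ht.2)
  · intro t _
    have := hαm t
    rw [Metric.mem_closedBall, Real.dist_eq] at this
    have h10 : (a : ℝ) = a' := rfl
    rw [h10] at this
    linarith

end Pool.Agent.Work.MP_0d206b_gt

end

end

/-! ### L.I_RL2 -/

section

/-!
# [0d206b L RL2] time reversal of arcs
-/

open Set Filter Topology
open scoped ContDiff

noncomputable section

namespace Pool.Agent.Work.MP_0d206b_gt

theorem I_RL2 : RL2 := by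
  intro ι dom glue N _ C w γ h
  refine ⟨h.cont.comp continuous_neg, ?_, ?_⟩
  · intro t i ht
    have h1 : ContDiffAt ℝ 1 (C.c i ∘ γ) (-t) := h.smooth (-t) i ht
    have h2 : ContDiffAt ℝ 1 (fun u : ℝ => -u) t := contDiff_neg.contDiffAt
    have h3 : ContDiffAt ℝ 1 ((C.c i ∘ γ) ∘ fun u : ℝ => -u) t := ContDiffAt.comp t h1 h2
    exact h3
  · intro t i ht
    have h1 : deriv (fun u : ℝ => (C.c i ∘ γ) (-u)) t = -deriv (C.c i ∘ γ) (-t) :=
      deriv_comp_neg (C.c i ∘ γ) t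
    have h2 : deriv (C.c i ∘ fun t => γ (-t)) t = -deriv (C.c i ∘ γ) (-t) := h1
    rw [h2]
    exact Submodule.neg_mem _ (h.tang (-t) i ht)

end Pool.Agent.Work.MP_0d206b_gt

end

end

/-! ### L.I_RL3 -/

section

/-!
# MP_0d206b_gt, item RL3: uniqueness for `y' = S(x, y) x'` along a curve
-/

open Set Filter Topology
open scoped ContDiff

noncomputable section

namespace Pool.Agent.Work.MP_0d206b_gt

theorem I_RL3 : RL3 := by
  intro D x y Y hx1 hy hY t₀ h0 t
  obtain ⟨K, hK⟩ := D.S_lip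
  have ha : Continuous (deriv x) := hx1.continuous_deriv le_rfl
  have hx : ∀ s, HasDerivAt x (deriv x s) s := fun s => ((hx1.differentiable one_ne_zero) s).hasDerivAt
  set b : ℝ := |t₀| + |t| + 1 with hb
  have hbt₀ : t₀ ∈ Ioo (-b) b := by
    refine abs_lt.1 ?_
    have := abs_nonneg t
    linarith
  have hbt : t ∈ Ioo (-b) b := by
    refine abs_lt.1 ?_
    have := abs_nonneg t₀
    linarith
  obtain ⟨A, hA⟩ : ∃ A, ∀ s ∈ Icc (-b) b, |deriv x s| ≤ A := by
    obtain ⟨A, hA⟩ := isCompact_Icc.exists_bound_of_continuousOn (f := deriv x) (s := Icc (-b) b) ha.continuousOn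
    exact ⟨A, fun s hs => hA s hs⟩
  have hlip : ∀ s ∈ Ioo (-b) b, LipschitzOnWith (Real.toNNReal (|K| * |A|))
      (fun r => D.S (x s, r) * deriv x s) univ := by
    intro s hs
    refine LipschitzOnWith.of_dist_le_mul ?_
    intro r _ r' _
    rw [Real.coe_toNNReal _ (by positivity), Real.dist_eq, Real.dist_eq, ← sub_mul, abs_mul]
    have e1 : |D.S (x s, r) - D.S (x s, r')| ≤ |K| * |r - r'| :=
      (hK _ _ _).trans (mul_le_mul_of_nonneg_right (le_abs_self K) (abs_nonneg _))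
    have e2 : |deriv x s| ≤ |A| := (hA s (Ioo_subset_Icc_self hs)).trans (le_abs_self A)
    calc |D.S (x s, r) - D.S (x s, r')| * |deriv x s| ≤ (|K| * |r - r'|) * |A| :=
          mul_le_mul e1 e2 (abs_nonneg _) (by positivity)
      _ = |K| * |A| * |r - r'| := by ring
  have hd : ∀ s, HasDerivAt (fun s => Y (x s)) (D.S (x s, Y (x s)) * deriv x s) s := fun s =>
    (hY (x s) (mem_univ _)).comp s (hx s)
  have key := ODE_solution_unique_of_mem_Ioo (v := fun s r => D.S (x s, r) * deriv x s) (s := fun _ => univ)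
    (K := Real.toNNReal (|K| * |A|)) (f := y) (g := fun s => Y (x s)) (t₀ := t₀) hlip hbt₀
    (fun s _ => ⟨hy s, mem_univ _⟩) (fun s _ => ⟨hd s, mem_univ _⟩) h0
  exact key hbt

end Pool.Agent.Work.MP_0d206b_gt

end

end

/-! ### L.I_ZC -/

section

/-!
# MP_0d206b_gt, item L ZC: the complement of the lattice is path connected
-/

set_option autoImplicit false

open Set Filter Topology
open scoped ContDiff

noncomputable section

namespace Pool.Agent.Work.MP_0d206b_gt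

namespace XZC

lemma gam_countable : (Gam : Set P2).Countable := by
  have h : (Gam : Set P2) = range (fun p : ℤ × ℤ =>
      ((p.1 + p.2 * Real.goldenRatio, p.1 + p.2 * Real.goldenConj) : P2)) := by
    ext z
    constructor
    · rintro ⟨i, j, rfl⟩
      exact ⟨(i, j), rfl⟩
    · rintro ⟨⟨i, j⟩, rfl⟩
      exact ⟨i, j, rfl⟩
  rw [h]
  exact countable_range _

lemma rank_P2 : 1 < Module.rank ℝ P2 := by
  rw [rank_prod', Module.rank_self]
  norm_num

lemma first : IsPathConnected {z : P2 | z ∉ Gam} :=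
  gam_countable.isPathConnected_compl_of_one_lt_rank rank_P2

end XZC

theorem I_ZC : ZC := by
  refine ⟨XZC.first, ?_⟩
  have h : {e : E | e.1 ∉ Gam} = {z : P2 | z ∉ Gam} ×ˢ (univ : Set ℝ) := by
    ext e; simp
  rw [h]
  obtain ⟨x, hx, hp⟩ := XZC.first
  refine ⟨(x, 0), ⟨hx, mem_univ _⟩, ?_⟩
  rintro ⟨y, t⟩ ⟨hy, -⟩
  obtain ⟨γ, hγ⟩ := hp hy
  have h0 : JoinedIn (univ : Set ℝ) 0 t := (isPathConnected_univ.joinedIn 0 (mem_univ _) t (mem_univ _))
  obtain ⟨γ', hγ'⟩ := h0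
  exact ⟨γ.prod γ', fun s => ⟨hγ s, mem_univ _⟩⟩

end Pool.Agent.Work.MP_0d206b_gt

end

end

/-! ### L0.L010 -/

section

/-!
# MP_0d206b_gt, module L, flow 0: no attractor leaf is non separated from another leaf (C3)
-/

open Set Filter Topology
open scoped ContDiff

noncomputable section

namespace Pool.Agent.Work.MP_0d206b_gt

namespace L0L010

lemma NS_symm {X : Type} [TopologicalSpace X] {x y : X} (h : NS x y) : NS y x :=
  ⟨h.1.symm, fun U V hU hV hy hx => by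
    rw [inter_comm]
    exact h.2 V U hV hU hx hy⟩

lemma box_eq (z : P2) (ε : ℝ) : {e : E | |e.1.1 - z.1| < ε ∧ |e.1.2 - z.2| < ε} =
    (Metric.ball z ε) ×ˢ (univ : Set ℝ) := by
  ext e
  simp only [mem_ofPred_eq, mem_prod, mem_univ, and_true, Metric.mem_ball, Prod.dist_eq,
    Real.dist_eq, max_lt_iff]

end L0L010

open L0L010

theorem I_L010 (hU5 : U05) (hLN : LN) (hPG : PG1) (hP1 : PL1) (hP2 : PL2) (hP3 : PL3)
    (hGS : GS1) (hG1 : GL1) (hAP1 : AP1) (hAP3 : AP3) (h1 : L01) (h4 : L04) (h7 : L07)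
    (h8 : L08) (h9 : L09) : L010 := by
  intro D N _ _ C A hAU hAc a ha b hb hNS
  have hNS' := NS_symm hNS
  obtain ⟨b0, rfl⟩ := Quotient.exists_rep b
  have hb0A : b0 ∉ C.U .A := by
    intro h
    apply hb
    exact ⟨(), b0, by rw [hAU]; exact h, rfl⟩
  obtain ⟨hb0R, hzL⟩ : b0 ∈ C.U .R ∧ (C.c .R b0).1 ∈ D.Lam :=
    ((h1 D N C b0).1).resolve_left hb0A
  obtain ⟨-, -, -, -, -, hLG, hLout⟩ := hP1 D
  have hclosed : IsClosed (Gam : Set P2) := hPG.2.2.2.2.1
  obtain ⟨ε, hε, hball⟩ := Metric.isOpen_iff.1 hclosed.isOpen_compl _ (hLG _ hzL)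
  generalize hz : (C.c .R b0).1 = z at hzL hball
  generalize hτ : (C.c .R b0).2 = τ
  have he0 : C.c .R b0 = (z, τ) := Prod.ext hz hτ
  have hbox : {e : E | |e.1.1 - z.1| < ε ∧ |e.1.2 - z.2| < ε} ⊆ dom0 .R := by
    rw [box_eq]
    rintro e ⟨he, -⟩
    exact hball he
  have hgood := hGS {e : E | |e.1.1 - z.1| < ε ∧ |e.1.2 - z.2| < ε} (by
    rw [box_eq]
    exact (convex_ball z ε).prod convex_univ) ⟨(z, τ), by simpa using hε⟩
  obtain ⟨f, hf, hfb⟩ := hG1 _ _ _ N C .R _ hbox hgood.1 hgood.2 b0 hb0R (by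
    rw [he0]
    simpa using hε)
  have hemb := h8 D N C z τ ε f hε hzL hf hbox
  obtain ⟨θ, hθm, hθc, hθ0, hθr, hG⟩ := hLN (Quotient (leafSetoid C (es0 D))) ε hε
    (fun t => Quotient.mk (leafSetoid C (es0 D)) (f ((z.1, z.2 + t), τ))) hemb
  have hG0 : Quotient.mk (leafSetoid C (es0 D)) (f ((z.1, z.2 + θ 0), τ)) =
      Quotient.mk (leafSetoid C (es0 D)) b0 := by
    rw [hθ0, add_zero, ← hfb, he0]
  have hside := (hU5 (Quotient (leafSetoid C (es0 D))) (h9 D N C) _ hG 0 a (by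
    show a ≠ Quotient.mk (leafSetoid C (es0 D)) (f ((z.1, z.2 + θ 0), τ))
    rw [hG0]
    exact hNS.1)).1.1 (by
    show NS (Quotient.mk (leafSetoid C (es0 D)) (f ((z.1, z.2 + θ 0), τ))) a
    rw [hG0]
    exact hNS')
  obtain ⟨hx, hopen, hcont, -, -⟩ := hAP3 N _ Unit A (h7 D N C)
  have hin : ∀ t, ((z.1, z.2 + θ t), τ) ∈ {e : E | |e.1.1 - z.1| < ε ∧ |e.1.2 - z.2| < ε} := by
    intro t
    have ht : θ t ∈ Ioo (-ε) ε := by rw [← hθr]; exact mem_range_self t
    refine ⟨by simpa using hε, ?_⟩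
    show |z.2 + θ t - z.2| < ε
    rw [add_sub_cancel_left]
    exact abs_lt.2 ht
  -- the main argument
  have core : ∀ F : Filter ℝ, F.NeBot → F ≤ 𝓝 0 →
      (∀ S ∈ F, ∃ I ⊆ S, IsPreconnected I ∧ I ∈ F) →
      Tendsto (fun t => Quotient.mk (leafSetoid C (es0 D)) (f ((z.1, z.2 + θ t), τ))) F (𝓝 a) →
      False := by
    intro F hne hF0 hFI hT
    have e1 : ∀ᶠ t in F, Quotient.mk (leafSetoid C (es0 D)) (f ((z.1, z.2 + θ t), τ)) ∈ A.LA :=
      hT.eventually (hopen.mem_nhds ha)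
    have e2 : Tendsto (fun t => A.x (Quotient.mk (leafSetoid C (es0 D))
        (f ((z.1, z.2 + θ t), τ)))) F (𝓝 (A.x a)) :=
      ((hcont a ha).continuousAt (hopen.mem_nhds ha)).tendsto.comp hT
    have e3 := e2.eventually (Metric.ball_mem_nhds _ one_pos)
    obtain ⟨I, hIS, hIc, hIF⟩ := hFI _ (e1.and e3)
    -- the points are in the attractor piece
    have hUA : ∀ t ∈ I, f ((z.1, z.2 + θ t), τ) ∈ C.U .A := by
      intro t ht
      obtain ⟨k, b', hb', hbb⟩ := (hIS ht).1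
      have := (hAP1 N _ Unit A k b' _ hb' (Quotient.exact hbb)).1
      rw [hAU] at this
      exact this
    have hUR : ∀ t, f ((z.1, z.2 + θ t), τ) ∈ C.U .R := fun t => hf.mem _ (hin t)
    have hcR : ∀ t, (C.c .R (f ((z.1, z.2 + θ t), τ))).1 = (z.1, z.2 + θ t) := fun t => by
      rw [hf.eq _ (hin t)]
    have hnL : ∀ t ∈ I, ((z.1, z.2 + θ t) : P2) ∉ D.Lam := by
      intro t ht hL
      exact (h1 D N C _).2.1 (hUR t) (by rw [hcR]; exact hL) (hUA t ht)
    have hzt : Continuous fun t => ((z.1, z.2 + θ t) : P2) := by fun_prop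
    obtain ⟨t0, ht0⟩ := hne.nonempty_of_mem hIF
    have hidx : ∀ t ∈ I, D.idx (z.1, z.2 + θ t) = D.idx (z.1, z.2 + θ t0) := by
      intro t ht
      refine hIc.induction₂ (fun t t' => D.idx (z.1, z.2 + θ t') = D.idx (z.1, z.2 + θ t)) ?_
        (fun _ _ _ _ _ _ h h' => h'.trans h) (fun _ _ _ _ h => h.symm) ht0 ht
      intro s hs
      have h5 := ((hP2 D).2.2 _ (hnL s hs))
      have h6 := hzt.continuousAt (x := s)
      exact ((h6.eventually h5).filter_mono nhdsWithin_le_nhds).mono fun u hu => hu.2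
    generalize hm : D.idx (z.1, z.2 + θ t0) = m at hidx
    have hmG : m ∈ Gam := by
      rw [← hm]
      exact (hLout _ (hnL t0 ht0)).1
    have hrep : ∀ t ∈ I, ((z.1, z.2 + θ t) : P2) = m + D.Psi (D.lin (z.1, z.2 + θ t)) := by
      intro t ht
      have := (hLout _ (hnL t ht)).2
      rw [hidx t ht] at this
      exact this
    have hv1 : ∀ t ∈ I, (D.lin (z.1, z.2 + θ t)).1 = z.1 - m.1 := by
      intro t ht
      have h5 := congrArg Prod.fst (hrep t ht)
      rw [Prod.fst_add, D.Psi_fst] at h5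
      have h6 : z.1 = m.1 + (D.lin (z.1, z.2 + θ t)).1 := h5
      linarith
    have hv2 : ∀ t ∈ I, |m.1 + (D.lin (z.1, z.2 + θ t)).2 - A.x a| < 1 := by
      intro t ht
      have h5 := (hIS ht).2
      have h6 := hx () (f ((z.1, z.2 + θ t), τ)) (by rw [hAU]; exact hUA t ht)
      have h7' := ((h1 D N C (f ((z.1, z.2 + θ t), τ))).2.2.1 m hmG
        (D.lin (z.1, z.2 + θ t)) (hUR t) (by rw [hcR]; exact hrep t ht)).2
      have h8' : (A.c () (f ((z.1, z.2 + θ t), τ))).1.1 =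
          m.1 + (D.lin (z.1, z.2 + θ t)).2 := by
        rw [hAc]
        show (C.c .A (f ((z.1, z.2 + θ t), τ))).1.1 = _
        rw [h7']
        show (m + D.Psi _).1 = _
        rw [Prod.fst_add, D.Psi_fst]
      rw [← h8', ← h6]
      exact h5
    have hPL := hP3 D z hzL (max |z.1 - m.1| (1 + |A.x a - m.1|))
    have hlim : Tendsto (fun t => ((z.1, z.2 + θ t) : P2)) F (𝓝 z) := by
      have h5 : Tendsto (fun t => ((z.1, z.2 + θ t) : P2)) (𝓝 0) (𝓝 (z.1, z.2 + θ 0)) :=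
        hzt.tendsto 0
      rw [hθ0, add_zero] at h5
      exact h5.mono_left hF0
    obtain ⟨t, ht1, ht2⟩ := ((hlim.eventually hPL).and hIF).exists
    have ht3 := ht1.resolve_left (hnL t ht2)
    have h5 : ‖D.lin (z.1, z.2 + θ t)‖ ≤ max |z.1 - m.1| (1 + |A.x a - m.1|) := by
      rw [Prod.norm_def, Real.norm_eq_abs, Real.norm_eq_abs, hv1 t ht2]
      refine max_le_max le_rfl ?_
      have h6 := hv2 t ht2
      have h7' : (D.lin (z.1, z.2 + θ t)).2 =
        (m.1 + (D.lin (z.1, z.2 + θ t)).2 - A.x a) + (A.x a - m.1) := by ring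
      rw [h7']
      exact (abs_add_le _ _).trans (by linarith)
    exact absurd ht3 (not_lt.2 h5)
  rcases hside with h | h
  · refine core (𝓝[<] 0) inferInstance nhdsWithin_le_nhds ?_ h
    intro S hS
    obtain ⟨l, hl, hlS⟩ := (mem_nhdsLT_iff_exists_Ioo_subset).1 hS
    exact ⟨Ioo l 0, hlS, isPreconnected_Ioo, Ioo_mem_nhdsLT hl⟩
  · refine core (𝓝[>] 0) inferInstance nhdsWithin_le_nhds ?_ h
    intro S hS
    obtain ⟨l, hl, hlS⟩ := (mem_nhdsGT_iff_exists_Ioo_subset).1 hS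
    exact ⟨Ioo 0 l, hlS, isPreconnected_Ioo, Ioo_mem_nhdsGT hl⟩

end Pool.Agent.Work.MP_0d206b_gt

end

end

/-! ### L0.L011 -/

section

/-!
# MP_0d206b_gt, flow 0: (C4)
-/

open Set Filter Topology

namespace Pool.Agent.Work.MP_0d206b_gt

namespace L0L011

theorem box_exists (hPG : PG1) (z : P2) (hz : z ∉ Gam) :
    ∃ ε > 0, {e : E | |e.1.1 - z.1| < ε ∧ |e.1.2 - z.2| < ε} ⊆ dom0 .R := by
  have hcl : IsClosed (Gam : Set P2) := hPG.2.2.2.2.1
  have hopen : IsOpen ((Gam : Set P2)ᶜ) := hcl.isOpen_compl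
  obtain ⟨ε, hε, hball⟩ := Metric.isOpen_iff.1 hopen z hz
  refine ⟨ε, hε, fun e he => ?_⟩
  have : e.1 ∈ Metric.ball z ε := by
    rw [Metric.mem_ball, Prod.dist_eq, Real.dist_eq, Real.dist_eq]
    exact max_lt he.1 he.2
  exact hball this

theorem box_convex (z : P2) (ε : ℝ) :
    Convex ℝ {e : E | |e.1.1 - z.1| < ε ∧ |e.1.2 - z.2| < ε} := by
  have h1 : Convex ℝ ((fun e : E => e.1.1) ⁻¹' Metric.ball z.1 ε) :=
    (convex_ball z.1 ε).is_linear_preimage ⟨fun _ _ => rfl, fun _ _ => rfl⟩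
  have h2 : Convex ℝ ((fun e : E => e.1.2) ⁻¹' Metric.ball z.2 ε) :=
    (convex_ball z.2 ε).is_linear_preimage ⟨fun _ _ => rfl, fun _ _ => rfl⟩
  have h3 := h1.inter h2
  have h4 : ((fun e : E => e.1.1) ⁻¹' Metric.ball z.1 ε) ∩ ((fun e : E => e.1.2) ⁻¹' Metric.ball z.2 ε)
      = {e : E | |e.1.1 - z.1| < ε ∧ |e.1.2 - z.2| < ε} := by
    ext e; simp [Metric.mem_ball, Real.dist_eq]
  rwa [h4] at h3

theorem box_open (z : P2) (ε : ℝ) :
    IsOpen {e : E | |e.1.1 - z.1| < ε ∧ |e.1.2 - z.2| < ε} := by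
  have h1 : IsOpen {e : E | |e.1.1 - z.1| < ε} :=
    isOpen_lt (f := fun e : E => |e.1.1 - z.1|) (by fun_prop) continuous_const
  have h2 : IsOpen {e : E | |e.1.2 - z.2| < ε} :=
    isOpen_lt (f := fun e : E => |e.1.2 - z.2|) (by fun_prop) continuous_const
  exact h1.inter h2

theorem box_lift (hGS : GS1) (hG1 : GL1) {D : DA} {N : Type} [TopologicalSpace N]
    (C : CoverData dom0 (glue0 D) N) (b : N) (hb : b ∈ C.U .R) {ε : ℝ} (hε : 0 < ε)
    (hsub : {e : E | |e.1.1 - (C.c .R b).1.1| < ε ∧ |e.1.2 - (C.c .R b).1.2| < ε} ⊆ dom0 .R) :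
    ∃ f : E → N, IsLift C .R {e : E | |e.1.1 - (C.c .R b).1.1| < ε ∧ |e.1.2 - (C.c .R b).1.2| < ε} f ∧
      f (C.c .R b) = b := by
  have hmem : C.c .R b ∈ {e : E | |e.1.1 - (C.c .R b).1.1| < ε ∧ |e.1.2 - (C.c .R b).1.2| < ε} := by
    constructor <;> simpa using hε
  obtain ⟨h1, h2⟩ := hGS _ (box_convex (C.c .R b).1 ε) ⟨_, hmem⟩
  exact hG1 Idx0 dom0 (glue0 D) N C .R _ hsub h1 h2 b hb hmem

end L0L011

open L0L011 in
theorem I_L011 (hPG : PG1) (hP1 : PL1) (hPS3 : PS3) (hPS6 : PS6) (hGS : GS1) (hG1 : GL1) (hG2 : GL2)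
    (hG4 : GL4) (hGM : GM) (h8 : L08) (h9 : L09) (ha : L011a) (hc : L011c) (hm : L0move)
    (ht : L0tube) : L011 := by
  intro D N _ _ C b b' hb hb' hz hz' hNS
  obtain ⟨-, -, -, -, -, hLamG, -⟩ := hP1 D
  obtain ⟨hex, -, hsat⟩ := hPS3 D
  obtain ⟨ε, hε, hsub⟩ := box_exists hPG (C.c .R b).1 (hLamG _ hz)
  obtain ⟨ε', hε', hsub'⟩ := box_exists hPG (C.c .R b').1 (hLamG _ hz')
  obtain ⟨f, hf, hfb⟩ := box_lift hGS hG1 C b hb hε hsub
  obtain ⟨f', hf', hfb'⟩ := box_lift hGS hG1 C b' hb' hε' hsub'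
  generalize hez : C.c .R b = e at *
  generalize hez' : C.c .R b' = e' at *
  obtain ⟨z, τ⟩ := e
  obtain ⟨z', τ'⟩ := e'
  simp only at *
  have h8g := h8 D N C z τ ε f hε hz hf hsub
  have h8g' := h8 D N C z' τ' ε' f' hε' hz' hf' hsub'
  have hsc := h9 D N C
  set g : ℝ → Quotient (leafSetoid C (es0 D)) :=
    fun t => Quotient.mk _ (f ((z.1, z.2 + t), τ)) with hg
  set g' : ℝ → Quotient (leafSetoid C (es0 D)) :=
    fun t => Quotient.mk _ (f' ((z'.1, z'.2 + t), τ')) with hg'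
  have hg0 : g 0 = Quotient.mk _ b := by
    simp only [hg, add_zero]; rw [← hfb]
  have hg0' : g' 0 = Quotient.mk _ b' := by
    simp only [hg', add_zero]; rw [← hfb']
  obtain ⟨σ, hσ, δ, hδ, hδε, u, hu, hu0, hall⟩ := hGM _ hsc ε ε' hε hε' g g' h8g h8g'
    (by rw [hg0, hg0']; exact hNS)
  have hrel : ∀ t ∈ Ioo 0 δ, |u t| < ε' ∧
      (leafSetoid C (es0 D)) (f ((z.1, z.2 + σ * t), τ)) (f' ((z'.1, z'.2 + u t), τ')) := by
    intro t ht
    exact ⟨(hall t ht).1, Quotient.exact (hall t ht).2.2⟩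
  have hcc := hc D N C z z' τ τ' ε ε' f f' hε hε' hz hz' hf hf' hsub hsub' σ δ u hσ hδ hδε hu hrel
  -- curves
  obtain ⟨Y, hY, hYz⟩ := hex z
  have hYz2 : ((z.1, Y z.1) : P2) = z := by rw [hYz]
  have hYLam : ∀ x, ((x, Y x) : P2) ∈ D.Lam := hsat Y hY z.1 (by rw [hYz2]; exact hz)
  choose Yt hYt hYtz using fun t : ℝ => hex (z.1, z.2 + σ * t)
  have hYc : Continuous Y := continuous_iff_continuousAt.2 fun x => (hY x (mem_univ x)).continuousAt
  set x₁ := min z.1 z'.1 with hx₁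
  set x₂ := max z.1 z'.1 with hx₂
  have hclose : ∀ η > 0, ∀ᶠ t in 𝓝[>] (0 : ℝ), ∀ x ∈ Icc (x₁ - 1) (x₂ + 1), |Yt t x - Y x| < η := by
    intro η hη
    obtain ⟨δ₁, hδ₁, h⟩ := hPS6 D Y hY x₁ x₂ min_le_max η hη
    have h1 : ∀ᶠ t in 𝓝[>] (0 : ℝ), |σ * t| < δ₁ := by
      have hc : Continuous (fun t : ℝ => |σ * t|) := by fun_prop
      have := hc.tendsto 0
      simp only [mul_zero, abs_zero] at this
      exact (this.mono_left nhdsWithin_le_nhds).eventually (gt_mem_nhds hδ₁)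
    filter_upwards [h1] with t ht x hx
    have e1 : Yt t z.1 = z.2 + σ * t := hYtz t
    refine h z.1 (z.2 + σ * t) ?_ ?_ ?_ (Yt t) (hYt t) e1 x hx
    · have := min_le_left z.1 z'.1; linarith
    · have := le_max_left z.1 z'.1; linarith
    · rw [hYz]; simpa using ht
  have hz1I : ∀ x ∈ uIcc z.1 z'.1, x ∈ Icc (x₁ - 1) (x₂ + 1) := by
    intro x hx
    rw [uIcc, mem_Icc] at hx
    constructor
    · have := hx.1; simp only [hx₁]; change min z.1 z'.1 ≤ x at this; linarith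
    · have := hx.2; simp only [hx₂]; change x ≤ max z.1 z'.1 at this; linarith
  have hIoo : ∀ᶠ t in 𝓝[>] (0 : ℝ), t ∈ Ioo 0 δ := Ioo_mem_nhdsGT hδ
  have hlim : Tendsto (fun t => Yt t z'.1) (𝓝[>] 0) (𝓝 (Y z'.1)) := by
    rw [Metric.tendsto_nhds]
    intro η hη
    filter_upwards [hclose η hη] with t ht
    rw [Real.dist_eq]
    exact ht _ (hz1I _ right_mem_uIcc)
  have hval : ∀ t ∈ Ioo 0 δ, Yt t z'.1 = z'.2 + u t := fun t ht => hcc t ht (Yt t) (hYt t) (hYtz t)
  have hYz' : Y z'.1 = z'.2 := by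
    have h1 : Tendsto (fun t => Yt t z'.1) (𝓝[>] 0) (𝓝 (z'.2 + 0)) := by
      refine Tendsto.congr' ?_ (tendsto_const_nhds.add hu0)
      filter_upwards [hIoo] with t ht
      exact (hval t ht).symm
    have := tendsto_nhds_unique hlim h1
    rw [this, add_zero]
  have hYz'2 : ((z'.1, Y z'.1) : P2) = z' := by rw [hYz']
  obtain ⟨ρ, hρ, hρ1, s, hTsub, hs, hsb, -⟩ := ht D N C Y hY hYLam b hb (by rw [hez]; exact hYz.symm)
    x₁ x₂ (by rw [hez]; exact min_le_left _ _) (by rw [hez]; exact le_max_left _ _)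
  rw [hez] at hsb
  set T : Set E := {e : E | x₁ - ρ < e.1.1 ∧ e.1.1 < x₂ + ρ ∧ |e.1.2 - Y e.1.1| < ρ} with hT
  have hTopen : IsOpen T := by
    have h1 : IsOpen {e : E | x₁ - ρ < e.1.1} :=
      isOpen_lt (g := fun e : E => e.1.1) continuous_const (by fun_prop)
    have h2 : IsOpen {e : E | e.1.1 < x₂ + ρ} :=
      isOpen_lt (f := fun e : E => e.1.1) (by fun_prop) continuous_const
    have h3 : IsOpen {e : E | |e.1.2 - Y e.1.1| < ρ} :=
      isOpen_lt (f := fun e : E => |e.1.2 - Y e.1.1|) (by fun_prop) continuous_const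
    exact h1.inter (h2.inter h3)
  have hmemT : ∀ (Y' : ℝ → ℝ), (∀ x ∈ Icc (x₁ - 1) (x₂ + 1), |Y' x - Y x| < ρ) →
      ∀ x'' ∈ uIcc z.1 z'.1, ∀ τ'' : ℝ, (((x'', Y' x''), τ'') : E) ∈ T := by
    intro Y' hY' x'' hx'' τ''
    refine ⟨?_, ?_, hY' _ (hz1I _ hx'')⟩
    · have : min z.1 z'.1 ≤ x'' := hx''.1
      show x₁ - ρ < x''
      linarith
    · have : x'' ≤ max z.1 z'.1 := hx''.2
      show x'' < x₂ + ρ
      linarith
  have hTY : ∀ x'' ∈ uIcc z.1 z'.1, ∀ τ'' : ℝ, (((x'', Y x''), τ'') : E) ∈ T :=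
    hmemT Y (fun x _ => by simpa using hρ)
  have hrel1 : (leafSetoid C (es0 D)) b (s (z', τ')) := by
    have := hm D N C T s hTsub hs Y hY z.1 z'.1 τ τ' hTY
    rw [hYz2, hYz'2, hsb] at this
    exact this
  -- the points on the curves `Yt t`
  have hcontf : Tendsto (fun t : ℝ => f ((z.1, z.2 + σ * t), τ)) (𝓝[>] 0) (𝓝 b) := by
    have hmem : ((z, τ) : E) ∈ {e : E | |e.1.1 - z.1| < ε ∧ |e.1.2 - z.2| < ε} := by
      constructor <;> simpa using hε
    have h1 : ContinuousAt f (z, τ) := hf.cont.continuousAt ((box_open z ε).mem_nhds hmem)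
    have h2 : Continuous (fun t : ℝ => (((z.1, z.2 + σ * t), τ) : E)) := by fun_prop
    have h3 : Tendsto (fun t : ℝ => (((z.1, z.2 + σ * t), τ) : E)) (𝓝[>] 0) (𝓝 (z, τ)) := by
      have := h2.tendsto 0
      simp only [mul_zero, add_zero] at this
      exact this.mono_left nhdsWithin_le_nhds
    have h4 := h1.tendsto.comp h3
    rw [hfb] at h4
    exact h4
  have hGL4 := hG4 Idx0 dom0 (glue0 D) N C .R T s hTopen hTsub hs b hb
    (by rw [hez]; have := hTY z.1 left_mem_uIcc τ; rw [hYz2] at this; exact this)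
    (by rw [hez]; exact hsb)
  have hev1 := hcontf.eventually hGL4
  have hmemf : ∀ t ∈ Ioo 0 δ, (((z.1, z.2 + σ * t), τ) : E) ∈
      {e : E | |e.1.1 - z.1| < ε ∧ |e.1.2 - z.2| < ε} := by
    intro t ht
    refine ⟨by simpa using hε, ?_⟩
    show |z.2 + σ * t - z.2| < ε
    have h1 : z.2 + σ * t - z.2 = σ * t := by ring
    have h2 : |σ * t| = |t| := by rcases hσ with h | h <;> simp [h]
    rw [h1, h2, abs_of_pos ht.1]
    exact ht.2.trans_le hδε
  have hmemf' : ∀ t ∈ Ioo 0 δ, (((z'.1, z'.2 + u t), τ') : E) ∈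
      {e : E | |e.1.1 - z'.1| < ε' ∧ |e.1.2 - z'.2| < ε'} := by
    intro t ht
    refine ⟨by simpa using hε', ?_⟩
    show |z'.2 + u t - z'.2| < ε'
    have h1 : z'.2 + u t - z'.2 = u t := by ring
    rw [h1]
    exact (hall t ht).1
  have hev2 : ∀ᶠ t in 𝓝[>] (0 : ℝ), s ((z'.1, z'.2 + u t), τ') = f' ((z'.1, z'.2 + u t), τ') := by
    filter_upwards [hev1, hIoo, hclose ρ hρ] with t h1 h2 h3
    have hcf : C.c .R (f ((z.1, z.2 + σ * t), τ)) = ((z.1, z.2 + σ * t), τ) := hf.eq _ (hmemf t h2)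
    rw [hcf] at h1
    have hmT := hmemT (Yt t) h3
    have hmv := hm D N C T s hTsub hs (Yt t) (hYt t) z.1 z'.1 τ τ' hmT
    have e1 : Yt t z.1 = z.2 + σ * t := hYtz t
    rw [e1, hval t h2, h1.2.2] at hmv
    have hT' : (((z'.1, z'.2 + u t), τ') : E) ∈ T := by
      have := hmT z'.1 right_mem_uIcc τ'
      rw [hval t h2] at this
      exact this
    refine ha D N C _ _ (hs.mem _ hT') (hf'.mem _ (hmemf' t h2)) ?_ ?_
    · exact (leafSetoid C (es0 D)).trans ((leafSetoid C (es0 D)).symm hmv) (hrel t h2).2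
    · rw [hs.eq _ hT', hf'.eq _ (hmemf' t h2)]
  -- limits
  have htend : Tendsto (fun t : ℝ => (((z'.1, z'.2 + u t), τ') : E)) (𝓝[>] 0) (𝓝 (z', τ')) := by
    have h1 : Tendsto (fun t : ℝ => z'.2 + u t) (𝓝[>] 0) (𝓝 (z'.2 + 0)) :=
      tendsto_const_nhds.add hu0
    rw [add_zero] at h1
    have h2 : Tendsto (fun t : ℝ => ((z'.1, z'.2 + u t) : P2)) (𝓝[>] 0) (𝓝 (z'.1, z'.2)) :=
      tendsto_const_nhds.prodMk_nhds h1
    exact h2.prodMk_nhds tendsto_const_nhds
  have hz'T : ((z', τ') : E) ∈ T := by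
    have := hTY z'.1 right_mem_uIcc τ'; rw [hYz'2] at this; exact this
  have hls : Tendsto (fun t : ℝ => s ((z'.1, z'.2 + u t), τ')) (𝓝[>] 0) (𝓝 (s (z', τ'))) :=
    (hs.cont.continuousAt (hTopen.mem_nhds hz'T)).tendsto.comp htend
  have hlf : Tendsto (fun t : ℝ => f' ((z'.1, z'.2 + u t), τ')) (𝓝[>] 0) (𝓝 b') := by
    have hmem : ((z', τ') : E) ∈ {e : E | |e.1.1 - z'.1| < ε' ∧ |e.1.2 - z'.2| < ε'} := by
      constructor <;> simpa using hε'
    have h1 := (hf'.cont.continuousAt ((box_open z' ε').mem_nhds hmem)).tendsto.comp htend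
    rw [hfb'] at h1
    exact h1
  have hbb : s (z', τ') = b' :=
    tendsto_nhds_unique hls (hlf.congr' (hev2.mono fun _ h => h.symm))
  rw [hbb] at hrel1
  exact hNS.1 (Quotient.sound hrel1)

end Pool.Agent.Work.MP_0d206b_gt

end

/-! ### L0.L03 -/

section

/-!
# MP_0d206b_gt, item L03: stable arcs of flow 0 stay in the attractor piece with constant `x`, and in `Lam` on an
`S`-curve
-/

open Set Filter Topology
open scoped ContDiff NNReal

noncomputable section

namespace Pool.Agent.Work.MP_0d206b_gt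

namespace L0L03

/-- the coordinate maps are continuous on their domains -/
theorem contOn_c {ι : Type} {dom : ι → Set E} {glue : ι → E → ι → E → Prop} {N : Type} [TopologicalSpace N]
    (C : CoverData dom glue N) (i : ι) : ContinuousOn (C.c i) (C.U i) := by
  have h : Continuous ((C.maps i).restrict (C.c i) (C.U i) (dom i)) := (C.cov i).continuous
  rw [continuousOn_iff_continuous_domRestrict]
  exact continuous_subtype_val.comp h

theorem contAt_c {ι : Type} {dom : ι → Set E} {glue : ι → E → ι → E → Prop} {N : Type} [TopologicalSpace N]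
    (C : CoverData dom glue N) (i : ι) {γ : ℝ → N} (hγ : Continuous γ) {t : ℝ} (ht : γ t ∈ C.U i) :
    ContinuousAt (fun u => C.c i (γ u)) t :=
  ((contOn_c C i).continuousAt ((C.isOpen_U i).mem_nhds ht)).comp hγ.continuousAt

/-- a nonempty open subset of the line, containing the closure of all its preconnected subsets, is everything -/
theorem eq_univ_of_closed {T : Set ℝ} (hT : IsOpen T) {t₀ : ℝ} (h0 : t₀ ∈ T)
    (h : ∀ J : Set ℝ, J ⊆ T → IsPreconnected J → ∀ s ∈ closure J, s ∈ T) : T = univ := by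
  have hsub : connectedComponentIn T t₀ ⊆ T := connectedComponentIn_subset T t₀
  have hpre : IsPreconnected (connectedComponentIn T t₀) := isPreconnected_connectedComponentIn
  have hmem : t₀ ∈ connectedComponentIn T t₀ := mem_connectedComponentIn h0
  have hcl : closure (connectedComponentIn T t₀) ⊆ T := fun s hs => h _ hsub hpre s hs
  have hcl2 : closure (connectedComponentIn T t₀) ⊆ connectedComponentIn T t₀ :=
    hpre.closure.subset_connectedComponentIn (subset_closure hmem) hcl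
  have hclosed : IsClosed (connectedComponentIn T t₀) := isClosed_of_closure_subset hcl2
  have hclopen : IsClopen (connectedComponentIn T t₀) := ⟨hclosed, hT.connectedComponentIn⟩
  have := hclopen.eq_univ ⟨t₀, hmem⟩
  rw [eq_univ_iff_forall] at this ⊢
  exact fun t => hsub (this t)

variable {N : Type} [TopologicalSpace N]

/-- the openness step -/
theorem isOpen_T (h2 : L02) (D : DA) (C : CoverData dom0 (glue0 D) N) (γ : ℝ → N) (hγ : IsArc C (es0 D) γ) (c : ℝ) :
    IsOpen {t | γ t ∈ C.U .A ∧ (C.c .A (γ t)).1.1 = c} := by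
  rw [isOpen_iff_mem_nhds]
  rintro t ⟨htA, htc⟩
  have hV : IsOpen (γ ⁻¹' (C.U .A)) := (C.isOpen_U .A).preimage hγ.cont
  obtain ⟨δ, hδ, hball⟩ := Metric.isOpen_iff.1 hV t htA
  refine Filter.mem_of_superset (Metric.ball_mem_nhds t hδ) ?_
  intro t' ht'
  refine ⟨hball ht', ?_⟩
  rw [← htc]
  have hd : ∀ s ∈ Metric.ball t δ, HasDerivAt (fun u => (C.c .A (γ u)).1.1) 0 s := fun s hs =>
    (h2 D N C γ hγ s).1 (hball hs)
  exact Metric.isOpen_ball.is_const_of_deriv_eq_zero (convex_ball t δ).isPreconnected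
    (fun s hs => (hd s hs).differentiableAt.differentiableWithinAt) (fun s hs => (hd s hs).deriv) ht'
    (Metric.mem_ball_self hδ)

/-- the closedness step -/
theorem closed_T (h1 : L01) (hP1 : PL1) (hP2 : PL2) (D : DA) (C : CoverData dom0 (glue0 D) N) (γ : ℝ → N)
    (hγ : Continuous γ) (c : ℝ) (J : Set ℝ) (hJ : J ⊆ {t | γ t ∈ C.U .A ∧ (C.c .A (γ t)).1.1 = c})
    (hpre : IsPreconnected J) (s : ℝ) (hs : s ∈ closure J) : γ s ∈ C.U .A ∧ (C.c .A (γ s)).1.1 = c := by
  obtain ⟨-, -, -, hlin, -, -, hdec⟩ := hP1 D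
  by_cases hsA : γ s ∈ C.U .A
  · refine ⟨hsA, ?_⟩
    have hcont : ContinuousAt (fun u => (C.c .A (γ u)).1.1) s := by
      have := contAt_c C .A hγ hsA
      exact this.fst.fst
    have hne : (𝓝[J] s).NeBot := mem_closure_iff_nhdsWithin_neBot.1 hs
    have h3 : Tendsto (fun u => (C.c .A (γ u)).1.1) (𝓝[J] s) (𝓝 (C.c .A (γ s)).1.1) :=
      hcont.tendsto.mono_left nhdsWithin_le_nhds
    have h4 : Tendsto (fun u => (C.c .A (γ u)).1.1) (𝓝[J] s) (𝓝 c) := by
      refine tendsto_const_nhds.congr' ?_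
      filter_upwards [self_mem_nhdsWithin] with u hu
      exact (hJ hu).2.symm
    exact tendsto_nhds_unique h3 h4
  · exfalso
    obtain ⟨hsR, hsL⟩ := ((h1 D N C (γ s)).1).resolve_left hsA
    have hV : IsOpen (γ ⁻¹' (C.U .R)) := (C.isOpen_U .R).preimage hγ
    obtain ⟨δ, hδ, hball⟩ := Metric.isOpen_iff.1 hV s hsR
    have hJ'pre : IsPreconnected (J ∩ Metric.ball s δ) := by
      rw [isPreconnected_iff_ordConnected] at hpre ⊢
      exact hpre.inter (convex_ball s δ).ordConnected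
    have hne : (𝓝[J ∩ Metric.ball s δ] s).NeBot := by
      rw [nhdsWithin_inter_of_mem' (mem_nhdsWithin_of_mem_nhds (Metric.ball_mem_nhds s hδ))]
      exact mem_closure_iff_nhdsWithin_neBot.1 hs
    set z : ℝ → P2 := fun u => (C.c .R (γ u)).1 with hz
    have hnL : ∀ u ∈ J ∩ Metric.ball s δ, z u ∉ D.Lam := by
      rintro u ⟨huJ, hub⟩ huL
      exact (h1 D N C (γ u)).2.1 (hball hub) huL (hJ huJ).1
    have hzc : ∀ u, γ u ∈ C.U .R → ContinuousAt z u := fun u hu => (contAt_c C .R hγ hu).fst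
    have hconst : ∀ u ∈ J ∩ Metric.ball s δ, ∀ u' ∈ J ∩ Metric.ball s δ, D.idx (z u) = D.idx (z u') := by
      have hloc : IsLocallyConstant (fun u : (J ∩ Metric.ball s δ : Set ℝ) => D.idx (z u)) := by
        rw [IsLocallyConstant.iff_eventually_eq]
        rintro ⟨u, hu⟩
        have h5 : ∀ᶠ u' in 𝓝 u, D.idx (z u') = D.idx (z u) := by
          filter_upwards [(hzc u (hball hu.2)).eventually (hP2 D |>.2.2 _ (hnL u hu))] with u' hu'
          exact hu'.2
        exact (continuous_subtype_val.tendsto (⟨u, hu⟩ : (J ∩ Metric.ball s δ : Set ℝ))).eventually h5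
      intro u hu u' hu'
      have : PreconnectedSpace (J ∩ Metric.ball s δ : Set ℝ) := isPreconnected_iff_preconnectedSpace.1 hJ'pre
      exact hloc.apply_eq_of_preconnectedSpace ⟨u, hu⟩ ⟨u', hu'⟩
    obtain ⟨u₀, hu₀⟩ : (J ∩ Metric.ball s δ).Nonempty := by
      have := mem_closure_iff_nhdsWithin_neBot.2 hne
      exact closure_nonempty_iff.1 ⟨s, this⟩
    set m : P2 := D.idx (z u₀) with hm
    have hmG : m ∈ Gam := (hdec _ (hnL u₀ hu₀)).1
    have hform : ∀ u ∈ J ∩ Metric.ball s δ, z u = m + D.Psi ((z u).1 - m.1, c - m.1) := by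
      intro u hu
      have h6 := hdec _ (hnL u hu)
      rw [hconst u hu u₀ hu₀] at h6
      obtain ⟨-, h7⟩ := h6
      obtain ⟨v, hv⟩ : ∃ v, v = D.lin (z u) := ⟨_, rfl⟩
      rw [← hv] at h7
      change z u = m + D.Psi v at h7
      have h8 := ((h1 D N C (γ u)).2.2.1 m hmG v (hball hu.2) h7).2
      have h9 : (C.c .A (γ u)).1.1 = m.1 + v.2 := by
        rw [h8]
        show (m + D.Psi (v.2, v.1)).1 = m.1 + v.2
        rw [Prod.fst_add, D.Psi_fst]
      have h10 : v.2 = c - m.1 := by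
        have := (hJ hu.1).2
        linarith
      have h11 : v.1 = (z u).1 - m.1 := by
        have : (z u).1 = m.1 + v.1 := by
          rw [h7, Prod.fst_add, D.Psi_fst]
        linarith
      rw [← h10, ← h11]
      exact h7
    have hlim1 : Tendsto z (𝓝[J ∩ Metric.ball s δ] s) (𝓝 (z s)) :=
      (hzc s hsR).tendsto.mono_left nhdsWithin_le_nhds
    have hlim2 : Tendsto z (𝓝[J ∩ Metric.ball s δ] s) (𝓝 (m + D.Psi ((z s).1 - m.1, c - m.1))) := by
      have h12 : ContinuousAt (fun u => m + D.Psi ((z u).1 - m.1, c - m.1)) s := by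
        have hPc : Continuous D.Psi := D.Psi_smooth.continuous
        refine continuousAt_const.add (hPc.continuousAt.comp ?_)
        exact ((hzc s hsR).fst.sub continuousAt_const).prodMk continuousAt_const
      refine (h12.tendsto.mono_left nhdsWithin_le_nhds).congr' ?_
      filter_upwards [self_mem_nhdsWithin] with u hu
      exact (hform u hu).symm
    have h13 : z s = m + D.Psi ((z s).1 - m.1, c - m.1) := tendsto_nhds_unique hlim1 hlim2
    exact hsL m hmG _ h13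

/-- part (a) -/
theorem partA (h1 : L01) (h2 : L02) (hP1 : PL1) (hP2 : PL2) (D : DA) (C : CoverData dom0 (glue0 D) N) (γ : ℝ → N)
    (hγ : IsArc C (es0 D) γ) (t₀ : ℝ) (ht₀ : γ t₀ ∈ C.U .A) (t : ℝ) :
    γ t ∈ C.U .A ∧ (C.c .A (γ t)).1.1 = (C.c .A (γ t₀)).1.1 := by
  have h := eq_univ_of_closed (isOpen_T h2 D C γ hγ (C.c .A (γ t₀)).1.1) (t₀ := t₀) ⟨ht₀, rfl⟩
    (fun J hJ hpre s hs => closed_T h1 hP1 hP2 D C γ hγ.cont _ J hJ hpre s hs)
  exact (eq_univ_iff_forall.1 h) t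

/-- uniqueness for `y' = S(x, y) x'` along a curve -/
theorem uniq (D : DA) (x y a Y : ℝ → ℝ) (ha : Continuous a) (hx : ∀ t, HasDerivAt x (a t) t)
    (hy : ∀ t, HasDerivAt y (D.S (x t, y t) * a t) t) (hY : IsCurve D.S univ Y) (t₀ : ℝ) (h0 : y t₀ = Y (x t₀)) (t : ℝ) :
    y t = Y (x t) := by
  obtain ⟨K, hK⟩ := D.S_lip
  set b : ℝ := |t₀| + |t| + 1 with hb
  have hbt₀ : t₀ ∈ Ioo (-b) b := by
    refine abs_lt.1 ?_
    have := abs_nonneg t
    linarith
  have hbt : t ∈ Ioo (-b) b := by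
    refine abs_lt.1 ?_
    have := abs_nonneg t₀
    linarith
  obtain ⟨A, hA⟩ : ∃ A, ∀ s ∈ Icc (-b) b, |a s| ≤ A := by
    obtain ⟨A, hA⟩ := isCompact_Icc.exists_bound_of_continuousOn (f := a) (s := Icc (-b) b) ha.continuousOn
    exact ⟨A, fun s hs => hA s hs⟩
  have hlip : ∀ s ∈ Ioo (-b) b, LipschitzOnWith (Real.toNNReal (|K| * |A|)) (fun r => D.S (x s, r) * a s) univ := by
    intro s hs
    refine LipschitzOnWith.of_dist_le_mul ?_
    intro r _ r' _
    rw [Real.coe_toNNReal _ (by positivity), Real.dist_eq, Real.dist_eq, ← sub_mul, abs_mul]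
    have e1 : |D.S (x s, r) - D.S (x s, r')| ≤ |K| * |r - r'| :=
      (hK _ _ _).trans (mul_le_mul_of_nonneg_right (le_abs_self K) (abs_nonneg _))
    have e2 : |a s| ≤ |A| := (hA s (Ioo_subset_Icc_self hs)).trans (le_abs_self A)
    calc |D.S (x s, r) - D.S (x s, r')| * |a s| ≤ (|K| * |r - r'|) * |A| :=
          mul_le_mul e1 e2 (abs_nonneg _) (by positivity)
      _ = |K| * |A| * |r - r'| := by ring
  have hd : ∀ s, HasDerivAt (fun s => Y (x s)) (D.S (x s, Y (x s)) * a s) s := fun s =>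
    (hY (x s) (mem_univ _)).comp s (hx s)
  have key := ODE_solution_unique_of_mem_Ioo (v := fun s r => D.S (x s, r) * a s) (s := fun _ => univ)
    (K := Real.toNNReal (|K| * |A|)) (f := y) (g := fun s => Y (x s)) (t₀ := t₀) hlip hbt₀
    (fun s _ => ⟨hy s, mem_univ _⟩) (fun s _ => ⟨hd s, mem_univ _⟩) h0
  exact key hbt

end L0L03

open L0L03 in
theorem I_L03 (h1 : L01) (h2 : L02) (hP1 : PL1) (hP2 : PL2) : L03 := by
  intro D N _ C γ hγ t₀
  refine ⟨fun ht₀ t => partA h1 h2 hP1 hP2 D C γ hγ t₀ ht₀ t, ?_⟩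
  intro hR hL Y hY hY0
  have hall : ∀ t, γ t ∈ C.U .R ∧ (C.c .R (γ t)).1 ∈ D.Lam := by
    intro t
    refine ((h1 D N C (γ t)).1).resolve_left fun htA => ?_
    exact (h1 D N C (γ t₀)).2.1 hR hL (partA h1 h2 hP1 hP2 D C γ hγ t htA t₀).1
  intro t
  refine ⟨(hall t).1, (hall t).2, ?_⟩
  have hC1 : ContDiff ℝ 1 (C.c .R ∘ γ) := contDiff_iff_contDiffAt.2 fun s => hγ.smooth s .R (hall s).1
  have hx1 : ContDiff ℝ 1 (fun u => (C.c .R (γ u)).1.1) := hC1.fst.fst
  have ha : Continuous (deriv (fun u => (C.c .R (γ u)).1.1)) := hx1.continuous_deriv le_rfl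
  have hxd : ∀ s, HasDerivAt (fun u => (C.c .R (γ u)).1.1) (deriv (fun u => (C.c .R (γ u)).1.1) s) s := fun s =>
    ((hx1.differentiable one_ne_zero) s).hasDerivAt
  have hyd : ∀ s, HasDerivAt (fun u => (C.c .R (γ u)).1.2)
      (D.S ((fun u => (C.c .R (γ u)).1.1) s, (fun u => (C.c .R (γ u)).1.2) s) *
        deriv (fun u => (C.c .R (γ u)).1.1) s) s := by
    intro s
    obtain ⟨a, ha1, ha2⟩ := (h2 D N C γ hγ s).2 (hall s).1
    rw [ha1.deriv]
    exact ha2
  exact uniq D _ _ _ Y ha hxd hyd hY t₀ hY0 t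

end Pool.Agent.Work.MP_0d206b_gt

end

end
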