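import Pool.Agent.Work.MP_0d206b_gt.Bd.StL

/-! ### L.I_LA13 -/

section

open Set Filter Topology

noncomputable section

namespace Pool.Agent.Work.MP_0d206b_gt

theorem I_LA13 (h1 : LA2) (h2 : LA10) : LA13 := by
  intro D N _ C
  exact ⟨{ U := fun s => C.U (.A s)
           c := fun s => C.c (.A s)
           isOpen_U := fun s => C.isOpen_U (.A s)
           maps := fun s => C.maps (.A s)
           cov := fun s => C.cov (.A s)
           disj := fun k k' b hb hb' => (h1 D N C b).1 k k' hb hb'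
           leaf_iff := fun s b b' hb => h2 D N C s b b' hb }, rfl, rfl⟩

end Pool.Agent.Work.MP_0d206b_gt

end

end

/-! ### L.I_LA17i -/

section

/-!
# MP_0d206b_gt, item LA17i (helper75): injectivity of the vertical transversals in the repeller piece of flow a
-/

open Set Filter Topology
open scoped ContDiff

noncomputable section

namespace Pool.Agent.Work.MP_0d206b_gt

namespace XLA17i

theorem mem_box {z : P2} {τ ε t : ℝ} (hε : 0 < ε) (ht : t ∈ Ioo (-ε) ε) :
    (((z.1, z.2 + t), τ) : E) ∈ box z ε := by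
  refine ⟨?_, ?_⟩
  · simpa using hε
  · simp only [add_sub_cancel_left]
    exact abs_lt.2 ht

theorem cont_line {z : P2} {τ : ℝ} : Continuous (fun s : ℝ => (((z.1, z.2 + s), τ) : E)) := by
  fun_prop

end XLA17i

open XLA17i in
theorem I_LA17i (h1 : XE) (h2 : LA14) (h3 : PL1) : LA17i := by
  intro D N _ _ C z τ ε f hε hf hB t ht t' ht' hr
  have e1 := hf.eq _ (mem_box (z := z) (τ := τ) hε ht)
  have e2 := hf.eq _ (mem_box (z := z) (τ := τ) hε ht')
  have m1 := hf.mem _ (mem_box (z := z) (τ := τ) hε ht)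
  have m2 := hf.mem _ (mem_box (z := z) (τ := τ) hε ht')
  have hK : ∃ K : Set N, IsPreconnected K ∧ K ⊆ C.U .R ∧ f ((z.1, z.2 + t), τ) ∈ K ∧
      f ((z.1, z.2 + t'), τ) ∈ K := by
    refine ⟨(fun s : ℝ => f ((z.1, z.2 + s), τ)) '' Ioo (-ε) ε, ?_, ?_, ⟨t, ht, rfl⟩, ⟨t', ht', rfl⟩⟩
    · exact isPreconnected_Ioo.image _
        (hf.cont.comp cont_line.continuousOn fun t ht => mem_box hε ht)
    · rintro _ ⟨s, hs, rfl⟩
      exact hf.mem _ (mem_box hε hs)
  have hbb : f ((z.1, z.2 + t), τ) = f ((z.1, z.2 + t'), τ) :=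
    h1 D N C _ _ m1 m2 hr (by rw [e1, e2]) (by rw [e1, e2]) fun hl hl' => h2 D N C _ _ hr hK hl hl'
  have := e1.symm.trans ((congrArg (C.c .R) hbb).trans e2)
  have h' := congrArg (fun e : E => e.1.2) this
  simp only at h'
  linarith

end Pool.Agent.Work.MP_0d206b_gt

end

end

/-! ### L.I_LA2 -/

section

/-!
# MP_0d206b_gt, module L: the three kinds of points are exclusive
-/

set_option autoImplicit false

open Set Filter Topology
open scoped ContDiff

noncomputable section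

namespace Pool.Agent.Work.MP_0d206b_gt

namespace XLA2

theorem sg_sq (s : Bool) : sg s * sg s = 1 := by
  cases s <;> simp [sg]

end XLA2

theorem I_LA2 : LA2 := by
  intro D N _ C b
  refine ⟨?_, ?_, ?_, ?_, ?_⟩
  · intro s s' h h'
    exact (C.glue_of (.A s) (.A s') b h h').1
  · intro m m' h h'
    exact (C.glue_of (.g m) (.g m') b h h').1
  · intro s m h h'
    obtain ⟨w, hw, -, h1, -⟩ := C.glue_of (.A s) (.g m) b h h'
    have h2 : (C.c (.g m) b).1.1 = sg s / w.1 := by rw [h1]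
    rw [h2, ← mul_div_assoc, XLA2.sg_sq]
    exact one_div_pos.2 hw
  · intro h hL
    refine ⟨fun s h' => ?_, fun m h' => ?_⟩
    · obtain ⟨m, hm, v, -, h1, -, -⟩ := C.glue_of .R (.A s) b h h'
      exact hL m hm v h1
    · obtain ⟨v, -, h1, -, -⟩ := C.glue_of .R (.g m) b h h'
      exact hL m m.2 v h1
  · intro m h h'
    obtain ⟨v, hv, -, h1, -⟩ := C.glue_of .R (.g m) b h h'
    have h2 : (C.c (.g m) b).1.2 = 2 * v.1 := by rw [h1]
    rw [h2]
    intro h3
    have h4 : v.1 = 0 := by linarith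
    rw [h4, abs_zero] at hv
    exact absurd hv (not_lt.2 (abs_nonneg _))

end Pool.Agent.Work.MP_0d206b_gt

end

end

/-! ### L.I_LA23 -/

section

open Set Filter Topology
open scoped ContDiff

noncomputable section

namespace Pool.Agent.Work.MP_0d206b_gt

namespace XLA23

variable {D : DA} {N : Type} [TopologicalSpace N]

theorem case_g (h6 : LA5) (h7 : GL1) (h8 : GS1) (C : CoverData domA (glueA D) N) (m : Gam) (b : N)
    (hb : b ∈ C.U (.g m)) (h0 : (C.c (.g m) b).1.1 = 0) : b ∈ closure (C.U (.A true)) := by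
  obtain ⟨hs1, hs2⟩ := h8 (univ : Set E) convex_univ univ_nonempty
  obtain ⟨f, hf, hfb⟩ := h7 IdxA domA (glueA D) N C (.g m) univ (fun _ _ => mem_univ _) hs1 hs2
    b hb (mem_univ _)
  set e₀ : E := C.c (.g m) b with he₀
  have hcont : Continuous f := continuousOn_univ.1 hf.cont
  have hlim : Tendsto (fun t : ℝ => f ((t, e₀.1.2), e₀.2)) (𝓝[>] 0) (𝓝 b) := by
    have h1 : Continuous (fun t : ℝ => f ((t, e₀.1.2), e₀.2)) := by fun_prop
    have h2 : f ((0, e₀.1.2), e₀.2) = b := by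
      rw [← hfb]
      congr 1
      ext
      · exact h0.symm
      · rfl
      · rfl
    have h3 := h1.tendsto 0
    rw [h2] at h3
    exact h3.mono_left nhdsWithin_le_nhds
  refine mem_closure_of_tendsto hlim ?_
  filter_upwards [self_mem_nhdsWithin] with t ht
  have ht' : (0 : ℝ) < t := ht
  have h4 := h6 D N C m (f ((t, e₀.1.2), e₀.2)) (hf.mem _ (mem_univ _))
  refine (h4.1 true ?_).1
  rw [hf.eq _ (mem_univ _)]
  simpa [sg] using ht'

theorem case_R (h1 : PG1) (h2 : PL1) (h3 : PL4) (h5 : LA3) (h7 : GL1) (h8 : GS1)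
    (C : CoverData domA (glueA D) N) (b : N) (hb : b ∈ C.U .R) (hL : (C.c .R b).1 ∈ D.Lam) :
    b ∈ closure (⋃ s, C.U (.A s)) := by
  set e₀ : E := C.c .R b with he₀
  have hz : e₀.1 ∉ Gam := (h2 D).2.2.2.2.2.1 _ hL
  have hcl : IsClosed (Gam : Set P2) := h1.2.2.2.2.1
  obtain ⟨ε, hε, hball⟩ := Metric.isOpen_iff.1 hcl.isOpen_compl e₀.1 hz
  have hboxconv : Convex ℝ (box e₀.1 ε) := by
    intro a ha c hc s t hs ht hst
    have hs' : s = 1 - t := by linarith
    have ht1 : t ≤ 1 := by linarith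
    obtain ⟨ha1, ha2⟩ := ha
    obtain ⟨hc1, hc2⟩ := hc
    rw [abs_lt] at ha1 ha2 hc1 hc2
    subst hs'
    constructor
    · show |(1 - t) * a.1.1 + t * c.1.1 - e₀.1.1| < ε
      rw [abs_lt]
      rcases eq_or_lt_of_le ht with h | h
      · subst h; constructor <;> nlinarith
      · constructor <;> nlinarith
    · show |(1 - t) * a.1.2 + t * c.1.2 - e₀.1.2| < ε
      rw [abs_lt]
      rcases eq_or_lt_of_le ht with h | h
      · subst h; constructor <;> nlinarith
      · constructor <;> nlinarith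
  have hmem0 : e₀ ∈ box e₀.1 ε := by
    constructor <;> simp [hε]
  have hsubdom : box e₀.1 ε ⊆ domA .R := by
    intro e he
    have : e.1 ∈ Metric.ball e₀.1 ε := by
      rw [Metric.mem_ball, Prod.dist_eq, max_lt_iff, Real.dist_eq, Real.dist_eq]
      exact he
    exact hball this
  obtain ⟨hs1, hs2⟩ := h8 (box e₀.1 ε) hboxconv ⟨e₀, hmem0⟩
  obtain ⟨f, hf, hfb⟩ := h7 IdxA domA (glueA D) N C .R (box e₀.1 ε) hsubdom hs1 hs2 b hb hmem0
  rw [mem_closure_iff]
  intro O hO hbO
  have hboxopen : IsOpen (box e₀.1 ε) := by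
    have ho1 : IsOpen {e : E | |e.1.1 - e₀.1.1| < ε} := isOpen_lt (by fun_prop) continuous_const
    have ho2 : IsOpen {e : E | |e.1.2 - e₀.1.2| < ε} := isOpen_lt (by fun_prop) continuous_const
    exact ho1.inter ho2
  have hca : ContinuousAt f e₀ := hf.cont.continuousAt (hboxopen.mem_nhds hmem0)
  have hfe : f e₀ = b := hfb
  have hev : ∀ᶠ y : ℝ in 𝓝 e₀.1.2, f ((e₀.1.1, y), e₀.2) ∈ O := by
    have h9 : Tendsto (fun y : ℝ => (((e₀.1.1, y), e₀.2) : E)) (𝓝 e₀.1.2) (𝓝 e₀) := by
      have : Continuous (fun y : ℝ => (((e₀.1.1, y), e₀.2) : E)) := by fun_prop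
      exact this.tendsto e₀.1.2
    have h10 := hca.tendsto.comp h9
    rw [hfe] at h10
    exact h10.eventually (hO.mem_nhds hbO)
  obtain ⟨δ, hδ, hδO⟩ := Metric.eventually_nhds_iff.1 hev
  obtain ⟨m, hm, v, hv1, hv2⟩ := D.dens e₀.1 (min δ ε) (lt_min hδ hε)
  -- perturbation
  obtain ⟨v', hv'1, hv'2, hv'0⟩ : ∃ v' : P2, (m + D.Psi v').1 = e₀.1.1 ∧
      |(m + D.Psi v').2 - e₀.1.2| < min δ ε ∧ v'.2 ≠ 0 := by
    by_cases h0 : v.2 = 0
    · have hc : Continuous (fun t : ℝ => |(m + D.Psi (v.1, t)).2 - e₀.1.2|) := by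
        have := D.Psi_smooth.continuous
        fun_prop
      have h11 : ∀ᶠ t : ℝ in 𝓝 0, |(m + D.Psi (v.1, t)).2 - e₀.1.2| < min δ ε := by
        have h12 : |(m + D.Psi (v.1, 0)).2 - e₀.1.2| < min δ ε := by
          have : ((v.1, 0) : P2) = v := by ext <;> simp [h0]
          rw [this]; exact hv2
        exact (hc.tendsto 0).eventually (gt_mem_nhds h12)
      have h13 : ∀ᶠ t : ℝ in 𝓝[≠] 0, |(m + D.Psi (v.1, t)).2 - e₀.1.2| < min δ ε ∧ t ≠ 0 :=
        (h11.filter_mono nhdsWithin_le_nhds).and self_mem_nhdsWithin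
      obtain ⟨t, ht, ht0⟩ := h13.exists
      refine ⟨(v.1, t), ?_, ht, ht0⟩
      rw [((h3 D m hm).1 (v.1, t)), ← hv1, ((h3 D m hm).1 v)]
    · exact ⟨v, hv1, hv2, h0⟩
  set e : E := ((e₀.1.1, (m + D.Psi v').2), e₀.2) with he
  have hee : e.1 = m + D.Psi v' := by
    ext
    · exact hv'1.symm
    · rfl
  have hebox : e ∈ box e₀.1 ε := by
    constructor
    · show |e₀.1.1 - e₀.1.1| < ε
      simpa using hε
    · exact hv'2.trans_le (min_le_right _ _)
  have hfO : f e ∈ O := by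
    apply hδO
    rw [Real.dist_eq]
    exact hv'2.trans_le (min_le_left _ _)
  have hUR := hf.mem e hebox
  have hcR := hf.eq e hebox
  have h14 := (h5 D N C (f e) m hm v' hUR (by rw [hcR]; exact hee)).1
  refine ⟨f e, hfO, ?_⟩
  rcases lt_or_gt_of_ne hv'0 with h | h
  · exact mem_iUnion.2 ⟨false, (h14 false (by simp only [sg, Bool.false_eq_true, if_false]; linarith)).1⟩
  · exact mem_iUnion.2 ⟨true, (h14 true (by simp only [sg, if_true]; linarith)).1⟩

end XLA23

theorem I_LA23 (h1 : PG1) (h2 : PL1) (h3 : PL4) (h4 : LA1) (h5 : LA3) (h6 : LA5) (h7 : GL1)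
    (h8 : GS1) : LA23 := by
  intro D N _ _ C A hU _
  have key : ∀ b : N, b ∈ closure (⋃ s, C.U (.A s)) := by
    intro b
    rcases h4 D N C b with ⟨s, hs⟩ | ⟨m, hm, h0⟩ | ⟨hR, hL⟩
    · exact subset_closure (mem_iUnion.2 ⟨s, hs⟩)
    · exact closure_mono (subset_iUnion (fun s => C.U (.A s)) true)
        (XLA23.case_g h6 h7 h8 C m b hm h0)
    · exact XLA23.case_R h1 h2 h3 h5 h7 h8 C b hR hL
  intro q
  obtain ⟨b, rfl⟩ := Quotient.mk_surjective q
  have hc : Continuous (Quotient.mk (leafSetoid C (esA D))) := continuous_quotient_mk'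
  have h9 := image_closure_subset_closure_image hc (mem_image_of_mem _ (key b))
  refine closure_mono ?_ h9
  rintro _ ⟨b', hb', rfl⟩
  obtain ⟨s, hs⟩ := mem_iUnion.1 hb'
  refine ⟨s, b', ?_, rfl⟩
  rw [hU]
  exact hs

end Pool.Agent.Work.MP_0d206b_gt

end

end

/-! ### L.I_LA8a -/

section

/-!
# MP_0d206b_gt, item LA8a: closedness step for `{ξ = 0}` in a saddle piece
-/

open Set Filter Topology
open scoped ContDiff

noncomputable section

namespace Pool.Agent.Work.MP_0d206b_gt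

theorem I_LA8a (_h1 : PL1) (_h2 : PL2) (h3 : LA1) (h4 : LA2) (_h5 : LA3) (_h6 : LA6) : LA8a := by
  intro D N _ C γ hγ a ε m hε hJ
  rcases h3 D N C (γ a) with ⟨s, hs⟩ | ⟨m', hm', hξ⟩ | ⟨hR, hL⟩
  · exfalso
    obtain ⟨δ, hδ, hb⟩ := XArc.near C (.A s) hγ.cont hs
    have hmin : 0 < min ε δ := lt_min hε hδ
    have ht1 : a + min ε δ / 2 ∈ Ioo a (a + ε) := by
      have := min_le_left ε δ
      constructor <;> linarith
    have ht2 : a + min ε δ / 2 ∈ Metric.ball a δ := by
      rw [Metric.mem_ball, Real.dist_eq, add_sub_cancel_left, abs_of_pos (by linarith)]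
      have := min_le_right ε δ
      linarith
    have h7 := (h4 D N C (γ (a + min ε δ / 2))).2.2.1 s m (hb _ ht2) (hJ _ ht1).1
    rw [(hJ _ ht1).2, mul_zero] at h7
    exact lt_irrefl _ h7
  · obtain ⟨δ, hδ, hb⟩ := XArc.near C (.g m') hγ.cont hm'
    have hmin : 0 < min ε δ := lt_min hε hδ
    have ht1 : a + min ε δ / 2 ∈ Ioo a (a + ε) := by
      have := min_le_left ε δ
      constructor <;> linarith
    have ht2 : a + min ε δ / 2 ∈ Metric.ball a δ := by
      rw [Metric.mem_ball, Real.dist_eq, add_sub_cancel_left, abs_of_pos (by linarith)]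
      have := min_le_right ε δ
      linarith
    have h7 := (h4 D N C (γ (a + min ε δ / 2))).2.1 m m' (hJ _ ht1).1 (hb _ ht2)
    rw [h7]
    exact ⟨hm', hξ⟩
  · exfalso
    obtain ⟨δ, hδ, hb⟩ := XArc.near C .R hγ.cont hR
    have hmin : 0 < min ε δ := lt_min hε hδ
    have hΦ : Continuous fun x : ℝ => (m : P2) + D.Psi (x - (m : P2).1, 0) := by
      have hPc : Continuous D.Psi := D.Psi_smooth.continuous
      exact continuous_const.add (hPc.comp ((continuous_id.sub continuous_const).prodMk continuous_const))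
    refine hL _ m.2 _ (XArc.lim_eq C .R hγ.cont hmin hR hΦ ?_)
    intro t ht
    have ht1 : t ∈ Ioo a (a + ε) := ⟨ht.1, ht.2.trans_le (by have := min_le_left ε δ; linarith)⟩
    have ht2 : t ∈ Metric.ball a δ := by
      rw [Metric.mem_ball, Real.dist_eq, abs_of_pos (sub_pos.2 ht.1)]
      have := ht.2
      have := min_le_right ε δ
      linarith
    obtain ⟨v, hv, hz, hw, -⟩ : glueRg D m (C.c .R (γ t)) (C.c (.g m) (γ t)) :=
      C.glue_of .R (.g m) (γ t) (hb t ht2) (hJ t ht1).1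
    have hξ : v.2 / (v.1 ^ 2 - v.2 ^ 2) = 0 := by
      rw [← (hJ t ht1).2, hw]
    have hne : v.1 ^ 2 - v.2 ^ 2 ≠ 0 := by
      have := sq_lt_sq.2 hv
      exact (sub_pos.2 this).ne'
    have hv2 : v.2 = 0 := (div_eq_zero_iff.1 hξ).resolve_right hne
    have hx : (C.c .R (γ t)).1.1 = (m : P2).1 + v.1 := by
      rw [hz, Prod.fst_add, D.Psi_fst]
    have hv1 : v = ((C.c .R (γ t)).1.1 - (m : P2).1, 0) := by
      refine Prod.ext ?_ hv2
      show v.1 = (C.c .R (γ t)).1.1 - (m : P2).1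
      linarith
    show (C.c .R (γ t)).1 = (m : P2) + D.Psi ((C.c .R (γ t)).1.1 - (m : P2).1, 0)
    rw [← hv1]
    exact hz

end Pool.Agent.Work.MP_0d206b_gt

end

end

/-! ### L.I_PL4 -/

section

/-!
# MP_0d206b_gt, item PL4 (helper75)
-/

open Set Filter Topology
open scoped ContDiff

noncomputable section

namespace Pool.Agent.Work.MP_0d206b_gt

namespace XPL4

theorem hasDerivAt_snd (D : DA) (a t : ℝ) :
    HasDerivAt (fun t => (D.Psi (a, t)).2) (dy D.Psi (a, t)) t := by
  have h1 : HasFDerivAt D.Psi (fderiv ℝ D.Psi (a, t)) (a, t) :=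
    ((D.Psi_smooth.differentiable (by simp)) (a, t)).hasFDerivAt
  have h2 : HasDerivAt (fun t : ℝ => ((a, t) : P2)) ((0, 1) : P2) t :=
    (hasDerivAt_const t a).prodMk (hasDerivAt_id t)
  have h3 : HasDerivAt (fun t : ℝ => D.Psi (a, t)) (fderiv ℝ D.Psi (a, t) ((0, 1) : P2)) t :=
    h1.comp_hasDerivAt t h2
  exact h3.snd

theorem strictMono_snd (D : DA) (a : ℝ) : StrictMono (fun t => (D.Psi (a, t)).2) := by
  refine strictMono_of_deriv_pos fun t => ?_
  rw [(hasDerivAt_snd D a t).deriv]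
  exact D.dyPsi_pos _

theorem continuous_snd (D : DA) (a : ℝ) : Continuous (fun t => (D.Psi (a, t)).2) :=
  continuous_iff_continuousAt.2 fun t => (hasDerivAt_snd D a t).continuousAt

end XPL4

open XPL4 in
theorem I_PL4 (h1 : PL1) : PL4 := by
  intro D m _
  have hfst : ∀ v, (m + D.Psi v).1 = m.1 + v.1 := fun v => by
    rw [Prod.fst_add, D.Psi_fst]
  refine ⟨hfst, ?_, ?_⟩
  · rintro ⟨a, t⟩ ⟨a', t'⟩ h
    simp only at h
    subst h
    simp only [Prod.snd_add, add_lt_add_iff_left]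
    exact (strictMono_snd D a).lt_iff_lt
  · rintro ⟨a, t⟩ ⟨a', t'⟩ y h hy hy'
    simp only at h
    subst h
    simp only [Prod.snd_add] at hy hy'
    have hle : t ≤ t' := by
      have : (D.Psi (a, t)).2 ≤ (D.Psi (a, t')).2 := by linarith
      exact (strictMono_snd D a).le_iff_le.1 this
    have hmem : y - m.2 ∈ Icc ((fun t => (D.Psi (a, t)).2) t) ((fun t => (D.Psi (a, t)).2) t') :=
      ⟨by simp only; linarith, by simp only; linarith⟩
    obtain ⟨s, hs, hs'⟩ := intermediate_value_Icc hle (continuous_snd D a).continuousOn hmem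
    refine ⟨s, ?_, hs.1, hs.2⟩
    simp only at hs'
    refine Prod.ext ?_ ?_
    · rw [hfst]
    · rw [Prod.snd_add, hs']
      simp

end Pool.Agent.Work.MP_0d206b_gt

end

end

/-! ### L.I_PL5 -/

section

/-!
# MP_0d206b_gt, item PL5: the gluing map
-/

open Set Filter Topology
open scoped ContDiff

noncomputable section

namespace Pool.Agent.Work.MP_0d206b_gt

namespace XPL5

theorem sqrt_nsq_gmap (v : P2) (hv : 0 < v.2) : Real.sqrt (nsq (gmap v)) = nsq v / v.2 := by
  have h : nsq (gmap v) = (nsq v / v.2) ^ 2 := by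
    simp only [nsq, gmap]
    field_simp
    ring
  rw [h, Real.sqrt_sq]
  unfold nsq
  positivity

theorem lt_sqrt (w : P2) (hw : ¬ (w.2 = 0 ∧ 0 ≤ w.1)) : w.1 < Real.sqrt (nsq w) := by
  by_cases h : w.2 = 0
  · have h1 : w.1 < 0 := by
      by_contra h2
      exact hw ⟨h, not_lt.1 h2⟩
    exact lt_of_lt_of_le h1 (Real.sqrt_nonneg _)
  · apply Real.lt_sqrt_of_sq_lt
    unfold nsq
    have : 0 < w.2 ^ 2 := by positivity
    linarith

theorem nsq_pos (w : P2) (hw : ¬ (w.2 = 0 ∧ 0 ≤ w.1)) : 0 < nsq w := by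
  unfold nsq
  by_cases h : w.2 = 0
  · have h1 : w.1 < 0 := by
      by_contra h2
      exact hw ⟨h, not_lt.1 h2⟩
    have h2 : 0 < w.1 ^ 2 := by nlinarith
    positivity
  · positivity

theorem gmap_gminv (w : P2) (hw : ¬ (w.2 = 0 ∧ 0 ≤ w.1)) : gmap (gminv w) = w := by
  have h1 := lt_sqrt w hw
  have h2 : Real.sqrt (nsq w) ^ 2 = w.1 ^ 2 + w.2 ^ 2 := Real.sq_sqrt (nsq_pos w hw).le
  set s := Real.sqrt (nsq w) with hs
  have h3 : s - w.1 ≠ 0 := by
    intro h; linarith
  ext
  · simp only [gmap, gminv, ← hs]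
    field_simp
    have h4 : w.2 ^ 2 = s ^ 2 - w.1 ^ 2 := by linarith
    linear_combination h4
  · simp only [gmap, gminv]
    ring

end XPL5

open XPL5 in
theorem I_PL5 : PL5 := by
  refine ⟨?_, ?_, ?_, ?_, ?_, ?_, ?_, ?_⟩
  · intro v hv
    have h := sqrt_nsq_gmap v hv
    ext
    · simp only [gminv, gmap]
      ring
    · simp only [gminv]
      rw [h]
      simp only [gmap, nsq]
      field_simp
      ring
  · intro w hw
    refine ⟨?_, gmap_gminv w hw⟩
    have := lt_sqrt w hw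
    simp only [gminv]
    linarith
  · rintro v hv ⟨h1, h2⟩
    simp only [gmap] at h1 h2
    have h3 : v.1 = 0 := by linarith
    rw [h3] at h2
    have h4 : (0 ^ 2 - v.2 ^ 2) / v.2 < 0 := by
      apply div_neg_of_neg_of_pos _ hv
      nlinarith
    linarith
  · intro r v hr
    have hr' := hr.ne'
    ext
    · simp only [gmap, Prod.smul_fst, Prod.smul_snd, smul_eq_mul]
      by_cases h : v.2 = 0
      · simp [h]
      · field_simp
    · simp only [gmap, Prod.smul_fst, Prod.smul_snd, smul_eq_mul]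
      ring
  · intro a t t' ht htt
    have ht' : 0 < t' := ht.trans htt
    simp only [gmap]
    rw [div_lt_div_iff₀ ht' ht]
    have : 0 ≤ a ^ 2 := sq_nonneg a
    have h1 : 0 < t * t' := mul_pos ht ht'
    nlinarith [mul_pos h1 (sub_pos.2 htt), mul_nonneg this (sub_pos.2 htt).le]
  · intro v hv
    exact sqrt_nsq_gmap v hv
  · intro v hv
    unfold gmap
    apply ContDiffAt.prodMk
    · apply ContDiffAt.div
      · fun_prop
      · fun_prop
      · exact hv.ne'
    · fun_prop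
  · intro w hw
    have h := (nsq_pos w hw).ne'
    unfold gminv
    apply ContDiffAt.prodMk
    · fun_prop
    · have h1 : ContDiffAt ℝ ∞ (fun w : P2 => nsq w) w := by
        unfold nsq
        fun_prop
      have h2 : ContDiffAt ℝ ∞ (fun w : P2 => Real.sqrt (nsq w)) w := h1.sqrt h
      fun_prop

end Pool.Agent.Work.MP_0d206b_gt

end

end

/-! ### L.I_PS1 -/

section

/-!
# MP_0d206b_gt, item PS1: continuity of the slope field `sigma`
-/

open Set Filter Topology
open scoped ContDiff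

noncomputable section

namespace Pool.Agent.Work.MP_0d206b_gt

namespace XPS1

theorem abs_S0_le (v : P2) : |S0 v| ≤ 1 := by
  unfold S0 nsq
  by_cases h : v.1 ^ 2 + v.2 ^ 2 = 0
  · rw [h]; simp
  · have h0 : 0 < v.1 ^ 2 + v.2 ^ 2 := lt_of_le_of_ne (by positivity) (Ne.symm h)
    rw [abs_div, abs_of_pos h0, div_le_one h0, abs_le]
    constructor <;> nlinarith [sq_nonneg (v.1 + v.2), sq_nonneg (v.1 - v.2)]

theorem cont_S0 {v : P2} (hv : v ≠ 0) : ContinuousAt S0 v := by
  have h : nsq v ≠ 0 := by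
    unfold nsq
    intro h
    apply hv
    have h1 : v.1 = 0 := by nlinarith [sq_nonneg v.1, sq_nonneg v.2]
    have h2 : v.2 = 0 := by nlinarith [sq_nonneg v.1, sq_nonneg v.2]
    exact Prod.ext h1 h2
  unfold S0
  apply ContinuousAt.div
  · fun_prop
  · unfold nsq
    fun_prop
  · exact h

theorem cont_dyPsi (D : DA) : Continuous (dy D.Psi) := by
  unfold dy
  have h : Continuous (fderiv ℝ D.Psi) := D.Psi_smooth.continuous_fderiv (by simp)
  exact (h.clm_apply continuous_const).snd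

end XPS1

open XPS1 in
theorem I_PS1 (h1 : PG1) (h2 : PL1) (h3 : PL2) (h4 : PL3) : PS1 := by
  intro D z hz
  have hzG : z ∉ Gam := hz
  apply ContinuousAt.continuousWithinAt
  obtain ⟨p1, -, -, -, -, -, p7⟩ := h2 D
  by_cases hL : z ∈ D.Lam
  · rw [Metric.continuousAt_iff']
    intro ε hε
    obtain ⟨δ, hδ, hd⟩ := D.dyPsi_tendsto z hL (ε / 2) (half_pos hε)
    have hS : ∀ᶠ z' in 𝓝 z, dist (D.S z') (D.S z) < ε / 2 :=
      Metric.continuousAt_iff'.1 D.S_cont.continuousAt (ε / 2) (half_pos hε)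
    filter_upwards [hS, Metric.ball_mem_nhds z hδ] with z' h5 h6
    have e1 : D.sigma z = D.S z := by simp [DA.sigma, hL]
    rw [e1]
    by_cases hL' : z' ∈ D.Lam
    · have e2 : D.sigma z' = D.S z' := by simp [DA.sigma, hL']
      rw [e2]; linarith
    · have e2 : D.sigma z' = D.S z' + dy D.Psi (D.lin z') * S0 (D.lin z') := by
        simp [DA.sigma, hL']
      obtain ⟨q1, q2⟩ := p7 z' hL'
      have h7 : dist (D.idx z' + D.Psi (D.lin z')) z < δ := by
        rw [← q2]; exact h6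
      have h8 := hd _ q1 _ h7
      have h9 := D.dyPsi_pos (D.lin z')
      have h10 : |dy D.Psi (D.lin z') * S0 (D.lin z')| ≤ dy D.Psi (D.lin z') := by
        rw [abs_mul, abs_of_pos h9]
        exact mul_le_of_le_one_right h9.le (abs_S0_le _)
      rw [e2, Real.dist_eq]
      rw [Real.dist_eq] at h5
      have h11 : D.S z' + dy D.Psi (D.lin z') * S0 (D.lin z') - D.S z =
          (D.S z' - D.S z) + dy D.Psi (D.lin z') * S0 (D.lin z') := by ring
      rw [h11]
      have h12 := abs_add_le (D.S z' - D.S z) (dy D.Psi (D.lin z') * S0 (D.lin z'))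
      linarith
  · obtain ⟨c1, -, c3⟩ := h3 D
    have hev := c3 z hL
    have hmem : D.Lamᶜ ∈ 𝓝 z := by
      filter_upwards [hev] with z' h using h.1
    have hlin : ContinuousAt D.lin z := (c1 z hL).continuousAt hmem
    obtain ⟨q1, q2⟩ := p7 z hL
    have hne : D.lin z ≠ 0 := by
      intro h0
      rw [h0, p1, add_zero] at q2
      rw [q2] at hzG
      exact hzG q1
    have hc : ContinuousAt (fun z' => D.S z' + dy D.Psi (D.lin z') * S0 (D.lin z')) z := by
      apply ContinuousAt.add D.S_cont.continuousAt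
      apply ContinuousAt.mul
      · exact ContinuousAt.comp (f := D.lin) (g := dy D.Psi) (cont_dyPsi D).continuousAt hlin
      · exact ContinuousAt.comp (f := D.lin) (g := S0) (cont_S0 hne) hlin
    apply hc.congr
    filter_upwards [hmem] with z' h
    have h' : z' ∉ D.Lam := h
    simp [DA.sigma, h']

end Pool.Agent.Work.MP_0d206b_gt

end

end

/-! ### L.I_XL -/

section

/-! # MP_0d206b_gt, module L: the lattice argument -/

set_option autoImplicit false

open Set Filter Topology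
open scoped ContDiff

noncomputable section

namespace Pool.Agent.Work.MP_0d206b_gt

theorem I_XL (h1 : AP0) (h2 : AP1) (h3 : PL1) : XL := by
  intro D N _ r κ A k b b' hb hr p hp p' hp' w w' e1 e2 m hm hm1 hlt1 hlt2
  obtain ⟨_, hI, _⟩ := h2 N r κ A k b b' hb hr
  obtain ⟨hI1, hI2⟩ := hI
  have h0 : D.Psi 0 = 0 := (h3 D).1
  have hm0 : m + D.Psi 0 = m := by rw [h0, add_zero]
  have a1 : (p + D.Psi w).2 < m.2 := by
    have h := D.order p hp m hm w 0 hlt1
    rw [hm0] at h
    apply h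
    rw [← e1, hm1]
  have a2 : m.2 < (p' + D.Psi w').2 := by
    have h := D.order m hm p' hp' 0 w' hlt2
    rw [hm0] at h
    apply h
    rw [← e2, hI1, hm1]
  rw [← e1] at a1
  rw [← e2] at a2
  have h4 : m.2 ∈ Set.uIcc (A.c k b).1.2 (A.c k b').1.2 :=
    Set.Icc_subset_uIcc ⟨a1.le, a2.le⟩
  apply hI2 m.2 h4
  have h5 : (((A.c k b).1.1, m.2) : P2) = m := Prod.ext hm1.symm rfl
  rw [h5]
  exact hm

end Pool.Agent.Work.MP_0d206b_gt

end

end

/-! ### L0.L012 -/

section

/-! Item L012: the attractor leaves are dense. -/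

open Set Filter Topology
open scoped ContDiff

noncomputable section

namespace Pool.Agent.Work.MP_0d206b_gt

/-- a lift over a small box around a point of the repeller piece -/
theorem L0L012.box (hPG : PG1) (hGS : GS1) (hG1 : GL1) (D : DA) (N : Type) [TopologicalSpace N]
    (C : CoverData dom0 (glue0 D) N) (b : N) (hR : b ∈ C.U .R) :
    ∃ ε > 0, ∃ s : E → N,
      {e : E | |e.1.1 - (C.c .R b).1.1| < ε ∧ |e.1.2 - (C.c .R b).1.2| < ε} ⊆ dom0 .R ∧
      IsLift C .R {e : E | |e.1.1 - (C.c .R b).1.1| < ε ∧ |e.1.2 - (C.c .R b).1.2| < ε} s ∧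
      s (C.c .R b) = b := by
  have hz : (C.c .R b).1 ∉ Gam := C.maps .R hR
  have hcl : IsClosed (Gam : Set P2) := hPG.2.2.2.2.1
  obtain ⟨ε, hε, hball⟩ := Metric.isOpen_iff.mp hcl.isOpen_compl (C.c .R b).1 hz
  have hset : {e : E | |e.1.1 - (C.c .R b).1.1| < ε ∧ |e.1.2 - (C.c .R b).1.2| < ε} =
      (LinearMap.fst ℝ P2 ℝ) ⁻¹' Metric.ball (C.c .R b).1 ε := by
    ext e
    simp only [mem_ofPred_eq, mem_preimage, LinearMap.fst_apply, Metric.mem_ball, Prod.dist_eq,
      Real.dist_eq, max_lt_iff]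
  have hconv : Convex ℝ {e : E | |e.1.1 - (C.c .R b).1.1| < ε ∧ |e.1.2 - (C.c .R b).1.2| < ε} := by
    rw [hset]
    exact (convex_ball _ _).linear_preimage _
  have hmem : C.c .R b ∈ {e : E | |e.1.1 - (C.c .R b).1.1| < ε ∧ |e.1.2 - (C.c .R b).1.2| < ε} := by
    simp [hε]
  have hsub : {e : E | |e.1.1 - (C.c .R b).1.1| < ε ∧ |e.1.2 - (C.c .R b).1.2| < ε} ⊆ dom0 .R := by
    rw [hset]
    intro e he
    exact hball he
  obtain ⟨hs1, hs2⟩ := hGS _ hconv ⟨_, hmem⟩
  obtain ⟨s, hs, hsb⟩ := hG1 Idx0 dom0 (glue0 D) N C .R _ hsub hs1 hs2 b hR hmem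
  exact ⟨ε, hε, s, hsub, hs, hsb⟩

theorem I_L012 (hPG : PG1) (hP1 : PL1) (hGS : GS1) (hG1 : GL1) (h1 : L01) : L012 := by
  intro D N _ _ C A hU hc
  rw [dense_iff_inter_open]
  rintro W hW ⟨q, hq⟩
  induction q using Quotient.inductionOn with | _ b => ?_
  rcases (h1 D N C b).1 with h | ⟨hR, hL⟩
  · exact ⟨_, hq, (), b, by rw [hU]; exact h, rfl⟩
  · obtain ⟨ε, hε, s, hsub, hs, hsb⟩ := L0L012.box hPG hGS hG1 D N C b hR
    set z : P2 := (C.c .R b).1 with hz
    set τ : ℝ := (C.c .R b).2 with hτ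
    have hcont : ContinuousAt (fun y : ℝ => s ((z.1, y), τ)) z.2 := by
      have hopen : IsOpen {e : E | |e.1.1 - z.1| < ε ∧ |e.1.2 - z.2| < ε} := by
        have hset : {e : E | |e.1.1 - z.1| < ε ∧ |e.1.2 - z.2| < ε} =
            Prod.fst ⁻¹' Metric.ball z ε := by
          ext e
          simp only [mem_ofPred_eq, mem_preimage, Metric.mem_ball, Prod.dist_eq,
            Real.dist_eq, max_lt_iff]
        rw [hset]
        exact Metric.isOpen_ball.preimage continuous_fst
      have h3 : ((z.1, z.2), τ) ∈ {e : E | |e.1.1 - z.1| < ε ∧ |e.1.2 - z.2| < ε} := by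
        simp [hε]
      have h4 : ContinuousAt s ((z.1, z.2), τ) := hs.cont.continuousAt (hopen.mem_nhds h3)
      have h5 : ContinuousAt (fun y : ℝ => (((z.1, y), τ) : E)) z.2 := by
        apply Continuous.continuousAt
        fun_prop
      exact ContinuousAt.comp (f := fun y : ℝ => (((z.1, y), τ) : E)) (g := s) h4 h5
    have hsb' : s ((z.1, z.2), τ) = b := hsb
    have hq' : ∀ᶠ y in 𝓝 z.2, Quotient.mk (leafSetoid C (es0 D)) (s ((z.1, y), τ)) ∈ W := by
      have h6 : ContinuousAt (fun y : ℝ =>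
          Quotient.mk (leafSetoid C (es0 D)) (s ((z.1, y), τ))) z.2 :=
        ContinuousAt.comp (f := fun y : ℝ => s ((z.1, y), τ))
          (g := Quotient.mk (leafSetoid C (es0 D))) continuous_quot_mk.continuousAt hcont
      have h7 : W ∈ 𝓝 (Quotient.mk (leafSetoid C (es0 D)) (s ((z.1, z.2), τ))) := by
        rw [hsb']
        exact hW.mem_nhds hq
      exact h6.eventually h7
    obtain ⟨δ, hδ, hδW⟩ := Metric.eventually_nhds_iff.mp hq'
    obtain ⟨m, hm, v, hv1, hv2⟩ := D.dens z (min ε δ) (lt_min hε hδ)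
    have hyW := hδW (y := (m + D.Psi v).2) (by
      rw [Real.dist_eq]
      exact hv2.trans_le (min_le_right _ _))
    have hYmem : (((z.1, (m + D.Psi v).2), τ) : E) ∈
        {e : E | |e.1.1 - z.1| < ε ∧ |e.1.2 - z.2| < ε} := by
      refine ⟨?_, ?_⟩
      · simp [hε]
      · exact hv2.trans_le (min_le_left _ _)
    have hpR := hs.mem _ hYmem
    have hpc := hs.eq _ hYmem
    have hpz : (C.c .R (s ((z.1, (m + D.Psi v).2), τ))).1 = m + D.Psi v := by
      rw [hpc]
      exact Prod.ext hv1.symm rfl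
    have hpA := ((h1 D N C (s ((z.1, (m + D.Psi v).2), τ))).2.2.1 m hm v hpR hpz).1
    exact ⟨_, hyW, (), _, by rw [hU]; exact hpA, rfl⟩

end Pool.Agent.Work.MP_0d206b_gt

end

end

/-! ### L0.L015 -/

section

/-! Item L015: the unstable leaf space of flow 0. -/

open Set Filter Topology
open scoped ContDiff

noncomputable section

namespace Pool.Agent.Work.MP_0d206b_gt

theorem I_L015 (h13 : L013) (h14 : L014) : L015 := by
  intro D N _ _ C
  obtain ⟨C', h⟩ := h14 D N C
  rw [h]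
  exact h13 D N C'

end Pool.Agent.Work.MP_0d206b_gt

end

end

/-! ### L0.L02 -/

section

/-! Item L02: infinitesimal form of a stable arc of flow 0. -/

open Set Filter Topology
open scoped ContDiff

noncomputable section

namespace Pool.Agent.Work.MP_0d206b_gt

theorem L0L02.fst_fst {f : ℝ → E} {f' : E} {t : ℝ} (h : HasDerivAt f f' t) :
    HasDerivAt (fun u => (f u).1.1) f'.1.1 t := by
  have h1 : HasDerivAt (fun u => (f u).1) f'.1 t :=
    (hasFDerivAt_fst (𝕜 := ℝ) (E := P2) (F := ℝ) (p := f t)).comp_hasDerivAt t h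
  exact (hasFDerivAt_fst (𝕜 := ℝ) (E := ℝ) (F := ℝ) (p := (f t).1)).comp_hasDerivAt t h1

theorem L0L02.fst_snd {f : ℝ → E} {f' : E} {t : ℝ} (h : HasDerivAt f f' t) :
    HasDerivAt (fun u => (f u).1.2) f'.1.2 t := by
  have h1 : HasDerivAt (fun u => (f u).1) f'.1 t :=
    (hasFDerivAt_fst (𝕜 := ℝ) (E := P2) (F := ℝ) (p := f t)).comp_hasDerivAt t h
  exact (hasFDerivAt_snd (𝕜 := ℝ) (E := ℝ) (F := ℝ) (p := (f t).1)).comp_hasDerivAt t h1

theorem I_L02 : L02 := by
  intro D N _ C γ hγ t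
  have hd : ∀ i, γ t ∈ C.U i → HasDerivAt (C.c i ∘ γ) (deriv (C.c i ∘ γ) t) t := fun i hi =>
    ((hγ.smooth t i hi).differentiableAt one_ne_zero).hasDerivAt
  constructor
  · intro hA
    have h2 := hγ.tang t .A hA
    rw [plane, Submodule.mem_span_pair] at h2
    obtain ⟨a, b, hab⟩ := h2
    have h1 := L0L02.fst_fst (hd .A hA)
    rw [← hab] at h1
    have h3 : (a • es0 D .A (C.c .A (γ t)) + b • (((0, 0), 1) : E)).1.1 = 0 := by
      simp [es0]
    rw [h3] at h1
    exact h1
  · intro hR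
    have h2 := hγ.tang t .R hR
    rw [plane, Submodule.mem_span_pair] at h2
    obtain ⟨a, b, hab⟩ := h2
    have h1 := L0L02.fst_fst (hd .R hR)
    have h1' := L0L02.fst_snd (hd .R hR)
    rw [← hab] at h1 h1'
    have h3 : (a • es0 D .R (C.c .R (γ t)) + b • (((0, 0), 1) : E)).1.1 = a := by
      simp [es0]
    have h4 : (a • es0 D .R (C.c .R (γ t)) + b • (((0, 0), 1) : E)).1.2 =
        D.S (C.c .R (γ t)).1 * a := by
      simp [es0, mul_comm]
    rw [h3] at h1
    rw [h4] at h1'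
    exact ⟨a, h1, h1'⟩

end Pool.Agent.Work.MP_0d206b_gt

end

end
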