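import Pool.Agent.Work.MP_0d206b_gt.Bd.StL

/-! ### L.I_AP1 -/

section

/-!
# MP_0d206b_gt, item AP1: points of one leaf in the attractor part
-/

open Set Filter Topology
open scoped ContDiff

noncomputable section

namespace Pool.Agent.Work.MP_0d206b_gt

theorem I_AP1 (_h1 : AP0) : AP1 := by
  intro N _ r κ A k b b' hb hr
  obtain ⟨s, hsc, hs, hsb, e, he, hse⟩ := (A.leaf_iff k b b' hb).1 hr
  obtain ⟨h1, h2⟩ := hs e he
  rw [hse] at h1 h2
  refine ⟨h1, ?_, ?_⟩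
  · rw [h2]
    exact he
  · intro h
    rw [← hsb, ← hse, h, h2]

end Pool.Agent.Work.MP_0d206b_gt

end

end

/-! ### L.I_AP7 -/

section

/-!
# MP_0d206b_gt, module L: AP7
-/

open Set Filter Topology
open scoped ContDiff

noncomputable section

namespace Pool.Agent.Work.MP_0d206b_gt

namespace XAP7

theorem dense_x : Dense {x : ℝ | ∃ m ∈ Gam, m.1 = x} := by
  have h : Dense (AddSubgroup.closure {(1 : ℝ), Real.goldenRatio} : Set ℝ) := by
    rw [dense_addSubgroupClosure_pair_iff, one_div]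
    exact Real.goldenRatio_irrational.inv
  refine h.mono ?_
  intro x hx
  obtain ⟨i, j, hij⟩ := (AddSubgroup.mem_closure_pair (x := (1 : ℝ)) (y := Real.goldenRatio) (z := x)).1 hx
  refine ⟨(i + j * Real.goldenRatio, i + j * Real.goldenConj), ⟨i, j, rfl⟩, ?_⟩
  simp only [zsmul_eq_mul, mul_one] at hij
  exact hij

end XAP7

set_option linter.unusedVariables false in
theorem I_AP7 (h1 : AP0) (h2 : AP1) (h3 : AP2) (h4 : AP3) (h5 : GS1) (h6 : PG1) : AP7 := by
  intro N _ _ r κ A hop a ha U hU haU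
  obtain ⟨k, b, hbk, hba⟩ := ha
  subst hba
  have hcl : IsClosed (Gam : Set P2) := h6.2.2.2.2.1
  have hdo : IsOpen {e : E | e.1 ∉ Gam} := by
    have : IsClosed {e : E | e.1 ∈ (Gam : Set P2)} := hcl.preimage continuous_fst
    exact this.isOpen_compl
  have hq : Continuous (Quotient.mk r) := continuous_quot_mk
  have hO : IsOpen (Quotient.mk r ⁻¹' U) := hU.preimage hq
  let O' : Set (A.U k) := Subtype.val ⁻¹' (Quotient.mk r ⁻¹' U)
  have hO' : IsOpen O' := hO.preimage continuous_subtype_val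
  have hmap := (A.cov k).isOpenMap O' hO'
  have himg : IsOpen (Subtype.val '' ((A.maps k).restrict (A.c k) (A.U k) {e : E | e.1 ∉ Gam} '' O') : Set E) :=
    hdo.isOpenMap_subtype_val _ hmap
  have hmem : A.c k b ∈ (Subtype.val '' ((A.maps k).restrict (A.c k) (A.U k) {e : E | e.1 ∉ Gam} '' O') : Set E) :=
    ⟨_, ⟨⟨b, hbk⟩, haU, rfl⟩, rfl⟩
  -- the line x ↦ ((x, y0), t0)
  let f : ℝ → E := fun x => ((x, (A.c k b).1.2), (A.c k b).2)
  have hf : Continuous f := by fun_prop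
  have hW : IsOpen (f ⁻¹' (Subtype.val '' ((A.maps k).restrict (A.c k) (A.U k) {e : E | e.1 ∉ Gam} '' O') : Set E)) :=
    himg.preimage hf
  obtain ⟨x, hx, m, hm, hmx⟩ := XAP7.dense_x.inter_open_nonempty _ hW ⟨(A.c k b).1.1, hmem⟩
  obtain ⟨_, ⟨⟨b', hb'k⟩, hb'O, rfl⟩, hb'⟩ := hx
  refine ⟨Quotient.mk r b', hb'O, k, b', hb'k, rfl, m, hm, ?_⟩
  have : A.c k b' = f x := hb'
  rw [this, hmx]

end Pool.Agent.Work.MP_0d206b_gt

end

end

/-! ### L.I_GL3 -/

section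

/-!
# MP_0d206b_gt, item GL3: a lift over an open set is an open map
-/

open Set Filter Topology
open scoped ContDiff

noncomputable section

namespace Pool.Agent.Work.MP_0d206b_gt

theorem I_GL3 : GL3 := by
  intro ι dom glue N _ C i Y s hYo hYd hs O hOY hO
  let p := (C.maps i).restrict (C.c i) (C.U i) (dom i)
  have hp : IsLocalHomeomorph p := (C.cov i).isLocalHomeomorph
  let s' : Y → C.U i := fun e => ⟨s e.1, hs.mem e.1 e.2⟩
  have hs'c : Continuous s' :=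
    Continuous.subtype_mk (continuousOn_iff_continuous_domRestrict.1 hs.cont) _
  have hcomp : p ∘ s' = Set.inclusion hYd := by
    funext e
    exact Subtype.ext (hs.eq e.1 e.2)
  have hincl : IsOpenEmbedding (Set.inclusion hYd) := by
    refine ⟨Topology.IsEmbedding.inclusion hYd, ?_⟩
    rw [Set.range_inclusion hYd]
    exact hYo.preimage continuous_subtype_val
  have hloc : IsLocalHomeomorph s' := by
    have h0 : IsLocalHomeomorph (p ∘ s') := by
      rw [hcomp]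
      exact hincl.isLocalHomeomorph
    exact h0.of_comp hp hs'c
  have h1 : IsOpen (s' '' (Subtype.val ⁻¹' O)) :=
    hloc.isOpenMap _ (hO.preimage continuous_subtype_val)
  have h2 : IsOpen ((Subtype.val : C.U i → N) '' (s' '' (Subtype.val ⁻¹' O))) :=
    (C.isOpen_U i).isOpenMap_subtype_val _ h1
  have h3 : s '' O = (Subtype.val : C.U i → N) '' (s' '' (Subtype.val ⁻¹' O)) := by
    ext b
    constructor
    · rintro ⟨e, he, rfl⟩
      exact ⟨s' ⟨e, hOY he⟩, ⟨⟨e, hOY he⟩, he, rfl⟩, rfl⟩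
    · rintro ⟨_, ⟨e, he, rfl⟩, rfl⟩
      exact ⟨e.1, he, rfl⟩
  rw [h3]
  exact h2

end Pool.Agent.Work.MP_0d206b_gt

end

end

/-! ### L.I_LA15 -/

section

/-! Item LA15: the quotient map of the stable leaf space of flow a is open. -/

open Set Filter Topology
open scoped ContDiff

noncomputable section

namespace Pool.Agent.Work.MP_0d206b_gt

theorem I_LA15 (h1 : AP10) (h2 : LA1) (h3 : LA13) (h4 : LA15b) (h5 : LA15c) : LA15 := by
  intro D N _ _ C O hO
  have hq : IsOpen (Quotient.mk (leafSetoid C (esA D)) '' O) ↔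
      IsOpen (Quotient.mk (leafSetoid C (esA D)) ⁻¹' (Quotient.mk (leafSetoid C (esA D)) '' O)) :=
    isOpen_coinduced
  rw [hq, isOpen_iff_mem_nhds]
  intro b' hb'
  obtain ⟨b, hbO, hbb⟩ := hb'
  have hr : (leafSetoid C (esA D)) b b' := Quotient.exact hbb
  have hn : O ∈ 𝓝 b := hO.mem_nhds hbO
  have key : ∀ᶠ b'' in 𝓝 b', ∃ b₁ ∈ O, (leafSetoid C (esA D)) b₁ b'' := by
    rcases h2 D N C b with ⟨s, hs⟩ | ⟨m, hm, hm0⟩ | ⟨hR, hL⟩
    · obtain ⟨A, hU, _⟩ := h3 D N C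
      exact h1 N (leafSetoid C (esA D)) Bool A s b b' (by rw [hU]; exact hs) hr O hn
    · exact h4 D N C m b b' hm hm0 hr O hn
    · exact h5 D N C b b' hR hL hr O hn
  filter_upwards [key] with b'' hb''
  obtain ⟨b₁, hb₁, hr₁⟩ := hb''
  exact ⟨b₁, hb₁, Quotient.sound hr₁⟩

end Pool.Agent.Work.MP_0d206b_gt

end

end

/-! ### L.I_LA6 -/

section

/-!
# MP_0d206b_gt, item LA6
-/

open Set Filter Topology
open scoped ContDiff

noncomputable section

namespace Pool.Agent.Work.MP_0d206b_gt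

theorem XLA6.comp {f : ℝ → E} {d : E} {t : ℝ} (h : HasDerivAt f d t) :
    HasDerivAt (fun u => (f u).1.1) d.1.1 t ∧ HasDerivAt (fun u => (f u).1.2) d.1.2 t := by
  have h1 : HasDerivAt (fun u => (f u).1) d.1 t := h.fst
  exact ⟨h1.fst, h1.snd⟩

theorem XLA6.mem {ι : Type} {w : ι → E → E} {i : ι} {e d : E} (h : d ∈ plane w i e) :
    ∃ a : ℝ, d.1.1 = a * (w i e).1.1 ∧ d.1.2 = a * (w i e).1.2 := by
  unfold plane at h
  obtain ⟨a, b, hab⟩ := Submodule.mem_span_pair.1 h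
  refine ⟨a, ?_, ?_⟩
  · rw [← hab]
    simp
  · rw [← hab]
    simp

theorem I_LA6 : LA6 := by
  intro D N _ C γ hγ t
  have key : ∀ i, γ t ∈ C.U i → ∃ a : ℝ,
      HasDerivAt (fun u => (C.c i (γ u)).1.1) (a * (esA D i (C.c i (γ t))).1.1) t ∧
      HasDerivAt (fun u => (C.c i (γ u)).1.2) (a * (esA D i (C.c i (γ t))).1.2) t := by
    intro i hi
    have h1 : HasDerivAt (C.c i ∘ γ) (deriv (C.c i ∘ γ) t) t :=
      ((hγ.smooth t i hi).differentiableAt (by norm_num)).hasDerivAt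
    obtain ⟨a, ha1, ha2⟩ := XLA6.mem (hγ.tang t i hi)
    have h2 := XLA6.comp h1
    rw [ha1, ha2] at h2
    exact ⟨a, h2.1, h2.2⟩
  refine ⟨fun s hs => ?_, fun m hm => ?_, fun hR => ?_⟩
  · obtain ⟨a, h1, -⟩ := key _ hs
    have e : (esA D (.A s) (C.c (.A s) (γ t))).1.1 = 0 := rfl
    rw [e, mul_zero] at h1
    exact h1
  · obtain ⟨a, h1, -⟩ := key _ hm
    have e : (esA D (.g m) (C.c (.g m) (γ t))).1.1 = 0 := rfl
    rw [e, mul_zero] at h1
    exact h1
  · obtain ⟨a, h1, h2⟩ := key _ hR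
    have e1 : (esA D .R (C.c .R (γ t))).1.1 = 1 := rfl
    have e2 : (esA D .R (C.c .R (γ t))).1.2 = D.sigma (C.c .R (γ t)).1 := rfl
    rw [e1, mul_one] at h1
    rw [e2, mul_comm] at h2
    exact ⟨a, h1, h2⟩

end Pool.Agent.Work.MP_0d206b_gt

end

end

/-! ### L.I_LF -/

section

/-!
# MP_0d206b_gt, module L, item LF: leaves are preconnected
-/

open Set Filter Topology
open scoped ContDiff

noncomputable section

namespace Pool.Agent.Work.MP_0d206b_gt

namespace XLF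

variable {ι : Type} {dom : ι → Set E} {glue : ι → E → ι → E → Prop} {N : Type} [TopologicalSpace N]

theorem reparam (C : CoverData dom glue N) (w : ι → E → E) {γ : ℝ → N} (h : IsArc C w γ) (t : ℝ) :
    IsArc C w (fun u => γ (t * u)) where
  cont := h.cont.comp (continuous_const.mul continuous_id)
  smooth := by
    intro u i hu
    have h1 : ContDiffAt ℝ 1 (fun v : ℝ => t * v) u := contDiffAt_const.mul contDiffAt_id
    have h2 := (h.smooth (t * u) i hu).comp (f := fun v : ℝ => t * v) u h1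
    exact h2
  tang := by
    intro u i hu
    have h1 : deriv (C.c i ∘ fun v => γ (t * v)) u = t • deriv (C.c i ∘ γ) (t * u) :=
      deriv_comp_mul_left t (C.c i ∘ γ) u
    rw [h1]
    exact Submodule.smul_mem _ t (h.tang (t * u) i hu)

theorem arc_rel (C : CoverData dom glue N) (w : ι → E → E) {γ : ℝ → N} (h : IsArc C w γ) (t : ℝ) :
    (leafSetoid C w) (γ 0) (γ t) := by
  refine Relation.EqvGen.rel _ _ ⟨fun u => γ (t * u), reparam C w h t, ?_, ?_⟩
  · simp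
  · simp

theorem joined (C : CoverData dom glue N) (w : ι → E → E) {a b : N}
    (h : (leafSetoid C w) a b) :
    ∃ K : Set N, IsPreconnected K ∧ a ∈ K ∧ b ∈ K ∧ ∀ c ∈ K, (leafSetoid C w) a c := by
  have h' : Relation.EqvGen (fun a b => ∃ γ, IsArc C w γ ∧ γ 0 = a ∧ γ 1 = b) a b := h
  induction h' with
  | rel x y hxy =>
    obtain ⟨γ, hγ, h0, h1⟩ := hxy
    refine ⟨range γ, ?_, ⟨0, h0⟩, ⟨1, h1⟩, ?_⟩
    · exact isPreconnected_range hγ.cont
    · rintro c ⟨t, rfl⟩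
      rw [← h0]
      exact arc_rel C w hγ t
  | refl x =>
    refine ⟨{x}, isPreconnected_singleton, rfl, rfl, ?_⟩
    intro c hc
    have hcx : c = x := mem_singleton_iff.mp hc
    subst hcx
    exact (leafSetoid C w).refl c
  | symm x y hxy ih =>
    obtain ⟨K, hK, hx, hy, hc⟩ := ih hxy
    refine ⟨K, hK, hy, hx, ?_⟩
    intro c hcK
    exact (leafSetoid C w).trans ((leafSetoid C w).symm (hc y hy)) (hc c hcK)
  | trans x y z hxy hyz ih1 ih2 =>
    obtain ⟨K, hK, hx, hy, hc⟩ := ih1 hxy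
    obtain ⟨K', hK', hy', hz', hc'⟩ := ih2 hyz
    refine ⟨K ∪ K', IsPreconnected.union y hy hy' hK hK', Or.inl hx, Or.inr hz', ?_⟩
    rintro c (hcK | hcK)
    · exact hc c hcK
    · exact (leafSetoid C w).trans (hc y hy) (hc' c hcK)

end XLF

theorem I_LF : LF := by
  intro ι dom glue N _ C w
  refine ⟨fun γ hγ t => XLF.arc_rel C w hγ t, fun b => ?_⟩
  refine isPreconnected_of_forall b ?_
  intro y hy
  obtain ⟨K, hK, hb, hyK, hc⟩ := XLF.joined C w hy
  exact ⟨K, fun c hcK => hc c hcK, hb, hyK, hK⟩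

end Pool.Agent.Work.MP_0d206b_gt

end

end

/-! ### L.I_LU2 -/

section

/-! # MP_0d206b_gt, module L: LU2, three non separated unstable leaves of flow a -/

set_option autoImplicit false

open Set Filter Topology
open scoped ContDiff

noncomputable section

namespace Pool.Agent.Work.MP_0d206b_gt

namespace XLU2

theorem norm_of_nsq {r : ℝ} (hr : 0 < r) {v : P2} (h : nsq v < (2 * r) ^ 2) : ‖v‖ < 2 * r := by
  have h1 : |v.1| < 2 * r := by
    refine abs_lt_of_sq_lt_sq ?_ (by positivity)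
    unfold nsq at h
    nlinarith [sq_nonneg v.2]
  have h2 : |v.2| < 2 * r := by
    refine abs_lt_of_sq_lt_sq ?_ (by positivity)
    unfold nsq at h
    nlinarith [sq_nonneg v.1]
  exact max_lt h1 h2

/-- the slit disc -/
def K (r : ℝ) : Set E := {e | nsq (e.1 - 0) < (2 * r) ^ 2 ∧ ¬ ((e.1 - 0).2 = 0 ∧ 1 * (e.1 - 0).1 ≤ 0)}

theorem mem_K {r : ℝ} {e : E} : e ∈ K r ↔ (e.1.1 ^ 2 + e.1.2 ^ 2 < (2 * r) ^ 2 ∧
    ¬ (e.1.2 = 0 ∧ e.1.1 ≤ 0)) := by
  simp only [K, mem_setOf_eq, sub_zero, one_mul, nsq]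

theorem K_dom (h1 : PG1) {r : ℝ} (hr : 0 < r) (hr1 : 2 * r < 1) : K r ⊆ domA .R := by
  intro e he hG
  rw [mem_K] at he
  have hne : e.1 ≠ 0 := by
    intro h0
    apply he.2
    rw [h0]
    simp
  have h2 := h1.2.2.2.1 e.1 hG 0 Gam.zero_mem hne
  rw [dist_zero_right] at h2
  have h3 := norm_of_nsq hr (v := e.1) he.1
  linarith

end XLU2

open XLU2 in
theorem I_LU2 (h1 : PG1) (h2 : PL1) (h3 : SA) (h4 : GL1) (h5 : GL2) (h6 : GS1) (h7 : GS3) (h8 : AR3)
    (h9 : AR4) (h10 : CPAu) (h11 : LA2) (h12 : LA3) (h13 : LU1) (h14 : NSl) (h15 : AP0) : LU2 := by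
  intro D N _ _ C
  obtain ⟨r0, hr0, hnear⟩ := D.Psi_near
  -- the radius
  obtain ⟨r, hr, hr1, hr2⟩ : ∃ r : ℝ, 0 < r ∧ 2 * r < 1 ∧ 2 * r < r0 := by
    refine ⟨min (1 / 4) (r0 / 4), by positivity, ?_, ?_⟩
    · linarith [min_le_left (1 / 4) (r0 / 4)]
    · linarith [min_le_right (1 / 4) (r0 / 4)]
  have hKdom := K_dom h1 hr hr1
  -- the lift over the slit disc
  have hKr : (((r, 0), 0) : E) ∈ K r := by
    rw [mem_K]
    refine ⟨?_, ?_⟩
    · show r ^ 2 + 0 ^ 2 < (2 * r) ^ 2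
      nlinarith
    · rintro ⟨_, h⟩
      exact absurd (show r ≤ 0 from h) (by linarith)
  obtain ⟨b0, hb0, hcb0⟩ := h3 D N C ((r, 0), 0) (hKdom hKr)
  obtain ⟨hK1, hK2⟩ := h7 1 r (Or.inl rfl) hr 0
  obtain ⟨s, hs, hsb⟩ := h4 IdxA domA (glueA D) N C .R (K r) hKdom hK1 hK2 b0 hb0
    (by rw [hcb0]; exact hKr)
  rw [hcb0] at hsb
  -- points of the axis
  have hax : ∀ x ∈ Ioo (0 : ℝ) (2 * r), (((x, 0), 0) : E) ∈ K r := by
    intro x hx
    rw [mem_K]
    refine ⟨?_, ?_⟩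
    · show x ^ 2 + 0 ^ 2 < (2 * r) ^ 2
      nlinarith [hx.1, hx.2]
    · rintro ⟨_, h⟩
      exact absurd (show x ≤ 0 from h) (by linarith [hx.1])
  have hG0 : (0 : P2) ∈ Gam := Gam.zero_mem
  have haxg : ∀ x ∈ Ioo (0 : ℝ) (2 * r), s ((x, 0), 0) ∈ C.U (.g ⟨0, hG0⟩) ∧
      C.c (.g ⟨0, hG0⟩) (s ((x, 0), 0)) = ((0, 2 * x), 0) := by
    intro x hx
    have hmem := hs.mem _ (hax x hx)
    have heq := hs.eq _ (hax x hx)
    have hPsi : D.Psi (x, 0) = (x, 0) := by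
      apply hnear
      refine max_lt ?_ ?_
      · show |x| < r0
        rw [abs_of_pos hx.1]; linarith [hx.2]
      · show |(0 : ℝ)| < r0
        rw [abs_zero]; exact hr0
    have h := (h12 D N C (s ((x, 0), 0)) 0 hG0 (x, 0) hmem (by rw [heq, hPsi, zero_add])).2
      (by simp only [abs_zero]; exact abs_pos.2 hx.1.ne')
    refine ⟨h.1, ?_⟩
    rw [h.2, heq]
    simp
  -- the lift over the saddle piece
  obtain ⟨hU1, hU2⟩ := h6 univ convex_univ univ_nonempty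
  have hrr : r ∈ Ioo (0 : ℝ) (2 * r) := ⟨hr, by linarith⟩
  obtain ⟨f, hf, hfb⟩ := h4 IdxA domA (glueA D) N C (.g ⟨0, hG0⟩) univ (fun _ _ => trivial) hU1 hU2
    (s ((r, 0), 0)) (haxg r hrr).1 (mem_univ _)
  rw [(haxg r hrr).2] at hfb
  -- comparison of the two lifts
  have hcomp : ∀ x ∈ Ioo (0 : ℝ) (2 * r), f ((0, 2 * x), 0) = s ((x, 0), 0) := by
    set L : Set E := {e | e.1.1 = 0 ∧ e.2 = 0 ∧ 0 < e.1.2 ∧ e.1.2 < 4 * r} with hL
    have hconv : Convex ℝ L := by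
      rintro a ⟨ha1, ha2, ha3, ha4⟩ b ⟨hb1, hb2, hb3, hb4⟩ p q hp hq hpq
      refine ⟨?_, ?_, ?_, ?_⟩
      · show p * a.1.1 + q * b.1.1 = 0
        rw [ha1, hb1]; ring
      · show p * a.2 + q * b.2 = 0
        rw [ha2, hb2]; ring
      · show 0 < p * a.1.2 + q * b.1.2
        rcases hp.eq_or_lt with h | h
        · have : q = 1 := by linarith
          rw [← h, this]; linarith
        · have h2 := mul_pos h ha3
          have h3 := mul_nonneg hq hb3.le
          linarith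
      · show p * a.1.2 + q * b.1.2 < 4 * r
        rcases hp.eq_or_lt with h | h
        · have : q = 1 := by linarith
          rw [← h, this]; linarith
        · have h2 := mul_lt_mul_of_pos_left ha4 h
          have h3 := mul_le_mul_of_nonneg_left hb4.le hq
          have h4 : p * (4 * r) + q * (4 * r) = 4 * r := by rw [← add_mul, hpq, one_mul]
          linarith
    have hlift1 : IsLift C (.g ⟨0, hG0⟩) L f :=
      ⟨hf.cont.mono (subset_univ _), fun e _ => hf.mem e (mem_univ _), fun e _ => hf.eq e (mem_univ _)⟩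
    have hLx : ∀ e ∈ L, e.1.2 / 2 ∈ Ioo (0 : ℝ) (2 * r) := by
      rintro e ⟨_, _, h3, h4⟩
      exact ⟨by linarith, by linarith⟩
    have hlift2 : IsLift C (.g ⟨0, hG0⟩) L (fun e => s ((e.1.2 / 2, 0), 0)) := by
      refine ⟨?_, ?_, ?_⟩
      · refine hs.cont.comp (by fun_prop) ?_
        intro e he
        exact hax _ (hLx e he)
      · intro e he
        exact (haxg _ (hLx e he)).1
      · intro e he
        rw [(haxg _ (hLx e he)).2]
        refine Prod.ext (Prod.ext he.1.symm ?_) he.2.1.symm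
        show 2 * (e.1.2 / 2) = e.1.2
        ring
    have hr' : (((0, 2 * r), 0) : E) ∈ L := ⟨rfl, rfl, by positivity, by
      show 2 * r < 4 * r
      linarith⟩
    have hEq := h5 IdxA domA (glueA D) N C (.g ⟨0, hG0⟩) L f (fun e => s ((e.1.2 / 2, 0), 0))
      hconv.isPreconnected (fun _ _ => trivial) hlift1 hlift2 ((0, 2 * r), 0) hr' (by
        rw [hfb]
        show s ((r, 0), 0) = s ((2 * r / 2, 0), 0)
        rw [mul_div_cancel_left₀ r two_ne_zero])
    intro x hx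
    have hx' : (((0, 2 * x), 0) : E) ∈ L := ⟨rfl, rfl, by
      show 0 < 2 * x
      linarith [hx.1], by
      show 2 * x < 4 * r
      linarith [hx.2]⟩
    rw [hEq hx']
    show s ((2 * x / 2, 0), 0) = s ((x, 0), 0)
    rw [mul_div_cancel_left₀ x two_ne_zero]
  -- the three leaves
  have hmemσ : ∀ σ : ℝ, (σ = 1 ∨ σ = -1) → ∀ x t : ℝ, 0 ≤ x → x < r → (0 < x ∨ t ≠ 0) → |t| ≤ 1 →
      (((x, t * (σ * r)), 0) : E) ∈ K r := by
    intro σ hσ x t hx hxr hxt ht
    have hσ2 : σ ^ 2 = 1 := by rcases hσ with h | h <;> rw [h] <;> norm_num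
    have hσ0 : σ ≠ 0 := by rcases hσ with h | h <;> rw [h] <;> norm_num
    rw [mem_K]
    have ht2 : t ^ 2 ≤ 1 := by
      rw [← sq_abs]
      exact pow_le_one₀ (abs_nonneg t) ht
    refine ⟨?_, ?_⟩
    · show x ^ 2 + (t * (σ * r)) ^ 2 < (2 * r) ^ 2
      have : (t * (σ * r)) ^ 2 = t ^ 2 * r ^ 2 := by
        calc (t * (σ * r)) ^ 2 = t ^ 2 * σ ^ 2 * r ^ 2 := by ring
          _ = t ^ 2 * r ^ 2 := by rw [hσ2, mul_one]
      rw [this]
      have h3 : t ^ 2 * r ^ 2 ≤ r ^ 2 := by nlinarith [sq_nonneg r]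
      nlinarith
    · rintro ⟨h3, h4⟩
      have h3' : t * (σ * r) = 0 := h3
      have h4' : x ≤ 0 := h4
      rcases hxt with h5 | h5
      · linarith
      · exact h5 (by
          rcases mul_eq_zero.1 h3' with h | h
          · exact h
          · exact absurd h (mul_ne_zero hσ0 hr.ne'))
  have hcq : Continuous (fun b : N => Quotient.mk (leafSetoid C (euA D)) b) := continuous_quot_mk
  have hrσ : ∀ σ : ℝ, (σ = 1 ∨ σ = -1) →
      Tendsto (fun x : ℝ => Quotient.mk (leafSetoid C (euA D)) (s ((x, 0), 0))) (𝓝[>] 0)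
        (𝓝 (Quotient.mk (leafSetoid C (euA D)) (s ((0, 1 * (σ * r)), 0)))) := by
    intro σ hσ
    have hev : ∀ᶠ x in 𝓝[>] (0 : ℝ), Quotient.mk (leafSetoid C (euA D)) (s ((x, 0), 0)) =
        Quotient.mk (leafSetoid C (euA D)) (s ((x, 1 * (σ * r)), 0)) := by
      filter_upwards [Ioo_mem_nhdsGT hr] with x hx
      apply Quotient.sound
      refine h8 IdxA domA (glueA D) N C (euA D) (h10 D) .R (K r) s hKdom hs _ _ ?_ ?_
      · rw [segment_eq_image]
        rintro _ ⟨t, ht, rfl⟩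
        have h3 : (1 - t) • (((x, 0), 0) : E) + t • (((x, 1 * (σ * r)), 0) : E) =
            ((x, t * (σ * r)), 0) := by
          refine Prod.ext (Prod.ext ?_ ?_) ?_
          · show (1 - t) * x + t * x = x
            ring
          · show (1 - t) * 0 + t * (1 * (σ * r)) = t * (σ * r)
            ring
          · show (1 - t) * 0 + t * 0 = (0 : ℝ)
            ring
        simp only
        rw [h3]
        exact hmemσ σ hσ x t hx.1.le hx.2 (Or.inl hx.1) (by rw [abs_of_nonneg ht.1]; exact ht.2)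
      · intro p _
        have h3 : (((x, 1 * (σ * r)), 0) : E) - ((x, 0), 0) = (σ * r) • (((0, 1), 0) : E) := by
          refine Prod.ext (Prod.ext ?_ ?_) ?_
          · show x - x = (σ * r) * 0
            ring
          · show 1 * (σ * r) - 0 = (σ * r) * 1
            ring
          · show (0 : ℝ) - 0 = (σ * r) * 0
            ring
        rw [h3]
        exact Submodule.smul_mem _ _ (Submodule.subset_span (by simp [euA]))
    refine Tendsto.congr' (hev.mono fun _ h => h.symm) ?_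
    refine (hcq.tendsto _).comp ?_
    have h3 : (((0, 1 * (σ * r)), 0) : E) ∈ K r := hmemσ σ hσ 0 1 le_rfl hr (Or.inr one_ne_zero)
      (by rw [abs_one])
    refine ((hs.cont _ h3).tendsto).comp ?_
    refine tendsto_nhdsWithin_of_tendsto_nhds_of_eventually_within _ ?_ ?_
    · have h4 : Continuous (fun x : ℝ => (((x, 1 * (σ * r)), 0) : E)) := by fun_prop
      exact (h4.tendsto 0).mono_left nhdsWithin_le_nhds
    · filter_upwards [Ioo_mem_nhdsGT hr] with x hx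
      exact hmemσ σ hσ x 1 hx.1.le hx.2 (Or.inl hx.1) (by rw [abs_one])
  have hr3 : Tendsto (fun x : ℝ => Quotient.mk (leafSetoid C (euA D)) (s ((x, 0), 0))) (𝓝[>] 0)
        (𝓝 (Quotient.mk (leafSetoid C (euA D)) (f ((0, 0), 0)))) := by
    have hev : ∀ᶠ x in 𝓝[>] (0 : ℝ), Quotient.mk (leafSetoid C (euA D)) (f ((0, 2 * x), 0)) =
        Quotient.mk (leafSetoid C (euA D)) (s ((x, 0), 0)) := by
      filter_upwards [Ioo_mem_nhdsGT (show (0 : ℝ) < 2 * r by positivity)] with x hx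
      rw [hcomp x hx]
    refine Tendsto.congr' hev ?_
    refine (hcq.tendsto _).comp ?_
    have hfc : Continuous f := continuousOn_univ.1 hf.cont
    have h4 : Continuous (fun x : ℝ => f ((0, 2 * x), 0)) := hfc.comp (by fun_prop)
    have h5 := (h4.tendsto 0).mono_left (nhdsWithin_le_nhds (s := Ioi 0))
    simpa using h5
  have ht1 := hrσ 1 (Or.inl rfl)
  have ht2 := hrσ (-1) (Or.inr rfl)
  -- the points
  have hk1 : (((0, 1 * (1 * r)), 0) : E) ∈ K r := hmemσ 1 (Or.inl rfl) 0 1 le_rfl hr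
    (Or.inr one_ne_zero) (by rw [abs_one])
  have hk2 : (((0, 1 * (-1 * r)), 0) : E) ∈ K r := hmemσ (-1) (Or.inr rfl) 0 1 le_rfl hr
    (Or.inr one_ne_zero) (by rw [abs_one])
  -- b3 is not in the repeller piece
  have hb3 : f ((0, 0), 0) ∉ C.U .R := by
    intro hmem
    have h := (h11 D N C (f ((0, 0), 0))).2.2.2.2 ⟨0, hG0⟩ hmem (hf.mem _ (mem_univ _))
    rw [hf.eq _ (mem_univ _)] at h
    exact h rfl
  -- invariance of the repeller piece and of the component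
  have hinvR : ∀ b b', (leafSetoid C (euA D)) b b' → b ∈ C.U .R → b' ∈ C.U .R := by
    intro b b' hbb hb
    refine (h9 IdxA domA (glueA D) N C (euA D) (fun b => b ∈ C.U .R) ?_ ?_ b b' hbb).1 hb
    · intro γ hγ h0
      exact (h13 D N C γ hγ 0 h0 1).1
    · intro γ hγ h0
      exact (h13 D N C γ hγ 1 h0 0).1
  have hinvI : ∀ z : P2, ∀ b b', (leafSetoid C (euA D)) b b' → b ∈ C.U .R ∧ (C.c .R b).1 ∈ IA z →
      b' ∈ C.U .R ∧ (C.c .R b').1 ∈ IA z := by
    intro z b b' hbb hb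
    refine (h9 IdxA domA (glueA D) N C (euA D) (fun b => b ∈ C.U .R ∧ (C.c .R b).1 ∈ IA z)
      ?_ ?_ b b' hbb).1 hb
    · rintro γ hγ ⟨h0, h0'⟩
      have h := h13 D N C γ hγ 0 h0 1
      refine ⟨h.1, ?_⟩
      rw [← (h15.2.2.1 _ _ h0').2]
      exact h.2
    · rintro γ hγ ⟨h0, h0'⟩
      have h := h13 D N C γ hγ 1 h0 0
      refine ⟨h.1, ?_⟩
      rw [← (h15.2.2.1 _ _ h0').2]
      exact h.2
  have hne12 : Quotient.mk (leafSetoid C (euA D)) (s ((0, 1 * (1 * r)), 0)) ≠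
      Quotient.mk (leafSetoid C (euA D)) (s ((0, 1 * (-1 * r)), 0)) := by
    intro heq
    have hrel := Quotient.exact heq
    have h := hinvI (0, 1 * (1 * r)) _ _ hrel ⟨hs.mem _ hk1, by
      rw [hs.eq _ hk1]
      exact h15.2.1 _ (hKdom hk1)⟩
    rw [hs.eq _ hk2] at h
    refine h.2.2 0 ?_ hG0
    show (0 : ℝ) ∈ uIcc (1 * (1 * r)) (1 * (-1 * r))
    rw [mem_uIcc]
    right
    constructor <;> linarith
  have hne13 : Quotient.mk (leafSetoid C (euA D)) (s ((0, 1 * (1 * r)), 0)) ≠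
      Quotient.mk (leafSetoid C (euA D)) (f ((0, 0), 0)) := by
    intro heq
    exact hb3 (hinvR _ _ (Quotient.exact heq) (hs.mem _ hk1))
  have hne23 : Quotient.mk (leafSetoid C (euA D)) (s ((0, 1 * (-1 * r)), 0)) ≠
      Quotient.mk (leafSetoid C (euA D)) (f ((0, 0), 0)) := by
    intro heq
    exact hb3 (hinvR _ _ (Quotient.exact heq) (hs.mem _ hk2))
  exact ⟨_, _, _, h14 _ _ _ _ hne12 ht1 ht2, h14 _ _ _ _ hne23 ht2 hr3, h14 _ _ _ _ hne13 ht1 hr3⟩

end Pool.Agent.Work.MP_0d206b_gt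

end

end

/-! ### L.I_NSh -/

section

/-!
# MP_0d206b_gt, item NSh: a one-sided germ of the first line is a one-sided germ of the second line
-/

open Set Filter Topology
open scoped ContDiff

noncomputable section

namespace Pool.Agent.Work.MP_0d206b_gt

namespace XNSh

/-- an increasing homeomorphism of the line onto an interval -/
theorem exists_homeo (ε : ℝ) (hε : 0 < ε) : ∃ H : ℝ ≃ₜ Ioo (-ε) ε,
    ((H 0 : Ioo (-ε) ε) : ℝ) = 0 ∧ StrictMono (fun t => ((H t : Ioo (-ε) ε) : ℝ)) := by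
  let g : Ioo (-1 : ℝ) 1 ≃o Ioo (-ε) ε :=
    { toFun := fun t => ⟨ε * t, by
        have h1 := t.2.1
        have h2 := t.2.2
        constructor <;> nlinarith⟩
      invFun := fun t => ⟨t / ε, by
        have h1 := t.2.1
        have h2 := t.2.2
        constructor
        · rw [lt_div_iff₀ hε]; linarith
        · rw [div_lt_iff₀ hε]; linarith⟩
      left_inv := fun t => by
        ext
        show ε * t / ε = t
        field_simp
      right_inv := fun t => by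
        ext
        show ε * (t / ε) = t
        field_simp
      map_rel_iff' := by
        intro a b
        show ε * a ≤ ε * b ↔ a ≤ b
        rw [mul_le_mul_iff_right₀ hε]
        rfl }
  let h := (orderIsoIooNegOneOne ℝ).trans g
  refine ⟨h.toHomeomorph, ?_, ?_⟩
  · show ε * ((orderIsoIooNegOneOne ℝ 0 : Ioo (-1 : ℝ) 1) : ℝ) = 0
    have : ((orderIsoIooNegOneOne ℝ 0 : Ioo (-1 : ℝ) 1) : ℝ) = 0 := by
      simp [orderIsoIooNegOneOne]
    rw [this, mul_zero]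
  · intro a b hab
    exact h.strictMono hab

variable {X : Type} [TopologicalSpace X]

/-- a point which is not separated from `f 0` is not on the line `f` -/
theorem ne_of_NS {ε : ℝ} (hε : 0 < ε) {f : ℝ → X}
    (hf : IsOpenEmbedding (fun t : Ioo (-ε) ε => f t)) {w : X} (h : NS (f 0) w) :
    ∀ s ∈ Ioo (-ε) ε, f s ≠ w := by
  intro s hs hsw
  have h0 : (0 : ℝ) ∈ Ioo (-ε) ε := ⟨by linarith, hε⟩
  have hs0 : s ≠ 0 := by
    rintro rfl
    exact h.1 hsw
  have hpos : 0 < |s| := abs_pos.2 hs0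
  have hc : Continuous (fun t : Ioo (-ε) ε => |(t : ℝ)|) := continuous_subtype_val.abs
  have ho1 : IsOpen ((fun t : Ioo (-ε) ε => f t) '' {t : Ioo (-ε) ε | |(t : ℝ)| < |s| / 2}) :=
    hf.isOpenMap _ (isOpen_lt hc continuous_const)
  have ho2 : IsOpen ((fun t : Ioo (-ε) ε => f t) '' {t : Ioo (-ε) ε | |s| / 2 < |(t : ℝ)|}) :=
    hf.isOpenMap _ (isOpen_lt continuous_const hc)
  obtain ⟨x, ⟨t, ht, hx⟩, ⟨t', ht', hx'⟩⟩ := h.2 _ _ ho1 ho2
    ⟨⟨0, h0⟩, by show |(0 : ℝ)| < |s| / 2; rw [abs_zero]; linarith, rfl⟩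
    ⟨⟨s, hs⟩, by show |s| / 2 < |s|; linarith, hsw⟩
  have htt : t = t' := hf.injective (hx.trans hx'.symm)
  have h1 : |(t : ℝ)| < |s| / 2 := ht
  have h2 : |s| / 2 < |(t' : ℝ)| := ht'
  rw [htt] at h1
  linarith

/-- the interval lemma for a local line -/
theorem zero_mem (h1 : U03) (hX : IsSC1 X) {ε : ℝ} (hε : 0 < ε) {g : ℝ → X}
    (hg : IsOpenEmbedding (fun t : Ioo (-ε) ε => g t)) {Ω : Set X} (hΩ : IsPreconnected Ω)
    {a b : ℝ} (ha : a ∈ Ioo (-ε) ε) (hb : b ∈ Ioo (-ε) ε) (hga : g a ∈ Ω) (hgb : g b ∈ Ω)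
    (ha0 : a ≤ 0) (hb0 : 0 ≤ b) : g 0 ∈ Ω := by
  obtain ⟨H, H0, Hm⟩ := exists_homeo ε hε
  have hG : IsOpenEmbedding (fun t : ℝ => g ((H t : Ioo (-ε) ε) : ℝ)) :=
    hg.comp H.isOpenEmbedding
  have hoc := h1 X hX Ω hΩ _ hG
  have ea : ((H (H.symm ⟨a, ha⟩) : Ioo (-ε) ε) : ℝ) = a := by rw [H.apply_symm_apply]
  have eb : ((H (H.symm ⟨b, hb⟩) : Ioo (-ε) ε) : ℝ) = b := by rw [H.apply_symm_apply]
  have h2 : H.symm ⟨a, ha⟩ ∈ (fun t : ℝ => g ((H t : Ioo (-ε) ε) : ℝ)) ⁻¹' Ω := by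
    show g ((H (H.symm ⟨a, ha⟩) : Ioo (-ε) ε) : ℝ) ∈ Ω
    rw [ea]; exact hga
  have h3 : H.symm ⟨b, hb⟩ ∈ (fun t : ℝ => g ((H t : Ioo (-ε) ε) : ℝ)) ⁻¹' Ω := by
    show g ((H (H.symm ⟨b, hb⟩) : Ioo (-ε) ε) : ℝ) ∈ Ω
    rw [eb]; exact hgb
  have h4 : H.symm ⟨a, ha⟩ ≤ 0 := by
    rw [← Hm.le_iff_le]
    show ((H (H.symm ⟨a, ha⟩) : Ioo (-ε) ε) : ℝ) ≤ ((H 0 : Ioo (-ε) ε) : ℝ)
    rw [ea, H0]; exact ha0
  have h5 : 0 ≤ H.symm ⟨b, hb⟩ := by
    rw [← Hm.le_iff_le]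
    show ((H 0 : Ioo (-ε) ε) : ℝ) ≤ ((H (H.symm ⟨b, hb⟩) : Ioo (-ε) ε) : ℝ)
    rw [eb, H0]; exact hb0
  have h6 : (0 : ℝ) ∈ (fun t : ℝ => g ((H t : Ioo (-ε) ε) : ℝ)) ⁻¹' Ω :=
    hoc.out h2 h3 ⟨h4, h5⟩
  have h7 : g ((H 0 : Ioo (-ε) ε) : ℝ) ∈ Ω := h6
  rwa [H0] at h7

theorem sign_mem {ε σ t : ℝ} (hσ : σ = 1 ∨ σ = -1) (ht : 0 < t) (ht' : t < ε) :
    σ * t ∈ Ioo (-ε) ε := by
  rcases hσ with rfl | rfl <;> constructor <;> linarith

/-- the germ on one side -/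
theorem half (h1 : U03) (hX : IsSC1 X) {ε ε' : ℝ} {f g : ℝ → X} (hε : 0 < ε) (hε' : 0 < ε')
    (hf : IsOpenEmbedding (fun t : Ioo (-ε) ε => f t))
    (hg : IsOpenEmbedding (fun t : Ioo (-ε') ε' => g t)) (hNS : NS (f 0) (g 0)) {σ σ' : ℝ}
    (hσ : σ = 1 ∨ σ = -1) (hσ' : σ' = 1 ∨ σ' = -1)
    (hfl : Tendsto (fun t => f (σ * t)) (𝓝[>] 0) (𝓝 (g 0)))
    (hgl : Tendsto (fun t => g (σ' * t)) (𝓝[>] 0) (𝓝 (f 0))) :
    ∀ η > 0, ∃ δ > 0, δ < ε ∧ ∀ t ∈ Ioo 0 δ, ∃ u ∈ Ioo 0 η, f (σ * t) = g (σ' * u) := by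
  intro η hη
  have h0 : (0 : ℝ) ∈ Ioo (-ε) ε := ⟨by linarith, hε⟩
  have h0' : (0 : ℝ) ∈ Ioo (-ε') ε' := ⟨by linarith, hε'⟩
  -- the line `f`
  have hfc : ContinuousOn f (Ioo (-ε) ε) := by
    rw [continuousOn_iff_continuous_domRestrict]
    exact hf.continuous
  have hIc : IsPreconnected (f '' Ioo (-ε) ε) := isPreconnected_Ioo.image f hfc
  have hIo : IsOpen (f '' Ioo (-ε) ε) := by
    have h : f '' Ioo (-ε) ε = range (fun t : Ioo (-ε) ε => f t) := by
      ext x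
      constructor
      · rintro ⟨t, ht, rfl⟩
        exact ⟨⟨t, ht⟩, rfl⟩
      · rintro ⟨t, rfl⟩
        exact ⟨t, t.2, rfl⟩
    rw [h]
    exact hf.isOpen_range
  have hg0 : g 0 ∉ f '' Ioo (-ε) ε := by
    rintro ⟨s, hs, h⟩
    exact ne_of_NS hε hf hNS s hs h
  -- a point of `g` on the side `σ'` which is on the line `f`
  obtain ⟨u₀, hu₀, hu₀', hu₀I⟩ : ∃ u₀ : ℝ, 0 < u₀ ∧ u₀ < ε' ∧ g (σ' * u₀) ∈ f '' Ioo (-ε) ε := by
    have ha : ∀ᶠ u in 𝓝[>] (0 : ℝ), g (σ' * u) ∈ f '' Ioo (-ε) ε :=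
      hgl.eventually (hIo.mem_nhds ⟨0, h0, rfl⟩)
    have hb : ∀ᶠ u in 𝓝[>] (0 : ℝ), u ∈ Ioo 0 ε' := Ioo_mem_nhdsGT hε'
    obtain ⟨u, hu1, hu2⟩ := (ha.and hb).exists
    exact ⟨u, hu2.1, hu2.2, hu1⟩
  -- the neighbourhood of `g 0`
  have hc : Continuous (fun t : Ioo (-ε') ε' => |(t : ℝ)|) := continuous_subtype_val.abs
  have ho : IsOpen ((fun t : Ioo (-ε') ε' => g t) '' {t : Ioo (-ε') ε' | |(t : ℝ)| < η}) :=
    hg.isOpenMap _ (isOpen_lt hc continuous_const)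
  have hev : ∀ᶠ t in 𝓝[>] (0 : ℝ), f (σ * t) ∈
      (fun t : Ioo (-ε') ε' => g t) '' {t : Ioo (-ε') ε' | |(t : ℝ)| < η} :=
    hfl.eventually (ho.mem_nhds ⟨⟨0, h0'⟩, by show |(0 : ℝ)| < η; rw [abs_zero]; exact hη, rfl⟩)
  obtain ⟨δ₀, hδ₀, hsub⟩ := mem_nhdsGT_iff_exists_Ioo_subset.1 hev
  refine ⟨min δ₀ (ε / 2), lt_min hδ₀ (by linarith), (min_le_right _ _).trans_lt (by linarith), ?_⟩
  intro t ht
  obtain ⟨v, hv, hfv⟩ := hsub ⟨ht.1, ht.2.trans_le (min_le_left _ _)⟩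
  have hv' : |(v : ℝ)| < η := hv
  have hfv' : g v = f (σ * t) := hfv
  have hte : t < ε := ht.2.trans_le ((min_le_right _ _).trans (by linarith))
  have hgvI : g v ∈ f '' Ioo (-ε) ε := ⟨σ * t, sign_mem hσ ht.1 hte, hfv'.symm⟩
  have hpos : 0 < σ' * (v : ℝ) := by
    by_contra hneg
    rw [not_lt] at hneg
    apply hg0
    rcases hσ' with rfl | rfl
    · exact zero_mem h1 hX hε' hg hIc v.2 (sign_mem (Or.inl rfl) hu₀ hu₀') hgvI hu₀I
        (by linarith) (by linarith)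
    · exact zero_mem h1 hX hε' hg hIc (sign_mem (Or.inr rfl) hu₀ hu₀') v.2 hu₀I hgvI
        (by linarith) (by linarith)
  have hsq : σ' * (σ' * (v : ℝ)) = v := by
    rcases hσ' with rfl | rfl <;> ring
  refine ⟨σ' * v, ⟨hpos, ?_⟩, ?_⟩
  · rcases hσ' with rfl | rfl
    · rw [one_mul]; exact (le_abs_self _).trans_lt hv'
    · have := neg_abs_le (v : ℝ)
      linarith
  · rw [hsq]; exact hfv'.symm

/-- one side of the line `f` converges to a point which is not separated from `f 0` -/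
theorem exists_side (h2 : U05i) (hX : IsSC1 X) {ε : ℝ} {f : ℝ → X} (hε : 0 < ε)
    (hf : IsOpenEmbedding (fun t : Ioo (-ε) ε => f t)) {w : X} (hNS : NS (f 0) w) :
    ∃ σ : ℝ, (σ = 1 ∨ σ = -1) ∧ Tendsto (fun t => f (σ * t)) (𝓝[>] 0) (𝓝 w) := by
  rcases ((h2 X hX ε f hε hf w hNS.1.symm).1).1 hNS with h | h
  · refine ⟨-1, Or.inr rfl, ?_⟩
    have h3 : Tendsto (fun t : ℝ => (-1) * t) (𝓝[>] 0) (𝓝[<] 0) := by
      have h4 := tendsto_neg_nhdsGT (a := (0 : ℝ))
      rw [neg_zero] at h4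
      refine h4.congr fun t => ?_
      ring
    exact h.comp h3
  · refine ⟨1, Or.inl rfl, ?_⟩
    refine h.congr fun t => ?_
    rw [one_mul]

end XNSh

open XNSh in
theorem I_NSh (h1 : U03) (h2 : U05i) : NSh := by
  intro X _ hX ε ε' f g hε hε' hf hg hNS
  have hNS' : NS (g 0) (f 0) := by
    refine ⟨hNS.1.symm, fun U V hU hV h h' => ?_⟩
    rw [inter_comm]
    exact hNS.2 V U hV hU h' h
  obtain ⟨σ, hσ, hfl⟩ := exists_side h2 hX hε hf hNS
  obtain ⟨σ', hσ', hgl⟩ := exists_side h2 hX hε' hg hNS'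
  refine ⟨σ, σ', hσ, hσ', half h1 hX hε hε' hf hg hNS hσ hσ' hfl hgl, ?_⟩
  intro δ hδ
  obtain ⟨η, hη, hη', h⟩ := half h1 hX hε' hε hg hf hNS' hσ' hσ hgl hfl δ hδ
  refine ⟨η, hη, hη', fun u hu => ?_⟩
  obtain ⟨t, ht, h3⟩ := h u hu
  exact ⟨t, ht, h3.symm⟩

end Pool.Agent.Work.MP_0d206b_gt

end

end

/-! ### L.I_XE -/

section

/-!
# MP_0d206b_gt, item XE: points of one leaf in the repeller piece with the same `x`, `τ` and strip are equal
-/

open Set Filter Topology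
open scoped ContDiff

noncomputable section

namespace Pool.Agent.Work.MP_0d206b_gt

namespace XXE

theorem cont_of_curve {f : P2 → ℝ} {Y : ℝ → ℝ} (hY : IsCurve f univ Y) : Continuous Y :=
  continuous_iff_continuousAt.2 fun x => (hY x (mem_univ x)).continuousAt

/-- graphs (times the flow direction) are simply connected and locally path connected -/
theorem graph_good (h : GS2) {Y : ℝ → ℝ} (hY : Continuous Y) :
    SimplyConnectedSpace (graphE Y) ∧ LocallyPathConnectedSpace (graphE Y) := by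
  have hK : Convex ℝ {e : E | e.1.2 = 0} := by
    intro a ha b hb s t _ _ _
    show s * a.1.2 + t * b.1.2 = 0
    rw [show a.1.2 = 0 from ha, show b.1.2 = 0 from hb]
    ring
  have h0 := h Y hY {e : E | e.1.2 = 0} hK ⟨((0, 0), 0), rfl⟩
  have heq : graphE Y = {e : E | ((e.1.1, e.1.2 - Y e.1.1), e.2) ∈ {e : E | e.1.2 = 0}} := by
    ext e
    show e.1.2 = Y e.1.1 ↔ e.1.2 - Y e.1.1 = 0
    rw [sub_eq_zero]
  rw [heq]
  exact h0

end XXE

open XXE in
theorem I_XE (h1 : PL1) (h2 : PL5) (h3 : PS3) (h4 : LT) (h5 : LA1) (_h6 : LA2) (_h7 : LA3) (h8 : LA11) (h9 : LA12)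
    (h10 : LA13) (h11 : AP1) (h12 : GL1) (h13 : GS1) (h14 : GS2) : XE := by
  intro D N _ _ C b b' hb hb' hr hx hτ hidx
  obtain ⟨-, -, -, hlin, -, hLG, -⟩ := h1 D
  have hr' : (leafSetoid C (esA D)) b' b := Setoid.symm' _ hr
  by_cases hL : (C.c .R b).1 ∈ D.Lam
  · obtain ⟨Y, hY, hYz⟩ := (h3 D).1 (C.c .R b).1
    have hYL : ∀ x, ((x, Y x) : P2) ∈ D.Lam := (h3 D).2.2 Y hY (C.c .R b).1.1 (by rw [hYz]; exact hL)
    obtain ⟨hsc, hlp⟩ := graph_good h14 (cont_of_curve hY)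
    have hsub : graphE Y ⊆ domA .R := by
      intro e he
      have : e.1 = (e.1.1, Y e.1.1) := Prod.ext rfl he
      show e.1 ∉ Gam
      rw [this]
      exact hLG _ (hYL e.1.1)
    have hmem : C.c .R b ∈ graphE Y := hYz.symm
    obtain ⟨f, hf, hfb⟩ := h12 IdxA domA (glueA D) N C .R (graphE Y) hsub hsc hlp b hb hmem
    obtain ⟨e', he', hfe'⟩ := (h9 D N C Y hY hYL f hf (C.c .R b) hmem b').1 (by rw [hfb]; exact hr)
    have hce : C.c .R b' = e' := by rw [← hfe']; exact hf.eq e' he'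
    have hee : e' = C.c .R b := by
      rw [← hce]
      have hy : (C.c .R b').1.2 = Y (C.c .R b').1.1 := by rw [hce]; exact he'
      refine Prod.ext (Prod.ext hx.symm ?_) hτ.symm
      rw [hy, ← hx]
      exact hYz
    rw [← hfe', hee, hfb]
  · have hL' : (C.c .R b').1 ∉ D.Lam := fun h => hL ((h4 D N C b' b hr').2.2 hb' h).2
    have hii := hidx hL hL'
    rcases h5 D N C b with ⟨s, hs⟩ | ⟨m, hm, hξ⟩ | ⟨_, hL''⟩
    · obtain ⟨hs', hxA⟩ := (h4 D N C b b' hr).1 s hs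
      obtain ⟨m, hmG, v, hv, hz, hw, ht⟩ : glueRA D s (C.c .R b) (C.c (.A s) b) := C.glue_of .R (.A s) b hb hs
      obtain ⟨m', hmG', v', hv', hz', hw', ht'⟩ : glueRA D s (C.c .R b') (C.c (.A s) b') :=
        C.glue_of .R (.A s) b' hb' hs'
      have hmm : m = m' := by
        rw [hz, hz', (hlin m hmG v).2.1, (hlin m' hmG' v').2.1] at hii
        exact hii
      subst hmm
      have e1 : (C.c .R b).1.1 = m.1 + v.1 := by rw [hz, Prod.fst_add, D.Psi_fst]
      have e2 : (C.c .R b').1.1 = m.1 + v'.1 := by rw [hz', Prod.fst_add, D.Psi_fst]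
      have hv1 : v.1 = v'.1 := by linarith
      have e3 : (C.c (.A s) b).1.1 = sg s * m.1 + (gmap (sg s • v)).1 := by
        rw [hw, Prod.fst_add, D.Psi_fst]
        rfl
      have e4 : (C.c (.A s) b').1.1 = sg s * m.1 + (gmap (sg s • v')).1 := by
        rw [hw', Prod.fst_add, D.Psi_fst]
        rfl
      have e5 : (gmap (sg s * v.1, sg s * v.2)).1 = (gmap (sg s * v.1, sg s * v'.2)).1 := by
        have e6 : (gmap (sg s • v)).1 = (gmap (sg s • v')).1 := by linarith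
        have e7 : sg s • v' = (sg s * v.1, sg s * v'.2) := by
          rw [hv1]
          rfl
        rw [e7] at e6
        exact e6
      have e8 : sg s * v.2 = sg s * v'.2 := by
        rcases lt_trichotomy (sg s * v.2) (sg s * v'.2) with h | h | h
        · have := h2.2.2.2.2.1 (sg s * v.1) _ _ hv h
          linarith
        · exact h
        · have := h2.2.2.2.2.1 (sg s * v.1) _ _ hv' h
          linarith
      have hv2 : v.2 = v'.2 := by
        have h0 := congrArg (fun r => sg s * r) e8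
        simp only [← mul_assoc, XArc.sg_mul_self, one_mul] at h0
        exact h0
      have hvv : v = v' := Prod.ext hv1 hv2
      subst hvv
      have hcA : C.c (.A s) b = C.c (.A s) b' := by
        refine Prod.ext ?_ ?_
        · rw [hw, hw']
        · rw [ht, ht', hτ]
      obtain ⟨A, hAU, hAc⟩ := h10 D N C
      have hbA : b ∈ A.U s := by rw [hAU]; exact hs
      refine (h11 N (leafSetoid C (esA D)) Bool A s b b' hbA hr).2.2 ?_
      rw [hAc]
      exact hcA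
    · obtain ⟨hm', hξ'⟩ := (h4 D N C b b' hr).2.1 m hm hξ
      obtain ⟨v, hv, hz, hw, ht⟩ : glueRg D m (C.c .R b) (C.c (.g m) b) := C.glue_of .R (.g m) b hb hm
      obtain ⟨v', hv', hz', hw', ht'⟩ : glueRg D m (C.c .R b') (C.c (.g m) b') := C.glue_of .R (.g m) b' hb' hm'
      have e1 : (C.c .R b).1.1 = (m : P2).1 + v.1 := by rw [hz, Prod.fst_add, D.Psi_fst]
      have e2 : (C.c .R b').1.1 = (m : P2).1 + v'.1 := by rw [hz', Prod.fst_add, D.Psi_fst]
      have hcg : C.c (.g m) b = C.c (.g m) b' := by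
        refine Prod.ext (Prod.ext (by rw [hξ, hξ']) ?_) (by rw [ht, ht', hτ])
        rw [hw, hw']
        show 2 * v.1 = 2 * v'.1
        linarith
      obtain ⟨hsc, hlp⟩ := h13 (univ : Set E) convex_univ ⟨((0, 0), 0), mem_univ _⟩
      obtain ⟨f, hf, hfb⟩ := h12 IdxA domA (glueA D) N C (.g m) univ (subset_univ _) hsc hlp b hm (mem_univ _)
      obtain ⟨e', -, hfe'⟩ := (h8 D N C m f hf (C.c (.g m) b) hξ b').1 (by rw [hfb]; exact hr)
      have hce : C.c (.g m) b' = e' := by rw [← hfe']; exact hf.eq e' (mem_univ _)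
      rw [← hfe', ← hce, ← hcg, hfb]
    · exact absurd hL'' hL

end Pool.Agent.Work.MP_0d206b_gt

end

end

/-! ### L0.L014 -/

section

/-!
# MP_0d206b_gt, flow 0, item L014: time reversal (helper75)
-/

open Set Filter Topology
open scoped ContDiff

noncomputable section

namespace Pool.Agent.Work.MP_0d206b_gt

namespace L0L014

/-- exchange of the two pieces -/
def sw : Idx0 → Idx0
  | .R => .A
  | .A => .R

/-- the flip of the flow direction -/
def J : E →L[ℝ] E := (ContinuousLinearMap.fst ℝ P2 ℝ).prod (-(ContinuousLinearMap.snd ℝ P2 ℝ))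

theorem J_apply (e : E) : J e = (e.1, -e.2) := rfl

theorem J_J (e : E) : J (J e) = e := by
  rw [J_apply, J_apply]
  simp

/-- the flip as a homeomorphism of the piece -/
def Jh : {e : E | e.1 ∉ Gam} ≃ₜ {e : E | e.1 ∉ Gam} where
  toFun e := ⟨J e.1, e.2⟩
  invFun e := ⟨J e.1, e.2⟩
  left_inv e := Subtype.ext (J_J e.1)
  right_inv e := Subtype.ext (J_J e.1)
  continuous_toFun := Continuous.subtype_mk (J.continuous.comp continuous_subtype_val) _
  continuous_invFun := Continuous.subtype_mk (J.continuous.comp continuous_subtype_val) _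

theorem nsq_swap (v : P2) : nsq (v.2, v.1) = nsq v := by
  simp only [nsq]; ring

theorem swap_ne {v : P2} (h : v ≠ 0) : ((v.2, v.1) : P2) ≠ 0 := by
  intro h0
  apply h
  have h1 := congrArg Prod.fst h0
  have h2 := congrArg Prod.snd h0
  exact Prod.ext h2 h1

/-- the gluing relation is invariant under exchange and flip -/
theorem glue_swap (D : DA) (i j : Idx0) (e e' : E) :
    glue0 D i (J e) j (J e') ↔ glue0 D (sw i) e (sw j) e' := by
  have hinj : ∀ a b : E, J a = J b ↔ a = b := fun a b =>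
    ⟨fun h => by rw [← J_J a, h, J_J], fun h => by rw [h]⟩
  have key : ∀ a b : E, glue0RA D (J a) (J b) → glue0RA D b a := by
    rintro a b ⟨m, hm, v, hv, h1, h2, h3⟩
    simp only [J_apply] at h1 h2 h3
    refine ⟨m, hm, (v.2, v.1), swap_ne hv, h2, h1, ?_⟩
    rw [nsq_swap]
    linarith
  have key' : ∀ a b : E, glue0RA D b a → glue0RA D (J a) (J b) := by
    intro a b h
    have h' : glue0RA D (J (J b)) (J (J a)) := by rw [J_J, J_J]; exact h
    exact key _ _ h'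
  cases i <;> cases j
  · exact hinj e e'
  · exact ⟨key e e', key' e e'⟩
  · exact ⟨key e' e, key' e' e⟩
  · exact hinj e e'

variable {D : DA} {N : Type} [TopologicalSpace N]

theorem glue_iff (C : CoverData dom0 (glue0 D) N) (i j : Idx0) (b : N) (e : E) :
    glue0 D i (J (C.c (sw i) b)) j e ↔ glue0 D (sw i) (C.c (sw i) b) (sw j) (J e) := by
  rw [← glue_swap, J_J]

/-- the time reversed cover data -/
def flip (C : CoverData dom0 (glue0 D) N) : CoverData dom0 (glue0 D) N where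
  U i := C.U (sw i)
  c i b := J (C.c (sw i) b)
  isOpen_U i := C.isOpen_U (sw i)
  maps i b hb := by
    have h : (C.c (sw i) b).1 ∉ Gam := C.maps (sw i) hb
    exact h
  cov i := (C.cov (sw i)).homeomorph_comp Jh
  cover b := by
    obtain ⟨i, hi⟩ := C.cover b
    cases i
    · exact ⟨.A, hi⟩
    · exact ⟨.R, hi⟩
  glue_lift i j b e hb h := by
    obtain ⟨h1, h2⟩ := C.glue_lift (sw i) (sw j) b (J e) hb ((glue_iff C i j b e).1 h)
    exact ⟨h1, by rw [h2, J_J]⟩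
  glue_of i j b hi hj := by
    rw [glue_swap]
    exact C.glue_of _ _ _ hi hj

theorem plane_flip (D : DA) (i : Idx0) (e v : E) (h : v ∈ plane (eu0 D) (sw i) e) :
    J v ∈ plane (es0 D) i (J e) := by
  unfold plane at *
  obtain ⟨a, b, rfl⟩ := Submodule.mem_span_pair.1 h
  refine Submodule.mem_span_pair.2 ⟨a, -b, ?_⟩
  cases i <;> simp [J_apply, es0, eu0, sw, add_comm]

theorem plane_flip' (D : DA) (i : Idx0) (e v : E) (h : v ∈ plane (es0 D) (sw i) (J e)) :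
    J v ∈ plane (eu0 D) i e := by
  unfold plane at *
  obtain ⟨a, b, rfl⟩ := Submodule.mem_span_pair.1 h
  refine Submodule.mem_span_pair.2 ⟨a, -b, ?_⟩
  cases i <;> simp [J_apply, es0, eu0, sw, add_comm]

theorem deriv_J {κ : ℝ → E} {t : ℝ} (h : DifferentiableAt ℝ κ t) :
    deriv (fun u => J (κ u)) t = J (deriv κ t) :=
  (J.hasFDerivAt.comp_hasDerivAt t h.hasDerivAt).deriv

theorem arc_flip {C : CoverData dom0 (glue0 D) N} {γ : ℝ → N} (h : IsArc C (eu0 D) γ) :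
    IsArc (flip C) (es0 D) γ := by
  refine ⟨h.cont, ?_, ?_⟩
  · intro t i hi
    have h1 : ContDiffAt ℝ 1 (C.c (sw i) ∘ γ) t := h.smooth t (sw i) hi
    exact J.contDiff.contDiffAt.comp t h1
  · intro t i hi
    have h1 : ContDiffAt ℝ 1 (C.c (sw i) ∘ γ) t := h.smooth t (sw i) hi
    have h2 := deriv_J (h1.differentiableAt (by simp))
    have h3 := plane_flip D i _ _ (h.tang t (sw i) hi)
    rw [← h2] at h3
    exact h3

theorem arc_flip' {C : CoverData dom0 (glue0 D) N} {γ : ℝ → N} (h : IsArc (flip C) (es0 D) γ) :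
    IsArc C (eu0 D) γ := by
  have hsw : ∀ i, sw (sw i) = i := by intro i; cases i <;> rfl
  have hU : ∀ i t, γ t ∈ C.U i → γ t ∈ (flip C).U (sw i) := by
    intro i t hi
    show γ t ∈ C.U (sw (sw i))
    rw [hsw]; exact hi
  have hc : ∀ i, (fun u => J ((flip C).c (sw i) (γ u))) = C.c i ∘ γ := by
    intro i
    funext u
    show J (J (C.c (sw (sw i)) (γ u))) = _
    rw [J_J, hsw]; rfl
  refine ⟨h.cont, ?_, ?_⟩
  · intro t i hi
    have h1 : ContDiffAt ℝ 1 ((flip C).c (sw i) ∘ γ) t := h.smooth t (sw i) (hU i t hi)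
    rw [← hc i]
    exact J.contDiff.contDiffAt.comp t h1
  · intro t i hi
    have h1 : ContDiffAt ℝ 1 ((flip C).c (sw i) ∘ γ) t := h.smooth t (sw i) (hU i t hi)
    have h2 := deriv_J (h1.differentiableAt (by simp))
    have h4 : (flip C).c (sw i) (γ t) = J (C.c i (γ t)) := by
      show J (C.c (sw (sw i)) (γ t)) = _
      rw [hsw]
    have h5 := h.tang t (sw i) (hU i t hi)
    rw [h4] at h5
    have h3 := plane_flip' D i _ _ h5
    rw [← h2] at h3
    rw [← hc i]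
    exact h3

end L0L014

open L0L014 in
theorem I_L014 : L014 := by
  intro D N _ C
  refine ⟨flip C, ?_⟩
  unfold leafSetoid
  congr 1
  funext a b
  exact propext ⟨fun ⟨γ, h, h0, h1⟩ => ⟨γ, arc_flip h, h0, h1⟩,
    fun ⟨γ, h, h0, h1⟩ => ⟨γ, arc_flip' h, h0, h1⟩⟩

end Pool.Agent.Work.MP_0d206b_gt

end

end

/-! ### L0.LN -/

section

open Set Filter Topology

noncomputable section

namespace Pool.Agent.Work.MP_0d206b_gt

namespace L0LN

/-- the standard squeezing -/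
def sq (t : ℝ) : ℝ := t / (1 + |t|)

lemma sq_lt (t : ℝ) : sq t < 1 := by
  unfold sq
  have h : 0 < 1 + |t| := by positivity
  rw [div_lt_one h]
  linarith [le_abs_self t]

lemma neg_lt_sq (t : ℝ) : -1 < sq t := by
  unfold sq
  have h : 0 < 1 + |t| := by positivity
  rw [lt_div_iff₀ h]
  linarith [neg_abs_le t]

lemma sq_mono : StrictMono sq := by
  intro s t hst
  unfold sq
  have h1 : 0 < 1 + |s| := by positivity
  have h2 : 0 < 1 + |t| := by positivity
  rw [div_lt_div_iff₀ h1 h2]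
  rcases le_total 0 s with hs | hs
  · rw [abs_of_nonneg hs, abs_of_nonneg (hs.trans hst.le)]
    nlinarith
  · rcases le_total 0 t with ht | ht
    · rw [abs_of_nonpos hs, abs_of_nonneg ht]
      nlinarith [mul_nonneg ht (neg_nonneg.2 hs)]
    · rw [abs_of_nonpos hs, abs_of_nonpos ht]
      nlinarith

lemma sq_surj {v : ℝ} (h1 : -1 < v) (h2 : v < 1) : ∃ t, sq t = v := by
  have h : 0 < 1 - |v| := by
    have : |v| < 1 := abs_lt.2 ⟨h1, h2⟩
    linarith
  refine ⟨v / (1 - |v|), ?_⟩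
  unfold sq
  rw [abs_div, abs_of_pos h]
  have h3 : 1 + |v| / (1 - |v|) = 1 / (1 - |v|) := by
    field_simp
    ring
  rw [h3]
  field_simp

lemma range_eq {ε : ℝ} (hε : 0 < ε) : range (fun t => ε * sq t) = Ioo (-ε) ε := by
  ext y
  constructor
  · rintro ⟨t, rfl⟩
    constructor
    · have := mul_lt_mul_of_pos_left (neg_lt_sq t) hε
      simpa using this
    · have := mul_lt_mul_of_pos_left (sq_lt t) hε
      simpa using this
  · rintro ⟨h1, h2⟩
    obtain ⟨t, ht⟩ := sq_surj (v := y / ε) (by rw [lt_div_iff₀ hε]; linarith)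
      (by rw [div_lt_one hε]; exact h2)
    refine ⟨t, ?_⟩
    simp only [ht]
    field_simp

end L0LN

open L0LN in
theorem I_LN : LN := by
  intro X _ ε hε g hg
  have hm : StrictMono (fun t => ε * L0LN.sq t) := fun s t hst => mul_lt_mul_of_pos_left (sq_mono hst) hε
  have hr := range_eq hε
  have he : IsOpenEmbedding (fun t => ε * L0LN.sq t) :=
    ⟨hm.isEmbedding_of_ordConnected (by rw [hr]; exact ordConnected_Ioo), by rw [hr]; exact isOpen_Ioo⟩
  have hmem : ∀ t, ε * L0LN.sq t ∈ Ioo (-ε) ε := fun t => hr ▸ mem_range_self t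
  refine ⟨fun t => ε * L0LN.sq t, hm, he.continuous, by simp [L0LN.sq], hr, ?_⟩
  have h2 : IsOpenEmbedding (fun t : ℝ => (⟨ε * L0LN.sq t, hmem t⟩ : Ioo (-ε) ε)) :=
    IsOpenEmbedding.of_comp _ (isOpen_Ioo (a := -ε) (b := ε)).isOpenEmbedding_subtypeVal he
  exact hg.comp h2

end Pool.Agent.Work.MP_0d206b_gt

end

end

/-! ### L0.Tube -/

section

/-!
# MP_0d206b_gt, module L, flow 0: L0tube
-/

open Set Filter Topology
open scoped ContDiff

noncomputable section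

namespace Pool.Agent.Work.MP_0d206b_gt

namespace L0Tube

variable {ι : Type} {dom : ι → Set E} {glue : ι → E → ι → E → Prop} {N : Type} [TopologicalSpace N]

theorem lift_mono {C : CoverData dom glue N} {i : ι} {Y Y' : Set E} {s : E → N} (h : IsLift C i Y s)
    (hY : Y' ⊆ Y) : IsLift C i Y' s :=
  ⟨h.cont.mono hY, fun e he => h.mem e (hY he), fun e he => h.eq e (hY he)⟩

theorem convex_tube (a b ρ : ℝ) : Convex ℝ {e : E | a < e.1.1 ∧ e.1.1 < b ∧ |e.1.2| < ρ} := by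
  have h1 : Convex ℝ {e : E | a < e.1.1} :=
    (convex_Ioi a).linear_preimage ((LinearMap.fst ℝ ℝ ℝ).comp (LinearMap.fst ℝ P2 ℝ))
  have h2 : Convex ℝ {e : E | e.1.1 < b} :=
    (convex_Iio b).linear_preimage ((LinearMap.fst ℝ ℝ ℝ).comp (LinearMap.fst ℝ P2 ℝ))
  have h3 : Convex ℝ {e : E | |e.1.2| < ρ} := by
    have : {e : E | |e.1.2| < ρ} = ((LinearMap.snd ℝ ℝ ℝ).comp (LinearMap.fst ℝ P2 ℝ)) ⁻¹' Ioo (-ρ) ρ := by
      ext e
      simp [abs_lt]
    rw [this]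
    exact (convex_Ioo _ _).linear_preimage _
  exact h1.inter (h2.inter h3)

theorem convex_line : Convex ℝ {e : E | e.1.2 = 0} := by
  have : {e : E | e.1.2 = 0} = ((LinearMap.snd ℝ ℝ ℝ).comp (LinearMap.fst ℝ P2 ℝ)) ⁻¹' {0} := by
    ext e
    simp
  rw [this]
  exact (convex_singleton _).linear_preimage _

theorem preconn (Y : ℝ → ℝ) (hY : Continuous Y) (a b : ℝ) :
    IsPreconnected {e : E | e.1.2 = Y e.1.1 ∧ a < e.1.1 ∧ e.1.1 < b} := by
  have h : {e : E | e.1.2 = Y e.1.1 ∧ a < e.1.1 ∧ e.1.1 < b} =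
      (fun p : ℝ × ℝ => (((p.1, Y p.1), p.2) : E)) '' (Ioo a b ×ˢ univ) := by
    ext e
    constructor
    · rintro ⟨h1, h2, h3⟩
      refine ⟨(e.1.1, e.2), ⟨⟨h2, h3⟩, trivial⟩, ?_⟩
      ext
      · rfl
      · exact h1.symm
      · rfl
    · rintro ⟨p, ⟨⟨h2, h3⟩, -⟩, rfl⟩
      exact ⟨rfl, h2, h3⟩
  rw [h]
  refine IsPreconnected.image ?_ _ ?_
  · exact isPreconnected_Ioo.prod isPreconnected_univ
  · exact Continuous.continuousOn (by fun_prop)

end L0Tube

open L0Tube in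
theorem I_L0tube (hPG : PG1) (hP1 : PL1) (hGS2 : GS2) (hG1 : GL1) (hG2 : GL2) (h5 : L05) : L0tube := by
  intro D N _ C Y hY hLam b hb hbY x₁ x₂ hx₁ hx₂
  have hYc : Continuous Y := continuous_iff_continuousAt.2 fun x => (hY x trivial).continuousAt
  have hnG : ∀ x, ((x, Y x) : P2) ∉ Gam := fun x => (hP1 D).2.2.2.2.2.1 _ (hLam x)
  have hK : IsCompact ((fun x => ((x, Y x) : P2)) '' Icc (x₁ - 1) (x₂ + 1)) :=
    isCompact_Icc.image (by fun_prop)
  have hcl : IsClosed (Gam : Set P2) := hPG.2.2.2.2.1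
  obtain ⟨ρ₀, hρ₀, hth⟩ := hK.exists_thickening_subset_open hcl.isOpen_compl (by
    rintro _ ⟨x, -, rfl⟩
    exact hnG x)
  set ρ := min ρ₀ 1 with hρ
  have hρpos : 0 < ρ := lt_min hρ₀ one_pos
  have hρ1 : ρ ≤ 1 := min_le_right _ _
  have hρ2 : ρ ≤ ρ₀ := min_le_left _ _
  clear_value ρ
  have hTdom : {e : E | x₁ - ρ < e.1.1 ∧ e.1.1 < x₂ + ρ ∧ |e.1.2 - Y e.1.1| < ρ} ⊆ dom0 .R := by
    rintro e ⟨h1, h2, h3⟩
    refine hth (Metric.mem_thickening_iff.2 ⟨(e.1.1, Y e.1.1), ⟨e.1.1, ⟨by linarith, by linarith⟩, rfl⟩, ?_⟩)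
    rw [Prod.dist_eq, dist_self, Real.dist_eq]
    exact max_lt hρ₀ (lt_of_lt_of_le h3 hρ2)
  have hbT : C.c .R b ∈ {e : E | x₁ - ρ < e.1.1 ∧ e.1.1 < x₂ + ρ ∧ |e.1.2 - Y e.1.1| < ρ} := by
    refine ⟨by linarith, by linarith, ?_⟩
    rw [hbY, sub_self, abs_zero]
    exact hρpos
  obtain ⟨hsc, hlpc⟩ := hGS2 Y hYc _ (convex_tube (x₁ - ρ) (x₂ + ρ) ρ)
    ⟨(((C.c .R b).1.1, 0), 0), by linarith, by linarith, by simpa using hρpos⟩
  obtain ⟨s, hs, hsb⟩ := hG1 _ _ _ N C .R _ hTdom hsc hlpc b hb hbT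
  refine ⟨ρ, hρpos, hρ1, s, hTdom, hs, hsb, ?_⟩
  intro b' hbb' hx1' hx2'
  have hgdom : graphE Y ⊆ dom0 .R := by
    rintro ⟨⟨x, y⟩, τ⟩ (he : y = Y x)
    subst he
    exact hnG x
  have hgr : graphE Y = {e : E | ((e.1.1, e.1.2 - Y e.1.1), e.2) ∈ {e : E | e.1.2 = 0}} := by
    ext e
    exact sub_eq_zero.symm
  have hfl : ∃ f, IsLift C .R (graphE Y) f ∧ f (C.c .R b) = b := by
    have h := hGS2 Y hYc _ convex_line ⟨((0, 0), 0), rfl⟩
    simp only at h
    rw [← hgr] at h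
    exact hG1 _ _ _ N C .R _ hgdom h.1 h.2 b hb hbY
  obtain ⟨f, hf, hfb⟩ := hfl
  have h := h5 D N C Y hY hLam f hf (C.c .R b) hbY b'
  rw [hfb] at h
  obtain ⟨e', he', hfe'⟩ := h.1 hbb'
  have hce : C.c .R b' = e' := by rw [← hfe']; exact hf.eq e' he'
  rw [hce] at hx1' hx2' ⊢
  rw [← hfe']
  have hpre := preconn Y hYc (x₁ - ρ) (x₂ + ρ)
  have hsub1 : {e : E | e.1.2 = Y e.1.1 ∧ x₁ - ρ < e.1.1 ∧ e.1.1 < x₂ + ρ} ⊆
      {e : E | x₁ - ρ < e.1.1 ∧ e.1.1 < x₂ + ρ ∧ |e.1.2 - Y e.1.1| < ρ} := by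
    rintro e ⟨h1, h2, h3⟩
    refine ⟨h2, h3, ?_⟩
    rw [h1, sub_self, abs_zero]
    exact hρpos
  have hsub2 : {e : E | e.1.2 = Y e.1.1 ∧ x₁ - ρ < e.1.1 ∧ e.1.1 < x₂ + ρ} ⊆ graphE Y := fun e he => he.1
  exact hG2 _ _ _ N C .R _ s f hpre (hsub1.trans hTdom) (lift_mono hs hsub1) (lift_mono hf hsub2)
    (C.c .R b) ⟨hbY, by linarith, by linarith⟩ (by rw [hsb, hfb]) ⟨he', by linarith, by linarith⟩

end Pool.Agent.Work.MP_0d206b_gt

end

end
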