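import Pool.Agent.Work.MP_0d206b_gt.Bd.StL

/-! ### L.I_AP5 -/

section

/-!
# MP_0d206b_gt, item AP5: condition (C1) of the criterion for the attractor part
-/

open Set Filter Topology
open scoped ContDiff

noncomputable section

namespace Pool.Agent.Work.MP_0d206b_gt

namespace XAP5

theorem up_iff (h3 : AP0) (h4 : AP1) {N : Type} [TopologicalSpace N] {r : Setoid N} {κ : Type}
    (A : APart N r κ) {k : κ} {b : N} (hb : b ∈ A.U k) :
    A.up (Quotient.mk r b) ↔ ∃ m ∈ Gam, m.1 = (A.c k b).1.1 ∧ m.2 < (A.c k b).1.2 := by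
  constructor
  · rintro ⟨k₁, b₁, hb₁, hq, m, hm, hm1, hm2⟩
    have hr : r b₁ b := Quotient.exact hq
    obtain ⟨hbk, hIA, -⟩ := h4 N r κ A k₁ b₁ b hb₁ hr
    have hk : k = k₁ := A.disj k k₁ b hb hbk
    subst hk
    refine ⟨m, hm, ?_, ?_⟩
    · rw [hm1]
      exact hIA.1.symm
    · exact (h3.2.2.2.2 _ _ hIA m hm hm1).1 hm2
  · rintro ⟨m, hm, hm1, hm2⟩
    exact ⟨k, b, hb, rfl, m, hm, hm1, hm2⟩

end XAP5

theorem I_AP5 (h1 : AP3) (h2 : AP4) (h3 : AP0) (h4 : AP1) (h5 : PG1) : AP5 := by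
  intro N _ _ r κ A hopen a ha a' ha' hns
  obtain ⟨k, b, hb, rfl⟩ := ha
  obtain ⟨k', b', hb', rfl⟩ := ha'
  obtain ⟨hk, hx, hn⟩ := h2 N r κ A hopen k k' b b' hb hb' hns
  subst hk
  have hz : (A.c k b).1 ∉ Gam := A.maps k hb
  have hz' : (A.c k b').1 ∉ Gam := A.maps k hb'
  have hex : ∃ t ∈ Set.uIcc (A.c k b).1.2 (A.c k b').1.2, (((A.c k b).1.1, t) : P2) ∈ Gam := by
    by_contra hcon
    push Not at hcon
    exact hn ⟨hx.symm, fun t ht hm => hcon t ht hm⟩
  obtain ⟨t, ht, hm⟩ := hex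
  have hne : t ≠ (A.c k b).1.2 := by
    rintro rfl
    exact hz hm
  have hne' : t ≠ (A.c k b').1.2 := by
    rintro rfl
    rw [hx] at hm
    exact hz' hm
  obtain ⟨h31, -, -, -, -⟩ := h1 N r κ A hopen
  refine ⟨⟨k, b, hb, rfl, _, hm, rfl⟩, ?_, ?_⟩
  · rw [h31 k b hb, h31 k b' hb']
    exact hx
  · rw [XAP5.up_iff h3 h4 A hb, XAP5.up_iff h3 h4 A hb']
    have e1 : (∃ m ∈ Gam, m.1 = (A.c k b).1.1 ∧ m.2 < (A.c k b).1.2) ↔ t < (A.c k b).1.2 := by
      constructor
      · rintro ⟨m, hmG, hm1, hm2⟩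
        have := h5.2.1 m hmG _ hm hm1
        rw [this] at hm2
        exact hm2
      · intro h
        exact ⟨_, hm, rfl, h⟩
    have e2 : (∃ m ∈ Gam, m.1 = (A.c k b').1.1 ∧ m.2 < (A.c k b').1.2) ↔ t < (A.c k b').1.2 := by
      constructor
      · rintro ⟨m, hmG, hm1, hm2⟩
        have := h5.2.1 m hmG _ hm (hm1.trans hx.symm)
        rw [this] at hm2
        exact hm2
      · intro h
        exact ⟨_, hm, hx, h⟩
    rw [e1, e2]
    rcases Set.mem_uIcc.1 ht with ⟨ha, hb⟩ | ⟨ha, hb⟩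
    · constructor
      · intro h
        exact absurd h (not_lt.2 ha)
      · intro h
        exact absurd (lt_of_le_of_ne hb hne') h
    · constructor
      · intro h h'
        exact absurd h' (not_lt.2 ha)
      · intro h
        exact lt_of_le_of_ne hb hne

end Pool.Agent.Work.MP_0d206b_gt

end

end

/-! ### L.I_GL2 -/

section

/-!
# MP_0d206b_gt, item GL2: uniqueness of lifts
-/

open Set Filter Topology
open scoped ContDiff

noncomputable section

namespace Pool.Agent.Work.MP_0d206b_gt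

theorem I_GL2 : GL2 := by
  intro ι dom glue N _ C i K s s' hK hKd hs hs' e he hse e' he'
  have hcov := C.cov i
  have : PreconnectedSpace K := Subtype.preconnectedSpace hK
  let g : K → C.U i := fun x => ⟨s x.1, hs.mem x.1 x.2⟩
  let g' : K → C.U i := fun x => ⟨s' x.1, hs'.mem x.1 x.2⟩
  have hg : Continuous g :=
    Continuous.subtype_mk (continuousOn_iff_continuous_domRestrict.1 hs.cont) _
  have hg' : Continuous g' :=
    Continuous.subtype_mk (continuousOn_iff_continuous_domRestrict.1 hs'.cont) _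
  have h1 : g = g' := by
    refine hcov.eq_of_comp_eq hg hg' ?_ ⟨e, he⟩ (Subtype.ext hse)
    funext x
    exact Subtype.ext ((hs.eq x.1 x.2).trans (hs'.eq x.1 x.2).symm)
  exact congrArg Subtype.val (congrFun h1 ⟨e', he'⟩)

end Pool.Agent.Work.MP_0d206b_gt

end

end

/-! ### L.I_GL5 -/

section

open Set Filter Topology
open scoped ContDiff

noncomputable section

namespace Pool.Agent.Work.MP_0d206b_gt

theorem I_GL5 : GL5 := by
  intro ι dom glue N _ C i Y s hY hs γ hγ hγY t₀ ht₀ t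
  have hcov := C.cov i
  set p := (C.maps i).restrict (C.c i) (C.U i) (dom i) with hp
  have hcont : Continuous (fun t => C.c i (γ t)) := by
    have h1 : Continuous (fun t : ℝ => (p ⟨γ t, (hγY t).1⟩ : E)) :=
      continuous_subtype_val.comp (hcov.continuous.comp (hγ.subtype_mk _))
    exact h1
  have hsc : Continuous (fun t => s (C.c i (γ t))) :=
    hs.cont.comp_continuous hcont (fun t => (hγY t).2)
  have h := hcov.eq_of_comp_eq (g₁ := fun t : ℝ => (⟨s (C.c i (γ t)), hs.mem _ (hγY t).2⟩ : C.U i))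
    (g₂ := fun t : ℝ => (⟨γ t, (hγY t).1⟩ : C.U i)) (hsc.subtype_mk _) (hγ.subtype_mk _) ?_ t₀
    (Subtype.ext ht₀)
  · exact congrArg Subtype.val (congrFun h t)
  · funext u
    apply Subtype.ext
    exact hs.eq _ (hγY u).2

end Pool.Agent.Work.MP_0d206b_gt

end

end

/-! ### L.I_GS2 -/

section

/-!
# MP_0d206b_gt, item GS2: images of convex sets under a shear are good
-/

open Set Filter Topology
open scoped ContDiff

noncomputable section

namespace Pool.Agent.Work.MP_0d206b_gt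

namespace XGS2

/-- the shear -/
def shear (Y : ℝ → ℝ) (hY : Continuous Y) : E ≃ₜ E where
  toFun e := ((e.1.1, e.1.2 - Y e.1.1), e.2)
  invFun e := ((e.1.1, e.1.2 + Y e.1.1), e.2)
  left_inv e := by simp
  right_inv e := by simp
  continuous_toFun := by fun_prop
  continuous_invFun := by fun_prop

end XGS2

theorem I_GS2 (h1 : GS1) : GS2 := by
  intro Y hY K hK hKn K'
  obtain ⟨hs, hl⟩ := h1 K hK hKn
  let φ : K' ≃ₜ K := (XGS2.shear Y hY).subtype (fun e => Iff.rfl)
  exact ⟨φ.toHomotopyEquiv.simplyConnectedSpace, φ.isOpenEmbedding.locallyPathConnectedSpace⟩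

end Pool.Agent.Work.MP_0d206b_gt

end

end

/-! ### L.I_GS3 -/

section

/-! Project MP_0d206b_gt, item GS3: slit discs times the flow direction are simply connected and
locally path connected. -/

set_option autoImplicit false

namespace Pool.Agent.Work.MP_0d206b_gt

open Set Filter Topology

namespace XGS3

/-- the slit disc -/
def K (σ r : ℝ) (m : P2) : Set E :=
  {e | nsq (e.1 - m) < (2 * r) ^ 2 ∧ ¬ ((e.1 - m).2 = 0 ∧ σ * (e.1 - m).1 ≤ 0)}

theorem isOpen_K (σ r : ℝ) (m : P2) : IsOpen (K σ r m) := by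
  have h1 : Continuous fun e : E => e.1 - m := continuous_fst.sub continuous_const
  have h2 : Continuous fun e : E => (e.1 - m).1 := continuous_fst.comp h1
  have h3 : Continuous fun e : E => (e.1 - m).2 := continuous_snd.comp h1
  have h4 : Continuous fun e : E => nsq (e.1 - m) := by
    unfold nsq
    exact (h2.pow 2).add (h3.pow 2)
  have e1 : IsOpen {e : E | nsq (e.1 - m) < (2 * r) ^ 2} := isOpen_lt h4 continuous_const
  have e2 : IsClosed {e : E | (e.1 - m).2 = 0 ∧ σ * (e.1 - m).1 ≤ 0} :=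
    (isClosed_eq h3 continuous_const).inter (isClosed_le (continuous_const.mul h2) continuous_const)
  exact e1.inter e2.isOpen_compl

theorem mem_p (σ r : ℝ) (hσ : σ = 1 ∨ σ = -1) (hr : 0 < r) (m : P2) :
    ((m + (σ * r, 0), 0) : E) ∈ K σ r m := by
  have hσ2 : σ ^ 2 = 1 := by
    rcases hσ with h | h <;> rw [h] <;> norm_num
  have e0 : ((m + (σ * r, 0), (0 : ℝ)) : E).1 - m = (σ * r, 0) := by
    show m + (σ * r, 0) - m = (σ * r, 0)
    rw [add_sub_cancel_left]
  refine ⟨?_, ?_⟩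
  · rw [e0]
    unfold nsq
    have : (σ * r) ^ 2 + (0 : ℝ) ^ 2 = r ^ 2 := by
      rw [mul_pow, hσ2]
      ring
    show (σ * r) ^ 2 + (0 : ℝ) ^ 2 < (2 * r) ^ 2
    rw [this, mul_pow]
    have := pow_pos hr 2
    linarith
  · rw [e0]
    rintro ⟨-, h⟩
    have : σ * (σ * r) ≤ 0 := h
    have h2 : σ * (σ * r) = r := by
      rw [← mul_assoc, ← pow_two, hσ2, one_mul]
    rw [h2] at this
    linarith

theorem star (σ r : ℝ) (hσ : σ = 1 ∨ σ = -1) (hr : 0 < r) (m : P2) :
    StarConvex ℝ ((m + (σ * r, 0), 0) : E) (K σ r m) := by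
  have hσ2 : σ ^ 2 = 1 := by
    rcases hσ with h | h <;> rw [h] <;> norm_num
  intro y hy a b ha hb hab
  obtain ⟨y1, y2⟩ := hy
  set v : P2 := y.1 - m with hv
  have hyv : y.1 = m + v := by
    rw [hv]
    abel
  have e0 : (a • ((m + (σ * r, 0), (0 : ℝ)) : E) + b • y).1 - m =
      (a * (σ * r) + b * v.1, b * v.2) := by
    show a • (m + (σ * r, (0 : ℝ))) + b • y.1 - m = _
    rw [hyv]
    have hm : m = a • m + b • m := by rw [← add_smul, hab, one_smul]
    have : a • (m + (σ * r, (0 : ℝ))) + b • (m + v) - m = a • (σ * r, (0 : ℝ)) + b • v := by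
      rw [smul_add, smul_add]
      nth_rewrite 3 [hm]
      abel
    rw [this]
    ext
    · simp
    · simp
  have hr2 : 0 < r ^ 2 := pow_pos hr 2
  refine ⟨?_, ?_⟩
  · rw [e0]
    unfold nsq at y1 ⊢
    show (a * (σ * r) + b * v.1) ^ 2 + (b * v.2) ^ 2 < (2 * r) ^ 2
    have h1 : (a * (σ * r) + b * v.1) ^ 2 ≤ a * (σ * r) ^ 2 + b * v.1 ^ 2 := by
      have hb' : b = 1 - a := by linarith
      have : a * (σ * r) ^ 2 + b * v.1 ^ 2 - (a * (σ * r) + b * v.1) ^ 2 =
          a * b * (σ * r - v.1) ^ 2 := by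
        rw [hb']
        ring
      have h2 : 0 ≤ a * b * (σ * r - v.1) ^ 2 := by positivity
      linarith
    have h2 : (b * v.2) ^ 2 ≤ b * v.2 ^ 2 := by
      have : b * v.2 ^ 2 - (b * v.2) ^ 2 = a * b * v.2 ^ 2 := by
        have ha' : a = 1 - b := by linarith
        rw [ha']
        ring
      have h3 : 0 ≤ a * b * v.2 ^ 2 := by positivity
      linarith
    have h3 : (σ * r) ^ 2 = r ^ 2 := by rw [mul_pow, hσ2, one_mul]
    rw [h3] at h1
    have h4 : a * r ^ 2 + b * (v.1 ^ 2 + v.2 ^ 2) < (2 * r) ^ 2 := by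
      rcases hb.eq_or_lt with h | h
      · rw [← h]
        have ha1 : a = 1 := by linarith
        rw [ha1, mul_pow]
        linarith
      · have h5 : b * (v.1 ^ 2 + v.2 ^ 2) < b * (2 * r) ^ 2 := mul_lt_mul_of_pos_left y1 h
        have h6 : a * r ^ 2 ≤ a * (2 * r) ^ 2 := by
          apply mul_le_mul_of_nonneg_left _ ha
          rw [mul_pow]
          linarith
        have h7 : a * (2 * r) ^ 2 + b * (2 * r) ^ 2 = (2 * r) ^ 2 := by
          rw [← add_mul, hab, one_mul]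
        linarith
    linarith
  · rw [e0]
    rintro ⟨h1, h2⟩
    have h1' : b * v.2 = 0 := h1
    have h2' : σ * (a * (σ * r) + b * v.1) ≤ 0 := h2
    have h3 : σ * (a * (σ * r) + b * v.1) = a * r + b * (σ * v.1) := by
      have : σ * (a * (σ * r) + b * v.1) = a * (σ ^ 2 * r) + b * (σ * v.1) := by ring
      rw [this, hσ2, one_mul]
    rw [h3] at h2'
    rcases mul_eq_zero.1 h1' with h | h
    · rw [h] at hab h2'
      have ha1 : a = 1 := by linarith
      rw [ha1] at h2'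
      linarith
    · have h4 : 0 < σ * v.1 := by
        by_contra hcon
        exact y2 ⟨h, not_lt.1 hcon⟩
      rcases hb.eq_or_lt with h5 | h5
      · rw [← h5] at hab h2'
        have ha1 : a = 1 := by linarith
        rw [ha1] at h2'
        linarith
      · have h6 := mul_pos h5 h4
        have h7 := mul_nonneg ha hr.le
        linarith

end XGS3

theorem I_GS3 : GS3 := by
  intro σ r hσ hr m
  show SimplyConnectedSpace (XGS3.K σ r m) ∧ LocallyPathConnectedSpace (XGS3.K σ r m)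
  have : ContractibleSpace (XGS3.K σ r m) :=
    (XGS3.star σ r hσ hr m).contractibleSpace ⟨_, XGS3.mem_p σ r hσ hr m⟩
  exact ⟨inferInstance, (XGS3.isOpen_K σ r m).locallyPathConnectedSpace⟩

end Pool.Agent.Work.MP_0d206b_gt

end

/-! ### L.I_LA15b -/

section

/-! Project MP_0d206b_gt, item LA15b: openness of the quotient map at the leaves with first
coordinate zero in a saddle piece. -/

set_option autoImplicit false

open Set Filter Topology

noncomputable section

namespace Pool.Agent.Work.MP_0d206b_gt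

namespace XLA15b

theorem contAt {ι : Type} {dom : ι → Set E} {glue : ι → E → ι → E → Prop} {N : Type}
    [TopologicalSpace N] (C : CoverData dom glue N) (i : ι) {b : N} (hb : b ∈ C.U i) :
    ContinuousAt (C.c i) b := by
  have h1 : Continuous ((C.maps i).restrict (C.c i) (C.U i) (dom i)) := (C.cov i).continuous
  have h2 : ContinuousOn (C.c i) (C.U i) := by
    rw [continuousOn_iff_continuous_domRestrict]
    exact continuous_subtype_val.comp h1
  exact h2.continuousAt ((C.isOpen_U i).mem_nhds hb)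

end XLA15b

theorem I_LA15b (h1 : GL1) (h2 : GL4) (h3 : GS1) (h4 : AR3) (h5 : CPAs) (h6 : LA11) : LA15b := by
  intro D N _ _ C m b b' hb hb0 hbb' O hO
  obtain ⟨hs1, hs2⟩ := h3 univ convex_univ univ_nonempty
  obtain ⟨f, hf, hfb⟩ := h1 IdxA domA (glueA D) N C (.g m) univ (fun _ _ => mem_univ _) hs1 hs2
    b hb (mem_univ _)
  have h7 := (h6 D N C m f hf (C.c (.g m) b) hb0 b').mp (by rw [hfb]; exact hbb')
  obtain ⟨e', he'0, rfl⟩ := h7
  have hU' : f e' ∈ C.U (.g m) := hf.mem e' (mem_univ _)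
  have hc' : C.c (.g m) (f e') = e' := hf.eq e' (mem_univ _)
  have h8 := h2 IdxA domA (glueA D) N C (.g m) univ f isOpen_univ (fun _ _ => mem_univ _) hf
    (f e') hU' (mem_univ _) (by rw [hc'])
  have hcont : ContinuousAt (C.c (.g m)) (f e') := XLA15b.contAt C (.g m) hU'
  -- the auxiliary point
  set e0 : E := C.c (.g m) b with he0
  let q : E → E := fun e => ((e.1.1, e0.1.2), e0.2)
  have hq : Continuous q := by
    refine Continuous.prodMk (Continuous.prodMk ?_ continuous_const) continuous_const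
    exact continuous_fst.comp continuous_fst
  have hqe : q e' = e0 := by
    refine Prod.ext (Prod.ext ?_ rfl) rfl
    show e'.1.1 = e0.1.1
    rw [he'0, hb0]
  have hfc : Continuous f := by
    rw [← continuousOn_univ]
    exact hf.cont
  have h9 : Tendsto (fun b'' => f (q (C.c (.g m) b''))) (𝓝 (f e')) (𝓝 b) := by
    have h10 : ContinuousAt (fun b'' => f (q (C.c (.g m) b''))) (f e') :=
      (hfc.comp hq).continuousAt.comp hcont
    have h11 : f (q (C.c (.g m) (f e'))) = b := by rw [hc', hqe, hfb]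
    have h12 := h10.tendsto
    rw [h11] at h12
    exact h12
  filter_upwards [h8, h9.eventually hO] with b'' hb'' hO''
  refine ⟨_, hO'', ?_⟩
  have h13 := h4 IdxA domA (glueA D) N C (esA D) (h5 D) (.g m) univ f (fun _ _ => mem_univ _) hf
    (q (C.c (.g m) b'')) (C.c (.g m) b'') (fun _ _ => mem_univ _) ?_
  · rw [hb''.2.2] at h13
    exact h13
  · intro p _
    unfold plane
    rw [Submodule.mem_span_pair]
    refine ⟨(C.c (.g m) b'').1.2 - e0.1.2, (C.c (.g m) b'').2 - e0.2 -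
      ((C.c (.g m) b'').1.2 - e0.1.2) * (esA D (.g m) p).2, ?_⟩
    have e1 : (esA D (.g m) p).1 = (0, 1) := rfl
    refine Prod.ext (Prod.ext ?_ ?_) ?_
    · simp [e1, q]
    · simp [e1, q]
    · simp [q]

end Pool.Agent.Work.MP_0d206b_gt

end

end

/-! ### L.I_LA17o -/

section

/-!
# MP_0d206b_gt, item LA17o (helper75): local flow box for the stable foliation of flow a in the repeller piece
-/

open Set Filter Topology
open scoped ContDiff

noncomputable section

namespace Pool.Agent.Work.MP_0d206b_gt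

namespace XLA17o

/-- smooth parametrisation of the segment from `a` to `b` -/
def g (a b : ℝ) (u : ℝ) : ℝ := a + Real.smoothTransition u * (b - a)

theorem cdT : ContDiff ℝ 1 Real.smoothTransition := by
  have := Real.smoothTransition.contDiff (n := 1)
  exact_mod_cast this

theorem g_cd (a b : ℝ) : ContDiff ℝ 1 (g a b) := contDiff_const.add (cdT.mul contDiff_const)

theorem g_deriv (a b u : ℝ) :
    HasDerivAt (g a b) (deriv Real.smoothTransition u * (b - a)) u := by
  have hd : HasDerivAt Real.smoothTransition (deriv Real.smoothTransition u) u :=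
    ((cdT.differentiable (by simp)) u).hasDerivAt
  exact (hd.mul_const (b - a)).const_add a

theorem g_mem (a b u : ℝ) : g a b u ∈ uIcc a b := by
  have h : g a b u ∈ segment ℝ a b := by
    rw [segment_eq_image']
    exact ⟨Real.smoothTransition u, ⟨Real.smoothTransition.nonneg u, Real.smoothTransition.le_one u⟩,
      rfl⟩
  rwa [segment_eq_uIcc] at h

theorem g_zero (a b : ℝ) : g a b 0 = a := by simp [g]

theorem g_one (a b : ℝ) : g a b 1 = b := by simp [g]

theorem cont_derivT : Continuous (deriv Real.smoothTransition) :=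
  cdT.continuous_deriv (by simp)

/-- moving along an integral curve of a slope field inside a lifted set -/
theorem move (hA2 : AR2) {ι : Type} {dom : ι → Set E} {glue : ι → E → ι → E → Prop} {N : Type}
    [TopologicalSpace N] (C : CoverData dom glue N) (w : ι → E → E) (hw : Compat dom glue w) (i : ι)
    (T : Set E) (s : E → N) (hT : T ⊆ dom i) (hs : IsLift C i T s) (S K : P2 → ℝ)
    (hwi : ∀ e, w i e = ((1, S e.1), K e.1)) (V : ℝ → ℝ) (Z : Set P2) (hS : ContinuousOn S Z)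
    (x₀ x₁ τ₀ τ₁ : ℝ) (hV : ∀ x ∈ uIcc x₀ x₁, HasDerivAt V (S (x, V x)) x)
    (hZ : ∀ x ∈ uIcc x₀ x₁, ((x, V x) : P2) ∈ Z)
    (hmem : ∀ x ∈ uIcc x₀ x₁, ∀ τ : ℝ, (((x, V x), τ) : E) ∈ T) :
    (leafSetoid C w) (s ((x₀, V x₀), τ₀)) (s ((x₁, V x₁), τ₁)) := by
  set κ : ℝ → E := fun u => ((g x₀ x₁ u, V (g x₀ x₁ u)), g τ₀ τ₁ u) with hκ
  have hVc : ∀ u, HasDerivAt (fun u => V (g x₀ x₁ u))
      (S (g x₀ x₁ u, V (g x₀ x₁ u)) * (deriv Real.smoothTransition u * (x₁ - x₀))) u :=
    fun u => (hV _ (g_mem x₀ x₁ u)).comp u (g_deriv x₀ x₁ u)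
  have hVcont : Continuous (fun u => V (g x₀ x₁ u)) :=
    continuous_iff_continuousAt.2 fun u => (hVc u).continuousAt
  have hSc : Continuous (fun u => S (g x₀ x₁ u, V (g x₀ x₁ u))) :=
    hS.comp_continuous ((g_cd x₀ x₁).continuous.prodMk hVcont) fun u => hZ _ (g_mem x₀ x₁ u)
  have hV1 : ContDiff ℝ 1 (fun u => V (g x₀ x₁ u)) := by
    rw [contDiff_one_iff_deriv]
    refine ⟨fun u => (hVc u).differentiableAt, ?_⟩
    have : deriv (fun u => V (g x₀ x₁ u)) = fun u =>
        S (g x₀ x₁ u, V (g x₀ x₁ u)) * (deriv Real.smoothTransition u * (x₁ - x₀)) :=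
      funext fun u => (hVc u).deriv
    rw [this]
    exact hSc.mul (cont_derivT.mul continuous_const)
  have hκcd : ContDiff ℝ 1 κ := ((g_cd x₀ x₁).prodMk hV1).prodMk (g_cd τ₀ τ₁)
  have hκd : ∀ u, HasDerivAt κ (((deriv Real.smoothTransition u * (x₁ - x₀),
      S (g x₀ x₁ u, V (g x₀ x₁ u)) * (deriv Real.smoothTransition u * (x₁ - x₀))),
      deriv Real.smoothTransition u * (τ₁ - τ₀)) : E) u :=
    fun u => ((g_deriv x₀ x₁ u).prodMk (hVc u)).prodMk (g_deriv τ₀ τ₁ u)
  have h := hA2 ι dom glue N C w hw i T s hT hs κ hκcd (fun u => hmem _ (g_mem x₀ x₁ u) _)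
    (fun u => by
      rw [(hκd u).deriv]
      unfold plane
      rw [hwi]
      refine Submodule.mem_span_pair.2 ⟨deriv Real.smoothTransition u * (x₁ - x₀),
        deriv Real.smoothTransition u * (τ₁ - τ₀) -
          deriv Real.smoothTransition u * (x₁ - x₀) * K (κ u).1, ?_⟩
      simp only [hκ, Prod.smul_mk, smul_eq_mul, mul_one, mul_zero, Prod.mk_add_mk, add_zero]
      refine Prod.ext (Prod.ext rfl ?_) ?_
      · simp only; ring
      · simp only; ring) 0 1
  have h0 : κ 0 = ((x₀, V x₀), τ₀) := by simp only [hκ, g_zero]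
  have h1 : κ 1 = ((x₁, V x₁), τ₁) := by simp only [hκ, g_one]
  rw [h0, h1] at h
  exact h

theorem isOpen_box' (a b r s : ℝ) : IsOpen {e : E | |e.1.1 - a| < r ∧ |e.1.2 - b| < s} := by
  have c1 : Continuous (fun e : E => |e.1.1 - a|) := by fun_prop
  have c2 : Continuous (fun e : E => |e.1.2 - b|) := by fun_prop
  exact (isOpen_lt c1 continuous_const).inter (isOpen_lt c2 continuous_const)

end XLA17o

open XLA17o in
theorem I_LA17o (h1 : PS1) (h2 : PS7) (h3 : GL4) (h4 : AR2) (h5 : CPAs) : LA17o := by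
  intro D N _ _ C z τ ε f hε hf hB t ht η hη
  have htε : |t| < ε := abs_lt.2 ht
  have he0 : (((z.1, z.2 + t), τ) : E) ∈ box z ε := by
    refine ⟨?_, ?_⟩
    · simpa using hε
    · simp only [add_sub_cancel_left]; exact htε
  set η' := min η (ε - |t|) with hη'
  have hη'0 : 0 < η' := lt_min hη (by linarith)
  obtain ⟨δ, hδ, H⟩ := h2 D (z.1, z.2 + t) (hB he0) η' hη'0
  set δ₁ := min δ ε with hδ₁
  have hδ₁0 : 0 < δ₁ := lt_min hδ hε
  set T : Set E := {e : E | |e.1.1 - z.1| < δ₁ ∧ |e.1.2 - (z.2 + t)| < min δ η'} with hT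
  have hTB : T ⊆ box z ε := by
    rintro e ⟨a1, a2⟩
    refine ⟨a1.trans_le (min_le_right _ _), ?_⟩
    have a3 : |e.1.2 - (z.2 + t)| < ε - |t| :=
      a2.trans_le ((min_le_right _ _).trans (min_le_right _ _))
    have a4 : e.1.2 - z.2 = (e.1.2 - (z.2 + t)) + t := by ring
    rw [a4]
    refine (abs_add_le _ _).trans_lt ?_
    linarith
  have hTlift : IsLift C .R T f := ⟨hf.cont.mono hTB, fun e he => hf.mem e (hTB he),
    fun e he => hf.eq e (hTB he)⟩
  have hTdom : T ⊆ domA .R := fun e he => hB (hTB he)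
  have he0T : (((z.1, z.2 + t), τ) : E) ∈ T := by
    refine ⟨?_, ?_⟩
    · simpa using hδ₁0
    · simpa using lt_min hδ hη'0
  have hc0 := hTlift.eq _ he0T
  have hev := h3 _ _ _ N C .R T f (isOpen_box' _ _ _ _) hTdom hTlift (f ((z.1, z.2 + t), τ))
    (hTlift.mem _ he0T) (by rw [hc0]; exact he0T) (by rw [hc0])
  filter_upwards [hev] with b hb
  obtain ⟨-, ⟨e1, e2⟩, hfb⟩ := hb
  obtain ⟨Y', hY0, hYc, hYn⟩ := H (C.c .R b).1.1 (C.c .R b).1.2
    (e1.trans_le (min_le_left _ _)) (e2.trans_le (min_le_left _ _))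
  simp only at hYc hYn
  have hIoo : ∀ x ∈ uIcc (C.c .R b).1.1 z.1, |x - z.1| < δ₁ := by
    intro x hx
    have := abs_sub_right_of_mem_uIcc hx
    have b1 : |x - z.1| ≤ |(C.c .R b).1.1 - z.1| := by
      rw [abs_sub_comm, abs_sub_comm (C.c .R b).1.1]
      simpa [abs_sub_comm] using this
    exact b1.trans_lt e1
  have hIoo' : ∀ x ∈ uIcc (C.c .R b).1.1 z.1, x ∈ Ioo (z.1 - δ) (z.1 + δ) := by
    intro x hx
    have := abs_lt.1 ((hIoo x hx).trans_le (min_le_left _ _))
    exact ⟨by linarith [this.1], by linarith [this.2]⟩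
  have hboxm : ∀ x ∈ uIcc (C.c .R b).1.1 z.1, ∀ τ' : ℝ, (((x, Y' x), τ') : E) ∈ box z ε := by
    intro x hx τ'
    refine ⟨(hIoo x hx).trans_le (min_le_right _ _), ?_⟩
    have a3 := (hYn x (hIoo' x hx)).trans_le (min_le_right _ _)
    show |Y' x - z.2| < ε
    have a4 : Y' x - z.2 = (Y' x - (z.2 + t)) + t := by ring
    rw [a4]
    refine (abs_add_le _ _).trans_lt ?_
    linarith
  have hz1 : z.1 ∈ uIcc (C.c .R b).1.1 z.1 := right_mem_uIcc
  have hm := move h4 C (esA D) (h5 D) .R (box z ε) f hB hf D.sigma D.Ka (fun e => rfl) Y'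
    {z | z ∉ Gam} (h1 D) (C.c .R b).1.1 z.1 (C.c .R b).2 τ
    (fun x hx => hYc x (hIoo' x hx)) (fun x hx => hB (hboxm x hx 0)) hboxm
  refine ⟨Y' z.1 - z.2, ?_, ?_, ?_⟩
  · have := hboxm z.1 hz1 0
    exact abs_lt.1 this.2
  · have := (hYn z.1 (hIoo' z.1 hz1)).trans_le (min_le_left _ _)
    have a4 : Y' z.1 - z.2 - t = Y' z.1 - (z.2 + t) := by ring
    rw [a4]; exact this
  · have q1 : ((((C.c .R b).1.1, Y' (C.c .R b).1.1), (C.c .R b).2) : E) = C.c .R b := by
      rw [hY0]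
    rw [q1, hfb] at hm
    have q2 : z.2 + (Y' z.1 - z.2) = Y' z.1 := by ring
    rw [q2]
    exact (leafSetoid C (esA D)).symm hm

end Pool.Agent.Work.MP_0d206b_gt

end

end

/-! ### L.I_LA19 -/

section

/-!
# MP_0d206b_gt, module L: item LA19, no attractor leaf is non separated from another leaf
-/

set_option autoImplicit false

open Set Filter Topology
open scoped ContDiff

noncomputable section

namespace Pool.Agent.Work.MP_0d206b_gt

namespace XLA19

theorem abs_comb {a b x y z ε : ℝ} (hx : |x - z| < ε) (hy : |y - z| < ε) (ha : 0 ≤ a) (hb : 0 ≤ b)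
    (hab : a + b = 1) : |a * x + b * y - z| < ε := by
  rw [abs_lt] at *
  have h : Convex ℝ (Ioo (z - ε) (z + ε)) := convex_Ioo _ _
  have h1 : x ∈ Ioo (z - ε) (z + ε) := ⟨by linarith, by linarith⟩
  have h2 : y ∈ Ioo (z - ε) (z + ε) := ⟨by linarith, by linarith⟩
  have h3 := h h1 h2 ha hb hab
  simp only [smul_eq_mul, mem_Ioo] at h3
  constructor <;> linarith [h3.1, h3.2]

theorem convex_box (z : P2) (ε : ℝ) : Convex ℝ (box z ε) := by
  intro x hx y hy a b ha hb hab
  exact ⟨abs_comb hx.1 hy.1 ha hb hab, abs_comb hx.2 hy.2 ha hb hab⟩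

theorem mem_box0 (z : P2) {ε : ℝ} (hε : 0 < ε) (τ : ℝ) : ((z, τ) : E) ∈ box z ε := by
  refine ⟨?_, ?_⟩
  · show |z.1 - z.1| < ε
    rw [sub_self, abs_zero]
    exact hε
  · show |z.2 - z.2| < ε
    rw [sub_self, abs_zero]
    exact hε

theorem mem_box {z : P2} {ε τ t : ℝ} (hε : 0 < ε) (ht : |t| < ε) :
    (((z.1, z.2 + t), τ) : E) ∈ box z ε := by
  refine ⟨?_, ?_⟩
  · show |z.1 - z.1| < ε
    rw [sub_self, abs_zero]
    exact hε
  · show |z.2 + t - z.2| < ε
    rw [add_sub_cancel_left]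
    exact ht

theorem exists_box (h : IsClosed (Gam : Set P2)) {z : P2} (hz : z ∉ Gam) :
    ∃ ε > 0, box z ε ⊆ {e : E | e.1 ∉ Gam} := by
  have h1 : (Gam : Set P2)ᶜ ∈ 𝓝 z := h.isOpen_compl.mem_nhds hz
  obtain ⟨ε, hε, hb⟩ := Metric.mem_nhds_iff.1 h1
  refine ⟨ε, hε, fun e he => ?_⟩
  have h2 : e.1 ∈ Metric.ball z ε := by
    rw [Metric.mem_ball, Prod.dist_eq, max_lt_iff, Real.dist_eq, Real.dist_eq]
    exact he
  exact hb h2

theorem NS_symm {X : Type} [TopologicalSpace X] {x y : X} (h : NS x y) : NS y x := by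
  refine ⟨h.1.symm, fun U V hU hV hy hx => ?_⟩
  rw [inter_comm]
  exact h.2 V U hV hU hx hy

/-- one-sided limits in sign form -/
theorem side {X : Type} [TopologicalSpace X] {φ : ℝ → X} {a : X}
    (h : Tendsto φ (𝓝[<] 0) (𝓝 a) ∨ Tendsto φ (𝓝[>] 0) (𝓝 a)) :
    ∃ σ : ℝ, (σ = 1 ∨ σ = -1) ∧ Tendsto (fun t => φ (σ * t)) (𝓝[>] 0) (𝓝 a) := by
  rcases h with h | h
  · refine ⟨-1, Or.inr rfl, h.comp ?_⟩
    refine tendsto_nhdsWithin_iff.2 ⟨?_, ?_⟩
    · have : Tendsto (fun t : ℝ => -1 * t) (𝓝 0) (𝓝 (-1 * 0)) :=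
        (continuous_const.mul continuous_id).tendsto 0
      rw [mul_zero] at this
      exact this.mono_left nhdsWithin_le_nhds
    · filter_upwards [self_mem_nhdsWithin] with t ht
      show -1 * t < 0
      have : 0 < t := ht
      linarith
  · refine ⟨1, Or.inl rfl, ?_⟩
    simpa only [one_mul] using h

/-- near a limit in an open set on which `x` is continuous, `x` is close to its value at the limit -/
theorem near {X : Type} [TopologicalSpace X] {LA : Set X} {x : X → ℝ} (hopen : IsOpen LA)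
    (hx : ContinuousOn x LA) {a : X} (ha : a ∈ LA) {φ : ℝ → X}
    (h : Tendsto φ (𝓝[>] 0) (𝓝 a)) :
    ∃ δ > 0, ∀ t ∈ Ioo 0 δ, φ t ∈ LA ∧ |x (φ t) - x a| < 1 := by
  have h1 : ContinuousAt x a := hx.continuousAt (hopen.mem_nhds ha)
  have h2 : ∀ᶠ q in 𝓝 a, q ∈ LA ∧ |x q - x a| < 1 := by
    have h4 : ∀ᶠ q in 𝓝 a, q ∈ LA := hopen.mem_nhds ha
    have h5 := (Metric.tendsto_nhds.1 h1) 1 one_pos
    filter_upwards [h4, h5] with q hq hq'
    exact ⟨hq, by rwa [Real.dist_eq] at hq'⟩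
  have h3 := h.eventually h2
  obtain ⟨δ, hδ, hsub⟩ := mem_nhdsGT_iff_exists_Ioo_subset.1 h3
  exact ⟨δ, hδ, fun t ht => hsub ht⟩

end XLA19

theorem I_LA19 (h1 : PG1) (_h2 : PL1) (h3 : U05i) (h4 : AP3) (h5 : LA1) (h6 : LA5) (h7 : LA15)
    (h8 : LA16) (h9 : LA17) (h10 : LA18) (h11 : XR) (h12 : GL1) (h13 : GS1) (h14 : LT)
    (h15 : LA2) : LA19 := by
  intro D N _ _ C A hU hc a ha b hb hns
  have hopen := h7 D N C
  have hSC1 := h10 D N C
  obtain ⟨hx, hLA, hxc, -, -⟩ := h4 N (leafSetoid C (esA D)) Bool A hopen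
  have hU' : ∀ s, A.U s = C.U (.A s) := fun s => congrFun hU s
  have hc' : ∀ s, A.c s = C.c (.A s) := fun s => congrFun hc s
  obtain ⟨b0, rfl⟩ := Quotient.exists_rep b
  have hns' := XLA19.NS_symm hns
  rcases h5 D N C b0 with ⟨s, hs⟩ | ⟨m, hm, hm0⟩ | ⟨hR, hL⟩
  · exact hb ⟨s, b0, by rw [hU' s]; exact hs, rfl⟩
  · obtain ⟨g1, g2⟩ := h13 univ convex_univ univ_nonempty
    obtain ⟨f, hf, hfb⟩ := h12 IdxA domA (glueA D) N C (.g m) univ (fun _ _ => trivial) g1 g2 b0 hm
      (mem_univ _)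
    have hline := h8 D N C m f hf (C.c (.g m) b0).1.2 (C.c (.g m) b0).2
    set φ : ℝ → Quotient (leafSetoid C (esA D)) := fun t =>
      Quotient.mk (leafSetoid C (esA D)) (f ((t, (C.c (.g m) b0).1.2), (C.c (.g m) b0).2)) with hφ
    have hφ0 : φ 0 = Quotient.mk (leafSetoid C (esA D)) b0 := by
      have : (((0 : ℝ), (C.c (.g m) b0).1.2), (C.c (.g m) b0).2) = C.c (.g m) b0 := by
        rw [← hm0]
      show Quotient.mk _ (f (((0 : ℝ), (C.c (.g m) b0).1.2), (C.c (.g m) b0).2)) = _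
      rw [this, hfb]
    have hres : IsOpenEmbedding (fun t : Ioo (-1 : ℝ) 1 => φ t) :=
      hline.comp isOpen_Ioo.isOpenEmbedding_subtypeVal
    have hgerm := (h3 _ hSC1 1 φ one_pos hres a (by rw [hφ0]; exact hns.1)).1
    rw [hφ0] at hgerm
    obtain ⟨σ, hσ, hlim⟩ := XLA19.side (hgerm.1 hns')
    obtain ⟨δ, hδ, hnear⟩ := XLA19.near hLA hxc ha hlim
    -- the value of `x` along the line
    have hval : ∀ t, 0 < t → A.x (φ (σ * t)) = σ * (m : P2).1 + 1 / t := by
      intro t ht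
      obtain ⟨s, hs⟩ : ∃ s : Bool, sg s = σ := by
        rcases hσ with rfl | rfl
        · exact ⟨true, rfl⟩
        · exact ⟨false, rfl⟩
      have hσ2 : σ * σ = 1 := by rcases hσ with rfl | rfl <;> norm_num
      set e : E := ((σ * t, (C.c (.g m) b0).1.2), (C.c (.g m) b0).2) with he
      have hmem : f e ∈ C.U (.g m) := hf.mem e (mem_univ _)
      have hce : C.c (.g m) (f e) = e := hf.eq e (mem_univ _)
      have h := (h6 D N C m (f e) hmem).1 s (by
        rw [hce, hs]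
        show 0 < σ * (σ * t)
        rw [← mul_assoc, hσ2, one_mul]
        exact ht)
      have hxe := hx s (f e) (by rw [hU' s]; exact h.1)
      show A.x (Quotient.mk _ (f e)) = _
      rw [hxe, hc' s, h.2, hce, hs]
      show σ * (m : P2).1 + (D.Psi _).1 = _
      rw [D.Psi_fst]
      show σ * (m : P2).1 + σ / (σ * t) = _
      have hσ0 : σ ≠ 0 := by rcases hσ with rfl | rfl <;> norm_num
      congr 1
      rw [div_mul_cancel_left₀ hσ0, one_div]
    -- choose a small t
    set K : ℝ := |A.x a| + |σ * (m : P2).1| + 2 with hK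
    have hK0 : 0 < K := by positivity
    have ht0 : 0 < min (δ / 2) (1 / K) := lt_min (by linarith) (by positivity)
    have hA := (hnear (min (δ / 2) (1 / K)) ⟨ht0, lt_of_le_of_lt (min_le_left _ _) (by linarith)⟩).2
    rw [hval _ ht0] at hA
    have h1t : K ≤ 1 / min (δ / 2) (1 / K) := by
      rw [le_div_iff₀ ht0]
      have := mul_le_mul_of_nonneg_left (min_le_right (δ / 2) (1 / K)) hK0.le
      rwa [mul_one_div_cancel hK0.ne'] at this
    rw [abs_lt] at hA
    have e1 := le_abs_self (A.x a)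
    have e2 := neg_abs_le (σ * (m : P2).1)
    linarith [hA.2]
  · have hz : (C.c .R b0).1 ∉ Gam := C.maps .R hR
    obtain ⟨ε, hε, hbox⟩ := XLA19.exists_box h1.2.2.2.2.1 hz
    have hmem : C.c .R b0 ∈ box (C.c .R b0).1 ε :=
      XLA19.mem_box0 (C.c .R b0).1 hε (C.c .R b0).2
    obtain ⟨g1, g2⟩ := h13 (box (C.c .R b0).1 ε) (XLA19.convex_box _ _) ⟨_, hmem⟩
    obtain ⟨f, hf, hfb⟩ := h12 IdxA domA (glueA D) N C .R (box (C.c .R b0).1 ε) hbox g1 g2 b0 hR hmem
    have hline := h9 D N C (C.c .R b0).1 (C.c .R b0).2 ε f hε hL hf hbox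
    obtain ⟨z, hz'⟩ : ∃ z, z = (C.c .R b0).1 := ⟨_, rfl⟩
    obtain ⟨τ, hτ'⟩ : ∃ τ, τ = (C.c .R b0).2 := ⟨_, rfl⟩
    have hcb : C.c .R b0 = (z, τ) := by rw [hz', hτ']
    rw [← hz'] at hbox hf hline hL
    rw [← hτ'] at hline
    set φ : ℝ → Quotient (leafSetoid C (esA D)) := fun t =>
      Quotient.mk (leafSetoid C (esA D)) (f ((z.1, z.2 + t), τ)) with hφ
    have hφ0 : φ 0 = Quotient.mk (leafSetoid C (esA D)) b0 := by
      show Quotient.mk _ (f ((z.1, z.2 + 0), τ)) = _
      rw [add_zero]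
      show Quotient.mk _ (f (z, τ)) = _
      rw [← hcb, hfb]
    have hgerm := (h3 _ hSC1 ε φ hε hline a (by rw [hφ0]; exact hns.1)).1
    rw [hφ0] at hgerm
    obtain ⟨σ, hσ, hlim⟩ := XLA19.side (hgerm.1 hns')
    obtain ⟨δ, hδ, hnear⟩ := XLA19.near hLA hxc ha hlim
    have hσa : ∀ t : ℝ, 0 < t → |σ * t| = t := by
      intro t ht
      rcases hσ with rfl | rfl
      · rw [one_mul, abs_of_pos ht]
      · rw [neg_one_mul, abs_neg, abs_of_pos ht]
    obtain ⟨δ₀, hδ₀, hδ₀ε, hδ₀δ⟩ : ∃ δ₀ > 0, δ₀ < ε ∧ δ₀ ≤ δ :=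
      ⟨min (ε / 2) δ, lt_min (by linarith) hδ, lt_of_le_of_lt (min_le_left _ _) (by linarith),
        min_le_right _ _⟩
    have hmemb : ∀ t ∈ Ioo 0 δ₀, (((z.1, z.2 + σ * t), τ) : E) ∈ box z ε := fun t ht =>
      XLA19.mem_box hε (by rw [hσa t ht.1]; linarith [ht.2])
    have hfree : ∀ t ∈ Ioo 0 δ₀, ((z.1, z.2 + σ * t) : P2) ∉ D.Lam := by
      intro t ht hcon
      obtain ⟨⟨k, b1, hb1, hb1'⟩, -⟩ := hnear t ⟨ht.1, lt_of_lt_of_le ht.2 hδ₀δ⟩
      rw [hU' k] at hb1
      have hr : (leafSetoid C (esA D)) b1 (f ((z.1, z.2 + σ * t), τ)) := Quotient.exact hb1'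
      have hk := ((h14 D N C _ _ hr).1 k hb1).1
      have hfR := hf.mem _ (hmemb t ht)
      have hfc := hf.eq _ (hmemb t ht)
      exact ((h15 D N C _).2.2.2.1 hfR (by rw [hfc]; exact hcon)).1 k hk
    obtain ⟨m, -, s, δ₁, hδ₁, hδ₁₀, hA1, hA2, -⟩ :=
      h11 D N C z τ ε σ δ₀ f hε hσ hδ₀ hδ₀ε hL hf hbox hfree
    obtain ⟨δ', hδ', hδ'1, hM⟩ := hA2 (A.x a - 1)
    have htm : δ' / 2 ∈ Ioo 0 δ' := ⟨by linarith, by linarith⟩
    have hlt := hM _ htm
    have hAs := (hA1 (δ' / 2) ⟨htm.1, by linarith [htm.2]⟩).2.1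
    have hnr := (hnear (δ' / 2) ⟨htm.1, by linarith [htm.2]⟩).2
    have hxe := hx s _ (by rw [hU' s]; exact hAs)
    rw [hc' s] at hxe
    have hxe' : A.x (φ (σ * (δ' / 2))) =
      (C.c (.A s) (f ((z.1, z.2 + σ * (δ' / 2)), τ))).1.1 := hxe
    rw [hxe'] at hnr
    rw [abs_lt] at hnr
    linarith [hnr.1]

end Pool.Agent.Work.MP_0d206b_gt

end

end

/-! ### L.I_LA7 -/

section

/-! Item LA7 of module L. -/

set_option autoImplicit false

open Set Filter Topology
open scoped ContDiff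

namespace Pool.Agent.Work.MP_0d206b_gt

theorem I_LA7 (h1 : RL1) (h2 : RL2) (h3 : LA6) (h4 : LA7a) : LA7 := by
  intro D N _ C γ hγ t₀ s hs
  have hS : {t | γ t ∈ C.U (.A s)} = univ := by
    apply h1
    · exact (C.isOpen_U (.A s)).preimage hγ.cont
    · intro a ε hε hsub
      exact h4 D N C γ hγ a ε s hε (fun t ht => hsub ht)
    · intro a ε hε hsub
      have h5 := h4 D N C (fun t => γ (-t)) (h2 _ _ _ N C (esA D) γ hγ) (-a) ε s hε
        (fun t ht => hsub (show -t ∈ Ioo (a - ε) a from ⟨by linarith [ht.2], by linarith [ht.1]⟩))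
      simpa using h5
    · exact ⟨t₀, hs⟩
  have hall : ∀ t, γ t ∈ C.U (.A s) := by
    intro t
    have : t ∈ {t | γ t ∈ C.U (.A s)} := by rw [hS]; trivial
    exact this
  intro t
  refine ⟨hall t, ?_⟩
  have hd : ∀ u, HasDerivAt (fun u => (C.c (.A s) (γ u)).1.1) 0 u := fun u =>
    (h3 D N C γ hγ u).1 s (hall u)
  exact is_const_of_deriv_eq_zero (fun u => (hd u).differentiableAt) (fun u => (hd u).deriv) t t₀

end Pool.Agent.Work.MP_0d206b_gt

end

/-! ### L.I_LU0 -/

section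

/-!
# MP_0d206b_gt, module L: infinitesimal form of an unstable arc
-/

open Set Filter Topology
open scoped ContDiff

noncomputable section

namespace Pool.Agent.Work.MP_0d206b_gt

namespace XLU0

/-- a linear function which vanishes on the generators vanishes on the plane -/
theorem span_zero {L : E →L[ℝ] ℝ} {u v : E} (hu : L u = 0) (hv : L v = 0) {z : E}
    (hz : z ∈ Submodule.span ℝ {u, v}) : L z = 0 := by
  have h1 : Submodule.span ℝ {u, v} ≤ LinearMap.ker (L : E →ₗ[ℝ] ℝ) := by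
    rw [Submodule.span_le]
    rintro w (rfl | rfl)
    · exact hu
    · exact hv
  exact h1 hz

/-- derivative of a coordinate of an arc -/
theorem der {g : ℝ → E} {t : ℝ} (hg : ContDiffAt ℝ 1 g t) (L : E →L[ℝ] ℝ) {u v : E}
    (hu : L u = 0) (hv : L v = 0) (hz : deriv g t ∈ Submodule.span ℝ {u, v}) :
    HasDerivAt (fun s => L (g s)) 0 t := by
  have h1 : HasDerivAt g (deriv g t) t := (hg.differentiableAt (by simp)).hasDerivAt
  have h2 : HasDerivAt (fun s => L (g s)) (L (deriv g t)) t := L.hasFDerivAt.comp_hasDerivAt t h1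
  rwa [span_zero hu hv hz] at h2

end XLU0

open XLU0 in
theorem I_LU0 : LU0 := by
  intro D N _ C γ hγ t
  refine ⟨fun ht => ?_, fun m ht => ?_⟩
  · exact der (g := C.c .R ∘ γ) (hγ.smooth t .R ht)
      ((ContinuousLinearMap.fst ℝ ℝ ℝ).comp (ContinuousLinearMap.fst ℝ P2 ℝ))
      (u := euA D .R (C.c .R (γ t))) (v := ((0, 0), 1)) rfl rfl (hγ.tang t .R ht)
  · exact der (g := C.c (.g m) ∘ γ) (hγ.smooth t (.g m) ht)
      ((ContinuousLinearMap.snd ℝ ℝ ℝ).comp (ContinuousLinearMap.fst ℝ P2 ℝ))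
      (u := euA D (.g m) (C.c (.g m) (γ t))) (v := ((0, 0), 1)) rfl rfl (hγ.tang t (.g m) ht)

end Pool.Agent.Work.MP_0d206b_gt

end

end

/-! ### L.I_RL1 -/

section

/-!
# MP_0d206b_gt, item RL1: a nonempty open subset of the line containing the end points of its intervals
-/

open Set Filter Topology
open scoped ContDiff

noncomputable section

namespace Pool.Agent.Work.MP_0d206b_gt

theorem I_RL1 : RL1 := by
  rintro S hS hl hr ⟨t₀, h0⟩
  have hsub : connectedComponentIn S t₀ ⊆ S := connectedComponentIn_subset S t₀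
  have hpre : IsPreconnected (connectedComponentIn S t₀) := isPreconnected_connectedComponentIn
  have hmem : t₀ ∈ connectedComponentIn S t₀ := mem_connectedComponentIn h0
  have hord : OrdConnected (connectedComponentIn S t₀) := isPreconnected_iff_ordConnected.1 hpre
  have hcl : closure (connectedComponentIn S t₀) ⊆ S := by
    intro s hs
    rcases lt_trichotomy s t₀ with h | h | h
    · refine hl s (t₀ - s) (sub_pos.2 h) fun u hu => hsub ?_
      obtain ⟨j, hj1, hj2⟩ := mem_closure_iff_nhds.1 hs (Iio u) (Iio_mem_nhds hu.1)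
      refine hord.out hj2 hmem ⟨le_of_lt hj1, ?_⟩
      have := hu.2
      linarith
    · rw [h]
      exact h0
    · refine hr s (s - t₀) (sub_pos.2 h) fun u hu => hsub ?_
      obtain ⟨j, hj1, hj2⟩ := mem_closure_iff_nhds.1 hs (Ioi u) (Ioi_mem_nhds hu.2)
      refine hord.out hmem hj2 ⟨?_, le_of_lt hj1⟩
      have := hu.1
      linarith
  have hcl2 : closure (connectedComponentIn S t₀) ⊆ connectedComponentIn S t₀ :=
    hpre.closure.subset_connectedComponentIn (subset_closure hmem) hcl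
  have hclosed : IsClosed (connectedComponentIn S t₀) := isClosed_of_closure_subset hcl2
  have hclopen : IsClopen (connectedComponentIn S t₀) := ⟨hclosed, hS.connectedComponentIn⟩
  have := hclopen.eq_univ ⟨t₀, hmem⟩
  rw [eq_univ_iff_forall] at this ⊢
  exact fun t => hsub (this t)

end Pool.Agent.Work.MP_0d206b_gt

end

end

/-! ### L0.L011c -/

section

/-!
# MP_0d206b_gt, flow 0: the planar part of (C4)
-/

open Set Filter Topology

namespace Pool.Agent.Work.MP_0d206b_gt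

namespace L0L011c

theorem const_on {α : Type} {I : Set ℝ} (hI : IsPreconnected I) {F : ℝ → α}
    (h : ∀ r ∈ I, ∀ᶠ r' in 𝓝[I] r, F r' = F r) : ∀ r ∈ I, ∀ r' ∈ I, F r = F r' := by
  let _ : TopologicalSpace α := ⊥
  have : DiscreteTopology α := ⟨rfl⟩
  have hc : ContinuousOn F I := by
    intro r hr
    have : Tendsto F (𝓝[I] r) (pure (F r)) := by
      rw [tendsto_pure]; exact h r hr
    exact this.mono_right (pure_le_nhds _)
  intro r hr r' hr'
  exact (hI.image F hc).subsingleton (mem_image_of_mem F hr) (mem_image_of_mem F hr')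

theorem psi_zero (D : DA) : D.Psi 0 = 0 := by
  obtain ⟨r, hr, h⟩ := D.Psi_near
  exact h 0 (by simpa using hr)

theorem curve_psi (D : DA) {m : P2} (hm : m ∈ Gam) (k : ℝ) :
    IsCurve D.S univ (fun x => (m + D.Psi (x - m.1, k)).2) := by
  intro x _
  have hpt : ((x, (m + D.Psi (x - m.1, k)).2) : P2) = D.Psi (x - m.1, k) + m := by
    ext
    · simp [D.Psi_fst]
    · simp [add_comm]
  have hS : D.S (x, (m + D.Psi (x - m.1, k)).2) = D.S (D.Psi (x - m.1, k)) := by
    rw [hpt, D.S_add _ _ hm]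
  rw [hS, ← D.dxPsi]
  have hd : HasFDerivAt D.Psi (fderiv ℝ D.Psi (x - m.1, k)) (x - m.1, k) :=
    (D.Psi_smooth.differentiable (by simp)).differentiableAt.hasFDerivAt
  have hl : HasDerivAt (fun x : ℝ => ((x - m.1, k) : P2)) (1, 0) x := by
    have h1 : HasDerivAt (fun x : ℝ => x - m.1) 1 x := (hasDerivAt_id x).sub_const _
    exact h1.prodMk (hasDerivAt_const x k)
  have hc := hd.comp_hasDerivAt x hl
  have h2 : HasDerivAt (fun x : ℝ => (D.Psi (x - m.1, k)).2)
      ((fderiv ℝ D.Psi (x - m.1, k)) (1, 0)).2 x := by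
    have := (ContinuousLinearMap.snd ℝ ℝ ℝ).hasFDerivAt.comp_hasDerivAt x hc
    simpa [Function.comp_def] using this
  have h3 := h2.const_add m.2
  simpa [dx] using h3

end L0L011c

open L0L011c in
theorem I_L011c (hPG1 : PG1) (hPG2 : PG2) (hP1 : PL1) (hP2 : PL2) (hP3 : PL3) (hPS3 : PS3)
    (hA4 : AR4) (hAP1 : AP1) (h1 : L01) (h3 : L03) (h4 : L04) : L011c := by
  intro D N _ _ C z z' τ τ' ε ε' f f' hε hε' hz hz' hf hf' hbox hbox' σ δ u hσ hδ hδε hu hrel
    t ht Y hY hYt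
  obtain ⟨-, -, -, hidx, hclosed, -, hdecomp⟩ := hP1 D
  obtain ⟨hlinc, hidxc, hev⟩ := hP2 D
  obtain ⟨-, huniq, -⟩ := hPS3 D
  -- the points
  set p : ℝ → N := fun r => f ((z.1, z.2 + σ * r), τ) with hp
  set p' : ℝ → N := fun r => f' ((z'.1, z'.2 + u r), τ') with hp'
  have hσ' : ∀ r : ℝ, |σ * r| = |r| := by
    intro r
    rcases hσ with h | h <;> simp [h]
  have hmem : ∀ r ∈ Ioo 0 δ, (((z.1, z.2 + σ * r), τ) : E) ∈
      {e : E | |e.1.1 - z.1| < ε ∧ |e.1.2 - z.2| < ε} := by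
    intro r hr
    refine ⟨by simpa using hε, ?_⟩
    have : z.2 + σ * r - z.2 = σ * r := by ring
    show |z.2 + σ * r - z.2| < ε
    rw [this, hσ', abs_of_pos hr.1]
    exact hr.2.trans_le hδε
  have hmem' : ∀ r ∈ Ioo 0 δ, (((z'.1, z'.2 + u r), τ') : E) ∈
      {e : E | |e.1.1 - z'.1| < ε' ∧ |e.1.2 - z'.2| < ε'} := by
    intro r hr
    refine ⟨by simpa using hε', ?_⟩
    have : z'.2 + u r - z'.2 = u r := by ring
    show |z'.2 + u r - z'.2| < ε'
    rw [this]
    exact (hrel r hr).1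
  have hpR : ∀ r ∈ Ioo 0 δ, p r ∈ C.U .R ∧ C.c .R (p r) = ((z.1, z.2 + σ * r), τ) :=
    fun r hr => ⟨hf.mem _ (hmem r hr), hf.eq _ (hmem r hr)⟩
  have hpR' : ∀ r ∈ Ioo 0 δ, p' r ∈ C.U .R ∧ C.c .R (p' r) = ((z'.1, z'.2 + u r), τ') :=
    fun r hr => ⟨hf'.mem _ (hmem' r hr), hf'.eq _ (hmem' r hr)⟩
  have hpp : ∀ r ∈ Ioo 0 δ, (leafSetoid C (es0 D)) (p r) (p' r) := fun r hr => (hrel r hr).2
  by_cases hzt : ((z.1, z.2 + σ * t) : P2) ∈ D.Lam
  · -- case 1
    have hQ := hA4 Idx0 dom0 (glue0 D) N C (es0 D)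
      (fun b => b ∈ C.U .R ∧ (C.c .R b).1 ∈ D.Lam ∧ (C.c .R b).1.2 = Y (C.c .R b).1.1)
      (fun γ hγ hq => (h3 D N C γ hγ 0).2 hq.1 hq.2.1 Y hY hq.2.2 1)
      (fun γ hγ hq => (h3 D N C γ hγ 1).2 hq.1 hq.2.1 Y hY hq.2.2 0) _ _ (hpp t ht)
    have h := (hQ.1 ⟨(hpR t ht).1, by rw [(hpR t ht).2]; exact hzt,
      by rw [(hpR t ht).2]; exact hYt.symm⟩).2.2
    rw [(hpR' t ht).2] at h
    exact h.symm
  · -- case 2
    have hzc : Continuous (fun r : ℝ => ((z.1, z.2 + σ * r) : P2)) := by fun_prop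
    set Sg : Set ℝ := {r | r = 0 ∨ ((z.1, z.2 + σ * r) : P2) ∈ D.Lam} ∩ Icc 0 t with hSg
    have hScl : IsClosed Sg := by
      apply IsClosed.inter _ isClosed_Icc
      exact (isClosed_singleton (x := (0 : ℝ))).union (hclosed.preimage hzc)
    have hScomp : IsCompact Sg := isCompact_Icc.of_isClosed_subset hScl inter_subset_right
    have hSne : Sg.Nonempty := ⟨0, Or.inl rfl, le_refl _, ht.1.le⟩
    set t₁ := sSup Sg with ht₁
    have ht₁mem : t₁ ∈ Sg := hScomp.sSup_mem hSne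
    have ht₁lt : t₁ < t := by
      rcases lt_or_eq_of_le ht₁mem.2.2 with h | h
      · exact h
      · exfalso
        rcases ht₁mem.1 with h0 | h0
        · have := ht.1; rw [← h, h0] at this; exact lt_irrefl _ this
        · rw [h] at h0; exact hzt h0
    have ht₁Lam : ((z.1, z.2 + σ * t₁) : P2) ∈ D.Lam := by
      rcases ht₁mem.1 with h0 | h0
      · rw [h0]; simpa using hz
      · exact h0
    have hIδ : ∀ r ∈ Ioc t₁ t, r ∈ Ioo 0 δ := fun r hr =>
      ⟨ht₁mem.2.1.trans_lt hr.1, hr.2.trans_lt ht.2⟩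
    have hnot : ∀ r ∈ Ioc t₁ t, ((z.1, z.2 + σ * r) : P2) ∉ D.Lam := by
      intro r hr h
      have : r ∈ Sg := ⟨Or.inr h, (hIδ r hr).1.le, hr.2⟩
      exact absurd (le_csSup hScomp.bddAbove this) (not_le.2 hr.1)
    -- both points are in the attractor piece
    have hA : ∀ r ∈ Ioc t₁ t, p r ∈ C.U .A ∧ (C.c .A (p r)).1 =
        D.idx (z.1, z.2 + σ * r) + D.Psi ((D.lin (z.1, z.2 + σ * r)).2,
          (D.lin (z.1, z.2 + σ * r)).1) := by
      intro r hr
      obtain ⟨hi, hdec⟩ := hdecomp _ (hnot r hr)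
      have h := (h1 D N C (p r)).2.2.1 _ hi (D.lin (z.1, z.2 + σ * r)) (hpR r (hIδ r hr)).1
        (by rw [(hpR r (hIδ r hr)).2]; exact hdec)
      exact ⟨h.1, by rw [h.2]⟩
    have hA' : ∀ r ∈ Ioc t₁ t, p' r ∈ C.U .A := by
      intro r hr
      have hQ := hA4 Idx0 dom0 (glue0 D) N C (es0 D) (fun b => b ∈ C.U .A)
        (fun γ hγ hq => ((h3 D N C γ hγ 0).1 hq 1).1)
        (fun γ hγ hq => ((h3 D N C γ hγ 1).1 hq 0).1) _ _ (hpp r (hIδ r hr))
      exact hQ.1 (hA r hr).1
    have hnot' : ∀ r ∈ Ioc t₁ t, ((z'.1, z'.2 + u r) : P2) ∉ D.Lam := by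
      intro r hr h
      refine (h1 D N C (p' r)).2.1 (hpR' r (hIδ r hr)).1 ?_ (hA' r hr)
      rw [(hpR' r (hIδ r hr)).2]; exact h
    have hAc' : ∀ r ∈ Ioc t₁ t, (C.c .A (p' r)).1 =
        D.idx (z'.1, z'.2 + u r) + D.Psi ((D.lin (z'.1, z'.2 + u r)).2,
          (D.lin (z'.1, z'.2 + u r)).1) := by
      intro r hr
      obtain ⟨hi, hdec⟩ := hdecomp _ (hnot' r hr)
      have h := (h1 D N C (p' r)).2.2.1 _ hi (D.lin (z'.1, z'.2 + u r)) (hpR' r (hIδ r hr)).1
        (by rw [(hpR' r (hIδ r hr)).2]; exact hdec)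
      rw [h.2]
    -- constant indices
    have hIpre : IsPreconnected (Ioc t₁ t) := isPreconnected_Ioc
    have huc : ContinuousOn (fun r : ℝ => ((z'.1, z'.2 + u r) : P2)) (Ioc t₁ t) := by
      have : ContinuousOn u (Ioc t₁ t) := hu.mono (fun r hr => hIδ r hr)
      fun_prop
    have hm : ∀ r ∈ Ioc t₁ t, D.idx (z.1, z.2 + σ * r) = D.idx (z.1, z.2 + σ * t) := by
      intro r hr
      refine const_on hIpre (F := fun r => D.idx (z.1, z.2 + σ * r)) ?_ r hr t ⟨ht₁lt, le_refl _⟩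
      intro r hr
      have h := hzc.continuousAt.continuousWithinAt (s := Ioc t₁ t) |>.eventually
        ((hev _ (hnot r hr)).mono fun _ h => h.2)
      exact h
    have hm' : ∀ r ∈ Ioc t₁ t, D.idx (z'.1, z'.2 + u r) = D.idx (z'.1, z'.2 + u t) := by
      intro r hr
      refine const_on hIpre (F := fun r => D.idx (z'.1, z'.2 + u r)) ?_ r hr t ⟨ht₁lt, le_refl _⟩
      intro r hr
      have h := (huc r hr).eventually ((hev _ (hnot' r hr)).mono fun _ h => h.2)
      exact h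
    have htI : t ∈ Ioc t₁ t := ⟨ht₁lt, le_refl _⟩
    set m := D.idx (z.1, z.2 + σ * t) with hmdef
    set m' := D.idx (z'.1, z'.2 + u t) with hmdef'
    have hmG : m ∈ Gam := (hdecomp _ (hnot t htI)).1
    have hmG' : m' ∈ Gam := (hdecomp _ (hnot' t htI)).1
    set v : ℝ → P2 := fun r => D.lin (z.1, z.2 + σ * r) with hv
    set v' : ℝ → P2 := fun r => D.lin (z'.1, z'.2 + u r) with hv'
    have hdec : ∀ r ∈ Ioc t₁ t, ((z.1, z.2 + σ * r) : P2) = m + D.Psi (v r) := by
      intro r hr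
      have := (hdecomp _ (hnot r hr)).2
      rw [hm r hr] at this
      exact this
    have hdec' : ∀ r ∈ Ioc t₁ t, ((z'.1, z'.2 + u r) : P2) = m' + D.Psi (v' r) := by
      intro r hr
      have := (hdecomp _ (hnot' r hr)).2
      rw [hm' r hr] at this
      exact this
    have hv1 : ∀ r ∈ Ioc t₁ t, (v r).1 = z.1 - m.1 := by
      intro r hr
      have := congrArg Prod.fst (hdec r hr)
      simp only [Prod.fst_add, D.Psi_fst] at this
      linarith
    have hv1' : ∀ r ∈ Ioc t₁ t, (v' r).1 = z'.1 - m'.1 := by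
      intro r hr
      have := congrArg Prod.fst (hdec' r hr)
      simp only [Prod.fst_add, D.Psi_fst] at this
      linarith
    have hzA : ∀ r ∈ Ioc t₁ t, (C.c .A (p r)).1 = m + D.Psi ((v r).2, (v r).1) := by
      intro r hr
      rw [(hA r hr).2, hm r hr]
    have hzA' : ∀ r ∈ Ioc t₁ t, (C.c .A (p' r)).1 = m' + D.Psi ((v' r).2, (v' r).1) := by
      intro r hr
      rw [hAc' r hr, hm' r hr]
    -- the leaf in the attractor piece
    obtain ⟨A, hAU, hAc⟩ := h4 D N C
    have hIA : ∀ r ∈ Ioc t₁ t, (C.c .A (p' r)).1 ∈ IA (C.c .A (p r)).1 := by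
      intro r hr
      have h := hAP1 N (leafSetoid C (es0 D)) Unit A () (p r) (p' r)
        (by rw [hAU]; exact (hA r hr).1) (hpp r (hIδ r hr))
      have h2 := h.2.1
      rw [hAc] at h2
      exact h2
    have hX : ∀ r ∈ Ioc t₁ t, m'.1 + (v' r).2 = m.1 + (v r).2 := by
      intro r hr
      have := (hIA r hr).1
      rw [hzA r hr, hzA' r hr] at this
      simpa [D.Psi_fst] using this
    have hvc : ContinuousOn (fun r => (v r).2) (Ioc t₁ t) := by
      have : ContinuousOn (fun r => D.lin (z.1, z.2 + σ * r)) (Ioc t₁ t) :=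
        hlinc.comp hzc.continuousOn (fun r hr => hnot r hr)
      exact continuous_snd.comp_continuousOn this
    -- the claim
    have hmm : m = m' := by
      by_contra hne
      have hne2 : m.2 ≠ m'.2 := fun h => hne (hPG1.2.2.1 m hmG m' hmG' h)
      have hlt : min m.2 m'.2 < max m.2 m'.2 := min_lt_max.2 hne2
      -- unboundedness
      have hunb : ∀ M : ℝ, ∃ r ∈ Ioo t₁ t, M < |(v r).2| := by
        intro M
        have hM := hP3 D _ ht₁Lam (max M |z.1 - m.1|)
        have htend : Tendsto (fun r : ℝ => ((z.1, z.2 + σ * r) : P2)) (𝓝[>] t₁)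
            (𝓝 (z.1, z.2 + σ * t₁)) := hzc.continuousAt.continuousWithinAt
        have hev1 := htend.eventually hM
        have hev2 : ∀ᶠ r in 𝓝[>] t₁, r ∈ Ioo t₁ t := Ioo_mem_nhdsGT ht₁lt
        obtain ⟨r, hr1, hr2⟩ := (hev1.and hev2).exists
        refine ⟨r, hr2, ?_⟩
        have hrI : r ∈ Ioc t₁ t := ⟨hr2.1, hr2.2.le⟩
        rcases hr1 with h | h
        · exact absurd h (hnot r hrI)
        · have hnorm : ‖D.lin (z.1, z.2 + σ * r)‖ = max |(v r).1| |(v r).2| := by
            simp [Prod.norm_def, hv]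
          rw [hnorm, hv1 r hrI] at h
          rcases lt_max_iff.1 h with h | h
          · exact absurd h (not_lt.2 (le_max_right _ _))
          · exact (le_max_left _ _).trans_lt h
      -- no lattice point with `x = m.1 + (v r).2` between
      have key : ∀ r ∈ Ioc t₁ t, ∀ m₃ ∈ Gam, min m.2 m'.2 < m₃.2 → m₃.2 < max m.2 m'.2 →
          m₃.1 = m.1 + (v r).2 → False := by
        intro r hr m₃ hm₃ ha hb hx
        have hx1 : (m + D.Psi ((v r).2, (v r).1)).1 = (m₃ + D.Psi 0).1 := by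
          simp only [Prod.fst_add, D.Psi_fst, psi_zero D, Prod.fst_zero]; linarith
        have hx2 : (m' + D.Psi ((v' r).2, (v' r).1)).1 = (m₃ + D.Psi 0).1 := by
          simp only [Prod.fst_add, D.Psi_fst, psi_zero D, Prod.fst_zero]
          linarith [hX r hr]
        have h0 : (m₃ + D.Psi 0).2 = m₃.2 := by simp [psi_zero D]
        obtain ⟨-, hno⟩ := hIA r hr
        have hpt : (((C.c .A (p r)).1.1, m₃.2) : P2) = m₃ := by
          ext
          · rw [hzA r hr]; simp only [Prod.fst_add, D.Psi_fst]; linarith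
          · rfl
        refine hno m₃.2 ?_ (by rw [hpt]; exact hm₃)
        rw [hzA r hr, hzA' r hr, mem_uIcc]
        rcases lt_or_gt_of_ne hne2 with hlt' | hlt'
        · rw [min_eq_left hlt'.le] at ha
          rw [max_eq_right hlt'.le] at hb
          left
          have h1 := D.order m hmG m₃ hm₃ _ _ ha hx1
          have h2 := D.order m₃ hm₃ m' hmG' _ _ hb hx2.symm
          rw [h0] at h1 h2
          exact ⟨h1.le, h2.le⟩
        · rw [min_eq_right hlt'.le] at ha
          rw [max_eq_left hlt'.le] at hb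
          right
          have h1 := D.order m' hmG' m₃ hm₃ _ _ ha hx2
          have h2 := D.order m₃ hm₃ m hmG _ _ hb hx1.symm
          rw [h0] at h1 h2
          exact ⟨h1.le, h2.le⟩
      -- sign
      by_cases hpos : ∀ M : ℝ, ∃ r ∈ Ioo t₁ t, M < (v r).2
      · obtain ⟨m₃, hm₃, ha, hb, hc⟩ := hPG2.1 _ _ (m.1 + (v t).2) hlt
        obtain ⟨r₀, hr₀, hr₀'⟩ := hpos (m₃.1 - m.1)
        have hsub : Icc r₀ t ⊆ Ioc t₁ t := fun r hr => ⟨hr₀.1.trans_le hr.1, hr.2⟩
        have hiv := intermediate_value_Icc' hr₀.2.le (hvc.mono hsub)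
        obtain ⟨r, hr, hreq⟩ := hiv (show m₃.1 - m.1 ∈ Icc ((v t).2) ((v r₀).2) from
          ⟨by linarith, hr₀'.le⟩)
        exact key r (hsub hr) m₃ hm₃ ha hb (by simp only at hreq; linarith)
      · push Not at hpos
        obtain ⟨M₀, hM₀⟩ := hpos
        obtain ⟨m₃, hm₃, ha, hb, hc⟩ := hPG2.2 _ _ (m.1 + (v t).2) hlt
        obtain ⟨r₀, hr₀, hr₀'⟩ := hunb (max M₀ |m₃.1 - m.1|)
        have hneg : (v r₀).2 < m₃.1 - m.1 := by
          have h1 := hM₀ r₀ hr₀
          have h2 : M₀ < |(v r₀).2| := (le_max_left _ _).trans_lt hr₀'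
          have h3 : |m₃.1 - m.1| < |(v r₀).2| := (le_max_right _ _).trans_lt hr₀'
          have h4 : (v r₀).2 < 0 := by
            by_contra h
            rw [abs_of_nonneg (not_lt.1 h)] at h2
            linarith
          rw [abs_of_neg h4] at h3
          have := (abs_le.1 (le_refl |m₃.1 - m.1|)).1
          linarith
        have hsub : Icc r₀ t ⊆ Ioc t₁ t := fun r hr => ⟨hr₀.1.trans_le hr.1, hr.2⟩
        have hiv := intermediate_value_Icc hr₀.2.le (hvc.mono hsub)
        obtain ⟨r, hr, hreq⟩ := hiv (show m₃.1 - m.1 ∈ Icc ((v r₀).2) ((v t).2) from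
          ⟨hneg.le, by linarith⟩)
        exact key r (hsub hr) m₃ hm₃ ha hb (by simp only at hreq; linarith)
    -- conclusion
    have hk : (v' t).2 = (v t).2 := by
      have := hX t htI
      rw [← hmm] at this
      linarith
    have hcurve := curve_psi D hmG (v t).2
    have hval : (m + D.Psi (z.1 - m.1, (v t).2)).2 = z.2 + σ * t := by
      have h1 : ((z.1 - m.1, (v t).2) : P2) = v t := by
        rw [← hv1 t htI]
      rw [h1, ← hdec t htI]
    have hval' : (m + D.Psi (z'.1 - m.1, (v t).2)).2 = z'.2 + u t := by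
      have h1 : ((z'.1 - m.1, (v t).2) : P2) = v' t := by
        rw [← hk, hmm, ← hv1' t htI]
      rw [h1, hmm, ← hdec' t htI]
    have hEq := huniq Y _ univ isOpen_univ ordConnected_univ hY hcurve z.1 (mem_univ _)
      (by rw [hYt]; exact hval.symm)
    rw [hEq (mem_univ z'.1)]
    exact hval'

end Pool.Agent.Work.MP_0d206b_gt

end
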