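import Pool.Agent.Work.MP_0d206b_gt.Bd.StL

/-! ### L.I_AP0 -/

section

/-! Item AP0: elementary properties of the vertical intervals. -/

open Set Filter Topology
open scoped ContDiff

noncomputable section

namespace Pool.Agent.Work.MP_0d206b_gt

namespace XAP0

theorem conv (z : P2) : Convex ℝ (PA z) := by
  intro e he e' he' a b ha hb hab
  obtain ⟨h1, h2⟩ := he
  obtain ⟨h1', h2'⟩ := he'
  have e1 : (a • e + b • e').1.1 = a * e.1.1 + b * e'.1.1 := by simp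
  have e2 : (a • e + b • e').1.2 = a * e.1.2 + b * e'.1.2 := by simp
  refine ⟨?_, ?_⟩
  · rw [e1, h1, h1', ← add_mul, hab, one_mul]
  · rw [e2]
    intro t ht
    have hb' : b = 1 - a := by linarith
    have key : t ∈ Set.uIcc z.2 e.1.2 ∨ t ∈ Set.uIcc z.2 e'.1.2 := by
      rw [Set.mem_uIcc] at ht
      rw [Set.mem_uIcc, Set.mem_uIcc]
      subst hb'
      rcases le_total e.1.2 e'.1.2 with h | h
      · have l1 : e.1.2 ≤ a * e.1.2 + (1 - a) * e'.1.2 := by nlinarith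
        have l2 : a * e.1.2 + (1 - a) * e'.1.2 ≤ e'.1.2 := by nlinarith
        rcases ht with ht | ht
        · exact Or.inr (Or.inl ⟨ht.1, ht.2.trans l2⟩)
        · exact Or.inl (Or.inr ⟨l1.trans ht.1, ht.2⟩)
      · have l1 : a * e.1.2 + (1 - a) * e'.1.2 ≤ e.1.2 := by nlinarith
        have l2 : e'.1.2 ≤ a * e.1.2 + (1 - a) * e'.1.2 := by nlinarith
        rcases ht with ht | ht
        · exact Or.inl (Or.inl ⟨ht.1, ht.2.trans l1⟩)
        · exact Or.inr (Or.inr ⟨l2.trans ht.1, ht.2⟩)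
    rcases key with h | h
    · exact h2 t h
    · exact h2' t h

theorem self (z : P2) (hz : z ∉ Gam) : z ∈ IA z := by
  refine ⟨rfl, fun t ht => ?_⟩
  rw [Set.uIcc_self, Set.mem_singleton_iff] at ht
  rw [ht]
  exact hz

theorem symm {z z' : P2} (h : z' ∈ IA z) : z ∈ IA z' := by
  obtain ⟨h1, h2⟩ := h
  refine ⟨h1.symm, fun t ht => ?_⟩
  rw [Set.uIcc_comm] at ht
  rw [h1]
  exact h2 t ht

theorem trans {z z' w : P2} (h : z' ∈ IA z) (h' : w ∈ IA z') : w ∈ IA z := by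
  obtain ⟨h1, h2⟩ := h
  obtain ⟨h1', h2'⟩ := h'
  refine ⟨h1'.trans h1, fun t ht => ?_⟩
  rcases Set.uIcc_subset_uIcc_union_uIcc (b := z'.2) ht with h | h
  · exact h2 t h
  · rw [← h1]
    exact h2' t h

theorem sub (z : P2) : PA z ⊆ {e : E | e.1 ∉ Gam} := by
  intro e he
  obtain ⟨h1, h2⟩ := he
  have := h2 e.1.2 Set.right_mem_uIcc
  rw [← h1] at this
  exact this

theorem side {z z' : P2} (h : z' ∈ IA z) (m : P2) (hm : m ∈ Gam) (hmz : m.1 = z.1) :
    m.2 < z.2 ↔ m.2 < z'.2 := by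
  obtain ⟨h1, h2⟩ := h
  have hn : m.2 ∉ Set.uIcc z.2 z'.2 := by
    intro hc
    apply h2 _ hc
    rw [← hmz]
    exact hm
  rw [Set.mem_uIcc] at hn
  push Not at hn
  constructor
  · intro h
    by_contra hc
    push Not at hc
    exact absurd (hn.2 hc) (not_lt.2 h.le)
  · intro h
    by_contra hc
    push Not at hc
    exact absurd (hn.1 hc) (not_lt.2 h.le)

end XAP0

theorem I_AP0 : AP0 :=
  ⟨XAP0.conv, XAP0.self, fun _ _ h => ⟨XAP0.symm h, Set.ext fun _ =>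
    ⟨fun hw => XAP0.trans h hw, fun hw => XAP0.trans (XAP0.symm h) hw⟩⟩, XAP0.sub,
    fun _ _ h m hm hmz => XAP0.side h m hm hmz⟩

end Pool.Agent.Work.MP_0d206b_gt

end

end

/-! ### L.I_AR4 -/

section

/-! Project MP_0d206b_gt, item AR4: properties preserved by arcs are preserved by the leaf
relation. -/

set_option autoImplicit false

namespace Pool.Agent.Work.MP_0d206b_gt

open Set Filter Topology

theorem I_AR4 : AR4 := by
  intro ι dom glue N _ C w Q h0 h1 b b' h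
  have h2 : Relation.EqvGen (fun a b => ∃ γ, IsArc C w γ ∧ γ 0 = a ∧ γ 1 = b) b b' := h
  induction h2 with
  | rel x y hxy =>
    obtain ⟨γ, hγ, rfl, rfl⟩ := hxy
    exact ⟨h0 γ hγ, h1 γ hγ⟩
  | refl x => exact Iff.rfl
  | symm x y hxy ih => exact (ih hxy).symm
  | trans x y z hxy hyz ih1 ih2 => exact (ih1 hxy).trans (ih2 hyz)

end Pool.Agent.Work.MP_0d206b_gt

end

/-! ### L.I_Crit -/

section

open Set Filter Topology
open scoped ContDiff

noncomputable section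

namespace Pool.Agent.Work.MP_0d206b_gt

namespace XCrit

variable {X : Type} [TopologicalSpace X]

theorem ns_symm {a b : X} (h : NS a b) : NS b a :=
  ⟨h.1.symm, fun U V hU hV ha hb => by
    rw [inter_comm]
    exact h.2 V U hV hU hb ha⟩

/-- a line through a point on which a locally injective function is increasing -/
theorem line (hX : IsSC1 X) {LA : Set X} {x : X → ℝ} (hLA : IsOpen LA) (hx : ContinuousOn x LA)
    (hinj : ∀ a ∈ LA, ∃ W ∈ 𝓝 a, InjOn x W) (a : X) (ha : a ∈ LA) :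
    ∃ f : ℝ → X, IsOpenEmbedding f ∧ f 0 = a ∧ ∃ ε > 0, StrictMonoOn (x ∘ f) (Ioo (-ε) ε) := by
  obtain ⟨f₁, hf₁, t₀, ht₀⟩ := hX.loc a
  set f₂ : ℝ → X := fun t => f₁ (t + t₀) with hf₂
  have hf₂e : IsOpenEmbedding f₂ := hf₁.comp (Homeomorph.addRight t₀).isOpenEmbedding
  have hf₂0 : f₂ 0 = a := by rw [hf₂]; dsimp only; rw [zero_add]; exact ht₀
  obtain ⟨W, hW, hWi⟩ := hinj a ha
  have h1 : f₂ ⁻¹' (W ∩ LA) ∈ 𝓝 (0 : ℝ) := by
    apply hf₂e.continuous.continuousAt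
    rw [hf₂0]
    exact inter_mem hW (hLA.mem_nhds ha)
  obtain ⟨ε, hε, hball⟩ := Metric.mem_nhds_iff.1 h1
  have hsub : Ioo (-ε) ε ⊆ f₂ ⁻¹' (W ∩ LA) := by
    intro t ht
    apply hball
    rw [Metric.mem_ball, Real.dist_eq, sub_zero, abs_lt]
    exact ht
  have hc : ContinuousOn (x ∘ f₂) (Ioo (-ε) ε) :=
    hx.comp hf₂e.continuous.continuousOn (fun t ht => (hsub ht).2)
  have hi : InjOn (x ∘ f₂) (Ioo (-ε) ε) := by
    intro s hs t ht hst
    exact hf₂e.injective (hWi (hsub hs).1 (hsub ht).1 hst)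
  rcases ContinuousOn.strictMonoOn_of_injOn_Ioo (by linarith) hc hi with h | h
  · exact ⟨f₂, hf₂e, hf₂0, ε, hε, h⟩
  · refine ⟨fun t => f₂ (-t), hf₂e.comp (Homeomorph.neg ℝ).isOpenEmbedding, ?_, ε, hε, ?_⟩
    · dsimp only
      rw [neg_zero]
      exact hf₂0
    · intro s hs t ht hst
      exact h ⟨by linarith [ht.2], by linarith [ht.1]⟩ ⟨by linarith [hs.2], by linarith [hs.1]⟩
        (neg_lt_neg hst)

/-- two non separated points are not in one line -/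
theorem not_line {a y : X} (h : NS a y) {k : ℝ → X} (hk : IsOpenEmbedding k) (ha : a ∈ range k)
    (hy : y ∈ range k) : False := by
  obtain ⟨s, rfl⟩ := ha
  obtain ⟨t, rfl⟩ := hy
  have hst : s ≠ t := fun e => h.1 (by rw [e])
  obtain ⟨U, V, hU, hV, hs, ht, hd⟩ := t2_separation hst
  obtain ⟨_, ⟨u, hu, rfl⟩, ⟨v, hv, hvu⟩⟩ := h.2 (k '' U) (k '' V) (hk.isOpenMap _ hU) (hk.isOpenMap _ hV)
    ⟨s, hs, rfl⟩ ⟨t, ht, rfl⟩
  rw [hk.injective hvu] at hv
  exact disjoint_left.1 hd hu hv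

theorem germ (h1 : U03) (h2 : U05) (hX : IsSC1 X) {x : X → ℝ} {f : ℝ → X} (hf : IsOpenEmbedding f)
    {ε : ℝ} (hε : 0 < ε) (hm : StrictMonoOn (x ∘ f) (Ioo (-ε) ε)) {y : X} (hy : y ≠ f 0)
    (hC : ∀ U V : Set X, IsOpen U → IsOpen V → f 0 ∈ U → y ∈ V → ∃ c, c ∈ U ∧ c ∈ V ∧ x c < x (f 0)) :
    NS (f 0) y ∧ Tendsto f (𝓝[<] 0) (𝓝 y) := by
  have hNS : NS (f 0) y := by
    refine ⟨hy.symm, fun U V hU hV ha hyV => ?_⟩
    obtain ⟨c, hcU, hcV, -⟩ := hC U V hU hV ha hyV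
    exact ⟨c, hcU, hcV⟩
  refine ⟨hNS, ?_⟩
  rcases (h2 X hX f hf 0 y hy).1.1 hNS with h | h
  · exact h
  · exfalso
    obtain ⟨k, hk, hyk⟩ := hX.loc y
    have hΩ : IsOpen (range k) := hk.isOpen_range
    have hoc := h1 X hX (range k) (isPreconnected_range hk.continuous) f hf
    have h0 : (0 : ℝ) ∉ f ⁻¹' (range k) := fun h0 => not_line hNS hk h0 hyk
    -- a positive parameter
    have hev : ∀ᶠ t in 𝓝[>] (0 : ℝ), f t ∈ range k := h (hΩ.mem_nhds hyk)
    obtain ⟨t, ht, ht0⟩ := (hev.and self_mem_nhdsWithin).exists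
    -- a negative parameter
    have hIo : IsOpen (f '' Ioo (-ε) ε) := hf.isOpenMap _ isOpen_Ioo
    obtain ⟨c, ⟨s, hs, rfl⟩, hck, hcx⟩ := hC (f '' Ioo (-ε) ε) (range k) hIo hΩ
      ⟨0, ⟨by linarith, hε⟩, rfl⟩ hyk
    have hs0 : s < 0 := by
      by_contra hs0
      have hs0' : 0 ≤ s := not_lt.1 hs0
      have h3 := (hm.le_iff_le ⟨by linarith, hε⟩ hs).2 hs0'
      exact absurd hcx (not_lt.2 h3)
    exact h0 (hoc.out hck ht ⟨hs0.le, le_of_lt ht0⟩)

theorem germ_right (h1 : U03) (h2 : U05) (hX : IsSC1 X) {x : X → ℝ} {f : ℝ → X}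
    (hf : IsOpenEmbedding f) {ε : ℝ} (hε : 0 < ε) (hm : StrictMonoOn (x ∘ f) (Ioo (-ε) ε)) {y : X}
    (hy : y ≠ f 0)
    (hC : ∀ U V : Set X, IsOpen U → IsOpen V → f 0 ∈ U → y ∈ V → ∃ c, c ∈ U ∧ c ∈ V ∧ x (f 0) < x c) :
    NS (f 0) y ∧ Tendsto f (𝓝[>] 0) (𝓝 y) := by
  set g : ℝ → X := fun t => f (-t) with hg
  have hge : IsOpenEmbedding g := hf.comp (Homeomorph.neg ℝ).isOpenEmbedding
  have hg0 : g 0 = f 0 := by rw [hg]; dsimp only; rw [neg_zero]
  have hgm : StrictMonoOn ((fun z => - x z) ∘ g) (Ioo (-ε) ε) := by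
    intro s hs t ht hst
    exact neg_lt_neg (hm ⟨by linarith [ht.2], by linarith [ht.1]⟩
      ⟨by linarith [hs.2], by linarith [hs.1]⟩ (neg_lt_neg hst))
  obtain ⟨e1, e2⟩ := germ h1 h2 hX hge hε hgm (y := y) (by rw [hg0]; exact hy) (by
    intro U V hU hV haU hyV
    rw [hg0] at haU
    obtain ⟨c, c1, c2, c3⟩ := hC U V hU hV haU hyV
    refine ⟨c, c1, c2, ?_⟩
    rw [hg0]
    exact neg_lt_neg c3)
  rw [hg0] at e1
  refine ⟨e1, ?_⟩
  have h3 : Tendsto (fun t : ℝ => -t) (𝓝[>] 0) (𝓝[<] 0) := by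
    apply tendsto_nhdsWithin_iff.2
    constructor
    · have h4 : Tendsto (fun t : ℝ => -t) (𝓝 0) (𝓝 0) := by
        have := (continuous_neg (G := ℝ)).tendsto 0
        rwa [neg_zero] at this
      exact h4.mono_left nhdsWithin_le_nhds
    · filter_upwards [self_mem_nhdsWithin] with t ht
      exact neg_lt_zero.2 (mem_Ioi.1 ht)
  have h5 := e2.comp h3
  refine h5.congr (fun t => ?_)
  show f (- -t) = f t
  rw [neg_neg]

theorem unique_limit {f : ℝ → X} {F : Filter ℝ} [NeBot F] {w y : X} (hw : Tendsto f F (𝓝 w))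
    (hy : Tendsto f F (𝓝 y)) (hne : w ≠ y) : NS w y := by
  refine ⟨hne, fun U V hU hV hwU hyV => ?_⟩
  obtain ⟨t, ht1, ht2⟩ := ((hw.eventually (hU.mem_nhds hwU)).and (hy.eventually (hV.mem_nhds hyV))).exists
  exact ⟨f t, ht1, ht2⟩

theorem sing_types (h1 : U03) (h2 : U05) {LA : Set X} {x : X → ℝ} {up : X → Prop} {sing : Set X}
    (hX : IsSC1 X) (hA : CritA X LA x up sing) (hB : CritB X LA) (a : X) (ha : a ∈ sing) :
    ∃ y z, y ≠ z ∧ ¬ NS y z ∧ ∀ w, NS a w ↔ w = y ∨ w = z := by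
  have haLA := hA.sub ha
  obtain ⟨f, hf, hfa, ε, hε, hm⟩ := line hX hA.openA hA.contx hA.inj a haLA
  obtain ⟨yL, hyL, hyLa, hCL⟩ := hA.C2l a ha
  obtain ⟨yR, hyR, hyRa, hCR⟩ := hA.C2r a ha
  subst hfa
  obtain ⟨l1, l2⟩ := germ h1 h2 hX hf hε hm hyLa (fun U V hU hV haU hyV => by
    obtain ⟨c, -, c1, c2, c3⟩ := hCL U V hU hV haU hyV
    exact ⟨c, c1, c2, c3⟩)
  obtain ⟨r1, r2⟩ := germ_right h1 h2 hX hf hε hm hyRa (fun U V hU hV haU hyV => by
    obtain ⟨c, -, c1, c2, c3⟩ := hCR U V hU hV haU hyV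
    exact ⟨c, c1, c2, c3⟩)
  have uL := (hA.C1 _ haLA _ hyL l1).2.2
  have uR := (hA.C1 _ haLA _ hyR r1).2.2
  refine ⟨yL, yR, ?_, ?_, ?_⟩
  · rintro rfl
    exact (h2 X hX f hf 0 yL hyLa).2 ⟨l2, r2⟩
  · intro h
    have := (hA.C1 _ hyL _ hyR h).2.2
    tauto
  · intro w
    constructor
    · intro hw
      have hwLA : w ∈ LA := by
        by_contra hw'
        exact hB.C3 _ haLA w hw' hw
      have uw := (hA.C1 _ haLA _ hwLA hw).2.2
      rcases (h2 X hX f hf 0 w hw.1.symm).1.1 hw with h | h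
      · left
        by_contra hne
        have := (hA.C1 _ hwLA _ hyL (unique_limit h l2 hne)).2.2
        tauto
      · right
        by_contra hne
        have := (hA.C1 _ hwLA _ hyR (unique_limit h r2 hne)).2.2
        tauto
    · rintro (rfl | rfl)
      · exact l1
      · exact r1

end XCrit

theorem I_Crit (h1 : U03) (h2 : U05) : Crit := by
  intro X _ LA x up sing hX hA hB
  refine ⟨hX, ?_, ?_⟩
  · intro a
    by_cases ha : a ∈ LA
    · by_cases hs : a ∈ sing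
      · exact Or.inr (XCrit.sing_types h1 h2 hX hA hB a hs)
      · left
        intro y hy
        by_cases hyLA : y ∈ LA
        · exact hs (hA.C1 _ ha _ hyLA hy).1
        · exact hB.C3 _ ha _ hyLA hy
    · left
      intro y hy
      by_cases hyLA : y ∈ LA
      · exact hB.C3 _ hyLA _ ha (XCrit.ns_symm hy)
      · exact hB.C4 _ ha _ hyLA hy
  · rw [dense_iff_inter_open]
    intro O hO hne
    obtain ⟨a, haO, haLA⟩ := (dense_iff_inter_open.1 hB.denseA) O hO hne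
    obtain ⟨b, hbO, hbs⟩ := hA.dense a haLA O hO haO
    obtain ⟨y, z, -, -, h⟩ := XCrit.sing_types h1 h2 hX hA hB b hbs
    exact ⟨b, hbO, y, (h y).2 (Or.inl rfl)⟩

end Pool.Agent.Work.MP_0d206b_gt

end

end

/-! ### L.I_GL1 -/

section

/-!
# MP_0d206b_gt, item GL1: lifting criterion
-/

open Set Filter Topology
open scoped ContDiff

noncomputable section

namespace Pool.Agent.Work.MP_0d206b_gt

theorem I_GL1 : GL1 := by
  intro ι dom glue N _ C i Y hYd hsc hlp b hb hbY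
  have hcov := C.cov i
  let f : C(Y, dom i) := ⟨Set.inclusion hYd, continuous_inclusion hYd⟩
  obtain ⟨F, ⟨hF0, hF⟩, -⟩ := hcov.existsUnique_continuousMap_lifts f ⟨C.c i b, hbY⟩ ⟨b, hb⟩ rfl
  classical
  refine ⟨fun e => if h : e ∈ Y then (F ⟨e, h⟩ : N) else b, ⟨?_, ?_, ?_⟩, ?_⟩
  · rw [continuousOn_iff_continuous_domRestrict]
    have h1 : Continuous fun e : Y => (F e : N) := continuous_subtype_val.comp F.continuous
    refine h1.congr fun e => ?_
    show (F e : N) = if h : e.1 ∈ Y then (F ⟨e.1, h⟩ : N) else b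
    rw [dif_pos e.2]
  · intro e he
    show (if h : e ∈ Y then (F ⟨e, h⟩ : N) else b) ∈ C.U i
    rw [dif_pos he]
    exact (F ⟨e, he⟩).2
  · intro e he
    show C.c i (if h : e ∈ Y then (F ⟨e, h⟩ : N) else b) = e
    rw [dif_pos he]
    have h1 := congrFun hF ⟨e, he⟩
    exact congrArg Subtype.val h1
  · show (if h : C.c i b ∈ Y then (F ⟨C.c i b, h⟩ : N) else b) = b
    rw [dif_pos hbY, hF0]

end Pool.Agent.Work.MP_0d206b_gt

end

end

/-! ### L.I_LA11 -/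

section

open Set Filter Topology

noncomputable section

namespace Pool.Agent.Work.MP_0d206b_gt

namespace XLA11

lemma mem_plane {D : DA} {m : Gam} {p v : E} (hp : p.1.1 = 0) (hv : v.1.1 = 0) :
    v ∈ plane (esA D) (.g m) p := by
  unfold plane
  rw [Submodule.mem_span_pair]
  refine ⟨v.1.2, v.2, ?_⟩
  have h : esA D (.g m) p = (((0, 1) : P2), (0 : ℝ)) := by
    show ((((0, 1) : P2), 2 * p.1.2 * p.1.1 ^ 2 / (Real.log lam * (1 + p.1.1 ^ 2 * p.1.2 ^ 2))) : E) = _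
    rw [hp]
    simp
  rw [h]
  ext
  · simp [hv]
  · simp
  · simp

end XLA11

open XLA11 in
theorem I_LA11 (h1 : LA8) (h2 : AR3) (h3 : AR4) (h4 : GL5) (h5 : CPAs) : LA11 := by
  intro D N _ C m f hf e he b'
  constructor
  · intro hrel
    have key : ∀ γ, IsArc C (esA D) γ → ∀ t₀ t₁ : ℝ,
        (γ t₀ ∈ C.U (.g m) ∧ (C.c (.g m) (γ t₀)).1.1 = 0 ∧ f (C.c (.g m) (γ t₀)) = γ t₀) →
        (γ t₁ ∈ C.U (.g m) ∧ (C.c (.g m) (γ t₁)).1.1 = 0 ∧ f (C.c (.g m) (γ t₁)) = γ t₁) := by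
      intro γ hγ t₀ t₁ hQ
      have h6 := h1 D N C γ hγ t₀ m hQ.1 hQ.2.1
      have h7 := h4 IdxA domA (glueA D) N C (.g m) univ f (fun _ _ => mem_univ _) hf γ hγ.cont
        (fun t => ⟨(h6 t).1, mem_univ _⟩) t₀ hQ.2.2
      exact ⟨(h6 t₁).1, (h6 t₁).2, h7 t₁⟩
    have h8 := (h3 IdxA domA (glueA D) N C (esA D)
      (fun b₁ => b₁ ∈ C.U (.g m) ∧ (C.c (.g m) b₁).1.1 = 0 ∧ f (C.c (.g m) b₁) = b₁)
      (fun γ hγ h => key γ hγ 0 1 h) (fun γ hγ h => key γ hγ 1 0 h) (f e) b' hrel).mp ?_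
    · exact ⟨C.c (.g m) b', h8.2.1, h8.2.2⟩
    · have h9 := hf.eq e (mem_univ e)
      exact ⟨hf.mem e (mem_univ e), by rw [h9]; exact he, by rw [h9]⟩
  · rintro ⟨e', he', rfl⟩
    refine h2 IdxA domA (glueA D) N C (esA D) (h5 D) (.g m) univ f (fun _ _ => mem_univ _) hf e e'
      (fun _ _ => mem_univ _) ?_
    intro p hp
    refine mem_plane ?_ ?_
    · obtain ⟨a, b, _, _, _, rfl⟩ := hp
      simp [he, he']
    · simp [he, he']

end Pool.Agent.Work.MP_0d206b_gt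

end

end

/-! ### L.I_LA15c -/

section

/-!
# MP_0d206b_gt, item LA15c: openness of the quotient map at leaves in `Lam`
-/

open Set Filter Topology
open scoped ContDiff

noncomputable section

namespace Pool.Agent.Work.MP_0d206b_gt

namespace XLA15c

theorem cont_of_curve {f : P2 → ℝ} {Y : ℝ → ℝ} (hY : IsCurve f univ Y) : Continuous Y :=
  continuous_iff_continuousAt.2 fun x => (hY x (mem_univ x)).continuousAt

/-- pieces of graphs (times the flow direction) -/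
def gr (Y : ℝ → ℝ) (I : Set ℝ) : Set E := {e : E | e.1.1 ∈ I ∧ e.1.2 = Y e.1.1}

/-- tubes -/
def tube (Y : ℝ → ℝ) (a b ρ : ℝ) : Set E := {e : E | a < e.1.1 ∧ e.1.1 < b ∧ |e.1.2 - Y e.1.1| < ρ}

theorem gr_good (h : GS2) {Y : ℝ → ℝ} (hY : Continuous Y) {I : Set ℝ} (hI : Convex ℝ I) (hne : I.Nonempty) :
    SimplyConnectedSpace (gr Y I) ∧ LocallyPathConnectedSpace (gr Y I) := by
  have hK : Convex ℝ {e : E | e.1.1 ∈ I ∧ e.1.2 = 0} := by
    rintro a ⟨ha, ha'⟩ b ⟨hb, hb'⟩ s t hs ht hst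
    refine ⟨hI ha hb hs ht hst, ?_⟩
    show s * a.1.2 + t * b.1.2 = 0
    rw [ha', hb']
    ring
  obtain ⟨x, hx⟩ := hne
  have h0 := h Y hY {e : E | e.1.1 ∈ I ∧ e.1.2 = 0} hK ⟨((x, 0), 0), hx, rfl⟩
  have heq : gr Y I = {e : E | ((e.1.1, e.1.2 - Y e.1.1), e.2) ∈ {e : E | e.1.1 ∈ I ∧ e.1.2 = 0}} := by
    ext e
    show e.1.1 ∈ I ∧ e.1.2 = Y e.1.1 ↔ e.1.1 ∈ I ∧ e.1.2 - Y e.1.1 = 0
    rw [sub_eq_zero]
  rw [heq]
  exact h0

theorem tube_good (h : GS2) {Y : ℝ → ℝ} (hY : Continuous Y) {a b ρ : ℝ} (hab : a < b) (hρ : 0 < ρ) :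
    SimplyConnectedSpace (tube Y a b ρ) ∧ LocallyPathConnectedSpace (tube Y a b ρ) := by
  have hK : Convex ℝ {e : E | a < e.1.1 ∧ e.1.1 < b ∧ |e.1.2| < ρ} := by
    rintro e ⟨h1, h2, h3⟩ e' ⟨h1', h2', h3'⟩ s t hs ht hst
    have hI : Convex ℝ (Ioo a b) := convex_Ioo a b
    have hJ : Convex ℝ (Ioo (-ρ) ρ) := convex_Ioo _ _
    have e1 := hI ⟨h1, h2⟩ ⟨h1', h2'⟩ hs ht hst
    have e2 := hJ (abs_lt.1 h3) (abs_lt.1 h3') hs ht hst
    exact ⟨e1.1, e1.2, abs_lt.2 e2⟩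
  refine h Y hY {e : E | a < e.1.1 ∧ e.1.1 < b ∧ |e.1.2| < ρ} hK ⟨(((a + b) / 2, 0), 0), ?_, ?_, ?_⟩
  · show a < (a + b) / 2
    linarith
  · show (a + b) / 2 < b
    linarith
  · show |(0 : ℝ)| < ρ
    rw [abs_zero]
    exact hρ

theorem isOpen_tube {Y : ℝ → ℝ} (hY : Continuous Y) (a b ρ : ℝ) : IsOpen (tube Y a b ρ) := by
  have h1 : Continuous fun e : E => e.1.1 := continuous_fst.fst
  have h2 : Continuous fun e : E => |e.1.2 - Y e.1.1| := (continuous_fst.snd.sub (hY.comp h1)).abs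
  exact (isOpen_lt continuous_const h1).inter ((isOpen_lt h1 continuous_const).inter (isOpen_lt h2 continuous_const))

/-- a curve over a reparametrised interval -/
theorem contDiff_comp {g x : ℝ → ℝ} {f : ℝ → ℝ} (hx : ContDiff ℝ 1 x) (hf : ∀ t, HasDerivAt g (f t) (x t))
    (hfc : Continuous f) : ContDiff ℝ 1 (fun t => g (x t)) := by
  have hxd : ∀ t, HasDerivAt x (deriv x t) t := fun s => ((hx.differentiable one_ne_zero) s).hasDerivAt
  have hd : ∀ t, HasDerivAt (fun t => g (x t)) (f t * deriv x t) t := fun t => (hf t).comp t (hxd t)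
  rw [contDiff_one_iff_deriv]
  refine ⟨fun t => (hd t).differentiableAt, ?_⟩
  have h1 : deriv (fun t => g (x t)) = fun t => f t * deriv x t := by
    funext t
    exact (hd t).deriv
  rw [h1]
  exact hfc.mul (hx.continuous_deriv le_rfl)

end XLA15c

open XLA15c in
theorem I_LA15c (h1 : PS3) (h2 : PS5) (h3 : GL1) (h4 : GL2) (h5 : GL4) (h6 : GS2) (h7 : AR2) (h8 : CPAs) (h9 : LA12)
    (h10 : PL1) (h11 : PS1) : LA15c := by
  intro D N _ _ C b b' hb hL hr O hO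
  obtain ⟨-, -, -, -, -, hLG, -⟩ := h10 D
  obtain ⟨Y, hY, hYz⟩ := (h1 D).1 (C.c .R b).1
  have hYc : Continuous Y := cont_of_curve hY
  have hYL : ∀ x, ((x, Y x) : P2) ∈ D.Lam := (h1 D).2.2 Y hY (C.c .R b).1.1 (by rw [hYz]; exact hL)
  have hG : graphE Y = gr Y univ := by
    ext e
    exact ⟨fun h => ⟨mem_univ _, h⟩, fun h => h.2⟩
  have hsub : graphE Y ⊆ domA .R := by
    intro e he
    have : e.1 = (e.1.1, Y e.1.1) := Prod.ext rfl he
    show e.1 ∉ Gam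
    rw [this]
    exact hLG _ (hYL e.1.1)
  have hmem : C.c .R b ∈ graphE Y := hYz.symm
  obtain ⟨hsc, hlp⟩ := gr_good h6 hYc (I := univ) convex_univ ⟨0, mem_univ _⟩
  rw [← hG] at hsc hlp
  obtain ⟨f, hf, hfb⟩ := h3 IdxA domA (glueA D) N C .R (graphE Y) hsub hsc hlp b hb hmem
  obtain ⟨e', he', hfe'⟩ := (h9 D N C Y hY hYL f hf (C.c .R b) hmem b').1 (by rw [hfb]; exact hr)
  have hb'R : b' ∈ C.U .R := by rw [← hfe']; exact hf.mem e' he'
  have hce : C.c .R b' = e' := by rw [← hfe']; exact hf.eq e' he'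
  -- the tube
  set X₁ : ℝ := min (C.c .R b).1.1 e'.1.1 with hX₁
  set X₂ : ℝ := max (C.c .R b).1.1 e'.1.1 with hX₂
  have hz1 : X₁ ≤ (C.c .R b).1.1 := min_le_left _ _
  have hz2 : (C.c .R b).1.1 ≤ X₂ := le_max_left _ _
  have he1 : X₁ ≤ e'.1.1 := min_le_right _ _
  have he2 : e'.1.1 ≤ X₂ := le_max_right _ _
  obtain ⟨ρ, hρ, hfree, hflow⟩ := h2 D Y hY hYL X₁ X₂ (hz1.trans hz2)
  set T : Set E := tube Y (X₁ - ρ) (X₂ + ρ) ρ with hT
  have hTo : IsOpen T := isOpen_tube hYc _ _ _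
  have hTd : T ⊆ domA .R := fun e he => hfree e.1.1 e.1.2 he.1 he.2.1 he.2.2
  obtain ⟨hsc2, hlp2⟩ := tube_good h6 hYc (a := X₁ - ρ) (b := X₂ + ρ) (by linarith) hρ
  have hbT : C.c .R b ∈ T := by
    refine ⟨by linarith, by linarith, ?_⟩
    rw [hYz, sub_self, abs_zero]
    exact hρ
  have he'T : e' ∈ T := by
    refine ⟨by linarith, by linarith, ?_⟩
    rw [show e'.1.2 = Y e'.1.1 from he', sub_self, abs_zero]
    exact hρ
  obtain ⟨s, hs, hsb⟩ := h3 IdxA domA (glueA D) N C .R T hTd hsc2 hlp2 b hb hbT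
  -- `s e' = b'`
  have hse' : s e' = b' := by
    have hI : Convex ℝ (Ioo (X₁ - ρ) (X₂ + ρ)) := convex_Ioo _ _
    obtain ⟨hsc3, -⟩ := gr_good h6 hYc hI ⟨(C.c .R b).1.1, by linarith, by linarith⟩
    have hpre : IsPreconnected (gr Y (Ioo (X₁ - ρ) (X₂ + ρ))) := by
      rw [isPreconnected_iff_preconnectedSpace]
      infer_instance
    have hs1 : gr Y (Ioo (X₁ - ρ) (X₂ + ρ)) ⊆ T := by
      rintro e ⟨⟨ha, hb⟩, hc⟩
      refine ⟨ha, hb, ?_⟩
      rw [hc, sub_self, abs_zero]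
      exact hρ
    have hs2 : gr Y (Ioo (X₁ - ρ) (X₂ + ρ)) ⊆ graphE Y := fun e he => he.2
    have l1 : IsLift C .R (gr Y (Ioo (X₁ - ρ) (X₂ + ρ))) s :=
      ⟨hs.cont.mono hs1, fun e he => hs.mem e (hs1 he), fun e he => hs.eq e (hs1 he)⟩
    have l2 : IsLift C .R (gr Y (Ioo (X₁ - ρ) (X₂ + ρ))) f :=
      ⟨hf.cont.mono hs2, fun e he => hf.mem e (hs2 he), fun e he => hf.eq e (hs2 he)⟩
    have hbg : C.c .R b ∈ gr Y (Ioo (X₁ - ρ) (X₂ + ρ)) := ⟨⟨by linarith, by linarith⟩, hmem⟩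
    have heg : e' ∈ gr Y (Ioo (X₁ - ρ) (X₂ + ρ)) := ⟨⟨by linarith, by linarith⟩, he'⟩
    rw [h4 IdxA domA (glueA D) N C .R _ s f hpre (hs1.trans hTd) l1 l2 (C.c .R b) hbg (by rw [hsb, hfb]) heg, hfe']
  -- the neighbourhood of `b`
  obtain ⟨η, hη, hηO⟩ : ∃ η > 0, ∀ y, |y - (C.c .R b).1.2| < η → s (((C.c .R b).1.1, y), (C.c .R b).2) ∈ O := by
    have hc1 : ContinuousAt s (C.c .R b) := hs.cont.continuousAt (hTo.mem_nhds hbT)
    have hc2 : ContinuousAt (fun y : ℝ => ((((C.c .R b).1.1, y), (C.c .R b).2) : E)) (C.c .R b).1.2 := by fun_prop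
    have hc3 : Tendsto (fun y : ℝ => s (((C.c .R b).1.1, y), (C.c .R b).2)) (𝓝 (C.c .R b).1.2) (𝓝 b) := by
      have := hc1.tendsto.comp hc2.tendsto
      rw [hsb] at this
      exact this
    obtain ⟨η, hη, h⟩ := Metric.mem_nhds_iff.1 (hc3 hO)
    exact ⟨η, hη, fun y hy => h (by rw [Metric.mem_ball, Real.dist_eq]; exact hy)⟩
  obtain ⟨δ, hδ, hδc⟩ := hflow (min η ρ) (lt_min hη hρ)
  -- near `b'`
  have hev1 : ∀ᶠ b'' in 𝓝 b', b'' ∈ C.U .R ∧ C.c .R b'' ∈ T ∧ s (C.c .R b'') = b'' :=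
    h5 IdxA domA (glueA D) N C .R T s hTo hTd hs b' hb'R (by rw [hce]; exact he'T) (by rw [hce]; exact hse')
  have hccont : ContinuousAt (C.c .R) b' := (XArc.contOn_c C .R).continuousAt ((C.isOpen_U .R).mem_nhds hb'R)
  have hev2 : ∀ᶠ b'' in 𝓝 b', C.c .R b'' ∈ tube Y (X₁ - min δ ρ) (X₂ + min δ ρ) δ := by
    refine hccont.eventually ((isOpen_tube hYc _ _ _).mem_nhds ?_)
    have hm : 0 < min δ ρ := lt_min hδ hρ
    rw [hce]
    refine ⟨by linarith, by linarith, ?_⟩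
    rw [show e'.1.2 = Y e'.1.1 from he', sub_self, abs_zero]
    exact hδ
  filter_upwards [hev1, hev2] with b'' ⟨hR'', hT'', hs''⟩ ⟨ht1, ht2, ht3⟩
  have hm1 : min δ ρ ≤ δ := min_le_left _ _
  have hm2 : min δ ρ ≤ ρ := min_le_right _ _
  obtain ⟨Y', hY'0, hY'c, hY'n⟩ := hδc (C.c .R b'').1.1 (C.c .R b'').1.2 (by linarith) (by linarith) ht3
  -- the curve
  set x₀ : ℝ := (C.c .R b'').1.1 with hx₀
  set x₁ : ℝ := (C.c .R b).1.1 with hx₁
  set h : ℝ → ℝ := Real.smoothTransition with hh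
  have hhc : ContDiff ℝ 1 h := Real.smoothTransition.contDiff
  set x : ℝ → ℝ := fun t => x₀ + h t * (x₁ - x₀) with hx
  have hxC : ContDiff ℝ 1 x := contDiff_const.add (hhc.mul contDiff_const)
  have hxI : ∀ t, x t ∈ Ioo (X₁ - min δ ρ) (X₂ + min δ ρ) := by
    intro t
    have hm : 0 < min δ ρ := lt_min hδ hρ
    have hcv := convex_Ioo (X₁ - min δ ρ) (X₂ + min δ ρ) (x := x₀) ⟨ht1, ht2⟩ (y := x₁)
      ⟨by linarith, by linarith⟩ (a := 1 - h t) (b := h t) (by have := Real.smoothTransition.le_one t; linarith)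
      (Real.smoothTransition.nonneg t) (by ring)
    have heq : (1 - h t) • x₀ + h t • x₁ = x t := by
      simp only [smul_eq_mul, hx]
      ring
    rw [heq] at hcv
    exact hcv
  have hxI2 : ∀ t, x t ∈ Ioo (X₁ - δ) (X₂ + δ) := fun t => ⟨by linarith [(hxI t).1], by linarith [(hxI t).2]⟩
  have hnear : ∀ t, |Y' (x t) - Y (x t)| < min η ρ := fun t => hY'n (x t) (hxI2 t)
  have hu : Continuous fun t => Y' (x t) := by
    refine continuous_iff_continuousAt.2 fun t => ?_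
    exact (hY'c (x t) (hxI2 t)).continuousAt.comp hxC.continuous.continuousAt
  have hoff : ∀ t, ((x t, Y' (x t)) : P2) ∉ Gam := by
    intro t
    refine hfree (x t) (Y' (x t)) (by linarith [(hxI t).1]) (by linarith [(hxI t).2]) ?_
    exact (hnear t).trans_le (min_le_right _ _)
  have hσc : Continuous fun t => D.sigma (x t, Y' (x t)) := by
    refine continuous_iff_continuousAt.2 fun t => ?_
    have hZ : {z : P2 | z ∉ Gam} ∈ 𝓝 ((x t, Y' (x t)) : P2) := by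
      have hop : IsOpen {z : P2 | X₁ - ρ < z.1 ∧ z.1 < X₂ + ρ ∧ |z.2 - Y z.1| < ρ} := by
        have g1 : Continuous fun e : P2 => |e.2 - Y e.1| := (continuous_snd.sub (hYc.comp continuous_fst)).abs
        exact (isOpen_lt continuous_const continuous_fst).inter ((isOpen_lt continuous_fst continuous_const).inter
          (isOpen_lt g1 continuous_const))
      refine Filter.mem_of_superset (hop.mem_nhds ⟨by linarith [(hxI t).1], by linarith [(hxI t).2],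
        (hnear t).trans_le (min_le_right _ _)⟩) ?_
      rintro z ⟨z1, z2, z3⟩
      exact hfree z.1 z.2 z1 z2 z3
    exact ContinuousAt.comp (f := fun t => ((x t, Y' (x t)) : P2)) ((h11 D).continuousAt hZ)
      (hxC.continuous.prodMk hu).continuousAt
  have huC : ContDiff ℝ 1 fun t => Y' (x t) :=
    contDiff_comp (g := Y') (f := fun t => D.sigma (x t, Y' (x t))) hxC (fun t => hY'c (x t) (hxI2 t)) hσc
  set τ : ℝ → ℝ := fun t => (C.c .R b'').2 + h t * ((C.c .R b).2 - (C.c .R b'').2) with hτ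
  have hτC : ContDiff ℝ 1 τ := contDiff_const.add (hhc.mul contDiff_const)
  set κ : ℝ → E := fun t => ((x t, Y' (x t)), τ t) with hκ
  have hκC : ContDiff ℝ 1 κ := (hxC.prodMk huC).prodMk hτC
  have hκT : ∀ t, κ t ∈ T := fun t =>
    ⟨by linarith [(hxI t).1], by linarith [(hxI t).2], (hnear t).trans_le (min_le_right _ _)⟩
  have hκd : ∀ t, deriv κ t ∈ plane (esA D) .R (κ t) := by
    intro t
    have d1 : HasDerivAt x (deriv x t) t := ((hxC.differentiable one_ne_zero) t).hasDerivAt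
    have d2 : HasDerivAt τ (deriv τ t) t := ((hτC.differentiable one_ne_zero) t).hasDerivAt
    have d3 : HasDerivAt (fun t => Y' (x t)) (D.sigma (x t, Y' (x t)) * deriv x t) t :=
      (hY'c (x t) (hxI2 t)).comp t d1
    have d4 : HasDerivAt κ ((deriv x t, D.sigma (x t, Y' (x t)) * deriv x t), deriv τ t) t :=
      (d1.prodMk d3).prodMk d2
    rw [d4.deriv]
    refine Submodule.mem_span_pair.2 ⟨deriv x t, deriv τ t - deriv x t * D.Ka (x t, Y' (x t)), ?_⟩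
    refine Prod.ext (Prod.ext ?_ ?_) ?_
    · show deriv x t * 1 + (deriv τ t - deriv x t * D.Ka (x t, Y' (x t))) * 0 = deriv x t
      ring
    · show deriv x t * D.sigma (x t, Y' (x t)) + (deriv τ t - deriv x t * D.Ka (x t, Y' (x t))) * 0 =
        D.sigma (x t, Y' (x t)) * deriv x t
      ring
    · show deriv x t * D.Ka (x t, Y' (x t)) + (deriv τ t - deriv x t * D.Ka (x t, Y' (x t))) * 1 = deriv τ t
      ring
  have hrel := h7 IdxA domA (glueA D) N C (esA D) (h8 D) .R T s hTd hs κ hκC hκT hκd 1 0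
  have hκ0 : κ 0 = C.c .R b'' := by
    have h0 : h 0 = 0 := Real.smoothTransition.zero
    simp only [hκ, hx, hτ, h0, zero_mul, add_zero]
    rw [hY'0]
  have hκ1 : κ 1 = ((x₁, Y' x₁), (C.c .R b).2) := by
    have h0 : h 1 = 1 := Real.smoothTransition.one
    simp only [hκ, hx, hτ, h0, one_mul, add_sub_cancel]
  rw [hκ0, hs'', hκ1] at hrel
  refine ⟨_, hηO (Y' x₁) ?_, hrel⟩
  have h12 := hY'n x₁ ⟨by linarith, by linarith⟩
  rw [hYz] at h12
  exact h12.trans_le (min_le_left _ _)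

end Pool.Agent.Work.MP_0d206b_gt

end

end

/-! ### L.I_LA21 -/

section

/-!
# MP_0d206b_gt, flow a: (C4) for a leaf of type `ξ = 0` and a leaf in `Lam`
-/

open Set Filter Topology

namespace Pool.Agent.Work.MP_0d206b_gt

namespace XLA21

theorem box_exists (hPG : PG1) (z : P2) (hz : z ∉ Gam) :
    ∃ ε > 0, box z ε ⊆ {e : E | e.1 ∉ Gam} := by
  have hcl : IsClosed (Gam : Set P2) := hPG.2.2.2.2.1
  have hopen : IsOpen ((Gam : Set P2)ᶜ) := hcl.isOpen_compl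
  obtain ⟨ε, hε, hball⟩ := Metric.isOpen_iff.1 hopen z hz
  refine ⟨ε, hε, fun e he => ?_⟩
  have : e.1 ∈ Metric.ball z ε := by
    rw [Metric.mem_ball, Prod.dist_eq, Real.dist_eq, Real.dist_eq]
    exact max_lt he.1 he.2
  exact hball this

theorem box_convex (z : P2) (ε : ℝ) : Convex ℝ (box z ε) := by
  have h1 : Convex ℝ ((fun e : E => e.1.1) ⁻¹' Metric.ball z.1 ε) :=
    (convex_ball z.1 ε).is_linear_preimage ⟨fun _ _ => rfl, fun _ _ => rfl⟩
  have h2 : Convex ℝ ((fun e : E => e.1.2) ⁻¹' Metric.ball z.2 ε) :=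
    (convex_ball z.2 ε).is_linear_preimage ⟨fun _ _ => rfl, fun _ _ => rfl⟩
  have h3 := h1.inter h2
  have h4 : ((fun e : E => e.1.1) ⁻¹' Metric.ball z.1 ε) ∩ ((fun e : E => e.1.2) ⁻¹' Metric.ball z.2 ε)
      = box z ε := by
    ext e; simp [box, Metric.mem_ball, Real.dist_eq]
  rwa [h4] at h3

theorem box_lift (hGS : GS1) (hG1 : GL1) {D : DA} {N : Type} [TopologicalSpace N]
    (C : CoverData domA (glueA D) N) (b : N) (hb : b ∈ C.U .R) {ε : ℝ} (hε : 0 < ε)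
    (hsub : box (C.c .R b).1 ε ⊆ {e : E | e.1 ∉ Gam}) :
    ∃ f : E → N, IsLift C .R (box (C.c .R b).1 ε) f ∧ f (C.c .R b) = b := by
  have hmem : C.c .R b ∈ box (C.c .R b).1 ε := by
    constructor <;> simpa using hε
  obtain ⟨h1, h2⟩ := hGS _ (box_convex (C.c .R b).1 ε) ⟨_, hmem⟩
  exact hG1 IdxA domA (glueA D) N C .R _ hsub h1 h2 b hb hmem

theorem ns_symm {X : Type} [TopologicalSpace X] {x y : X} (h : NS x y) : NS y x :=
  ⟨h.1.symm, fun U V hU hV hx hy => by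
    obtain ⟨c, hc1, hc2⟩ := h.2 V U hV hU hy hx
    exact ⟨c, hc2, hc1⟩⟩

end XLA21

open XLA21 in
theorem I_LA21 (h1 : PG1) (h2 : PL1) (h3 : LA2) (h4 : LA5) (h5 : LA16) (h6 : LA17) (h7 : LA18)
    (h8 : LT) (h9 : LA13) (h10 : NSg) (h11 : XR) (h12 : GL1) (h13 : GS1) : LA21 := by
  intro D N _ _ C m b b' hb hb' hξ hz hNS
  have hNS' := ns_symm hNS
  obtain ⟨-, -, -, -, -, hLamG, -⟩ := h2 D
  obtain ⟨ε, hε, hsub⟩ := box_exists h1 (C.c .R b').1 (hLamG _ hz)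
  obtain ⟨f, hf, hfb⟩ := box_lift h13 h12 C b' hb' hε hsub
  generalize hez : C.c .R b' = e at *
  obtain ⟨z, τ⟩ := e
  simp only at *
  obtain ⟨g, hg, hgb⟩ : ∃ g : E → N, IsLift C (.g m) univ g ∧ g (C.c (.g m) b) = b := by
    obtain ⟨k1, k2⟩ := h13 univ convex_univ ⟨0, mem_univ _⟩
    exact h12 IdxA domA (glueA D) N C (.g m) univ (fun _ _ => mem_univ _) k1 k2 b hb (mem_univ _)
  generalize heb : C.c (.g m) b = e at *
  obtain ⟨⟨ξ, η⟩, τ₁⟩ := e
  simp only at *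
  subst hξ
  have hφ := h6 D N C z τ ε f hε hz hf hsub
  have hψ : IsOpenEmbedding (fun t : Ioo (-1 : ℝ) 1 =>
      Quotient.mk (leafSetoid C (esA D)) (g (((t : ℝ), η), τ₁))) :=
    (h5 D N C m g hg η τ₁).comp isOpen_Ioo.isOpenEmbedding_subtypeVal
  have hφ0 : Quotient.mk (leafSetoid C (esA D)) (f ((z.1, z.2 + 0), τ)) = Quotient.mk _ b' := by
    rw [add_zero]; exact congrArg _ hfb
  have hψ0 : Quotient.mk (leafSetoid C (esA D)) (g (((0 : ℝ), η), τ₁)) = Quotient.mk _ b :=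
    congrArg _ hgb
  obtain ⟨σ, hσ, hall⟩ := h10 _ (h7 D N C) ε 1
    (fun t => Quotient.mk (leafSetoid C (esA D)) (f ((z.1, z.2 + t), τ)))
    (fun t => Quotient.mk (leafSetoid C (esA D)) (g ((t, η), τ₁))) hε one_pos hφ hψ
    (by rw [hφ0, hψ0]; exact hNS')
  obtain ⟨δ₁, hδ₁, hδ₁ε, hδ⟩ := hall 1 one_pos
  have habs : ∀ t : ℝ, 0 < t → |σ * t| = t := by
    intro t ht
    rcases hσ with h | h <;> simp [h, abs_of_pos ht]
  have hinj : ∀ t ∈ Ioo 0 ε, ∀ t' ∈ Ioo 0 ε,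
      Quotient.mk (leafSetoid C (esA D)) (f ((z.1, z.2 + σ * t), τ)) =
        Quotient.mk _ (f ((z.1, z.2 + σ * t'), τ)) → t = t' := by
    intro t ht t' ht' he
    have m1 : σ * t ∈ Ioo (-ε) ε := by rw [mem_Ioo, ← abs_lt, habs t ht.1]; exact ht.2
    have m2 : σ * t' ∈ Ioo (-ε) ε := by rw [mem_Ioo, ← abs_lt, habs t' ht'.1]; exact ht'.2
    have := hφ.injective (a₁ := ⟨σ * t, m1⟩) (a₂ := ⟨σ * t', m2⟩) he
    have h := congrArg Subtype.val this
    simp only at h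
    rcases hσ with h' | h' <;> simpa [h'] using h
  obtain ⟨δ₀, hδ₀, hδ₀₁, hne⟩ : ∃ δ₀ > 0, δ₀ ≤ δ₁ ∧ ∀ t ∈ Ioo 0 δ₀,
      Quotient.mk (leafSetoid C (esA D)) (f ((z.1, z.2 + σ * t), τ)) ≠ Quotient.mk _ b := by
    by_cases hex : ∃ t ∈ Ioo 0 δ₁,
        Quotient.mk (leafSetoid C (esA D)) (f ((z.1, z.2 + σ * t), τ)) = Quotient.mk _ b
    · obtain ⟨t₀, ht₀, he⟩ := hex
      refine ⟨t₀, ht₀.1, ht₀.2.le, fun t ht h => ?_⟩
      have := hinj t ⟨ht.1, by linarith [ht.2, ht₀.2]⟩ t₀ ⟨ht₀.1, by linarith [ht₀.2]⟩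
        (h.trans he.symm)
      exact absurd this ht.2.ne
    · push Not at hex
      exact ⟨δ₁, hδ₁, le_refl _, hex⟩
  -- points of the side are attractor points
  have key : ∀ t ∈ Ioo 0 δ₀, ∃ (s : Bool) (u : ℝ), 0 < sg s * u ∧
      f ((z.1, z.2 + σ * t), τ) ∈ C.U (.A s) ∧
      (C.c (.A s) (f ((z.1, z.2 + σ * t), τ))).1.1 = sg s * (m : P2).1 + sg s / u := by
    intro t ht
    obtain ⟨u, -, hu⟩ := hδ t ⟨ht.1, ht.2.trans_le hδ₀₁⟩
    have hrel : (leafSetoid C (esA D)) (f ((z.1, z.2 + σ * t), τ)) (g ((u, η), τ₁)) :=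
      Quotient.exact hu
    have hu0 : u ≠ 0 := by
      rintro rfl
      exact hne t ht (hu.trans hψ0)
    have hPg : g ((u, η), τ₁) ∈ C.U (.g m) := hg.mem _ (mem_univ _)
    have hcg : C.c (.g m) (g ((u, η), τ₁)) = ((u, η), τ₁) := hg.eq _ (mem_univ _)
    obtain ⟨s, hs⟩ : ∃ s : Bool, 0 < sg s * u := by
      rcases lt_or_gt_of_ne hu0 with h | h
      · exact ⟨false, by simpa [sg] using h⟩
      · exact ⟨true, by simpa [sg] using h⟩
    have h5' := (h4 D N C m _ hPg).1 s (by rw [hcg]; exact hs)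
    rw [hcg] at h5'
    have hLT := (h8 D N C _ _ ((leafSetoid C (esA D)).symm hrel)).1 s h5'.1
    refine ⟨s, u, hs, hLT.1, ?_⟩
    rw [hLT.2, h5'.2]
    simp [D.Psi_fst]
  have hfR : ∀ t ∈ Ioo 0 δ₀, f ((z.1, z.2 + σ * t), τ) ∈ C.U .R ∧
      C.c .R (f ((z.1, z.2 + σ * t), τ)) = ((z.1, z.2 + σ * t), τ) := by
    intro t ht
    have hmem : (((z.1, z.2 + σ * t), τ) : E) ∈ box z ε := by
      refine ⟨by simpa using hε, ?_⟩
      show |z.2 + σ * t - z.2| < ε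
      have e1 : z.2 + σ * t - z.2 = σ * t := by ring
      rw [e1, habs t ht.1]
      linarith [ht.2]
    exact ⟨hf.mem _ hmem, hf.eq _ hmem⟩
  have hnot : ∀ t ∈ Ioo 0 δ₀, ((z.1, z.2 + σ * t) : P2) ∉ D.Lam := by
    intro t ht hL
    obtain ⟨s, u, -, hA, -⟩ := key t ht
    have := (h3 D N C (f ((z.1, z.2 + σ * t), τ))).2.2.2.1 (hfR t ht).1
      (by rw [(hfR t ht).2]; exact hL)
    exact this.1 s hA
  obtain ⟨m'', hm'', s, δ, hδpos, hδlt, hAs, hM, -⟩ := h11 D N C z τ ε σ δ₀ f hε hσ hδ₀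
    (by linarith) hz hf hsub hnot
  obtain ⟨δ', hδ', hδ'δ, hx⟩ := hM (-|(m : P2).1|)
  have ht : δ' / 2 ∈ Ioo 0 δ' := ⟨by linarith, by linarith⟩
  have ht0 : δ' / 2 ∈ Ioo 0 δ₀ := ⟨by linarith, by linarith⟩
  obtain ⟨s', u, hu, hA', hx'⟩ := key _ ht0
  have hAss := (hAs (δ' / 2) ⟨by linarith, by linarith⟩).2.1
  have hss : s' = s := (h3 D N C _).1 s' s hA' hAss
  subst hss
  have hlt := hx _ ht
  rw [hx'] at hlt
  have hsg : |sg s' * (m : P2).1| = |(m : P2).1| := by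
    rw [abs_mul]
    have : |sg s'| = 1 := by cases s' <;> simp [sg]
    rw [this, one_mul]
  have h1' := neg_abs_le (sg s' * (m : P2).1)
  rw [hsg] at h1'
  have h2' : 0 < sg s' / u := by
    have hu0 : u ≠ 0 := by rintro rfl; simp at hu
    have : sg s' / u = sg s' * u / (u * u) := by field_simp
    rw [this]
    exact div_pos hu (mul_self_pos.2 hu0)
  linarith

end Pool.Agent.Work.MP_0d206b_gt

end

/-! ### L.I_LA9 -/

section

/-!
# MP_0d206b_gt, module L: item LA9, stable arcs stay in `Lam` of the repeller piece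
-/

set_option autoImplicit false

open Set Filter Topology
open scoped ContDiff

noncomputable section

namespace Pool.Agent.Work.MP_0d206b_gt

namespace XLA9

theorem sigma_lam (D : DA) {z : P2} (hz : z ∈ D.Lam) : D.sigma z = D.S z := if_pos hz

end XLA9

theorem I_LA9 (h1 : LA1) (h2 : LA2) (h3 : LA7) (h4 : LA8) (h5 : LA6) (h6 : RL3) (_h7 : PL1) :
    LA9 := by
  intro D N _ C γ hγ t₀ hR hL Y hY h0
  have key : ∀ t, γ t ∈ C.U .R ∧ (C.c .R (γ t)).1 ∈ D.Lam := by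
    intro t
    have hx := (h2 D N C (γ t₀)).2.2.2.1 hR hL
    rcases h1 D N C (γ t) with ⟨s, hs⟩ | ⟨m, hm, hm0⟩ | h
    · exact absurd (h3 D N C γ hγ t s hs t₀).1 (hx.1 s)
    · exact absurd (h4 D N C γ hγ t m hm hm0 t₀).1 (hx.2 m)
    · exact h
  have hx1 : ContDiff ℝ 1 (fun u => (C.c .R (γ u)).1.1) :=
    contDiff_iff_contDiffAt.2 fun t => (hγ.smooth t .R (key t).1).fst.fst
  have hy1 : ∀ t, HasDerivAt (fun u => (C.c .R (γ u)).1.2)
      (D.S ((C.c .R (γ t)).1.1, (C.c .R (γ t)).1.2) *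
        deriv (fun u => (C.c .R (γ u)).1.1) t) t := by
    intro t
    obtain ⟨a, ha, hb⟩ := (h5 D N C γ hγ t).2.2 (key t).1
    rw [XLA9.sigma_lam D (key t).2] at hb
    rw [ha.deriv]
    exact hb
  intro t
  exact ⟨(key t).1, (key t).2,
    h6 D (fun u => (C.c .R (γ u)).1.1) (fun u => (C.c .R (γ u)).1.2) Y hx1 hy1 hY t₀ h0 t⟩

end Pool.Agent.Work.MP_0d206b_gt

end

end

/-! ### L.I_SA -/

section

/-!
# MP_0d206b_gt, module L: in flow a the repeller piece is onto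
-/

open Set Filter Topology
open scoped ContDiff

noncomputable section

namespace Pool.Agent.Work.MP_0d206b_gt

namespace XSA

theorem univ_pc : IsPathConnected (univ : Set E) :=
  convex_univ.isPathConnected ⟨0, trivial⟩

end XSA

theorem I_SA (h1 : ZC) (h2 : SJ) (h3 : LA3) (h4 : LA4) (h5 : LA5) (h6 : PL1) (h7 : PL5)
    (h8 : PG1) : SA := by
  intro D N _ _ C e he
  have hR : IsPathConnected (domA .R) := h1.2
  suffices hne : (C.U .R).Nonempty from h2 _ _ _ N C .R hR hne e he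
  obtain ⟨b⟩ := (inferInstance : Nonempty N)
  obtain ⟨i, hi⟩ := C.cover b
  cases i with
  | R => exact ⟨b, hi⟩
  | A s =>
    have hA : IsPathConnected (domA (.A s)) := h1.2
    obtain ⟨-, -, -, hP, -⟩ := h6 D
    have h01 : ((0, 1) : P2) ≠ 0 := by
      intro h
      exact one_ne_zero (congrArg Prod.snd h)
    have hz : ((((0 : P2) + D.Psi (0, 1)), 0) : E) ∈ domA (.A s) := by
      show ((0 : P2) + D.Psi (0, 1)) ∉ Gam
      intro h
      exact h01 (((hP 0 Gam.zero_mem (0, 1)).2.2).1 h)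
    obtain ⟨b', hb', hc⟩ := h2 _ _ _ N C (.A s) hA ⟨b, hi⟩ _ hz
    have hc1 : (C.c (.A s) b').1 = sg s • (0 : P2) + D.Psi (0, 1) := by
      rw [hc, smul_zero]
    have hslit : ¬ (((0, 1) : P2).2 = 0 ∧ 0 ≤ ((0, 1) : P2).1) := by
      rintro ⟨h, -⟩
      exact one_ne_zero h
    exact ⟨b', ((h4 D N C s b' 0 Gam.zero_mem (0, 1) hb' hc1).1 hslit).1⟩
  | g m =>
    have hg : IsPathConnected (domA (.g m)) := XSA.univ_pc
    obtain ⟨b', hb', hc⟩ := h2 _ _ _ N C (.g m) hg ⟨b, hi⟩ (((0, 1) : P2), 0) trivial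
    have hη : (C.c (.g m) b').1.2 ≠ 0 := by
      rw [hc]
      exact one_ne_zero
    exact ⟨b', ((h5 D N C m b' hb').2 hη).1⟩

end Pool.Agent.Work.MP_0d206b_gt

end

end

/-! ### L0.L05 -/

section

open Set Filter Topology

noncomputable section

namespace Pool.Agent.Work.MP_0d206b_gt

namespace L0L05

lemma graph_eq {Y : ℝ → ℝ} {e : E} (he : e ∈ graphE Y) : e = ((e.1.1, Y e.1.1), e.2) := by
  have h : e.1.2 = Y e.1.1 := he
  rw [← h]

end L0L05

open L0L05 in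
theorem I_L05 (hCP : CP0s) (hG5 : GL5) (hA4 : AR4) (h1 : L01) (h3 : L03) (hm : L0move) (hP1 : PL1) :
    L05 := by
  have _ := hCP
  have _ := h1
  intro D N _ C Y hY hLam f hf e he b'
  have hsub : graphE Y ⊆ dom0 .R := by
    intro e₁ he₁
    have h1 : e₁.1.2 = Y e₁.1.1 := he₁
    have h2 := hLam e₁.1.1
    rw [← h1] at h2
    exact (hP1 D).2.2.2.2.2.1 _ h2
  constructor
  · intro hrel
    have key : ∀ γ, IsArc C (es0 D) γ → ∀ t₀ t₁ : ℝ,
        (γ t₀ ∈ C.U .R ∧ (C.c .R (γ t₀)).1 ∈ D.Lam ∧ C.c .R (γ t₀) ∈ graphE Y ∧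
          f (C.c .R (γ t₀)) = γ t₀) →
        (γ t₁ ∈ C.U .R ∧ (C.c .R (γ t₁)).1 ∈ D.Lam ∧ C.c .R (γ t₁) ∈ graphE Y ∧
          f (C.c .R (γ t₁)) = γ t₁) := by
      intro γ hγ t₀ t₁ hQ
      obtain ⟨q1, q2, q3, q4⟩ := hQ
      have h4 := (h3 D N C γ hγ t₀).2 q1 q2 Y hY q3
      have h5 := hG5 Idx0 dom0 (glue0 D) N C .R (graphE Y) f hsub hf γ hγ.cont
        (fun t => ⟨(h4 t).1, (h4 t).2.2⟩) t₀ q4
      exact ⟨(h4 t₁).1, (h4 t₁).2.1, (h4 t₁).2.2, h5 t₁⟩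
    have h6 := (hA4 Idx0 dom0 (glue0 D) N C (es0 D)
      (fun b₁ => b₁ ∈ C.U .R ∧ (C.c .R b₁).1 ∈ D.Lam ∧ C.c .R b₁ ∈ graphE Y ∧
          f (C.c .R b₁) = b₁) (fun γ hγ h => key γ hγ 0 1 h) (fun γ hγ h => key γ hγ 1 0 h)
      (f e) b' hrel).mp ?_
    · exact ⟨C.c .R b', h6.2.2.1, h6.2.2.2⟩
    · have h7 := hf.eq e he
      refine ⟨hf.mem e he, ?_, ?_, ?_⟩
      · rw [h7]
        have h8 := hLam e.1.1
        have h9 : e.1.2 = Y e.1.1 := he
        rw [← h9] at h8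
        exact h8
      · rw [h7]
        exact he
      · rw [h7]
  · rintro ⟨e', he', rfl⟩
    rw [graph_eq he, graph_eq he']
    exact hm D N C (graphE Y) f hsub hf Y hY e.1.1 e'.1.1 e.2 e'.2 (fun _ _ _ => rfl)

end Pool.Agent.Work.MP_0d206b_gt

end

end

/-! ### L0.Move -/

section

/-!
# MP_0d206b_gt, item L0move: moving along an S-curve inside a lifted set
-/

open Set Filter Topology
open scoped ContDiff

noncomputable section

namespace Pool.Agent.Work.MP_0d206b_gt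

namespace L0Move

theorem smooth_st : ContDiff ℝ 1 Real.smoothTransition := by
  have := Real.smoothTransition.contDiff (n := 1)
  exact_mod_cast this

/-- the moving abscissa -/
def X (x x' : ℝ) (t : ℝ) : ℝ := x + Real.smoothTransition t * (x' - x)

theorem X_cd (x x' : ℝ) : ContDiff ℝ 1 (X x x') :=
  contDiff_const.add (smooth_st.mul contDiff_const)

theorem X_mem (x x' t : ℝ) : X x x' t ∈ uIcc x x' := by
  have h0 := Real.smoothTransition.nonneg t
  have h1 := Real.smoothTransition.le_one t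
  unfold X
  rw [mem_uIcc]
  rcases le_total x x' with h | h
  · left
    constructor
    · nlinarith
    · nlinarith
  · right
    constructor
    · nlinarith
    · nlinarith

theorem X_zero (x x' : ℝ) : X x x' 0 = x := by simp [X]

theorem X_one (x x' : ℝ) : X x x' 1 = x' := by simp [X]

theorem Y_cd {D : DA} {Y : ℝ → ℝ} (hY : IsCurve D.S univ Y) : ContDiff ℝ 1 Y := by
  have hd : ∀ x, HasDerivAt Y (D.S (x, Y x)) x := fun x => hY x (mem_univ x)
  rw [contDiff_one_iff_deriv]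
  refine ⟨fun x => (hd x).differentiableAt, ?_⟩
  have hc : Continuous Y := continuous_iff_continuousAt.2 fun x => (hd x).continuousAt
  have he : deriv Y = fun x => D.S (x, Y x) := funext fun x => (hd x).deriv
  rw [he]
  exact D.S_cont.comp (continuous_id.prodMk hc)

end L0Move

open L0Move in
theorem I_L0move (hCP : CP0s) (hA2 : AR2) : L0move := by
  intro D N _ C T s hT hs Y hY x x' τ τ' hmem
  have hYcd := Y_cd hY
  set κ : ℝ → E := fun t => ((X x x' t, Y (X x x' t)), X τ τ' t) with hκ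
  have hXd : ∀ t, HasDerivAt (X x x') (deriv (X x x') t) t := fun t =>
    (((X_cd x x').differentiable (by simp)) t).hasDerivAt
  have hTd : ∀ t, HasDerivAt (X τ τ') (deriv (X τ τ') t) t := fun t =>
    (((X_cd τ τ').differentiable (by simp)) t).hasDerivAt
  have hYd : ∀ t, HasDerivAt (fun t => Y (X x x' t))
      (D.S (X x x' t, Y (X x x' t)) * deriv (X x x') t) t := fun t =>
    (hY (X x x' t) (mem_univ _)).comp t (hXd t)
  have hκcd : ContDiff ℝ 1 κ :=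
    (((X_cd x x').prodMk (hYcd.comp (X_cd x x'))).prodMk (X_cd τ τ'))
  have hκd : ∀ t, HasDerivAt κ ((deriv (X x x') t,
      D.S (X x x' t, Y (X x x' t)) * deriv (X x x') t), deriv (X τ τ') t) t := fun t =>
    ((hXd t).prodMk (hYd t)).prodMk (hTd t)
  have h := hA2 Idx0 dom0 (glue0 D) N C (es0 D) (hCP D) .R T s hT hs κ hκcd
    (fun t => hmem _ (X_mem x x' t) _) (fun t => by
      rw [(hκd t).deriv]
      unfold plane
      rw [Submodule.mem_span_pair]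
      refine ⟨deriv (X x x') t, deriv (X τ τ') t - deriv (X x x') t * D.K0 (κ t).1, ?_⟩
      simp only [es0, hκ]
      ext
      · simp
      · simp [mul_comm]
      · simp) 0 1
  have h0 : κ 0 = ((x, Y x), τ) := by simp only [hκ, X_zero]
  have h1 : κ 1 = ((x', Y x'), τ') := by simp only [hκ, X_one]
  rw [h0, h1] at h
  exact h

end Pool.Agent.Work.MP_0d206b_gt

end

end
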