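import Pool.Agent.Work.MP_0d206b_gt.Bd.StL

/-! ### L.I_AP8 -/

section

/-! Item AP8: assembly of the first half of the criterion. -/

open Set Filter Topology
open scoped ContDiff

noncomputable section

namespace Pool.Agent.Work.MP_0d206b_gt

theorem I_AP8 (h1 : AP3) (h2 : AP5) (h3 : AP6) (h4 : AP7) : AP8 := by
  intro N _ _ r κ A hO
  obtain ⟨-, e1, e2, e3, e4⟩ := h1 N r κ A hO
  exact
    { openA := e1
      contx := e2
      inj := e3
      sub := e4
      C1 := h2 N r κ A hO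
      C2l := fun a ha => (h3 N r κ A hO a ha).1
      C2r := fun a ha => (h3 N r κ A hO a ha).2
      dense := h4 N r κ A hO }

end Pool.Agent.Work.MP_0d206b_gt

end

end

/-! ### L.I_AR2 -/

section

/-!
# MP_0d206b_gt, module L: item AR2 (tangent curves in a piece lift to arcs)
-/

set_option autoImplicit false

open Set Filter Topology
open scoped ContDiff

noncomputable section

namespace Pool.Agent.Work.MP_0d206b_gt

namespace XAR2

theorem hasDerivAt_line (t t' u : ℝ) : HasDerivAt (fun u : ℝ => t + u * (t' - t)) (t' - t) u := by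
  simpa using ((hasDerivAt_id u).mul_const (t' - t)).const_add t

end XAR2

theorem I_AR2 (h1 : AR1) : AR2 := by
  intro ι dom glue N _ C w hC i Y s hY hs κ hκ hκY hκt t t'
  have hcomp : (C.c i ∘ fun u : ℝ => s (κ (t + u * (t' - t)))) =
      fun u : ℝ => κ (t + u * (t' - t)) := by
    funext u
    exact hs.eq _ (hκY _)
  have hline : ContDiff ℝ 1 (fun u : ℝ => t + u * (t' - t)) :=
    contDiff_const.add (contDiff_id.mul contDiff_const)
  have hcd : ContDiff ℝ 1 (fun u : ℝ => κ (t + u * (t' - t))) := hκ.comp hline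
  have hcont : Continuous (fun u : ℝ => s (κ (t + u * (t' - t)))) :=
    hs.cont.comp_continuous hcd.continuous (fun u => hκY _)
  have harc : IsArc C w (fun u : ℝ => s (κ (t + u * (t' - t)))) := by
    refine h1 ι dom glue N C w hC _ hcont (fun u => ⟨i, hs.mem _ (hκY _), ?_, ?_⟩)
    · rw [hcomp]
      exact hcd.contDiffAt
    · rw [hcomp]
      have hd : HasDerivAt (fun u : ℝ => κ (t + u * (t' - t)))
          ((t' - t) • deriv κ (t + u * (t' - t))) u :=
        HasDerivAt.scomp u ((hκ.differentiable one_ne_zero _).hasDerivAt)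
          (XAR2.hasDerivAt_line t t' u)
      rw [hd.deriv]
      show _ ∈ plane w i (C.c i (s (κ (t + u * (t' - t)))))
      rw [hs.eq _ (hκY _)]
      exact Submodule.smul_mem _ _ (hκt _)
  refine Relation.EqvGen.rel _ _ ⟨_, harc, ?_, ?_⟩
  · show s (κ (t + 0 * (t' - t))) = s (κ t)
    rw [zero_mul, add_zero]
  · show s (κ (t + 1 * (t' - t))) = s (κ t')
    rw [one_mul, add_sub_cancel]

end Pool.Agent.Work.MP_0d206b_gt

end

end

/-! ### L.I_LA12 -/

section

open Set Filter Topology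

noncomputable section

namespace Pool.Agent.Work.MP_0d206b_gt

namespace XLA12

lemma curve_contDiff {D : DA} {Y : ℝ → ℝ} (hY : IsCurve D.S univ Y) : ContDiff ℝ 1 Y := by
  have hY' : ∀ x, HasDerivAt Y (D.S (x, Y x)) x := fun x => hY x (mem_univ x)
  have hc : Continuous Y := continuous_iff_continuousAt.mpr fun x => (hY' x).continuousAt
  rw [contDiff_one_iff_deriv]
  refine ⟨fun x => (hY' x).differentiableAt, ?_⟩
  have h1 : deriv Y = fun x => D.S (x, Y x) := funext fun x => (hY' x).deriv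
  rw [h1]
  exact D.S_cont.comp (continuous_id.prodMk hc)

lemma mem_plane {D : DA} {p : E} (hp : p.1 ∈ D.Lam) (a b : ℝ) :
    (((a, D.S p.1 * a) : P2), b) ∈ plane (esA D) .R p := by
  unfold plane
  rw [Submodule.mem_span_pair]
  refine ⟨a, b, ?_⟩
  have h : esA D .R p = (((1, D.S p.1) : P2), (0 : ℝ)) := by
    show (((1, D.sigma p.1) : P2), D.Ka p.1) = _
    unfold DA.sigma DA.Ka
    rw [if_pos hp, if_pos hp]
  rw [h]
  ext
  · simp
  · simp [mul_comm]
  · simp

end XLA12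

open XLA12 in
theorem I_LA12 (h1 : LA9) (h2 : AR2) (h3 : AR4) (h4 : GL5) (h5 : CPAs) (h6 : PL1) : LA12 := by
  intro D N _ C Y hY hLam f hf e he b'
  have hsub : graphE Y ⊆ domA .R := by
    intro e₁ he₁
    have h1 : e₁.1.2 = Y e₁.1.1 := he₁
    have h2 := hLam e₁.1.1
    rw [← h1] at h2
    exact (h6 D).2.2.2.2.2.1 _ h2
  have hgLam : ∀ e₁ ∈ graphE Y, e₁.1 ∈ D.Lam := by
    intro e₁ he₁
    have h1 : e₁.1.2 = Y e₁.1.1 := he₁
    have h2 := hLam e₁.1.1
    rw [← h1] at h2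
    exact h2
  constructor
  · intro hrel
    have key : ∀ γ, IsArc C (esA D) γ → ∀ t₀ t₁ : ℝ,
        (γ t₀ ∈ C.U .R ∧ C.c .R (γ t₀) ∈ graphE Y ∧ f (C.c .R (γ t₀)) = γ t₀) →
        (γ t₁ ∈ C.U .R ∧ C.c .R (γ t₁) ∈ graphE Y ∧ f (C.c .R (γ t₁)) = γ t₁) := by
      intro γ hγ t₀ t₁ hQ
      have h7 := h1 D N C γ hγ t₀ hQ.1 (hgLam _ hQ.2.1) Y hY hQ.2.1
      have h8 := h4 IdxA domA (glueA D) N C .R (graphE Y) f hsub hf γ hγ.cont
        (fun t => ⟨(h7 t).1, (h7 t).2.2⟩) t₀ hQ.2.2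
      exact ⟨(h7 t₁).1, (h7 t₁).2.2, h8 t₁⟩
    have h9 := (h3 IdxA domA (glueA D) N C (esA D)
      (fun b₁ => b₁ ∈ C.U .R ∧ C.c .R b₁ ∈ graphE Y ∧ f (C.c .R b₁) = b₁)
      (fun γ hγ h => key γ hγ 0 1 h) (fun γ hγ h => key γ hγ 1 0 h) (f e) b' hrel).mp ?_
    · exact ⟨C.c .R b', h9.2.1, h9.2.2⟩
    · have h10 := hf.eq e he
      exact ⟨hf.mem e he, by rw [h10]; exact he, by rw [h10]⟩
  · rintro ⟨e', he', rfl⟩
    have hYc := curve_contDiff hY
    set κ : ℝ → E := fun u => (((e.1.1 + u * (e'.1.1 - e.1.1), Y (e.1.1 + u * (e'.1.1 - e.1.1))) : P2),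
      e.2 + u * (e'.2 - e.2)) with hκ
    have hlin : ContDiff ℝ 1 (fun u : ℝ => e.1.1 + u * (e'.1.1 - e.1.1)) := by fun_prop
    have hκc : ContDiff ℝ 1 κ := by
      refine (hlin.prodMk (hYc.comp hlin)).prodMk ?_
      fun_prop
    have hκg : ∀ u, κ u ∈ graphE Y := fun u => rfl
    have hκd : ∀ u, deriv κ u ∈ plane (esA D) .R (κ u) := by
      intro u
      have d1 : HasDerivAt (fun u : ℝ => e.1.1 + u * (e'.1.1 - e.1.1)) (e'.1.1 - e.1.1) u := by
        have := ((hasDerivAt_id u).mul_const (e'.1.1 - e.1.1)).const_add e.1.1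
        simpa using this
      have d2 : HasDerivAt (fun u : ℝ => e.2 + u * (e'.2 - e.2)) (e'.2 - e.2) u := by
        have := ((hasDerivAt_id u).mul_const (e'.2 - e.2)).const_add e.2
        simpa using this
      have d3 : HasDerivAt (fun u : ℝ => Y (e.1.1 + u * (e'.1.1 - e.1.1)))
          (D.S (κ u).1 * (e'.1.1 - e.1.1)) u :=
        (hY (e.1.1 + u * (e'.1.1 - e.1.1)) (mem_univ _)).comp u d1
      have d4 : HasDerivAt κ (((e'.1.1 - e.1.1, D.S (κ u).1 * (e'.1.1 - e.1.1)) : P2), e'.2 - e.2) u :=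
        (d1.prodMk d3).prodMk d2
      rw [d4.deriv]
      exact mem_plane (hgLam _ (hκg u)) _ _
    have h11 := h2 IdxA domA (glueA D) N C (esA D) (h5 D) .R (graphE Y) f hsub hf κ hκc hκg hκd 0 1
    have k0 : κ 0 = e := by
      have h12 : e.1.2 = Y e.1.1 := he
      rw [hκ]
      simp only [zero_mul, add_zero]
      rw [← h12]
    have k1 : κ 1 = e' := by
      have h12 : e'.1.2 = Y e'.1.1 := he'
      rw [hκ]
      simp only [one_mul, add_sub_cancel]
      rw [← h12]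
    rw [k0, k1] at h11
    exact h11

end Pool.Agent.Work.MP_0d206b_gt

end

end

/-! ### L.I_LA18 -/

section

/-!
# MP_0d206b_gt, module L: item LA18, every point of the leaf space lies on a line
-/

set_option autoImplicit false

open Set Filter Topology
open scoped ContDiff

noncomputable section

namespace Pool.Agent.Work.MP_0d206b_gt

namespace XLA18

theorem abs_comb {a b x y z ε : ℝ} (hx : |x - z| < ε) (hy : |y - z| < ε) (ha : 0 ≤ a) (hb : 0 ≤ b)
    (hab : a + b = 1) : |a * x + b * y - z| < ε := by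
  rw [abs_lt] at *
  have h : Convex ℝ (Ioo (z - ε) (z + ε)) := convex_Ioo _ _
  have h1 : x ∈ Ioo (z - ε) (z + ε) := ⟨by linarith, by linarith⟩
  have h2 : y ∈ Ioo (z - ε) (z + ε) := ⟨by linarith, by linarith⟩
  have h3 := h h1 h2 ha hb hab
  simp only [smul_eq_mul, mem_Ioo] at h3
  constructor <;> linarith [h3.1, h3.2]

theorem convex_box (z : P2) (ε : ℝ) : Convex ℝ (box z ε) := by
  intro x hx y hy a b ha hb hab
  exact ⟨abs_comb hx.1 hy.1 ha hb hab, abs_comb hx.2 hy.2 ha hb hab⟩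

theorem nonempty_box (z : P2) {ε : ℝ} (hε : 0 < ε) (τ : ℝ) : ((z, τ) : E) ∈ box z ε := by
  refine ⟨?_, ?_⟩
  · show |z.1 - z.1| < ε
    rw [sub_self, abs_zero]
    exact hε
  · show |z.2 - z.2| < ε
    rw [sub_self, abs_zero]
    exact hε

/-- small boxes around a point off the lattice are off the lattice -/
theorem exists_box (h : IsClosed (Gam : Set P2)) {z : P2} (hz : z ∉ Gam) :
    ∃ ε > 0, box z ε ⊆ {e : E | e.1 ∉ Gam} := by
  have h1 : (Gam : Set P2)ᶜ ∈ 𝓝 z := h.isOpen_compl.mem_nhds hz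
  obtain ⟨ε, hε, hb⟩ := Metric.mem_nhds_iff.1 h1
  refine ⟨ε, hε, fun e he => ?_⟩
  have h2 : e.1 ∈ Metric.ball z ε := by
    rw [Metric.mem_ball, Prod.dist_eq, max_lt_iff, Real.dist_eq, Real.dist_eq]
    exact he
  exact hb h2

/-- the line is homeomorphic to a symmetric interval -/
theorem exists_homeo {ε : ℝ} (hε : 0 < ε) : Nonempty (ℝ ≃ₜ Ioo (-ε) ε) := by
  have hp : (0 : ℝ) < Real.pi / 2 := by positivity
  have hc : (2 * ε / Real.pi) ≠ 0 := by positivity
  have hs : Ioo (-(Real.pi / 2)) (Real.pi / 2) =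
      (Homeomorph.mulLeft₀ (2 * ε / Real.pi) hc) ⁻¹' Ioo (-ε) ε := by
    ext t
    have hpi := Real.pi_pos
    have e1 : 2 * ε / Real.pi * t = ε * (t / (Real.pi / 2)) := by field_simp
    simp only [mem_Ioo, mem_preimage, Homeomorph.coe_mulLeft₀]
    rw [e1]
    constructor
    · rintro ⟨h1, h2⟩
      have h3 : -1 < t / (Real.pi / 2) := by rw [lt_div_iff₀ hp]; linarith
      have h4 : t / (Real.pi / 2) < 1 := by rw [div_lt_iff₀ hp]; linarith
      constructor
      · have := mul_lt_mul_of_pos_left h3 hε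
        linarith
      · have := mul_lt_mul_of_pos_left h4 hε
        linarith
    · rintro ⟨h1, h2⟩
      have h3 : -1 < t / (Real.pi / 2) := by
        by_contra hcon
        have := mul_le_mul_of_nonneg_left (not_lt.1 hcon) hε.le
        linarith
      have h4 : t / (Real.pi / 2) < 1 := by
        by_contra hcon
        have := mul_le_mul_of_nonneg_left (not_lt.1 hcon) hε.le
        linarith
      rw [lt_div_iff₀ hp] at h3
      rw [div_lt_iff₀ hp] at h4
      constructor <;> linarith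
  exact ⟨Real.tanOrderIso.symm.toHomeomorph.trans
    (Homeomorph.sets (Homeomorph.mulLeft₀ (2 * ε / Real.pi) hc) hs)⟩

end XLA18

theorem I_LA18 (h1 : OM) (h2 : LF) (h3 : LA1) (h4 : LA13) (h5 : LA15) (h6 : LA16) (h7 : LA17)
    (h8 : AP9) (h9 : GL1) (h10 : GS1) (h11 : PG1) : LA18 := by
  intro D N _ _ C
  have hopen := h5 D N C
  refine h1 N (leafSetoid C (esA D)) hopen (h2 IdxA domA (glueA D) N C (esA D)).2 ?_
  intro q
  obtain ⟨b, rfl⟩ := Quotient.exists_rep q
  rcases h3 D N C b with ⟨s, hs⟩ | ⟨m, hm, hm0⟩ | ⟨hR, hL⟩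
  · obtain ⟨A, hU, -⟩ := h4 D N C
    exact h8 N (leafSetoid C (esA D)) Bool A hopen s b (by rw [hU]; exact hs)
  · obtain ⟨g1, g2⟩ := h10 univ convex_univ univ_nonempty
    obtain ⟨f, hf, hfb⟩ := h9 IdxA domA (glueA D) N C (.g m) univ (fun _ _ => trivial) g1 g2 b hm
      (mem_univ _)
    refine ⟨_, h6 D N C m f hf (C.c (.g m) b).1.2 (C.c (.g m) b).2, ⟨0, ?_⟩⟩
    have : (((0 : ℝ), (C.c (.g m) b).1.2), (C.c (.g m) b).2) = C.c (.g m) b := by
      rw [← hm0]
    show Quotient.mk _ (f (((0 : ℝ), (C.c (.g m) b).1.2), (C.c (.g m) b).2)) = _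
    rw [this, hfb]
  · have hz : (C.c .R b).1 ∉ Gam := C.maps .R hR
    obtain ⟨ε, hε, hbox⟩ := XLA18.exists_box h11.2.2.2.2.1 hz
    have hmem : C.c .R b ∈ box (C.c .R b).1 ε :=
      XLA18.nonempty_box (C.c .R b).1 hε (C.c .R b).2
    obtain ⟨g1, g2⟩ := h10 (box (C.c .R b).1 ε) (XLA18.convex_box _ _) ⟨_, hmem⟩
    obtain ⟨f, hf, hfb⟩ := h9 IdxA domA (glueA D) N C .R (box (C.c .R b).1 ε) hbox g1 g2 b hR hmem
    have hline := h7 D N C (C.c .R b).1 (C.c .R b).2 ε f hε hL hf hbox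
    obtain ⟨e⟩ := XLA18.exists_homeo hε
    refine ⟨_, hline.comp e.isOpenEmbedding, ?_⟩
    rw [range_comp, e.range_coe, image_univ]
    refine ⟨⟨0, by constructor <;> linarith⟩, ?_⟩
    show Quotient.mk _ (f (((C.c .R b).1.1, (C.c .R b).1.2 + 0), (C.c .R b).2)) = _
    rw [add_zero, hfb]

end Pool.Agent.Work.MP_0d206b_gt

end

end

/-! ### L.I_LA20 -/

section

/-!
# MP_0d206b_gt, flow a: (C4) for two leaves of type `ξ = 0`
-/

open Set Filter Topology

namespace Pool.Agent.Work.MP_0d206b_gt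

namespace XLA20

theorem lift_univ (hG1 : GL1) (hGS : GS1) {D : DA} {N : Type} [TopologicalSpace N]
    (C : CoverData domA (glueA D) N) (m : Gam) (b : N) (hb : b ∈ C.U (.g m)) :
    ∃ f : E → N, IsLift C (.g m) univ f ∧ f (C.c (.g m) b) = b := by
  obtain ⟨h1, h2⟩ := hGS univ convex_univ ⟨0, mem_univ _⟩
  exact hG1 IdxA domA (glueA D) N C (.g m) univ (fun _ _ => mem_univ _) h1 h2 b hb (mem_univ _)

theorem emb_restrict {X : Type} [TopologicalSpace X] {g : ℝ → X} (hg : IsOpenEmbedding g) :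
    IsOpenEmbedding (fun t : Ioo (-1 : ℝ) 1 => g t) :=
  hg.comp isOpen_Ioo.isOpenEmbedding_subtypeVal

theorem coord_eq {D : DA} {N : Type} [TopologicalSpace N] (C : CoverData domA (glueA D) N)
    (s : Bool) (m : Gam) {P P' : N} (h1 : P ∈ C.U (.A s)) (h2 : P ∈ C.U (.g m))
    (h1' : P' ∈ C.U (.A s)) (h2' : P' ∈ C.U (.g m)) (he : C.c (.g m) P = C.c (.g m) P') :
    C.c (.A s) P = C.c (.A s) P' := by
  have hs : sg s ≠ 0 := by cases s <;> simp [sg]
  obtain ⟨w, hw, e1, e2, e3⟩ := C.glue_of (.A s) (.g m) P h1 h2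
  obtain ⟨w', hw', e1', e2', e3'⟩ := C.glue_of (.A s) (.g m) P' h1' h2'
  rw [he] at e2 e3
  have hww : w = w' := by
    rw [e2] at e2'
    have h3 := congrArg Prod.fst e2'
    have h4 := congrArg Prod.snd e2'
    simp only at h3 h4
    ext
    · rw [div_eq_div_iff hw.ne' hw'.ne'] at h3
      exact (mul_left_cancel₀ hs h3).symm
    · exact mul_left_cancel₀ hs h4
  subst hww
  ext1
  · rw [e1, e1']
  · rw [e3] at e3'
    linarith

end XLA20

open XLA20 in
theorem I_LA20 (h1 : PG1) (h2 : PG2) (h3 : LA2) (h4 : LA5) (h5 : LA11) (h6 : LA13) (h7 : LA16)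
    (h8 : LA18) (h9 : LT) (h10 : NSg) (h11 : XL) (h12 : AP1) (h13 : GL1) (h14 : GL2) (h15 : GS1) :
    LA20 := by
  intro D N _ _ C m m' b b' hb hb' hξ hξ' hNS
  obtain ⟨f, hf, hfb⟩ := lift_univ h13 h15 C m b hb
  obtain ⟨f', hf', hfb'⟩ := lift_univ h13 h15 C m' b' hb'
  have hr0 : (leafSetoid C (esA D)) b (f ((0, 0), 0)) := by
    have := (h5 D N C m f hf (C.c (.g m) b) hξ (f ((0, 0), 0))).2 ⟨_, rfl, rfl⟩
    rwa [hfb] at this
  have hr0' : (leafSetoid C (esA D)) b' (f' ((0, 0), 0)) := by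
    have := (h5 D N C m' f' hf' (C.c (.g m') b') hξ' (f' ((0, 0), 0))).2 ⟨_, rfl, rfl⟩
    rwa [hfb'] at this
  have q0 : (Quotient.mk (leafSetoid C (esA D)) (f (((0 : ℝ), 0), 0))) = Quotient.mk _ b :=
    (Quotient.sound hr0).symm
  have q0' : (Quotient.mk (leafSetoid C (esA D)) (f' (((0 : ℝ), 0), 0))) = Quotient.mk _ b' :=
    (Quotient.sound hr0').symm
  obtain ⟨σ, hσ, hall⟩ := h10 _ (h8 D N C) 1 1
    (fun t => Quotient.mk (leafSetoid C (esA D)) (f ((t, 0), 0)))
    (fun t => Quotient.mk (leafSetoid C (esA D)) (f' ((t, 0), 0))) one_pos one_pos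
    (emb_restrict (h7 D N C m f hf 0 0)) (emb_restrict (h7 D N C m' f' hf' 0 0))
    (by rw [q0, q0']; exact hNS)
  obtain ⟨δ, hδ, -, hδ'⟩ := hall 1 one_pos
  obtain ⟨s, hs⟩ : ∃ s : Bool, sg s = σ := by
    rcases hσ with h | h
    · exact ⟨true, by simp [sg, h]⟩
    · exact ⟨false, by simp [sg, h]⟩
  have hσ2 : σ * σ = 1 := by rcases hσ with h | h <;> simp [h]
  have hσ0 : σ ≠ 0 := by rcases hσ with h | h <;> simp [h]
  -- facts for each `t`
  have key : ∀ t ∈ Ioo 0 δ, ∃ u : ℝ, 0 < σ * u ∧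
      (leafSetoid C (esA D)) (f ((σ * t, 0), 0)) (f' ((u, 0), 0)) ∧
      f ((σ * t, 0), 0) ∈ C.U (.A s) ∧ f' ((u, 0), 0) ∈ C.U (.A s) ∧
      (C.c (.A s) (f ((σ * t, 0), 0))).1 = sg s • (m : P2) + D.Psi (1 / t, 0) ∧
      (C.c (.A s) (f' ((u, 0), 0))).1 = sg s • (m' : P2) + D.Psi (sg s / u, 0) ∧
      σ * (m : P2).1 + 1 / t = σ * (m' : P2).1 + σ / u := by
    intro t ht
    obtain ⟨u, -, hu⟩ := hδ' t ht
    have hrel : (leafSetoid C (esA D)) (f ((σ * t, 0), 0)) (f' ((u, 0), 0)) := Quotient.exact hu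
    have hc : C.c (.g m) (f ((σ * t, 0), 0)) = ((σ * t, 0), 0) := hf.eq _ (mem_univ _)
    have hc' : C.c (.g m') (f' ((u, 0), 0)) = ((u, 0), 0) := hf'.eq _ (mem_univ _)
    have hPg : f ((σ * t, 0), 0) ∈ C.U (.g m) := hf.mem _ (mem_univ _)
    have hPg' : f' ((u, 0), 0) ∈ C.U (.g m') := hf'.mem _ (mem_univ _)
    have hpos : 0 < sg s * (σ * t) := by rw [hs, ← mul_assoc, hσ2, one_mul]; exact ht.1
    have h5' := (h4 D N C m _ hPg).1 s (by rw [hc]; exact hpos)
    rw [hc] at h5'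
    have hPA := h5'.1
    have hzA := h5'.2
    have hLT := (h9 D N C _ _ hrel).1 s hPA
    have hPA' := hLT.1
    have hu' : 0 < sg s * u := by
      have := (h3 D N C (f' ((u, 0), 0))).2.2.1 s m' hPA' hPg'
      rw [hc'] at this
      exact this
    have hzA' := ((h4 D N C m' _ hPg').1 s (by rw [hc']; exact hu')).2
    rw [hc'] at hzA'
    have e1 : sg s / (σ * t) = 1 / t := by
      rw [hs]
      have : t ≠ 0 := ht.1.ne'
      field_simp
    simp only [mul_zero, e1] at hzA hzA'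
    refine ⟨u, by rw [hs] at hu'; exact hu', hrel, hPA, hPA', hzA, hzA', ?_⟩
    have hx := hLT.2
    rw [hzA, hzA'] at hx
    simp only [Prod.fst_add, D.Psi_fst, Prod.smul_fst, smul_eq_mul, hs] at hx
    linarith
  obtain ⟨A, hAU, hAc⟩ := h6 D N C
  by_cases hmm : m = m'
  · subst hmm
    have ht : δ / 2 ∈ Ioo 0 δ := ⟨by linarith, by linarith⟩
    obtain ⟨u, hu, hrel, hPA, hPA', hzA, hzA', hx⟩ := key (δ / 2) ht
    set t := δ / 2 with htdef
    have ht0 : t ≠ 0 := ht.1.ne'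
    have hu0 : u ≠ 0 := by rintro rfl; simp at hu
    have hut : u = σ * t := by
      have h : 1 / t = σ / u := by linarith
      rw [div_eq_div_iff ht0 hu0] at h
      linarith
    subst hut
    have hPg : f ((σ * t, 0), 0) ∈ C.U (.g m) := hf.mem _ (mem_univ _)
    have hPg' : f' ((σ * t, 0), 0) ∈ C.U (.g m) := hf'.mem _ (mem_univ _)
    have hcc := coord_eq C s m hPA hPg hPA' hPg'
      (by rw [hf.eq _ (mem_univ _), hf'.eq _ (mem_univ _)])
    have hPP := (h12 N (leafSetoid C (esA D)) Bool A s _ _ (by rw [hAU]; exact hPA) hrel).2.2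
      (by rw [hAc]; exact hcc)
    have hEq := h14 IdxA domA (glueA D) N C (.g m) univ f f' isPreconnected_univ
      (fun _ _ => mem_univ _) hf hf' ((σ * t, 0), 0) (mem_univ _) hPP
    have : f (((0 : ℝ), 0), 0) = f' ((0, 0), 0) := hEq (mem_univ _)
    apply hNS.1
    rw [← q0, ← q0', this]
  · -- different saddles
    have hpG : ∀ n : Gam, sg s • (n : P2) ∈ Gam := by
      intro n
      rw [hs]
      rcases hσ with h | h
      · rw [h, one_smul]; exact n.2
      · rw [h, neg_smul, one_smul]; exact Gam.neg_mem n.2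
    have hne2 : (sg s • (m : P2)).2 ≠ (sg s • (m' : P2)).2 := by
      intro h
      have := h1.2.2.1 _ (hpG m) _ (hpG m') h
      rw [hs] at this
      apply hmm
      have h6 := smul_right_injective P2 hσ0 this
      exact Subtype.ext h6
    obtain ⟨m₃, hm₃, ha, hb3, hc3⟩ := h2.1 (min (sg s • (m : P2)).2 (sg s • (m' : P2)).2)
      (max (sg s • (m : P2)).2 (sg s • (m' : P2)).2) ((sg s • (m : P2)).1 + 1 / δ) (min_lt_max.2 hne2)
    set X := m₃.1 - (sg s • (m : P2)).1 with hX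
    have hXpos : 1 / δ < X := by rw [hX]; linarith
    have hX0 : 0 < X := lt_trans (by positivity) hXpos
    have ht : 1 / X ∈ Ioo 0 δ := by
      refine ⟨by positivity, ?_⟩
      rw [div_lt_iff₀ hX0]
      rw [div_lt_iff₀ hδ] at hXpos
      linarith
    obtain ⟨u, hu, hrel, hPA, hPA', hzA, hzA', hx⟩ := key (1 / X) ht
    have hxP : m₃.1 = (C.c (.A s) (f ((σ * (1 / X), 0), 0))).1.1 := by
      rw [hzA]
      simp only [Prod.fst_add, D.Psi_fst, one_div_one_div]
      rw [hX]; ring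
    have hxP' : m₃.1 = (C.c (.A s) (f' ((u, 0), 0))).1.1 := by
      rw [hxP, hzA, hzA']
      simp only [Prod.fst_add, D.Psi_fst, Prod.smul_fst, smul_eq_mul, hs]
      linarith
    rcases lt_or_gt_of_ne hne2 with hlt | hlt
    · rw [min_eq_left hlt.le] at ha
      rw [max_eq_right hlt.le] at hb3
      exact h11 D N (leafSetoid C (esA D)) Bool A s _ _ (by rw [hAU]; exact hPA) hrel _ (hpG m) _
        (hpG m') _ _ (by rw [hAc]; exact hzA) (by rw [hAc]; exact hzA') m₃ hm₃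
        (by rw [hAc]; exact hxP) ha hb3
    · rw [min_eq_right hlt.le] at ha
      rw [max_eq_left hlt.le] at hb3
      exact h11 D N (leafSetoid C (esA D)) Bool A s _ _ (by rw [hAU]; exact hPA')
        ((leafSetoid C (esA D)).symm hrel) _ (hpG m') _ (hpG m) _ _ (by rw [hAc]; exact hzA')
        (by rw [hAc]; exact hzA) m₃ hm₃ (by rw [hAc]; exact hxP') ha hb3

end Pool.Agent.Work.MP_0d206b_gt

end

/-! ### L.I_LA5 -/

section

/-!
# MP_0d206b_gt, item LA5: from a saddle piece to the attractors and the repeller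
-/

set_option autoImplicit false

open Set Filter Topology
open scoped ContDiff

noncomputable section

namespace Pool.Agent.Work.MP_0d206b_gt

namespace XLA5

theorem sg_sq (s : Bool) : sg s * sg s = 1 := by
  cases s <;> simp [sg]

theorem sg_ne (s : Bool) : sg s ≠ 0 := by
  cases s <;> simp [sg]

theorem num (x y : ℝ) (hy : y ≠ 0) : ∃ v : P2, |v.2| < |v.1| ∧ v.1 = y / 2 ∧
    x = v.2 / (v.1 ^ 2 - v.2 ^ 2) := by
  set r := Real.sqrt (1 + x ^ 2 * y ^ 2) with hr
  have h0 : 0 < 1 + x ^ 2 * y ^ 2 := by positivity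
  have hr0 : 0 ≤ r := Real.sqrt_nonneg _
  have hr2 : r ^ 2 = 1 + x ^ 2 * y ^ 2 := Real.sq_sqrt h0.le
  have h1 : 0 < 1 + r := by linarith
  have hy2 : 0 < y ^ 2 := by positivity
  have e1 : (y / 2) ^ 2 - (x * y ^ 2 / (2 * (1 + r))) ^ 2 = y ^ 2 / (2 * (1 + r)) := by
    have h1' := h1.ne'
    field_simp
    linear_combination hr2
  refine ⟨(y / 2, x * y ^ 2 / (2 * (1 + r))), ?_, rfl, ?_⟩
  · rw [← sq_lt_sq]
    have : 0 < y ^ 2 / (2 * (1 + r)) := by positivity
    simp only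
    linarith
  · simp only
    rw [e1]
    have h1' := h1.ne'
    field_simp

end XLA5

open XLA5 in
theorem I_LA5 : LA5 := by
  intro D N _ C m b hb
  refine ⟨fun s hs => ?_, fun hη => ?_⟩
  · set e := C.c (.g m) b with he
    have hx : e.1.1 ≠ 0 := by
      intro h
      rw [h, mul_zero] at hs
      exact lt_irrefl _ hs
    have hpos : 0 < sg s / e.1.1 := by
      have : sg s / e.1.1 = (sg s * e.1.1) / e.1.1 ^ 2 := by
        field_simp
      rw [this]
      positivity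
    have hglue : glueA D (.g m) e (.A s) (sg s • (m : P2) + D.Psi (sg s / e.1.1, sg s * e.1.2),
        e.2 - llog (nsq (sg s / e.1.1, sg s * e.1.2))) := by
      refine ⟨(sg s / e.1.1, sg s * e.1.2), hpos, rfl, ?_, ?_⟩
      · have h1 : sg s / (sg s / e.1.1) = e.1.1 := by
          have := sg_ne s
          field_simp
        have h2 : sg s * (sg s * e.1.2) = e.1.2 := by
          rw [← mul_assoc, sg_sq, one_mul]
        simp only
        rw [h1, h2]
      · simp only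
        ring
    obtain ⟨h1, h2⟩ := C.glue_lift (.g m) (.A s) b _ hb hglue
    refine ⟨h1, ?_⟩
    rw [h2]
  · obtain ⟨v, hv, hv1, hv2⟩ := num (C.c (.g m) b).1.1 (C.c (.g m) b).1.2 hη
    have hglue : glueA D (.g m) (C.c (.g m) b) .R ((m : P2) + D.Psi v, (C.c (.g m) b).2) := by
      refine ⟨v, hv, rfl, ?_, rfl⟩
      ext
      · exact hv2
      · show (C.c (.g m) b).1.2 = 2 * v.1
        rw [hv1]
        ring
    obtain ⟨h1, h2⟩ := C.glue_lift (.g m) .R b _ hb hglue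
    refine ⟨h1, v, hv, ?_, hv1, hv2⟩
    rw [h2]

end Pool.Agent.Work.MP_0d206b_gt

end

end

/-! ### L.I_LA7a -/

section

/-!
# MP_0d206b_gt, item LA7a: closedness step for the attractor pieces
-/

open Set Filter Topology
open scoped ContDiff

noncomputable section

namespace Pool.Agent.Work.MP_0d206b_gt

theorem I_LA7a (h1 : PL1) (h2 : PL2) (h3 : PL5) (h4 : LA1) (h5 : LA2) (_h6 : LA3) (h7 : LA6) : LA7a := by
  intro D N _ C γ hγ a ε s hε hJ
  rcases h4 D N C (γ a) with ⟨s', hs'⟩ | ⟨m, hm, hξ⟩ | ⟨hR, hL⟩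
  · obtain ⟨δ, hδ, hb⟩ := XArc.near C (.A s') hγ.cont hs'
    have hmin : 0 < min ε δ := lt_min hε hδ
    have ht1 : a + min ε δ / 2 ∈ Ioo a (a + ε) := by
      have := min_le_left ε δ
      constructor <;> linarith
    have ht2 : a + min ε δ / 2 ∈ Metric.ball a δ := by
      rw [Metric.mem_ball, Real.dist_eq, add_sub_cancel_left, abs_of_pos (by linarith)]
      have := min_le_right ε δ
      linarith
    rw [(h5 D N C (γ (a + min ε δ / 2))).1 s s' (hJ _ ht1) (hb _ ht2)]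
    exact hs'
  · exfalso
    obtain ⟨δ, hδ, hb⟩ := XArc.near C (.g m) hγ.cont hm
    have hmin : 0 < min ε δ := lt_min hε hδ
    have ht1 : a + min ε δ / 2 ∈ Ioo a (a + ε) := by
      have := min_le_left ε δ
      constructor <;> linarith
    have ht2 : a + min ε δ / 2 ∈ Metric.ball a δ := by
      rw [Metric.mem_ball, Real.dist_eq, add_sub_cancel_left, abs_of_pos (by linarith)]
      have := min_le_right ε δ
      linarith
    have h8 : (C.c (.g m) (γ (a + min ε δ / 2))).1.1 = (C.c (.g m) (γ a)).1.1 :=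
      XArc.const_of_deriv (f := fun u => (C.c (.g m) (γ u)).1.1) Metric.isOpen_ball (convex_ball a δ).isPreconnected
        (fun t ht => (h7 D N C γ hγ t).2.1 m (hb t ht)) ht2 (Metric.mem_ball_self hδ)
    have h9 := (h5 D N C (γ (a + min ε δ / 2))).2.2.1 s m (hJ _ ht1) (hb _ ht2)
    rw [h8, hξ, mul_zero] at h9
    exact lt_irrefl _ h9
  · exfalso
    obtain ⟨-, -, -, hlin, -, -, hdec⟩ := h1 D
    obtain ⟨δ, hδ, hb⟩ := XArc.near C .R hγ.cont hR
    have hmin : 0 < min ε δ := lt_min hε hδ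
    have hsub1 : ∀ t ∈ Ioo a (a + min ε δ), t ∈ Ioo a (a + ε) := fun t ht =>
      ⟨ht.1, ht.2.trans_le (by have := min_le_left ε δ; linarith)⟩
    have hsub2 : ∀ t ∈ Ioo a (a + min ε δ), t ∈ Metric.ball a δ := by
      intro t ht
      rw [Metric.mem_ball, Real.dist_eq, abs_of_pos (sub_pos.2 ht.1)]
      have := ht.2
      have := min_le_right ε δ
      linarith
    have hnL : ∀ t ∈ Ioo a (a + min ε δ), γ t ∈ C.U .R ∧ (C.c .R (γ t)).1 ∉ D.Lam := by
      intro t ht
      refine ⟨hb t (hsub2 t ht), fun h => ?_⟩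
      exact ((h5 D N C (γ t)).2.2.2.1 (hb t (hsub2 t ht)) h).1 s (hJ t (hsub1 t ht))
    have ht₀ : a + min ε δ / 2 ∈ Ioo a (a + min ε δ) := by constructor <;> linarith
    set t₀ : ℝ := a + min ε δ / 2
    set m : P2 := D.idx (C.c .R (γ t₀)).1 with hm
    have hmG : m ∈ Gam := (hdec _ (hnL t₀ ht₀).2).1
    set c : ℝ := (C.c (.A s) (γ t₀)).1.1 - sg s * m.1 with hc
    have hΦ : Continuous fun x : ℝ => m + D.Psi (x - m.1,
        sg s * ((Real.sqrt (nsq (c, 2 * (sg s * (x - m.1)))) - c) / 2)) := by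
      have hPc : Continuous D.Psi := D.Psi_smooth.continuous
      refine continuous_const.add (hPc.comp ((continuous_id.sub continuous_const).prodMk ?_))
      unfold nsq
      fun_prop
    refine hL _ hmG _ (XArc.lim_eq C .R hγ.cont hmin hR hΦ ?_)
    intro t ht
    obtain ⟨m', hm', v, hv, hz, hw, -⟩ : glueRA D s (C.c .R (γ t)) (C.c (.A s) (γ t)) :=
      C.glue_of .R (.A s) (γ t) (hnL t ht).1 (hJ t (hsub1 t ht))
    have hmm : m' = m := by
      rw [hm, XArc.idx_const h2 D C .R hγ.cont isPreconnected_Ioo hnL ht₀ ht, hz, (hlin m' hm' v).2.1]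
    rw [hmm] at hz hw
    have hxA : (C.c (.A s) (γ t)).1.1 = (C.c (.A s) (γ t₀)).1.1 :=
      XArc.const_of_deriv (f := fun u => (C.c (.A s) (γ u)).1.1) isOpen_Ioo isPreconnected_Ioo
        (fun u hu => (h7 D N C γ hγ u).1 s (hJ u (hsub1 u hu))) ht ht₀
    have hg1 : (gmap (sg s • v)).1 = c := by
      rw [hc, ← hxA, hw, Prod.fst_add, D.Psi_fst]
      show _ = sg s * m.1 + (gmap (sg s • v)).1 - sg s * m.1
      ring
    have hx : (C.c .R (γ t)).1.1 = m.1 + v.1 := by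
      rw [hz, Prod.fst_add, D.Psi_fst]
    have hv1 : v.1 = (C.c .R (γ t)).1.1 - m.1 := by linarith
    have hu2 : 0 < (sg s • v).2 := hv
    have hgi := h3.1 (sg s • v) hu2
    have hg2 : (gmap (sg s • v)).2 = 2 * (sg s * v.1) := rfl
    have hgm : gmap (sg s • v) = (c, 2 * (sg s * v.1)) := Prod.ext hg1 hg2
    have hu : sg s * v.2 = (Real.sqrt (nsq (c, 2 * (sg s * v.1))) - c) / 2 := by
      have h8 := congrArg Prod.snd hgi
      rw [hgm] at h8
      exact h8.symm
    have hv2 : v.2 = sg s * ((Real.sqrt (nsq (c, 2 * (sg s * v.1))) - c) / 2) := by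
      rw [← hu, ← mul_assoc, XArc.sg_mul_self, one_mul]
    have hv3 : v = ((C.c .R (γ t)).1.1 - m.1,
        sg s * ((Real.sqrt (nsq (c, 2 * (sg s * ((C.c .R (γ t)).1.1 - m.1)))) - c) / 2)) := by
      rw [← hv1]
      exact Prod.ext rfl hv2
    show (C.c .R (γ t)).1 = m + D.Psi ((C.c .R (γ t)).1.1 - m.1,
        sg s * ((Real.sqrt (nsq (c, 2 * (sg s * ((C.c .R (γ t)).1.1 - m.1)))) - c) / 2))
    rw [← hv3]
    exact hz

end Pool.Agent.Work.MP_0d206b_gt

end

end

/-! ### L.I_NSl -/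

section

/-!
# MP_0d206b_gt, module L: two different limits of one curve are not separated
-/

open Set Filter Topology

namespace Pool.Agent.Work.MP_0d206b_gt

theorem I_NSl : NSl := by
  intro X _ u a a' hne ha ha'
  refine ⟨hne, fun U V hU hV haU haV => ?_⟩
  have h1 := ha.eventually (hU.mem_nhds haU)
  have h2 := ha'.eventually (hV.mem_nhds haV)
  obtain ⟨t, ht1, ht2⟩ := (h1.and h2).exists
  exact ⟨u t, ht1, ht2⟩

end Pool.Agent.Work.MP_0d206b_gt

end

/-! ### L.I_PS5 -/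

section

/-! MP_0d206b_gt, item PS5: flow box of `sigma` around an `S`-curve in `Lam`. -/

open Set Filter Topology
open scoped ContDiff NNReal

noncomputable section

namespace Pool.Agent.Work.MP_0d206b_gt

namespace XPS5

/-- existence on a compact interval for a bounded continuous field, Lipschitz in the second variable -/
theorem exist (f : ℝ → ℝ → ℝ) (K L : ℝ≥0) (hL : ∀ t x, ‖f t x‖ ≤ L) (hK : ∀ t, LipschitzWith K (f t))
    (hc : ∀ x, Continuous fun t => f t x) (a b t₀ x₀ : ℝ) (h : t₀ ∈ Icc a b) :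
    ∃ α : ℝ → ℝ, α t₀ = x₀ ∧ ∀ t ∈ Icc a b, HasDerivWithinAt α (f t (α t)) (Icc a b) t := by
  have hab : a ≤ b := h.1.trans h.2
  have hPL : IsPicardLindelof f (⟨t₀, h⟩ : Icc a b) x₀ (L * ⟨b - a, sub_nonneg.2 hab⟩) 0 L K := by
    refine ⟨fun t _ => (hK t).lipschitzOnWith, fun x _ => (hc x).continuousOn, fun t _ x _ => hL t x, ?_⟩
    simp only [NNReal.coe_mul, NNReal.coe_zero, sub_zero]
    apply mul_le_mul_of_nonneg_left _ L.2
    apply max_le
    · show b - t₀ ≤ b - a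
      linarith [h.1]
    · show t₀ - a ≤ b - a
      linarith [h.2]
  exact hPL.exists_eq_forall_mem_Icc_hasDerivWithinAt (Metric.mem_closedBall_self (by simp))

theorem gron_right (v : ℝ → ℝ → ℝ) (K : ℝ≥0) (hK : ∀ t, LipschitzWith K (v t)) (t₀ b : ℝ) (g h : ℝ → ℝ)
    (hg : ∀ t ∈ Icc t₀ b, HasDerivWithinAt g (v t (g t)) (Icc t₀ b) t)
    (hh : ∀ t ∈ Icc t₀ b, HasDerivWithinAt h (v t (h t)) (Icc t₀ b) t) :
    ∀ t ∈ Icc t₀ b, dist (g t) (h t) ≤ dist (g t₀) (h t₀) * Real.exp (K * (t - t₀)) := by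
  refine dist_le_of_trajectories_ODE hK ?_ ?_ ?_ ?_ le_rfl
  · exact fun t ht => (hg t ht).continuousWithinAt
  · intro t ht
    exact (hg t ⟨ht.1, ht.2.le⟩).mono_of_mem_nhdsWithin
      (Icc_mem_nhdsGE_of_mem ht)
  · exact fun t ht => (hh t ht).continuousWithinAt
  · intro t ht
    exact (hh t ⟨ht.1, ht.2.le⟩).mono_of_mem_nhdsWithin
      (Icc_mem_nhdsGE_of_mem ht)

theorem gron (v : ℝ → ℝ → ℝ) (K : ℝ≥0) (hK : ∀ t, LipschitzWith K (v t)) (a b t₀ : ℝ) (ht₀ : t₀ ∈ Icc a b)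
    (g h : ℝ → ℝ)
    (hg : ∀ t ∈ Icc a b, HasDerivWithinAt g (v t (g t)) (Icc a b) t)
    (hh : ∀ t ∈ Icc a b, HasDerivWithinAt h (v t (h t)) (Icc a b) t) :
    ∀ t ∈ Icc a b, dist (g t) (h t) ≤ dist (g t₀) (h t₀) * Real.exp (K * |t - t₀|) := by
  intro t ht
  rcases le_total t₀ t with hle | hle
  · have hsub : Icc t₀ b ⊆ Icc a b := Icc_subset_Icc_left ht₀.1
    have := gron_right v K hK t₀ b g h (fun s hs => (hg s (hsub hs)).mono hsub)
      (fun s hs => (hh s (hsub hs)).mono hsub) t ⟨hle, ht.2⟩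
    rwa [abs_of_nonneg (sub_nonneg.2 hle)]
  · have hsub : ∀ s ∈ Icc (-t₀) (-a), -s ∈ Icc a b := fun s hs =>
      ⟨by linarith [hs.2], by linarith [hs.1, ht₀.2]⟩
    have key : ∀ (k : ℝ → ℝ), (∀ t ∈ Icc a b, HasDerivWithinAt k (v t (k t)) (Icc a b) t) →
        ∀ s ∈ Icc (-t₀) (-a), HasDerivWithinAt (fun u => k (-u)) (-(v (-s) (k (-s)))) (Icc (-t₀) (-a)) s := by
      intro k hk s hs
      have h1 := hk (-s) (hsub s hs)
      have h2 : HasDerivWithinAt (fun u : ℝ => -u) (-1) (Icc (-t₀) (-a)) s :=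
        (hasDerivAt_neg s).hasDerivWithinAt
      have h3 := HasDerivWithinAt.comp (h := fun u : ℝ => -u) s h1 h2 (fun u hu => hsub u hu)
      have h4 : v (-s) (k (-s)) * -1 = -(v (-s) (k (-s))) := by ring
      rw [h4] at h3
      exact h3
    have := gron_right (fun s x => -(v (-s) x)) K (fun s => (hK (-s)).neg) (-t₀) (-a)
      (fun u => g (-u)) (fun u => h (-u)) (key g hg) (key h hh) (-t) ⟨by linarith, by linarith [ht.1]⟩
    simp only [neg_neg] at this
    have h5 : |t - t₀| = -t - -t₀ := by rw [abs_of_nonpos (by linarith)]; ring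
    rw [h5]
    exact this

/-- clamp to `[a, b]` -/
def cl (a b x : ℝ) : ℝ := max a (min x b)

theorem cl_mem {a b : ℝ} (h : a ≤ b) (x : ℝ) : cl a b x ∈ Icc a b :=
  ⟨le_max_left _ _, max_le h (min_le_right _ _)⟩

theorem cl_of_mem {a b x : ℝ} (h : x ∈ Icc a b) : cl a b x = x := by
  unfold cl; rw [min_eq_left h.2, max_eq_right h.1]

theorem cl_cont (a b : ℝ) : Continuous (cl a b) := by unfold cl; fun_prop

theorem cl_lip (a b x y : ℝ) : |cl a b x - cl a b y| ≤ |x - y| := by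
  unfold cl
  calc |max a (min x b) - max a (min y b)| ≤ |min x b - min y b| := by
        have := abs_max_sub_max_le_max a (min x b) a (min y b)
        simpa using this
    _ ≤ |x - y| := by
        have := abs_min_sub_min_le_max x b y b
        simpa using this

theorem tube (h1 : PL1) (h2 : PS2) (D : DA) (Y : ℝ → ℝ) (hY : Continuous Y)
    (hL : ∀ x, ((x, Y x) : P2) ∈ D.Lam) (A B : ℝ) :
    ∃ ε > 0, ∃ K : ℝ, ∀ x ∈ Icc A B, ∀ y y', |y - Y x| < ε → |y' - Y x| < ε →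
      ((x, y) : P2) ∉ Gam ∧ |D.sigma (x, y) - D.sigma (x, y')| ≤ K * |y - y'| := by
  apply isCompact_Icc.induction_on (p := fun s : Set ℝ => ∃ ε > 0, ∃ K : ℝ, ∀ x ∈ s, ∀ y y',
    |y - Y x| < ε → |y' - Y x| < ε →
      ((x, y) : P2) ∉ Gam ∧ |D.sigma (x, y) - D.sigma (x, y')| ≤ K * |y - y'|)
  · exact ⟨1, one_pos, 0, by simp⟩
  · rintro s t hst ⟨ε, hε, K, h⟩
    exact ⟨ε, hε, K, fun x hx => h x (hst hx)⟩
  · rintro s t ⟨ε, hε, K, h⟩ ⟨ε', hε', K', h'⟩
    refine ⟨min ε ε', lt_min hε hε', max K K', ?_⟩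
    intro x hx y y' hy hy'
    rcases hx with hx | hx
    · obtain ⟨g1, g2⟩ := h x hx y y' (lt_of_lt_of_le hy (min_le_left _ _))
        (lt_of_lt_of_le hy' (min_le_left _ _))
      exact ⟨g1, g2.trans (mul_le_mul_of_nonneg_right (le_max_left _ _) (abs_nonneg _))⟩
    · obtain ⟨g1, g2⟩ := h' x hx y y' (lt_of_lt_of_le hy (min_le_right _ _))
        (lt_of_lt_of_le hy' (min_le_right _ _))
      exact ⟨g1, g2.trans (mul_le_mul_of_nonneg_right (le_max_right _ _) (abs_nonneg _))⟩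
  · intro x₀ _
    have hz : ((x₀, Y x₀) : P2) ∉ Gam := (h1 D).2.2.2.2.2.1 _ (hL x₀)
    obtain ⟨ε, hε, K, h⟩ := h2 D (x₀, Y x₀) hz
    have hnb : {x : ℝ | |x - x₀| < ε ∧ |Y x - Y x₀| < ε / 2} ∈ 𝓝 x₀ := by
      apply Filter.inter_mem
      · have : Tendsto (fun x : ℝ => |x - x₀|) (𝓝 x₀) (𝓝 |x₀ - x₀|) := by
          exact (continuous_abs.comp (continuous_id.sub continuous_const)).tendsto x₀
        rw [sub_self, abs_zero] at this
        exact this.eventually (gt_mem_nhds hε)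
      · have : Tendsto (fun x : ℝ => |Y x - Y x₀|) (𝓝 x₀) (𝓝 |Y x₀ - Y x₀|) := by
          exact (continuous_abs.comp (hY.sub continuous_const)).tendsto x₀
        rw [sub_self, abs_zero] at this
        exact this.eventually (gt_mem_nhds (half_pos hε))
    refine ⟨_, mem_nhdsWithin_of_mem_nhds hnb, ε / 2, half_pos hε, K, ?_⟩
    rintro x ⟨hx1, hx2⟩ y y' hy hy'
    refine h x y y' hx1 ?_ ?_
    · have : |y - Y x₀| ≤ |y - Y x| + |Y x - Y x₀| := abs_sub_le _ _ _
      linarith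
    · have : |y' - Y x₀| ≤ |y' - Y x| + |Y x - Y x₀| := abs_sub_le _ _ _
      linarith

end XPS5

theorem I_PS5 (h1 : PG1) (h2 : PL1) (h3 : PL3) (h4 : PS1) (h5 : PS2) (h6 : PS3) : PS5 := by
  intro D Y hYc hYL x₁ x₂ hx
  have hYcont : Continuous Y :=
    continuous_iff_continuousAt.2 fun x => (hYc x (mem_univ x)).continuousAt
  obtain ⟨ε, hε, K, hK⟩ := XPS5.tube h2 h5 D Y hYcont hYL (x₁ - 1) (x₂ + 1)
  have hAB : x₁ - 1 ≤ x₂ + 1 := by linarith
  refine ⟨min ε 1, lt_min hε one_pos, ?_, ?_⟩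
  · intro x y hx1 hx2 hy
    have hm := min_le_right ε 1
    refine (hK x ⟨by linarith, by linarith⟩ y y (lt_of_lt_of_le hy (min_le_left _ _))
      (lt_of_lt_of_le hy (min_le_left _ _))).1
  · intro η hη
    set A := x₁ - 1 with hA
    set B := x₂ + 1 with hB
    set r := ε / 2 with hr
    have hr0 : 0 < r := half_pos hε
    have hrr : -r ≤ r := by linarith
    -- the extended field
    set Fl : ℝ → ℝ → ℝ := fun x u =>
      D.sigma (XPS5.cl A B x, Y (XPS5.cl A B x) + XPS5.cl (-r) r u) with hFl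
    have hin : ∀ x u, |(Y (XPS5.cl A B x) + XPS5.cl (-r) r u) - Y (XPS5.cl A B x)| < ε := by
      intro x u
      have := XPS5.cl_mem hrr u
      rw [add_sub_cancel_left, abs_lt]
      constructor <;> [linarith [this.1]; linarith [this.2]]
    have hFcont : Continuous (fun p : ℝ × ℝ => Fl p.1 p.2) := by
      have hmap : Continuous (fun p : ℝ × ℝ =>
          ((XPS5.cl A B p.1, Y (XPS5.cl A B p.1) + XPS5.cl (-r) r p.2) : P2)) := by
        have c1 := (XPS5.cl_cont A B).comp (continuous_fst (X := ℝ) (Y := ℝ))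
        have c2 := (XPS5.cl_cont (-r) r).comp (continuous_snd (X := ℝ) (Y := ℝ))
        exact c1.prodMk ((hYcont.comp c1).add c2)
      refine (h4 D).comp_continuous hmap ?_
      intro p
      exact (hK _ (XPS5.cl_mem hAB p.1) _ _ (hin p.1 p.2) (hin p.1 p.2)).1
    obtain ⟨L, hL⟩ := (isCompact_Icc.prod isCompact_Icc :
      IsCompact (Icc A B ×ˢ Icc (-r) r)).exists_bound_of_continuousOn hFcont.continuousOn
    have hidem : ∀ x u, Fl x u = Fl (XPS5.cl A B x) (XPS5.cl (-r) r u) := by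
      intro x u
      simp only [hFl]
      rw [XPS5.cl_of_mem (XPS5.cl_mem hAB x), XPS5.cl_of_mem (XPS5.cl_mem hrr u)]
    have hL' : ∀ x u, ‖Fl x u‖ ≤ L := by
      intro x u
      rw [hidem]
      exact hL (XPS5.cl A B x, XPS5.cl (-r) r u) ⟨XPS5.cl_mem hAB x, XPS5.cl_mem hrr u⟩
    have hL0 : 0 ≤ L := (norm_nonneg _).trans (hL' 0 0)
    set K' : ℝ≥0 := ⟨max K 0, le_max_right _ _⟩ with hK'
    set f : ℝ → ℝ → ℝ := fun x y => Fl x (y - Y (XPS5.cl A B x)) with hf
    have hLip : ∀ x, LipschitzWith K' (f x) := by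
      intro x
      apply LipschitzWith.of_dist_le_mul
      intro y y'
      rw [Real.dist_eq, Real.dist_eq]
      have g := (hK _ (XPS5.cl_mem hAB x) _ _ (hin x (y - Y (XPS5.cl A B x)))
        (hin x (y' - Y (XPS5.cl A B x)))).2
      rw [add_sub_add_left_eq_sub] at g
      have g2 := XPS5.cl_lip (-r) r (y - Y (XPS5.cl A B x)) (y' - Y (XPS5.cl A B x))
      rw [sub_sub_sub_cancel_right] at g2
      calc |f x y - f x y'| ≤ K * |XPS5.cl (-r) r (y - Y (XPS5.cl A B x)) -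
            XPS5.cl (-r) r (y' - Y (XPS5.cl A B x))| := g
        _ ≤ max K 0 * |XPS5.cl (-r) r (y - Y (XPS5.cl A B x)) -
            XPS5.cl (-r) r (y' - Y (XPS5.cl A B x))| :=
          mul_le_mul_of_nonneg_right (le_max_left _ _) (abs_nonneg _)
        _ ≤ max K 0 * |y - y'| := mul_le_mul_of_nonneg_left g2 (le_max_right _ _)
    have hfc : ∀ y, Continuous fun x => f x y := by
      intro y
      exact hFcont.comp (continuous_id.prodMk
        (continuous_const.sub (hYcont.comp (XPS5.cl_cont A B))))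
    -- `Y` solves the equation of `f`
    have hYf : ∀ x ∈ Icc A B, HasDerivWithinAt Y (f x (Y x)) (Icc A B) x := by
      intro x hxm
      have e1 : f x (Y x) = D.S (x, Y x) := by
        simp only [hf, hFl]
        rw [XPS5.cl_of_mem hxm, sub_self, XPS5.cl_of_mem ⟨by linarith, by linarith⟩, add_zero]
        unfold DA.sigma
        rw [if_pos (hYL x)]
      rw [e1]
      exact (hYc x (mem_univ x)).hasDerivWithinAt
    set M := Real.exp (K' * (B - A)) with hM
    have hM0 : 0 < M := Real.exp_pos _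
    refine ⟨min 1 (min η r / (2 * M)), lt_min one_pos (div_pos (lt_min hη hr0) (by positivity)), ?_⟩
    intro x₀ y₀ hx1 hx2 hy
    set δ := min 1 (min η r / (2 * M)) with hδ
    have hδ1 : δ ≤ 1 := min_le_left _ _
    have hδ2 : δ ≤ min η r / (2 * M) := min_le_right _ _
    have hx₀ : x₀ ∈ Icc A B := ⟨by linarith, by linarith⟩
    obtain ⟨α, hα0, hα⟩ := XPS5.exist f K' ⟨L, hL0⟩ (fun t x => hL' t _) hLip hfc A B x₀ y₀ hx₀
    have hgr := XPS5.gron f K' hLip A B x₀ hx₀ α Y hα hYf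
    have hclose : ∀ x ∈ Icc A B, |α x - Y x| < min η r := by
      intro x hxm
      have g := hgr x hxm
      rw [hα0, Real.dist_eq, Real.dist_eq] at g
      have e1 : Real.exp (K' * |x - x₀|) ≤ M := by
        apply Real.exp_le_exp.2
        apply mul_le_mul_of_nonneg_left _ K'.2
        rw [abs_le]
        constructor <;> [linarith [hxm.1, hx₀.2]; linarith [hxm.2, hx₀.1]]
      have e2 : |y₀ - Y x₀| * Real.exp (K' * |x - x₀|) ≤ |y₀ - Y x₀| * M :=
        mul_le_mul_of_nonneg_left e1 (abs_nonneg _)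
      have e3 : |y₀ - Y x₀| * M < (min η r / (2 * M)) * M :=
        mul_lt_mul_of_pos_right (lt_of_lt_of_le hy hδ2) hM0
      have e4 : (min η r / (2 * M)) * M = min η r / 2 := by field_simp
      have e5 : 0 < min η r := lt_min hη hr0
      linarith
    refine ⟨α, hα0, ?_, ?_⟩
    · intro x hxm
      have hxI : x ∈ Ioo A B := ⟨by linarith [hxm.1], by linarith [hxm.2]⟩
      have hxI' : x ∈ Icc A B := ⟨hxI.1.le, hxI.2.le⟩
      have g := (hα x hxI').hasDerivAt (Icc_mem_nhds hxI.1 hxI.2)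
      have e1 : f x (α x) = D.sigma (x, α x) := by
        simp only [hf, hFl]
        have hc := lt_of_lt_of_le (hclose x hxI') (min_le_right _ _)
        rw [abs_lt] at hc
        rw [XPS5.cl_of_mem hxI', XPS5.cl_of_mem ⟨by linarith [hc.1], by linarith [hc.2]⟩]
        congr 1
        ext <;> simp
      rw [e1] at g
      exact g
    · intro x hxm
      have hxI' : x ∈ Icc A B := ⟨by linarith [hxm.1], by linarith [hxm.2]⟩
      exact lt_of_lt_of_le (hclose x hxI') (min_le_left _ _)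

end Pool.Agent.Work.MP_0d206b_gt

end

end

/-! ### L0.L04 -/

section

/-! MP_0d206b_gt, item L04: leaves in the attractor piece of flow 0 are the lifted vertical strips. -/

set_option autoImplicit false

open Set Filter Topology
open scoped ContDiff

noncomputable section

namespace Pool.Agent.Work.MP_0d206b_gt

namespace L0L04

theorem contc {ι : Type} {dom : ι → Set E} {glue : ι → E → ι → E → Prop} {N : Type} [TopologicalSpace N]
    (C : CoverData dom glue N) (i : ι) : ContinuousOn (C.c i) (C.U i) := by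
  rw [continuousOn_iff_continuous_domRestrict]
  exact continuous_subtype_val.comp (C.cov i).continuous

theorem tangent (D : DA) (e e' p : E) (h : e.1.1 = e'.1.1) : e' - e ∈ plane (es0 D) .A p := by
  show e' - e ∈ Submodule.span ℝ {(((0, 1), 0) : E), ((0, 0), 1)}
  rw [Submodule.mem_span_pair]
  refine ⟨e'.1.2 - e.1.2, e'.2 - e.2, ?_⟩
  ext
  · show (e'.1.2 - e.1.2) * 0 + (e'.2 - e.2) * 0 = e'.1.1 - e.1.1
    rw [h]; ring
  · show (e'.1.2 - e.1.2) * 1 + (e'.2 - e.2) * 0 = e'.1.2 - e.1.2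
    ring
  · show (e'.1.2 - e.1.2) * 0 + (e'.2 - e.2) * 1 = e'.2 - e.2
    ring

variable {N : Type} [TopologicalSpace N]

theorem arc_step (h3 : L03) (hG5 : GL5) (hAP : AP0) (D : DA) (C : CoverData dom0 (glue0 D) N) (z : P2)
    (s : E → N) (hs : IsLift C .A (PA z) s) (γ : ℝ → N) (hγ : IsArc C (es0 D) γ) (t₀ t₁ : ℝ)
    (h : γ t₀ ∈ C.U .A ∧ C.c .A (γ t₀) ∈ PA z ∧ s (C.c .A (γ t₀)) = γ t₀) :
    γ t₁ ∈ C.U .A ∧ C.c .A (γ t₁) ∈ PA z ∧ s (C.c .A (γ t₁)) = γ t₁ := by
  obtain ⟨ha, hb, hc⟩ := h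
  have h4 := (h3 D N C γ hγ t₀).1 ha
  have hcont : Continuous (fun t => (C.c .A (γ t)).1.2) := by
    have h5 : Continuous (fun t => C.c .A (γ t)) :=
      (contc C .A).comp_continuous hγ.cont (fun t => (h4 t).1)
    exact continuous_snd.comp (continuous_fst.comp h5)
  have hx : (C.c .A (γ t₀)).1.1 = z.1 := hb.1
  have hin : ∀ t, γ t ∈ C.U .A ∧ C.c .A (γ t) ∈ PA z := by
    intro t
    refine ⟨(h4 t).1, (h4 t).2.trans hx, ?_⟩
    intro y hy
    rcases Set.uIcc_subset_uIcc_union_uIcc (b := (C.c .A (γ t₀)).1.2) hy with h5 | h5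
    · exact hb.2 y h5
    · obtain ⟨t', -, ht'⟩ := intermediate_value_uIcc (a := t₀) (b := t) (hcont.continuousOn) h5
      have h6 : (C.c .A (γ t')).1 ∉ Gam := C.maps .A (h4 t').1
      have h7 : ((z.1, y) : P2) = (C.c .A (γ t')).1 := by
        ext
        · show z.1 = (C.c .A (γ t')).1.1
          rw [(h4 t').2, hx]
        · exact ht'.symm
      rw [h7]
      exact h6
  refine ⟨(hin t₁).1, (hin t₁).2, ?_⟩
  exact hG5 Idx0 dom0 (glue0 D) N C .A (PA z) s (hAP.2.2.2.1 z) hs γ hγ.cont hin t₀ hc t₁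

end L0L04

theorem I_L04 (hCP : CP0s) (hAP : AP0) (hGS : GS1) (hG1 : GL1) (hG5 : GL5) (hA3 : AR3) (hA4 : AR4)
    (h1 : L01) (h3 : L03) : L04 := by
  intro D N _ C
  refine ⟨⟨fun _ => C.U .A, fun _ => C.c .A, fun _ => C.isOpen_U .A, fun _ => C.maps .A,
    fun _ => C.cov .A, fun k k' _ _ _ => rfl, ?_⟩, rfl, rfl⟩
  intro k b b' hb
  have hconv := hAP.1
  have hself := hAP.2.1
  have hsub := hAP.2.2.2.1
  have hbG : (C.c .A b).1 ∉ Gam := C.maps .A hb
  have hbY : C.c .A b ∈ PA (C.c .A b).1 := hself _ hbG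
  constructor
  · intro hr
    obtain ⟨i1, i2⟩ := hGS (PA (C.c .A b).1) (hconv _) ⟨_, hbY⟩
    obtain ⟨s, hs, hsb⟩ := hG1 Idx0 dom0 (glue0 D) N C .A (PA (C.c .A b).1) (hsub _) i1 i2 b hb hbY
    have hQ := (hA4 Idx0 dom0 (glue0 D) N C (es0 D)
      (fun b1 => b1 ∈ C.U .A ∧ C.c .A b1 ∈ PA (C.c .A b).1 ∧ s (C.c .A b1) = b1)
      (fun γ hγ h => L0L04.arc_step h3 hG5 hAP D C _ s hs γ hγ 0 1 h)
      (fun γ hγ h => L0L04.arc_step h3 hG5 hAP D C _ s hs γ hγ 1 0 h)
      b b' hr).1 ⟨hb, hbY, hsb⟩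
    exact ⟨s, hs.cont, fun e he => ⟨hs.mem e he, hs.eq e he⟩, hsb, C.c .A b', hQ.2.1, hQ.2.2⟩
  · rintro ⟨s, hs1, hs2, hs3, e, he, rfl⟩
    have hs : IsLift C .A (PA (C.c .A b).1) s := ⟨hs1, fun e he => (hs2 e he).1, fun e he => (hs2 e he).2⟩
    have h5 := hA3 Idx0 dom0 (glue0 D) N C (es0 D) (hCP D) .A (PA (C.c .A b).1) s (hsub _) hs
      (C.c .A b) e ((hconv _).segment_subset hbY he) (fun p _ => L0L04.tangent D _ _ _ he.1.symm)
    have hs3' : s (C.c .A b) = b := hs3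
    rw [hs3'] at h5
    exact h5

end Pool.Agent.Work.MP_0d206b_gt

end

end

/-! ### L0.L09 -/

section

/-! Item L09: the stable leaf space of flow 0 is a simply connected one-manifold. -/

open Set Filter Topology
open scoped ContDiff

noncomputable section

namespace Pool.Agent.Work.MP_0d206b_gt

/-- a lift over a small box around a point of the repeller piece -/
theorem L0L09.box (hPG : PG1) (hGS : GS1) (hG1 : GL1) (D : DA) (N : Type) [TopologicalSpace N]
    (C : CoverData dom0 (glue0 D) N) (b : N) (hR : b ∈ C.U .R) :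
    ∃ ε > 0, ∃ s : E → N,
      {e : E | |e.1.1 - (C.c .R b).1.1| < ε ∧ |e.1.2 - (C.c .R b).1.2| < ε} ⊆ dom0 .R ∧
      IsLift C .R {e : E | |e.1.1 - (C.c .R b).1.1| < ε ∧ |e.1.2 - (C.c .R b).1.2| < ε} s ∧
      s (C.c .R b) = b := by
  have hz : (C.c .R b).1 ∉ Gam := C.maps .R hR
  have hcl : IsClosed (Gam : Set P2) := hPG.2.2.2.2.1
  obtain ⟨ε, hε, hball⟩ := Metric.isOpen_iff.mp hcl.isOpen_compl (C.c .R b).1 hz
  have hset : {e : E | |e.1.1 - (C.c .R b).1.1| < ε ∧ |e.1.2 - (C.c .R b).1.2| < ε} =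
      (LinearMap.fst ℝ P2 ℝ) ⁻¹' Metric.ball (C.c .R b).1 ε := by
    ext e
    simp only [mem_ofPred_eq, mem_preimage, LinearMap.fst_apply, Metric.mem_ball, Prod.dist_eq,
      Real.dist_eq, max_lt_iff]
  have hconv : Convex ℝ {e : E | |e.1.1 - (C.c .R b).1.1| < ε ∧ |e.1.2 - (C.c .R b).1.2| < ε} := by
    rw [hset]
    exact (convex_ball _ _).linear_preimage _
  have hmem : C.c .R b ∈ {e : E | |e.1.1 - (C.c .R b).1.1| < ε ∧ |e.1.2 - (C.c .R b).1.2| < ε} := by
    simp [hε]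
  have hsub : {e : E | |e.1.1 - (C.c .R b).1.1| < ε ∧ |e.1.2 - (C.c .R b).1.2| < ε} ⊆ dom0 .R := by
    rw [hset]
    intro e he
    exact hball he
  obtain ⟨hs1, hs2⟩ := hGS _ hconv ⟨_, hmem⟩
  obtain ⟨s, hs, hsb⟩ := hG1 Idx0 dom0 (glue0 D) N C .R _ hsub hs1 hs2 b hR hmem
  exact ⟨ε, hε, s, hsub, hs, hsb⟩

theorem I_L09 (hOM : OM) (hLF : LF) (hAPL : APL) (hLN : LN) (hPG : PG1) (hP1 : PL1) (hGS : GS1)
    (hG1 : GL1) (h1 : L01) (h4 : L04) (h7 : L07) (h8 : L08) : L09 := by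
  intro D N _ _ C
  refine hOM N (leafSetoid C (es0 D)) (h7 D N C) (hLF Idx0 dom0 (glue0 D) N C (es0 D)).2 ?_
  intro q
  induction q using Quotient.inductionOn with | _ b => ?_
  rcases (h1 D N C b).1 with h | ⟨hR, hL⟩
  · obtain ⟨A, hU, hc⟩ := h4 D N C
    exact hAPL N (leafSetoid C (es0 D)) Unit A (h7 D N C) _ ⟨(), b, by rw [hU]; exact h, rfl⟩
  · obtain ⟨ε, hε, s, hsub, hs, hsb⟩ := L0L09.box hPG hGS hG1 D N C b hR
    have hemb := h8 D N C (C.c .R b).1 (C.c .R b).2 ε s hε hL hs hsub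
    obtain ⟨θ, -, -, h0, -, hθ⟩ := hLN (Quotient (leafSetoid C (es0 D))) ε hε
      (fun t => Quotient.mk (leafSetoid C (es0 D))
        (s (((C.c .R b).1.1, (C.c .R b).1.2 + t), (C.c .R b).2))) hemb
    refine ⟨_, hθ, 0, ?_⟩
    simp only [h0, add_zero]
    exact congrArg _ hsb

end Pool.Agent.Work.MP_0d206b_gt

end

end
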