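import Pool.Agent.Work.MP_0d206b_gt.Bd.StD
import Pool.Agent.Work.MP_0d206b_gt.Bd.L1

/-! ### D.D5 -/

section

/-! Project MP_0d206b_gt, module D, item D5. -/

set_option autoImplicit false

open Set Filter Topology Function
open scoped ContDiff

noncomputable section

namespace Pool.Agent.Work.MP_0d206b_gt.D

namespace D5

theorem li_smul_mem_B {v : P2} (hv : v ∈ B) : lam⁻¹ • v ∈ B := by
  have h0 := laminv_pos
  have h1 : lam⁻¹ ≤ 1 := by linarith [laminv_lt]
  obtain ⟨ha, hb⟩ := hv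
  refine ⟨?_, ?_⟩
  · rw [Prod.smul_fst, smul_eq_mul, abs_mul, abs_of_pos h0]
    nlinarith [abs_nonneg v.1]
  · rw [Prod.smul_snd, smul_eq_mul, abs_mul, abs_of_pos h0]
    nlinarith [abs_nonneg v.2]

/-- the claim: `F^[n] w = m + v` with `v ∈ λ B` after `n + 1` steps pulls back -/
theorem pull (f : FData) (n : ℕ) : ∀ (z m v : P2), m ∈ Gam → v ∈ B → f.F^[n + 1] z = m + lam • v →
    ∃ m' ∈ Gam, z = m' + (lam⁻¹) ^ n • v := by
  induction n with
  | zero =>
    intro z m v hm hv h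
    refine ⟨Lz (-1) m, Lz_negone_mem hm, ?_⟩
    rw [pow_zero, one_smul]
    apply f.inj
    have h2 : f.F z = m + lam • v := h
    rw [h2, f.map_add_B (Lz_negone_mem hm) hv, Lz_comp]
    norm_num [Lz_zero']
  | succ n ih =>
    intro z m v hm hv h
    rw [iterate_succ_apply'] at h
    have h3 : f.F^[n + 1] z = Lz (-1) m + lam • (lam⁻¹ • v) := by
      apply f.inj
      rw [smul_smul, mul_inv_cancel₀ lam_ne, one_smul, f.map_add_B (Lz_negone_mem hm) hv, Lz_comp, h]
      norm_num [Lz_zero']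
    obtain ⟨m', hm', hz⟩ := ih z (Lz (-1) m) (lam⁻¹ • v) (Lz_negone_mem hm) (li_smul_mem_B hv) h3
    refine ⟨m', hm', ?_⟩
    rw [hz, smul_smul, pow_succ]

theorem norm_le_of_mem_B {v : P2} (hv : v ∈ B) : ‖v‖ ≤ 1 := by
  obtain ⟨ha, hb⟩ := hv
  rw [Prod.norm_def, max_le_iff, Real.norm_eq_abs, Real.norm_eq_abs]
  have h1 : a0 ≤ 1 := by
    unfold a0; rw [div_le_iff₀ lam_pos]; linarith [lam_gt]
  have h2 : r1 ≤ 1 := by unfold r1; norm_num
  exact ⟨ha.trans h1, hb.trans h2⟩

theorem fgam (f : FData) {w : P2} (h : f.F w ∈ Gam) : w ∈ Gam := by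
  have h1 : w = Lz (-1) (f.F w) := by
    apply f.inj
    have h2 := f.add 0 (Lz (-1) (f.F w)) (Lz_negone_mem h)
    rw [zero_add, f.zero, zero_add, Lz_comp] at h2
    rw [h2]; norm_num [Lz_zero']
  rw [h1]
  exact Lz_negone_mem h

theorem fgamN (f : FData) {w : P2} (hw : w ∉ Gam) (n : ℕ) : f.F^[n] w ∉ Gam := by
  induction n with
  | zero => exact hw
  | succ n ih => rw [iterate_succ_apply']; exact fun h => ih (fgam f h)

theorem iter_notQ (f : FData) (hQ : ∀ z, z ∉ Q → f.F z ∉ Q) {z : P2} {n0 : ℕ} (h : f.F^[n0] z ∉ Q) :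
    ∀ n ≥ n0, f.F^[n] z ∉ Q := by
  intro n hn
  induction n, hn using Nat.le_induction with
  | base => exact h
  | succ n _ ih => rw [iterate_succ_apply']; exact hQ _ ih

theorem exists_n0 (f : FData) (ht : StGamTop) (hQ : StQ) {z : P2} (hz : z ∉ Gam) :
    ∃ n0 : ℕ, ∀ n ≥ n0, f.F^[n] z ∉ Q := by
  by_contra hcon
  push Not at hcon
  obtain ⟨_, _, _, _, _, hsep⟩ := ht
  obtain ⟨r, hr, hdist⟩ := hsep z hz
  -- all iterates are in Q
  have hall : ∀ n, f.F^[n] z ∈ Q := by
    intro n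
    by_contra hn
    obtain ⟨k, hk, hkQ⟩ := hcon n
    exact iter_notQ f (hQ f).2.2.1 hn k hk hkQ
  have hlim : Tendsto (fun n : ℕ => (lam⁻¹) ^ n) atTop (𝓝 0) :=
    tendsto_pow_atTop_nhds_zero_of_lt_one laminv_pos.le (by linarith [laminv_lt])
  obtain ⟨n, hn⟩ := (hlim.eventually_lt_const hr).exists
  obtain ⟨m, hm, v, hv, he⟩ := hall (n + 1)
  obtain ⟨m', hm', hz'⟩ := pull f n z m v hm hv he
  have h1 := hdist m' hm'
  have h2 : dist z m' ≤ (lam⁻¹) ^ n := by
    rw [dist_eq_norm, hz', add_sub_cancel_left, norm_smul, Real.norm_eq_abs,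
      abs_of_pos (pow_pos laminv_pos n)]
    exact mul_le_of_le_one_right (pow_pos laminv_pos n).le (norm_le_of_mem_B hv)
  linarith

end D5

open D5 in
theorem I_D5 (h1 : StGam1) (ht : StGamTop) (hQ : StQ) : StD5 := by
  intro f z hz
  obtain ⟨n0, hn0⟩ := exists_n0 f ht hQ hz
  refine ⟨⟨n0, hn0⟩, ?_, ?_⟩
  · -- the product
    set P : ℕ → ℝ := fun n => ∏ k ∈ Finset.range n, dy f.F (f.F^[k] z) with hP
    have hPpos : ∀ n, 0 < P n := fun n => Finset.prod_pos fun k _ => f.dy_pos _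
    have hbound : ∀ j : ℕ, P (j + n0) ≤ P n0 * (lam⁻¹) ^ j := by
      intro j
      induction j with
      | zero => simp
      | succ j ih =>
        have e : P (j + 1 + n0) = P (j + n0) * dy f.F (f.F^[j + n0] z) := by
          have : j + 1 + n0 = (j + n0) + 1 := by omega
          rw [this, hP]
          exact Finset.prod_range_succ _ _
        rw [e, pow_succ, ← mul_assoc]
        apply mul_le_mul ih (f.dy_out _ (hn0 _ (by omega))) (f.dy_pos _).le
        exact mul_nonneg (hPpos _).le (pow_pos laminv_pos j).le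
    rw [← tendsto_add_atTop_iff_nat n0]
    have hlim : Tendsto (fun n : ℕ => P n0 * (lam⁻¹) ^ n) atTop (𝓝 0) := by
      have := (tendsto_pow_atTop_nhds_zero_of_lt_one laminv_pos.le
        (by linarith [laminv_lt] : lam⁻¹ < 1)).const_mul (P n0)
      rwa [mul_zero] at this
    exact squeeze_zero (fun n => (hPpos _).le) hbound hlim
  · obtain ⟨_, _, _, _, _, hsep⟩ := ht
    have hfin : ∀ N : ℕ, ∃ r > 0, ∀ n < N, ∀ m ∈ Gam, r ≤ dist (f.F^[n] z) m := by
      intro N
      induction N with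
      | zero => exact ⟨1, one_pos, fun n hn => absurd hn (Nat.not_lt_zero n)⟩
      | succ N ih =>
        obtain ⟨r, hr, h⟩ := ih
        obtain ⟨r', hr', h'⟩ := hsep _ (fgamN f hz N)
        refine ⟨min r r', lt_min hr hr', fun n hn m hm => ?_⟩
        rcases Nat.lt_succ_iff_lt_or_eq.mp hn with h3 | h3
        · exact (min_le_left _ _).trans (h n h3 m hm)
        · rw [h3]; exact (min_le_right _ _).trans (h' m hm)
    obtain ⟨r, hr, h⟩ := hfin n0
    refine ⟨min r r1, lt_min hr (by unfold r1; norm_num), fun n m hm => ?_⟩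
    rcases lt_or_ge n n0 with h3 | h3
    · exact (min_le_left _ _).trans (h n h3 m hm)
    · exact (min_le_right _ _).trans ((hQ f).2.2.2.2 _ (hn0 n h3) m hm)

end Pool.Agent.Work.MP_0d206b_gt.D

end

end

/-! ### D.DD -/

section

/-!
# MP_0d206b_gt, module D: the terms of the slope series
-/

set_option autoImplicit false

open Set Filter Topology Function
open scoped ContDiff

noncomputable section

namespace Pool.Agent.Work.MP_0d206b_gt.D

namespace DD

theorem a0_pos : 0 < a0 := by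
  unfold a0
  have := lam_pos
  positivity

/-- points `m + v`, `v ∈ B`, are in `Q` -/
theorem mem_Q {m v : P2} (hm : m ∈ Gam) (hv : v ∈ B) : m + v ∈ Q := by
  refine ⟨m, hm, lam⁻¹ • v, ?_, ?_⟩
  · have h1 := laminv_pos
    have h2 := laminv_lt
    have hle : ∀ x c : ℝ, |x| ≤ c → |lam⁻¹ * x| ≤ c := by
      intro x c hx
      rw [abs_mul, abs_of_pos h1]
      have h3 := abs_nonneg x
      nlinarith
    exact ⟨hle _ _ hv.1, hle _ _ hv.2⟩
  · rw [smul_smul, mul_inv_cancel₀ lam_ne, one_smul]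

/-- the horizontal derivative vanishes on the boxes -/
theorem dx_zero (f : FData) {m v : P2} (hm : m ∈ Gam) (hv : v ∈ B) : dx f.F (m + v) = 0 := by
  have h1 : HasDerivAt (fun s => (f.F (s, m.2 + v.2)).2) (dx f.F (m.1 + v.1, m.2 + v.2)) (m.1 + v.1) :=
    hasDerivAt_dx (f.smooth.differentiable (by norm_num) _)
  have h2 : m + v = (m.1 + v.1, m.2 + v.2) := rfl
  rw [h2]
  set I : Set ℝ := Icc (m.1 - a0) (m.1 + a0) with hI
  have hmem : m.1 + v.1 ∈ I := by
    have := abs_le.mp hv.1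
    exact ⟨by linarith, by linarith⟩
  have h3 : HasDerivWithinAt (fun s => (f.F (s, m.2 + v.2)).2) 0 I (m.1 + v.1) := by
    have h4 : HasDerivWithinAt (fun _ : ℝ => (Lz 1 m).2 + lam * v.2) 0 I (m.1 + v.1) :=
      hasDerivWithinAt_const _ _ _
    apply h4.congr_of_mem _ hmem
    intro s hs
    have h5 : ((s - m.1, v.2) : P2) ∈ B := by
      refine ⟨?_, hv.2⟩
      show |s - m.1| ≤ a0
      rw [abs_le]
      exact ⟨by linarith [hs.1], by linarith [hs.2]⟩
    have h6 := f.map_add_B hm h5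
    have h7 : m + ((s - m.1, v.2) : P2) = (s, m.2 + v.2) := by
      ext
      · show m.1 + (s - m.1) = s
        ring
      · rfl
    rw [h7] at h6
    show (f.F (s, m.2 + v.2)).2 = (Lz 1 m).2 + lam * v.2
    rw [h6]
    rfl
  have hu : UniqueDiffWithinAt ℝ I (m.1 + v.1) :=
    uniqueDiffOn_Icc (by linarith [a0_pos]) _ hmem
  exact hu.eq_deriv _ h1.hasDerivWithinAt h3

end DD

open DD in
theorem I_DD (h1 : StBdd) (h2 : StQ) : StDD := by
  intro f
  obtain ⟨hper, M, hM⟩ := h1 f.F f.smooth f.add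
  obtain ⟨_, _, _, hD4, _⟩ := h2 f
  have hbox : ∀ z ∈ Q, ∃ m ∈ Gam, ∃ v ∈ B, f.Finv z = m + v := by
    intro z hz
    obtain ⟨m, hm, v, hv, h3, _⟩ := hD4 (f.Finv z) (by rw [f.F_Finv]; exact hz)
    exact ⟨m, hm, v, hv, h3⟩
  have hzero : ∀ n, ∀ z ∈ Q, Pool.Agent.Work.MP_0d206b_gt.D.DD f n z = 0 := by
    intro n
    induction n with
    | zero =>
      intro z hz
      obtain ⟨m, hm, v, hv, h3⟩ := hbox z hz
      show dx f.F (f.Finv z) / lam = 0
      rw [h3, dx_zero f hm hv, zero_div]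
    | succ n ih =>
      intro z hz
      obtain ⟨m, hm, v, hv, h3⟩ := hbox z hz
      show dy f.F (f.Finv z) * Pool.Agent.Work.MP_0d206b_gt.D.DD f n (f.Finv z) / lam = 0
      rw [h3, ih _ (mem_Q hm hv), mul_zero, zero_div]
  refine ⟨?_, hzero, ?_, ?_⟩
  · intro n
    induction n with
    | zero => exact ((contDiff_dx f.smooth).comp f.smooth_inv).div_const lam
    | succ n ih =>
      exact (((contDiff_dy f.smooth).comp f.smooth_inv).mul (ih.comp f.smooth_inv)).div_const lam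
  · intro n
    induction n with
    | zero =>
      intro z m hm
      show dx f.F (f.Finv (z + m)) / lam = dx f.F (f.Finv z) / lam
      rw [f.inv_add z hm, (hper _ _ (Lz_negone_mem hm)).1]
    | succ n ih =>
      intro z m hm
      show dy f.F (f.Finv (z + m)) * Pool.Agent.Work.MP_0d206b_gt.D.DD f n (f.Finv (z + m)) / lam =
        dy f.F (f.Finv z) * Pool.Agent.Work.MP_0d206b_gt.D.DD f n (f.Finv z) / lam
      rw [f.inv_add z hm, (hper _ _ (Lz_negone_mem hm)).2.1, ih _ _ (Lz_negone_mem hm)]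
  · have hM0 : 0 ≤ M := le_trans (abs_nonneg _) (hM 0).1
    have hl := lam_pos
    have hli := laminv_pos
    refine ⟨M * lam⁻¹, ?_⟩
    intro n
    induction n with
    | zero =>
      intro z
      show |dx f.F (f.Finv z) / lam| ≤ _
      rw [abs_div, abs_of_pos hl, pow_zero, mul_one, div_eq_mul_inv]
      exact mul_le_mul_of_nonneg_right (hM _).1 hli.le
    | succ n ih =>
      intro z
      show |dy f.F (f.Finv z) * Pool.Agent.Work.MP_0d206b_gt.D.DD f n (f.Finv z) / lam| ≤ _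
      by_cases hw : f.Finv z ∈ Q
      · rw [hzero n _ hw, mul_zero, zero_div, abs_zero]
        positivity
      · have h4 := f.dy_out _ hw
        have h5 := f.dy_pos (f.Finv z)
        have h6 := ih (f.Finv z)
        rw [abs_div, abs_mul, abs_of_pos h5, abs_of_pos hl, div_eq_mul_inv]
        calc dy f.F (f.Finv z) * |Pool.Agent.Work.MP_0d206b_gt.D.DD f n (f.Finv z)| * lam⁻¹
            ≤ lam⁻¹ * (M * lam⁻¹ * ((lam⁻¹) ^ 2) ^ n) * lam⁻¹ := by gcongr
          _ = M * lam⁻¹ * ((lam⁻¹) ^ 2) ^ (n + 1) := by ring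

end Pool.Agent.Work.MP_0d206b_gt.D

end

end

/-! ### D.Dens -/

section

/-! Project MP_0d206b_gt, module D, item Dens (D9): the strips are dense on every vertical line. -/

set_option autoImplicit false

open Set Filter Topology Function
open scoped ContDiff

noncomputable section

namespace Pool.Agent.Work.MP_0d206b_gt.D

namespace Dens

theorem mono (f : FData) (x : ℝ) : StrictMono fun t => (f.F (x, t)).2 := by
  refine strictMono_of_deriv_pos fun t => ?_
  have h := hasDerivAt_dy (A := f.F) (x := x) (t := t) (f.smooth.differentiable (by norm_num)).differentiableAt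
  rw [h.deriv]
  exact f.dy_pos _

theorem F_eq (f : FData) (x y : ℝ) :
    f.F (lam⁻¹ * x, (f.Finv (x, y)).2) = (x, y) := by
  have h : (lam⁻¹ * x, (f.Finv (x, y)).2) = f.Finv (x, y) := by
    ext
    · exact (f.inv_fst (x, y)).symm
    · rfl
  rw [h, f.F_Finv]

theorem F_pair (f : FData) (x t : ℝ) : f.F (lam⁻¹ * x, t) = (x, (f.F (lam⁻¹ * x, t)).2) := by
  ext
  · rw [f.fst]
    show lam * (lam⁻¹ * x) = x
    rw [← mul_assoc, mul_inv_cancel₀ lam_ne, one_mul]
  · rfl

theorem claim (h1 : StGam34) (h2 : StLamInv) (p : PData) (n : ℕ) :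
    ∀ x a b : ℝ, a < b → (∀ y ∈ Ioo a b, ((x, y) : P2) ∈ LamOf p.Psi) → (b - a) * lam ^ n ≤ 1 := by
  induction n with
  | zero =>
    intro x a b hab h
    rw [pow_zero, mul_one]
    by_contra hc
    push Not at hc
    obtain ⟨m, hm, hm1, hm2, -⟩ := h1.1 (a + 1 / 4) (b - 1 / 4) 0 (by linarith)
    have h3 := abs_le.1 (p.Psi_bdd (x - m.1, 0))
    have h4 := h (m.2 + (p.Psi (x - m.1, 0)).2) ⟨by linarith [h3.1], by linarith [h3.2]⟩ m hm
      (x - m.1, 0)
    refine h4 ?_
    ext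
    · show x = m.1 + (p.Psi (x - m.1, 0)).1
      rw [p.Psi_fst]
      show x = m.1 + (x - m.1)
      ring
    · rfl
  | succ n ih =>
    intro x a b hab h
    obtain ⟨h2a, h2b, -⟩ := h2 p
    set f : FData := p.toFData
    set g : ℝ → ℝ := fun t => (f.F (lam⁻¹ * x, t)).2 with hg
    set a' := (f.Finv (x, a)).2 with ha'
    set b' := (f.Finv (x, b)).2 with hb'
    have hga : g a' = a := by
      show (f.F (lam⁻¹ * x, (f.Finv (x, a)).2)).2 = a
      rw [F_eq]
    have hgb : g b' = b := by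
      show (f.F (lam⁻¹ * x, (f.Finv (x, b)).2)).2 = b
      rw [F_eq]
    have hmono : StrictMono g := mono f _
    have hab' : a' < b' := by
      rw [← hmono.lt_iff_lt, hga, hgb]; exact hab
    have hin : ∀ t ∈ Ioo a' b', ((lam⁻¹ * x, t) : P2) ∈ LamOf p.Psi := by
      intro t ht
      rw [← h2b]
      show f.F (lam⁻¹ * x, t) ∈ LamOf p.Psi
      rw [F_pair]
      refine h _ ⟨?_, ?_⟩
      · rw [← hga]; exact hmono ht.1
      · rw [← hgb]; exact hmono ht.2
    have hdiff : ∀ t, HasDerivAt g (dy f.F (lam⁻¹ * x, t)) t := fun t =>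
      hasDerivAt_dy (f.smooth.differentiable (by norm_num)).differentiableAt
    obtain ⟨c, hc, hslope⟩ := exists_hasDerivAt_eq_slope g (fun t => dy f.F (lam⁻¹ * x, t)) hab'
      (fun t _ => (hdiff t).continuousAt.continuousWithinAt) (fun t _ => hdiff t)
    have h3 : dy f.F (lam⁻¹ * x, c) ≤ lam⁻¹ := f.dy_out _ (h2a _ (hin c hc))
    have h4 : b - a ≤ lam⁻¹ * (b' - a') := by
      rw [hslope, hga, hgb, div_le_iff₀ (sub_pos.2 hab')] at h3
      exact h3
    have h5 := ih _ _ _ hab' hin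
    have h6 : 0 < lam ^ (n + 1) := pow_pos lam_pos _
    calc (b - a) * lam ^ (n + 1) ≤ lam⁻¹ * (b' - a') * lam ^ (n + 1) :=
          mul_le_mul_of_nonneg_right h4 h6.le
      _ = (b' - a') * lam ^ n * (lam⁻¹ * lam) := by ring
      _ = (b' - a') * lam ^ n := by rw [inv_mul_cancel₀ lam_ne, mul_one]
      _ ≤ 1 := h5

end Dens

theorem I_Dens (h1 : StGam34) (h2 : StLamInv) : StDens := by
  intro p z ε hε
  by_contra hc
  push Not at hc
  have h3 : ∀ y ∈ Ioo (z.2 - ε) (z.2 + ε), ((z.1, y) : P2) ∈ LamOf p.Psi := by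
    intro y hy m hm v hv
    have h4 := hc m hm v (by rw [← hv])
    rw [← hv] at h4
    have h5 : |y - z.2| < ε := by rw [abs_lt]; constructor <;> linarith [hy.1, hy.2]
    exact absurd h4 (not_le.2 h5)
  obtain ⟨n, hn⟩ := pow_unbounded_of_one_lt (1 / (2 * ε)) lam_one
  have h4 := Dens.claim h1 h2 p n z.1 (z.2 - ε) (z.2 + ε) (by linarith) h3
  rw [div_lt_iff₀ (by positivity)] at hn
  nlinarith

end Pool.Agent.Work.MP_0d206b_gt.D

end

end

/-! ### D.DxPsi -/

section

/-! Project MP_0d206b_gt, module D: horizontals in the linear coordinate are `S`-curves. -/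

set_option autoImplicit false

open Set Filter Topology Function
open scoped ContDiff

noncomputable section

namespace Pool.Agent.Work.MP_0d206b_gt.D

namespace DxPsi

theorem near_id (p : PData) {v : P2} (hv : ‖v‖ < r1) : p.Psi =ᶠ[𝓝 v] id := by
  have h : {w : P2 | ‖w‖ < r1} ∈ 𝓝 v := (isOpen_lt continuous_norm continuous_const).mem_nhds hv
  filter_upwards [h] with w hw
  exact p.Psi_near w (mem_B_of_norm_le (le_of_lt hw))

theorem dx_smul (c : ℝ) (v : P2) : dx (fun w : P2 => c • w) v = 0 := by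
  have h : HasFDerivAt (fun w : P2 => c • w) (c • ContinuousLinearMap.id ℝ P2) v :=
    (hasFDerivAt_id v).const_smul c
  unfold dx
  rw [h.fderiv]
  simp

end DxPsi

open DxPsi in
theorem I_DxPsi (h1 : StScal) (h2 : StS) : StDxPsi := by
  intro p
  obtain ⟨-, -, -, -, hF, hQ⟩ := h2 p.toFData
  refine h1 (fun v => dx p.Psi v = SS p.toFData (p.Psi v)) r1 (by unfold r1; norm_num) ?_ ?_
  · intro v hv
    have hB : v ∈ B := mem_B_of_norm_le hv.le
    have hq : v ∈ Q := by
      refine ⟨0, Gam.zero_mem, lam⁻¹ • v, mem_B_of_norm_le ?_, ?_⟩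
      · rw [norm_smul, Real.norm_of_nonneg laminv_pos.le]
        have h3 := laminv_lt
        have h4 := laminv_pos
        nlinarith [norm_nonneg v]
      · rw [smul_smul, mul_inv_cancel₀ lam_ne, one_smul, zero_add]
    show dx p.Psi v = SS p.toFData (p.Psi v)
    rw [p.Psi_near v hB, hQ v hq]
    unfold dx
    rw [(near_id p hv).fderiv_eq, fderiv_id]
    simp
  · intro v hv
    have e : (fun w => p.F (p.Psi w)) = fun w => p.Psi (lam • w) := funext p.F_Psi
    have hFd : Differentiable ℝ p.F := p.smooth.differentiable (by simp)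
    have hPd : Differentiable ℝ p.Psi := p.Psi_smooth.differentiable (by simp)
    have d1 := dx_comp (A := p.F) (B := p.Psi) (z := v) (c := 1) (hFd _) (hPd _)
      (fun w => by rw [p.Psi_fst, one_mul])
    have d2 := dx_comp (A := p.Psi) (B := fun w => lam • w) (z := v) (c := lam) (hPd _)
      ((differentiable_id.const_smul lam) v) (fun w => by simp)
    rw [e, d2, dx_smul, mul_zero, add_zero, one_mul] at d1
    have hv' : dx p.Psi v = SS p.toFData (p.Psi v) := hv
    show dx p.Psi (lam • v) = SS p.toFData (p.Psi (lam • v))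
    rw [← p.F_Psi, hF, ← hv', ← d1]
    field_simp [lam_ne]

end Pool.Agent.Work.MP_0d206b_gt.D

end

end

/-! ### D.FData -/

section

/-! Item FData: the abstract DA map exists. -/

set_option autoImplicit false

open Set Filter Topology Function
open scoped ContDiff

noncomputable section

namespace Pool.Agent.Work.MP_0d206b_gt.D

theorem I_FData (h1 : StKData) (h2 : StFK) (h3 : StInv) (h4 : StBdd) : StFData := by
  obtain ⟨K⟩ := h1
  obtain ⟨k1, k2, k3, k4, k5, k6, k7⟩ := h2 K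
  have k8 : ∀ z, (FK K z).1 = lam * z.1 := fun z => rfl
  obtain ⟨Fi, i1, i2, i3⟩ := h3 (FK K) k1 k8 k4
  obtain ⟨_, C, hC⟩ := h4 (FK K) k1 k2
  exact ⟨{ F := FK K
           Finv := Fi
           smooth := k1
           smooth_inv := i1
           F_Finv := i2
           Finv_F := i3
           fst := k8
           add := k2
           lin := k3
           dy_ge := k4
           dy_le := k5
           dy_out := k6
           near := k7
           bdd := ⟨C, fun z => ⟨(hC z).1, (hC z).2.2.1, (hC z).2.2.2⟩⟩ }⟩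

end Pool.Agent.Work.MP_0d206b_gt.D

end

end

/-! ### D.Gam1 -/

section

/-! Project MP_0d206b_gt, module D, item Gam1. -/

set_option autoImplicit false

open Set Filter Topology Function

noncomputable section

namespace Pool.Agent.Work.MP_0d206b_gt.D

theorem I_Gam1 : StGam1 := by
  obtain ⟨h1, h2, h3, h4, -, -⟩ := I_PG1
  exact ⟨h1, h4, h2, h3⟩

end Pool.Agent.Work.MP_0d206b_gt.D

end

end

/-! ### D.Gam2 -/

section

/-! Project MP_0d206b_gt, module D, item Gam2. -/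

set_option autoImplicit false

open Set Filter Topology Function

noncomputable section

namespace Pool.Agent.Work.MP_0d206b_gt.D

theorem I_Gam2 : StGam2 := I_PG1.2.2.2.2.2

end Pool.Agent.Work.MP_0d206b_gt.D

end

end

/-! ### D.Gmap -/

section

/-!
# MP_0d206b_gt, module D2: the gluing map `gmap`
-/

set_option autoImplicit false

open Set Filter Topology Function
open scoped ContDiff

noncomputable section

namespace Pool.Agent.Work.MP_0d206b_gt.D

namespace Gmap

theorem nsq_gmap {v : P2} (hv : 0 < v.2) : nsq (gmap v) = (nsq v) ^ 2 / v.2 ^ 2 := by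
  unfold nsq gmap
  field_simp
  ring

theorem nsq_pos_of {v : P2} (hv : 0 < v.2) : 0 < nsq v := by
  unfold nsq
  positivity

theorem sqrt_nsq_gmap {v : P2} (hv : 0 < v.2) : Real.sqrt (nsq (gmap v)) = nsq v / v.2 := by
  rw [nsq_gmap hv, ← div_pow]
  exact Real.sqrt_sq (div_nonneg (nsq_pos_of hv).le hv.le)

theorem slit_pos {w : P2} (hw : ¬(w.2 = 0 ∧ 0 ≤ w.1)) : w.1 < Real.sqrt (nsq w) := by
  rcases lt_or_ge w.1 0 with h | h
  · exact lt_of_lt_of_le h (Real.sqrt_nonneg _)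
  · have h2 : w.2 ≠ 0 := fun h2 => hw ⟨h2, h⟩
    apply Real.lt_sqrt_of_sq_lt
    unfold nsq
    have : 0 < w.2 ^ 2 := by positivity
    linarith

theorem nsq_pos_slit {w : P2} (hw : ¬(w.2 = 0 ∧ 0 ≤ w.1)) : 0 < nsq w := by
  by_contra h
  have h1 : nsq w ≤ 0 := not_lt.mp h
  unfold nsq at h1
  have h2 : w.2 = 0 := by nlinarith [sq_nonneg w.1, sq_nonneg w.2]
  have h3 : w.1 = 0 := by nlinarith [sq_nonneg w.1, sq_nonneg w.2]
  exact hw ⟨h2, h3.ge⟩

end Gmap

open Gmap in
theorem I_Gmap : StGmap := by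
  refine ⟨?_, ?_, ?_, ?_, ?_, ?_, ?_, ?_, ?_⟩
  · intro v hv
    refine ⟨?_, ?_, nsq_gmap hv, ?_⟩
    · unfold gminv
      rw [sqrt_nsq_gmap hv]
      unfold gmap nsq
      ext
      · simp
      · simp only
        field_simp
        ring
    · rintro ⟨h1, h2⟩
      have h3 : v.1 = 0 := by
        have : 2 * v.1 = 0 := h1
        linarith
      have h4 : (gmap v).1 = -v.2 := by
        show (v.1 ^ 2 - v.2 ^ 2) / v.2 = -v.2
        rw [h3]
        field_simp
        ring
      rw [h4] at h2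
      linarith
    · rw [nsq_gmap hv]
      have := nsq_pos_of hv
      positivity
  · intro w hw
    have h1 := slit_pos hw
    have h2 : 0 < (gminv w).2 := by
      show 0 < (Real.sqrt (nsq w) - w.1) / 2
      linarith
    refine ⟨?_, h2⟩
    have hs : Real.sqrt (nsq w) ^ 2 = w.1 ^ 2 + w.2 ^ 2 := by
      rw [Real.sq_sqrt (nsq_pos_slit hw).le]
      rfl
    unfold gmap gminv
    ext
    · show ((w.2 / 2) ^ 2 - ((Real.sqrt (nsq w) - w.1) / 2) ^ 2) / ((Real.sqrt (nsq w) - w.1) / 2) = w.1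
      have h3 : Real.sqrt (nsq w) - w.1 ≠ 0 := by linarith
      rw [div_eq_iff (by positivity)]
      linear_combination (-1 / 4 : ℝ) * hs
    · show 2 * (w.2 / 2) = w.2
      ring
  · intro v r hr
    unfold gmap
    ext
    · show ((r * v.1) ^ 2 - (r * v.2) ^ 2) / (r * v.2) = r * ((v.1 ^ 2 - v.2 ^ 2) / v.2)
      rcases eq_or_ne v.2 0 with h | h
      · simp [h]
      · field_simp
    · show 2 * (r * v.1) = r * (2 * v.1)
      ring
  · intro w r hr
    have h1 : nsq (r • w) = r ^ 2 * nsq w := by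
      show (r * w.1) ^ 2 + (r * w.2) ^ 2 = r ^ 2 * (w.1 ^ 2 + w.2 ^ 2)
      ring
    have h2 : Real.sqrt (nsq (r • w)) = r * Real.sqrt (nsq w) := by
      rw [h1, Real.sqrt_mul (sq_nonneg r), Real.sqrt_sq hr.le]
    unfold gminv
    rw [h2]
    ext
    · show (r * w.2) / 2 = r * (w.2 / 2)
      ring
    · show (r * Real.sqrt (nsq w) - r * w.1) / 2 = r * ((Real.sqrt (nsq w) - w.1) / 2)
      ring
  · intro v hv
    apply ContDiffAt.contDiffWithinAt
    unfold gmap
    apply ContDiffAt.prodMk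
    · apply ContDiffAt.div
      · fun_prop
      · fun_prop
      · exact hv
    · fun_prop
  · intro w hw
    apply ContDiffAt.contDiffWithinAt
    have hp := nsq_pos_slit hw
    unfold gminv
    apply ContDiffAt.prodMk
    · fun_prop
    · apply ContDiffAt.div_const
      apply ContDiffAt.sub
      · apply ContDiffAt.sqrt
        · unfold nsq
          fun_prop
        · exact hp.ne'
      · fun_prop
  · have hcl : IsClosed {w : P2 | w.2 = 0 ∧ 0 ≤ w.1} :=
      (isClosed_eq continuous_snd continuous_const).inter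
        (isClosed_le continuous_const continuous_fst)
    exact hcl.isOpen_compl
  · intro x s t hs hst
    have ht : 0 < t := lt_trans hs hst
    show (x ^ 2 - t ^ 2) / t < (x ^ 2 - s ^ 2) / s
    rw [div_lt_div_iff₀ ht hs]
    nlinarith [mul_nonneg (sq_nonneg x) (sub_nonneg.mpr hst.le), mul_pos (mul_pos hs ht) (sub_pos.mpr hst)]
  · intro x c
    refine ⟨x ^ 2 + |c| + 1, by positivity, fun t ht => ?_⟩
    have hx := sq_nonneg x
    have hc := abs_nonneg c
    have hc2 := neg_abs_le c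
    have ht1 : 1 < t := by linarith
    have ht0 : 0 < t := by linarith
    show (x ^ 2 - t ^ 2) / t < c
    rw [div_lt_iff₀ ht0]
    have h1 : x ^ 2 ≤ x ^ 2 * t := by nlinarith
    have h2 : x ^ 2 - t < c := by linarith
    nlinarith

end Pool.Agent.Work.MP_0d206b_gt.D

end

end

/-! ### D.LinInv -/

section

/-!
# MP_0d206b_gt, module D2: invariance of `Lam`, `idx`, `lin`
-/

set_option autoImplicit false

open Set Filter Topology Function
open scoped ContDiff

noncomputable section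

namespace Pool.Agent.Work.MP_0d206b_gt.D

namespace LinInv

theorem notLam {D : DA} {z : P2} : z ∉ D.Lam ↔ ∃ m ∈ Gam, ∃ v, z = m + D.Psi v := by
  show ¬ (∀ m ∈ Gam, ∀ v, z ≠ m + D.Psi v) ↔ _
  push Not
  rfl

theorem F_strip (D : DA) {m : P2} (hm : m ∈ Gam) (v : P2) :
    D.F (m + D.Psi v) = Lz 1 m + D.Psi (lam • v) := by
  rw [add_comm m, D.F_add _ m hm, D.F_Psi, add_comm]

theorem F_inj (D : DA) : Injective D.F := fun a b h => by rw [← D.Finv_F a, h, D.Finv_F]

theorem Lz_cancel (m : P2) : Lz 1 (Lz (-1) m) = m := by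
  rw [Lz_comp]
  norm_num [Lz_zero']

theorem of_F (D : DA) {z m v : P2} (hm : m ∈ Gam) (h : D.F z = m + D.Psi v) :
    z = Lz (-1) m + D.Psi (lam⁻¹ • v) := by
  apply F_inj D
  rw [h, F_strip D (Lz_negone_mem hm), Lz_cancel, smul_smul, mul_inv_cancel₀ lam_ne, one_smul]

end LinInv

open LinInv in
theorem I_LinInv (h1 : StLin) : StLinInv := by
  intro D
  obtain ⟨_, hl, hn, _, _, _, _⟩ := h1 D
  refine ⟨?_, ?_, ?_, ?_, ?_⟩
  · intro z m hm
    rw [← not_iff_not, notLam, notLam]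
    constructor
    · rintro ⟨m', hm', v, h⟩
      exact ⟨m' - m, Gam.sub_mem hm' hm, v, by rw [sub_add_eq_add_sub, ← h]; abel⟩
    · rintro ⟨m', hm', v, h⟩
      exact ⟨m' + m, Gam.add_mem hm' hm, v, by rw [h]; abel⟩
  · intro z
    rw [← not_iff_not, notLam, notLam]
    constructor
    · rintro ⟨m', hm', v, h⟩
      exact ⟨_, Lz_negone_mem hm', _, of_F D hm' h⟩
    · rintro ⟨m', hm', v, h⟩
      exact ⟨_, Lz_one_mem hm', _, by rw [h]; exact F_strip D hm' v⟩
  · intro z
    have hF : ∀ m ∈ Gam, D.F m = Lz 1 m := by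
      intro m hm
      have := D.F_add 0 m hm
      rw [zero_add, D.F_zero, zero_add] at this
      exact this
    constructor
    · intro h
      have h2 : z = Lz (-1) (D.F z) := by
        apply F_inj D
        rw [hF _ (Lz_negone_mem h), Lz_cancel]
      rw [h2]
      exact Lz_negone_mem h
    · intro h
      rw [hF z h]
      exact Lz_one_mem h
  · intro z m hm hz
    obtain ⟨hi, he⟩ := hn z hz
    have h2 : z + m = (D.idx z + m) + D.Psi (D.lin z) := by
      conv_lhs => rw [he]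
      abel
    have h3 := hl _ (Gam.add_mem hi hm) (D.lin z)
    rw [← h2] at h3
    exact ⟨h3.1, h3.2.1⟩
  · intro z hz
    obtain ⟨hi, he⟩ := hn z hz
    have h2 : D.F z = Lz 1 (D.idx z) + D.Psi (lam • D.lin z) := by
      conv_lhs => rw [he]
      exact F_strip D hi _
    have h3 := hl _ (Lz_one_mem hi) (lam • D.lin z)
    rw [← h2] at h3
    exact ⟨h3.1, h3.2.1⟩

end Pool.Agent.Work.MP_0d206b_gt.D

end

end

/-! ### D.Q -/

section

/-! Project MP_0d206b_gt, module D, item Q: the boxes `m + λ B`. -/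

set_option autoImplicit false

open Set Filter Topology Function
open scoped ContDiff Pointwise

noncomputable section

namespace Pool.Agent.Work.MP_0d206b_gt.D

namespace QI

theorem B_eq : B = Icc (-a0) a0 ×ˢ Icc (-r1) r1 := by
  ext v
  simp only [B, mem_ofPred_eq, mem_prod, mem_Icc, abs_le]

theorem B_compact : IsCompact B := by
  rw [B_eq]; exact isCompact_Icc.prod isCompact_Icc

theorem Q_eq : Q = (Gam : Set P2) + (fun v : P2 => lam • v) '' B := by
  ext z
  rw [Set.mem_add]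
  constructor
  · rintro ⟨m, hm, v, hv, rfl⟩
    exact ⟨m, hm, _, ⟨v, hv, rfl⟩, rfl⟩
  · rintro ⟨m, hm, _, ⟨v, hv, rfl⟩, rfl⟩
    exact ⟨m, hm, v, hv, rfl⟩

theorem inv_mem_B {v : P2} (hv : v ∈ B) : lam⁻¹ • v ∈ B := by
  have h1 := laminv_pos
  have h2 : lam⁻¹ ≤ 1 := by linarith [laminv_lt]
  refine ⟨?_, ?_⟩
  · show |lam⁻¹ * v.1| ≤ a0
    rw [abs_mul, abs_of_pos h1]
    have := hv.1
    nlinarith [abs_nonneg v.1]
  · show |lam⁻¹ * v.2| ≤ r1
    rw [abs_mul, abs_of_pos h1]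
    have := hv.2
    nlinarith [abs_nonneg v.2]

theorem mem_Q_of_B {m v : P2} (hm : m ∈ Gam) (hv : v ∈ B) : m + v ∈ Q := by
  refine ⟨m, hm, lam⁻¹ • v, inv_mem_B hv, ?_⟩
  rw [smul_smul, mul_inv_cancel₀ lam_ne, one_smul]

theorem add_mem {z m : P2} (hm : m ∈ Gam) (hz : z ∈ Q) : z + m ∈ Q := by
  obtain ⟨m', hm', v, hv, rfl⟩ := hz
  refine ⟨m' + m, Gam.add_mem hm' hm, v, hv, ?_⟩
  rw [add_right_comm]

theorem pre (f : FData) (z : P2) (h : f.F z ∈ Q) :
    ∃ m ∈ Gam, ∃ v ∈ B, z = m + v ∧ f.F z = Lz 1 m + lam • v := by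
  obtain ⟨m', hm', v, hv, hz⟩ := h
  have hm := Lz_negone_mem hm'
  have h1 : Lz 1 (Lz (-1) m') = m' := by
    rw [Lz_comp]; norm_num [Lz_zero']
  have h2 : f.F (Lz (-1) m' + v) = f.F z := by
    rw [f.map_add_B hm hv, h1, hz]
  refine ⟨Lz (-1) m', hm, v, hv, (f.inj h2).symm, ?_⟩
  rw [h1, hz]

end QI

theorem I_Q (h1 : StGam1) (ht : StGamTop) : StQ := by
  intro f
  refine ⟨?_, ?_, ?_, QI.pre f, ?_⟩
  · rw [QI.Q_eq]
    exact ht.1.add_right_of_isCompact (QI.B_compact.image (continuous_const_smul _))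
  · intro z m hm
    refine ⟨fun h => ?_, QI.add_mem hm⟩
    have := QI.add_mem (Gam.neg_mem hm) h
    rwa [add_neg_cancel_right] at this
  · intro z hz h
    obtain ⟨m, hm, v, hv, rfl, _⟩ := QI.pre f z h
    exact hz (QI.mem_Q_of_B hm hv)
  · intro z hz m hm
    by_contra hc
    push Not at hc
    refine hz ?_
    have h2 : z = m + (z - m) := by abel
    rw [h2]
    refine QI.mem_Q_of_B hm (mem_B_of_norm_le ?_)
    rw [← dist_eq_norm]
    exact hc.le

end Pool.Agent.Work.MP_0d206b_gt.D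

end

end

/-! ### D.SCurve3 -/

section

/-! Project MP_0d206b_gt, module D: an `S`-curve through a point of `Lam` stays in `Lam`. -/

set_option autoImplicit false

open Set Filter Topology Function
open scoped ContDiff

noncomputable section

namespace Pool.Agent.Work.MP_0d206b_gt.D

theorem I_SCurve3 (hG : StGron) (h1 : StLin) : StSCurve3 := by
  intro D a b Y hY x0 hx0 hLam x1 hx1
  by_contra hn
  obtain ⟨hm, he⟩ := (h1 D).2.2.1 _ hn
  set m := D.idx (x1, Y x1) with hmdef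
  set v := D.lin (x1, Y x1) with hvdef
  have hP : Differentiable ℝ D.Psi := D.Psi_smooth.differentiable (by norm_num)
  have hfst : ∀ x : ℝ, m + D.Psi (x - m.1, v.2) = (x, (m + D.Psi (x - m.1, v.2)).2) := by
    intro x
    refine Prod.ext ?_ rfl
    rw [Prod.fst_add, D.Psi_fst]
    ring
  have hder : ∀ x : ℝ, HasDerivAt (fun x => (m + D.Psi (x - m.1, v.2)).2)
      (D.S (x, (m + D.Psi (x - m.1, v.2)).2)) x := by
    intro x
    have e1 : HasDerivAt (fun s => (D.Psi (s, v.2)).2) (dx D.Psi (x - m.1, v.2)) (x - m.1) :=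
      hasDerivAt_dx (hP _)
    have e2 : HasDerivAt (fun x : ℝ => (D.Psi (x - m.1, v.2)).2) (dx D.Psi (x - m.1, v.2)) x := by
      have := e1.comp_sub_const x m.1
      exact this
    have e3 : HasDerivAt (fun x : ℝ => (m + D.Psi (x - m.1, v.2)).2)
        (dx D.Psi (x - m.1, v.2)) x := by
      have := e2.const_add m.2
      exact this
    have e4 : dx D.Psi (x - m.1, v.2) = D.S (x, (m + D.Psi (x - m.1, v.2)).2) := by
      rw [← hfst x, D.dxPsi, add_comm m, D.S_add _ _ hm]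
    rw [← e4]
    exact e3
  have hSol : Sol (fun x y => D.S (x, y)) a b (fun x => (m + D.Psi (x - m.1, v.2)).2) :=
    fun x _ => (hder x).hasDerivWithinAt
  have hx1v : x1 - m.1 = v.1 := by
    have := congrArg Prod.fst he
    rw [Prod.fst_add, D.Psi_fst] at this
    simp only at this
    linarith
  have hY1 : (m + D.Psi (x1 - m.1, v.2)).2 = Y x1 := by
    rw [hx1v, ← he]
  obtain ⟨K, hK⟩ := D.S_lip
  have hgr := hG (fun x y => D.S (x, y)) a b |K| (abs_nonneg K)
    (fun x _ y y' => (hK x y y').trans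
      (mul_le_mul_of_nonneg_right (le_abs_self K) (abs_nonneg _))) Y _ hY hSol x0 hx0 x1 hx1
  have h0 : Y x1 - (m + D.Psi (x1 - m.1, v.2)).2 = 0 := by rw [hY1, sub_self]
  rw [h0, abs_zero, mul_zero] at hgr
  have h2 : Y x0 = (m + D.Psi (x0 - m.1, v.2)).2 := sub_eq_zero.1 (abs_nonpos_iff.1 hgr)
  rw [h2, ← hfst x0] at hLam
  exact ((h1 D).2.1 m hm _).2.2 hLam

end Pool.Agent.Work.MP_0d206b_gt.D

end

end

/-! ### D.Scal -/

section

/-! Project MP_0d206b_gt, module D: induction over the scale. -/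

set_option autoImplicit false

open Set Filter Topology Function
open scoped ContDiff

noncomputable section

namespace Pool.Agent.Work.MP_0d206b_gt.D

theorem I_Scal : StScal := by
  intro P r hr h0 hstep v
  have hli : lam⁻¹ < 1 := by linarith [laminv_lt]
  have hli0 : 0 < lam⁻¹ := laminv_pos
  have hv : 0 < ‖v‖ + 1 := by positivity
  obtain ⟨n, hn⟩ := exists_pow_lt_of_lt_one (div_pos hr hv) hli
  have h1 : P ((lam⁻¹) ^ n • v) := by
    apply h0
    rw [norm_smul, norm_pow, Real.norm_of_nonneg hli0.le]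
    rw [lt_div_iff₀ hv] at hn
    have : (lam⁻¹) ^ n * ‖v‖ ≤ (lam⁻¹) ^ n * (‖v‖ + 1) :=
      mul_le_mul_of_nonneg_left (by linarith) (by positivity)
    linarith
  have h2 : ∀ k : ℕ, P (lam ^ k • ((lam⁻¹) ^ n • v)) := by
    intro k
    induction k with
    | zero => simpa using h1
    | succ k ih =>
      have := hstep _ ih
      rwa [smul_smul, ← pow_succ'] at this
  have h3 := h2 n
  rwa [smul_smul, ← mul_pow, mul_inv_cancel₀ lam_ne, one_pow, one_smul] at h3

end Pool.Agent.Work.MP_0d206b_gt.D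

end

end

/-! ### D.SigmaLip -/

section

set_option autoImplicit false

open Set Filter Topology Function
open scoped ContDiff

noncomputable section

namespace Pool.Agent.Work.MP_0d206b_gt.D

namespace SigmaLip

theorem nsq_ge {v : P2} {r : ℝ} (hr : 0 < r) (h : r ≤ ‖v‖) : r * |v.1| ≤ nsq v ∧ 0 < nsq v := by
  have h1 : ‖v‖ = max |v.1| |v.2| := by rw [Prod.norm_def, Real.norm_eq_abs, Real.norm_eq_abs]
  have h2 : |v.1| ≤ ‖v‖ := by rw [h1]; exact le_max_left _ _
  have h3 : ‖v‖ ^ 2 ≤ nsq v := by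
    unfold nsq
    rw [h1]
    rcases max_cases |v.1| |v.2| with ⟨h, _⟩ | ⟨h, _⟩
    · rw [h, sq_abs]; nlinarith [sq_nonneg v.2]
    · rw [h, sq_abs]; nlinarith [sq_nonneg v.1]
  have h0 : 0 < ‖v‖ := lt_of_lt_of_le hr h
  constructor
  · calc r * |v.1| ≤ ‖v‖ * ‖v‖ := mul_le_mul h h2 (abs_nonneg _) h0.le
      _ = ‖v‖ ^ 2 := by ring
      _ ≤ nsq v := h3
  · exact lt_of_lt_of_le (by positivity) h3

theorem S0_le (v : P2) (h : 0 < nsq v) : |S0 v| ≤ 1 := by
  unfold S0
  rw [abs_div, abs_of_pos h, div_le_one h]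
  unfold nsq
  rw [abs_le]
  constructor
  · nlinarith [sq_nonneg (v.1 + v.2)]
  · nlinarith [sq_nonneg (v.1 - v.2)]

theorem S0_deriv (ξ u : ℝ) (h : 0 < nsq (ξ, u)) :
    HasDerivAt (fun s : ℝ => S0 (ξ, s)) (2 * ξ * (ξ ^ 2 - u ^ 2) / (nsq (ξ, u)) ^ 2) u := by
  have h1 : HasDerivAt (fun s : ℝ => 2 * ξ * s) (2 * ξ) u := by
    simpa using (hasDerivAt_id u).const_mul (2 * ξ)
  have h2 : HasDerivAt (fun s : ℝ => ξ ^ 2 + s ^ 2) (2 * u) u := by
    have := ((hasDerivAt_id u).pow 2).const_add (ξ ^ 2)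
    simpa using this
  have h3 := h1.div h2 (by
    have : nsq (ξ, u) = ξ ^ 2 + u ^ 2 := rfl
    rw [← this]
    exact h.ne')
  have e : 2 * ξ * (ξ ^ 2 - u ^ 2) / (nsq (ξ, u)) ^ 2 =
      (2 * ξ * (ξ ^ 2 + u ^ 2) - 2 * ξ * u * (2 * u)) / (ξ ^ 2 + u ^ 2) ^ 2 := by
    have : nsq (ξ, u) = ξ ^ 2 + u ^ 2 := rfl
    rw [this]
    congr 1
    ring
  rw [e]
  exact h3

theorem S0_deriv_le {v : P2} {r : ℝ} (hr : 0 < r) (h : r ≤ ‖v‖) :
    |2 * v.1 * (v.1 ^ 2 - v.2 ^ 2) / (nsq v) ^ 2| ≤ 2 / r := by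
  obtain ⟨h1, h2⟩ := nsq_ge hr h
  rw [abs_div, abs_of_pos (pow_pos h2 2), div_le_div_iff₀ (pow_pos h2 2) hr, abs_mul, abs_mul]
  have h3 : |v.1 ^ 2 - v.2 ^ 2| ≤ nsq v := by
    unfold nsq
    rw [abs_le]
    constructor <;> nlinarith [sq_nonneg v.1, sq_nonneg v.2]
  have h4 : |(2 : ℝ)| = 2 := abs_of_pos (by norm_num)
  rw [h4]
  calc 2 * |v.1| * |v.1 ^ 2 - v.2 ^ 2| * r = 2 * ((r * |v.1|) * |v.1 ^ 2 - v.2 ^ 2|) := by ring
    _ ≤ 2 * (nsq v * nsq v) := by
        apply mul_le_mul_of_nonneg_left _ (by norm_num)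
        exact mul_le_mul h1 h3 (abs_nonneg _) h2.le
    _ = 2 * nsq v ^ 2 := by ring

/-- the derivative of the perturbation along a vertical line, at a point of a strip -/
theorem key (h1 : StLin) (h3 : StOpen) (D : DA) (C r : ℝ) (hr : 0 < r)
    (hC : ∀ v : P2, |deriv (fun t => dy D.Psi (v.1, t)) v.2| ≤ C * dy D.Psi v)
    (x t : ℝ) (ht : (x, t) ∉ D.Lam) (hv : r ≤ ‖D.lin (x, t)‖) :
    DifferentiableAt ℝ (fun s => D.sigma (x, s) - D.S (x, s)) t ∧
      |deriv (fun s => D.sigma (x, s) - D.S (x, s)) t| ≤ |C| + 2 / r := by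
  obtain ⟨-, -, h13, -, -, -, -⟩ := h1 D
  obtain ⟨-, -, h33, h34, -⟩ := h3 D
  set m := D.idx (x, t) with hm
  have hcurve : HasDerivAt (fun s : ℝ => ((x, s) : P2)) ((0, 1) : P2) t :=
    (hasDerivAt_const t x).prodMk (hasDerivAt_id t)
  have hcont : Tendsto (fun s : ℝ => ((x, s) : P2)) (𝓝 t) (𝓝 (x, t)) :=
    hcurve.continuousAt
  have hev : ∀ᶠ s in 𝓝 t, (x, s) ∉ D.Lam ∧ D.idx (x, s) = m := hcont.eventually (h33 (x, t) ht)
  have hevz : ∀ᶠ s in 𝓝 t, (x, s) ∉ D.Lam ∧ (x, s) = m + D.Psi (D.lin (x, s)) := by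
    filter_upwards [hev] with s hs
    have := (h13 (x, s) hs.1).2
    rw [hs.2] at this
    exact ⟨hs.1, this⟩
  have hd : DifferentiableAt ℝ D.lin (x, t) := (h34 (x, t) ht).differentiableAt (by simp)
  have hc : HasDerivAt (fun s : ℝ => D.lin (x, s)) (fderiv ℝ D.lin (x, t) (0, 1)) t :=
    hd.hasFDerivAt.comp_hasDerivAt t hcurve
  set c' := fderiv ℝ D.lin (x, t) (0, 1) with hc'
  have hw : HasDerivAt (fun s : ℝ => (D.lin (x, s)).2) c'.2 t :=
    (ContinuousLinearMap.snd ℝ ℝ ℝ).hasFDerivAt.comp_hasDerivAt t hc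
  set ξ := x - m.1 with hξ
  have hfst : ∀ᶠ s in 𝓝 t, D.lin (x, s) = (ξ, (D.lin (x, s)).2) := by
    filter_upwards [hevz] with s hs
    have h5 := congrArg Prod.fst hs.2
    rw [Prod.fst_add, D.Psi_fst] at h5
    ext
    · simp only [hξ]
      have h6 : x = m.1 + (D.lin (x, s)).1 := h5
      linarith
    · rfl
  have hv0 : D.lin (x, t) = (ξ, (D.lin (x, t)).2) := hfst.self_of_nhds
  set u := (D.lin (x, t)).2 with hu
  have hPd : DifferentiableAt ℝ D.Psi (ξ, u) := D.Psi_smooth.differentiable (by simp) _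
  have hP : HasDerivAt (fun s => (D.Psi (ξ, s)).2) (dy D.Psi (ξ, u)) u := hasDerivAt_dy hPd
  have hcomp : HasDerivAt (fun s : ℝ => (D.Psi (ξ, (D.lin (x, s)).2)).2)
      (dy D.Psi (ξ, u) * c'.2) t :=
    HasDerivAt.comp (h₂ := fun s => (D.Psi (ξ, s)).2) (h := fun s => (D.lin (x, s)).2) t hP hw
  have hid : HasDerivAt (fun s : ℝ => s - m.2) 1 t := (hasDerivAt_id t).sub_const m.2
  have heq : (fun s : ℝ => (D.Psi (ξ, (D.lin (x, s)).2)).2) =ᶠ[𝓝 t] fun s => s - m.2 := by
    filter_upwards [hevz, hfst] with s hs hs2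
    rw [← hs2]
    have h5 := congrArg Prod.snd hs.2
    rw [Prod.snd_add] at h5
    have h6 : s = m.2 + (D.Psi (D.lin (x, s))).2 := h5
    linarith
  have hprod : dy D.Psi (ξ, u) * c'.2 = 1 := (hcomp.congr_of_eventuallyEq heq.symm).unique hid
  have hq0 : 0 < dy D.Psi (ξ, u) := D.dyPsi_pos _
  have hqd : HasDerivAt (fun s => dy D.Psi (ξ, s)) (deriv (fun s => dy D.Psi (ξ, s)) u) u := by
    have h7 : DifferentiableAt ℝ (fun s : ℝ => dy D.Psi (ξ, s)) u := by
      have h8 : DifferentiableAt ℝ (dy D.Psi) (ξ, u) :=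
        (contDiff_dy D.Psi_smooth).differentiable (by simp) _
      have h9 : DifferentiableAt ℝ (fun s : ℝ => ((ξ, s) : P2)) u :=
        (differentiableAt_const ξ).prodMk differentiableAt_id
      exact DifferentiableAt.comp (g := dy D.Psi) (f := fun s : ℝ => ((ξ, s) : P2)) u h8 h9
    exact h7.hasDerivAt
  have hrv : r ≤ ‖((ξ, u) : P2)‖ := by rw [← hv0]; exact hv
  obtain ⟨-, hns⟩ := nsq_ge hr hrv
  have hS := S0_deriv ξ u hns
  have hmul := hqd.mul hS
  have hg : HasDerivAt (fun s : ℝ => dy D.Psi (ξ, (D.lin (x, s)).2) * S0 (ξ, (D.lin (x, s)).2))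
      ((deriv (fun s => dy D.Psi (ξ, s)) u * S0 (ξ, u) +
        dy D.Psi (ξ, u) * (2 * ξ * (ξ ^ 2 - u ^ 2) / (nsq (ξ, u)) ^ 2)) * c'.2) t :=
    HasDerivAt.comp (h₂ := fun s => dy D.Psi (ξ, s) * S0 (ξ, s))
      (h := fun s => (D.lin (x, s)).2) t hmul hw
  have hgeq : (fun s => D.sigma (x, s) - D.S (x, s)) =ᶠ[𝓝 t]
      fun s : ℝ => dy D.Psi (ξ, (D.lin (x, s)).2) * S0 (ξ, (D.lin (x, s)).2) := by
    filter_upwards [hevz, hfst] with s hs hs2
    rw [← hs2]
    unfold DA.sigma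
    rw [if_neg hs.1]
    ring
  have hfinal := hg.congr_of_eventuallyEq hgeq
  refine ⟨hfinal.differentiableAt, ?_⟩
  rw [hfinal.deriv]
  have hc2 : c'.2 = 1 / dy D.Psi (ξ, u) := by
    rw [eq_div_iff hq0.ne', mul_comm]
    exact hprod
  have hexp : (deriv (fun s => dy D.Psi (ξ, s)) u * S0 (ξ, u) +
        dy D.Psi (ξ, u) * (2 * ξ * (ξ ^ 2 - u ^ 2) / (nsq (ξ, u)) ^ 2)) * c'.2 =
      deriv (fun s => dy D.Psi (ξ, s)) u / dy D.Psi (ξ, u) * S0 (ξ, u) +
        2 * ξ * (ξ ^ 2 - u ^ 2) / (nsq (ξ, u)) ^ 2 := by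
    rw [hc2]
    field_simp
  rw [hexp]
  have hb1 : |deriv (fun s => dy D.Psi (ξ, s)) u / dy D.Psi (ξ, u) * S0 (ξ, u)| ≤ |C| := by
    rw [abs_mul, abs_div, abs_of_pos hq0]
    have h10 : |deriv (fun s => dy D.Psi (ξ, s)) u| / dy D.Psi (ξ, u) ≤ |C| := by
      rw [div_le_iff₀ hq0]
      exact (hC (ξ, u)).trans (mul_le_mul_of_nonneg_right (le_abs_self C) hq0.le)
    calc |deriv (fun s => dy D.Psi (ξ, s)) u| / dy D.Psi (ξ, u) * |S0 (ξ, u)| ≤ |C| * 1 :=
          mul_le_mul h10 (S0_le _ hns) (abs_nonneg _) (abs_nonneg _)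
      _ = |C| := mul_one _
  exact (abs_add_le _ _).trans (add_le_add hb1 (S0_deriv_le hr hrv))

end SigmaLip

open SigmaLip

theorem I_SigmaLip (ht : StGamTop) (h0 : StLip1D) (h1 : StLin) (h3 : StOpen) (h4 : StSigma) :
    StSigmaLip := by
  intro D z hz
  obtain ⟨-, -, -, -, -, hsep⟩ := ht
  obtain ⟨r, hr, hrm⟩ := hsep z hz
  obtain ⟨r0, hr0, hnear⟩ := D.Psi_near
  obtain ⟨C, hC⟩ := D.distort
  obtain ⟨K, hK⟩ := D.S_lip
  obtain ⟨h41, -, -, -, h45⟩ := h4 D
  obtain ⟨-, h32, -, -, -⟩ := h3 D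
  set ρ := min (r / 3) r0 with hρ
  have hρ0 : 0 < ρ := lt_min (by positivity) hr0
  have hρr : 3 * ρ ≤ r := by
    have : ρ ≤ r / 3 := min_le_left _ _
    linarith
  have hρr0 : ρ ≤ r0 := min_le_right _ _
  -- distance to the lattice
  have hdist : ∀ x t : ℝ, |x - z.1| < ρ → |t - z.2| < ρ → ∀ m ∈ Gam, 2 * ρ ≤ dist ((x, t) : P2) m := by
    intro x t hx ht' m hm
    have h5 : dist ((x, t) : P2) z < ρ := by
      rw [Prod.dist_eq, Real.dist_eq, Real.dist_eq]
      exact max_lt hx ht'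
    have h6 := dist_triangle z ((x, t) : P2) m
    have h7 := hrm m hm
    have h8 : dist z ((x, t) : P2) = dist ((x, t) : P2) z := dist_comm _ _
    linarith
  have hnot : ∀ x t : ℝ, |x - z.1| < ρ → |t - z.2| < ρ → ((x, t) : P2) ∉ Gam := by
    intro x t hx ht' hmem
    have := hdist x t hx ht' _ hmem
    rw [dist_self] at this
    linarith
  have hlin : ∀ x t : ℝ, |x - z.1| < ρ → |t - z.2| < ρ → ((x, t) : P2) ∉ D.Lam →
      ρ ≤ ‖D.lin (x, t)‖ := by
    intro x t hx ht' hL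
    by_contra hcon
    push Not at hcon
    obtain ⟨-, -, h13, -⟩ := h1 D
    obtain ⟨hi, he⟩ := h13 (x, t) hL
    rw [hnear _ (lt_of_lt_of_le hcon hρr0)] at he
    have h8 := hdist x t hx ht' _ hi
    have h9 : dist ((x, t) : P2) (D.idx (x, t)) = ‖D.lin (x, t)‖ := by
      have h10 : ((x, t) : P2) - D.idx (x, t) = D.lin (x, t) := by
        rw [sub_eq_iff_eq_add, add_comm]
        exact he
      rw [dist_eq_norm, h10]
    rw [h9] at h8
    linarith
  refine ⟨ρ, hρ0, K + (|C| + 2 / ρ), ?_⟩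
  intro x y y' hx hy hy'
  have hL0 : 0 ≤ |C| + 2 / ρ := by positivity
  have hAc : IsClosed {t : ℝ | ((x, t) : P2) ∈ D.Lam} :=
    h32.preimage (by fun_prop)
  have hint : ∀ t ∈ Icc (min y y') (max y y'), |t - z.2| < ρ := by
    intro t ⟨ht1, ht2⟩
    rw [abs_lt] at hy hy' ⊢
    constructor
    · have : z.2 - ρ < min y y' := lt_min (by linarith) (by linarith)
      linarith
    · have : max y y' < z.2 + ρ := max_lt (by linarith) (by linarith)
      linarith
  have hg := h0 (fun t => D.sigma (x, t) - D.S (x, t)) {t : ℝ | ((x, t) : P2) ∈ D.Lam}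
    (|C| + 2 / ρ) (min y y') (max y y') hL0 hAc ?_ ?_ ?_
  · have h10 := hg y ⟨min_le_left _ _, le_max_left _ _⟩ y' ⟨min_le_right _ _, le_max_right _ _⟩
    have h11 := hK x y y'
    have h12 : D.sigma (x, y) - D.sigma (x, y') =
        (D.S (x, y) - D.S (x, y')) +
          ((D.sigma (x, y) - D.S (x, y)) - (D.sigma (x, y') - D.S (x, y'))) := by ring
    rw [h12]
    refine (abs_add_le _ _).trans ?_
    rw [add_mul]
    exact add_le_add h11 h10
  · apply ContinuousOn.sub
    · refine h41.comp (by fun_prop) ?_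
      intro t ht'
      exact hnot x t hx (hint t ht')
    · exact (D.S_cont.comp (by fun_prop)).continuousOn
  · intro t ht'
    show D.sigma (x, t) - D.S (x, t) = 0
    rw [h45 _ ht', sub_self]
  · intro t ht' htA
    exact key h1 h3 D C ρ hρ0 hC x t htA (hlin x t hx (hint t ht') htA)

end Pool.Agent.Work.MP_0d206b_gt.D

end

end

/-! ### D.Strips -/

section

/-! Project MP_0d206b_gt, module D, item Strips. -/

set_option autoImplicit false

open Set Filter Topology Function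
open scoped ContDiff

noncomputable section

namespace Pool.Agent.Work.MP_0d206b_gt.D

namespace Strips

theorem iter_add (f : FData) (n : ℕ) : ∀ (w : P2) (m : P2), m ∈ Gam →
    f.F^[n] (w + m) = f.F^[n] w + Lz n m := by
  induction n with
  | zero => intro w m _; simp [Lz_zero']
  | succ n ih =>
    intro w m hm
    rw [iterate_succ_apply, f.add w m hm, ih _ _ (Lz_one_mem hm), iterate_succ_apply, Lz_comp]
    push_cast
    rfl

theorem iter_inj (f : FData) (n : ℕ) : Injective f.F^[n] := f.inj.iterate n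

theorem key (p : PData) (n : ℕ) (m v : P2) (hm : m ∈ Gam) (hv : ‖v‖ ≤ r1 * lam ^ n) :
    m + p.Psi v = p.F^[n] ((lam⁻¹) ^ n • v + Lz (-(n : ℤ)) m) := by
  rw [iter_add p.toFData n _ _ (Lz_mem _ hm), Lz_comp, add_neg_cancel, Lz_zero', ← p.Psi_eq n v hv,
    add_comm]

theorem small (n : ℕ) (v : P2) (hv : ‖v‖ ≤ r1 * lam ^ n) : ‖(lam⁻¹) ^ n • v‖ ≤ 1 / 100 := by
  have hp := lam_pos
  rw [norm_smul, Real.norm_eq_abs, abs_of_pos (by positivity), inv_pow,
    inv_mul_le_iff₀ (by positivity)]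
  calc ‖v‖ ≤ r1 * lam ^ n := hv
    _ = lam ^ n * (1 / 100) := by unfold r1; ring

theorem exists_n (C : ℝ) : ∃ N : ℕ, ∀ n ≥ N, C ≤ lam ^ n := by
  have h := tendsto_pow_atTop_atTop_of_one_lt lam_one
  obtain ⟨N, hN⟩ := (h.eventually_ge_atTop C).exists_forall_of_atTop
  exact ⟨N, fun n hn => hN n hn⟩

theorem order1 (f : FData) {z z' : P2} (h1 : z.1 = z'.1) (h2 : z.2 < z'.2) :
    (f.F z).1 = (f.F z').1 ∧ (f.F z).2 < (f.F z').2 := by
  refine ⟨by rw [f.fst, f.fst, h1], ?_⟩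
  have hmono : StrictMono (fun t => (f.F (z.1, t)).2) := by
    apply strictMono_of_deriv_pos
    intro t
    have hd := hasDerivAt_dy (A := f.F) (x := z.1) (t := t)
      (f.smooth.differentiable (by simp) _)
    rw [hd.deriv]
    exact f.dy_pos _
  have h3 := hmono h2
  have e1 : ((z.1, z.2) : P2) = z := rfl
  have e2 : ((z.1, z'.2) : P2) = z' := by rw [h1]
  simp only [e1, e2] at h3
  exact h3

theorem orderN (f : FData) (n : ℕ) : ∀ {z z' : P2}, z.1 = z'.1 → z.2 < z'.2 →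
    (f.F^[n] z).1 = (f.F^[n] z').1 ∧ (f.F^[n] z).2 < (f.F^[n] z').2 := by
  induction n with
  | zero => intro z z' h1 h2; exact ⟨h1, h2⟩
  | succ n ih =>
    intro z z' h1 h2
    obtain ⟨h3, h4⟩ := order1 f h1 h2
    rw [iterate_succ_apply, iterate_succ_apply]
    exact ih h3 h4

end Strips

open Strips in
theorem I_Strips (h1 : StGam1) : StStrips := by
  intro p
  refine ⟨?_, ?_, ?_⟩
  · intro m hm v
    rw [add_comm, p.add _ _ hm, p.F_Psi, add_comm]
  · intro m hm m' hm' v v' h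
    obtain ⟨N, hN⟩ := exists_n (100 * (‖v‖ + ‖v'‖))
    have hN := hN N le_rfl
    have hv : ‖v‖ ≤ r1 * lam ^ N := by
      unfold r1; linarith [norm_nonneg v, norm_nonneg v']
    have hv' : ‖v'‖ ≤ r1 * lam ^ N := by
      unfold r1; linarith [norm_nonneg v, norm_nonneg v']
    rw [key p N m v hm hv, key p N m' v' hm' hv'] at h
    have h2 := iter_inj p.toFData N h
    have hs := small N v hv
    have hs' := small N v' hv'
    have hd : dist (Lz (-(N : ℤ)) m) (Lz (-(N : ℤ)) m') ≤ 1 / 50 := by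
      have h3 : Lz (-(N : ℤ)) m - Lz (-(N : ℤ)) m' = (lam⁻¹) ^ N • v' - (lam⁻¹) ^ N • v := by
        rw [sub_eq_sub_iff_add_eq_add, add_comm, h2, add_comm]
      rw [dist_eq_norm, h3]
      calc ‖(lam⁻¹) ^ N • v' - (lam⁻¹) ^ N • v‖ ≤ ‖(lam⁻¹) ^ N • v'‖ + ‖(lam⁻¹) ^ N • v‖ :=
            norm_sub_le _ _
        _ ≤ 1 / 50 := by linarith
    have h4 : Lz (-(N : ℤ)) m = Lz (-(N : ℤ)) m' := by
      by_contra hne
      have := h1.2.1 _ (Lz_mem _ hm) _ (Lz_mem _ hm') hne
      linarith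
    have h5 := congrArg (Lz (N : ℤ)) h4
    rwa [Lz_comp, Lz_comp, add_neg_cancel, Lz_zero', Lz_zero'] at h5
  · intro m hm m' hm' v v' hlt hfst
    obtain ⟨N, hN⟩ := exists_n (100 * (‖v‖ + ‖v'‖) + (1 / 40) / (m'.2 - m.2))
    have hN := hN N le_rfl
    have hpos : 0 < m'.2 - m.2 := by linarith
    have hq : 0 < (1 / 40 : ℝ) / (m'.2 - m.2) := by positivity
    have hv : ‖v‖ ≤ r1 * lam ^ N := by
      unfold r1; linarith [norm_nonneg v, norm_nonneg v']
    have hv' : ‖v'‖ ≤ r1 * lam ^ N := by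
      unfold r1; linarith [norm_nonneg v, norm_nonneg v']
    have hN2 : 1 / 40 ≤ lam ^ N * (m'.2 - m.2) := by
      have : (1 / 40 : ℝ) / (m'.2 - m.2) ≤ lam ^ N := by
        linarith [norm_nonneg v, norm_nonneg v']
      rwa [div_le_iff₀ hpos] at this
    rw [key p N m v hm hv, key p N m' v' hm' hv']
    have hs := small N v hv
    have hs' := small N v' hv'
    have e1 := (norm_snd_le ((lam⁻¹) ^ N • v)).trans hs
    have e2 := (norm_snd_le ((lam⁻¹) ^ N • v')).trans hs'
    rw [Real.norm_eq_abs, abs_le] at e1 e2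
    refine (orderN p.toFData N ?_ ?_).2
    · have h5 : v.1 + m.1 = v'.1 + m'.1 := by
        have h6 : m.1 + (p.Psi v).1 = m'.1 + (p.Psi v').1 := hfst
        rw [p.Psi_fst, p.Psi_fst] at h6
        linarith
      simp only [Lz, Prod.fst_add, Prod.smul_fst, smul_eq_mul, zpow_neg, zpow_natCast, inv_pow]
      rw [← mul_add, ← mul_add, h5]
    · simp only [Lz, Prod.snd_add, neg_neg, zpow_natCast]
      linarith
end Pool.Agent.Work.MP_0d206b_gt.D

end

end
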