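import Pool.Agent.Work.MP_0d206b_gt.Bd.StL

/-! ### L.I_AP6 -/

section

/-!
# MP_0d206b_gt, item AP6: (C2) of the criterion, going round the lattice point through a slit disc
-/

open Set Filter Topology
open scoped ContDiff

noncomputable section

namespace Pool.Agent.Work.MP_0d206b_gt

namespace XAP6

/-- the slit disc of radius `1/2` about `m`, times the flow direction -/
def K (σ : ℝ) (m : P2) : Set E :=
  {e | nsq (e.1 - m) < (2 * (1 / 4 : ℝ)) ^ 2 ∧ ¬ ((e.1 - m).2 = 0 ∧ σ * (e.1 - m).1 ≤ 0)}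

theorem K_sub (h7 : PG1) (σ : ℝ) (m : P2) (hm : m ∈ Gam) : K σ m ⊆ {e : E | e.1 ∉ Gam} := by
  rintro e ⟨h1, h2⟩ he
  have h1' : (e.1.1 - m.1) ^ 2 + (e.1.2 - m.2) ^ 2 < (2 * (1 / 4 : ℝ)) ^ 2 := h1
  by_cases hem : e.1 = m
  · apply h2
    rw [hem]
    simp
  · have h3 := h7.2.2.2.1 e.1 he m hm hem
    rw [Prod.dist_eq, Real.dist_eq, Real.dist_eq] at h3
    rcases le_max_iff.1 h3 with h | h
    · nlinarith [sq_abs (e.1.1 - m.1), abs_nonneg (e.1.1 - m.1), sq_nonneg (e.1.2 - m.2)]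
    · nlinarith [sq_abs (e.1.2 - m.2), abs_nonneg (e.1.2 - m.2), sq_nonneg (e.1.1 - m.1)]

theorem mem_K (σ : ℝ) (m : P2) (x y τ : ℝ) (hx : x ^ 2 + y ^ 2 < 1 / 4) (h : y ≠ 0 ∨ 0 < σ * x) :
    (((m.1 + x, m.2 + y), τ) : E) ∈ K σ m := by
  refine ⟨?_, ?_⟩
  · show (m.1 + x - m.1) ^ 2 + (m.2 + y - m.2) ^ 2 < (2 * (1 / 4 : ℝ)) ^ 2
    have e1 : m.1 + x - m.1 = x := by ring
    have e2 : m.2 + y - m.2 = y := by ring
    rw [e1, e2]
    linarith
  · rintro ⟨h1, h2⟩
    have h1' : m.2 + y - m.2 = 0 := h1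
    have h2' : σ * (m.1 + x - m.1) ≤ 0 := h2
    have e1 : m.1 + x - m.1 = x := by ring
    rw [e1] at h2'
    rcases h with h | h
    · exact h (by linarith)
    · linarith

theorem K_open (σ : ℝ) (m : P2) : IsOpen (K σ m) := by
  have h0 : Continuous fun e : E => nsq (e.1 - m) := by
    unfold nsq
    fun_prop
  have h1 : IsOpen {e : E | nsq (e.1 - m) < (2 * (1 / 4 : ℝ)) ^ 2} :=
    isOpen_lt h0 continuous_const
  have h2 : IsClosed {e : E | (e.1 - m).2 = 0 ∧ σ * (e.1 - m).1 ≤ 0} := by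
    have h3 : Continuous fun e : E => (e.1 - m).2 := by fun_prop
    have h4 : Continuous fun e : E => σ * (e.1 - m).1 := by fun_prop
    exact (isClosed_eq h3 continuous_const).inter (isClosed_le h4 continuous_const)
  exact h1.inter h2.isOpen_compl

theorem lift {N : Type} [TopologicalSpace N] {r : Setoid N} {κ : Type} (A : APart N r κ) (k : κ)
    (Y : Set E) (hY : Y ⊆ {e : E | e.1 ∉ Gam}) [SimplyConnectedSpace Y] [LocallyPathConnectedSpace Y]
    (b : N) (hb : b ∈ A.U k) (hbY : A.c k b ∈ Y) :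
    ∃ s : E → N, ContinuousOn s Y ∧ (∀ e ∈ Y, s e ∈ A.U k ∧ A.c k (s e) = e) ∧ s (A.c k b) = b := by
  classical
  let f : C(Y, {e : E | e.1 ∉ Gam}) := ⟨Set.inclusion hY, continuous_inclusion hY⟩
  obtain ⟨F, ⟨hF1, hF2⟩, -⟩ := (A.cov k).existsUnique_continuousMap_lifts f ⟨A.c k b, hbY⟩ ⟨b, hb⟩
    (Subtype.ext rfl)
  refine ⟨fun e => if h : e ∈ Y then (F ⟨e, h⟩ : N) else b, ?_, ?_, ?_⟩
  · rw [continuousOn_iff_continuous_domRestrict]
    have : Y.domRestrict (fun e => if h : e ∈ Y then (F ⟨e, h⟩ : N) else b) = fun e => (F e : N) := by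
      funext e
      simp [Set.domRestrict]
    rw [this]
    exact continuous_subtype_val.comp F.continuous
  · intro e he
    simp only [he, dif_pos]
    refine ⟨(F ⟨e, he⟩).2, ?_⟩
    have := congr_fun hF2 ⟨e, he⟩
    have h2 := congr_arg Subtype.val this
    exact h2
  · simp only [hbY, dif_pos]
    rw [hF1]

/-- both halves at once, `σ = -1` left, `σ = 1` right -/
theorem core (h1 : AP0) (h2 : AP1) (h3 : AP2) (h4 : AP3) (h5 : GS3) (h7 : PG1)
    (N : Type) [TopologicalSpace N] [T2Space N] (r : Setoid N) (κ : Type) (A : APart N r κ)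
    (hq : IsOpenMap (Quotient.mk r)) (a : Quotient r) (ha : a ∈ A.sing) (σ : ℝ) (hσ : σ = 1 ∨ σ = -1) :
    ∃ y ∈ A.LA, y ≠ a ∧ ∀ U V : Set (Quotient r), IsOpen U → IsOpen V → a ∈ U → y ∈ V →
      ∃ c ∈ A.LA, c ∈ U ∧ c ∈ V ∧ ∃ δ > 0, A.x c = A.x a + σ * δ := by
  obtain ⟨k, b, hb, hba, m, hm, hmz⟩ := ha
  obtain ⟨hx, -, -, -, -⟩ := h4 N r κ A hq
  obtain ⟨-, -, -, -, hside⟩ := h1
  have hzG : (A.c k b).1 ∉ Gam := A.maps k hb
  set z : P2 := (A.c k b).1 with hz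
  have hne : z.2 ≠ m.2 := fun h => hzG (by
    have : z = m := Prod.ext hmz.symm h
    rw [this]; exact hm)
  have hσ2 : σ * σ = 1 := by rcases hσ with h | h <;> rw [h] <;> norm_num
  obtain ⟨ς, hς, hςs⟩ : ∃ ς : ℝ, ς * ς = 1 ∧ 0 < ς * (z.2 - m.2) := by
    rcases lt_or_gt_of_ne hne with h | h
    · exact ⟨-1, by norm_num, by linarith⟩
    · exact ⟨1, by norm_num, by linarith⟩
  have hςor : ς = 1 ∨ ς = -1 := mul_self_eq_one_iff.1 hς
  have hςne : ς ≠ 0 := fun h => by rw [h] at hς; norm_num at hς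
  -- the point over `m + (0, ς / 4)`
  have hIA : ((m.1, m.2 + ς * (1 / 4)) : P2) ∈ IA z := by
    refine ⟨hmz, ?_⟩
    intro t ht htG
    have htm : ((z.1, t) : P2) = m := h7.2.1 _ htG _ hm hmz.symm
    have htm2 : t = m.2 := congr_arg Prod.snd htm
    have ht' : t ∈ Set.uIcc z.2 (m.2 + ς * (1 / 4)) := ht
    rw [htm2] at ht'
    rcases hςor with h | h
    · rw [h] at hςs ht'
      rcases Set.mem_uIcc.1 ht' with h' | h' <;> linarith [h'.1, h'.2]
    · rw [h] at hςs ht'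
      rcases Set.mem_uIcc.1 ht' with h' | h' <;> linarith [h'.1, h'.2]
  obtain ⟨hA1, hA2⟩ := h3 N r κ A k
  obtain ⟨b0, hb0, hcb0, hrb0⟩ := hA1 b hb (((m.1, m.2 + ς * (1 / 4)), 0) : E) hIA
  -- the lift over the slit disc
  obtain ⟨hsc, hlp⟩ := h5 σ (1 / 4) hσ (by norm_num) m
  have hsc' : SimplyConnectedSpace (K σ m) := hsc
  have hlp' : LocallyPathConnectedSpace (K σ m) := hlp
  have hKG := K_sub h7 σ m hm
  have he0 : (((m.1, m.2 + ς * (1 / 4)), 0) : E) ∈ K σ m := by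
    have := mem_K σ m 0 (ς * (1 / 4)) 0 (by nlinarith) (Or.inl (by positivity))
    simpa using this
  obtain ⟨s, hs, hsU, hsb⟩ := lift A k (K σ m) hKG b0 hb0 (by rw [hcb0]; exact he0)
  rw [hcb0] at hsb
  have he1 : (((m.1, m.2 + -(ς * (1 / 4))), 0) : E) ∈ K σ m := by
    have := mem_K σ m 0 (-(ς * (1 / 4))) 0 (by nlinarith) (Or.inl (by
      have : ς * (1 / 4) ≠ 0 := by positivity
      exact neg_ne_zero.2 this))
    simpa using this
  set b1 : N := s ((m.1, m.2 + -(ς * (1 / 4))), 0) with hb1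
  have hb1U : b1 ∈ A.U k := (hsU _ he1).1
  have hcb1 : A.c k b1 = ((m.1, m.2 + -(ς * (1 / 4))), 0) := (hsU _ he1).2
  refine ⟨Quotient.mk r b1, ⟨k, b1, hb1U, rfl⟩, ?_, ?_⟩
  · intro h
    have hr : r b b1 := Quotient.exact (hba.trans h.symm)
    obtain ⟨-, h8, -⟩ := h2 N r κ A k b b1 hb hr
    rw [hcb1] at h8
    have h9 : m.2 < z.2 ↔ m.2 < m.2 + -(ς * (1 / 4)) := hside _ _ h8 m hm hmz
    rcases hςor with h' | h'
    · rw [h'] at h9 hςs
      have h10 := h9.1 (by linarith)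
      linarith
    · rw [h'] at h9 hςs
      have h10 := h9.2 (by linarith)
      linarith
  · intro U V hU hV haU hyV
    have hmk : Continuous (Quotient.mk r) := continuous_quotient_mk'
    have hKo := K_open σ m
    -- continuity of the two boundary curves
    have key : ∀ t : ℝ, (((m.1, m.2 + t), 0) : E) ∈ K σ m → ∀ W : Set (Quotient r), IsOpen W →
        Quotient.mk r (s ((m.1, m.2 + t), 0)) ∈ W →
        ∀ᶠ δ in 𝓝[>] (0 : ℝ), Quotient.mk r (s ((m.1 + σ * δ, m.2 + t), 0)) ∈ W := by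
      intro t ht W hW hmem
      have hc : ContinuousAt s ((m.1, m.2 + t), 0) := hs.continuousAt (hKo.mem_nhds ht)
      have hc2 : Tendsto (fun δ : ℝ => (((m.1 + σ * δ, m.2 + t), 0) : E)) (𝓝[>] 0)
          (𝓝 ((m.1, m.2 + t), 0)) := by
        have : ContinuousAt (fun δ : ℝ => (((m.1 + σ * δ, m.2 + t), 0) : E)) 0 := by fun_prop
        have h := this.tendsto
        simp only [mul_zero, add_zero] at h
        exact h.mono_left nhdsWithin_le_nhds
      have hc3 := (hmk.continuousAt.tendsto.comp hc.tendsto).comp hc2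
      exact hc3 (hW.mem_nhds hmem)
    have hU1 := key (ς * (1 / 4)) he0 U hU (by rw [hsb]; rw [← Quotient.sound hrb0, hba]; exact haU)
    have hV1 := key (-(ς * (1 / 4))) he1 V hV hyV
    have hδ : ∀ᶠ δ in 𝓝[>] (0 : ℝ), δ < 1 / 4 :=
      (nhdsWithin_le_nhds (Iio_mem_nhds (by norm_num : (0 : ℝ) < 1 / 4)) : Iio (1 / 4 : ℝ) ∈ 𝓝[>] (0 : ℝ))
    obtain ⟨δ, hδU, hδV, hδ4, hδ0⟩ := (hU1.and (hV1.and (hδ.and self_mem_nhdsWithin))).exists
    have hδ0' : 0 < δ := hδ0
    -- the vertical segment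
    set Y : Set E := {e : E | e.1.1 = m.1 + σ * δ ∧ m.2 - 1 / 4 ≤ e.1.2 ∧ e.1.2 ≤ m.2 + 1 / 4 ∧ e.2 = 0} with hYdef
    have hYK : Y ⊆ K σ m := by
      rintro ⟨⟨x, y⟩, τ⟩ ⟨hx1, hy1, hy2, hτ⟩
      simp only at hx1 hy1 hy2 hτ
      have hq1 : (σ * δ) ^ 2 < 1 / 16 := by
        have : (σ * δ) ^ 2 = (σ * σ) * (δ * δ) := by ring
        rw [this, hσ2]
        nlinarith
      have hq2 : (y - m.2) ^ 2 ≤ 1 / 16 := by nlinarith
      have := mem_K σ m (σ * δ) (y - m.2) τ (by linarith) (Or.inr (by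
        have : σ * (σ * δ) = δ := by rw [← mul_assoc, hσ2, one_mul]
        rw [this]; exact hδ0'))
      have e2 : m.2 + (y - m.2) = y := by ring
      rw [e2] at this
      rw [hx1]; exact this
    have hYc : Convex ℝ Y := by
      rintro ⟨⟨x, y⟩, τ⟩ ⟨hx1, hy1, hy2, hτ⟩ ⟨⟨x', y'⟩, τ'⟩ ⟨hx1', hy1', hy2', hτ'⟩ p q hp hq' hpq
      simp only at hx1 hy1 hy2 hτ hx1' hy1' hy2' hτ'
      refine ⟨?_, ?_, ?_, ?_⟩
      · show p * x + q * x' = m.1 + σ * δ
        rw [hx1, hx1', ← add_mul, hpq, one_mul]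
      · show m.2 - 1 / 4 ≤ p * y + q * y'
        have h := add_le_add (mul_le_mul_of_nonneg_left hy1 hp) (mul_le_mul_of_nonneg_left hy1' hq')
        rw [← add_mul, hpq, one_mul] at h
        exact h
      · show p * y + q * y' ≤ m.2 + 1 / 4
        have h := add_le_add (mul_le_mul_of_nonneg_left hy2 hp) (mul_le_mul_of_nonneg_left hy2' hq')
        rw [← add_mul, hpq, one_mul] at h
        exact h
      · show p * τ + q * τ' = 0
        rw [hτ, hτ']; ring
    have hςb : -1 ≤ ς ∧ ς ≤ 1 := by rcases hςor with h | h <;> rw [h] <;> norm_num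
    have hY0 : (((m.1 + σ * δ, m.2 + ς * (1 / 4)), 0) : E) ∈ Y := by
      refine ⟨rfl, ?_, ?_, rfl⟩
      · show m.2 - 1 / 4 ≤ m.2 + ς * (1 / 4)
        linarith [hςb.1]
      · show m.2 + ς * (1 / 4) ≤ m.2 + 1 / 4
        linarith [hςb.2]
    have hY1 : (((m.1 + σ * δ, m.2 + -(ς * (1 / 4))), 0) : E) ∈ Y := by
      refine ⟨rfl, ?_, ?_, rfl⟩
      · show m.2 - 1 / 4 ≤ m.2 + -(ς * (1 / 4))
        linarith [hςb.2]
      · show m.2 + -(ς * (1 / 4)) ≤ m.2 + 1 / 4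
        linarith [hςb.1]
    have hr := hA2 Y s hYc (hYK.trans hKG) (hs.mono hYK) (fun e he => hsU e (hYK he)) _ hY0 _ hY1 rfl
    have hcU := (hsU _ (hYK hY0)).1
    have hcc := (hsU _ (hYK hY0)).2
    refine ⟨Quotient.mk r (s ((m.1 + σ * δ, m.2 + ς * (1 / 4)), 0)), ⟨k, _, hcU, rfl⟩, hδU, ?_, δ, hδ0', ?_⟩
    · rw [Quotient.sound hr]; exact hδV
    · rw [hx k _ hcU, hcc, ← hba, hx k b hb]
      show m.1 + σ * δ = z.1 + σ * δ
      rw [hmz]

end XAP6

theorem I_AP6 (h1 : AP0) (h2 : AP1) (h3 : AP2) (h4 : AP3) (h5 : GS3) (h6 : GS1) (h7 : PG1) : AP6 := by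
  intro N _ _ r κ A hq a ha
  refine ⟨?_, ?_⟩
  · obtain ⟨y, hy, hya, H⟩ := XAP6.core h1 h2 h3 h4 h5 h7 N r κ A hq a ha (-1) (Or.inr rfl)
    refine ⟨y, hy, hya, fun U V hU hV haU hyV => ?_⟩
    obtain ⟨c, hc, hcU, hcV, δ, hδ, hx⟩ := H U V hU hV haU hyV
    exact ⟨c, hc, hcU, hcV, by rw [hx]; linarith⟩
  · obtain ⟨y, hy, hya, H⟩ := XAP6.core h1 h2 h3 h4 h5 h7 N r κ A hq a ha 1 (Or.inl rfl)
    refine ⟨y, hy, hya, fun U V hU hV haU hyV => ?_⟩
    obtain ⟨c, hc, hcU, hcV, δ, hδ, hx⟩ := H U V hU hV haU hyV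
    exact ⟨c, hc, hcU, hcV, by rw [hx]; linarith⟩

end Pool.Agent.Work.MP_0d206b_gt

end

end

/-! ### L.I_LA1 -/

section

/-!
# MP_0d206b_gt, item LA1
-/

open Set Filter Topology
open scoped ContDiff

noncomputable section

namespace Pool.Agent.Work.MP_0d206b_gt

theorem XLA1.exists_sg {x : ℝ} (hx : x ≠ 0) : ∃ s : Bool, 0 < sg s * x := by
  rcases lt_or_gt_of_ne hx with h | h
  · exact ⟨false, by simp only [sg, Bool.false_eq_true, if_false]; linarith⟩
  · exact ⟨true, by simp only [sg, if_true]; linarith⟩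

theorem I_LA1 (h1 : PL1) (h2 : LA3) (h3 : LA5) : LA1 := by
  intro D N _ C b
  obtain ⟨i, hi⟩ := C.cover b
  rcases i with _ | s | m
  · by_cases hL : (C.c .R b).1 ∈ D.Lam
    · exact Or.inr (Or.inr ⟨hi, hL⟩)
    · obtain ⟨-, -, -, hp, -, -, hq⟩ := h1 D
      obtain ⟨hm, hz⟩ := hq _ hL
      have hdom : (C.c .R b).1 ∉ Gam := C.maps .R hi
      have hv0 : D.lin (C.c .R b).1 ≠ 0 := by
        intro h0
        apply hdom
        rw [hz]
        exact (hp _ hm _).2.2.2 h0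
      have h4 := h2 D N C b _ hm _ hi hz
      by_cases hv2 : (D.lin (C.c .R b).1).2 = 0
      · have hv1 : (D.lin (C.c .R b).1).1 ≠ 0 := by
          intro h
          exact hv0 (Prod.ext h hv2)
        have h5 := h4.2 (by rw [hv2, abs_zero]; exact abs_pos.2 hv1)
        refine Or.inr (Or.inl ⟨_, h5.1, ?_⟩)
        rw [h5.2]
        simp only [hv2, zero_div]
      · obtain ⟨s, hs⟩ := XLA1.exists_sg hv2
        exact Or.inl ⟨s, (h4.1 s hs).1⟩
  · exact Or.inl ⟨s, hi⟩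
  · by_cases hx : (C.c (.g m) b).1.1 = 0
    · exact Or.inr (Or.inl ⟨m, hi, hx⟩)
    · obtain ⟨s, hs⟩ := XLA1.exists_sg hx
      exact Or.inl ⟨s, ((h3 D N C m b hi).1 s hs).1⟩

end Pool.Agent.Work.MP_0d206b_gt

end

end

/-! ### L.I_LA16 -/

section

/-!
# MP_0d206b_gt, module L, LA16: transversal lines through the leaves of the saddle pieces
-/

set_option autoImplicit false

open Set Filter Topology
open scoped ContDiff

noncomputable section

namespace Pool.Agent.Work.MP_0d206b_gt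

namespace XLA16

theorem sg_sq (s : Bool) : sg s * sg s = 1 := by
  cases s <;> norm_num [sg]

theorem exists_sg {t : ℝ} (ht : t ≠ 0) : ∃ s : Bool, 0 < sg s * t := by
  rcases lt_or_gt_of_ne ht with h | h
  · exact ⟨false, by simp [sg]; exact h⟩
  · exact ⟨true, by simp [sg]; exact h⟩

theorem coord (D : DA) (N : Type) [TopologicalSpace N] (C : CoverData domA (glueA D) N) (m : Gam)
    (s : Bool) (b : N) (hA : b ∈ C.U (.A s)) (hg : b ∈ C.U (.g m)) :
    ∃ x : ℝ, 0 < x ∧ (C.c (.A s) b).1.1 = sg s * (m : P2).1 + x ∧ (C.c (.g m) b).1.1 = sg s / x := by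
  obtain ⟨w, hw, h1, h2, _⟩ : glueAg D s m (C.c (.A s) b) (C.c (.g m) b) :=
    C.glue_of (.A s) (.g m) b hA hg
  refine ⟨w.1, hw, ?_, ?_⟩
  · rw [h1, Prod.fst_add, D.Psi_fst, Prod.smul_fst, smul_eq_mul]
  · rw [h2]

end XLA16

open XLA16

theorem I_LA16 (h1 : LA5) (h2 : LA11) (h3 : LA13) (h4 : LT) (h5 : AP1) (h6 : GL3) (h7 : AR3)
    (h8 : CPAs) (h9 : LA15) : LA16 := by
  intro D N _ _ C m f hf η τ
  have hfc : Continuous f := continuousOn_univ.1 hf.cont
  have hline : Continuous (fun t : ℝ => f ((t, η), τ)) := hfc.comp (by fun_prop)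
  have hU : ∀ e : E, f e ∈ C.U (.g m) := fun e => hf.mem e (mem_univ e)
  have hc : ∀ e : E, C.c (.g m) (f e) = e := fun e => hf.eq e (mem_univ e)
  refine IsOpenEmbedding.of_continuous_injective_isOpenMap
    (continuous_quotient_mk'.comp hline) ?_ ?_
  · intro t t' htt
    have hrel : (leafSetoid C (esA D)) (f ((t, η), τ)) (f ((t', η), τ)) := Quotient.exact htt
    have hrel' : (leafSetoid C (esA D)) (f ((t', η), τ)) (f ((t, η), τ)) :=
      (leafSetoid C (esA D)).symm hrel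
    have hz : ∀ u u' : ℝ, (leafSetoid C (esA D)) (f ((u, η), τ)) (f ((u', η), τ)) → u = 0 →
        u' = 0 := by
      intro u u' hr hu
      have h := ((h4 D N C _ _ hr).2.1 m (hU _) (by rw [hc]; exact hu)).2
      rw [hc] at h
      exact h
    by_cases ht : t = 0
    · rw [ht, hz t t' hrel ht]
    · obtain ⟨s, hs⟩ := exists_sg ht
      have hbA : f ((t, η), τ) ∈ C.U (.A s) := ((h1 D N C m _ (hU _)).1 s (by rw [hc]; exact hs)).1
      obtain ⟨hbA', hx⟩ := (h4 D N C _ _ hrel).1 s hbA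
      obtain ⟨x, hx0, hx1, hx2⟩ := coord D N C m s _ hbA (hU _)
      obtain ⟨x', hx0', hx1', hx2'⟩ := coord D N C m s _ hbA' (hU _)
      rw [hc] at hx2 hx2'
      simp only at hx2 hx2'
      have : x = x' := by linarith
      rw [hx2, hx2', this]
  · intro J hJ
    have hO : IsOpen {e : E | e.1.1 ∈ J} := hJ.preimage (continuous_fst.comp continuous_fst)
    have h10 := h9 D N C _ (h6 _ _ _ N C (.g m) univ f isOpen_univ (subset_univ _) hf
      {e : E | e.1.1 ∈ J} (subset_univ _) hO)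
    convert h10 using 1
    ext q
    constructor
    · rintro ⟨t, ht, rfl⟩
      exact ⟨_, ⟨((t, η), τ), ht, rfl⟩, rfl⟩
    · rintro ⟨_, ⟨⟨⟨ξ, η'⟩, τ'⟩, he, rfl⟩, rfl⟩
      refine ⟨ξ, he, ?_⟩
      apply Quotient.sound
      refine h7 _ _ _ N C (esA D) (h8 D) (.g m) univ f (subset_univ _) hf ((ξ, η), τ)
        ((ξ, η'), τ') (subset_univ _) ?_
      intro p _
      have e1 : (((ξ, η'), τ') - ((ξ, η), τ) : E) = (η' - η) • esA D (.g m) p +
          ((τ' - τ) - (η' - η) * (esA D (.g m) p).2) • (((0, 0), 1) : E) := by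
        refine Prod.ext (Prod.ext ?_ ?_) ?_
        · simp [esA]
        · simp [esA]
        · simp only [Prod.snd_sub, Prod.snd_add, Prod.smul_snd, smul_eq_mul]
          ring
      rw [e1]
      exact Submodule.add_mem _
        (Submodule.smul_mem _ _ (Submodule.subset_span (Set.mem_insert _ _)))
        (Submodule.smul_mem _ _ (Submodule.subset_span (Set.mem_insert_of_mem _ rfl)))

end Pool.Agent.Work.MP_0d206b_gt

end

end

/-! ### L.I_LA22 -/

section

/-! MP_0d206b_gt, module L, item LA22 -/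

open Set Filter Topology
open scoped ContDiff

noncomputable section

namespace Pool.Agent.Work.MP_0d206b_gt

namespace XLA22

theorem box_sub (h1 : PG1) (z : P2) (hz : z ∉ Gam) :
    ∃ ε > 0, box z ε ⊆ {e : E | e.1 ∉ Gam} := by
  have hc : IsClosed (Gam : Set P2) := h1.2.2.2.2.1
  have ho : IsOpen ((Gam : Set P2)ᶜ) := hc.isOpen_compl
  obtain ⟨ε, hε, hb⟩ := Metric.isOpen_iff.1 ho z hz
  refine ⟨ε, hε, ?_⟩
  rintro ⟨⟨x, y⟩, t⟩ ⟨hx, hy⟩
  apply hb
  rw [Metric.mem_ball, Prod.dist_eq, Real.dist_eq, Real.dist_eq]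
  exact max_lt hx hy

theorem box_eq (z : P2) (ε : ℝ) :
    box z ε = (Metric.ball z.1 ε ×ˢ Metric.ball z.2 ε) ×ˢ (univ : Set ℝ) := by
  ext ⟨⟨x, y⟩, t⟩
  simp [box, Real.dist_eq]

theorem convex_box (z : P2) (ε : ℝ) : Convex ℝ (box z ε) := by
  rw [box_eq]
  exact ((convex_ball _ _).prod (convex_ball _ _)).prod convex_univ

theorem isOpen_box (z : P2) (ε : ℝ) : IsOpen (box z ε) := by
  rw [box_eq]
  exact (Metric.isOpen_ball.prod Metric.isOpen_ball).prod isOpen_univ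

theorem mem_box (z : P2) {ε t : ℝ} (ht : |t| < ε) (τ : ℝ) : (((z.1, z.2 + t), τ) : E) ∈ box z ε := by
  have hε : 0 < ε := lt_of_le_of_lt (abs_nonneg t) ht
  refine ⟨?_, ?_⟩
  · show |z.1 - z.1| < ε
    simpa using hε
  · show |z.2 + t - z.2| < ε
    simpa using ht

theorem sg_smul_mem {m : P2} (hm : m ∈ Gam) (s : Bool) : sg s • m ∈ Gam := by
  cases s
  · have : sg false • m = -m := by simp [sg]
    rw [this]
    exact Gam.neg_mem hm
  · have : sg true • m = m := by simp [sg]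
    rw [this]
    exact hm

theorem abs_sg {σ : ℝ} (hσ : σ = 1 ∨ σ = -1) {t δ : ℝ} (ht : t ∈ Ioo 0 δ) : |σ * t| < δ := by
  rcases hσ with rfl | rfl
  · rw [one_mul, abs_of_pos ht.1]; exact ht.2
  · rw [neg_one_mul, abs_neg, abs_of_pos ht.1]; exact ht.2

/-- a lift over a small box through a given point of the repeller piece -/
theorem exists_box {D : DA} {N : Type} [TopologicalSpace N] (C : CoverData domA (glueA D) N)
    (h1 : PG1) (hG : GL1) (hS : GS1) (b : N) (hb : b ∈ C.U .R) :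
    ∃ ε > 0, box (C.c .R b).1 ε ⊆ {e : E | e.1 ∉ Gam} ∧ ∃ f : E → N,
      IsLift C .R (box (C.c .R b).1 ε) f ∧ f (C.c .R b) = b := by
  obtain ⟨ε, hε, hsub⟩ := box_sub h1 (C.c .R b).1 (C.maps .R hb)
  have hmem : C.c .R b ∈ box (C.c .R b).1 ε := by
    have := mem_box (C.c .R b).1 (t := 0) (ε := ε) (by simpa using hε) (C.c .R b).2
    simpa using this
  obtain ⟨hsc, hlp⟩ := hS _ (convex_box (C.c .R b).1 ε) ⟨_, hmem⟩
  obtain ⟨f, hf, hfb⟩ := hG _ _ _ _ C .R (box (C.c .R b).1 ε) hsub hsc hlp b hb hmem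
  exact ⟨ε, hε, hsub, f, hf, hfb⟩

end XLA22

open XLA22 in
theorem I_LA22 (h1 : PG1) (h2 : PG2) (h3 : PL1) (h4 : LA1) (h5 : LA2) (h6 : LA3) (h7 : LA13)
    (h8 : LA17) (h9 : LA18) (h10 : LT) (h11 : NSh) (h12 : XE) (h13 : XR) (h14 : XT) (h15 : XL)
    (h16 : GL1) (h17 : GS1) : LA22 := by
  intro D N _ _ C b b' hb hb' hL hL' hNS
  obtain ⟨ε, hε, hsub, f, hf, hfb⟩ := exists_box C h1 h16 h17 b hb
  obtain ⟨ε', hε', hsub', f', hf', hfb'⟩ := exists_box C h1 h16 h17 b' hb'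
  obtain ⟨A, hAU, hAc⟩ := h7 D N C
  generalize hz : (C.c .R b).1 = z at *
  generalize hz' : (C.c .R b').1 = z' at *
  generalize hτ : (C.c .R b).2 = τ at *
  generalize hτ' : (C.c .R b').2 = τ' at *
  have hcb : C.c .R b = (z, τ) := Prod.ext hz hτ
  have hcb' : C.c .R b' = (z', τ') := Prod.ext hz' hτ'
  rw [hcb] at hfb
  rw [hcb'] at hfb'
  have hline := h8 D N C z τ ε f hε hL hf hsub
  have hline' := h8 D N C z' τ' ε' f' hε' hL' hf' hsub'
  have hNS0 : NS (Quotient.mk (leafSetoid C (esA D)) (f ((z.1, z.2 + 0), τ)))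
      (Quotient.mk (leafSetoid C (esA D)) (f' ((z'.1, z'.2 + 0), τ'))) := by
    have e1 : ((z.1, z.2 + 0) : P2) = z := by simp
    have e2 : ((z'.1, z'.2 + 0) : P2) = z' := by simp
    rw [e1, e2, hfb, hfb']
    exact hNS
  obtain ⟨σ, σ', hσ, hσ', H1, H2⟩ := h11 _ (h9 D N C) ε ε'
    (fun t => Quotient.mk (leafSetoid C (esA D)) (f ((z.1, z.2 + t), τ)))
    (fun t => Quotient.mk (leafSetoid C (esA D)) (f' ((z'.1, z'.2 + t), τ')))
    hε hε' hline hline' hNS0
  obtain ⟨P₀, hP0, hO⟩ := h14 D N C z τ ε f hε hL hf hsub z'.1 τ'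
  have hPb : P₀ = b' := by
    by_contra hne
    obtain ⟨O, V, hOo, hVo, hPO, hbV, hdisj⟩ := t2_separation hne
    obtain ⟨δ₁, hδ₁, hδ₁ε, hXT⟩ := hO O (hOo.mem_nhds hPO)
    -- points of the second line near b' are in V
    have hmem' : ((z', τ') : E) ∈ box z' ε' := by
      have := mem_box z' (t := 0) (ε := ε') (by simpa using hε') τ'
      simpa using this
    have hcont : ContinuousAt (fun u : ℝ => f' ((z'.1, z'.2 + u), τ')) 0 := by
      have hfc : ContinuousAt f' ((z'.1, z'.2 + 0), τ') := by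
        have : (((z'.1, z'.2 + 0), τ') : E) = (z', τ') := by simp
        rw [this]
        exact hf'.cont.continuousAt ((isOpen_box z' ε').mem_nhds hmem')
      exact ContinuousAt.comp (f := fun u : ℝ => (((z'.1, z'.2 + u), τ') : E)) (x := 0) hfc
        (by fun_prop)
    have hV0 : f' ((z'.1, z'.2 + 0), τ') ∈ V := by
      have : (((z'.1, z'.2 + 0), τ') : E) = (z', τ') := by simp
      rw [this, hfb']
      exact hbV
    obtain ⟨e, he, heV⟩ := Metric.eventually_nhds_iff.1 (hcont.eventually (hVo.mem_nhds hV0))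
    have he' : 0 < min e ε' := lt_min he hε'
    obtain ⟨δ₂, hδ₂, hδ₂ε, H1'⟩ := H1 (min e ε') he'
    -- the final step
    have fin : ∀ t ∈ Ioo 0 (min δ₁ δ₂), ∀ u ∈ Ioo 0 (min e ε'),
        (leafSetoid C (esA D)) (f ((z.1, z.2 + σ * t), τ)) (f' ((z'.1, z'.2 + σ' * u), τ')) →
        (((z.1, z.2 + σ * t) : P2) ∉ D.Lam → ((z'.1, z'.2 + σ' * u) : P2) ∉ D.Lam →
          D.idx (z.1, z.2 + σ * t) = D.idx (z'.1, z'.2 + σ' * u)) → False := by
      intro t ht u hu hr hidx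
      have ht1 : |σ * t| < δ₁ := abs_sg hσ ⟨ht.1, lt_of_lt_of_le ht.2 (min_le_left _ _)⟩
      have htε : |σ * t| < ε := lt_of_lt_of_le ht1 hδ₁ε
      have huε : |σ' * u| < ε' := abs_sg hσ' ⟨hu.1, lt_of_lt_of_le hu.2 (min_le_right _ _)⟩
      have hue : |σ' * u| < e := abs_sg hσ' ⟨hu.1, lt_of_lt_of_le hu.2 (min_le_left _ _)⟩
      obtain ⟨P, hPO', hPR, hPx, hPτ, hPr, hPidx⟩ := hXT (σ * t) ht1
      have hQm := mem_box z' huε τ'
      have hQR : f' ((z'.1, z'.2 + σ' * u), τ') ∈ C.U .R := hf'.mem _ hQm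
      have hQc : C.c .R (f' ((z'.1, z'.2 + σ' * u), τ')) = ((z'.1, z'.2 + σ' * u), τ') :=
        hf'.eq _ hQm
      have hQV : f' ((z'.1, z'.2 + σ' * u), τ') ∈ V := by
        apply heV
        rw [Real.dist_eq, sub_zero]
        exact hue
      have hfm := mem_box z htε τ
      have hfR : f ((z.1, z.2 + σ * t), τ) ∈ C.U .R := hf.mem _ hfm
      have hfc : C.c .R (f ((z.1, z.2 + σ * t), τ)) = ((z.1, z.2 + σ * t), τ) := hf.eq _ hfm
      have hPQ : (leafSetoid C (esA D)) P (f' ((z'.1, z'.2 + σ' * u), τ')) :=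
        (leafSetoid C (esA D)).trans ((leafSetoid C (esA D)).symm hPr) hr
      have hEq : P = f' ((z'.1, z'.2 + σ' * u), τ') := by
        apply h12 D N C P _ hPR hQR hPQ
        · rw [hPx, hQc]
        · rw [hPτ, hQc]
        · intro hPL hQL
          rw [hQc] at hQL ⊢
          have hzt : ((z.1, z.2 + σ * t) : P2) ∉ D.Lam := by
            intro hzt
            apply hPL
            exact ((h10 D N C _ _ hPr).2.2 hfR (by rw [hfc]; exact hzt)).2
          rw [hPidx hzt]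
          exact hidx hzt hQL
      exact Set.disjoint_left.1 hdisj hPO' (hEq ▸ hQV)
    by_cases hA : ∃ t ∈ Ioo 0 (min δ₁ δ₂), ((z.1, z.2 + σ * t) : P2) ∈ D.Lam
    · obtain ⟨t, ht, htL⟩ := hA
      obtain ⟨u, hu, hφ⟩ := H1' t ⟨ht.1, lt_of_lt_of_le ht.2 (min_le_right _ _)⟩
      exact fin t ht u hu (Quotient.exact hφ) (fun h => absurd htL h)
    · push Not at hA
      have hT : 0 < min δ₁ δ₂ := lt_min hδ₁ hδ₂
      have hTε : min δ₁ δ₂ < ε := lt_of_le_of_lt (min_le_right _ _) hδ₂ε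
      obtain ⟨m₁, hm₁, s, δR, hδR, hδRT, hX1, -, hval⟩ := h13 D N C z τ ε σ (min δ₁ δ₂) f hε hσ hT
        hTε hL hf hsub hA
      obtain ⟨η', hη', hη'ε, H2'⟩ := H2 δR hδR
      have hnotL : ∀ u ∈ Ioo 0 η', f' ((z'.1, z'.2 + σ' * u), τ') ∈ C.U (.A s) := by
        intro u hu
        obtain ⟨t, ht, hφ⟩ := H2' u hu
        have hr := Quotient.exact hφ
        exact ((h10 D N C _ _ hr).1 s (hX1 t ht).2.1).1
      have hnotL' : ∀ u ∈ Ioo 0 η', ((z'.1, z'.2 + σ' * u) : P2) ∉ D.Lam := by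
        intro u hu hLu
        have huε : |σ' * u| < ε' := abs_sg hσ' ⟨hu.1, lt_trans hu.2 hη'ε⟩
        have hQm := mem_box z' huε τ'
        have hQR : f' ((z'.1, z'.2 + σ' * u), τ') ∈ C.U .R := hf'.mem _ hQm
        have hQc : C.c .R (f' ((z'.1, z'.2 + σ' * u), τ')) = ((z'.1, z'.2 + σ' * u), τ') :=
          hf'.eq _ hQm
        exact ((h5 D N C _).2.2.2.1 hQR (by rw [hQc]; exact hLu)).1 s (hnotL u hu)
      obtain ⟨m₂, hm₂, s₂, δR', hδR', hδRT', hX2, -, -⟩ := h13 D N C z' τ' ε' σ' η' f' hε' hσ' hη'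
        hη'ε hL' hf' hsub' hnotL'
      have hs : s₂ = s := by
        have hu : δR' / 2 ∈ Ioo 0 δR' := ⟨by linarith, by linarith⟩
        have hu' : δR' / 2 ∈ Ioo 0 η' := ⟨hu.1, lt_trans hu.2 hδRT'⟩
        exact (h5 D N C _).1 s₂ s (hX2 _ hu).2.1 (hnotL _ hu')
      rw [hs] at hX2
      by_cases hmm : m₁ = m₂
      · obtain ⟨δ₃, hδ₃, -, H3⟩ := H1 (min (min e ε') δR') (lt_min he' hδR')
        set t := (min δ₃ δR) / 2 with ht
        have hm : 0 < min δ₃ δR := lt_min hδ₃ hδR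
        have htpos : 0 < t := by rw [ht]; linarith
        have htlt : t < min δ₃ δR := by rw [ht]; linarith
        have ht3 : t < δ₃ := lt_of_lt_of_le htlt (min_le_left _ _)
        have htR : t < δR := lt_of_lt_of_le htlt (min_le_right _ _)
        obtain ⟨u, hu, hφ⟩ := H3 t ⟨htpos, ht3⟩
        refine fin t ⟨htpos, lt_trans htR hδRT⟩ u ⟨hu.1, lt_of_lt_of_le hu.2 (min_le_left _ _)⟩
          (Quotient.exact hφ) ?_
        intro _ _
        rw [(hX1 t ⟨htpos, htR⟩).1, (hX2 u ⟨hu.1, lt_of_lt_of_le hu.2 (min_le_right _ _)⟩).1]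
        exact hmm
      · obtain ⟨δ₃, hδ₃, -, H3⟩ := H1 δR' hδR'
        have hp1 : sg s • m₁ ∈ Gam := sg_smul_mem hm₁ s
        have hp2 : sg s • m₂ ∈ Gam := sg_smul_mem hm₂ s
        have hne2 : (sg s • m₁).2 ≠ (sg s • m₂).2 := by
          intro h
          apply hmm
          have h' := h1.2.2.1 _ hp1 _ hp2 h
          have hsg : sg s ≠ 0 := by cases s <;> simp [sg]
          exact smul_right_injective _ hsg h'
        have hm : 0 < min δ₃ δR := lt_min hδ₃ hδR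
        obtain ⟨X₀, hX₀⟩ := hval (min δ₃ δR) hm (min_le_right _ _)
        have hAs : ∀ t ∈ Ioo 0 δR, f ((z.1, z.2 + σ * t), τ) ∈ A.U s := by
          intro t ht
          rw [hAU]
          exact (hX1 t ht).2.1
        have hAs' : ∀ u ∈ Ioo 0 δR', f' ((z'.1, z'.2 + σ' * u), τ') ∈ A.U s := by
          intro u hu
          rw [hAU]
          exact (hX2 u hu).2.1
        rcases lt_or_gt_of_ne hne2 with hlt | hlt
        · obtain ⟨m₃, hm₃, ha, hb3, hX⟩ := h2.2 _ _ X₀ hlt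
          obtain ⟨t, ht, hxt⟩ := hX₀ m₃.1 hX
          have htR : t ∈ Ioo 0 δR := ⟨ht.1, lt_of_lt_of_le ht.2 (min_le_right _ _)⟩
          obtain ⟨u, hu, hφ⟩ := H3 t ⟨ht.1, lt_of_lt_of_le ht.2 (min_le_left _ _)⟩
          obtain ⟨-, -, w, hw⟩ := hX1 t htR
          obtain ⟨-, -, w', hw'⟩ := hX2 u hu
          refine h15 D N _ Bool A s _ _ (hAs t htR) (Quotient.exact hφ) _ hp1 _ hp2 w w' ?_ ?_ m₃ hm₃
            ?_ ha hb3
          · rw [hAc]; exact hw
          · rw [hAc]; exact hw'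
          · rw [hAc]; exact hxt.symm
        · obtain ⟨m₃, hm₃, ha, hb3, hX⟩ := h2.2 _ _ X₀ hlt
          obtain ⟨t, ht, hxt⟩ := hX₀ m₃.1 hX
          have htR : t ∈ Ioo 0 δR := ⟨ht.1, lt_of_lt_of_le ht.2 (min_le_right _ _)⟩
          obtain ⟨u, hu, hφ⟩ := H3 t ⟨ht.1, lt_of_lt_of_le ht.2 (min_le_left _ _)⟩
          obtain ⟨-, hAt, w, hw⟩ := hX1 t htR
          obtain ⟨-, -, w', hw'⟩ := hX2 u hu
          have hr := Quotient.exact hφ
          have hxx := ((h10 D N C _ _ hr).1 s hAt).2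
          refine h15 D N _ Bool A s _ _ (hAs' u hu) ((leafSetoid C (esA D)).symm hr) _ hp2 _ hp1 w' w
            ?_ ?_ m₃ hm₃ ?_ ha hb3
          · rw [hAc]; exact hw'
          · rw [hAc]; exact hw
          · rw [hAc]
            show m₃.1 = (C.c (.A s) (f' ((z'.1, z'.2 + σ' * u), τ'))).1.1
            rw [hxx]
            exact hxt.symm
  apply hNS.1
  apply Quotient.sound
  show (leafSetoid C (esA D)) b b'
  rw [← hPb, ← hfb]
  exact hP0

end Pool.Agent.Work.MP_0d206b_gt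

end

end

/-! ### L.I_LA4 -/

section

/-!
# MP_0d206b_gt, item LA4: change of coordinates from an attractor piece
-/

open Set Filter Topology
open scoped ContDiff

noncomputable section

namespace Pool.Agent.Work.MP_0d206b_gt

namespace XLA4

theorem sg_mul_sg (s : Bool) : sg s * sg s = 1 := by
  cases s <;> simp [sg]

theorem sg_smul_sg (s : Bool) (v : P2) : sg s • (sg s • v) = v := by
  rw [smul_smul, sg_mul_sg, one_smul]

end XLA4

open XLA4 in
theorem I_LA4 (h1 : PL5) : LA4 := by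
  intro D N _ C s b m hm w hb hc
  constructor
  · intro hw
    obtain ⟨hpos, hg⟩ := h1.2.1 w hw
    refine C.glue_lift (.A s) .R b _ hb ?_
    refine ⟨m, hm, sg s • gminv w, ?_, rfl, ?_, ?_⟩
    · show 0 < sg s * (sg s * (gminv w).2)
      rw [← mul_assoc, sg_mul_sg, one_mul]
      exact hpos
    · rw [sg_smul_sg, hg]
      exact hc
    · rw [sg_smul_sg, hg]
      ring
  · intro hw
    refine C.glue_lift (.A s) (.g ⟨m, hm⟩) b _ hb ?_
    exact ⟨w, hw, hc, rfl, rfl⟩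

end Pool.Agent.Work.MP_0d206b_gt

end

end

/-! ### L.I_LU1 -/

section

/-!
# MP_0d206b_gt, item LU1: unstable arcs stay in the repeller piece
-/

open Set Filter Topology
open scoped ContDiff

noncomputable section

namespace Pool.Agent.Work.MP_0d206b_gt

namespace XLU1

lemma univ_of (h1 : RL1) (h2 : RL2) (h4 : LU1a) (D : DA) (N : Type) [TopologicalSpace N]
    (C : CoverData domA (glueA D) N) (γ : ℝ → N) (hγ : IsArc C (euA D) γ) (t₀ : ℝ)
    (h0 : γ t₀ ∈ C.U .R) : ∀ t, γ t ∈ C.U .R := by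
  have h : {t | γ t ∈ C.U .R} = univ := by
    refine h1 {t | γ t ∈ C.U .R} ((C.isOpen_U .R).preimage hγ.cont) ?_ ?_ ⟨t₀, h0⟩
    · intro a ε hε hs
      exact h4 D N C γ hγ a ε hε fun t ht => hs ht
    · intro a ε hε hs
      have hr := h2 _ _ _ N C (euA D) γ hγ
      have := h4 D N C (fun t => γ (-t)) hr (-a) ε hε (fun t ht => by
        have : -t ∈ Ioo (a - ε) a := ⟨by linarith [ht.2], by linarith [ht.1]⟩
        exact hs this)
      simpa using this
  intro t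
  have : t ∈ {t | γ t ∈ C.U .R} := by rw [h]; exact mem_univ t
  exact this

end XLU1

open XLU1 in
theorem I_LU1 (h1 : RL1) (h2 : RL2) (h3 : LU0) (h4 : LU1a) : LU1 := by
  intro D N _ C γ hγ t₀ h0
  have hU := univ_of h1 h2 h4 D N C γ hγ t₀ h0
  have hx : ∀ t, HasDerivAt (fun u => (C.c .R (γ u)).1.1) 0 t := fun t =>
    (h3 D N C γ hγ t).1 (hU t)
  have hxc : ∀ t, (C.c .R (γ t)).1.1 = (C.c .R (γ t₀)).1.1 := by
    intro t
    exact is_const_of_deriv_eq_zero (f := fun u => (C.c .R (γ u)).1.1)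
      (fun u => (hx u).differentiableAt) (fun u => (hx u).deriv) t t₀
  have hy : Continuous (fun u => (C.c .R (γ u)).1.2) := by
    rw [continuous_iff_continuousAt]
    intro t
    have h := (hγ.smooth t .R (hU t)).continuousAt
    exact (continuous_snd.comp continuous_fst).continuousAt.comp h
  intro t
  refine ⟨hU t, hxc t, ?_⟩
  intro s hs
  obtain ⟨u, -, hu⟩ := intermediate_value_uIcc (a := t₀) (b := t)
    (f := fun u => (C.c .R (γ u)).1.2) hy.continuousOn hs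
  have hm : (C.c .R (γ u)).1 ∉ Gam := C.maps .R (hU u)
  have he : (((C.c .R (γ t₀)).1.1, s) : P2) = (C.c .R (γ u)).1 := by
    ext
    · exact (hxc u).symm
    · exact hu.symm
  rw [he]
  exact hm

end Pool.Agent.Work.MP_0d206b_gt

end

end

/-! ### L.I_PG2 -/

section

/-!
# MP_0d206b_gt, module L: the statement `PG2` (lattice points with second coordinate in a given interval)
-/

open Set Filter Topology

noncomputable section

namespace Pool.Agent.Work.MP_0d206b_gt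

namespace XPG2

/-- `Γ` contains the points `(φ^n, ψ^n)`. -/
theorem pow_mem (n : ℕ) : ((Real.goldenRatio ^ n, Real.goldenConj ^ n) : P2) ∈ Gam := by
  induction n with
  | zero => exact ⟨1, 0, by ext <;> simp⟩
  | succ n ih =>
    obtain ⟨i, j, hij⟩ := ih
    have h1 : Real.goldenRatio ^ n = i + j * Real.goldenRatio := congrArg Prod.fst hij
    have h2 : Real.goldenConj ^ n = i + j * Real.goldenConj := congrArg Prod.snd hij
    refine ⟨j, i + j, ?_⟩
    ext
    · simp only [pow_succ, h1]; push_cast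
      linear_combination (j : ℝ) * Real.goldenRatio_sq
    · simp only [pow_succ, h2]; push_cast
      linear_combination (j : ℝ) * Real.goldenConj_sq

/-- the first half of `PG2`. -/
theorem right (a b X : ℝ) (hab : a < b) : ∃ m ∈ Gam, a < m.2 ∧ m.2 < b ∧ X < m.1 := by
  have hpsi : Real.goldenConj < 0 := Real.goldenConj_neg
  have hpsi1 : -1 < Real.goldenConj := Real.neg_one_lt_goldenConj
  have hphi : 0 < Real.goldenRatio := Real.goldenRatio_pos
  have hsq : Real.goldenConj ^ 2 < 1 := by nlinarith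
  have hsq0 : 0 < Real.goldenConj ^ 2 := by nlinarith
  obtain ⟨n, hn⟩ := exists_pow_lt_of_lt_one (sub_pos.2 hab) hsq
  set c : ℝ := Real.goldenConj ^ (2 * n) with hc
  have hc0 : 0 < c := by rw [hc, pow_mul]; positivity
  have hcb : c < b - a := by rw [hc, pow_mul]; exact hn
  set d : ℝ := Real.goldenRatio ^ (2 * n) with hd
  have hd0 : 0 < d := by positivity
  have hc' : Real.goldenConj ^ (2 * n + 1) = c * Real.goldenConj := by rw [pow_succ]
  have hd' : Real.goldenRatio ^ (2 * n + 1) = d * Real.goldenRatio := by rw [pow_succ]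
  have hw1 : 0 < d * Real.goldenRatio := by positivity
  have hw2 : 0 < -(c * Real.goldenConj) := by
    have := mul_pos hc0 (neg_pos.2 hpsi)
    linarith
  obtain ⟨k, hk⟩ := exists_nat_gt (max (X / (d * Real.goldenRatio)) (-a / (-(c * Real.goldenConj))))
  have hk1 : X < k * (d * Real.goldenRatio) := (div_lt_iff₀ hw1).1 ((le_max_left _ _).trans_lt hk)
  have hk2 : -a < k * (-(c * Real.goldenConj)) :=
    (div_lt_iff₀ hw2).1 ((le_max_right _ _).trans_lt hk)
  have hm1 := pow_mem (2 * n)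
  have hm2 := pow_mem (2 * n + 1)
  rw [hc', hd'] at hm2
  rw [← hc, ← hd] at hm1
  set y0 : ℝ := k * (c * Real.goldenConj) with hy0
  have hy : y0 < a := by rw [hy0]; linarith
  obtain ⟨l, hl⟩ : ∃ l : ℤ, l = ⌊(a - y0) / c⌋ + 1 := ⟨_, rfl⟩
  have hl1 : a - y0 < l * c := by
    have := Int.lt_floor_add_one ((a - y0) / c)
    rw [div_lt_iff₀ hc0] at this
    rw [hl]; push_cast; exact this
  have hl2 : l * c ≤ a - y0 + c := by
    have := Int.floor_le ((a - y0) / c)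
    rw [le_div_iff₀ hc0] at this
    rw [hl]; push_cast; linarith
  have hl0 : (0 : ℝ) < l := by
    have h0 : 0 < (l : ℝ) * c := by linarith
    exact pos_of_mul_pos_left h0 hc0.le
  refine ⟨k • ((d * Real.goldenRatio, c * Real.goldenConj) : P2) + l • ((d, c) : P2),
    Gam.add_mem (Gam.nsmul_mem hm2 k) (Gam.zsmul_mem hm1 l), ?_, ?_, ?_⟩
  · rw [Prod.snd_add, Prod.smul_snd, Prod.smul_snd, nsmul_eq_mul, zsmul_eq_mul]
    linarith
  · rw [Prod.snd_add, Prod.smul_snd, Prod.smul_snd, nsmul_eq_mul, zsmul_eq_mul]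
    linarith
  · rw [Prod.fst_add, Prod.smul_fst, Prod.smul_fst, nsmul_eq_mul, zsmul_eq_mul]
    have := mul_pos hl0 hd0
    linarith

end XPG2

theorem I_PG2 : PG2 := by
  refine ⟨XPG2.right, fun a b X hab => ?_⟩
  obtain ⟨m, hm, h1, h2, h3⟩ := XPG2.right (-b) (-a) (-X) (by linarith)
  refine ⟨-m, Gam.neg_mem hm, ?_, ?_, ?_⟩
  · simp only [Prod.snd_neg]; linarith
  · simp only [Prod.snd_neg]; linarith
  · simp only [Prod.fst_neg]; linarith

end Pool.Agent.Work.MP_0d206b_gt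

end

end

/-! ### L.I_SJ -/

section

/-!
# MP_0d206b_gt, item SJ: a nonempty covering of a path connected piece is onto
-/

open Set Filter Topology
open scoped ContDiff

noncomputable section

namespace Pool.Agent.Work.MP_0d206b_gt

theorem I_SJ : SJ := by
  intro ι dom glue N _ C i hpc hne e he
  obtain ⟨b0, hb0⟩ := hne
  have he0 : C.c i b0 ∈ dom i := C.maps i hb0
  obtain ⟨γ⟩ := (hpc.joinedIn _ he0 _ he).joined_subtype
  obtain ⟨Γ, hΓ, hΓ0⟩ := (C.cov i).exists_path_lifts (γ : C(unitInterval, dom i)) ⟨b0, hb0⟩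
    (by
      have h := γ.source
      exact h.trans rfl)
  refine ⟨(Γ 1 : N), (Γ 1).2, ?_⟩
  have h1 := congrFun hΓ 1
  have h2 := congrArg Subtype.val h1
  have h3 : ((γ 1 : dom i) : E) = e := by rw [γ.target]
  exact h2.trans h3

end Pool.Agent.Work.MP_0d206b_gt

end

end

/-! ### L0.L01 -/

section

/-! Item L01: the two kinds of points and the change of coordinates for flow 0. -/

open Set Filter Topology
open scoped ContDiff

noncomputable section

namespace Pool.Agent.Work.MP_0d206b_gt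

theorem L0L01.Psi_zero (D : DA) : D.Psi 0 = 0 := by
  obtain ⟨r, hr, h⟩ := D.Psi_near
  exact h 0 (by rw [norm_zero]; exact hr)

theorem L0L01.nsq_swap (w : P2) : nsq (w.2, w.1) = nsq w := by
  simp only [nsq]
  ring

theorem I_L01 : L01 := by
  intro D N _ C b
  have h3 : ∀ m ∈ Gam, ∀ v : P2, b ∈ C.U .R → (C.c .R b).1 = m + D.Psi v →
      b ∈ C.U .A ∧ C.c .A b = (m + D.Psi (v.2, v.1), (C.c .R b).2 - llog (nsq v)) := by
    intro m hm v hb hz
    have hdom : (C.c .R b).1 ∉ Gam := C.maps .R hb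
    have hv : v ≠ 0 := by
      rintro rfl
      apply hdom
      rw [hz, L0L01.Psi_zero, add_zero]
      exact hm
    exact C.glue_lift .R .A b (m + D.Psi (v.2, v.1), (C.c .R b).2 - llog (nsq v)) hb
      ⟨m, hm, v, hv, hz, rfl, rfl⟩
  have h2 : b ∈ C.U .R → (C.c .R b).1 ∈ D.Lam → b ∉ C.U .A := by
    intro hR hL hA
    obtain ⟨m, hm, v, -, hz, -⟩ := C.glue_of .R .A b hR hA
    exact hL m hm v hz
  refine ⟨?_, h2, h3, ?_⟩
  · obtain ⟨i, hi⟩ := C.cover b
    cases i with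
    | A => exact Or.inl hi
    | R =>
      by_cases hL : (C.c .R b).1 ∈ D.Lam
      · exact Or.inr ⟨hi, hL⟩
      · have : ∃ m ∈ Gam, ∃ v, (C.c .R b).1 = m + D.Psi v := by
          by_contra hcon
          push Not at hcon
          exact hL hcon
        obtain ⟨m, hm, v, hz⟩ := this
        exact Or.inl (h3 m hm v hi hz).1
  · intro m hm w hb hz
    have hdom : (C.c .A b).1 ∉ Gam := C.maps .A hb
    have hv : ((w.2, w.1) : P2) ≠ 0 := by
      intro h
      have h4 : w = 0 := Prod.ext (congrArg Prod.snd h) (congrArg Prod.fst h)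
      apply hdom
      rw [hz, h4, L0L01.Psi_zero, add_zero]
      exact hm
    refine C.glue_lift .A .R b (m + D.Psi (w.2, w.1), (C.c .A b).2 + llog (nsq w)) hb
      ⟨m, hm, (w.2, w.1), hv, rfl, hz, ?_⟩
    rw [L0L01.nsq_swap]
    ring

end Pool.Agent.Work.MP_0d206b_gt

end

end

/-! ### L0.L013 -/

section

/-! Item L013: the stable leaf space of flow 0 is of type W2 (assembly). -/

open Set Filter Topology
open scoped ContDiff

noncomputable section

namespace Pool.Agent.Work.MP_0d206b_gt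

theorem I_L013 (hCr : Crit) (hAP8 : AP8) (h1 : L01) (h4 : L04) (h7 : L07) (h9 : L09) (h10 : L010)
    (h11 : L011) (h12 : L012) : L013 := by
  intro D N _ _ C
  obtain ⟨A, hU, hc⟩ := h4 D N C
  have hA := hAP8 N (leafSetoid C (es0 D)) Unit A (h7 D N C)
  refine hCr _ A.LA A.x A.up A.sing (h9 D N C) hA ?_
  have hrep : ∀ b : N, Quotient.mk (leafSetoid C (es0 D)) b ∉ A.LA →
      b ∈ C.U .R ∧ (C.c .R b).1 ∈ D.Lam := by
    intro b hb
    rcases (h1 D N C b).1 with h | h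
    · exact absurd ⟨(), b, by rw [hU]; exact h, rfl⟩ hb
    · exact h
  exact
    { C3 := h10 D N C A hU hc
      C4 := by
        intro b hb b' hb'
        induction b using Quotient.inductionOn with | _ b => ?_
        induction b' using Quotient.inductionOn with | _ b' => ?_
        have h := hrep b hb
        have h' := hrep b' hb'
        exact h11 D N C b b' h.1 h'.1 h.2 h'.2
      denseA := h12 D N C A hU hc }

end Pool.Agent.Work.MP_0d206b_gt

end

end

/-! ### L0.L08 -/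

section

/-!
# MP_0d206b_gt, flow 0, item L08 (helper75)
-/

open Set Filter Topology
open scoped ContDiff

noncomputable section

namespace Pool.Agent.Work.MP_0d206b_gt

namespace L0L08

variable {D : DA} {N : Type} [TopologicalSpace N]

/-- the box -/
def box (z : P2) (ε : ℝ) : Set E := {e : E | |e.1.1 - z.1| < ε ∧ |e.1.2 - z.2| < ε}

theorem isOpen_box' (a b r s : ℝ) : IsOpen {e : E | |e.1.1 - a| < r ∧ |e.1.2 - b| < s} := by
  have c1 : Continuous (fun e : E => |e.1.1 - a|) := by fun_prop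
  have c2 : Continuous (fun e : E => |e.1.2 - b|) := by fun_prop
  exact (isOpen_lt c1 continuous_const).inter (isOpen_lt c2 continuous_const)

theorem mem_box {z : P2} {τ ε t : ℝ} (hε : 0 < ε) (ht : t ∈ Ioo (-ε) ε) :
    (((z.1, z.2 + t), τ) : E) ∈ box z ε := by
  refine ⟨?_, ?_⟩
  · simpa using hε
  · simp only [add_sub_cancel_left]
    exact abs_lt.2 ht

theorem cont_line {z : P2} {τ : ℝ} : Continuous (fun t : ℝ => (((z.1, z.2 + t), τ) : E)) := by
  fun_prop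

theorem cont_f {C : CoverData dom0 (glue0 D) N} {z : P2} {τ ε : ℝ} {f : E → N} (hε : 0 < ε)
    (hf : IsLift C .R (box z ε) f) :
    Continuous (fun t : Ioo (-ε) ε => f ((z.1, z.2 + t), τ)) := by
  have h1 : ContinuousOn (fun t : ℝ => f ((z.1, z.2 + t), τ)) (Ioo (-ε) ε) :=
    hf.cont.comp cont_line.continuousOn fun t ht => mem_box hε ht
  exact continuousOn_iff_continuous_domRestrict.1 h1

/-- same leaf, first point over `Lam` -/
theorem inj_lam (hPS3 : PS3) (hA4 : AR4) (h3 : L03)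
    {C : CoverData dom0 (glue0 D) N} {z : P2} {τ ε : ℝ} {f : E → N} (hε : 0 < ε)
    (hf : IsLift C .R (box z ε) f) {t t' : ℝ} (ht : t ∈ Ioo (-ε) ε) (ht' : t' ∈ Ioo (-ε) ε)
    (hr : (leafSetoid C (es0 D)) (f ((z.1, z.2 + t), τ)) (f ((z.1, z.2 + t'), τ)))
    (hl : ((z.1, z.2 + t) : P2) ∈ D.Lam) : t = t' := by
  obtain ⟨Y, hY, hY0⟩ := (hPS3 D).1 (z.1, z.2 + t)
  simp only at hY0
  have key := hA4 _ _ _ N C (es0 D)
    (fun b => b ∈ C.U .R ∧ (C.c .R b).1 ∈ D.Lam ∧ (C.c .R b).1.2 = Y (C.c .R b).1.1)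
    (fun γ hγ h => (h3 D N C γ hγ 0).2 h.1 h.2.1 Y hY h.2.2 1)
    (fun γ hγ h => (h3 D N C γ hγ 1).2 h.1 h.2.1 Y hY h.2.2 0) _ _ hr
  have e1 := hf.eq _ (mem_box (z := z) (τ := τ) hε ht)
  have e2 := hf.eq _ (mem_box (z := z) (τ := τ) hε ht')
  have hQ := key.1 ⟨hf.mem _ (mem_box hε ht), by rw [e1]; exact hl, by rw [e1]; exact hY0.symm⟩
  have h := hQ.2.2
  rw [e2] at h
  simp only at h
  linarith

/-- same leaf, both points off `Lam` -/
theorem inj_off (hP1 : PL1) (hA4 : AR4) (h1 : L01) (h3 : L03) (h6 : L06) [GoodN N]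
    {C : CoverData dom0 (glue0 D) N} {z : P2} {τ ε : ℝ} {f : E → N} (hε : 0 < ε)
    (hf : IsLift C .R (box z ε) f) {t t' : ℝ} (ht : t ∈ Ioo (-ε) ε) (ht' : t' ∈ Ioo (-ε) ε)
    (hr : (leafSetoid C (es0 D)) (f ((z.1, z.2 + t), τ)) (f ((z.1, z.2 + t'), τ)))
    (hl : ((z.1, z.2 + t) : P2) ∉ D.Lam) (hl' : ((z.1, z.2 + t') : P2) ∉ D.Lam) : t = t' := by
  have e1 := hf.eq _ (mem_box (z := z) (τ := τ) hε ht)
  have e2 := hf.eq _ (mem_box (z := z) (τ := τ) hε ht')
  have m1 := hf.mem _ (mem_box (z := z) (τ := τ) hε ht)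
  have m2 := hf.mem _ (mem_box (z := z) (τ := τ) hε ht')
  have hK : ∃ K : Set N, IsPreconnected K ∧ K ⊆ C.U .R ∧ f ((z.1, z.2 + t), τ) ∈ K ∧
      f ((z.1, z.2 + t'), τ) ∈ K := by
    refine ⟨(fun s : ℝ => f ((z.1, z.2 + s), τ)) '' Ioo (-ε) ε, ?_, ?_, ⟨t, ht, rfl⟩, ⟨t', ht', rfl⟩⟩
    · exact isPreconnected_Ioo.image _
        (hf.cont.comp cont_line.continuousOn fun t ht => mem_box hε ht)
    · rintro _ ⟨s, hs, rfl⟩
      exact hf.mem _ (mem_box hε hs)
  have hidx := h6 D N C _ _ hr hK (by rw [e1]; exact hl) (by rw [e2]; exact hl')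
  rw [e1, e2] at hidx
  simp only at hidx
  obtain ⟨-, -, -, -, -, -, hdec⟩ := hP1 D
  obtain ⟨hm, hz⟩ := hdec _ hl
  obtain ⟨-, hz'⟩ := hdec _ hl'
  rw [← hidx] at hz'
  set m := D.idx (z.1, z.2 + t) with hmdef
  set v := D.lin (z.1, z.2 + t) with hv
  set v' := D.lin (z.1, z.2 + t') with hv'
  obtain ⟨-, -, hRA, -⟩ := h1 D N C (f ((z.1, z.2 + t), τ))
  obtain ⟨-, -, hRA', -⟩ := h1 D N C (f ((z.1, z.2 + t'), τ))
  obtain ⟨a1, c1⟩ := hRA m hm v m1 (by rw [e1]; exact hz)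
  obtain ⟨a2, c2⟩ := hRA' m hm v' m2 (by rw [e2]; exact hz')
  have key := hA4 _ _ _ N C (es0 D)
    (fun b => b ∈ C.U .A ∧ (C.c .A b).1.1 = (C.c .A (f ((z.1, z.2 + t), τ))).1.1)
    (fun γ hγ h => ⟨((h3 D N C γ hγ 0).1 h.1 1).1, ((h3 D N C γ hγ 0).1 h.1 1).2.trans h.2⟩)
    (fun γ hγ h => ⟨((h3 D N C γ hγ 1).1 h.1 0).1, ((h3 D N C γ hγ 1).1 h.1 0).2.trans h.2⟩) _ _ hr
  have hx := (key.1 ⟨a1, rfl⟩).2
  rw [c1, c2] at hx
  simp only [Prod.fst_add, D.Psi_fst] at hx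
  have hv2 : v.2 = v'.2 := by linarith
  have hv1 : v.1 = v'.1 := by
    have g1 := congrArg Prod.fst hz
    have g2 := congrArg Prod.fst hz'
    simp only [Prod.fst_add, D.Psi_fst] at g1 g2
    linarith
  have hvv : v = v' := Prod.ext hv1 hv2
  rw [← hvv, ← hz] at hz'
  have := congrArg Prod.snd hz'
  simp only at this
  linarith

theorem inj (hPS3 : PS3) (hP1 : PL1) (hA4 : AR4) (h1 : L01) (h3 : L03) (h6 : L06) [GoodN N]
    {C : CoverData dom0 (glue0 D) N} {z : P2} {τ ε : ℝ} {f : E → N} (hε : 0 < ε)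
    (hf : IsLift C .R (box z ε) f) {t t' : ℝ} (ht : t ∈ Ioo (-ε) ε) (ht' : t' ∈ Ioo (-ε) ε)
    (hr : (leafSetoid C (es0 D)) (f ((z.1, z.2 + t), τ)) (f ((z.1, z.2 + t'), τ))) : t = t' := by
  by_cases hl : ((z.1, z.2 + t) : P2) ∈ D.Lam
  · exact inj_lam hPS3 hA4 h3 hε hf ht ht' hr hl
  · by_cases hl' : ((z.1, z.2 + t') : P2) ∈ D.Lam
    · exact (inj_lam hPS3 hA4 h3 hε hf ht' ht ((leafSetoid C (es0 D)).symm hr) hl').symm
    · exact inj_off hP1 hA4 h1 h3 h6 hε hf ht ht' hr hl hl'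

/-- near `e_t` every point of the box is in the leaf of some `e_{t₁}`, `t₁` near `t` -/
theorem near (hPS3 : PS3) (hPS6 : PS6) (hm : L0move)
    {C : CoverData dom0 (glue0 D) N} {z : P2} {τ ε : ℝ} {f : E → N}
    (hf : IsLift C .R (box z ε) f) (hB : box z ε ⊆ dom0 .R) {t κ : ℝ}
    (hκ : 0 < κ) (hκ' : |t| + κ ≤ ε) :
    ∃ W : Set E, IsOpen W ∧ W ⊆ box z ε ∧ (((z.1, z.2 + t), τ) : E) ∈ W ∧ ∀ e ∈ W,
      ∃ t₁ : ℝ, |t₁ - t| < κ ∧ (leafSetoid C (es0 D)) (f e) (f ((z.1, z.2 + t₁), τ)) := by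
  obtain ⟨Y, hY, hY0⟩ := (hPS3 D).1 (z.1, z.2 + t)
  simp only at hY0
  obtain ⟨δ, hδ, H⟩ := hPS6 D Y hY z.1 z.1 le_rfl (κ / 2) (by positivity)
  have hYc : ContinuousAt Y z.1 := (hY z.1 (mem_univ _)).continuousAt
  obtain ⟨ρ₁, hρ₁, H₁⟩ := Metric.continuousAt_iff.1 hYc (κ / 2) (by positivity)
  obtain ⟨ρ₂, hρ₂, H₂⟩ := Metric.continuousAt_iff.1 hYc (δ / 2) (by positivity)
  have hε : 0 < ε := lt_of_lt_of_le (by positivity) hκ'
  set ρ := min (min ρ₁ ρ₂) (min 1 ε) with hρ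
  have hρ0 : 0 < ρ := lt_min (lt_min hρ₁ hρ₂) (lt_min one_pos hε)
  set δ' := min (δ / 2) κ with hδ'
  have hδ0 : 0 < δ' := lt_min (by positivity) hκ
  refine ⟨{e : E | |e.1.1 - z.1| < ρ ∧ |e.1.2 - (z.2 + t)| < δ'}, ?_, ?_, ?_, ?_⟩
  · exact isOpen_box' _ _ _ _
  · rintro e ⟨he1, he2⟩
    refine ⟨he1.trans_le ((min_le_right _ _).trans (min_le_right _ _)), ?_⟩
    have : e.1.2 - z.2 = (e.1.2 - (z.2 + t)) + t := by ring
    rw [this]
    refine (abs_add_le _ _).trans_lt ?_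
    have : δ' ≤ κ := min_le_right _ _
    linarith
  · refine ⟨?_, ?_⟩
    · simpa using hρ0
    · simpa using hδ0
  · rintro e ⟨he1, he2⟩
    obtain ⟨Y₁, hY₁, hY₁0⟩ := (hPS3 D).1 e.1
    have hlt1 : |e.1.1 - z.1| < 1 := he1.trans_le ((min_le_right _ _).trans (min_le_left _ _))
    have hx := abs_lt.1 hlt1
    have hcl : |e.1.2 - Y e.1.1| < δ := by
      have g1 : |Y e.1.1 - Y z.1| < δ / 2 := by
        have := @H₂ e.1.1 (by
          rw [Real.dist_eq]
          exact he1.trans_le ((min_le_left _ _).trans (min_le_right _ _)))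
        rwa [Real.dist_eq] at this
      have g2 : |e.1.2 - (z.2 + t)| < δ / 2 := he2.trans_le (min_le_left _ _)
      have g3 : e.1.2 - Y e.1.1 = (e.1.2 - (z.2 + t)) + (Y z.1 - Y e.1.1) := by rw [hY0]; ring
      rw [g3]
      refine (abs_add_le _ _).trans_lt ?_
      rw [abs_sub_comm (Y z.1)]
      linarith
    have hall := H e.1.1 e.1.2 (by linarith [hx.1]) (by linarith [hx.2]) hcl Y₁ hY₁ hY₁0
    refine ⟨Y₁ z.1 - z.2, ?_, ?_⟩
    · have g := hall z.1 ⟨by linarith, by linarith⟩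
      rw [hY0] at g
      have : Y₁ z.1 - z.2 - t = Y₁ z.1 - (z.2 + t) := by ring
      rw [this]
      linarith
    · have g := hm D N C (box z ε) f hB hf Y₁ hY₁ e.1.1 z.1 e.2 τ ?_
      · have q1 : (((e.1.1, Y₁ e.1.1), e.2) : E) = e := by
          rw [hY₁0]
        have q2 : (((z.1, Y₁ z.1), τ) : E) = ((z.1, z.2 + (Y₁ z.1 - z.2)), τ) := by
          rw [add_sub_cancel]
        rw [q1, q2] at g
        exact g
      · intro x'' hx'' τ''
        have b1 : |x'' - z.1| ≤ |e.1.1 - z.1| := by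
          have := abs_sub_right_of_mem_uIcc hx''
          rw [abs_sub_comm, abs_sub_comm e.1.1]
          simpa [abs_sub_comm] using this
        have b2 : |x'' - z.1| < ρ := b1.trans_lt he1
        have b3 := abs_lt.1 (b2.trans_le ((min_le_right _ _).trans (min_le_left _ _)))
        refine ⟨b2.trans_le ((min_le_right _ _).trans (min_le_right _ _)), ?_⟩
        have g1 : |Y x'' - Y z.1| < κ / 2 := by
          have := @H₁ x'' (by
            rw [Real.dist_eq]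
            exact b2.trans_le ((min_le_left _ _).trans (min_le_left _ _)))
          rwa [Real.dist_eq] at this
        have g2 := hall x'' ⟨by linarith [b3.1], by linarith [b3.2]⟩
        show |Y₁ x'' - z.2| < ε
        have g3 : Y₁ x'' - z.2 = (Y₁ x'' - Y x'') + (Y x'' - Y z.1) + t := by rw [hY0]; ring
        rw [g3]
        refine (abs_add_le _ _).trans_lt ?_
        have g4 := abs_add_le (Y₁ x'' - Y x'') (Y x'' - Y z.1)
        linarith

end L0L08

open L0L08 in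
theorem I_L08 (hPS3 : PS3) (hPS6 : PS6) (hP1 : PL1) (hP2 : PL2) (hG3 : GL3) (hA4 : AR4) (hAP1 : AP1)
    (h1 : L01) (h3 : L03) (h4 : L04) (h6 : L06) (h7 : L07) (hm : L0move) : L08 := by
  intro D N _ _ C z τ ε f hε _ hf hB
  have hBo : IsOpen (box z ε) := isOpen_box' _ _ _ _
  refine IsOpenEmbedding.of_continuous_injective_isOpenMap ?_ ?_ ?_
  · exact continuous_quotient_mk'.comp (cont_f hε hf)
  · rintro ⟨t, ht⟩ ⟨t', ht'⟩ h
    exact Subtype.ext (inj hPS3 hP1 hA4 h1 h3 h6 hε hf ht ht' (Quotient.exact h))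
  · intro O hO
    rw [isOpen_iff_mem_nhds]
    rintro _ ⟨⟨t, ht⟩, htO, rfl⟩
    obtain ⟨O', hO', rfl⟩ := isOpen_induced_iff.1 hO
    have htO' : t ∈ O' := htO
    obtain ⟨κ₀, hκ₀, hκO⟩ := Metric.isOpen_iff.1 hO' t htO'
    have htε : |t| < ε := abs_lt.2 ht
    obtain ⟨W, hW, hWB, heW, HW⟩ := near (D := D) (τ := τ) (t := t) (κ := min κ₀ (ε - |t|)) hPS3 hPS6 hm
      hf hB (lt_min hκ₀ (by linarith)) (by
        have := min_le_right κ₀ (ε - |t|)
        linarith)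
    have hop : IsOpen (Quotient.mk (leafSetoid C (es0 D)) '' (f '' W)) :=
      h7 D N C _ (hG3 _ _ _ N C .R (box z ε) f hBo hB hf W hWB hW)
    refine mem_of_superset (hop.mem_nhds ⟨_, ⟨_, heW, rfl⟩, rfl⟩) ?_
    rintro _ ⟨_, ⟨e, he, rfl⟩, rfl⟩
    obtain ⟨t₁, ht₁, hr⟩ := HW e he
    have c1 : |t₁ - t| < κ₀ := ht₁.trans_le (min_le_left _ _)
    have c2 : |t₁ - t| < ε - |t| := ht₁.trans_le (min_le_right _ _)
    have c3 : |t₁| < ε := by
      have : t₁ = (t₁ - t) + t := by ring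
      rw [this]
      refine (abs_add_le _ _).trans_lt ?_
      linarith
    refine ⟨⟨t₁, abs_lt.1 c3⟩, hκO (by rwa [Metric.mem_ball, Real.dist_eq]), ?_⟩
    exact Quotient.sound ((leafSetoid C (es0 D)).symm hr)

end Pool.Agent.Work.MP_0d206b_gt

end

end
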