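import Pool.Agent.Work.MP_0d206b_gt.Base

/-! ### D.Defs -/

section

/-! Project MP_0d206b_gt, module D: definitions (KData, FData, PData) and small free lemmas.
The target is `Nonempty DA`. -/

set_option autoImplicit false

open Set Filter Topology Function
open scoped ContDiff

noncomputable section

namespace Pool.Agent.Work.MP_0d206b_gt.D

/-! ### Numbers -/

theorem lam_eq : lam = (3 + Real.sqrt 5) / 2 := by
  rw [lam_mul_phi, Real.goldenRatio]; ring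

theorem sqrt5_gt : (2236 : ℝ) / 1000 < Real.sqrt 5 := by
  apply Real.lt_sqrt_of_sq_lt; norm_num

theorem sqrt5_lt : Real.sqrt 5 < (2237 : ℝ) / 1000 := by
  rw [Real.sqrt_lt' (by norm_num)]; norm_num

theorem lam_gt : (2618 : ℝ) / 1000 ≤ lam := by rw [lam_eq]; linarith [sqrt5_gt]

theorem lam_lt : lam < (26185 : ℝ) / 10000 := by rw [lam_eq]; linarith [sqrt5_lt]

theorem lam_one : 1 < lam := by linarith [lam_gt]

theorem lam_ne : lam ≠ 0 := lam_pos.ne'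

theorem lam_inv_eq : lam⁻¹ = 3 - lam := by
  have h : lam * (3 - lam) = 1 := by
    rw [lam_eq]
    have := Real.mul_self_sqrt (show (0 : ℝ) ≤ 5 by norm_num)
    nlinarith
  exact (eq_inv_of_mul_eq_one_right h).symm

theorem laminv_pos : 0 < lam⁻¹ := inv_pos.mpr lam_pos

theorem laminv_lt : lam⁻¹ < (382 : ℝ) / 1000 + 1 / 10000 := by
  rw [lam_inv_eq]; linarith [lam_gt]

theorem laminv_gt : (3815 : ℝ) / 10000 < lam⁻¹ := by rw [lam_inv_eq]; linarith [lam_lt]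

/-! ### Partial derivatives -/

/-- second vertical derivative of the second component -/
def dyy (f : P2 → P2) (z : P2) : ℝ := deriv (fun t => dy f (z.1, t)) z.2

/-- mixed derivative -/
def dxy (f : P2 → P2) (z : P2) : ℝ := deriv (fun t => dx f (z.1, t)) z.2

theorem dy_comp {A B : P2 → P2} {z : P2} {c : ℝ} (hA : DifferentiableAt ℝ A (B z))
    (hB : DifferentiableAt ℝ B z) (hc : ∀ w, (B w).1 = c * w.1) :
    dy (fun w => A (B w)) z = dy A (B z) * dy B z := by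
  have h1 : (fderiv ℝ B z (0, 1)).1 = 0 := by
    have h2 : HasFDerivAt (fun w => (B w).1) ((ContinuousLinearMap.fst ℝ ℝ ℝ).comp (fderiv ℝ B z)) z :=
      (ContinuousLinearMap.fst ℝ ℝ ℝ).hasFDerivAt.comp z hB.hasFDerivAt
    have h3 : HasFDerivAt (fun w : P2 => (B w).1) (c • ContinuousLinearMap.fst ℝ ℝ ℝ) z := by
      have : (fun w : P2 => (B w).1) = fun w => c * w.1 := funext hc
      rw [this]; exact (ContinuousLinearMap.fst ℝ ℝ ℝ).hasFDerivAt.const_mul c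
    have h4 := congrArg (fun T : P2 →L[ℝ] ℝ => T (0, 1)) (h2.unique h3)
    simpa using h4
  unfold dy
  have h5 : HasFDerivAt (fun w => A (B w)) ((fderiv ℝ A (B z)).comp (fderiv ℝ B z)) z :=
    hA.hasFDerivAt.comp z hB.hasFDerivAt
  rw [h5.fderiv]
  have h6 : fderiv ℝ B z (0, 1) = (fderiv ℝ B z (0, 1)).2 • ((0, 1) : P2) := by
    ext <;> simp [h1]
  simp only [ContinuousLinearMap.comp_apply]
  conv_lhs => rw [h6]
  rw [map_smul]; simp [mul_comm]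

theorem dx_comp {A B : P2 → P2} {z : P2} {c : ℝ} (hA : DifferentiableAt ℝ A (B z))
    (hB : DifferentiableAt ℝ B z) (hc : ∀ w, (B w).1 = c * w.1) :
    dx (fun w => A (B w)) z = c * dx A (B z) + dy A (B z) * dx B z := by
  have h1 : (fderiv ℝ B z (1, 0)).1 = c := by
    have h2 : HasFDerivAt (fun w => (B w).1) ((ContinuousLinearMap.fst ℝ ℝ ℝ).comp (fderiv ℝ B z)) z :=
      (ContinuousLinearMap.fst ℝ ℝ ℝ).hasFDerivAt.comp z hB.hasFDerivAt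
    have h3 : HasFDerivAt (fun w : P2 => (B w).1) (c • ContinuousLinearMap.fst ℝ ℝ ℝ) z := by
      have : (fun w : P2 => (B w).1) = fun w => c * w.1 := funext hc
      rw [this]; exact (ContinuousLinearMap.fst ℝ ℝ ℝ).hasFDerivAt.const_mul c
    have h4 := congrArg (fun T : P2 →L[ℝ] ℝ => T (1, 0)) (h2.unique h3)
    simpa using h4
  unfold dx dy
  have h5 : HasFDerivAt (fun w => A (B w)) ((fderiv ℝ A (B z)).comp (fderiv ℝ B z)) z :=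
    hA.hasFDerivAt.comp z hB.hasFDerivAt
  rw [h5.fderiv]
  have h6 : fderiv ℝ B z (1, 0) = c • ((1, 0) : P2) + (fderiv ℝ B z (1, 0)).2 • ((0, 1) : P2) := by
    ext <;> simp [h1]
  simp only [ContinuousLinearMap.comp_apply]
  conv_lhs => rw [h6]
  rw [map_add, map_smul, map_smul]; simp [mul_comm]

theorem hasDerivAt_dy {A : P2 → P2} {x t : ℝ} (hA : DifferentiableAt ℝ A (x, t)) :
    HasDerivAt (fun s => (A (x, s)).2) (dy A (x, t)) t := by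
  have h1 : HasDerivAt (fun s : ℝ => ((x, s) : P2)) ((0, 1) : P2) t :=
    (hasDerivAt_const t x).prodMk (hasDerivAt_id t)
  have h2 := (hA.hasFDerivAt.comp_hasDerivAt t h1)
  exact ((ContinuousLinearMap.snd ℝ ℝ ℝ).hasFDerivAt.comp_hasDerivAt t h2)

theorem hasDerivAt_dx {A : P2 → P2} {x t : ℝ} (hA : DifferentiableAt ℝ A (x, t)) :
    HasDerivAt (fun s => (A (s, t)).2) (dx A (x, t)) x := by
  have h1 : HasDerivAt (fun s : ℝ => ((s, t) : P2)) ((1, 0) : P2) x :=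
    (hasDerivAt_id x).prodMk (hasDerivAt_const x t)
  have h2 := (hA.hasFDerivAt.comp_hasDerivAt x h1)
  exact ((ContinuousLinearMap.snd ℝ ℝ ℝ).hasFDerivAt.comp_hasDerivAt x h2)

theorem contDiff_dy {A : P2 → P2} (hA : ContDiff ℝ ∞ A) : ContDiff ℝ ∞ (dy A) := by
  have h : ContDiff ℝ ∞ (fderiv ℝ A) := hA.fderiv_right (by norm_num)
  exact contDiff_snd.comp (h.clm_apply contDiff_const)

theorem contDiff_dx {A : P2 → P2} (hA : ContDiff ℝ ∞ A) : ContDiff ℝ ∞ (dx A) := by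
  have h : ContDiff ℝ ∞ (fderiv ℝ A) := hA.fderiv_right (by norm_num)
  exact contDiff_snd.comp (h.clm_apply contDiff_const)

/-! ### The two profile functions -/

def r1 : ℝ := 1 / 100
def a0 : ℝ := (2 / 5) / lam

/-- the box on which `F` is the homothety of ratio `λ` -/
def B : Set P2 := {v | |v.1| ≤ a0 ∧ |v.2| ≤ r1}

/-- union of the boxes `m + λ B` -/
def Q : Set P2 := {z | ∃ m ∈ Gam, ∃ v ∈ B, z = m + lam • v}

theorem r1_le_a0 : r1 ≤ a0 := by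
  unfold r1 a0; rw [le_div_iff₀ lam_pos]; linarith [lam_lt]

theorem mem_B_of_norm_le {v : P2} (h : ‖v‖ ≤ r1) : v ∈ B := by
  have h1 := norm_fst_le v
  have h2 := norm_snd_le v
  rw [Real.norm_eq_abs] at h1 h2
  exact ⟨h1.trans (h.trans r1_le_a0), h2.trans h⟩

/-- Profile functions. -/
structure KData where
  chi : ℝ → ℝ
  kap : ℝ → ℝ
  chi_smooth : ContDiff ℝ ∞ chi
  chi_nonneg : ∀ x, 0 ≤ chi x
  chi_le : ∀ x, chi x ≤ 1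
  chi_one : ∀ x, |x| ≤ a0 → chi x = 1
  chi_zero : ∀ x, 2 / 5 ≤ |x| → chi x = 0
  kap_smooth : ContDiff ℝ ∞ kap
  kap_lin : ∀ y, |y| ≤ r1 → kap y = (lam - lam⁻¹) * y
  kap_zero : ∀ y, 2 / 5 ≤ |y| → kap y = 0
  kap_deriv_le : ∀ y, deriv kap y ≤ lam - lam⁻¹
  kap_deriv_ge : ∀ y, -(lam⁻¹ / 2) ≤ deriv kap y
  kap_deriv_out : ∀ y, lam * r1 ≤ |y| → deriv kap y ≤ 0
  kap_bdd : ∀ y, |kap y| ≤ 1 / 20

/-- the perturbation -/
def HK (K : KData) (z : P2) : ℝ :=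
  ∑ᶠ m : Gam, K.chi (z.1 - (m : P2).1) * K.kap (z.2 - (m : P2).2)

/-- the DA map -/
def FK (K : KData) (z : P2) : P2 := (lam * z.1, lam⁻¹ * z.2 + HK K z)

/-! ### The abstract DA map -/

structure FData where
  F : P2 → P2
  Finv : P2 → P2
  smooth : ContDiff ℝ ∞ F
  smooth_inv : ContDiff ℝ ∞ Finv
  F_Finv : ∀ z, F (Finv z) = z
  Finv_F : ∀ z, Finv (F z) = z
  fst : ∀ z, (F z).1 = lam * z.1
  add : ∀ z, ∀ m ∈ Gam, F (z + m) = F z + Lz 1 m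
  lin : ∀ v ∈ B, F v = lam • v
  dy_ge : ∀ z, lam⁻¹ / 2 ≤ dy F z
  dy_le : ∀ z, dy F z ≤ lam
  dy_out : ∀ z, z ∉ Q → dy F z ≤ lam⁻¹
  near : ∀ z, |(F z).2 - lam⁻¹ * z.2| ≤ 1 / 20
  bdd : ∃ C, ∀ z, |dx F z| ≤ C ∧ |dxy F z| ≤ C ∧ |dyy F z| ≤ C

namespace FData

variable (f : FData)

theorem inj : Injective f.F := fun a b h => by rw [← f.Finv_F a, h, f.Finv_F]

theorem dy_pos (z : P2) : 0 < dy f.F z := lt_of_lt_of_le (by have := laminv_pos; linarith) (f.dy_ge z)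

theorem zero : f.F 0 = 0 := by
  have h : (0 : P2) ∈ B := mem_B_of_norm_le (by rw [norm_zero]; unfold r1; norm_num)
  rw [f.lin 0 h, smul_zero]

theorem inv_fst (z : P2) : (f.Finv z).1 = lam⁻¹ * z.1 := by
  have h := f.fst (f.Finv z)
  rw [f.F_Finv] at h
  rw [h]; field_simp [lam_ne]

theorem inv_add (z : P2) {m : P2} (hm : m ∈ Gam) : f.Finv (z + m) = f.Finv z + Lz (-1) m := by
  apply f.inj
  rw [f.F_Finv, f.add _ _ (Lz_negone_mem hm), f.F_Finv, Lz_comp]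
  norm_num [Lz_zero']

theorem map_add_B {m v : P2} (hm : m ∈ Gam) (hv : v ∈ B) : f.F (m + v) = Lz 1 m + lam • v := by
  rw [add_comm, f.add _ _ hm, f.lin v hv, add_comm]

end FData

/-- the linearisation of the unstable set of `0`, as a formula -/
def PsiF (f : FData) (v : P2) : P2 :=
  f.F^[⌈‖v‖ / r1⌉₊] ((lam⁻¹) ^ ⌈‖v‖ / r1⌉₊ • v)

/-- The abstract DA map together with the linearisation of the unstable set of `0`. -/
structure PData extends FData where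
  Psi : P2 → P2
  Psi_smooth : ContDiff ℝ ∞ Psi
  Psi_fst : ∀ v, (Psi v).1 = v.1
  dyPsi_pos : ∀ v, 0 < dy Psi v
  dyPsi_le : ∀ v, dy Psi v ≤ 1
  F_Psi : ∀ v, F (Psi v) = Psi (lam • v)
  Psi_near : ∀ v ∈ B, Psi v = v
  Psi_bdd : ∀ v, |(Psi v).2| ≤ 1 / 8
  Psi_eq : ∀ (n : ℕ) (v : P2), ‖v‖ ≤ r1 * lam ^ n → Psi v = F^[n] ((lam⁻¹) ^ n • v)

/-- the terms of the series of the slope field -/
def DD (f : FData) : ℕ → P2 → ℝ
  | 0, z => dx f.F (f.Finv z) / lam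
  | n + 1, z => dy f.F (f.Finv z) * DD f n (f.Finv z) / lam

/-- the slope field -/
def SS (f : FData) (z : P2) : ℝ := ∑' n, DD f n z

end Pool.Agent.Work.MP_0d206b_gt.D

end

end

/-! ### D.Stmts -/

section

/-! Project MP_0d206b_gt, module D: statements of the items.  Every item is a theorem with the given
name and signature, in its own file `D/<Name>.lean`. -/

set_option autoImplicit false

open Set Filter Topology Function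
open scoped ContDiff

noncomputable section

namespace Pool.Agent.Work.MP_0d206b_gt.D

/-! ### The lattice -/

/-- (Γ1) norm form, separation, injectivity of both projections. -/
def StGam1 : Prop :=
  (∀ m ∈ Gam, m ≠ 0 → 1 ≤ |m.1 * m.2|) ∧
  (∀ m ∈ Gam, ∀ m' ∈ Gam, m ≠ m' → 1 ≤ dist m m') ∧
  (∀ m ∈ Gam, ∀ m' ∈ Gam, m.1 = m'.1 → m = m') ∧
  (∀ m ∈ Gam, ∀ m' ∈ Gam, m.2 = m'.2 → m = m')

/-- topology of the lattice and of its complement -/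
def StGamTop : Prop :=
  IsClosed (Gam : Set P2) ∧ (Gam : Set P2).Countable ∧
  (∀ (z : P2) (R : ℝ), {m : P2 | m ∈ Gam ∧ dist m z ≤ R}.Finite) ∧
  IsOpen {z : P2 | z ∉ Gam} ∧ IsPathConnected {z : P2 | z ∉ Gam} ∧
  (∀ z : P2, z ∉ Gam → ∃ r > 0, ∀ m ∈ Gam, r ≤ dist z m)

/-- (Γ2) -/
def StGam2 : Prop := ∃ C : ℝ, ∀ z : P2, ∃ m ∈ Gam, dist z m ≤ C

/-- (Γ3), (Γ4) -/
def StGam34 : Prop :=
  (∀ a b X : ℝ, a < b → ∃ m ∈ Gam, a < m.2 ∧ m.2 < b ∧ X < m.1) ∧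
  (∀ a b X : ℝ, a < b → ∃ m ∈ Gam, a < m.2 ∧ m.2 < b ∧ m.1 < X) ∧
  (∀ a b Y : ℝ, a < b → ∃ m ∈ Gam, a < m.1 ∧ m.1 < b ∧ Y < m.2) ∧
  (∀ a b Y : ℝ, a < b → ∃ m ∈ Gam, a < m.1 ∧ m.1 < b ∧ m.2 < Y)

/-! ### Construction of the DA map -/

/-- the profile functions exist -/
def StKData : Prop := Nonempty KData

/-- the perturbation: local formulas, periodicity, smoothness -/
def StHK : Prop := ∀ K : KData,
  (∀ m ∈ Gam, ∀ v : P2, ‖v‖ ≤ 1 / 2 → HK K (m + v) = K.chi v.1 * K.kap v.2) ∧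
  (∀ z : P2, (∀ m ∈ Gam, 2 / 5 ≤ dist z m) → HK K z = 0) ∧
  (∀ z : P2, ∀ m ∈ Gam, HK K (z + m) = HK K z) ∧
  ContDiff ℝ ∞ (HK K)

/-- a fibred map with positive vertical derivative has a smooth inverse -/
def StInv : Prop := ∀ F : P2 → P2, ContDiff ℝ ∞ F → (∀ z, (F z).1 = lam * z.1) →
  (∀ z, lam⁻¹ / 2 ≤ dy F z) →
  ∃ Fi : P2 → P2, ContDiff ℝ ∞ Fi ∧ (∀ z, F (Fi z) = z) ∧ (∀ z, Fi (F z) = z)

/-- the estimates for `FK K` -/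
def StFK : Prop := ∀ K : KData,
  ContDiff ℝ ∞ (FK K) ∧ (∀ z, ∀ m ∈ Gam, FK K (z + m) = FK K z + Lz 1 m) ∧
  (∀ v ∈ B, FK K v = lam • v) ∧ (∀ z, lam⁻¹ / 2 ≤ dy (FK K) z) ∧ (∀ z, dy (FK K) z ≤ lam) ∧
  (∀ z, z ∉ Q → dy (FK K) z ≤ lam⁻¹) ∧ (∀ z, |(FK K z).2 - lam⁻¹ * z.2| ≤ 1 / 20)

/-- uniform bounds for derivatives of a map commuting with the lattice -/
def StBdd : Prop := ∀ F : P2 → P2, ContDiff ℝ ∞ F → (∀ z, ∀ m ∈ Gam, F (z + m) = F z + Lz 1 m) →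
  (∀ z, ∀ m ∈ Gam, dx F (z + m) = dx F z ∧ dy F (z + m) = dy F z ∧ dxy F (z + m) = dxy F z ∧
    dyy F (z + m) = dyy F z) ∧
  ∃ C, ∀ z, |dx F z| ≤ C ∧ |dy F z| ≤ C ∧ |dxy F z| ≤ C ∧ |dyy F z| ≤ C

/-- the DA map exists -/
def StFData : Prop := Nonempty FData

/-! ### Dynamics of the DA map -/

/-- the boxes: closedness, separation, forward invariance of the complement, (D4) -/
def StQ : Prop := ∀ f : FData,
  IsClosed Q ∧ (∀ z, ∀ m ∈ Gam, z + m ∈ Q ↔ z ∈ Q) ∧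
  (∀ z, z ∉ Q → f.F z ∉ Q) ∧
  (∀ z, f.F z ∈ Q → ∃ m ∈ Gam, ∃ v ∈ B, z = m + v ∧ f.F z = Lz 1 m + lam • v) ∧
  (∀ z, z ∉ Q → ∀ m ∈ Gam, r1 ≤ dist z m)

/-- (D5) -/
def StD5 : Prop := ∀ f : FData, ∀ z, z ∉ Gam →
  (∃ n0 : ℕ, ∀ n ≥ n0, f.F^[n] z ∉ Q) ∧
  Tendsto (fun n : ℕ => ∏ k ∈ Finset.range n, dy f.F (f.F^[k] z)) atTop (𝓝 0) ∧
  ∃ r > 0, ∀ n : ℕ, ∀ m ∈ Gam, r ≤ dist (f.F^[n] z) m

/-! ### The linearisation `Psi` -/

/-- the formula for `PsiF` may be used with every sufficiently large exponent -/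
def StPsiEq : Prop := ∀ f : FData, ∀ (n : ℕ) (v : P2), ‖v‖ ≤ r1 * lam ^ n →
  PsiF f v = f.F^[n] ((lam⁻¹) ^ n • v)

/-- induction over the scale -/
def StScal : Prop := ∀ P : P2 → Prop, ∀ r > 0, (∀ v : P2, ‖v‖ < r → P v) →
  (∀ v, P v → P (lam • v)) → ∀ v, P v

/-- `PsiF` has all properties of `PData` -/
def StPData : Prop := ∀ f : FData, ∃ p : PData, p.toFData = f

/-- strips are pairwise disjoint and ordered (D7), (D8) -/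
def StStrips : Prop := ∀ p : PData,
  (∀ m ∈ Gam, ∀ v, p.F (m + p.Psi v) = Lz 1 m + p.Psi (lam • v)) ∧
  (∀ m ∈ Gam, ∀ m' ∈ Gam, ∀ v v', m + p.Psi v = m' + p.Psi v' → m = m') ∧
  (∀ m ∈ Gam, ∀ m' ∈ Gam, ∀ v v', m.2 < m'.2 → (m + p.Psi v).1 = (m' + p.Psi v').1 →
    (m + p.Psi v).2 < (m' + p.Psi v').2)

/-- the complement of the strips is invariant and avoids the boxes -/
def StLamInv : Prop := ∀ p : PData,
  (∀ z ∈ LamOf p.Psi, z ∉ Q) ∧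
  (∀ z, p.F z ∈ LamOf p.Psi ↔ z ∈ LamOf p.Psi) ∧
  (∀ z, ∀ m ∈ Gam, z + m ∈ LamOf p.Psi ↔ z ∈ LamOf p.Psi)

/-- (D9) -/
def StDens : Prop := ∀ p : PData, ∀ z : P2, ∀ ε > 0, ∃ m ∈ Gam, ∃ v,
  (m + p.Psi v).1 = z.1 ∧ |(m + p.Psi v).2 - z.2| < ε

/-- (D13) contraction at the complement of the strips -/
def StTend : Prop := ∀ p : PData, ∀ z ∈ LamOf p.Psi, ∀ ε > 0, ∃ δ > 0, ∀ m ∈ Gam, ∀ v,
  dist (m + p.Psi v) z < δ → dy p.Psi v < ε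

/-- (D13) bounded distortion -/
def StDistort : Prop := ∀ p : PData, ∃ C, ∀ v : P2,
  |deriv (fun t => dy p.Psi (v.1, t)) v.2| ≤ C * dy p.Psi v

/-! ### The slope field -/

/-- the terms of the series -/
def StDD : Prop := ∀ f : FData,
  (∀ n, ContDiff ℝ ∞ (DD f n)) ∧ (∀ n, ∀ z ∈ Q, DD f n z = 0) ∧
  (∀ n z, ∀ m ∈ Gam, DD f n (z + m) = DD f n z) ∧
  ∃ C, ∀ n z, |DD f n z| ≤ C * ((lam⁻¹) ^ 2) ^ n

/-- Lipschitz bound of the terms in the vertical direction -/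
def StDDLip : Prop := ∀ f : FData, ∃ C, ∀ (n : ℕ) (x y y' : ℝ),
  |DD f n (x, y) - DD f n (x, y')| ≤ C * (1 / 2) ^ n * |y - y'|

/-- (D11) the slope field -/
def StS : Prop := ∀ f : FData,
  Continuous (SS f) ∧ (∃ C, ∀ z, |SS f z| ≤ C) ∧ (∀ z, ∀ m ∈ Gam, SS f (z + m) = SS f z) ∧
  (∃ K, ∀ x y y', |SS f (x, y) - SS f (x, y')| ≤ K * |y - y'|) ∧
  (∀ z, SS f (f.F z) = (dx f.F z + dy f.F z * SS f z) / lam) ∧ (∀ z ∈ Q, SS f z = 0)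

/-- horizontals in the linear coordinate are `S`-curves -/
def StDxPsi : Prop := ∀ p : PData, ∀ v, dx p.Psi v = SS p.toFData (p.Psi v)

/-- the target of module D -/
def StDA : Prop := Nonempty DA

/-! ### Module D2: the strips, the fields `σ`, `K₀`, `K_a` and the map `g` over an abstract `D : DA` -/

/-- `idx` and `lin` are the strip coordinates -/
def StLin : Prop := ∀ D : DA,
  (∀ v v', D.Psi v = D.Psi v' → v = v') ∧
  (∀ m ∈ Gam, ∀ v, D.idx (m + D.Psi v) = m ∧ D.lin (m + D.Psi v) = v ∧ m + D.Psi v ∉ D.Lam) ∧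
  (∀ z, z ∉ D.Lam → D.idx z ∈ Gam ∧ z = D.idx z + D.Psi (D.lin z)) ∧
  (∀ z, z ∉ Gam → z ∉ D.Lam → D.lin z ≠ 0) ∧ (∀ m ∈ Gam, m ∉ D.Lam) ∧
  (∀ z ∈ D.Lam, D.idx z = 0 ∧ D.lin z = 0) ∧
  (∀ z, (D.idx z).1 + (D.lin z).1 = z.1 ∨ z ∈ D.Lam)

/-- invariance of `Lam`, `idx`, `lin` -/
def StLinInv : Prop := ∀ D : DA,
  (∀ z, ∀ m ∈ Gam, z + m ∈ D.Lam ↔ z ∈ D.Lam) ∧ (∀ z, D.F z ∈ D.Lam ↔ z ∈ D.Lam) ∧
  (∀ z, D.F z ∈ Gam ↔ z ∈ Gam) ∧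
  (∀ z, ∀ m ∈ Gam, z ∉ D.Lam → D.idx (z + m) = D.idx z + m ∧ D.lin (z + m) = D.lin z) ∧
  (∀ z, z ∉ D.Lam → D.idx (D.F z) = Lz 1 (D.idx z) ∧ D.lin (D.F z) = lam • D.lin z)

/-- topology of the strips -/
def StOpen : Prop := ∀ D : DA,
  IsOpenEmbedding D.Psi ∧ IsClosed D.Lam ∧
  (∀ z, z ∉ D.Lam → ∀ᶠ z' in 𝓝 z, z' ∉ D.Lam ∧ D.idx z' = D.idx z) ∧
  (∀ z, z ∉ D.Lam → ContDiffAt ℝ ∞ D.lin z) ∧
  (∀ z ∈ D.Lam, ∀ R : ℝ, ∃ δ > 0, ∀ m ∈ Gam, ∀ v, dist (m + D.Psi v) z < δ → R < ‖v‖)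

/-- a function vanishing on a closed set, with bounded derivative off it, is Lipschitz -/
def StLip1D : Prop := ∀ (f : ℝ → ℝ) (A : Set ℝ) (L a b : ℝ), 0 ≤ L → IsClosed A → ContinuousOn f (Icc a b) →
  (∀ t ∈ A, f t = 0) → (∀ t ∈ Icc a b, t ∉ A → DifferentiableAt ℝ f t ∧ |deriv f t| ≤ L) →
  ∀ s ∈ Icc a b, ∀ t ∈ Icc a b, |f s - f t| ≤ L * |s - t|

/-- (D13) `σ`: continuity, boundedness, invariance -/
def StSigma : Prop := ∀ D : DA,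
  ContinuousOn D.sigma {z | z ∉ Gam} ∧ (∃ C, ∀ z, |D.sigma z| ≤ C) ∧
  (∀ z, ∀ m ∈ Gam, D.sigma (z + m) = D.sigma z) ∧
  (∀ z, D.sigma (D.F z) = (dx D.F z + dy D.F z * D.sigma z) / lam) ∧
  (∀ z ∈ D.Lam, D.sigma z = D.S z)

/-- (D13) `σ` is locally Lipschitz in the vertical direction -/
def StSigmaLip : Prop := ∀ D : DA, ∀ z, z ∉ Gam → ∃ ε > 0, ∃ L, ∀ x y y' : ℝ,
  |x - z.1| < ε → |y - z.2| < ε → |y' - z.2| < ε →
  |D.sigma (x, y) - D.sigma (x, y')| ≤ L * |y - y'|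

/-- (D14) -/
def StK : Prop := ∀ D : DA,
  ContinuousOn D.K0 {z | z ∉ Gam} ∧ ContinuousOn D.Ka {z | z ∉ Gam} ∧
  (∀ z, ∀ m ∈ Gam, D.K0 (z + m) = D.K0 z ∧ D.Ka (z + m) = D.Ka z) ∧
  (∀ z, D.K0 (D.F z) = lam⁻¹ * D.K0 z ∧ D.Ka (D.F z) = lam⁻¹ * D.Ka z)

/-- `Y` solves `Y' = f x (Y x)` on `[a, b]` -/
def Sol (f : ℝ → ℝ → ℝ) (a b : ℝ) (Y : ℝ → ℝ) : Prop :=
  ∀ x ∈ Icc a b, HasDerivWithinAt Y (f x (Y x)) (Icc a b) x

/-- global Picard theorem for a bounded, globally Lipschitz, separately continuous right hand side -/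
def StPic : Prop := ∀ (f : ℝ → ℝ → ℝ) (a b K C : ℝ), 0 ≤ K →
  (∀ y, ContinuousOn (fun x => f x y) (Icc a b)) →
  (∀ x ∈ Icc a b, ∀ y y', |f x y - f x y'| ≤ K * |y - y'|) →
  (∀ x ∈ Icc a b, ∀ y, |f x y| ≤ C) →
  ∀ x0 ∈ Icc a b, ∀ y0, ∃ Y : ℝ → ℝ, Y x0 = y0 ∧ Sol f a b Y

/-- Gronwall estimate, forward and backward -/
def StGron : Prop := ∀ (f : ℝ → ℝ → ℝ) (a b K : ℝ), 0 ≤ K →
  (∀ x ∈ Icc a b, ∀ y y', |f x y - f x y'| ≤ K * |y - y'|) →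
  ∀ Y Y' : ℝ → ℝ, Sol f a b Y → Sol f a b Y' → ∀ x ∈ Icc a b, ∀ x0 ∈ Icc a b,
    |Y x - Y' x| ≤ Real.exp (K * |x - x0|) * |Y x0 - Y' x0|

/-- (D12) `S`-curves: global existence -/
def StSCurve1 : Prop := ∀ D : DA, ∀ z : P2, ∃ Y : ℝ → ℝ, Y z.1 = z.2 ∧
  ∀ x, HasDerivAt Y (D.S (x, Y x)) x

/-- (D12) `S`-curves: Gronwall estimate (in particular uniqueness) -/
def StSCurve2 : Prop := ∀ D : DA, ∃ K, 0 ≤ K ∧ ∀ Y Y' : ℝ → ℝ,
  (∀ x, HasDerivAt Y (D.S (x, Y x)) x) → (∀ x, HasDerivAt Y' (D.S (x, Y' x)) x) → ∀ x x0,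
    |Y x - Y' x| ≤ Real.exp (K * |x - x0|) * |Y x0 - Y' x0|

/-- (D12) an `S`-curve through a point of `Lam` stays in `Lam` (also locally, on an interval) -/
def StSCurve3 : Prop := ∀ D : DA, ∀ (a b : ℝ) (Y : ℝ → ℝ), Sol (fun x y => D.S (x, y)) a b Y →
  ∀ x0 ∈ Icc a b, (x0, Y x0) ∈ D.Lam → ∀ x ∈ Icc a b, (x, Y x) ∈ D.Lam

/-- tube: `σ`-curves near an `S`-curve contained in `Lam` -/
def StTube : Prop := ∀ D : DA, ∀ Y : ℝ → ℝ, (∀ x, HasDerivAt Y (D.S (x, Y x)) x) →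
  (∀ x, (x, Y x) ∈ D.Lam) → ∀ (a b : ℝ), ∀ ε > 0, ∃ δ > 0, ∀ x0 ∈ Icc a b, ∀ t, |t| < δ →
  ∃ Yt : ℝ → ℝ, Yt x0 = Y x0 + t ∧ Sol (fun x y => D.sigma (x, y)) a b Yt ∧
    ∀ x ∈ Icc a b, |Yt x - Y x| < ε ∧ (x, Yt x) ∉ Gam

/-- (D15) the gluing map -/
def StGmap : Prop :=
  (∀ v : P2, 0 < v.2 → gminv (gmap v) = v ∧ ¬((gmap v).2 = 0 ∧ 0 ≤ (gmap v).1) ∧
    nsq (gmap v) = (nsq v) ^ 2 / v.2 ^ 2 ∧ 0 < nsq (gmap v)) ∧
  (∀ w : P2, ¬(w.2 = 0 ∧ 0 ≤ w.1) → gmap (gminv w) = w ∧ 0 < (gminv w).2) ∧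
  (∀ (v : P2) (r : ℝ), 0 < r → gmap (r • v) = r • gmap v) ∧
  (∀ (w : P2) (r : ℝ), 0 < r → gminv (r • w) = r • gminv w) ∧
  ContDiffOn ℝ ∞ gmap {v | v.2 ≠ 0} ∧ ContDiffOn ℝ ∞ gminv {w | ¬(w.2 = 0 ∧ 0 ≤ w.1)} ∧
  IsOpen {w : P2 | ¬(w.2 = 0 ∧ 0 ≤ w.1)} ∧
  (∀ x s t : ℝ, 0 < s → s < t → (gmap (x, t)).1 < (gmap (x, s)).1) ∧
  (∀ x c : ℝ, ∃ T > 0, ∀ t > T, (gmap (x, t)).1 < c)

end Pool.Agent.Work.MP_0d206b_gt.D

end

end
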